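import Pool.Agent.BF80.Defs
import Mathlib

/-!
# The axioms, as a primitive recursive list of relational formulas
-/

set_option maxSynthPendingDepth 10

open Polynomial

namespace BF80

open FT80

namespace Ax

/-! ### Connectives -/

section conn

variable {α : Type} {R : RS α} {e : ℕ → α} {φ ψ χ : FR}

/-- implication -/
def imp (φ ψ : FR) : FR := .neg (.and φ (.neg ψ))
/-- disjunction -/
def or (φ ψ : FR) : FR := .neg (.and (.neg φ) (.neg ψ))
/-- truth -/
def tr : FR := .eq 0 0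

theorem sat_imp : Sat R e (imp φ ψ) ↔ (Sat R e φ → Sat R e ψ) := by
  simp only [imp, Sat]
  tauto

theorem sat_or : Sat R e (or φ ψ) ↔ (Sat R e φ ∨ Sat R e ψ) := by
  simp only [or, Sat]
  tauto

theorem sat_tr : Sat R e tr := rfl

end conn

/-! ### Field axioms -/

/-- the relational axioms of fields with a constant -/
def fieldAx : List FR := [
  .ex 2 (.add 0 1 2),
  imp (.add 0 1 2) (imp (.add 0 1 3) (.eq 2 3)),
  .ex 2 (.mul 0 1 2),
  imp (.mul 0 1 2) (imp (.mul 0 1 3) (.eq 2 3)),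
  .ex 0 (.zero 0),
  imp (.zero 0) (imp (.zero 1) (.eq 0 1)),
  .ex 0 (.one 0),
  imp (.one 0) (imp (.one 1) (.eq 0 1)),
  .ex 0 (.tt 0),
  imp (.tt 0) (imp (.tt 1) (.eq 0 1)),
  imp (.add 0 1 3) (imp (.add 3 2 4) (imp (.add 1 2 5) (.add 0 5 4))),
  imp (.zero 1) (.add 1 0 0),
  .ex 1 (.ex 2 (.and (.zero 2) (.add 1 0 2))),
  imp (.mul 0 1 3) (imp (.mul 3 2 4) (imp (.mul 1 2 5) (.mul 0 5 4))),
  imp (.mul 0 1 2) (.mul 1 0 2),
  imp (.one 1) (.mul 1 0 0),
  imp (.add 1 2 3) (imp (.mul 0 3 4) (imp (.mul 0 1 5) (imp (.mul 0 2 6) (.add 5 6 4)))),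
  imp (.zero 0) (imp (.one 1) (.neg (.eq 0 1))),
  or (.zero 0) (.ex 1 (.ex 2 (.and (.one 2) (.mul 0 1 2))))]

theorem sat_fieldAx {M : Type} [Field M] (t : M) : ∀ φ ∈ fieldAx, ∀ e, Sat (ringRS t) e φ := by
  intro φ hφ
  simp only [fieldAx, List.mem_cons, List.not_mem_nil, or_false] at hφ
  rcases hφ with rfl | rfl | rfl | rfl | rfl | rfl | rfl | rfl | rfl | rfl | rfl | rfl | rfl |
    rfl | rfl | rfl | rfl | rfl | rfl
  all_goals intro e; simp only [sat_imp, sat_or, Sat, ringRS, Function.update_apply]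
  · simp
  · intro h1 h2; rw [← h1, ← h2]
  · simp
  · intro h1 h2; rw [← h1, ← h2]
  · simp
  · intro h1 h2; rw [h1, h2]
  · simp
  · intro h1 h2; rw [h1, h2]
  · simp
  · intro h1 h2; rw [h1, h2]
  · intro h1 h2 h3; rw [← h2, ← h1, ← h3]; ring
  · intro h; rw [h]; ring
  · exact ⟨- e 0, 0, by simp⟩
  · intro h1 h2 h3; rw [← h2, ← h1, ← h3]; ring
  · intro h; rw [← h]; ring
  · intro h; rw [h]; ring
  · intro h1 h2 h3 h4; rw [← h2, ← h3, ← h4, ← h1]; ring
  · intro h1 h2; rw [h1, h2]; exact zero_ne_one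
  · by_cases h : e 0 = 0
    · exact Or.inl h
    · exact Or.inr ⟨(e 0)⁻¹, 1, by simp [h]⟩

theorem field_of_sat {α : Type} [Nonempty α] (R : RS α)
    (h : ∀ φ ∈ fieldAx, ∀ e, Sat R e φ) : ∃ (_ : Field α) (t : α), R = ringRS t := by
  classical
  simp only [fieldAx, List.forall_mem_cons, sat_imp, sat_or, Sat, Function.update_apply] at h
  obtain ⟨h1, h2, h3, h4, h5, h6, h7, h8, h9, h10, h11, h12, h13, h14, h15, h16, h17, h18,
    h19, -⟩ := h
  let E : α → α → α → α → α → α → α → ℕ → α := fun a b c d e f g n =>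
    if n = 0 then a else if n = 1 then b else if n = 2 then c else if n = 3 then d else
      if n = 4 then e else if n = 5 then f else g
  have a1 : ∀ x y, ∃ z, R.add x y z := by
    intro x y
    simpa [E] using h1 (E x y x x x x x)
  have a2 : ∀ x y z w, R.add x y z → R.add x y w → z = w := by
    intro x y z w
    simpa [E] using h2 (E x y z w x x x)
  have a3 : ∀ x y, ∃ z, R.mul x y z := by
    intro x y
    simpa [E] using h3 (E x y x x x x x)
  have a4 : ∀ x y z w, R.mul x y z → R.mul x y w → z = w := by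
    intro x y z w
    simpa [E] using h4 (E x y z w x x x)
  obtain ⟨x0⟩ := ‹Nonempty α›
  have a5 : ∃ z, R.zero z := by simpa [E] using h5 (E x0 x0 x0 x0 x0 x0 x0)
  have a6 : ∀ x y, R.zero x → R.zero y → x = y := by
    intro x y
    simpa [E] using h6 (E x y x x x x x)
  have a7 : ∃ z, R.one z := by simpa [E] using h7 (E x0 x0 x0 x0 x0 x0 x0)
  have a8 : ∀ x y, R.one x → R.one y → x = y := by
    intro x y
    simpa [E] using h8 (E x y x x x x x)
  have a9 : ∃ z, R.tt z := by simpa [E] using h9 (E x0 x0 x0 x0 x0 x0 x0)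
  have a10 : ∀ x y, R.tt x → R.tt y → x = y := by
    intro x y
    simpa [E] using h10 (E x y x x x x x)
  obtain ⟨o, ho⟩ := a5
  obtain ⟨u, hu⟩ := a7
  obtain ⟨t, ht⟩ := a9
  choose ad had using a1
  choose mu hmu using a3
  have zo : ∀ x, R.zero x ↔ x = o := fun x => ⟨fun hx => a6 x o hx ho, fun hx => hx ▸ ho⟩
  have on : ∀ x, R.one x ↔ x = u := fun x => ⟨fun hx => a8 x u hx hu, fun hx => hx ▸ hu⟩
  have tn : ∀ x, R.tt x ↔ x = t := fun x => ⟨fun hx => a10 x t hx ht, fun hx => hx ▸ ht⟩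
  have add_iff : ∀ x y z, R.add x y z ↔ ad x y = z := fun x y z =>
    ⟨fun hx => a2 x y _ _ (had x y) hx, fun hx => hx ▸ had x y⟩
  have mul_iff : ∀ x y z, R.mul x y z ↔ mu x y = z := fun x y z =>
    ⟨fun hx => a4 x y _ _ (hmu x y) hx, fun hx => hx ▸ hmu x y⟩
  simp only [zo, on, add_iff, mul_iff] at h11 h12 h13 h14 h15 h16 h17 h18 h19
  have b1 : ∀ a b c, ad (ad a b) c = ad a (ad b c) := by
    intro a b c
    have := h11 (E a b c (ad a b) (ad (ad a b) c) (ad b c) a)
    simp only [E] at this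
    exact (this (by simp) (by simp) (by simp)).symm
  have b2 : ∀ a, ad o a = a := by
    intro a
    simpa [E] using h12 (E a o a a a a a)
  have b3 : ∀ a, ∃ b, ad b a = o := by
    intro a
    have := h13 (E a a a a a a a)
    obtain ⟨b, c, h1, h2⟩ := this
    refine ⟨b, ?_⟩
    simp [E] at h1 h2
    rw [h2, h1]
  have b4 : ∀ a b c, mu (mu a b) c = mu a (mu b c) := by
    intro a b c
    have := h14 (E a b c (mu a b) (mu (mu a b) c) (mu b c) a)
    simp only [E] at this
    exact (this (by simp) (by simp) (by simp)).symm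
  have b5 : ∀ a b, mu a b = mu b a := by
    intro a b
    have := h15 (E a b (mu a b) a a a a)
    simp only [E] at this
    exact (this (by simp)).symm
  have b6 : ∀ a, mu u a = a := by
    intro a
    simpa [E] using h16 (E a u a a a a a)
  have b7 : ∀ a b c, mu a (ad b c) = ad (mu a b) (mu a c) := by
    intro a b c
    have := h17 (E a b c (ad b c) (mu a (ad b c)) (mu a b) (mu a c))
    simp only [E] at this
    exact (this (by simp) (by simp) (by simp) (by simp)).symm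
  have b8 : o ≠ u := by
    have := h18 (E o u o o o o o)
    simp only [E] at this
    exact this (by simp) (by simp)
  have b9 : ∀ a, a ≠ o → ∃ b, mu a b = u := by
    intro a ha
    have := h19 (E a a a a a a a)
    rcases this with h1 | ⟨b, c, h1, h2⟩
    · exact absurd h1 ha
    · refine ⟨b, ?_⟩
      simp [E] at h1 h2
      rw [h2, h1]
  choose ng hng using b3
  have b10 : ∀ a, ∃ b, (a ≠ o → mu a b = u) ∧ (a = o → b = o) := by
    intro a
    by_cases ha : a = o
    · exact ⟨o, fun h => absurd ha h, fun _ => rfl⟩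
    · obtain ⟨b, hb⟩ := b9 a ha
      exact ⟨b, fun _ => hb, fun h => absurd h ha⟩
  choose iv hiv1 hiv2 using b10
  let _ : Add α := ⟨ad⟩
  let _ : Mul α := ⟨mu⟩
  let _ : Neg α := ⟨ng⟩
  let _ : Inv α := ⟨iv⟩
  let _ : Zero α := ⟨o⟩
  let _ : One α := ⟨u⟩
  refine ⟨Field.ofMinimalAxioms α b1 b2 hng b4 b5 b6 (fun a ha => hiv1 a ha) (hiv2 o rfl) b7
    ⟨o, u, b8⟩, t, ?_⟩
  cases R with
  | mk Radd Rmul Rzero Rone Rtt =>
  have e1 : Radd = fun x y z => ad x y = z := by
    funext x y z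
    exact propext (add_iff x y z)
  have e2 : Rmul = fun x y z => mu x y = z := by
    funext x y z
    exact propext (mul_iff x y z)
  have e3 : Rzero = fun x => x = o := by
    funext x
    exact propext (zo x)
  have e4 : Rone = fun x => x = u := by
    funext x
    exact propext (on x)
  have e5 : Rtt = fun x => x = t := by
    funext x
    exact propext (tn x)
  rw [e1, e2, e3, e4, e5]
  rfl

/-! ### The valuation axioms: fixed formulas -/

section fixed

variable {M : Type} [Field M] (t : M)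

/-- `x_i` is in the valuation ring -/
def voF (i : ℕ) : FR := .ex (i + 1) (.ex (i + 2) (.ex (i + 3) (.ex (i + 4) (.ex (i + 5)
  (.and (.mul (i + 1) (i + 1) (i + 2)) (.and (.mul i i (i + 3)) (.and (.tt (i + 4))
    (.and (.mul (i + 4) (i + 3) (i + 5)) (.add (i + 2) (i + 1) (i + 5))))))))))

theorem sat_voF (e : ℕ → M) (i : ℕ) : Sat (ringRS t) e (voF i) ↔ VO t (e i) := by
  simp only [voF, Sat, ringRS, Function.update_apply, VO]
  constructor
  · rintro ⟨y, y2, x2, tv, r, h1, h2, h3, h4, h5⟩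
    simp at h1 h2 h3 h4 h5
    exact ⟨y, by rw [pow_two, h1, h5, ← h4, h3, ← h2, pow_two]⟩
  · rintro ⟨y, hy⟩
    refine ⟨y, y * y, e i * e i, t, t * (e i * e i), ?_⟩
    simp
    rw [← pow_two, ← pow_two, hy]

/-- `x_v = a` -/
def numF : ℕ → ℕ → FR
  | 0, v => .zero v
  | a + 1, v => .ex (v + 1) (.ex (v + 2) (.and (numF a (v + 1))
      (.and (.one (v + 2)) (.add (v + 1) (v + 2) v))))

theorem sat_numF (a : ℕ) : ∀ (v : ℕ) (e : ℕ → M), Sat (ringRS t) e (numF a v) ↔ e v = a := by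
  induction a with
  | zero =>
    intro v e
    simp [numF, Sat, ringRS]
  | succ a ih =>
    intro v e
    simp only [numF, Sat, ih]
    simp only [ringRS, Function.update_apply]
    constructor
    · rintro ⟨x, y, h1, h2, h3⟩
      simp at h1 h2 h3
      rw [← h3, h1, h2]
      push_cast
      rfl
    · intro h
      refine ⟨a, 1, ?_⟩
      simp [h]

/-- some `a < n` has `(x_0 - a) / t` in the valuation ring -/
def resF : ℕ → FR
  | 0 => .neg tr
  | a + 1 => or (resF a) (.ex 1 (.ex 2 (.ex 3 (.ex 4 (.and (numF a 1) (.and (.tt 2)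
      (.and (.mul 2 3 4) (.and (.add 1 4 0) (voF 3)))))))))

theorem sat_resF (ht : t ≠ 0) (e : ℕ → M) (n : ℕ) :
    Sat (ringRS t) e (resF n) ↔ ∃ a < n, VO t ((e 0 - (a : ℕ)) / t) := by
  induction n with
  | zero => simp [resF, Sat, tr]
  | succ n ih =>
    rw [resF, sat_or, ih]
    simp only [Sat, sat_numF, sat_voF]
    simp only [ringRS, Function.update_apply]
    constructor
    · rintro (⟨a, ha, h⟩ | ⟨x, y, z, w, h1, h2, h3, h4, h5⟩)
      · exact ⟨a, by omega, h⟩
      · refine ⟨n, by omega, ?_⟩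
        simp at h1 h2 h3 h4 h5
        have h6 : (e 0 - (n : M)) / t = z := by
          rw [← h4, ← h3, h2, h1]
          field_simp
          ring
        rw [h6]
        exact h5
    · rintro ⟨a, ha, h⟩
      by_cases han : a = n
      · subst han
        refine Or.inr ⟨a, t, (e 0 - a) / t, e 0 - a, ?_⟩
        simp
        exact ⟨by field_simp, h⟩
      · exact Or.inl ⟨a, by omega, h⟩

/-- the fixed axioms about the valuation ring -/
def voAx (p : ℕ) : List FR := [
  imp (numF p 0) (.zero 0),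
  imp (.tt 0) (.neg (.zero 0)),
  imp (.one 0) (voF 0),
  imp (voF 0) (imp (voF 1) (imp (.add 0 1 2) (voF 2))),
  imp (voF 0) (imp (voF 1) (imp (.mul 0 1 2) (voF 2))),
  imp (.mul 0 1 2) (imp (.one 2) (or (voF 0) (voF 1))),
  imp (.tt 0) (imp (.mul 0 1 2) (imp (.one 2) (.neg (voF 1)))),
  imp (voF 0) (resF p)]

/-- the content of the fixed axioms -/
structure VOAx (p : ℕ) : Prop where
  char : (p : M) = 0
  ne : t ≠ 0
  one : VO t 1
  add : ∀ x y, VO t x → VO t y → VO t (x + y)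
  mul : ∀ x y, VO t x → VO t y → VO t (x * y)
  inv : ∀ x, VO t x ∨ VO t x⁻¹
  tinv : ¬ VO t t⁻¹
  res : ∀ x, VO t x → ∃ a < p, VO t ((x - (a : ℕ)) / t)

theorem VO_zero' : VO t 0 := ⟨0, by simp⟩

theorem sat_voAx (p : ℕ) : (∀ φ ∈ voAx p, ∀ e, Sat (ringRS t) e φ) ↔ VOAx t p := by
  simp only [voAx, List.forall_mem_cons, sat_imp, sat_or, Sat, sat_numF, sat_voF]
  constructor
  · rintro ⟨h1, h2, h3, h4, h5, h6, h7, h8, -⟩
    let E : M → M → M → ℕ → M := fun a b c n => if n = 0 then a else if n = 1 then b else c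
    simp only [ringRS] at h1 h2 h3 h4 h5 h6 h7
    have ht : t ≠ 0 := by simpa [E] using h2 (E t t t)
    refine ⟨?_, ht, ?_, ?_, ?_, ?_, ?_, ?_⟩
    · simpa [E] using h1 (E p p p)
    · simpa [E] using h3 (E 1 1 1)
    · intro x y hx hy
      have := h4 (E x y (x + y))
      simp [E] at this
      exact this hx hy
    · intro x y hx hy
      have := h5 (E x y (x * y))
      simp [E] at this
      exact this hx hy
    · intro x
      by_cases hx : x = 0
      · rw [hx]
        exact Or.inl (VO_zero' t)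
      · have := h6 (E x x⁻¹ 1)
        simp [E, hx] at this
        exact this
    · have := h7 (E t t⁻¹ 1)
      simp [E, ht] at this
      exact this
    · intro x hx
      have := h8 (E x x x)
      rw [sat_resF t ht] at this
      exact this hx
  · intro h
    refine ⟨?_, ?_, ?_, ?_, ?_, ?_, ?_, ?_, ?_⟩
    · intro e h1
      exact h1.trans h.char
    · intro e h1 h2
      simp only [ringRS] at h1 h2
      exact h.ne (h1.symm.trans h2)
    · intro e h1
      simp only [ringRS] at h1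
      rw [h1]
      exact h.one
    · intro e h1 h2 h3
      simp only [ringRS] at h3
      rw [← h3]
      exact h.add _ _ h1 h2
    · intro e h1 h2 h3
      simp only [ringRS] at h3
      rw [← h3]
      exact h.mul _ _ h1 h2
    · intro e h1 h2
      simp only [ringRS] at h1 h2
      have h3 : e 1 = (e 0)⁻¹ := by
        rw [h2] at h1
        exact eq_inv_of_mul_eq_one_right h1
      rw [h3]
      exact h.inv _
    · intro e h1 h2 h3
      simp only [ringRS] at h1 h2 h3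
      have h4 : e 1 = t⁻¹ := by
        rw [h3, h1] at h2
        exact eq_inv_of_mul_eq_one_right h2
      rw [h4]
      exact h.tinv
    · intro e h1
      rw [sat_resF t h.ne]
      exact h.res _ h1
    · intro φ hφ
      exact absurd hφ (List.not_mem_nil)

end fixed

/-! ### The schemes -/

section schemes

variable {M : Type} [Field M] (t : M)

/-- `x_(2n+10) = x_1 ^ j` for some `j < n` -/
def TF : ℕ → FR
  | 0 => .neg tr
  | n + 1 => or (.one (2 * n + 12)) (.ex (2 * n + 10) (.and (TF n)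
      (.mul 1 (2 * n + 10) (2 * n + 12))))

theorem sat_TF (n : ℕ) : ∀ e : ℕ → M, Sat (ringRS t) e (TF n) ↔
    ∃ j < n, e (2 * n + 10) = e 1 ^ j := by
  induction n with
  | zero => simp [TF, Sat, tr]
  | succ n ih =>
    intro e
    rw [TF, sat_or]
    simp only [Sat, ih]
    simp only [ringRS, Function.update_apply]
    have h1 : 1 ≠ 2 * n + 10 := by omega
    have h2 : 2 * n + 12 ≠ 2 * n + 10 := by omega
    have h3 : 2 * (n + 1) + 10 = 2 * n + 12 := by ring
    simp only [h1, h2, h3, if_true, if_false]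
    constructor
    · rintro (h | ⟨a, ⟨j, hj, h4⟩, h5⟩)
      · exact ⟨0, by omega, by rw [h, pow_zero]⟩
      · exact ⟨j + 1, by omega, by rw [← h5, h4, pow_succ']⟩
    · rintro ⟨j, hj, h4⟩
      rcases j with _ | j
      · exact Or.inl (by rw [h4, pow_zero])
      · exact Or.inr ⟨e 1 ^ j, ⟨j, by omega, rfl⟩, by rw [h4, pow_succ']⟩

/-- `x_(2n+11) = x_2 ^ n` -/
def WF : ℕ → FR
  | 0 => .one 11
  | n + 1 => .ex (2 * n + 11) (.and (WF n) (.mul 2 (2 * n + 11) (2 * n + 13)))

theorem sat_WF (n : ℕ) : ∀ e : ℕ → M, Sat (ringRS t) e (WF n) ↔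
    e (2 * n + 11) = e 2 ^ n := by
  induction n with
  | zero => simp [WF, Sat, ringRS]
  | succ n ih =>
    intro e
    rw [WF]
    simp only [Sat, ih]
    simp only [ringRS, Function.update_apply]
    have h1 : 2 ≠ 2 * n + 11 := by omega
    have h2 : 2 * n + 13 ≠ 2 * n + 11 := by omega
    have h3 : 2 * (n + 1) + 11 = 2 * n + 13 := by ring
    simp only [h1, h2, h3, if_true, if_false]
    constructor
    · rintro ⟨a, h4, h5⟩
      rw [← h5, h4, pow_succ']
    · intro h4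
      exact ⟨_, rfl, by rw [h4, pow_succ']⟩

/-- `x_3 = γ` for some `1 ≤ γ < n` -/
def gamF : ℕ → FR
  | 0 => .neg tr
  | a + 1 => or (gamF a) (if a = 0 then .neg tr else numF a 3)

theorem sat_gamF (e : ℕ → M) (n : ℕ) : Sat (ringRS t) e (gamF n) ↔
    ∃ γ < n, 1 ≤ γ ∧ e 3 = (γ : ℕ) := by
  induction n with
  | zero => simp [gamF, Sat, tr]
  | succ n ih =>
    rw [gamF, sat_or, ih]
    have h1 : Sat (ringRS t) e (if n = 0 then .neg tr else numF n 3) ↔
        (1 ≤ n ∧ e 3 = (n : ℕ)) := by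
      split_ifs with h
      · simp [Sat, tr, h]
      · rw [sat_numF]
        exact ⟨fun h' => ⟨by omega, h'⟩, fun h' => h'.2⟩
    rw [h1]
    constructor
    · rintro (⟨γ, h2, h3⟩ | h2)
      · exact ⟨γ, by omega, h3⟩
      · exact ⟨n, by omega, h2⟩
    · rintro ⟨γ, h2, h3⟩
      by_cases h4 : γ = n
      · subst h4
        exact Or.inr h3
      · exact Or.inl ⟨γ, by omega, h3⟩

/-- the power scheme -/
def powF (p n : ℕ) : FR := imp (.neg (.zero 0)) (.ex 1 (.and (.tt 1) (.ex 2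
  (.ex (2 * n + 10) (.and (TF n) (.ex (2 * n + 11) (.and (WF n) (.ex 3 (.and (gamF p)
    (.ex 4 (.and (.mul 3 (2 * n + 10) 4) (.mul 4 (2 * n + 11) 0))))))))))))

theorem sat_powF (p n : ℕ) : (∀ e, Sat (ringRS t) e (powF p n)) ↔ ∀ x : M, x ≠ 0 →
    ∃ γ < p, ∃ j < n, ∃ y : M, 1 ≤ γ ∧ x = (γ : ℕ) * t ^ j * y ^ n := by
  have key : ∀ e, Sat (ringRS t) e (powF p n) ↔ (e 0 ≠ 0 →
      ∃ γ < p, ∃ j < n, ∃ y : M, 1 ≤ γ ∧ e 0 = (γ : ℕ) * t ^ j * y ^ n) := by
    intro e
    rw [powF, sat_imp]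
    simp only [Sat, sat_TF, sat_WF, sat_gamF]
    simp only [ringRS, Function.update_apply]
    have h1 : 1 ≠ 2 * n + 10 := by omega
    have h2 : 2 ≠ 2 * n + 10 := by omega
    have h3 : 3 ≠ 2 * n + 10 := by omega
    have h4 : 4 ≠ 2 * n + 10 := by omega
    have h5 : 0 ≠ 2 * n + 10 := by omega
    have h1' : 1 ≠ 2 * n + 11 := by omega
    have h2' : 2 ≠ 2 * n + 11 := by omega
    have h3' : 3 ≠ 2 * n + 11 := by omega
    have h4' : 4 ≠ 2 * n + 11 := by omega
    have h5' : 0 ≠ 2 * n + 11 := by omega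
    have h6 : 2 * n + 11 ≠ 2 * n + 10 := by omega
    simp only [h1, h2, h5, h2', h3', h4', h5', h6, h1.symm, h2.symm, h3.symm, h4.symm,
      h1'.symm, h2'.symm, h3'.symm, h4'.symm, h6.symm, if_true, if_false,
      OfNat.one_ne_ofNat, OfNat.ofNat_ne_one, OfNat.zero_ne_ofNat, zero_ne_one,
      show (4 : ℕ) ≠ 3 by norm_num, show (3 : ℕ) ≠ 4 by norm_num]
    refine imp_congr Iff.rfl ?_
    constructor
    · rintro ⟨T, rfl, y, u, ⟨j, hj, hu⟩, w, hw, g, ⟨γ, hγ, hγ1, hg⟩, z, hz1, hz2⟩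
      exact ⟨γ, hγ, j, hj, y, hγ1, by rw [← hz2, ← hz1, hu, hw, hg]⟩
    · rintro ⟨γ, hγ, j, hj, y, hγ1, hx⟩
      exact ⟨t, rfl, y, t ^ j, ⟨j, hj, rfl⟩, y ^ n, rfl, γ, ⟨γ, hγ, hγ1, rfl⟩, γ * t ^ j, rfl,
        hx.symm⟩
  constructor
  · intro h x hx
    exact (key (fun _ => x)).1 (h _) hx
  · intro h e
    exact (key e).2 (h _)

/-- all the coefficients `x_0, x_4, …, x_(4(k-1))` are in the valuation ring -/
def VC : ℕ → FR
  | 0 => tr
  | k + 1 => .and (VC k) (voF (4 * k))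

theorem sat_VC (e : ℕ → M) (k : ℕ) : Sat (ringRS t) e (VC k) ↔ ∀ i < k, VO t (e (4 * i)) := by
  induction k with
  | zero => simp [VC, Sat, tr]
  | succ k ih =>
    simp only [VC, Sat, ih, sat_voF]
    constructor
    · rintro ⟨h1, h2⟩ i hi
      by_cases h : i = k
      · rw [h]
        exact h2
      · exact h1 i (by omega)
    · intro h
      exact ⟨fun i hi => h i (by omega), h k (by omega)⟩

/-- `x_(4k+2) = ∑ i < k, x_(4i) x_1 ^ i` and `x_(4k+3) = x_1 ^ k` -/
def HG : ℕ → FR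
  | 0 => .and (.zero 2) (.one 3)
  | k + 1 => .ex (4 * k + 2) (.ex (4 * k + 3) (.and (HG k) (.and
      (.mul 1 (4 * k + 3) (4 * k + 7)) (.ex 5 (.and (.mul (4 * k) (4 * k + 3) 5)
        (.add (4 * k + 2) 5 (4 * k + 6)))))))

theorem sat_HG (k : ℕ) : ∀ e : ℕ → M, Sat (ringRS t) e (HG k) ↔
    (e (4 * k + 2) = ∑ i ∈ Finset.range k, e (4 * i) * e 1 ^ i ∧ e (4 * k + 3) = e 1 ^ k) := by
  induction k with
  | zero => simp [HG, Sat, ringRS]
  | succ k ih =>
    intro e
    rw [HG]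
    simp only [Sat, ih]
    simp only [ringRS, Function.update_apply]
    have h1 : 1 ≠ 4 * k + 2 := by omega
    have h2 : 1 ≠ 4 * k + 3 := by omega
    have h3 : 4 * k + 2 ≠ 4 * k + 3 := by omega
    have h4 : 4 * k + 7 ≠ 4 * k + 2 := by omega
    have h5 : 4 * k + 7 ≠ 4 * k + 3 := by omega
    have h6 : 4 * k + 6 ≠ 4 * k + 2 := by omega
    have h7 : 4 * k + 6 ≠ 4 * k + 3 := by omega
    have h8 : 4 * k + 6 ≠ 5 := by omega
    have h9 : 4 * k ≠ 4 * k + 2 := by omega
    have h10 : 4 * k ≠ 4 * k + 3 := by omega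
    have h11 : 4 * k ≠ 5 := by omega
    have h12 : 4 * k + 3 ≠ 5 := by omega
    have h13 : 4 * k + 2 ≠ 5 := by omega
    have h14 : 4 * (k + 1) + 2 = 4 * k + 6 := by ring
    have h15 : 4 * (k + 1) + 3 = 4 * k + 7 := by ring
    have h16 : ∀ i, 4 * i ≠ 4 * k + 2 := by intro i; omega
    have h17 : ∀ i, 4 * i ≠ 4 * k + 3 := by intro i; omega
    simp only [h1, h2, h3, h4, h5, h6, h7, h8, h9, h10, h11, h12, h13, h14, h15, h16, h17,
      if_true, if_false, Finset.sum_range_succ]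
    constructor
    · rintro ⟨a, b, ⟨ha, hb⟩, h18, c, h19, h20⟩
      refine ⟨?_, ?_⟩
      · rw [← h20, ← h19, ha, hb]
      · rw [← h18, hb, pow_succ']
    · rintro ⟨h18, h19⟩
      exact ⟨_, _, ⟨rfl, rfl⟩, by rw [h19, pow_succ'], _, rfl, h18.symm⟩

/-- the henselian scheme -/
def hensF (D : ℕ) : FR := imp (VC D) (imp (.ex 1 (.ex 5 (.and (.tt 5) (.and (.mul 5 1 0)
  (voF 1))))) (imp (.ex 1 (.ex 5 (.and (.mul 4 1 5) (.and (.one 5) (voF 1)))))
    (.ex 5 (.and (voF 5) (.ex 9 (.and (.tt 9) (.ex 1 (.and (.mul 9 5 1) (.ex (4 * D + 2)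
      (.and (.zero (4 * D + 2)) (.ex (4 * D + 3) (HG D))))))))))))

theorem sat_hensF (D : ℕ) (e : ℕ → M) : Sat (ringRS t) e (hensF D) ↔
    ((∀ i < D, VO t (e (4 * i))) → (∃ u, t * u = e 0 ∧ VO t u) → (∃ v, e 4 * v = 1 ∧ VO t v) →
      ∃ y, VO t y ∧ ∑ i ∈ Finset.range D, e (4 * i) * (t * y) ^ i = 0) := by
  rw [hensF, sat_imp, sat_imp, sat_imp, sat_VC]
  simp only [Sat, sat_voF, sat_HG]
  simp only [ringRS, Function.update_apply]
  have h1 : 1 ≠ 4 * D + 2 := by omega
  have h2 : 1 ≠ 4 * D + 3 := by omega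
  have h3 : 4 * D + 2 ≠ 4 * D + 3 := by omega
  have h16 : ∀ i, 4 * i ≠ 4 * D + 2 := by intro i; omega
  have h17 : ∀ i, 4 * i ≠ 4 * D + 3 := by intro i; omega
  have h18 : ∀ i, 4 * i ≠ 1 := by intro i; omega
  have h19 : ∀ i, 4 * i ≠ 5 := by intro i; omega
  have h20 : ∀ i, 4 * i ≠ 9 := by intro i; omega
  simp only [h1, h2, h3, h16, h17, h18, h19, h20, if_true, if_false,
    OfNat.one_ne_ofNat, OfNat.ofNat_ne_one, OfNat.zero_ne_ofNat, zero_ne_one,
    show (5 : ℕ) ≠ 9 by norm_num, show (9 : ℕ) ≠ 5 by norm_num, show (4 : ℕ) ≠ 5 by norm_num]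
  refine imp_congr Iff.rfl (imp_congr ?_ (imp_congr ?_ ?_))
  · constructor
    · rintro ⟨u, a, rfl, h4, h5⟩
      exact ⟨u, h4, h5⟩
    · rintro ⟨u, h4, h5⟩
      exact ⟨u, t, rfl, h4, h5⟩
  · constructor
    · rintro ⟨u, a, h4, h6, h5⟩
      exact ⟨u, h4.trans h6, h5⟩
    · rintro ⟨u, h4, h5⟩
      exact ⟨u, 1, h4, rfl, h5⟩
  · constructor
    · rintro ⟨y, hy, a, rfl, z, rfl, b, rfl, c, h4, h5⟩
      exact ⟨y, hy, h4.symm⟩
    · rintro ⟨y, hy, h4⟩
      exact ⟨y, hy, t, rfl, t * y, rfl, 0, rfl, _, h4.symm, rfl⟩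

end schemes

/-! ### Codes -/

section codes

theorem prim_rec_code {F : ℕ → FR} {g : ℕ → ℕ → ℕ} (hg : Primrec₂ g)
    (h : ∀ n, (F (n + 1)).code = g n (F n).code) : Primrec fun n => (F n).code := by
  refine (Primrec.nat_rec₁ (F 0).code hg).of_eq ?_
  intro n
  induction n with
  | zero => rfl
  | succ n ih =>
    rw [h, ← ih]

variable {β : Type} [Primcodable β]

theorem p_pair {f g : β → ℕ} (hf : Primrec f) (hg : Primrec g) :
    Primrec (fun x => Nat.pair (f x) (g x)) := Primrec₂.natPair.comp hf hg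

theorem p_lin (a b : ℕ) {f : β → ℕ} (hf : Primrec f) : Primrec (fun x => a * f x + b) :=
  Primrec.nat_add.comp (Primrec.nat_mul.comp (Primrec.const a) hf) (Primrec.const b)

theorem p_lin0 (a : ℕ) {f : β → ℕ} (hf : Primrec f) : Primrec (fun x => a * f x) :=
  Primrec.nat_mul.comp (Primrec.const a) hf

/-- codes -/
def kEq (i j : ℕ) : ℕ := Nat.pair 0 (Nat.pair i j)
/-- codes -/
def kAdd (i j k : ℕ) : ℕ := Nat.pair 1 (Nat.pair i (Nat.pair j k))
/-- codes -/
def kMul (i j k : ℕ) : ℕ := Nat.pair 2 (Nat.pair i (Nat.pair j k))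
/-- codes -/
def kZero (i : ℕ) : ℕ := Nat.pair 3 i
/-- codes -/
def kOne (i : ℕ) : ℕ := Nat.pair 4 i
/-- codes -/
def kTt (i : ℕ) : ℕ := Nat.pair 5 i
/-- codes -/
def kNeg (a : ℕ) : ℕ := Nat.pair 6 a
/-- codes -/
def kAnd (a b : ℕ) : ℕ := Nat.pair 7 (Nat.pair a b)
/-- codes -/
def kEx (i a : ℕ) : ℕ := Nat.pair 8 (Nat.pair i a)
/-- codes -/
def kImp (a b : ℕ) : ℕ := kNeg (kAnd a (kNeg b))
/-- codes -/
def kOr (a b : ℕ) : ℕ := kNeg (kAnd (kNeg a) (kNeg b))

variable {f g h : β → ℕ}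

theorem p_add (hf : Primrec f) (hg : Primrec g) (hh : Primrec h) :
    Primrec (fun x => kAdd (f x) (g x) (h x)) :=
  p_pair (Primrec.const 1) (p_pair hf (p_pair hg hh))

theorem p_mul (hf : Primrec f) (hg : Primrec g) (hh : Primrec h) :
    Primrec (fun x => kMul (f x) (g x) (h x)) :=
  p_pair (Primrec.const 2) (p_pair hf (p_pair hg hh))

theorem p_zero (hf : Primrec f) : Primrec (fun x => kZero (f x)) := p_pair (Primrec.const 3) hf

theorem p_one (hf : Primrec f) : Primrec (fun x => kOne (f x)) := p_pair (Primrec.const 4) hf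

theorem p_tt (hf : Primrec f) : Primrec (fun x => kTt (f x)) := p_pair (Primrec.const 5) hf

theorem p_neg (hf : Primrec f) : Primrec (fun x => kNeg (f x)) := p_pair (Primrec.const 6) hf

theorem p_and (hf : Primrec f) (hg : Primrec g) : Primrec (fun x => kAnd (f x) (g x)) :=
  p_pair (Primrec.const 7) (p_pair hf hg)

theorem p_ex (hf : Primrec f) (hg : Primrec g) : Primrec (fun x => kEx (f x) (g x)) :=
  p_pair (Primrec.const 8) (p_pair hf hg)

theorem p_imp (hf : Primrec f) (hg : Primrec g) : Primrec (fun x => kImp (f x) (g x)) :=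
  p_neg (p_and hf (p_neg hg))

theorem p_or (hf : Primrec f) (hg : Primrec g) : Primrec (fun x => kOr (f x) (g x)) :=
  p_neg (p_and (p_neg hf) (p_neg hg))

theorem prim_voF : Primrec fun n => (voF n).code := by
  have h : ∀ b : ℕ, Primrec (fun n : ℕ => n + b) := fun b =>
    Primrec.nat_add.comp Primrec.id (Primrec.const b)
  have h0 : Primrec (fun n : ℕ => n) := Primrec.id
  exact p_ex (h 1) (p_ex (h 2) (p_ex (h 3) (p_ex (h 4) (p_ex (h 5)
    (p_and (p_mul (h 1) (h 1) (h 2)) (p_and (p_mul h0 h0 (h 3)) (p_and (p_tt (h 4))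
      (p_and (p_mul (h 4) (h 3) (h 5)) (p_add (h 2) (h 1) (h 5))))))))))

theorem prim_TF : Primrec fun n => (TF n).code := by
  have hn : Primrec (fun x : ℕ × ℕ => x.1) := Primrec.fst
  have hc : Primrec (fun x : ℕ × ℕ => x.2) := Primrec.snd
  have h1 : Primrec₂ (fun n c : ℕ => kOr (kOne (2 * n + 12)) (kEx (2 * n + 10)
      (kAnd c (kMul 1 (2 * n + 10) (2 * n + 12))))) :=
    p_or (p_one (p_lin 2 12 hn)) (p_ex (p_lin 2 10 hn)
      (p_and hc (p_mul (Primrec.const 1) (p_lin 2 10 hn) (p_lin 2 12 hn))))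
  exact prim_rec_code h1 (fun n => rfl)

theorem prim_WF : Primrec fun n => (WF n).code := by
  have hn : Primrec (fun x : ℕ × ℕ => x.1) := Primrec.fst
  have hc : Primrec (fun x : ℕ × ℕ => x.2) := Primrec.snd
  have h1 : Primrec₂ (fun n c : ℕ => kEx (2 * n + 11)
      (kAnd c (kMul 2 (2 * n + 11) (2 * n + 13)))) :=
    p_ex (p_lin 2 11 hn) (p_and hc (p_mul (Primrec.const 2) (p_lin 2 11 hn) (p_lin 2 13 hn)))
  exact prim_rec_code h1 (fun n => rfl)

theorem prim_VC : Primrec fun n => (VC n).code := by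
  have hn : Primrec (fun x : ℕ × ℕ => x.1) := Primrec.fst
  have hc : Primrec (fun x : ℕ × ℕ => x.2) := Primrec.snd
  have h1 : Primrec₂ (fun n c : ℕ => kAnd c (voF (4 * n)).code) :=
    p_and hc (prim_voF.comp (p_lin0 4 hn))
  exact prim_rec_code h1 (fun n => rfl)

theorem prim_HG : Primrec fun n => (HG n).code := by
  have hn : Primrec (fun x : ℕ × ℕ => x.1) := Primrec.fst
  have hc : Primrec (fun x : ℕ × ℕ => x.2) := Primrec.snd
  have h1 : Primrec₂ (fun k c : ℕ => kEx (4 * k + 2) (kEx (4 * k + 3) (kAnd c (kAnd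
      (kMul 1 (4 * k + 3) (4 * k + 7)) (kEx 5 (kAnd (kMul (4 * k) (4 * k + 3) 5)
        (kAdd (4 * k + 2) 5 (4 * k + 6)))))))) :=
    p_ex (p_lin 4 2 hn) (p_ex (p_lin 4 3 hn) (p_and hc (p_and
      (p_mul (Primrec.const 1) (p_lin 4 3 hn) (p_lin 4 7 hn))
      (p_ex (Primrec.const 5) (p_and (p_mul (p_lin0 4 hn) (p_lin 4 3 hn) (Primrec.const 5))
        (p_add (p_lin 4 2 hn) (Primrec.const 5) (p_lin 4 6 hn)))))))
  exact prim_rec_code h1 (fun n => rfl)

theorem prim_powF (p : ℕ) : Primrec fun n => (powF p n).code := by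
  have hn : Primrec (fun n : ℕ => n) := Primrec.id
  have k : ∀ a : ℕ, Primrec (fun _ : ℕ => a) := fun a => Primrec.const a
  exact p_imp (p_neg (p_zero (k 0))) (p_ex (k 1) (p_and (p_tt (k 1)) (p_ex (k 2)
    (p_ex (p_lin 2 10 hn) (p_and prim_TF (p_ex (p_lin 2 11 hn) (p_and prim_WF
      (p_ex (k 3) (p_and (k (gamF p).code) (p_ex (k 4) (p_and
        (p_mul (k 3) (p_lin 2 10 hn) (k 4)) (p_mul (k 4) (p_lin 2 11 hn) (k 0)))))))))))))

theorem prim_hensF : Primrec fun D => (hensF D).code := by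
  have hn : Primrec (fun n : ℕ => n) := Primrec.id
  have k : ∀ a : ℕ, Primrec (fun _ : ℕ => a) := fun a => Primrec.const a
  exact p_imp prim_VC (p_imp (k (FR.code (.ex 1 (.ex 5 (.and (.tt 5) (.and (.mul 5 1 0)
    (voF 1))))))) (p_imp (k (FR.code (.ex 1 (.ex 5 (.and (.mul 4 1 5) (.and (.one 5) (voF 1)))))))
    (p_ex (k 5) (p_and (k (voF 5).code) (p_ex (k 9) (p_and (p_tt (k 9)) (p_ex (k 1)
      (p_and (p_mul (k 9) (k 5) (k 1)) (p_ex (p_lin 4 2 hn) (p_and (p_zero (p_lin 4 2 hn))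
        (p_ex (p_lin 4 3 hn) prim_HG)))))))))))

/-- the list of the axioms -/
def Axm (p n : ℕ) : FR :=
  if n % 3 = 0 then (fieldAx ++ voAx p).getD (n / 3) tr
  else if n % 3 = 1 then hensF (n / 3 + 2)
  else if n / 3 % p = 0 then tr else powF p (n / 3)

theorem prim_Axm (p : ℕ) : Primrec fun n => (Axm p n).code := by
  have hdiv : Primrec (fun n : ℕ => n / 3) := Primrec.nat_div.comp Primrec.id (Primrec.const 3)
  have hmod : Primrec (fun n : ℕ => n % 3) := Primrec.nat_mod.comp Primrec.id (Primrec.const 3)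
  have h1 : Primrec (fun n : ℕ => ((fieldAx ++ voAx p).map FR.code).getD (n / 3) tr.code) :=
    (Primrec.list_getD tr.code).comp (Primrec.const _) hdiv
  have h2 : Primrec (fun n : ℕ => (hensF (n / 3 + 2)).code) :=
    prim_hensF.comp (Primrec.nat_add.comp hdiv (Primrec.const 2))
  have h3 : Primrec (fun n : ℕ => (powF p (n / 3)).code) := (prim_powF p).comp hdiv
  have h4 : PrimrecPred (fun n : ℕ => n % 3 = 0) := Primrec.eq.comp hmod (Primrec.const 0)
  have h5 : PrimrecPred (fun n : ℕ => n % 3 = 1) := Primrec.eq.comp hmod (Primrec.const 1)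
  have h6 : PrimrecPred (fun n : ℕ => n / 3 % p = 0) :=
    Primrec.eq.comp (Primrec.nat_mod.comp hdiv (Primrec.const p)) (Primrec.const 0)
  refine (Primrec.ite h4 h1 (Primrec.ite h5 h2 (Primrec.ite h6 (Primrec.const tr.code)
    h3))).of_eq ?_
  intro n
  unfold Axm
  by_cases c1 : n % 3 = 0
  · rw [if_pos c1, if_pos c1, List.getD_map]
  · rw [if_neg c1, if_neg c1]
    by_cases c2 : n % 3 = 1
    · rw [if_pos c2, if_pos c2]
    · rw [if_neg c2, if_neg c2]
      by_cases c3 : n / 3 % p = 0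
      · rw [if_pos c3, if_pos c3]
      · rw [if_neg c3, if_neg c3]

theorem Axm_iff (p : ℕ) (Q : FR → Prop) (hQ : Q tr) : (∀ n, Q (Axm p n)) ↔
    (∀ φ ∈ fieldAx, Q φ) ∧ (∀ φ ∈ voAx p, Q φ) ∧ (∀ D, Q (hensF (D + 2))) ∧
      ∀ n, ¬ p ∣ n → Q (powF p n) := by
  constructor
  · intro h
    have h0 : ∀ φ ∈ fieldAx ++ voAx p, Q φ := by
      intro φ hφ
      obtain ⟨i, hi, rfl⟩ := List.mem_iff_getElem.1 hφ
      have h1 := h (3 * i)
      have h2 : 3 * i % 3 = 0 := by omega
      have h3 : 3 * i / 3 = i := by omega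
      rw [Axm, if_pos h2, h3, List.getD_eq_getElem _ _ hi] at h1
      exact h1
    refine ⟨fun φ hφ => h0 φ (List.mem_append_left _ hφ),
      fun φ hφ => h0 φ (List.mem_append_right _ hφ), ?_, ?_⟩
    · intro D
      have h1 := h (3 * D + 1)
      have h2 : (3 * D + 1) % 3 ≠ 0 := by omega
      have h2' : (3 * D + 1) % 3 = 1 := by omega
      have h3 : (3 * D + 1) / 3 = D := by omega
      rw [Axm, if_neg h2, if_pos h2', h3] at h1
      exact h1
    · intro n hn
      have h1 := h (3 * n + 2)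
      have h2 : (3 * n + 2) % 3 ≠ 0 := by omega
      have h2' : (3 * n + 2) % 3 ≠ 1 := by omega
      have h3 : (3 * n + 2) / 3 = n := by omega
      have h4 : ¬ n % p = 0 := fun h => hn (Nat.dvd_of_mod_eq_zero h)
      rw [Axm, if_neg h2, if_neg h2', h3, if_neg h4] at h1
      exact h1
  · rintro ⟨h1, h2, h3, h4⟩ n
    have h0 : ∀ φ ∈ fieldAx ++ voAx p, Q φ := by
      intro φ hφ
      rcases List.mem_append.1 hφ with h | h
      · exact h1 _ h
      · exact h2 _ h
    unfold Axm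
    by_cases c1 : n % 3 = 0
    · rw [if_pos c1]
      by_cases hi : n / 3 < (fieldAx ++ voAx p).length
      · rw [List.getD_eq_getElem _ _ hi]
        exact h0 _ (List.getElem_mem _)
      · rw [List.getD_eq_default _ _ (by omega)]
        exact hQ
    · rw [if_neg c1]
      by_cases c2 : n % 3 = 1
      · rw [if_pos c2]
        exact h3 _
      · rw [if_neg c2]
        by_cases c3 : n / 3 % p = 0
        · rw [if_pos c3]
          exact hQ
        · rw [if_neg c3]
          exact h4 _ (fun h => c3 (Nat.mod_eq_zero_of_dvd h))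

end codes

/-! ### The models -/

section models

variable {M : Type} [Field M]

theorem voAx_of_mdl {p : ℕ} {σ : P1 p →+* M} (h : Mdl p σ) : VOAx (σ X) p := by
  refine ⟨?_, ?_, h.one, h.add, h.mul, h.inv, h.tinv, h.res⟩
  · have h1 : ((p : P1 p)) = 0 := CharP.cast_eq_zero _ _
    rw [← map_natCast σ, h1, map_zero]
  · intro h0
    apply h.tinv
    rw [h0, inv_zero]
    exact ⟨0, by simp⟩

theorem hensF_iff {t : M} (ht : t ≠ 0) : (∀ D e, Sat (ringRS t) e (hensF (D + 2))) ↔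
    ∀ f : Polynomial M, (∀ i, VO t (f.coeff i)) → VO t (f.coeff 0 / t) →
      f.coeff 1 ≠ 0 → VO t (f.coeff 1)⁻¹ → ∃ y, VO t y ∧ f.eval (t * y) = 0 := by
  constructor
  · intro h f h1 h2 h3 h4
    have h5 := h f.natDegree (fun n => f.coeff (n / 4))
    rw [sat_hensF] at h5
    have h6 : ∀ i, 4 * i / 4 = i := fun i => by omega
    simp only [h6] at h5
    obtain ⟨y, hy, h7⟩ := h5 (fun i _ => h1 i)
      ⟨f.coeff 0 / t, by simp only [Nat.zero_div]; field_simp, h2⟩
      ⟨(f.coeff 1)⁻¹, by simp [h3], h4⟩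
    refine ⟨y, hy, ?_⟩
    rw [Polynomial.eval_eq_sum_range' (n := f.natDegree + 2) (by omega)]
    exact h7
  · intro h D e
    rw [sat_hensF]
    rintro h1 ⟨u, hu1, hu2⟩ ⟨v, hv1, hv2⟩
    let f : Polynomial M := ∑ i ∈ Finset.range (D + 2), C (e (4 * i)) * X ^ i
    have hf : ∀ j, f.coeff j = if j < D + 2 then e (4 * j) else 0 := by
      intro j
      simp [f, Polynomial.finsetSum_coeff, Polynomial.coeff_X_pow]
    have hev : ∀ z, f.eval z = ∑ i ∈ Finset.range (D + 2), e (4 * i) * z ^ i := by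
      intro z
      simp [f, Polynomial.eval_finsetSum]
    have hf0 : f.coeff 0 = e 0 := by
      rw [hf, if_pos (by omega)]
    have hf1 : f.coeff 1 = e 4 := by
      rw [hf, if_pos (by omega)]
    have he4 : e 4 ≠ 0 := by
      intro h0
      rw [h0, zero_mul] at hv1
      exact zero_ne_one hv1
    have k1 : ∀ i, VO t (f.coeff i) := by
      intro i
      rw [hf]
      split_ifs with hi
      · exact h1 i hi
      · exact VO_zero' t
    have k2 : VO t (f.coeff 0 / t) := by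
      rw [hf0, ← hu1, mul_div_cancel_left₀ _ ht]
      exact hu2
    have k3 : f.coeff 1 ≠ 0 := by
      rw [hf1]
      exact he4
    have k4 : VO t (f.coeff 1)⁻¹ := by
      rw [hf1, ← eq_inv_of_mul_eq_one_right hv1]
      exact hv2
    obtain ⟨y, hy, h2⟩ := h f k1 k2 k3 k4
    exact ⟨y, hy, by rw [← hev]; exact h2⟩

end models

end Ax

open Ax in
/-- the axioms as a primitive recursive list -/
theorem exists_axioms (p : ℕ) [Fact p.Prime] : ∃ Ax : ℕ → FR, (Primrec fun n => (Ax n).code) ∧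
    (∀ (M : Type) [Field M] (σ : P1 p →+* M), Mdl p σ → ∀ n e, Sat (ringRS (σ X)) e (Ax n)) ∧
    (∀ (α : Type) [Nonempty α] (R : RS α), (∀ n e, Sat R e (Ax n)) →
      ∃ (_ : Field α) (σ : P1 p →+* α), R = ringRS (σ X) ∧ Mdl p σ) := by
  refine ⟨Axm p, prim_Axm p, ?_, ?_⟩
  · intro M _ σ h
    have h0 := voAx_of_mdl h
    refine (Axm_iff p (fun φ => ∀ e, Sat (ringRS (σ X)) e φ) (fun e => sat_tr)).2
      ⟨sat_fieldAx _, (sat_voAx _ p).2 h0, ?_, ?_⟩
    · exact (hensF_iff h0.ne).2 h.hensel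
    · intro n hn
      exact (sat_powF _ p n).2 (h.pow n hn)
  · intro α _ R hR
    obtain ⟨h1, h2, h3, h4⟩ := (Axm_iff p (fun φ => ∀ e, Sat R e φ) (fun e => sat_tr)).1 hR
    obtain ⟨F, t, rfl⟩ := field_of_sat R h1
    have h5 : VOAx t p := (sat_voAx t p).1 h2
    have hchar : CharP α p := by
      apply ringChar.of_eq
      have h6 : ringChar α ∣ p := ringChar.dvd h5.char
      rcases (Nat.dvd_prime (Fact.out : p.Prime)).1 h6 with h7 | h7
      · exact absurd h7 CharP.ringChar_ne_one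
      · exact h7
    let σ : P1 p →+* α := Polynomial.eval₂RingHom (ZMod.castHom (dvd_refl p) α) t
    have hσ : σ X = t := by simp [σ]
    refine ⟨F, σ, by rw [hσ], ?_⟩
    refine ⟨?_, ?_, ?_, ?_, ?_, ?_, ?_, ?_⟩
    all_goals rw [hσ]
    · exact h5.one
    · exact h5.add
    · exact h5.mul
    · exact h5.inv
    · exact h5.tinv
    · exact h5.res
    · exact (hensF_iff h5.ne).1 h3
    · intro n hn
      exact (sat_powF t p n).1 (h4 n hn)

end BF80
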