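import Pool.Agent.BF80.Defs3
import Pool.Agent.BF80.Axioms

/-!
# The axioms of the models with divisibility
-/

set_option autoImplicit false
set_option maxSynthPendingDepth 10

open Polynomial

namespace BF80

open FT80

namespace AxV

open Ax

section

variable {M : Type} [Field M] (t : M)

/-- the axiom `vpow` -/
def vpF (p : ℕ) : FR := imp (.neg (.zero 0)) (.ex 1 (.and (.tt 1) (.ex 2 (.and (.neg (.zero 2))
  (.ex (2 * p + 10) (.and (TF p) (.ex (2 * p + 11) (.and (WF p)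
    (.ex 3 (.and (.mul (2 * p + 10) (2 * p + 11) 3)
      (.and (.ex 4 (.and (.mul 4 3 0) (voF 4))) (.ex 4 (.and (.mul 4 0 3) (voF 4))))))))))))))

theorem sat_vpF (ht : t ≠ 0) (p : ℕ) : (∀ e, Sat (ringRS t) e (vpF p)) ↔ ∀ x : M, x ≠ 0 →
    ∃ j < p, ∃ y : M, y ≠ 0 ∧ VO t (x / (t ^ j * y ^ p)) ∧ VO t ((t ^ j * y ^ p) / x) := by
  have key : ∀ e, Sat (ringRS t) e (vpF p) ↔ (e 0 ≠ 0 →
      ∃ j < p, ∃ y : M, y ≠ 0 ∧ VO t (e 0 / (t ^ j * y ^ p)) ∧
        VO t ((t ^ j * y ^ p) / e 0)) := by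
    intro e
    rw [vpF, sat_imp]
    simp only [Sat, sat_TF, sat_WF, sat_voF]
    simp only [ringRS, Function.update_apply]
    have h1 : 1 ≠ 2 * p + 10 := by omega
    have h2 : 2 ≠ 2 * p + 10 := by omega
    have h3 : 3 ≠ 2 * p + 10 := by omega
    have h4 : 4 ≠ 2 * p + 10 := by omega
    have h5 : 0 ≠ 2 * p + 10 := by omega
    have h1' : 1 ≠ 2 * p + 11 := by omega
    have h2' : 2 ≠ 2 * p + 11 := by omega
    have h3' : 3 ≠ 2 * p + 11 := by omega
    have h4' : 4 ≠ 2 * p + 11 := by omega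
    have h5' : 0 ≠ 2 * p + 11 := by omega
    have h6 : 2 * p + 11 ≠ 2 * p + 10 := by omega
    simp only [h1, h2, h5, h2', h3', h4', h5', h6, h1.symm, h2.symm, h3.symm, h4.symm,
      h1'.symm, h2'.symm, h3'.symm, h4'.symm, h6.symm, if_true, if_false,
      OfNat.one_ne_ofNat, OfNat.ofNat_ne_one, OfNat.zero_ne_ofNat, zero_ne_one,
      show (4 : ℕ) ≠ 3 by norm_num, show (3 : ℕ) ≠ 4 by norm_num]
    refine imp_congr_right fun hx => ?_
    constructor
    · rintro ⟨T, rfl, y, hy, u, ⟨j, hj, hu⟩, w, hw, z, hz, ⟨a, ha, ha'⟩, ⟨b, hb, hb'⟩⟩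
      have hz' : T ^ j * y ^ p = z := by rw [← hz, hu, hw]
      have hz0 : z ≠ 0 := by
        rintro rfl
        rw [mul_zero] at ha
        exact hx ha.symm
      refine ⟨j, hj, y, hy, ?_, ?_⟩
      · rw [hz', ← ha, mul_div_cancel_right₀ _ hz0]
        exact ha'
      · rw [hz', ← hb, mul_div_cancel_right₀ _ hx]
        exact hb'
    · rintro ⟨j, hj, y, hy, h7, h8⟩
      have hw : t ^ j * y ^ p ≠ 0 := mul_ne_zero (pow_ne_zero _ ht) (pow_ne_zero _ hy)
      exact ⟨t, rfl, y, hy, t ^ j, ⟨j, hj, rfl⟩, y ^ p, rfl, t ^ j * y ^ p, rfl,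
        ⟨_, div_mul_cancel₀ _ hw, h7⟩, ⟨_, div_mul_cancel₀ _ hx, h8⟩⟩
  constructor
  · intro h x hx
    exact (key (fun _ => x)).1 (h _) hx
  · intro h e
    exact (key e).2 (h _)

/-- the new list of axioms -/
def axs (A : ℕ → FR) (φ : FR) : ℕ → FR
  | 0 => φ
  | n + 1 => A n

theorem prim_axs (A : ℕ → FR) (hA : Primrec fun n => (A n).code) (φ : FR) :
    Primrec fun n => (axs A φ n).code := by
  have h : Primrec fun n : ℕ => (Nat.casesOn n φ.code fun m => (A m).code : ℕ) :=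
    Primrec.nat_casesOn Primrec.id (Primrec.const _) (hA.comp Primrec.snd).to₂
  refine h.of_eq fun n => ?_
  cases n <;> rfl

end

end AxV

open AxV in
/-- the axioms of the models with divisibility as a primitive recursive list -/
theorem exists_axiomsV (p : ℕ) [Fact p.Prime] : ∃ Ax : ℕ → FR, (Primrec fun n => (Ax n).code) ∧
    (∀ (M : Type) [Field M] (σ : P1 p →+* M), MdlV p σ → ∀ n e, Sat (ringRS (σ X)) e (Ax n)) ∧
    (∀ (α : Type) [Nonempty α] (R : RS α), (∀ n e, Sat R e (Ax n)) →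
      ∃ (_ : Field α) (σ : P1 p →+* α), R = ringRS (σ X) ∧ MdlV p σ) := by
  obtain ⟨A, hA, h1, h2⟩ := exists_axioms p
  refine ⟨axs A (vpF p), prim_axs A hA _, ?_, ?_⟩
  · intro M _ σ hM n e
    have ht : σ X ≠ 0 := by
      intro h0
      apply hM.tinv
      rw [h0, inv_zero]
      exact ⟨0, by simp⟩
    cases n with
    | zero => exact (sat_vpF _ ht p).2 hM.vpow e
    | succ n => exact h1 M σ hM.toMdl n e
  · intro α _ R hR
    obtain ⟨F, σ, rfl, hM⟩ := h2 α R fun n e => hR (n + 1) e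
    have ht : σ X ≠ 0 := by
      intro h0
      apply hM.tinv
      rw [h0, inv_zero]
      exact ⟨0, by simp⟩
    exact ⟨F, σ, rfl, ⟨hM, (sat_vpF _ ht p).1 fun e => hR 0 e⟩⟩

end BF80
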