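import Pool.Agent.BF80.Defs3

/-!
# Compilation of formulas with divisibility into relational formulas

The variable `x_i` is register `2 i`, the local variable `k` of a term is register `2 k + 1`.
-/

set_option autoImplicit false
set_option maxSynthPendingDepth 10

open Polynomial

namespace BF80

open FT80

namespace CmpV

/-! ### The relational formula of a term -/

/-- value of the term with formula `p` equals variable `k` -/
def vl (p : ℕ × FR) (k : ℕ) : FR := .ex p.1 (.and p.2 (.eq p.1 k))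

/-- body of a binary operation -/
def bn (m : ℕ) (p q : ℕ × FR) (r : FR) : ℕ × FR :=
  (m + 6, .ex (m + 2) (.ex (m + 4) (.and (.and (vl p (m + 2)) (vl q (m + 4))) r)))

/-- maximum of the value variables -/
def mx {α : Type} (p q : ℕ × α) : ℕ := max p.1 q.1

/-- formula of a sum -/
def fAdd (p q : ℕ × FR) : ℕ × FR :=
  bn (mx p q) p q (.add (mx p q + 2) (mx p q + 4) (mx p q + 6))
/-- formula of a difference -/
def fSub (p q : ℕ × FR) : ℕ × FR :=
  bn (mx p q) p q (.add (mx p q + 6) (mx p q + 4) (mx p q + 2))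
/-- formula of a product -/
def fMul (p q : ℕ × FR) : ℕ × FR :=
  bn (mx p q) p q (.mul (mx p q + 2) (mx p q + 4) (mx p q + 6))

/-- formula of a term and the value variable -/
def tmF : MT → ℕ × FR
  | .zero => (0, .zero 0)
  | .one => (0, .one 0)
  | .tt => (0, .tt 0)
  | .var k => (0, .eq (2 * k + 1) 0)
  | .add a b => fAdd (tmF a) (tmF b)
  | .sub a b => fSub (tmF a) (tmF b)
  | .mul a b => fMul (tmF a) (tmF b)

/-- equality of two terms -/
def eqT (p q : ℕ × FR) : FR :=
  .ex (mx p q + 2) (.and (vl p (mx p q + 2)) (vl q (mx p q + 2)))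

/-- the term is zero -/
def zT (p : ℕ × FR) : FR := .ex p.1 (.and p.2 (.zero p.1))

/-- load the variables in the list into the first local variables -/
def ld (js : List ℕ) (b : FR) : ℕ → FR
  | 0 => b
  | n + 1 => .ex (2 * n + 1) (.and (.eq (2 * n + 1) (2 * js.getD n 0)) (ld js b n))

/-- formula of a guard -/
def gF (i j : ℕ) (p : ℕ × FR) : FR :=
  .and (ld [i, j] (zT p) 2) (.ex 3 (ld [i] (.neg (zT p)) 1))

/-- formula of the guards -/
def gsF (i : ℕ) (L : List (ℕ × (ℕ × FR))) : FR :=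
  L.foldr (fun g s => .and (gF i g.1 g.2) s) (.eq 0 0)

/-- formula of an atom with guards -/
def locF (i : ℕ) (L : List (ℕ × (ℕ × FR))) (p q : ℕ × FR) : FR :=
  .and (gsF i L) (ld (i :: L.map Prod.fst) (eqT p q) (L.length + 1))

/-- the body of divisibility -/
def dB : FR := .ex 9 (.ex 11 (.and
  (eqT (tmF (.add (.mul (.var 5) (.var 5)) (.var 5))) (tmF (.mul .tt (.mul (.var 4) (.var 4)))))
  (eqT (tmF (.mul (.var 4) (.mul (.var 0) (.var 1)))) (tmF (.mul (.var 2) (.var 3))))))

/-- relational formula of a formula -/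
def cF : VFm → FR
  | .eq i j a b => ld [i, j] (eqT (tmF a) (tmF b)) 2
  | .loc i gs a b => locF i (gs.map fun g => (g.1, tmF g.2)) (tmF a) (tmF b)
  | .dvd i j k l => ld [i, j, k, l] dB 4
  | .not φ => .neg (cF φ)
  | .and φ ψ => .and (cF φ) (cF ψ)
  | .or φ ψ => .neg (.and (.neg (cF φ)) (.neg (cF ψ)))
  | .ex i φ => .ex (2 * i) (cF φ)
  | .all i φ => .neg (.ex (2 * i) (.neg (cF φ)))

/-! ### Semantics -/

section sem

variable {R : Type}

/-- the local variables -/
def lc (E : ℕ → R) : ℕ → R := fun k => E (2 * k + 1)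

theorem lc_upd (E : ℕ → R) {r : ℕ} (hr : r % 2 = 0) (a : R) :
    lc (Function.update E r a) = lc E := by
  funext k
  exact Function.update_of_ne (by omega) _ _

variable [CommRing R] (t : R)

/-- `p` is the formula of a term with value `v` of the local variables -/
def Ok (p : ℕ × FR) (v : (ℕ → R) → R) : Prop :=
  p.1 % 2 = 0 ∧ ∀ E : ℕ → R, Sat (ringRS t) E p.2 ↔ v (lc E) = E p.1

variable {t}

theorem Ok.vl {p : ℕ × FR} {v : (ℕ → R) → R} (h : Ok t p v) {k : ℕ} (hk : k ≠ p.1)
    (E : ℕ → R) : Sat (ringRS t) E (vl p k) ↔ v (lc E) = E k := by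
  obtain ⟨h1, h2⟩ := h
  simp only [CmpV.vl, Sat]
  constructor
  · rintro ⟨a, ha, hb⟩
    rw [h2, Function.update_self, lc_upd _ h1] at ha
    rw [Function.update_self, Function.update_of_ne hk] at hb
    rw [ha, hb]
  · intro h3
    refine ⟨E k, ?_, ?_⟩
    · rw [h2, Function.update_self, lc_upd _ h1, h3]
    · rw [Function.update_self, Function.update_of_ne hk]

theorem bn_sat {p q : ℕ × FR} {v w : (ℕ → R) → R} (hp : Ok t p v) (hq : Ok t q w) {m : ℕ}
    (hm : m % 2 = 0) (hm1 : p.1 ≤ m) (hm2 : q.1 ≤ m) (r : FR) (E : ℕ → R) :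
    Sat (ringRS t) E (bn m p q r).2 ↔
      Sat (ringRS t) (Function.update (Function.update E (m + 2) (v (lc E))) (m + 4)
        (w (lc E))) r := by
  have e0 : ∀ u z : R, lc (Function.update (Function.update E (m + 2) u) (m + 4) z) = lc E := by
    intro u z
    rw [lc_upd _ (by omega), lc_upd _ (by omega)]
  have e2 : ∀ u z : R, Function.update (Function.update E (m + 2) u) (m + 4) z (m + 2) = u := by
    intro u z
    rw [Function.update_of_ne (by omega), Function.update_self]
  have e3 : ∀ u z : R, Function.update (Function.update E (m + 2) u) (m + 4) z (m + 4) = z := by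
    intro u z
    rw [Function.update_self]
  simp only [bn, Sat]
  constructor
  · rintro ⟨u, z, ⟨h1, h2⟩, h3⟩
    rw [hp.vl (by omega), e0, e2] at h1
    rw [hq.vl (by omega), e0, e3] at h2
    rw [h1, h2]
    exact h3
  · intro h
    refine ⟨v (lc E), w (lc E), ⟨?_, ?_⟩, h⟩
    · rw [hp.vl (by omega), e0, e2]
    · rw [hq.vl (by omega), e0, e3]

theorem mx_even {α : Type} {p q : ℕ × α} (hp : p.1 % 2 = 0) (hq : q.1 % 2 = 0) :
    mx p q % 2 = 0 := by
  unfold mx
  omega

theorem ok_add {p q : ℕ × FR} {v w : (ℕ → R) → R} (hp : Ok t p v) (hq : Ok t q w) :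
    Ok t (fAdd p q) (fun x => v x + w x) := by
  have h1 : p.1 ≤ mx p q := le_max_left _ _
  have h2 : q.1 ≤ mx p q := le_max_right _ _
  have h0 := mx_even hp.1 hq.1
  refine ⟨by show (mx p q + 6) % 2 = 0; omega, fun E => ?_⟩
  rw [fAdd, bn_sat hp hq h0 h1 h2]
  show Function.update (Function.update E _ _) _ _ _ +
    Function.update (Function.update E _ _) _ _ _ =
    Function.update (Function.update E _ _) _ _ _ ↔ _ = E (mx p q + 6)
  rw [Function.update_self, Function.update_of_ne (by omega), Function.update_self,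
    Function.update_of_ne (by omega), Function.update_of_ne (by omega)]

theorem ok_mul {p q : ℕ × FR} {v w : (ℕ → R) → R} (hp : Ok t p v) (hq : Ok t q w) :
    Ok t (fMul p q) (fun x => v x * w x) := by
  have h1 : p.1 ≤ mx p q := le_max_left _ _
  have h2 : q.1 ≤ mx p q := le_max_right _ _
  have h0 := mx_even hp.1 hq.1
  refine ⟨by show (mx p q + 6) % 2 = 0; omega, fun E => ?_⟩
  rw [fMul, bn_sat hp hq h0 h1 h2]
  show Function.update (Function.update E _ _) _ _ _ *
    Function.update (Function.update E _ _) _ _ _ =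
    Function.update (Function.update E _ _) _ _ _ ↔ _ = E (mx p q + 6)
  rw [Function.update_self, Function.update_of_ne (by omega), Function.update_self,
    Function.update_of_ne (by omega), Function.update_of_ne (by omega)]

theorem ok_sub {p q : ℕ × FR} {v w : (ℕ → R) → R} (hp : Ok t p v) (hq : Ok t q w) :
    Ok t (fSub p q) (fun x => v x - w x) := by
  have h1 : p.1 ≤ mx p q := le_max_left _ _
  have h2 : q.1 ≤ mx p q := le_max_right _ _
  have h0 := mx_even hp.1 hq.1
  refine ⟨by show (mx p q + 6) % 2 = 0; omega, fun E => ?_⟩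
  rw [fSub, bn_sat hp hq h0 h1 h2]
  show Function.update (Function.update E _ _) _ _ _ +
    Function.update (Function.update E _ _) _ _ _ =
    Function.update (Function.update E _ _) _ _ _ ↔ _ = E (mx p q + 6)
  rw [Function.update_self, Function.update_of_ne (by omega), Function.update_of_ne (by omega),
    Function.update_of_ne (by omega), Function.update_self, sub_eq_iff_eq_add, eq_comm]

theorem ok_tm (a : MT) : Ok t (tmF a) (fun x => a.val t x) := by
  induction a with
  | zero => exact ⟨rfl, fun E => eq_comm⟩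
  | one => exact ⟨rfl, fun E => eq_comm⟩
  | tt => exact ⟨rfl, fun E => eq_comm⟩
  | var k => exact ⟨rfl, fun E => Iff.rfl⟩
  | add a b iha ihb => exact ok_add iha ihb
  | sub a b iha ihb => exact ok_sub iha ihb
  | mul a b iha ihb => exact ok_mul iha ihb

theorem sat_eqT {p q : ℕ × FR} {v w : (ℕ → R) → R} (hp : Ok t p v) (hq : Ok t q w)
    (E : ℕ → R) : Sat (ringRS t) E (eqT p q) ↔ v (lc E) = w (lc E) := by
  have h1 : p.1 ≤ mx p q := le_max_left _ _
  have h2 : q.1 ≤ mx p q := le_max_right _ _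
  have h0 := mx_even hp.1 hq.1
  simp only [eqT, Sat]
  constructor
  · rintro ⟨u, h5, h6⟩
    rw [hp.vl (by omega), lc_upd _ (by omega)] at h5
    rw [hq.vl (by omega), lc_upd _ (by omega)] at h6
    rw [h5, h6]
  · intro h
    refine ⟨v (lc E), ?_, ?_⟩
    · rw [hp.vl (by omega), lc_upd _ (by omega), Function.update_self]
    · rw [hq.vl (by omega), lc_upd _ (by omega), Function.update_self, h]

theorem sat_zT {p : ℕ × FR} {v : (ℕ → R) → R} (hp : Ok t p v) (E : ℕ → R) :
    Sat (ringRS t) E (zT p) ↔ v (lc E) = 0 := by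
  simp only [zT, Sat]
  constructor
  · rintro ⟨u, h1, h2⟩
    rw [hp.2, lc_upd _ hp.1] at h1
    rw [h1]
    exact h2
  · intro h
    refine ⟨0, ?_, ?_⟩
    · rw [hp.2, lc_upd _ hp.1, Function.update_self, h]
    · show Function.update E p.1 0 p.1 = 0
      rw [Function.update_self]

omit [CommRing R] in
theorem ld_aux (E : ℕ → R) (js : List ℕ) (N : ℕ) :
    (fun r => if r % 2 = 1 ∧ r / 2 < N then
        Function.update E (2 * N + 1) (E (2 * js.getD N 0)) (2 * js.getD (r / 2) 0)
      else Function.update E (2 * N + 1) (E (2 * js.getD N 0)) r) =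
      fun r => if r % 2 = 1 ∧ r / 2 < N + 1 then E (2 * js.getD (r / 2) 0) else E r := by
  funext r
  by_cases h1 : r % 2 = 1 ∧ r / 2 < N
  · rw [if_pos h1, if_pos ⟨h1.1, by omega⟩, Function.update_of_ne (by omega)]
  · rw [if_neg h1]
    by_cases h2 : r = 2 * N + 1
    · subst h2
      have h3 : (2 * N + 1) / 2 = N := by omega
      rw [Function.update_self, if_pos ⟨by omega, by omega⟩, h3]
    · rw [Function.update_of_ne h2, if_neg (by omega)]

theorem sat_ld (js : List ℕ) (b : FR) (N : ℕ) : ∀ E : ℕ → R,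
    Sat (ringRS t) E (ld js b N) ↔ Sat (ringRS t)
      (fun r => if r % 2 = 1 ∧ r / 2 < N then E (2 * js.getD (r / 2) 0) else E r) b := by
  induction N with
  | zero =>
    intro E
    simp [ld]
  | succ N ih =>
    intro E
    have h2 : 2 * js.getD N 0 ≠ 2 * N + 1 := by omega
    simp only [ld, Sat]
    rw [← ld_aux]
    constructor
    · rintro ⟨a, h3, h4⟩
      rw [Function.update_self, Function.update_of_ne h2] at h3
      subst h3
      exact (ih _).1 h4
    · intro h3
      refine ⟨E (2 * js.getD N 0), ?_, (ih _).2 h3⟩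
      rw [Function.update_self, Function.update_of_ne h2]

theorem lc_ld (js : List ℕ) (E : ℕ → R) (hE : ∀ k, E (2 * k + 1) = 0) (N : ℕ)
    (hN : N = js.length) :
    lc (fun r => if r % 2 = 1 ∧ r / 2 < N then E (2 * js.getD (r / 2) 0) else E r) =
      lenv (js.map fun j => E (2 * j)) := by
  subst hN
  funext k
  have h1 : (2 * k + 1) % 2 = 1 := by omega
  have h2 : (2 * k + 1) / 2 = k := by omega
  simp only [lc, h1, h2, true_and, lenv]
  by_cases hk : k < js.length
  · rw [if_pos hk, List.getD_eq_getElem _ _ hk, List.getD_eq_getElem _ _ (by simpa using hk)]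
    simp
  · rw [if_neg hk, hE, List.getD_eq_default _ _ (by simpa using hk)]

theorem sat_main (js : List ℕ) {p q : ℕ × FR} {v w : (ℕ → R) → R} (hp : Ok t p v)
    (hq : Ok t q w) (E : ℕ → R) (hE : ∀ k, E (2 * k + 1) = 0) (N : ℕ) (hN : N = js.length) :
    Sat (ringRS t) E (ld js (eqT p q) N) ↔
      v (lenv (js.map fun j => E (2 * j))) = w (lenv (js.map fun j => E (2 * j))) := by
  rw [sat_ld, sat_eqT hp hq, lc_ld js E hE N hN]

theorem sat_gF (i j : ℕ) {p : ℕ × FR} {v : (ℕ → R) → R} (hp : Ok t p v) (E : ℕ → R)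
    (hE : ∀ k, E (2 * k + 1) = 0) : Sat (ringRS t) E (gF i j p) ↔
      v (lenv [E (2 * i), E (2 * j)]) = 0 ∧ ∃ y, v (lenv [E (2 * i), y]) ≠ 0 := by
  have h1 : Sat (ringRS t) E (ld [i, j] (zT p) 2) ↔ v (lenv [E (2 * i), E (2 * j)]) = 0 := by
    rw [sat_ld, sat_zT hp, lc_ld [i, j] E hE 2 rfl]
    rfl
  refine and_congr h1 (exists_congr fun y => ?_)
  rw [sat_ld]
  show ¬ _ ↔ ¬ _
  rw [sat_zT hp]
  have h2 : lc (fun r => if r % 2 = 1 ∧ r / 2 < 1 then
      Function.update E 3 y (2 * [i].getD (r / 2) 0) else Function.update E 3 y r) =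
      lenv [E (2 * i), y] := by
    funext k
    have h3 : (2 * k + 1) % 2 = 1 := by omega
    have h4 : (2 * k + 1) / 2 = k := by omega
    simp only [lc, h3, h4, true_and]
    rcases k with _ | _ | k
    · rw [if_pos (by omega)]
      show Function.update E 3 y (2 * i) = E (2 * i)
      rw [Function.update_of_ne (by omega)]
    · rw [if_neg (by omega)]
      show Function.update E 3 y 3 = y
      rw [Function.update_self]
    · rw [if_neg (by omega), Function.update_of_ne (by omega)]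
      show E (2 * (k + 1 + 1) + 1) = 0
      exact hE _
  rw [h2]

theorem sat_gsF (i : ℕ) (gs : List (ℕ × MT)) (E : ℕ → R) (hE : ∀ k, E (2 * k + 1) = 0) :
    Sat (ringRS t) E (gsF i (gs.map fun g => (g.1, tmF g.2))) ↔
      ∀ g ∈ gs, g.2.val t (lenv [E (2 * i), E (2 * g.1)]) = 0 ∧
        ∃ y : R, g.2.val t (lenv [E (2 * i), y]) ≠ 0 := by
  induction gs with
  | nil =>
    simp only [List.not_mem_nil, false_imp_iff, implies_true, iff_true]
    exact rfl
  | cons g gs ih =>
    rw [List.forall_mem_cons, ← ih]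
    exact and_congr (sat_gF i g.1 (ok_tm g.2) E hE) Iff.rfl

theorem sat_dB (E : ℕ → R) : Sat (ringRS t) E dB ↔
    DV t (E 1 * E 3) (E 5 * E 7) := by
  unfold dB DV
  have h1 : ∀ c y : R, ∀ k, k < 4 → lc (Function.update (Function.update E 9 c) 11 y) k =
      E (2 * k + 1) := by
    intro c y k hk
    show Function.update (Function.update E 9 c) 11 y (2 * k + 1) = _
    rw [Function.update_of_ne (by omega), Function.update_of_ne (by omega)]
  have h4 : ∀ c y : R, lc (Function.update (Function.update E 9 c) 11 y) 4 = c := by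
    intro c y
    show Function.update (Function.update E 9 c) 11 y 9 = _
    rw [Function.update_of_ne (by omega), Function.update_self]
  have h5 : ∀ c y : R, lc (Function.update (Function.update E 9 c) 11 y) 5 = y := by
    intro c y
    show Function.update (Function.update E 9 c) 11 y 11 = _
    rw [Function.update_self]
  have h6 : ∀ c y : R, Sat (ringRS t) (Function.update (Function.update E 9 c) 11 y) (.and
      (eqT (tmF (.add (.mul (.var 5) (.var 5)) (.var 5)))
        (tmF (.mul .tt (.mul (.var 4) (.var 4)))))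
      (eqT (tmF (.mul (.var 4) (.mul (.var 0) (.var 1)))) (tmF (.mul (.var 2) (.var 3))))) ↔
      y * y + y = t * (c * c) ∧ c * (E 1 * E 3) = E 5 * E 7 := by
    intro c y
    show _ ∧ _ ↔ _
    rw [sat_eqT (ok_tm _) (ok_tm _), sat_eqT (ok_tm _) (ok_tm _)]
    simp only [MT.val]
    rw [h1 c y 0 (by omega), h1 c y 1 (by omega), h1 c y 2 (by omega), h1 c y 3 (by omega), h4,
      h5]
  constructor
  · rintro ⟨c, y, h⟩
    obtain ⟨h7, h8⟩ := (h6 c y).1 h
    exact ⟨c, ⟨y, by rw [pow_two, pow_two, h7]⟩, h8⟩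
  · rintro ⟨c, ⟨y, h7⟩, h8⟩
    refine ⟨c, y, (h6 c y).2 ⟨?_, h8⟩⟩
    rw [← pow_two, ← pow_two, h7]

theorem sat_dvd (i j k l : ℕ) (E : ℕ → R) : Sat (ringRS t) E (ld [i, j, k, l] dB 4) ↔
    DV t (E (2 * i) * E (2 * j)) (E (2 * k) * E (2 * l)) := by
  rw [sat_ld, sat_dB]
  rfl

omit [CommRing R] in
theorem upd_even (E : ℕ → R) (i : ℕ) (a : R) :
    (fun k => Function.update E (2 * i) a (2 * k)) =
      Function.update (fun k => E (2 * k)) i a := by
  funext k
  by_cases h : k = i
  · subst h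
    rw [Function.update_self, Function.update_self]
  · rw [Function.update_of_ne (by omega), Function.update_of_ne h]

theorem sat_cF (φ : VFm) (E : ℕ → R) (hE : ∀ k, E (2 * k + 1) = 0) :
    Sat (ringRS t) E (cF φ) ↔ φ.Holds t (DV t) (fun i => E (2 * i)) := by
  have hu : ∀ (E : ℕ → R), (∀ k, E (2 * k + 1) = 0) → ∀ i a k,
      Function.update E (2 * i) a (2 * k + 1) = 0 := by
    intro E hE i a k
    rw [Function.update_of_ne (by omega), hE]
  induction φ generalizing E with
  | eq i j a b => exact sat_main [i, j] (ok_tm a) (ok_tm b) E hE 2 rfl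
  | loc i gs a b =>
    show _ ∧ _ ↔ _
    rw [sat_gsF i gs E hE, sat_main _ (ok_tm a) (ok_tm b) E hE _ (by simp)]
    simp only [VFm.Holds, List.map_cons, List.map_map]
    rfl
  | dvd i j k l => exact sat_dvd i j k l E
  | not φ ih => exact not_congr (ih E hE)
  | and φ ψ ih ih' => exact and_congr (ih E hE) (ih' E hE)
  | or φ ψ ih ih' =>
    exact (not_congr (and_congr (not_congr (ih E hE)) (not_congr (ih' E hE)))).trans
      or_iff_not_and_not.symm
  | ex i φ ih =>
    refine exists_congr fun a => ?_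
    have h1 := ih _ (hu E hE i a)
    rw [upd_even] at h1
    exact h1
  | all i φ ih =>
    show ¬ (∃ a, ¬ _) ↔ ∀ a, _
    rw [not_exists]
    refine forall_congr' fun a => ?_
    have h1 := ih _ (hu E hE i a)
    rw [upd_even] at h1
    exact not_not.trans h1

end sem

/-! ### The same on codes -/

/-- code of a formula with value variable -/
def tc (p : ℕ × FR) : ℕ × ℕ := (p.1, p.2.code)

/-- `CmpV.vl` on codes -/
def vlC (p : ℕ × ℕ) (k : ℕ) : ℕ :=
  Nat.pair 8 (Nat.pair p.1 (Nat.pair 7 (Nat.pair p.2 (Nat.pair 0 (Nat.pair p.1 k)))))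

/-- `CmpV.bn` on codes -/
def bnC (m : ℕ) (p q : ℕ × ℕ) (r : ℕ) : ℕ × ℕ :=
  (m + 6, Nat.pair 8 (Nat.pair (m + 2) (Nat.pair 8 (Nat.pair (m + 4) (Nat.pair 7
    (Nat.pair (Nat.pair 7 (Nat.pair (vlC p (m + 2)) (vlC q (m + 4)))) r))))))

/-- sums -/
def cAdd (p q : ℕ × ℕ) : ℕ × ℕ := bnC (mx p q) p q
  (Nat.pair 1 (Nat.pair (mx p q + 2) (Nat.pair (mx p q + 4) (mx p q + 6))))
/-- differences -/
def cSub (p q : ℕ × ℕ) : ℕ × ℕ := bnC (mx p q) p q
  (Nat.pair 1 (Nat.pair (mx p q + 6) (Nat.pair (mx p q + 4) (mx p q + 2))))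
/-- products -/
def cMul (p q : ℕ × ℕ) : ℕ × ℕ := bnC (mx p q) p q
  (Nat.pair 2 (Nat.pair (mx p q + 2) (Nat.pair (mx p q + 4) (mx p q + 6))))

theorem tc_add (p q : ℕ × FR) : tc (fAdd p q) = cAdd (tc p) (tc q) := rfl
theorem tc_sub (p q : ℕ × FR) : tc (fSub p q) = cSub (tc p) (tc q) := rfl
theorem tc_mul (p q : ℕ × FR) : tc (fMul p q) = cMul (tc p) (tc q) := rfl

/-- `CmpV.eqT` on codes -/
def eqC (p q : ℕ × ℕ) : ℕ :=
  Nat.pair 8 (Nat.pair (mx p q + 2) (Nat.pair 7
    (Nat.pair (vlC p (mx p q + 2)) (vlC q (mx p q + 2)))))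

theorem code_eqT (p q : ℕ × FR) : (eqT p q).code = eqC (tc p) (tc q) := rfl

/-- `CmpV.zT` on codes -/
def zC (p : ℕ × ℕ) : ℕ := Nat.pair 8 (Nat.pair p.1 (Nat.pair 7 (Nat.pair p.2 (Nat.pair 3 p.1))))

/-- `CmpV.ld` on codes -/
def ldC (js : List ℕ) (b : ℕ) (N : ℕ) : ℕ :=
  Nat.rec b (fun n d => Nat.pair 8 (Nat.pair (2 * n + 1) (Nat.pair 7 (Nat.pair
    (Nat.pair 0 (Nat.pair (2 * n + 1) (2 * js.getD n 0))) d)))) N

theorem code_ld (js : List ℕ) (b : FR) (N : ℕ) : (ld js b N).code = ldC js b.code N := by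
  induction N with
  | zero => rfl
  | succ N ih =>
    simp only [ld, FR.code, ih]
    rfl

/-- `CmpV.gF` on codes -/
def gC (i : ℕ) (g : ℕ × (ℕ × ℕ)) : ℕ :=
  Nat.pair 7 (Nat.pair (ldC [i, g.1] (zC g.2) 2)
    (Nat.pair 8 (Nat.pair 3 (ldC [i] (Nat.pair 6 (zC g.2)) 1))))

/-- `CmpV.gsF` on codes -/
def gsC (i : ℕ) (L : List (ℕ × (ℕ × ℕ))) : ℕ :=
  L.foldr (fun g s => Nat.pair 7 (Nat.pair (gC i g) s)) (Nat.pair 0 (Nat.pair 0 0))

/-- `CmpV.locF` on codes -/
def locC (i : ℕ) (L : List (ℕ × (ℕ × ℕ))) (p q : ℕ × ℕ) : ℕ :=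
  Nat.pair 7 (Nat.pair (gsC i L) (ldC (i :: L.map Prod.fst) (eqC p q) (L.length + 1)))

/-- the entry of the guard stack -/
def gt (g : ℕ × MT) : ℕ × (ℕ × ℕ) := (g.1, tc (tmF g.2))

theorem code_gsF (i : ℕ) (gs : List (ℕ × MT)) :
    (gsF i (gs.map fun g => (g.1, tmF g.2))).code = gsC i (gs.map gt) := by
  induction gs with
  | nil => rfl
  | cons g gs ih =>
    show Nat.pair 7 (Nat.pair (gF i g.1 (tmF g.2)).code
      (gsF i (gs.map fun g => (g.1, tmF g.2))).code) =
      Nat.pair 7 (Nat.pair (gC i (gt g)) (gsC i (gs.map gt)))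
    rw [ih]
    have h1 : (gF i g.1 (tmF g.2)).code = gC i (gt g) := by
      simp only [gF, FR.code, code_ld, gC]
      rfl
    rw [h1]

theorem code_locF (i : ℕ) (gs : List (ℕ × MT)) (p q : ℕ × FR) :
    (locF i (gs.map fun g => (g.1, tmF g.2)) p q).code = locC i (gs.map gt) (tc p) (tc q) := by
  simp only [locF, FR.code, code_gsF, code_ld, code_eqT, locC, List.map_map, List.length_map]
  rfl

/-- divisibility on codes -/
def dC (m : ℕ) : ℕ :=
  ldC [m.unpair.1.unpair.1, m.unpair.1.unpair.2, m.unpair.2.unpair.1, m.unpair.2.unpair.2]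
    dB.code 4

/-- state of the parser: stack of terms, stack of guards, stack of formulas -/
abbrev St := List (ℕ × ℕ) × (List (ℕ × (ℕ × ℕ)) × List ℕ)

/-- default term -/
def dT : ℕ × ℕ := tc (tmF .zero)
/-- default formula -/
def dF : ℕ := (cF (.dvd 0 0 0 0)).code

/-- first argument -/
def arg1 (s : St) : ℕ × ℕ := s.1.getD 0 dT
/-- second argument -/
def arg2 (s : St) : ℕ × ℕ := s.1.getD 1 dT
/-- first formula -/
def frg1 (s : St) : ℕ := s.2.2.getD 0 dF
/-- second formula -/
def frg2 (s : St) : ℕ := s.2.2.getD 1 dF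

/-- one step of the parser (the word is read from right to left) -/
def step (n : ℕ) (s : St) : St :=
  if n = 0 then ((0, Nat.pair 3 0) :: s.1, s.2)
  else if n = 1 then ((0, Nat.pair 4 0) :: s.1, s.2)
  else if n = 2 then ((0, Nat.pair 5 0) :: s.1, s.2)
  else if n = 3 then (cAdd (arg1 s) (arg2 s) :: s.1.drop 2, s.2)
  else if n = 4 then (cSub (arg1 s) (arg2 s) :: s.1.drop 2, s.2)
  else if n = 5 then (cMul (arg1 s) (arg2 s) :: s.1.drop 2, s.2)
  else if n = 6 then (s.1, s.2.1, Nat.pair 6 (frg1 s) :: s.2.2.drop 1)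
  else if n = 7 then (s.1, s.2.1, Nat.pair 7 (Nat.pair (frg1 s) (frg2 s)) :: s.2.2.drop 2)
  else if n = 8 then
    (s.1, s.2.1, Nat.pair 6 (Nat.pair 7 (Nat.pair (Nat.pair 6 (frg1 s)) (Nat.pair 6 (frg2 s)))) ::
      s.2.2.drop 2)
  else if (n - 9) % 8 = 0 then
    ((0, Nat.pair 0 (Nat.pair (2 * ((n - 9) / 8) + 1) 0)) :: s.1, s.2)
  else if (n - 9) % 8 = 1 then
    (s.1, s.2.1, Nat.pair 8 (Nat.pair (2 * ((n - 9) / 8)) (frg1 s)) :: s.2.2.drop 1)
  else if (n - 9) % 8 = 2 then
    (s.1, s.2.1, Nat.pair 6 (Nat.pair 8 (Nat.pair (2 * ((n - 9) / 8)) (Nat.pair 6 (frg1 s)))) ::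
      s.2.2.drop 1)
  else if (n - 9) % 8 = 3 then
    (s.1.drop 2, s.2.1, ldC [((n - 9) / 8).unpair.1, ((n - 9) / 8).unpair.2]
      (eqC (arg1 s) (arg2 s)) 2 :: s.2.2)
  else if (n - 9) % 8 = 4 then
    (s.1.drop 2, s.2.1.drop ((n - 9) / 8).unpair.2,
      locC ((n - 9) / 8).unpair.1 (s.2.1.take ((n - 9) / 8).unpair.2) (arg1 s) (arg2 s) :: s.2.2)
  else if (n - 9) % 8 = 5 then
    (s.1.drop 1, ((n - 9) / 8, arg1 s) :: s.2.1, s.2.2)
  else if (n - 9) % 8 = 6 then (s.1, s.2.1, dC ((n - 9) / 8) :: s.2.2)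
  else s

/-- parser -/
def parse (w : List ℕ) : St := w.foldr step ([], [], [])

/-- the code of the compiled formula with code `w` -/
def comp (w : List ℕ) : ℕ := frg1 (parse w)

theorem step_ge (n : ℕ) (hn : 9 ≤ n) (s : St) : step n s =
  if (n - 9) % 8 = 0 then
    ((0, Nat.pair 0 (Nat.pair (2 * ((n - 9) / 8) + 1) 0)) :: s.1, s.2)
  else if (n - 9) % 8 = 1 then
    (s.1, s.2.1, Nat.pair 8 (Nat.pair (2 * ((n - 9) / 8)) (frg1 s)) :: s.2.2.drop 1)
  else if (n - 9) % 8 = 2 then
    (s.1, s.2.1, Nat.pair 6 (Nat.pair 8 (Nat.pair (2 * ((n - 9) / 8)) (Nat.pair 6 (frg1 s)))) ::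
      s.2.2.drop 1)
  else if (n - 9) % 8 = 3 then
    (s.1.drop 2, s.2.1, ldC [((n - 9) / 8).unpair.1, ((n - 9) / 8).unpair.2]
      (eqC (arg1 s) (arg2 s)) 2 :: s.2.2)
  else if (n - 9) % 8 = 4 then
    (s.1.drop 2, s.2.1.drop ((n - 9) / 8).unpair.2,
      locC ((n - 9) / 8).unpair.1 (s.2.1.take ((n - 9) / 8).unpair.2) (arg1 s) (arg2 s) :: s.2.2)
  else if (n - 9) % 8 = 5 then
    (s.1.drop 1, ((n - 9) / 8, arg1 s) :: s.2.1, s.2.2)
  else if (n - 9) % 8 = 6 then (s.1, s.2.1, dC ((n - 9) / 8) :: s.2.2)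
  else s := by
  unfold step
  rw [if_neg (by omega), if_neg (by omega), if_neg (by omega), if_neg (by omega),
    if_neg (by omega), if_neg (by omega), if_neg (by omega), if_neg (by omega),
    if_neg (by omega)]

theorem foldr_tm (a : MT) (s : St) : a.code.foldr step s = (tc (tmF a) :: s.1, s.2) := by
  induction a generalizing s with
  | zero => rfl
  | one => rfl
  | tt => rfl
  | var k =>
    have h1 : (9 + 8 * k - 9) % 8 = 0 := by omega
    have h2 : (9 + 8 * k - 9) / 8 = k := by omega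
    simp only [MT.code, List.foldr_cons, List.foldr_nil]
    rw [step_ge _ (by omega), if_pos h1, h2]
    rfl
  | add a b iha ihb =>
    simp [MT.code, List.foldr_append, iha, ihb, step, arg1, arg2, tmF, tc_add]
  | sub a b iha ihb =>
    simp [MT.code, List.foldr_append, iha, ihb, step, arg1, arg2, tmF, tc_sub]
  | mul a b iha ihb =>
    simp [MT.code, List.foldr_append, iha, ihb, step, arg1, arg2, tmF, tc_mul]

theorem foldr_gs (gs : List (ℕ × MT)) (s : St) :
    (gs.flatMap fun g => (14 + 8 * g.1) :: g.2.code).foldr step s =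
      (s.1, gs.map gt ++ s.2.1, s.2.2) := by
  induction gs with
  | nil => rfl
  | cons g gs ih =>
    have h2 : (14 + 8 * g.1 - 9) / 8 = g.1 := by omega
    rw [List.flatMap_cons, List.foldr_append, ih, List.foldr_cons, foldr_tm,
      step_ge _ (by omega), if_neg (by omega), if_neg (by omega), if_neg (by omega),
      if_neg (by omega), if_neg (by omega), if_pos (by omega), h2]
    rfl

theorem foldr_fml (φ : VFm) (s : St) :
    φ.code.foldr step s = (s.1, s.2.1, (cF φ).code :: s.2.2) := by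
  induction φ generalizing s with
  | eq i j a b =>
    have h2 : (12 + 8 * Nat.pair i j - 9) / 8 = Nat.pair i j := by omega
    rw [VFm.code, List.foldr_cons, List.foldr_append, foldr_tm, foldr_tm,
      step_ge _ (by omega), if_neg (by omega), if_neg (by omega), if_neg (by omega),
      if_pos (by omega), h2, Nat.unpair_pair, cF, code_ld, code_eqT]
    rfl
  | loc i gs a b =>
    have h2 : (13 + 8 * Nat.pair i gs.length - 9) / 8 = Nat.pair i gs.length := by omega
    rw [VFm.code, List.foldr_cons, List.foldr_append, List.foldr_append, foldr_tm, foldr_tm,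
      foldr_gs, step_ge _ (by omega), if_neg (by omega), if_neg (by omega), if_neg (by omega),
      if_neg (by omega), if_pos (by omega), h2, Nat.unpair_pair, cF, code_locF]
    have h3 : (gs.map gt ++ s.2.1).take gs.length = gs.map gt := by
      rw [List.take_append_of_le_length (by simp), List.take_of_length_le (by simp)]
    have h4 : (gs.map gt ++ s.2.1).drop gs.length = s.2.1 := by
      rw [List.drop_append_of_le_length (by simp), List.drop_of_length_le (by simp)]
      rfl
    simp only [h3, h4]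
    rfl
  | dvd i j k l =>
    have h2 : (15 + 8 * Nat.pair (Nat.pair i j) (Nat.pair k l) - 9) / 8 =
      Nat.pair (Nat.pair i j) (Nat.pair k l) := by omega
    rw [VFm.code, List.foldr_cons, List.foldr_nil, step_ge _ (by omega), if_neg (by omega),
      if_neg (by omega), if_neg (by omega), if_neg (by omega), if_neg (by omega),
      if_neg (by omega), if_pos (by omega), h2, cF, code_ld, dC]
    simp only [Nat.unpair_pair]
  | not φ ih =>
    rw [VFm.code, List.foldr_cons, ih]
    rfl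
  | and φ ψ ih ih' =>
    rw [VFm.code, List.foldr_cons, List.foldr_append, ih', ih]
    rfl
  | or φ ψ ih ih' =>
    rw [VFm.code, List.foldr_cons, List.foldr_append, ih', ih]
    rfl
  | ex i φ ih =>
    have h2 : (10 + 8 * i - 9) / 8 = i := by omega
    rw [VFm.code, List.foldr_cons, ih, step_ge _ (by omega), if_neg (by omega),
      if_pos (by omega), h2]
    rfl
  | all i φ ih =>
    have h2 : (11 + 8 * i - 9) / 8 = i := by omega
    rw [VFm.code, List.foldr_cons, ih, step_ge _ (by omega), if_neg (by omega),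
      if_neg (by omega), if_pos (by omega), h2]
    rfl

theorem comp_code (φ : VFm) : comp φ.code = (cF φ).code := by
  simp [comp, parse, foldr_fml, frg1]

/-! ### Every word compiles to something -/

/-- all entries of the stacks are values -/
def Good (s : St) : Prop :=
  (∀ x ∈ s.1, ∃ a, x = tc (tmF a)) ∧ (∀ x ∈ s.2.1, ∃ g, x = gt g) ∧
    ∀ x ∈ s.2.2, ∃ φ, x = (cF φ).code

theorem getD_mem {α : Type} (l : List α) (n : ℕ) (d : α) : l.getD n d ∈ l ∨ l.getD n d = d := by
  rw [List.getD_eq_getElem?_getD]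
  by_cases h : n < l.length
  · left
    rw [List.getElem?_eq_getElem h, Option.getD_some]
    exact List.getElem_mem h
  · right
    rw [List.getElem?_eq_none (by omega), Option.getD_none]

theorem exists_map {α β : Type} (f : α → β) (l : List β) (h : ∀ x ∈ l, ∃ a, x = f a) :
    ∃ l' : List α, l = l'.map f := by
  induction l with
  | nil => exact ⟨[], rfl⟩
  | cons x l ih =>
    obtain ⟨a, ha⟩ := h x (List.mem_cons_self)
    obtain ⟨l', hl'⟩ := ih fun y hy => h y (List.mem_cons_of_mem _ hy)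
    exact ⟨a :: l', by rw [List.map_cons, ha, hl']⟩

theorem Good.arg {s : St} (h : Good s) (n : ℕ) : ∃ a, s.1.getD n dT = tc (tmF a) := by
  rcases getD_mem s.1 n dT with h1 | h1
  · exact h.1 _ h1
  · exact ⟨.zero, h1⟩

theorem Good.frg {s : St} (h : Good s) (n : ℕ) : ∃ φ, s.2.2.getD n dF = (cF φ).code := by
  rcases getD_mem s.2.2 n dF with h1 | h1
  · exact h.2.2 _ h1
  · exact ⟨_, h1⟩

theorem Good.pushT {s : St} (h : Good s) (n : ℕ) {x : ℕ × ℕ} (hx : ∃ a, x = tc (tmF a)) :
    Good (x :: s.1.drop n, s.2) := by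
  refine ⟨fun y hy => ?_, h.2⟩
  rcases List.mem_cons.1 hy with rfl | hy
  · exact hx
  · exact h.1 _ (List.mem_of_mem_drop hy)

theorem Good.pushF {s : St} (h : Good s) (m k n : ℕ) {x : ℕ} (hx : ∃ φ, x = (cF φ).code) :
    Good (s.1.drop m, s.2.1.drop k, x :: s.2.2.drop n) := by
  refine ⟨fun y hy => h.1 _ (List.mem_of_mem_drop hy),
    fun y hy => h.2.1 _ (List.mem_of_mem_drop hy), fun y hy => ?_⟩
  rcases List.mem_cons.1 hy with rfl | hy
  · exact hx
  · exact h.2.2 _ (List.mem_of_mem_drop hy)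

theorem good_ite {c : Prop} [Decidable c] {s s' : St} (h : Good s) (h' : Good s') :
    Good (if c then s else s') := by
  by_cases hc : c
  · rw [if_pos hc]
    exact h
  · rw [if_neg hc]
    exact h'

theorem good_step (n : ℕ) {s : St} (h : Good s) : Good (step n s) := by
  obtain ⟨a, ha⟩ := h.arg 0
  obtain ⟨b, hb⟩ := h.arg 1
  obtain ⟨φ, hφ⟩ := h.frg 0
  obtain ⟨ψ, hψ⟩ := h.frg 1
  have ha' : arg1 s = tc (tmF a) := ha
  have hb' : arg2 s = tc (tmF b) := hb
  have hφ' : frg1 s = (cF φ).code := hφ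
  have hψ' : frg2 s = (cF ψ).code := hψ
  obtain ⟨gs, hgs⟩ := exists_map gt (s.2.1.take ((n - 9) / 8).unpair.2) fun x hx =>
    h.2.1 x (List.mem_of_mem_take hx)
  unfold step
  rw [ha', hb', hφ', hψ', hgs]
  refine good_ite (h.pushT 0 ⟨.zero, rfl⟩) (good_ite (h.pushT 0 ⟨.one, rfl⟩)
    (good_ite (h.pushT 0 ⟨.tt, rfl⟩) (good_ite (h.pushT 2 ⟨.add a b, rfl⟩)
    (good_ite (h.pushT 2 ⟨.sub a b, rfl⟩) (good_ite (h.pushT 2 ⟨.mul a b, rfl⟩)
    (good_ite (h.pushF 0 0 1 ⟨.not φ, rfl⟩) (good_ite (h.pushF 0 0 2 ⟨.and φ ψ, rfl⟩)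
    (good_ite (h.pushF 0 0 2 ⟨.or φ ψ, rfl⟩) (good_ite (h.pushT 0 ⟨.var ((n - 9) / 8), rfl⟩)
    (good_ite (h.pushF 0 0 1 ⟨.ex ((n - 9) / 8) φ, rfl⟩)
    (good_ite (h.pushF 0 0 1 ⟨.all ((n - 9) / 8) φ, rfl⟩)
    (good_ite (h.pushF 2 0 0 ⟨.eq ((n - 9) / 8).unpair.1 ((n - 9) / 8).unpair.2 a b, ?_⟩)
    (good_ite (h.pushF 2 _ 0 ⟨.loc ((n - 9) / 8).unpair.1 gs a b, ?_⟩)
    (good_ite ?_ (good_ite (h.pushF 0 0 0 ⟨.dvd ((n - 9) / 8).unpair.1.unpair.1
      ((n - 9) / 8).unpair.1.unpair.2 ((n - 9) / 8).unpair.2.unpair.1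
      ((n - 9) / 8).unpair.2.unpair.2, ?_⟩) h)))))))))))))))
  · rw [cF, code_ld, code_eqT]
  · rw [cF, code_locF]
  · refine ⟨fun y hy => h.1 _ (List.mem_of_mem_drop hy), fun y hy => ?_, h.2.2⟩
    rcases List.mem_cons.1 hy with rfl | hy
    · exact ⟨((n - 9) / 8, a), rfl⟩
    · exact h.2.1 _ hy
  · rw [cF, code_ld, dC]

theorem good_parse (w : List ℕ) : Good (parse w) := by
  unfold parse
  induction w with
  | nil => exact ⟨fun x hx => absurd hx (List.not_mem_nil),
      fun x hx => absurd hx (List.not_mem_nil), fun x hx => absurd hx (List.not_mem_nil)⟩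
  | cons n w ih => exact good_step n ih

theorem comp_total (w : List ℕ) : ∃ φ, comp w = (cF φ).code := (good_parse w).frg 0

/-! ### Primitive recursiveness -/

theorem primrec_vlC : Primrec₂ vlC := by
  unfold vlC
  have h1 : Primrec fun x : (ℕ × ℕ) × ℕ => x.1.1 := Primrec.fst.comp Primrec.fst
  have h2 : Primrec fun x : (ℕ × ℕ) × ℕ => x.1.2 := Primrec.snd.comp Primrec.fst
  have h3 : Primrec fun x : (ℕ × ℕ) × ℕ => x.2 := Primrec.snd
  exact Primrec₂.natPair.comp (Primrec.const 8) (Primrec₂.natPair.comp h1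
    (Primrec₂.natPair.comp (Primrec.const 7) (Primrec₂.natPair.comp h2
    (Primrec₂.natPair.comp (Primrec.const 0) (Primrec₂.natPair.comp h1 h3)))))

theorem primrec_mx : Primrec₂ (mx (α := ℕ)) := by
  unfold mx
  exact Primrec.nat_max.comp (Primrec.fst.comp Primrec.fst) (Primrec.fst.comp Primrec.snd)

section pr

variable {α : Type} [Primcodable α] {f g : α → ℕ × ℕ} (hf : Primrec f) (hg : Primrec g)
include hf hg

theorem primrec_add (k : ℕ) : Primrec fun x => mx (f x) (g x) + k :=
  Primrec.nat_add.comp (primrec_mx.comp hf hg) (Primrec.const k)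

theorem primrec_bnC {r : α → ℕ} (hr : Primrec r) :
    Primrec fun x => bnC (mx (f x) (g x)) (f x) (g x) (r x) := by
  unfold bnC
  have h1 := primrec_add hf hg 2
  have h2 := primrec_add hf hg 4
  have h3 := primrec_add hf hg 6
  exact Primrec.pair h3 (Primrec₂.natPair.comp (Primrec.const 8) (Primrec₂.natPair.comp h1
    (Primrec₂.natPair.comp (Primrec.const 8) (Primrec₂.natPair.comp h2
    (Primrec₂.natPair.comp (Primrec.const 7) (Primrec₂.natPair.comp
      (Primrec₂.natPair.comp (Primrec.const 7) (Primrec₂.natPair.comp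
        (primrec_vlC.comp hf h1) (primrec_vlC.comp hg h2))) hr))))))

theorem primrec_cAdd : Primrec fun x => cAdd (f x) (g x) := by
  unfold cAdd
  exact primrec_bnC hf hg (Primrec₂.natPair.comp (Primrec.const 1)
    (Primrec₂.natPair.comp (primrec_add hf hg 2)
      (Primrec₂.natPair.comp (primrec_add hf hg 4) (primrec_add hf hg 6))))

theorem primrec_cSub : Primrec fun x => cSub (f x) (g x) := by
  unfold cSub
  exact primrec_bnC hf hg (Primrec₂.natPair.comp (Primrec.const 1)
    (Primrec₂.natPair.comp (primrec_add hf hg 6)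
      (Primrec₂.natPair.comp (primrec_add hf hg 4) (primrec_add hf hg 2))))

theorem primrec_cMul : Primrec fun x => cMul (f x) (g x) := by
  unfold cMul
  exact primrec_bnC hf hg (Primrec₂.natPair.comp (Primrec.const 2)
    (Primrec₂.natPair.comp (primrec_add hf hg 2)
      (Primrec₂.natPair.comp (primrec_add hf hg 4) (primrec_add hf hg 6))))

theorem primrec_eqC : Primrec fun x => eqC (f x) (g x) := by
  unfold eqC
  have h1 := primrec_add hf hg 2
  exact Primrec₂.natPair.comp (Primrec.const 8) (Primrec₂.natPair.comp h1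
    (Primrec₂.natPair.comp (Primrec.const 7) (Primrec₂.natPair.comp
      (primrec_vlC.comp hf h1) (primrec_vlC.comp hg h1))))

end pr

section pr2

variable {α : Type} [Primcodable α]

theorem primrec_zC {f : α → ℕ × ℕ} (hf : Primrec f) : Primrec fun x => zC (f x) := by
  unfold zC
  have h1 : Primrec fun x => (f x).1 := Primrec.fst.comp hf
  have h2 : Primrec fun x => (f x).2 := Primrec.snd.comp hf
  exact Primrec₂.natPair.comp (Primrec.const 8) (Primrec₂.natPair.comp h1
    (Primrec₂.natPair.comp (Primrec.const 7) (Primrec₂.natPair.comp h2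
    (Primrec₂.natPair.comp (Primrec.const 3) h1))))

theorem primrec_ldC {js : α → List ℕ} {b N : α → ℕ} (hj : Primrec js) (hb : Primrec b)
    (hN : Primrec N) : Primrec fun x => ldC (js x) (b x) (N x) := by
  unfold ldC
  have h1 : Primrec fun q : α × (ℕ × ℕ) => 2 * q.2.1 + 1 :=
    Primrec.nat_add.comp (Primrec.nat_mul.comp (Primrec.const 2)
      (Primrec.fst.comp Primrec.snd)) (Primrec.const 1)
  have h2 : Primrec fun q : α × (ℕ × ℕ) => 2 * (js q.1).getD q.2.1 0 :=
    Primrec.nat_mul.comp (Primrec.const 2)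
      ((Primrec.list_getD 0).comp (hj.comp Primrec.fst) (Primrec.fst.comp Primrec.snd))
  have h3 : Primrec fun q : α × (ℕ × ℕ) => q.2.2 := Primrec.snd.comp Primrec.snd
  have h : Primrec₂ fun (a : α) (q : ℕ × ℕ) => Nat.pair 8 (Nat.pair (2 * q.1 + 1)
      (Nat.pair 7 (Nat.pair (Nat.pair 0 (Nat.pair (2 * q.1 + 1) (2 * (js a).getD q.1 0)))
        q.2))) :=
    Primrec₂.natPair.comp (Primrec.const 8) (Primrec₂.natPair.comp h1
      (Primrec₂.natPair.comp (Primrec.const 7) (Primrec₂.natPair.comp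
        (Primrec₂.natPair.comp (Primrec.const 0) (Primrec₂.natPair.comp h1 h2)) h3)))
  exact Primrec.nat_rec' hN hb h

theorem primrec_gC {i : α → ℕ} {g : α → ℕ × (ℕ × ℕ)} (hi : Primrec i) (hg : Primrec g) :
    Primrec fun x => gC (i x) (g x) := by
  unfold gC
  have h1 : Primrec fun x => (g x).1 := Primrec.fst.comp hg
  have h2 : Primrec fun x => (g x).2 := Primrec.snd.comp hg
  have h3 : Primrec fun x => [i x, (g x).1] :=
    Primrec.list_cons.comp hi (Primrec.list_cons.comp h1 (Primrec.const []))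
  have h4 : Primrec fun x => [i x] := Primrec.list_cons.comp hi (Primrec.const [])
  exact Primrec₂.natPair.comp (Primrec.const 7) (Primrec₂.natPair.comp
    (primrec_ldC h3 (primrec_zC h2) (Primrec.const 2))
    (Primrec₂.natPair.comp (Primrec.const 8) (Primrec₂.natPair.comp (Primrec.const 3)
      (primrec_ldC h4 (Primrec₂.natPair.comp (Primrec.const 6) (primrec_zC h2))
        (Primrec.const 1)))))

theorem primrec_gsC {i : α → ℕ} {L : α → List (ℕ × (ℕ × ℕ))} (hi : Primrec i)
    (hL : Primrec L) : Primrec fun x => gsC (i x) (L x) := by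
  unfold gsC
  have h : Primrec₂ fun (a : α) (q : (ℕ × (ℕ × ℕ)) × ℕ) =>
      Nat.pair 7 (Nat.pair (gC (i a) q.1) q.2) :=
    Primrec₂.natPair.comp (Primrec.const 7) (Primrec₂.natPair.comp
      (primrec_gC (hi.comp Primrec.fst) (Primrec.fst.comp Primrec.snd))
      (Primrec.snd.comp Primrec.snd))
  exact Primrec.list_foldr hL (Primrec.const _) h

theorem primrec_locC {i : α → ℕ} {L : α → List (ℕ × (ℕ × ℕ))} {f g : α → ℕ × ℕ}
    (hi : Primrec i) (hL : Primrec L) (hf : Primrec f) (hg : Primrec g) :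
    Primrec fun x => locC (i x) (L x) (f x) (g x) := by
  unfold locC
  have h1 : Primrec fun x => i x :: (L x).map Prod.fst :=
    Primrec.list_cons.comp hi (Primrec.list_map hL (Primrec.fst.comp Primrec.snd).to₂)
  have h2 : Primrec fun x => (L x).length + 1 := Primrec.succ.comp (Primrec.list_length.comp hL)
  exact Primrec₂.natPair.comp (Primrec.const 7) (Primrec₂.natPair.comp (primrec_gsC hi hL)
    (primrec_ldC h1 (primrec_eqC hf hg) h2))

theorem primrec_dC {m : α → ℕ} (hm : Primrec m) : Primrec fun x => dC (m x) := by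
  unfold dC
  have hu := Primrec.unpair.comp hm
  have h1 := Primrec.unpair.comp (Primrec.fst.comp hu)
  have h2 := Primrec.unpair.comp (Primrec.snd.comp hu)
  have h3 : Primrec fun x => [(m x).unpair.1.unpair.1, (m x).unpair.1.unpair.2,
      (m x).unpair.2.unpair.1, (m x).unpair.2.unpair.2] :=
    Primrec.list_cons.comp (Primrec.fst.comp h1) (Primrec.list_cons.comp (Primrec.snd.comp h1)
      (Primrec.list_cons.comp (Primrec.fst.comp h2) (Primrec.list_cons.comp
        (Primrec.snd.comp h2) (Primrec.const []))))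
  exact primrec_ldC h3 (Primrec.const _) (Primrec.const 4)

end pr2

theorem primrec_step : Primrec₂ step := by
  unfold step
  have hn : Primrec fun q : ℕ × St => q.1 := Primrec.fst
  have hs1 : Primrec fun q : ℕ × St => q.2.1 := Primrec.fst.comp Primrec.snd
  have hsr : Primrec fun q : ℕ × St => q.2.2 := Primrec.snd.comp Primrec.snd
  have hsg : Primrec fun q : ℕ × St => q.2.2.1 := Primrec.fst.comp hsr
  have hs2 : Primrec fun q : ℕ × St => q.2.2.2 := Primrec.snd.comp hsr
  have ha1 : Primrec fun q : ℕ × St => arg1 q.2 :=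
    (Primrec.list_getD dT).comp hs1 (Primrec.const 0)
  have ha2 : Primrec fun q : ℕ × St => arg2 q.2 :=
    (Primrec.list_getD dT).comp hs1 (Primrec.const 1)
  have hf1 : Primrec fun q : ℕ × St => frg1 q.2 :=
    (Primrec.list_getD dF).comp hs2 (Primrec.const 0)
  have hf2 : Primrec fun q : ℕ × St => frg2 q.2 :=
    (Primrec.list_getD dF).comp hs2 (Primrec.const 1)
  have hd1 : Primrec fun q : ℕ × St => q.2.1.drop 2 :=
    Primrec.list_drop.comp (Primrec.const 2) hs1
  have hd1' : Primrec fun q : ℕ × St => q.2.1.drop 1 :=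
    Primrec.list_drop.comp (Primrec.const 1) hs1
  have hd2 : Primrec fun q : ℕ × St => q.2.2.2.drop 2 :=
    Primrec.list_drop.comp (Primrec.const 2) hs2
  have hd3 : Primrec fun q : ℕ × St => q.2.2.2.drop 1 :=
    Primrec.list_drop.comp (Primrec.const 1) hs2
  have hn9 : Primrec fun q : ℕ × St => q.1 - 9 := Primrec.nat_sub.comp hn (Primrec.const 9)
  have hm : Primrec fun q : ℕ × St => (q.1 - 9) % 8 := Primrec.nat_mod.comp hn9 (Primrec.const 8)
  have hk : Primrec fun q : ℕ × St => (q.1 - 9) / 8 := Primrec.nat_div.comp hn9 (Primrec.const 8)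
  have hk2 : Primrec fun q : ℕ × St => 2 * ((q.1 - 9) / 8) :=
    Primrec.nat_mul.comp (Primrec.const 2) hk
  have hk3 : Primrec fun q : ℕ × St => 2 * ((q.1 - 9) / 8) + 1 :=
    Primrec.nat_add.comp hk2 (Primrec.const 1)
  have hu := Primrec.unpair.comp hk
  have hu1 := Primrec.fst.comp hu
  have hu2 := Primrec.snd.comp hu
  have hc : ∀ k : ℕ, PrimrecPred fun q : ℕ × St => q.1 = k := fun k =>
    Primrec.eq.comp hn (Primrec.const k)
  have hr : ∀ k : ℕ, PrimrecPred fun q : ℕ × St => (q.1 - 9) % 8 = k := fun k =>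
    Primrec.eq.comp hm (Primrec.const k)
  have push : ∀ c : ℕ × ℕ, Primrec fun q : ℕ × St => ((c :: q.2.1, q.2.2) : St) := fun c =>
    Primrec.pair (Primrec.list_cons.comp (Primrec.const c) hs1) hsr
  refine Primrec.ite (hc 0) (push _) (Primrec.ite (hc 1) (push _) (Primrec.ite (hc 2) (push _)
    (Primrec.ite (hc 3) ?_ (Primrec.ite (hc 4) ?_ (Primrec.ite (hc 5) ?_
    (Primrec.ite (hc 6) ?_ (Primrec.ite (hc 7) ?_ (Primrec.ite (hc 8) ?_
    (Primrec.ite (hr 0) ?_ (Primrec.ite (hr 1) ?_ (Primrec.ite (hr 2) ?_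
    (Primrec.ite (hr 3) ?_ (Primrec.ite (hr 4) ?_ (Primrec.ite (hr 5) ?_
    (Primrec.ite (hr 6) ?_ Primrec.snd)))))))))))))))
  · exact Primrec.pair (Primrec.list_cons.comp (primrec_cAdd ha1 ha2) hd1) hsr
  · exact Primrec.pair (Primrec.list_cons.comp (primrec_cSub ha1 ha2) hd1) hsr
  · exact Primrec.pair (Primrec.list_cons.comp (primrec_cMul ha1 ha2) hd1) hsr
  · exact Primrec.pair hs1 (Primrec.pair hsg (Primrec.list_cons.comp
      (Primrec₂.natPair.comp (Primrec.const 6) hf1) hd3))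
  · exact Primrec.pair hs1 (Primrec.pair hsg (Primrec.list_cons.comp
      (Primrec₂.natPair.comp (Primrec.const 7) (Primrec₂.natPair.comp hf1 hf2)) hd2))
  · exact Primrec.pair hs1 (Primrec.pair hsg (Primrec.list_cons.comp
      (Primrec₂.natPair.comp (Primrec.const 6) (Primrec₂.natPair.comp (Primrec.const 7)
        (Primrec₂.natPair.comp (Primrec₂.natPair.comp (Primrec.const 6) hf1)
          (Primrec₂.natPair.comp (Primrec.const 6) hf2)))) hd2))
  · exact Primrec.pair (Primrec.list_cons.comp (Primrec.pair (Primrec.const 0)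
      (Primrec₂.natPair.comp (Primrec.const 0) (Primrec₂.natPair.comp hk3
        (Primrec.const 0)))) hs1) hsr
  · exact Primrec.pair hs1 (Primrec.pair hsg (Primrec.list_cons.comp
      (Primrec₂.natPair.comp (Primrec.const 8) (Primrec₂.natPair.comp hk2 hf1)) hd3))
  · exact Primrec.pair hs1 (Primrec.pair hsg (Primrec.list_cons.comp
      (Primrec₂.natPair.comp (Primrec.const 6) (Primrec₂.natPair.comp (Primrec.const 8)
        (Primrec₂.natPair.comp hk2 (Primrec₂.natPair.comp (Primrec.const 6) hf1)))) hd3))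
  · refine Primrec.pair hd1 (Primrec.pair hsg (Primrec.list_cons.comp
      (primrec_ldC ?_ (primrec_eqC ha1 ha2) (Primrec.const 2)) hs2))
    exact Primrec.list_cons.comp hu1 (Primrec.list_cons.comp hu2 (Primrec.const []))
  · exact Primrec.pair hd1 (Primrec.pair (Primrec.list_drop.comp hu2 hsg)
      (Primrec.list_cons.comp (primrec_locC hu1 (Primrec.list_take.comp hu2 hsg) ha1 ha2) hs2))
  · exact Primrec.pair hd1' (Primrec.pair (Primrec.list_cons.comp (Primrec.pair hk ha1) hsg) hs2)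
  · exact Primrec.pair hs1 (Primrec.pair hsg (Primrec.list_cons.comp (primrec_dC hk) hs2))

theorem primrec_parse : Primrec parse := by
  unfold parse
  have h : Primrec₂ fun (_ : List ℕ) (q : ℕ × St) => step q.1 q.2 :=
    primrec_step.comp (Primrec.fst.comp Primrec.snd) (Primrec.snd.comp Primrec.snd)
  exact Primrec.list_foldr Primrec.id (Primrec.const ([], [], [])) h

theorem primrec_comp : Primrec comp := by
  unfold comp
  exact (Primrec.list_getD dF).comp (Primrec.snd.comp (Primrec.snd.comp primrec_parse))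
    (Primrec.const 0)

end CmpV

theorem exists_compileV : ∃ (c : VFm → FR) (f : List ℕ → ℕ), Primrec f ∧
    (∀ φ, f φ.code = (c φ).code) ∧ (∀ w, ∃ φ, f w = (c φ).code) ∧
    ∀ (R : Type) [CommRing R] (t : R) (E : ℕ → R), (∀ k, E (2 * k + 1) = 0) → ∀ φ : VFm,
      (Sat (ringRS t) E (c φ) ↔ φ.Holds t (DV t) (fun i => E (2 * i))) :=
  ⟨CmpV.cF, CmpV.comp, CmpV.primrec_comp, CmpV.comp_code, CmpV.comp_total,
    fun _ _ _ E hE φ => CmpV.sat_cF φ E hE⟩

end BF80
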