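import Pool.Agent.BF80.Defs3

/-!
# The fine valuation
-/

set_option maxSynthPendingDepth 10

open Polynomial Filter

namespace BF80

open FT80

variable {p : ℕ} [hp : Fact p.Prime] {M : Type} [Field M] {σ : P1 p →+* M}

theorem Mdl.fv_le_one (hM : Mdl p σ) (x : M) : hM.fv x ≤ 1 ↔ VO (σ X) x :=
  hM.OVv.valuation_le_one_iff x

theorem Mdl.DV_iff (hM : Mdl p σ) (a b : M) : DV (σ X) a b ↔ hM.fv b ≤ hM.fv a := by
  constructor
  · rintro ⟨c, hc, rfl⟩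
    rw [map_mul]
    have h1 : hM.fv c ≤ 1 := (hM.fv_le_one c).2 hc
    calc hM.fv c * hM.fv a ≤ 1 * hM.fv a := mul_le_mul_left h1 _
      _ = hM.fv a := one_mul _
  · intro h
    rcases eq_or_ne a 0 with rfl | ha
    · rw [map_zero, le_zero_iff, map_eq_zero] at h
      exact ⟨0, VO_zero _, by rw [h, mul_zero]⟩
    · refine ⟨b / a, ?_, div_mul_cancel₀ b ha⟩
      apply (hM.fv_le_one _).1
      rw [map_div₀]
      have h0 : (0 : hM.VG) < hM.fv a := zero_lt_iff.2 ((Valuation.ne_zero_iff _).2 ha)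
      exact div_le_one_of_le₀ h h0.le

theorem Mdl.vu_val (hM : Mdl p σ) (x : M) (hx : x ≠ 0) : ((hM.vu x hx : hM.VGˣ) : hM.VG) = hM.fv x :=
  rfl

theorem Mdl.vu_surj (hM : Mdl p σ) (γ : hM.VGˣ) : ∃ (x : M) (hx : x ≠ 0), hM.vu x hx = γ := by
  obtain ⟨x, hx⟩ := hM.OVv.valuation_surjective (γ : hM.VG)
  have hx0 : x ≠ 0 := by
    rintro rfl
    rw [map_zero] at hx
    exact γ.ne_zero hx.symm
  exact ⟨x, hx0, Units.ext hx⟩

theorem Mdl.fv_eq_one (hM : Mdl p σ) {x : M} (hx : x ≠ 0) (h1 : VO (σ X) x)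
    (h2 : VO (σ X) x⁻¹) : hM.fv x = 1 := by
  apply le_antisymm ((hM.fv_le_one x).2 h1)
  have h3 := (hM.fv_le_one x⁻¹).2 h2
  rw [map_inv₀] at h3
  have h0 : (0 : hM.VG) < hM.fv x := zero_lt_iff.2 ((Valuation.ne_zero_iff _).2 hx)
  exact (inv_le_one₀ h0).1 h3

theorem Mdl.fv_natCast (hM : Mdl p σ) {γ : ℕ} (h1 : 1 ≤ γ) (h2 : γ < p) :
    hM.fv (γ : M) = 1 := by
  have h3 : (γ : M) = σ (C ((γ : ℕ) : ZMod p)) := by
    rw [C_eq_natCast, map_natCast]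
  have h4 : ((γ : ℕ) : ZMod p) ≠ 0 := by
    rw [Ne, ZMod.natCast_eq_zero_iff]
    intro h
    exact absurd (Nat.le_of_dvd h1 h) (not_le.2 h2)
  have h5 := hM.unit_σ (f := C ((γ : ℕ) : ZMod p)) (by rwa [coeff_C_zero])
  rw [h3]
  exact hM.fv_eq_one h5.1 (hM.VO_σ _) h5.2

/-- `n`-th powers times a power of `t` give all values -/
def Mdl.PD (hM : Mdl p σ) (n : ℕ) : Prop :=
  ∀ x : M, x ≠ 0 → ∃ j < n, ∃ y : M, y ≠ 0 ∧ hM.fv x = hM.fv (σ X) ^ j * hM.fv y ^ n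

theorem Mdl.PD_mul (hM : Mdl p σ) {m n : ℕ} (h1 : hM.PD m) (h2 : hM.PD n) : hM.PD (m * n) := by
  intro x hx
  obtain ⟨j, hj, y, hy, hxy⟩ := h1 x hx
  obtain ⟨i, hi, z, hz, hyz⟩ := h2 y hy
  refine ⟨j + m * i, ?_, z, hz, ?_⟩
  · calc j + m * i < m + m * i := by omega
      _ = m * (i + 1) := by ring
      _ ≤ m * n := Nat.mul_le_mul_left m hi
  · rw [hxy, hyz, mul_pow, ← pow_mul, ← pow_mul, ← mul_assoc, ← pow_add, mul_comm i m,
      mul_comm n m]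

theorem Mdl.PD_pow (hM : Mdl p σ) {n : ℕ} (h1 : hM.PD n) (a : ℕ) : hM.PD (n ^ a) := by
  induction a with
  | zero =>
    intro x hx
    rw [pow_zero]
    exact ⟨0, zero_lt_one, x, hx, by rw [pow_zero, one_mul, pow_one]⟩
  | succ a ih =>
    rw [pow_succ]
    exact hM.PD_mul ih h1

theorem MdlV.PD (hM : MdlV p σ) {n : ℕ} (hn : n ≠ 0) : hM.toMdl.PD n := by
  obtain ⟨a, m, hm, rfl⟩ := Nat.exists_eq_pow_mul_and_not_dvd hn p hp.out.ne_one
  apply Mdl.PD_mul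
  · apply Mdl.PD_pow
    intro x hx
    obtain ⟨j, hj, y, hy, h1, h2⟩ := hM.vpow x hx
    have ht := hM.toMdl.t_ne
    refine ⟨j, hj, y, hy, ?_⟩
    have h3 : x / (σ X ^ j * y ^ p) ≠ 0 :=
      div_ne_zero hx (mul_ne_zero (pow_ne_zero _ ht) (pow_ne_zero _ hy))
    have h4 := hM.toMdl.fv_eq_one h3 h1 (by rwa [inv_div])
    rw [map_div₀, div_eq_one_iff_eq, map_mul, map_pow, map_pow] at h4
    · exact h4
    · rw [Valuation.ne_zero_iff]
      exact mul_ne_zero (pow_ne_zero _ ht) (pow_ne_zero _ hy)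
  · intro x hx
    obtain ⟨γ, hγ, j, hj, y, h1, h2⟩ := hM.toMdl.pow m hm x hx
    refine ⟨j, hj, y, ?_, ?_⟩
    · rintro rfl
      rw [zero_pow (by omega), mul_zero] at h2
      exact hx h2
    · rw [h2, map_mul, map_mul, map_pow, map_pow, hM.toMdl.fv_natCast h1 hγ, one_mul]

theorem Mdl.fv_t_lt (hM : Mdl p σ) : hM.fv (σ X) < 1 := by
  apply lt_of_le_of_ne ((hM.fv_le_one _).2 hM.VO_t)
  intro h
  apply hM.tinv
  rw [← hM.fv_le_one, map_inv₀, h, inv_one]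

theorem Mdl.le_fv_t (hM : Mdl p σ) {x : M} (hx : hM.fv x < 1) : hM.fv x ≤ hM.fv (σ X) := by
  have ht := hM.t_ne
  rcases hM.div_t_or_inv ((hM.fv_le_one x).1 hx.le) with h | ⟨h0, h⟩
  · have h1 : x = x / σ X * σ X := (div_mul_cancel₀ x ht).symm
    rw [h1, map_mul]
    have h2 := (hM.fv_le_one _).2 h
    calc hM.fv (x / σ X) * hM.fv (σ X) ≤ 1 * hM.fv (σ X) := mul_le_mul_left h2 _
      _ = hM.fv (σ X) := one_mul _
  · have h1 := hM.fv_eq_one h0 ((hM.fv_le_one x).1 hx.le) h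
    rw [h1] at hx
    exact absurd hx (lt_irrefl _)

theorem MdlV.zg (hM : MdlV p σ) : ZG (hM.toMdl.vu (σ X) hM.toMdl.t_ne) where
  lt := by
    rw [← Units.val_lt_val]
    exact hM.toMdl.fv_t_lt
  max := by
    intro a ha
    obtain ⟨x, hx, rfl⟩ := hM.toMdl.vu_surj a
    rw [← Units.val_lt_val] at ha
    rw [← Units.val_le_val]
    exact hM.toMdl.le_fv_t ha
  div := by
    intro n hn a
    obtain ⟨x, hx, rfl⟩ := hM.toMdl.vu_surj a
    obtain ⟨j, hj, y, hy, h⟩ := hM.PD hn x hx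
    refine ⟨j, hj, hM.toMdl.vu y hy, ?_⟩
    apply Units.ext
    exact h

theorem Mdl.fv_of_bdd (hM : Mdl p σ) (N : ℕ) : ∀ x : M, x ≠ 0 → VO (σ X) x →
    VO (σ X) (σ X ^ N * x⁻¹) → ∃ m : ℕ, hM.fv x = hM.fv (σ X) ^ m := by
  have ht := hM.t_ne
  induction N with
  | zero =>
    intro x hx h1 h2
    rw [pow_zero, one_mul] at h2
    exact ⟨0, by rw [pow_zero]; exact hM.fv_eq_one hx h1 h2⟩
  | succ N ih =>
    intro x hx h1 h2
    rcases hM.div_t_or_inv h1 with h | ⟨_, h⟩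
    · obtain ⟨m, hm⟩ := ih (x / σ X) (div_ne_zero hx ht) h (by
        have h3 : σ X ^ N * (x / σ X)⁻¹ = σ X ^ (N + 1) * x⁻¹ := by
          rw [inv_div, pow_succ]
          field_simp
        rwa [h3])
      refine ⟨m + 1, ?_⟩
      have h4 : x = x / σ X * σ X := (div_mul_cancel₀ x ht).symm
      rw [h4, map_mul, hm, pow_succ]
    · exact ⟨0, by rw [pow_zero]; exact hM.fv_eq_one hx h1 h⟩

theorem Mdl.fv_of_vc (hM : Mdl p σ) (x : M) (hx : hM.vc x = 1) :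
    ∃ m : ℤ, hM.fv x = hM.fv (σ X) ^ m := by
  have ht := hM.t_ne
  have hx0 : x ≠ 0 := by
    rintro rfl
    rw [map_zero] at hx
    exact zero_ne_one hx
  obtain ⟨n, hn⟩ := hM.vc_le_one.1 hx.le
  obtain ⟨m, hm⟩ : x⁻¹ ∈ hM.OC := by
    rw [← hM.vc_le_one, map_inv₀, hx, inv_one]
  obtain ⟨k, hk⟩ := hM.fv_of_bdd (m + n) (σ X ^ n * x) (mul_ne_zero (pow_ne_zero _ ht) hx0) hn (by
    have h3 : σ X ^ (m + n) * (σ X ^ n * x)⁻¹ = σ X ^ m * x⁻¹ := by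
      rw [mul_inv, pow_add]
      field_simp
    rwa [h3])
  refine ⟨(k : ℤ) - (n : ℤ), ?_⟩
  have hv : hM.fv (σ X) ≠ 0 := (Valuation.ne_zero_iff _).2 ht
  rw [map_mul, map_pow] at hk
  rw [zpow_sub₀ hv, zpow_natCast, zpow_natCast, ← hk, mul_comm,
    mul_div_cancel_right₀ _ (pow_ne_zero n hv)]

end BF80
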