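import Pool.Agent.BF80.MdlSt

/-!
# The embedding of `k0` in a model
-/

set_option maxSynthPendingDepth 10

open Polynomial Filter

namespace BF80

open FT80

variable {p : ℕ} [hp : Fact p.Prime]

/-- uniqueness of the root which is divisible by `X` -/
theorem ps_root_unique {F : Polynomial (OO p)} (h1 : PowerSeries.constantCoeff (F.coeff 1) ≠ 0)
    {a b : OO p} (ha : PowerSeries.X ∣ a) (hb : PowerSeries.X ∣ b) (hFa : F.eval a = 0)
    (hFb : F.eval b = 0) : a = b := by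
  obtain ⟨k, hk⟩ := F.binomExpansion b (a - b)
  rw [add_sub_cancel, hFa, hFb, zero_add] at hk
  have h2 : (a - b) * (F.derivative.eval b + k * (a - b)) = 0 := by
    linear_combination -hk
  rcases mul_eq_zero.1 h2 with h3 | h3
  · exact sub_eq_zero.1 h3
  · exfalso
    apply h1
    have ha' := PowerSeries.X_dvd_iff.1 ha
    have hb' := PowerSeries.X_dvd_iff.1 hb
    have h4 := congrArg (PowerSeries.constantCoeff (R := ZMod p)) h3
    rw [map_add, map_mul, map_sub, ha', hb', sub_zero, mul_zero, add_zero, map_zero,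
      ← eval₂_at_apply, hb', eval₂_eq_eval_map, ← coeff_zero_eq_eval_zero, coeff_map,
      coeff_derivative] at h4
    simpa using h4

theorem Alg1.self {R L : Type*} [CommRing R] [IsDomain R] [Field L] (σ : R →+* L) (r : R) :
    Alg1 σ (σ r) := by
  let _ := σ.toAlgebra
  exact isAlgebraic_algebraMap (R := R) (A := L) r

section
variable {M : Type*} [Field M] {σ : P1 p →+* M}

/-- `F_p[t] → A`, `A` the field of algebraic elements -/
noncomputable def sigA (σ : P1 p →+* M) : P1 p →+* algField σ :=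
  σ.codRestrict (algField σ) (fun f => Alg1.self σ f)

/-- the standard part on the algebraic elements -/
noncomputable def Mdl.eA (hM : Mdl p σ) : algField σ →+* KK p :=
  hM.st.comp ((algField σ).subtype.codRestrict hM.OC (fun x => hM.alg_mem_OC x.2))

theorem Mdl.eA_apply (hM : Mdl p σ) (x : algField σ) :
    hM.eA x = hM.st ⟨(x : M), hM.alg_mem_OC x.2⟩ := rfl

theorem Mdl.eA_sigA (hM : Mdl p σ) (f : P1 p) : hM.eA (sigA σ f) = tauK p f :=
  hM.st_σ f _

theorem Mdl.eA_ev1 (hM : Mdl p σ) (x : algField σ) (q : P2 p) :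
    hM.eA (ev1 (sigA σ) x q) = ev1 (tauK p) (hM.eA x) q := by
  rw [map_ev1']
  congr 2
  exact RingHom.ext hM.eA_sigA

theorem coe_ev1_sigA (x : algField σ) (q : P2 p) :
    ((ev1 (sigA σ) x q : algField σ) : M) = ev1 σ (x : M) q := by
  have h := map_ev1' (sigA σ) (algField σ).subtype x q
  exact h

theorem Mdl.eA_mem (hM : Mdl p σ) (x : algField σ) : hM.eA x ∈ k0 p := by
  obtain ⟨q, hq0, hq⟩ := x.2
  refine ⟨q, hq0, ?_⟩
  rw [← hM.eA_ev1]
  have h1 : ev1 (sigA σ) x q = 0 := by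
    apply Subtype.ext
    rw [coe_ev1_sigA]
    exact hq
  rw [h1, map_zero]

theorem Mdl.eA_surj (hM : Mdl p σ) (z : k0 p) : ∃ x : algField σ, hM.eA x = (z : KK p) := by
  obtain ⟨n, y, hy⟩ := exists_scale (z : KK p)
  have hyA : AlgO y := by
    have h1 : iK p y ∈ k0 p := by
      rw [← hy, ← tauK_X_iK]
      exact mul_mem z.2 (pow_mem (Alg1.self _ _) _)
    obtain ⟨q, hq0, hq⟩ := h1
    refine ⟨q, hq0, iK_injective ?_⟩
    rw [iK_ev1, hq, map_zero]
  obtain ⟨m, θ, hθ, hin⟩ := theta_data {y} (by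
    intro s hs
    rw [Finset.mem_singleton] at hs
    rw [hs]
    exact hyA)
  obtain ⟨A, c, hc, hA⟩ := hin y (Finset.mem_singleton_self y)
  obtain ⟨hm0, hm1, hθX, hθm, -, -⟩ := hθ
  have hm1' : m.coeff 1 ≠ 0 := by
    intro h
    rw [h, coeff_zero] at hm1
    exact hm1 rfl
  have hmne : m ≠ 0 := by
    rintro rfl
    exact hm1' (coeff_zero 1)
  obtain ⟨y', hy', hroot⟩ := hM.hensel (m.map σ) (fun i => by
    rw [coeff_map]
    exact hM.VO_σ _) (by
    rw [coeff_map]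
    have h1 := (hM.dvd_iff (m.coeff 0) 1).2 (by
      rw [pow_one, X_dvd_iff]
      exact hm0)
    rwa [pow_one] at h1) (by
    rw [coeff_map]
    intro h
    exact hm1' (hM.σ_injective (h.trans (map_zero σ).symm))) (by
    rw [coeff_map]
    exact (hM.unit_σ hm1).2)
  rw [← ev1_eq_eval] at hroot
  let θ' : algField σ := ⟨σ X * y', m, hmne, hroot⟩
  have hθ' : VO (σ X) (σ X * y') := hM.mul _ _ hM.VO_t hy'
  have hst : hM.eA θ' = iK p θ := by
    have h1 : hM.eA θ' = iK p (PowerSeries.X * hM.dg y') := by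
      rw [hM.eA_apply, hM.st_apply, hM.sf_VO hθ']
      have h2 := hM.dg_t_mul hy' 1
      rw [pow_one, pow_one] at h2
      rw [h2]
    rw [h1]
    congr 1
    refine ps_root_unique (F := m.map (tau p)) ?_ (dvd_mul_right _ _) hθX ?_ ?_
    · rw [coeff_map, ← PowerSeries.coeff_zero_eq_constantCoeff_apply, tau_coeff]
      exact hm1
    · rw [← ev1_eq_eval]
      apply iK_injective
      rw [iK_ev1, ← h1, ← hM.eA_ev1]
      have h3 : ev1 (sigA σ) θ' m = 0 := by
        apply Subtype.ext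
        rw [coe_ev1_sigA]
        exact hroot
      rw [h3, map_zero, map_zero]
    · rw [← ev1_eq_eval]
      exact hθm
  have hc0 : c ≠ 0 := by
    rintro rfl
    exact hc (coeff_zero 0)
  refine ⟨ev1 (sigA σ) θ' A / sigA σ c / sigA σ X ^ n, ?_⟩
  have hcK : tauK p c ≠ 0 := by
    intro h
    exact hc0 (tauK_injective (h.trans (map_zero _).symm))
  have hXK : tauK p X ≠ 0 := mdl_KK.t_ne
  rw [map_div₀, map_div₀, map_pow, hM.eA_ev1, hst, hM.eA_sigA, hM.eA_sigA, ← iK_ev1, ← hA,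
    map_mul, ← hy, ← tauK_X_iK]
  have h5 : iK p (tau p c) = tauK p c := rfl
  rw [h5]
  field_simp

theorem Mdl.alg1_hom (hM : Mdl p σ) (j : k0 p →+* M) (hj : ∀ f, j (sig0 p f) = σ f) (z : k0 p) :
    Alg1 σ (j z) := by
  obtain ⟨q, hq0, hq⟩ := z.2
  refine ⟨q, hq0, ?_⟩
  have h8 : j (ev1 (sig0 p) z q) = ev1 σ (j z) q := by
    rw [map_ev1']
    congr 2
    exact RingHom.ext hj
  rw [← h8]
  have h9 : ev1 (sig0 p) z q = 0 := by
    apply Subtype.ext
    have h10 := map_ev1' (sig0 p) (k0 p).subtype z q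
    exact h10.trans hq
  rw [h9, map_zero]

theorem Mdl.st_hom (hM : Mdl p σ) (j : k0 p →+* M) (hj : ∀ f, j (sig0 p f) = σ f)
    (st : hM.OC →+* KK p) (hst : ∀ f : P1 p, ∃ h : σ f ∈ hM.OC, st ⟨σ f, h⟩ = tauK p f)
    (z : k0 p) : ∃ h : j z ∈ hM.OC, st ⟨j z, h⟩ = z := by
  refine ⟨hM.alg_mem_OC (hM.alg1_hom j hj z), ?_⟩
  have h1 := hom_k0_KK (st.comp (j.codRestrict hM.OC (fun z => hM.alg_mem_OC (hM.alg1_hom j hj z))))
    (fun f => by
      obtain ⟨h, h2⟩ := hst f
      rw [← h2, RingHom.comp_apply]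
      congr 1
      apply Subtype.ext
      exact hj f) z
  exact h1

theorem Mdl.exists_j (hM : Mdl p σ) : ∃ j : k0 p →+* M, (∀ f, j (sig0 p f) = σ f) ∧
    (∀ x : M, Alg1 σ x ↔ ∃ z, j z = x) ∧
    (∀ j' : k0 p →+* M, (∀ f, j' (sig0 p f) = σ f) → j' = j) ∧
    (∀ st : hM.OC →+* KK p, (∀ f : P1 p, ∃ h : σ f ∈ hM.OC, st ⟨σ f, h⟩ = tauK p f) →
      ∀ z, ∃ h : j z ∈ hM.OC, st ⟨j z, h⟩ = z) := by
  have hbij : Function.Bijective (hM.eA.codRestrict (k0 p) hM.eA_mem) := by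
    refine ⟨RingHom.injective _, fun z => ?_⟩
    obtain ⟨x, hx⟩ := hM.eA_surj z
    exact ⟨x, Subtype.ext hx⟩
  let E : algField σ ≃+* k0 p := RingEquiv.ofBijective _ hbij
  have hE : ∀ x, ((E x : k0 p) : KK p) = hM.eA x := fun x => rfl
  let j : k0 p →+* M := (algField σ).subtype.comp E.symm.toRingHom
  have hj : ∀ x, j (E x) = (x : M) := by
    intro x
    show ((E.symm (E x) : algField σ) : M) = x
    rw [E.symm_apply_apply]
  have hj1 : ∀ f, j (sig0 p f) = σ f := by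
    intro f
    have h1 : sig0 p f = E (sigA σ f) := by
      apply Subtype.ext
      rw [hE, hM.eA_sigA]
      rfl
    rw [h1, hj]
    rfl
  refine ⟨j, hj1, ?_, ?_, fun st hst z => hM.st_hom j hj1 st hst z⟩
  · intro x
    constructor
    · intro hx
      exact ⟨E ⟨x, hx⟩, hj _⟩
    · rintro ⟨z, rfl⟩
      exact hM.alg1_hom j hj1 z
  · intro j' hj'
    ext z
    have hst : ∀ f : P1 p, ∃ h : σ f ∈ hM.OC, hM.st ⟨σ f, h⟩ = tauK p f :=
      fun f => ⟨hM.OC_of_VO (hM.VO_σ f), hM.st_σ f _⟩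
    obtain ⟨h1, h2⟩ := hM.st_hom j' hj' hM.st hst z
    obtain ⟨h3, h4⟩ := hM.st_hom j hj1 hM.st hst z
    have h5 : hM.eA ⟨j' z, hM.alg1_hom j' hj' z⟩ = hM.eA ⟨j z, hM.alg1_hom j hj1 z⟩ := by
      rw [hM.eA_apply, hM.eA_apply]
      exact h2.trans h4.symm
    exact congrArg Subtype.val (RingHom.injective _ h5)

end

end BF80
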