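import Pool.Agent.BF80.BackForth1
import Pool.Agent.BF80.MdlJ
import Pool.Agent.BF80.Val

/-!
# Back and forth with values
-/

set_option autoImplicit false
set_option maxSynthPendingDepth 10

open Polynomial Filter

namespace BF80

open FT80

/-! ### Extension of a system by one component -/

section hom

variable {R P Q : Type*} [CommRing R] [IsDomain R] [Field P] [Field Q] {σ : R →+* P} {τ : R →+* Q}

variable {G : Set (P × Q)}

/-- one step, with the new system -/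
theorem Sys.addc (hG : Sys σ τ G)
    (hU : ∀ ι ι' : algField σ →+* Q, (∀ r h, ι ⟨σ r, h⟩ = τ r) → (∀ r h, ι' ⟨σ r, h⟩ = τ r) →
      ι = ι')
    (x : P) (hcnt : (algField (ev1 σ x) : Set P).Countable) (hx : ¬ ∃ y, (x, y) ∈ G)
    (ι : algField (ev1 σ x) →+* Q) (hσ : ∀ r h, ι ⟨σ r, h⟩ = τ r)
    (hB : ∀ h, ι ⟨x, h⟩ ∉ Prod.snd '' G)
    (hcl : ∀ h y, Alg1 (ev1 τ (ι ⟨x, h⟩)) y → ∃ u, ι u = y) :
    Sys σ τ (G ∪ Set.range (fun u : algField (ev1 σ x) => ((u : P), ι u))) := by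
  have hnx : ¬ Alg1 σ x := by
    intro h
    obtain ⟨θ, h1, h2⟩ := hG.alg
    exact hx ⟨_, h2 ⟨x, h⟩⟩
  have hxm : x ∈ algField (ev1 σ x) := x_mem_acl x
  set y : Q := ι ⟨x, hxm⟩ with hy
  have hyB : y ∉ Prod.snd '' G := hB _
  have hmem : ∀ u, ι u ∈ algField (ev1 τ y) := fun u =>
    (alg2_iota ι (σ_mem_acl x) hσ ⟨x, hxm⟩ u).2 u.2
  let θ : algField (ev1 σ x) ≃+* algField (ev1 τ y) :=
    RingEquiv.ofBijective (ι.codRestrict (algField (ev1 τ y)) hmem) (by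
      constructor
      · intro a b hab
        exact ι.injective (congrArg Subtype.val hab)
      · rintro ⟨v, hv⟩
        obtain ⟨u, hu⟩ := hcl hxm v hv
        exact ⟨u, Subtype.ext hu⟩)
  have hθ : ∀ u, (θ u : Q) = ι u := fun u => rfl
  -- on algebraic elements
  obtain ⟨θa, ha1, ha2⟩ := hG.alg
  have hle : algField σ ≤ algField (ev1 σ x) := fun u hu => alg1_lift hu
  have halg : ∀ u : algField σ, ι ⟨u, hle u.2⟩ = θa u := by
    have h1 : ι.comp (Subfield.inclusion hle) = (algField τ).subtype.comp θa.toRingHom := by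
      apply hU
      · intro r h
        exact hσ r _
      · intro r h
        exact ha1 r h
    intro u
    exact congrArg (fun g : algField σ →+* Q => g u) h1
  have hyn : ¬ Alg1 τ y := by
    intro h
    exact hnx ((alg1_iota ι (σ_mem_acl x) hσ ⟨x, hxm⟩).1 h)
  have hmix : ∀ a ∈ G, ∀ u : algField (ev1 σ x), (a.1 = u ↔ a.2 = ι u) := by
    intro a ha u
    constructor
    · intro hau
      by_cases hu : Alg1 σ (u : P)
      · have h1 := ha2 ⟨u, hu⟩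
        have h2 := (hG.inj _ ha _ h1).1 hau
        have h3 := halg ⟨u, hu⟩
        rw [h2]
        exact h3.symm
      · exfalso
        have h1 : ¬ Alg1 σ a.1 := by
          rw [hau]
          exact hu
        obtain ⟨θ', h2, h3, h4⟩ := hG.tr a ha h1
        have h5 : x ∈ algField (ev1 σ a.1) := by
          rw [hau]
          exact exch u.2
        exact hx ⟨_, h4 ⟨x, h5⟩⟩
    · intro hau
      by_cases hv : Alg1 τ (ι u)
      · have h1 := ha2 (θa.symm ⟨ι u, hv⟩)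
        rw [RingEquiv.apply_symm_apply] at h1
        have h2 := (hG.inj _ ha _ h1).2 hau
        have h3 := halg (θa.symm ⟨ι u, hv⟩)
        rw [RingEquiv.apply_symm_apply] at h3
        have h4 := ι.injective h3
        rw [h2]
        exact congrArg Subtype.val h4
      · exfalso
        have h1 : ¬ Alg1 σ a.1 := by
          intro h
          apply hv
          rw [← hau]
          exact (hG.alg_iff (z := a.1) (w := a.2) ha).1 h
        obtain ⟨θ', h2, h3, h4⟩ := hG.tr a ha h1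
        have h5 : y ∈ algField (ev1 τ a.2) := by
          rw [hau]
          exact exch (hmem u)
        have h6 := h4 (θ'.symm ⟨y, h5⟩)
        rw [show θ' (θ'.symm ⟨y, h5⟩) = ⟨y, h5⟩ from θ'.apply_symm_apply _] at h6
        exact hyB ⟨_, h6, rfl⟩
  refine ⟨?_, ?_, ?_, ?_⟩
  · have : Countable (algField (ev1 σ x)) := hcnt.to_subtype
    exact hG.cnt.union (Set.countable_range _)
  · rintro a (ha | ⟨u, rfl⟩) b (hb | ⟨v, rfl⟩)
    · exact hG.inj a ha b hb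
    · exact hmix a ha v
    · have := hmix b hb u
      exact ⟨fun h => (this.1 h.symm).symm, fun h => (this.2 h.symm).symm⟩
    · constructor
      · intro h
        have : u = v := Subtype.ext h
        rw [this]
      · intro h
        have : u = v := ι.injective h
        rw [this]
  · exact ⟨θa, ha1, fun u => Or.inl (ha2 u)⟩
  · rintro a (ha | ⟨z, rfl⟩) hna
    · obtain ⟨θ', h1, h2, h3⟩ := hG.tr a ha hna
      exact ⟨θ', h1, h2, fun u => Or.inl (h3 u)⟩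
    · have hnz : ¬ Alg1 τ (ι z) := by
        intro h
        exact hna ((alg1_iota ι (σ_mem_acl x) hσ z).1 h)
      have e1 : algField (ev1 σ x) = algField (ev1 σ (z : P)) := (acl_eq hnx z.2 hna).symm
      have e2 : algField (ev1 τ y) = algField (ev1 τ (ι z)) := (acl_eq hyn (hmem z) hnz).symm
      obtain ⟨θ', hθ'⟩ := transp e1 e2 θ
      have hθ2 : ∀ (u : P) (h : u ∈ algField (ev1 σ x)) (h' : u ∈ algField (ev1 σ (z : P))),
          (θ' ⟨u, h'⟩ : Q) = ι ⟨u, h⟩ := fun u h h' => hθ' u h h'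
      refine ⟨θ', ?_, ?_, ?_⟩
      · intro r h
        rw [hθ2 _ (σ_mem_acl x r)]
        exact hσ r _
      · intro h
        exact hθ2 _ z.2 _
      · rintro ⟨u, hu⟩
        have hu' : u ∈ algField (ev1 σ x) := by
          rw [e1]
          exact hu
        right
        refine ⟨⟨u, hu'⟩, ?_⟩
        simp only
        rw [hθ2 u hu']

/-- the algebraic part of a system -/
theorem Sys.algPart (hG : Sys σ τ G) : Sys σ τ {a ∈ G | Alg1 σ a.1} := by
  refine ⟨hG.cnt.mono (Set.sep_subset _ _), fun a ha b hb => hG.inj a ha.1 b hb.1, ?_, ?_⟩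
  · obtain ⟨θ, h1, h2⟩ := hG.alg
    exact ⟨θ, h1, fun u => ⟨h2 u, u.2⟩⟩
  · intro a ha hna
    exact absurd ha.2 hna

end hom

/-! ### Terms -/

section terms

variable {p : ℕ}

/-- the polynomial of a term in `x_0, x_1` -/
noncomputable def mpoly (p : ℕ) : MT → P3 p
  | .zero => 0
  | .one => 1
  | .tt => C (C X)
  | .var 0 => C X
  | .var 1 => X
  | .var (_ + 2) => 0
  | .add a b => mpoly p a + mpoly p b
  | .sub a b => mpoly p a - mpoly p b
  | .mul a b => mpoly p a * mpoly p b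

theorem ev2_mpoly {S : Type*} [CommRing S] (σ : P1 p →+* S) (x y : S) (a : MT) :
    ev2 σ x y (mpoly p a) = a.val (σ X) (lenv [x, y]) := by
  induction a with
  | zero => simp [mpoly, MT.val]
  | one => simp [mpoly, MT.val]
  | tt => simp [mpoly, MT.val, ev2]
  | var k =>
    match k with
    | 0 => simp [mpoly, MT.val, ev2, lenv]
    | 1 => simp [mpoly, MT.val, ev2, lenv]
    | k + 2 => simp [mpoly, MT.val, lenv]
  | add a b ha hb => rw [mpoly, MT.val, map_add, ha, hb]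
  | sub a b ha hb => rw [mpoly, MT.val, map_sub, ha, hb]
  | mul a b ha hb => rw [mpoly, MT.val, map_mul, ha, hb]

/-- a relation compatible with the ring operations -/
structure RRel {A B : Type*} [CommRing A] [CommRing B] (r : A → B → Prop) : Prop where
  zero : r 0 0
  one : r 1 1
  add : ∀ {a a' b b'}, r a b → r a' b' → r (a + a') (b + b')
  sub : ∀ {a a' b b'}, r a b → r a' b' → r (a - a') (b - b')
  mul : ∀ {a a' b b'}, r a b → r a' b' → r (a * a') (b * b')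

theorem RRel.val {A B : Type*} [CommRing A] [CommRing B] {r : A → B → Prop} (hr : RRel r)
    {t : A} {t' : B} (ht : r t t') {e : ℕ → A} {e' : ℕ → B} (he : ∀ k, r (e k) (e' k)) (a : MT) :
    r (a.val t e) (a.val t' e') := by
  induction a with
  | zero => exact hr.zero
  | one => exact hr.one
  | tt => exact ht
  | var k => exact he k
  | add a b ha hb => exact hr.add ha hb
  | sub a b ha hb => exact hr.sub ha hb
  | mul a b ha hb => exact hr.mul ha hb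

theorem lenv_rel {A B : Type*} [CommRing A] [CommRing B] {r : A → B → Prop} (hr : r 0 0)
    {l : List A} {l' : List B} (h : List.Forall₂ r l l') : ∀ k, r (lenv l k) (lenv l' k) := by
  induction h with
  | nil =>
    intro k
    simpa [lenv] using hr
  | cons hx _ ih =>
    intro k
    cases k with
    | zero => simpa [lenv] using hx
    | succ k =>
      have := ih k
      simpa [lenv] using this

theorem forall2_map {A B ι : Type*} {r : A → B → Prop} (l : List ι) (f : ι → A) (g : ι → B)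
    (h : ∀ i ∈ l, r (f i) (g i)) : List.Forall₂ r (l.map f) (l.map g) := by
  induction l with
  | nil => exact List.Forall₂.nil
  | cons a l ih =>
    rw [List.map_cons, List.map_cons]
    exact List.Forall₂.cons (h a (List.mem_cons_self ..))
      (ih fun i hi => h i (List.mem_cons_of_mem _ hi))

end terms

/-! ### The atoms -/

section atoms

variable {p : ℕ} [Fact p.Prime] {P Q : Type} [Field P] [Field Q] {σ : P1 p →+* P}
  {τ : P1 p →+* Q} {G : Set (P × Q)}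

theorem rrel_iota {E : Subfield P} (ι : E →+* Q) :
    RRel (fun (x : P) (y : Q) => ∃ h : x ∈ E, ι ⟨x, h⟩ = y) where
  zero := ⟨E.zero_mem, map_zero ι⟩
  one := ⟨E.one_mem, map_one ι⟩
  add := by
    rintro a a' b b' ⟨h, rfl⟩ ⟨h', rfl⟩
    exact ⟨E.add_mem h h', map_add ι ⟨a, h⟩ ⟨a', h'⟩⟩
  sub := by
    rintro a a' b b' ⟨h, rfl⟩ ⟨h', rfl⟩
    exact ⟨E.sub_mem h h', map_sub ι ⟨a, h⟩ ⟨a', h'⟩⟩
  mul := by
    rintro a a' b b' ⟨h, rfl⟩ ⟨h', rfl⟩
    exact ⟨E.mul_mem h h', map_mul ι ⟨a, h⟩ ⟨a', h'⟩⟩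

/-- equations between elements of `E` are preserved by `ι` -/
theorem val_iota {E : Subfield P} (ι : E →+* Q) (hσ : ∃ h : σ X ∈ E, ι ⟨σ X, h⟩ = τ X)
    {l : List P} {l' : List Q}
    (hl : List.Forall₂ (fun (x : P) (y : Q) => ∃ h : x ∈ E, ι ⟨x, h⟩ = y) l l') (a b : MT)
    (h : a.val (σ X) (lenv l) = b.val (σ X) (lenv l)) :
    a.val (τ X) (lenv l') = b.val (τ X) (lenv l') := by
  have hr := rrel_iota ι
  have h1 := lenv_rel hr.zero hl
  obtain ⟨ha, ha'⟩ := hr.val hσ h1 a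
  obtain ⟨hb, hb'⟩ := hr.val hσ h1 b
  rw [← ha', ← hb']
  congr 1
  exact Subtype.ext h

theorem ev1_ne_iff [Infinite P] (x : P) (s : MT) :
    (∃ y : P, s.val (σ X) (lenv [x, y]) ≠ 0) ↔ ∃ k, ev1 σ x ((mpoly p s).coeff k) ≠ 0 := by
  have h1 : ∀ y, s.val (σ X) (lenv [x, y]) = ((mpoly p s).map (ev1 σ x)).eval y := by
    intro y
    rw [← ev2_mpoly, eval_map]
    rfl
  constructor
  · rintro ⟨y, hy⟩
    by_contra h
    push Not at h
    apply hy
    have h2 : (mpoly p s).map (ev1 σ x) = 0 := by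
      ext k
      rw [coeff_map, h, coeff_zero]
    rw [h1, h2, eval_zero]
  · rintro ⟨k, hk⟩
    by_contra h
    push Not at h
    apply hk
    have h2 : (mpoly p s).map (ev1 σ x) = 0 := by
      apply Polynomial.funext
      intro y
      rw [← h1, h, eval_zero]
    rw [← coeff_map, h2, coeff_zero]

theorem Sys.atom1 (hG : Sys σ τ G) {z : P} {w : Q} (h : (z, w) ∈ G) (c : P2 p) :
    ev1 σ z c = 0 ↔ ev1 τ w c = 0 := by
  have h1 := hG.atom h h (C c)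
  have h2 : ev2 σ z z (C c) = ev1 σ z c := by
    simp [ev2, ev1]
  have h3 : ev2 τ w w (C c) = ev1 τ w c := by
    simp [ev2, ev1]
  rwa [h2, h3] at h1

theorem Sys.guard [Infinite P] [Infinite Q] (hG : Sys σ τ G) {z : P} {w : Q} (h : (z, w) ∈ G)
    (s : MT) : (∃ y : P, s.val (σ X) (lenv [z, y]) ≠ 0) ↔
      ∃ y : Q, s.val (τ X) (lenv [w, y]) ≠ 0 := by
  rw [ev1_ne_iff, ev1_ne_iff]
  exact exists_congr fun k => not_congr (hG.atom1 h _)

theorem Sys.eqa (hG : Sys σ τ G) {z z' : P} {w w' : Q} (h : (z, w) ∈ G) (h' : (z', w') ∈ G)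
    (a b : MT) : a.val (σ X) (lenv [z, z']) = b.val (σ X) (lenv [z, z']) ↔
      a.val (τ X) (lenv [w, w']) = b.val (τ X) (lenv [w, w']) := by
  rw [← sub_eq_zero, ← sub_eq_zero (b := MT.val _ _ b), ← ev2_mpoly, ← ev2_mpoly, ← ev2_mpoly,
    ← ev2_mpoly, ← map_sub, ← map_sub]
  exact hG.atom h h' _

theorem Sys.loc_imp [Infinite P] [Infinite Q] (hG : Sys σ τ G) {e : ℕ → P} {e' : ℕ → Q}
    (he : ∀ i, (e i, e' i) ∈ G) (D : P → P → Prop) (D' : Q → Q → Prop) (i : ℕ)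
    (gs : List (ℕ × MT)) (a b : MT) (h : (VFm.loc i gs a b).Holds (σ X) D e) :
    (VFm.loc i gs a b).Holds (τ X) D' e' := by
  simp only [VFm.Holds] at h ⊢
  obtain ⟨h1, h2⟩ := h
  refine ⟨?_, ?_⟩
  · intro g hg
    obtain ⟨h3, h4⟩ := h1 g hg
    refine ⟨?_, (hG.guard (he i) g.2).1 h4⟩
    have h5 := (hG.eqa (he i) (he g.1) g.2 MT.zero).1 h3
    exact h5
  · -- the field and the embedding
    have key : ∃ (E : Subfield P) (ι : E →+* Q), (∃ h : σ X ∈ E, ι ⟨σ X, h⟩ = τ X) ∧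
        (∀ u : E, ((u : P), ι u) ∈ G) ∧ e i ∈ E ∧ ∀ g ∈ gs, e g.1 ∈ E := by
      by_cases hx : Alg1 σ (e i)
      · obtain ⟨θ, h3, h4⟩ := hG.alg
        refine ⟨algField σ, (algField τ).subtype.comp θ.toRingHom, ⟨alg1_map σ X, h3 X _⟩, h4, hx,
          ?_⟩
        intro g hg
        obtain ⟨h5, h6⟩ := h1 g hg
        obtain ⟨k, hk⟩ := (ev1_ne_iff (e i) g.2).1 h6
        refine alg1_trans (N := (mpoly p g.2).map (ev1 σ (e i))) ?_ ?_ ?_
        · intro h7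
          apply hk
          rw [← coeff_map, h7, coeff_zero]
        · intro k
          rw [coeff_map]
          exact ev1_mem (A := algField σ) (alg1_map σ) hx _
        · rw [eval_map]
          have h7 := ev2_mpoly σ (e i) (e g.1) g.2
          rw [h5] at h7
          exact h7
      · obtain ⟨θ, h3, h4, h5⟩ := hG.tr _ (he i) hx
        refine ⟨algField (ev1 σ (e i)), (algField (ev1 τ (e' i))).subtype.comp θ.toRingHom,
          ⟨σ_mem_acl _ X, h3 X _⟩, h5, x_mem_acl _, ?_⟩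
        intro g hg
        obtain ⟨h6, h7⟩ := h1 g hg
        obtain ⟨k, hk⟩ := (ev1_ne_iff (e i) g.2).1 h7
        refine ⟨mpoly p g.2, ?_, ?_⟩
        · intro h8
          apply hk
          rw [h8, coeff_zero, map_zero]
        · have h8 := ev2_mpoly σ (e i) (e g.1) g.2
          rw [h6] at h8
          exact h8
    obtain ⟨E, ι, hσ, hGE, hi, hgs⟩ := key
    have hrel : ∀ k, e k ∈ E → ∃ h : e k ∈ E, ι ⟨e k, h⟩ = e' k := by
      intro k hk
      refine ⟨hk, ?_⟩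
      exact ((hG.inj _ (hGE ⟨e k, hk⟩) _ (he k)).1 rfl)
    refine val_iota ι hσ ?_ a b h2
    exact List.Forall₂.cons (hrel i hi) (forall2_map gs _ _ fun g hg => hrel _ (hgs g hg))

theorem Sys.loc_iff [Infinite P] [Infinite Q] (hG : Sys σ τ G) {e : ℕ → P} {e' : ℕ → Q}
    (he : ∀ i, (e i, e' i) ∈ G) (D : P → P → Prop) (D' : Q → Q → Prop) (i : ℕ)
    (gs : List (ℕ × MT)) (a b : MT) : (VFm.loc i gs a b).Holds (σ X) D e ↔
      (VFm.loc i gs a b).Holds (τ X) D' e' :=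
  ⟨hG.loc_imp he D D' i gs a b, hG.symm.loc_imp (e := e') (e' := e) he D' D i gs a b⟩

end atoms

/-! ### Systems with values -/

section sysv

variable {p : ℕ} [hp : Fact p.Prime] {P Q : Type} [Field P] [Field Q] {σ : P1 p →+* P}
  {τ : P1 p →+* Q}

/-- systems with a partial isomorphism of the value groups -/
structure SysV (hP : Mdl p σ) (hQ : Mdl p τ) (G : Set (P × Q))
    (Λ : Subgroup (hP.VGˣ × hQ.VGˣ)) : Prop where
  sys : Sys σ τ G
  iso : PIso Λ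
  tt : VIn hP hQ Λ (σ X) (τ X)
  val : ∀ a ∈ G, a.1 ≠ 0 → VIn hP hQ Λ a.1 a.2

/-- the inverse relation -/
def swapS {Γ Δ : Type*} [Group Γ] [Group Δ] (Λ : Subgroup (Γ × Δ)) : Subgroup (Δ × Γ) :=
  Λ.comap (MulEquiv.prodComm : Δ × Γ ≃* Γ × Δ).toMonoidHom

theorem mem_swapS {Γ Δ : Type*} [Group Γ] [Group Δ] {Λ : Subgroup (Γ × Δ)} {a : Δ × Γ} :
    a ∈ swapS Λ ↔ (a.2, a.1) ∈ Λ := Iff.rfl

theorem PIso.symm {Γ Δ : Type*} [CommGroup Γ] [CommGroup Δ] [LinearOrder Γ] [LinearOrder Δ]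
    {Λ : Subgroup (Γ × Δ)} (h : PIso Λ) : PIso (swapS Λ) := by
  refine ⟨?_, ?_, ?_⟩
  · have h1 : ((swapS Λ : Subgroup (Δ × Γ)) : Set (Δ × Γ)) = Prod.swap ⁻¹' (Λ : Set (Γ × Δ)) := rfl
    rw [h1]
    exact h.cnt.preimage_of_injOn (Prod.swap_injective.injOn)
  · intro a ha
    exact (h.le _ (mem_swapS.1 ha)).symm
  · intro n hn a ha
    exact (h.dvd n hn _ (mem_swapS.1 ha)).symm

theorem VIn.symm {hP : Mdl p σ} {hQ : Mdl p τ} {Λ : Subgroup (hP.VGˣ × hQ.VGˣ)} {a : P} {b : Q}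
    (h : VIn hP hQ Λ a b) : VIn hQ hP (swapS Λ) b a := by
  obtain ⟨ha, hb, h⟩ := h
  exact ⟨hb, ha, h⟩

theorem VIn.mono {hP : Mdl p σ} {hQ : Mdl p τ} {Λ Λ' : Subgroup (hP.VGˣ × hQ.VGˣ)}
    (hΛ : Λ ≤ Λ') {a : P} {b : Q} (h : VIn hP hQ Λ a b) : VIn hP hQ Λ' a b := by
  obtain ⟨ha, hb, h⟩ := h
  exact ⟨ha, hb, hΛ h⟩

theorem Sys.zero {G : Set (P × Q)} (hG : Sys σ τ G) : ((0 : P), (0 : Q)) ∈ G := by
  obtain ⟨θ, _, h4⟩ := hG.alg
  have h5 := h4 0
  rw [map_zero] at h5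
  exact h5

theorem SysV.symm {hP : Mdl p σ} {hQ : Mdl p τ} {G : Set (P × Q)}
    {Λ : Subgroup (hP.VGˣ × hQ.VGˣ)} (h : SysV hP hQ G Λ) :
    SysV hQ hP (Prod.swap ⁻¹' G) (swapS Λ) := by
  refine ⟨h.sys.symm, h.iso.symm, h.tt.symm, ?_⟩
  intro a ha ha0
  have ha' : (a.2, a.1) ∈ G := ha
  refine (h.val _ ha' ?_).symm
  intro h0
  apply ha0
  exact (h.sys.inj _ ha' _ h.sys.zero).1 h0

theorem vu_mul (hP : Mdl p σ) {a b : P} (ha : a ≠ 0) (hb : b ≠ 0) :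
    hP.vu (a * b) (mul_ne_zero ha hb) = hP.vu a ha * hP.vu b hb :=
  Units.ext (map_mul hP.fv a b)

theorem SysV.dvd_iff {hP : Mdl p σ} {hQ : Mdl p τ} {G : Set (P × Q)}
    {Λ : Subgroup (hP.VGˣ × hQ.VGˣ)} (h : SysV hP hQ G Λ) {a b c d : P} {a' b' c' d' : Q}
    (ha : (a, a') ∈ G) (hb : (b, b') ∈ G) (hc : (c, c') ∈ G) (hd : (d, d') ∈ G) :
    DV (σ X) (a * b) (c * d) ↔ DV (τ X) (a' * b') (c' * d') := by
  have hz : ∀ {u : P} {v : Q}, (u, v) ∈ G → (u = 0 ↔ v = 0) := fun hu =>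
    h.sys.inj _ hu _ h.sys.zero
  rw [hP.DV_iff, hQ.DV_iff]
  by_cases hcd : c * d = 0
  · have hcd' : c' * d' = 0 := by
      rw [mul_eq_zero, ← hz hc, ← hz hd, ← mul_eq_zero]
      exact hcd
    rw [hcd, hcd', map_zero, map_zero]
    exact iff_of_true zero_le' zero_le'
  · have hcd' : ¬ c' * d' = 0 := by
      rw [mul_eq_zero, ← hz hc, ← hz hd, ← mul_eq_zero]
      exact hcd
    by_cases hab : a * b = 0
    · have hab' : a' * b' = 0 := by
        rw [mul_eq_zero, ← hz ha, ← hz hb, ← mul_eq_zero]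
        exact hab
      rw [hab, hab', map_zero, map_zero, le_zero_iff, le_zero_iff]
      refine iff_of_false ?_ ?_
      · exact (Valuation.ne_zero_iff _).2 hcd
      · exact (Valuation.ne_zero_iff _).2 hcd'
    · rw [mul_eq_zero, not_or] at hab hcd
      obtain ⟨ha0, ha1, ha2⟩ := h.val _ ha hab.1
      obtain ⟨hb0, hb1, hb2⟩ := h.val _ hb hab.2
      obtain ⟨hc0, hc1, hc2⟩ := h.val _ hc hcd.1
      obtain ⟨hd0, hd1, hd2⟩ := h.val _ hd hcd.2
      have h1 := h.iso.le _ (Λ.div_mem (Λ.mul_mem hc2 hd2) (Λ.mul_mem ha2 hb2))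
      simp only [Prod.fst_div, Prod.snd_div, Prod.fst_mul, Prod.snd_mul] at h1
      rw [div_le_one', div_le_one', ← vu_mul, ← vu_mul, ← vu_mul, ← vu_mul, ← Units.val_le_val,
        ← Units.val_le_val] at h1
      exact h1

/-- the extension property for values -/
def ExtV (hP : Mdl p σ) (hQ : Mdl p τ) : Prop :=
  ∀ Λ : Subgroup (hP.VGˣ × hQ.VGˣ), PIso Λ → VIn hP hQ Λ (σ X) (τ X) →
    ∀ C : Set hP.VGˣ, C.Countable → ∃ Λ' : Subgroup (hP.VGˣ × hQ.VGˣ), Λ ≤ Λ' ∧ PIso Λ' ∧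
      ∀ γ ∈ C, ∃ δ, (γ, δ) ∈ Λ'

/-- the extension property for elements -/
def StarP (hP : Mdl p σ) (hQ : Mdl p τ) : Prop :=
  ∀ Λ : Subgroup (hP.VGˣ × hQ.VGˣ), PIso Λ → VIn hP hQ Λ (σ X) (τ X) →
    ∀ x : P, ¬ Alg1 σ x →
    (∀ c : P, Alg1 (ev1 σ x) c → ∀ hc : c ≠ 0, ∃ δ, (hP.vu c hc, δ) ∈ Λ) →
    ∀ B : Set Q, B.Countable → ∃ ι : algField (ev1 σ x) →+* Q, (∀ r h, ι ⟨σ r, h⟩ = τ r) ∧
      (∀ h, ι ⟨x, h⟩ ∉ B) ∧ (∀ h y, Alg1 (ev1 τ (ι ⟨x, h⟩)) y → ∃ u, ι u = y) ∧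
      ∀ c : algField (ev1 σ x), c ≠ 0 → VIn hP hQ Λ c (ι c)

theorem SysV.forth {hP : Mdl p σ} {hQ : Mdl p τ} {G : Set (P × Q)}
    {Λ : Subgroup (hP.VGˣ × hQ.VGˣ)} (h : SysV hP hQ G Λ)
    (hU : ∀ ι ι' : algField σ →+* Q, (∀ r h, ι ⟨σ r, h⟩ = τ r) → (∀ r h, ι' ⟨σ r, h⟩ = τ r) →
      ι = ι') (hE : ExtV hP hQ) (hS : StarP hP hQ) (x : P) :
    ∃ (G' : Set (P × Q)) (Λ' : Subgroup (hP.VGˣ × hQ.VGˣ)), G ⊆ G' ∧ SysV hP hQ G' Λ' ∧
      ∃ y, (x, y) ∈ G' := by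
  by_cases hx : ∃ y, (x, y) ∈ G
  · exact ⟨G, Λ, subset_rfl, h, hx⟩
  have hnx : ¬ Alg1 σ x := by
    intro hx'
    obtain ⟨θ, h1, h2⟩ := h.sys.alg
    exact hx ⟨_, h2 ⟨x, hx'⟩⟩
  have hcnt := acl_countable (p := p) hnx
  let f : {c : algField (ev1 σ x) // (c : P) ≠ 0} → hP.VGˣ := fun c => hP.vu (c.1 : P) c.2
  have hC : (Set.range f).Countable := by
    have : Countable (algField (ev1 σ x)) := hcnt.to_subtype
    exact Set.countable_range f
  obtain ⟨Λ', hle, hiso, hdom⟩ := hE Λ h.iso h.tt (Set.range f) hC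
  obtain ⟨ι, h1, h2, h3, h4⟩ := hS Λ' hiso (h.tt.mono hle) x hnx
    (fun c hc hc0 => hdom _ ⟨⟨⟨c, hc⟩, hc0⟩, rfl⟩) (Prod.snd '' G) (h.sys.cnt.image _)
  refine ⟨_, Λ', Set.subset_union_left, ⟨h.sys.addc hU x hcnt hx ι h1 h2 h3, hiso,
    h.tt.mono hle, ?_⟩, ι ⟨x, x_mem_acl x⟩, Or.inr ⟨⟨x, x_mem_acl x⟩, rfl⟩⟩
  rintro a (ha | ⟨u, rfl⟩) ha0
  · exact (h.val a ha ha0).mono hle
  · exact h4 u (fun h0 => ha0 (by rw [h0]; rfl))

/-- algebraic elements: integrality is preserved -/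
theorem VO_alg {ι : algField σ →+* Q} (hι : ∀ r h, ι ⟨σ r, h⟩ = τ r) {c : algField σ}
    (hc : VO (σ X) (c : P)) : VO (τ X) (ι c) := by
  obtain ⟨y, hy⟩ := hc
  have hyA : Alg1 σ y := by
    refine alg1_trans (N := X ^ 2 + X - C (σ X * (c : P) ^ 2)) ?_ ?_ ?_
    · intro h0
      have h1 := congrArg (fun q => q.coeff 2) h0
      simp only [coeff_sub, coeff_add, coeff_X_pow, coeff_X, coeff_C, coeff_zero] at h1
      norm_num at h1
    · intro i
      have h1 : σ X * (c : P) ^ 2 ∈ algField σ :=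
        (algField σ).mul_mem (alg1_map σ X) ((algField σ).pow_mem c.2 2)
      rw [coeff_sub, coeff_add, coeff_X_pow, coeff_X, coeff_C]
      refine (algField σ).sub_mem ((algField σ).add_mem ?_ ?_) ?_
      · split_ifs
        · exact (algField σ).one_mem
        · exact (algField σ).zero_mem
      · split_ifs
        · exact (algField σ).one_mem
        · exact (algField σ).zero_mem
      · split_ifs
        · exact h1
        · exact (algField σ).zero_mem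
    · rw [eval_sub, eval_add, eval_pow, eval_X, eval_C, hy, sub_self]
  refine ⟨ι ⟨y, hyA⟩, ?_⟩
  have h2 : (⟨y, hyA⟩ : algField σ) ^ 2 + ⟨y, hyA⟩ = ⟨σ X, alg1_map σ X⟩ * c ^ 2 :=
    Subtype.ext hy
  rw [← map_pow, ← map_add, h2, map_mul, map_pow, hι]

theorem fv_alg (hP : Mdl p σ) (hQ : Mdl p τ) {ι : algField σ →+* Q}
    (hι : ∀ r h, ι ⟨σ r, h⟩ = τ r) {c : algField σ} (hc : (c : P) ≠ 0) :
    ∃ m : ℤ, hP.fv (c : P) = hP.fv (σ X) ^ m ∧ hQ.fv (ι c) = hQ.fv (τ X) ^ m := by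
  have htP := hP.t_ne
  have htQ := hQ.t_ne
  have hv : hP.vc (c : P) = 1 :=
    le_antisymm (hP.vc_le_one.2 (hP.alg_mem_OC c.2)) (not_lt.1 (hP.alg_not_inf c.2 hc))
  obtain ⟨m, hm⟩ := hP.fv_of_vc _ hv
  refine ⟨m, hm, ?_⟩
  let T : algField σ := ⟨σ X, alg1_map σ X⟩
  have hT : ι T = τ X := hι X _
  have hvt : hP.fv (σ X) ≠ 0 := (Valuation.ne_zero_iff _).2 htP
  have h1 : hP.fv ((c / T ^ m : algField σ) : P) = 1 := by
    have h2 : ((c / T ^ m : algField σ) : P) = (c : P) / σ X ^ m := by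
      push_cast
      rfl
    rw [h2, map_div₀, map_zpow₀, hm, div_self (zpow_ne_zero _ hvt)]
  have h3 : VO (σ X) ((c / T ^ m : algField σ) : P) := (hP.fv_le_one _).1 h1.le
  have h4 : VO (σ X) (((c / T ^ m)⁻¹ : algField σ) : P) := by
    apply (hP.fv_le_one _).1
    have h2 : (((c / T ^ m)⁻¹ : algField σ) : P) = ((c / T ^ m : algField σ) : P)⁻¹ := rfl
    rw [h2, map_inv₀, h1, inv_one]
  have h5 := VO_alg hι h3
  have h6 := VO_alg hι h4
  rw [map_inv₀] at h6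
  have hc' : c ≠ 0 := fun h => hc (by rw [h]; rfl)
  have h7 : ι (c / T ^ m) ≠ 0 := by
    rw [map_div₀, map_zpow₀, hT]
    exact div_ne_zero ((map_ne_zero ι).2 hc') (zpow_ne_zero _ htQ)
  have h8 := hQ.fv_eq_one h7 h5 h6
  rw [map_div₀, map_zpow₀, hT, map_div₀, map_zpow₀, div_eq_one_iff_eq] at h8
  · exact h8
  · exact zpow_ne_zero _ ((Valuation.ne_zero_iff _).2 htQ)

/-- divisibility of powers of `t` -/
theorem ZG.pow_iff {Γ : Type*} [CommGroup Γ] [LinearOrder Γ] [IsOrderedMonoid Γ] {t : Γ}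
    (ht : ZG t) (n : ℕ) (hn : n ≠ 0) (m : ℤ) : (∃ b, b ^ n = t ^ m) ↔ (n : ℤ) ∣ m := by
  constructor
  · rintro ⟨b, hb⟩
    obtain ⟨q, r, hrn, rfl⟩ : ∃ (q : ℤ) (r : ℕ), r < n ∧ m = n * q + r := by
      have hn' : (0 : ℤ) < n := by exact_mod_cast Nat.pos_of_ne_zero hn
      obtain ⟨r, hr⟩ := Int.eq_ofNat_of_zero_le (Int.emod_nonneg m hn'.ne')
      refine ⟨m / n, r, ?_, ?_⟩
      · have := Int.emod_lt_of_pos m hn'
        omega
      · rw [← hr]
        exact (Int.mul_ediv_add_emod m n).symm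
    rcases Nat.eq_zero_or_pos r with rfl | hr
    · rw [Nat.cast_zero, add_zero]
      exact dvd_mul_right _ _
    exfalso
    have h1 : (b * (t ^ q)⁻¹) ^ n = t ^ r := by
      rw [mul_pow, hb, inv_pow, ← zpow_natCast (t ^ q), ← zpow_mul, mul_comm q, zpow_add,
        zpow_natCast, mul_comm, inv_mul_cancel_left]
    set c := b * (t ^ q)⁻¹ with hc
    have h2 : c < 1 := by
      by_contra h
      rw [not_lt] at h
      have h3 : 1 ≤ c ^ n := one_le_pow_of_one_le' h n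
      rw [h1] at h3
      exact absurd h3 (not_le.2 (pow_lt_one' ht.lt hr.ne'))
    have h3 : c ^ n ≤ t ^ n := pow_le_pow_left' (ht.max c h2) n
    rw [h1] at h3
    obtain ⟨d, rfl⟩ := Nat.exists_eq_add_of_lt hrn
    rw [add_assoc, pow_add] at h3
    have h4 : t ^ (d + 1) < 1 := pow_lt_one' ht.lt (Nat.succ_ne_zero d)
    have h5 : t ^ r * t ^ (d + 1) < t ^ r * 1 := mul_lt_mul_of_le_of_lt le_rfl h4
    rw [mul_one] at h5
    exact absurd h3 (not_le.2 h5)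
  · rintro ⟨k, rfl⟩
    exact ⟨t ^ k, by rw [← zpow_natCast, ← zpow_mul, mul_comm]⟩

theorem zpow_le_one_iff' {Γ : Type*} [CommGroup Γ] [LinearOrder Γ] [IsOrderedMonoid Γ] {t : Γ}
    (ht : t < 1) {m : ℤ} : t ^ m ≤ 1 ↔ 0 ≤ m := by
  constructor
  · intro h
    by_contra hm
    rw [not_le] at hm
    obtain ⟨k, rfl⟩ : ∃ k : ℕ, m = -((k : ℤ) + 1) := ⟨(-m - 1).toNat, by omega⟩
    rw [zpow_neg, inv_le_one'] at h
    have h2 : t ^ ((k : ℤ) + 1) < 1 := by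
      exact_mod_cast pow_lt_one' ht (Nat.succ_ne_zero k)
    exact absurd h (not_le.2 h2)
  · intro h
    obtain ⟨k, rfl⟩ := Int.eq_ofNat_of_zero_le h
    rw [zpow_natCast]
    exact pow_le_one' ht.le k

theorem piso_t {Γ Δ : Type*} [CommGroup Γ] [LinearOrder Γ] [IsOrderedMonoid Γ] [CommGroup Δ]
    [LinearOrder Δ] [IsOrderedMonoid Δ] {t : Γ} {s : Δ} (ht : ZG t) (hs : ZG s) :
    PIso (Subgroup.zpowers (t, s)) := by
  refine ⟨?_, ?_, ?_⟩
  · have h1 : ((Subgroup.zpowers (t, s) : Subgroup (Γ × Δ)) : Set (Γ × Δ)) =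
        Set.range (fun m : ℤ => (t, s) ^ m) := by
      ext a
      exact Subgroup.mem_zpowers_iff
    rw [h1]
    exact Set.countable_range _
  · rintro a ha
    obtain ⟨m, rfl⟩ := Subgroup.mem_zpowers_iff.1 ha
    simp only [Prod.pow_fst, Prod.pow_snd]
    rw [zpow_le_one_iff' ht.lt, zpow_le_one_iff' hs.lt]
  · rintro n hn a ha
    obtain ⟨m, rfl⟩ := Subgroup.mem_zpowers_iff.1 ha
    simp only [Prod.pow_fst, Prod.pow_snd]
    rw [ht.pow_iff n hn, hs.pow_iff n hn]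

theorem SysV.init {hP : MdlV p σ} {hQ : MdlV p τ} {G : Set (P × Q)} (hG : Sys σ τ G) :
    ∃ (G' : Set (P × Q)) (Λ : Subgroup (hP.toMdl.VGˣ × hQ.toMdl.VGˣ)),
      SysV hP.toMdl hQ.toMdl G' Λ := by
  refine ⟨_, Subgroup.zpowers (hP.toMdl.vu (σ X) hP.toMdl.t_ne, hQ.toMdl.vu (τ X) hQ.toMdl.t_ne),
    hG.algPart, piso_t hP.zg hQ.zg, ⟨hP.toMdl.t_ne, hQ.toMdl.t_ne, Subgroup.mem_zpowers _⟩, ?_⟩
  rintro a ⟨ha, haA⟩ ha0
  obtain ⟨θ, h1, h2⟩ := hG.alg
  have h3 := (hG.inj _ ha _ (h2 ⟨a.1, haA⟩)).1 rfl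
  let ι : algField σ →+* Q := (algField τ).subtype.comp θ.toRingHom
  have hι : ∀ r h, ι ⟨σ r, h⟩ = τ r := h1
  have h4 : a.2 = ι ⟨a.1, haA⟩ := h3
  have h5 : a.2 ≠ 0 := by
    rw [h4, Ne, map_eq_zero]
    intro h
    exact ha0 (congrArg Subtype.val h)
  obtain ⟨m, hm1, hm2⟩ := fv_alg hP.toMdl hQ.toMdl hι (c := ⟨a.1, haA⟩) ha0
  refine ⟨ha0, h5, Subgroup.mem_zpowers_iff.2 ⟨m, ?_⟩⟩
  apply Prod.ext
  · rw [Prod.pow_fst]
    apply Units.ext
    rw [Units.val_zpow_eq_zpow_val]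
    exact hm1.symm
  · rw [Prod.pow_snd]
    apply Units.ext
    rw [Units.val_zpow_eq_zpow_val]
    have h6 := hm2.symm
    rw [← h4] at h6
    exact h6

theorem holdsV_iff (hP : Mdl p σ) (hQ : Mdl p τ)
    (hf : ∀ (G : Set (P × Q)) (Λ : Subgroup (hP.VGˣ × hQ.VGˣ)), SysV hP hQ G Λ → ∀ x : P,
      ∃ (G' : Set (P × Q)) (Λ' : Subgroup (hP.VGˣ × hQ.VGˣ)), G ⊆ G' ∧ SysV hP hQ G' Λ' ∧
        ∃ y, (x, y) ∈ G')
    (hb : ∀ (G : Set (P × Q)) (Λ : Subgroup (hP.VGˣ × hQ.VGˣ)), SysV hP hQ G Λ → ∀ y : Q,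
      ∃ (G' : Set (P × Q)) (Λ' : Subgroup (hP.VGˣ × hQ.VGˣ)), G ⊆ G' ∧ SysV hP hQ G' Λ' ∧
        ∃ x, (x, y) ∈ G')
    (φ : VFm) : ∀ (G : Set (P × Q)) (Λ : Subgroup (hP.VGˣ × hQ.VGˣ)), SysV hP hQ G Λ →
      ∀ (e : ℕ → P) (e' : ℕ → Q), (∀ i, (e i, e' i) ∈ G) →
      (φ.Holds (σ X) (DV (σ X)) e ↔ φ.Holds (τ X) (DV (τ X)) e') := by
  haveI : Infinite P := Infinite.of_injective σ hP.σ_injective
  haveI : Infinite Q := Infinite.of_injective τ hQ.σ_injective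
  have hupd : ∀ (G G' : Set (P × Q)) (e : ℕ → P) (e' : ℕ → Q), G ⊆ G' →
      (∀ i, (e i, e' i) ∈ G) → ∀ (i : ℕ) (x : P) (y : Q), (x, y) ∈ G' →
      ∀ k, (Function.update e i x k, Function.update e' i y k) ∈ G' := by
    intro G G' e e' hGG he i x y hxy k
    by_cases hk : k = i
    · subst hk
      simpa using hxy
    · rw [Function.update_of_ne hk, Function.update_of_ne hk]
      exact hGG (he k)
  induction φ with
  | eq i j a b =>
    intro G Λ hG e e' he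
    exact hG.sys.eqa (he i) (he j) a b
  | loc i gs a b =>
    intro G Λ hG e e' he
    exact hG.sys.loc_iff he _ _ i gs a b
  | dvd i j k l =>
    intro G Λ hG e e' he
    exact hG.dvd_iff (he i) (he j) (he k) (he l)
  | not φ h =>
    intro G Λ hG e e' he
    simp only [VFm.Holds]
    rw [h G Λ hG e e' he]
  | and φ ψ h1 h2 =>
    intro G Λ hG e e' he
    simp only [VFm.Holds]
    rw [h1 G Λ hG e e' he, h2 G Λ hG e e' he]
  | or φ ψ h1 h2 =>
    intro G Λ hG e e' he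
    simp only [VFm.Holds]
    rw [h1 G Λ hG e e' he, h2 G Λ hG e e' he]
  | ex i φ h =>
    intro G Λ hG e e' he
    simp only [VFm.Holds]
    constructor
    · rintro ⟨x, hx⟩
      obtain ⟨G', Λ', h1, h2, y, h3⟩ := hf G Λ hG x
      exact ⟨y, (h G' Λ' h2 _ _ (hupd G G' e e' h1 he i x y h3)).1 hx⟩
    · rintro ⟨y, hy⟩
      obtain ⟨G', Λ', h1, h2, x, h3⟩ := hb G Λ hG y
      exact ⟨x, (h G' Λ' h2 _ _ (hupd G G' e e' h1 he i x y h3)).2 hy⟩
  | all i φ h =>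
    intro G Λ hG e e' he
    simp only [VFm.Holds]
    constructor
    · intro hx y
      obtain ⟨G', Λ', h1, h2, x, h3⟩ := hb G Λ hG y
      exact (h G' Λ' h2 _ _ (hupd G G' e e' h1 he i x y h3)).1 (hx x)
    · intro hy x
      obtain ⟨G', Λ', h1, h2, y, h3⟩ := hf G Λ hG x
      exact (h G' Λ' h2 _ _ (hupd G G' e e' h1 he i x y h3)).2 (hy y)

theorem equivV_of {jP : k0 p →+* P} (hjP : JOK σ jP) {jQ : k0 p →+* Q} (hjQ : JOK τ jQ)
    (hP : MdlV p σ) (hQ : MdlV p τ) (e1 : ExtV hP.toMdl hQ.toMdl) (e2 : ExtV hQ.toMdl hP.toMdl)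
    (s1 : StarP hP.toMdl hQ.toMdl) (s2 : StarP hQ.toMdl hP.toMdl) (φ : VFm) :
    φ.Holds (σ X) (DV (σ X)) (fun _ => 0) ↔ φ.Holds (τ X) (DV (τ X)) (fun _ => 0) := by
  obtain ⟨G0, hG0⟩ := hjP.init hjQ
  obtain ⟨G, Λ, hG⟩ := SysV.init (hP := hP) (hQ := hQ) hG0
  refine holdsV_iff hP.toMdl hQ.toMdl ?_ ?_ φ G Λ hG _ _ (fun _ => hG.sys.zero)
  · intro G Λ hG x
    exact hG.forth (hjP.uniq hjQ) e1 s1 x
  · intro G Λ hG y
    obtain ⟨G', Λ', h3, h4, x, h5⟩ := hG.symm.forth (hjQ.uniq hjP) e2 s2 y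
    refine ⟨Prod.swap ⁻¹' G', swapS Λ', ?_, h4.symm, x, h5⟩
    intro a ha
    exact h3 (show Prod.swap (Prod.swap a) ∈ G from ha)

end sysv

/-! ### The equivalence of all models -/

section main

variable {p : ℕ} [hp : Fact p.Prime]

theorem vf_equiv_of
    (hext : ∀ (M N : Type) [Field M] [Field N] (σ : P1 p →+* M) (τ : P1 p →+* N)
      (hM : MdlV p σ) (hN : MdlV p τ)
      (Λ : Subgroup (hM.toMdl.VGˣ × (mdl_up hN.toMdl).VGˣ)), PIso Λ →
      VIn hM.toMdl (mdl_up hN.toMdl) Λ (σ X) (diag N (τ X)) →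
      ∀ C : Set hM.toMdl.VGˣ, C.Countable →
      ∃ Λ' : Subgroup (hM.toMdl.VGˣ × (mdl_up hN.toMdl).VGˣ), Λ ≤ Λ' ∧ PIso Λ' ∧
        ∀ γ ∈ C, ∃ δ, (γ, δ) ∈ Λ')
    (hstar : ∀ (M N : Type) [Field M] [Field N] (σ : P1 p →+* M) (τ : P1 p →+* N)
      (hM : Mdl p σ) (hN : Mdl p τ) (Λ : Subgroup (hM.VGˣ × (mdl_up hN).VGˣ)), PIso Λ →
      VIn hM (mdl_up hN) Λ (σ X) (diag N (τ X)) → ∀ x : M, ¬ Alg1 σ x →
      (∀ c : M, Alg1 (ev1 σ x) c → ∀ hc : c ≠ 0, ∃ δ, (hM.vu c hc, δ) ∈ Λ) →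
      ∀ B : Set (UP N), B.Countable →
      ∃ ι : algField (ev1 σ x) →+* UP N, (∀ r h, ι ⟨σ r, h⟩ = diag N (τ r)) ∧
        (∀ h, ι ⟨x, h⟩ ∉ B) ∧
        (∀ h y, Alg1 (ev1 ((diag N).comp τ) (ι ⟨x, h⟩)) y → ∃ u, ι u = y) ∧
        ∀ c : algField (ev1 σ x), c ≠ 0 → VIn hM (mdl_up hN) Λ c (ι c))
    (hup : ∀ (M : Type) [Field M] (σ : P1 p →+* M), MdlV p σ → MdlV p ((diag M).comp σ))
    (hlos : ∀ (M : Type) [Field M] (t : M) (f : ℕ → ℕ → M) (φ : VFm),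
      φ.Holds (diag M t) (DV (diag M t)) (fun i => cl M (f i)) ↔
        ∀ᶠ l in ((hyperfilter ℕ : Ultrafilter ℕ) : Filter ℕ),
          φ.Holds t (DV t) (fun i => f i l))
    {M N : Type} [Field M] [Field N] {σ : P1 p →+* M} {τ : P1 p →+* N}
    (hM : MdlV p σ) (hN : MdlV p τ) (φ : VFm) :
    φ.Holds (σ X) (DV (σ X)) (fun _ => (0 : M)) ↔
      φ.Holds (τ X) (DV (τ X)) (fun _ => (0 : N)) := by
  have key : ∀ (M : Type) [Field M] (σ : P1 p →+* M),
      φ.Holds (σ X) (DV (σ X)) (fun _ => (0 : M)) ↔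
        φ.Holds (((diag M).comp σ) X) (DV (((diag M).comp σ) X)) (fun _ => (0 : UP M)) := by
    intro M _ σ
    have := hlos M (σ X) (fun _ _ => (0 : M)) φ
    rw [eventually_const] at this
    have e : (fun _ : ℕ => cl M (fun _ => (0 : M))) = fun _ => 0 := by
      funext i
      exact map_zero (cl M)
    rw [e] at this
    exact this.symm
  rw [key M σ, key N τ]
  have jok : ∀ (M : Type) [Field M] (σ : P1 p →+* M), Mdl p σ → ∃ j : k0 p →+* M, JOK σ j := by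
    intro M _ σ hM
    obtain ⟨j, h1, h2, h3, -⟩ := hM.exists_j
    exact ⟨j, h1, h2, h3⟩
  have hP := hup M σ hM
  have hQ := hup N τ hN
  obtain ⟨jP, hjP⟩ := jok _ _ hP.toMdl
  obtain ⟨jQ, hjQ⟩ := jok _ _ hQ.toMdl
  refine equivV_of hjP hjQ hP hQ ?_ ?_ ?_ ?_ φ
  · exact fun Λ h1 h2 C hC => hext _ _ _ _ hP hN Λ h1 h2 C hC
  · exact fun Λ h1 h2 C hC => hext _ _ _ _ hQ hM Λ h1 h2 C hC
  · exact fun Λ h1 h2 x hx hd B hB => hstar _ _ _ _ hP.toMdl hN.toMdl Λ h1 h2 x hx hd B hB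
  · exact fun Λ h1 h2 x hx hd B hB => hstar _ _ _ _ hQ.toMdl hM.toMdl Λ h1 h2 x hx hd B hB

end main

end BF80
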