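import Pool.Agent.BF80.Defs
import Pool.Agent.FT80.InO
import Pool.Agent.FT80.Hensel
import Mathlib

/-!
# `F_p((t))` and the algebraic elements of `F_p((t))` are models
-/

set_option maxSynthPendingDepth 10

open Polynomial

namespace BF80

open FT80

variable {p : ℕ} [Fact p.Prime]

/-- roots in `F_p((t))` of polynomials over `k0` are in `k0` -/
theorem root_mem_k0 (q : Polynomial (k0 p)) (hq : q ≠ 0) (y : KK p)
    (h : q.eval₂ (k0 p).subtype y = 0) : y ∈ k0 p := by
  let _ : Algebra (P1 p) (KK p) := (tauK p).toAlgebra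
  let _ : Algebra (P1 p) (k0 p) := (sig0 p).toAlgebra
  have : IsScalarTower (P1 p) (k0 p) (KK p) := IsScalarTower.of_algebraMap_eq (fun f => rfl)
  have h2 : Algebra.IsAlgebraic (P1 p) (k0 p) := by
    refine ⟨fun z => ?_⟩
    have hz : IsAlgebraic (P1 p) (algebraMap (k0 p) (KK p) z) := z.2
    exact (isAlgebraic_algebraMap_iff (algebraMap (k0 p) (KK p)).injective).1 hz
  have h3 : IsAlgebraic (k0 p) y := ⟨q, hq, h⟩
  exact IsAlgebraic.restrictScalars (P1 p) h3

theorem tauK_X : tauK p X = TT p 1 := by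
  have h := TT_nat (p := p) 1
  rw [pow_one] at h
  push_cast at h
  rw [h, tauK, RingHom.comp_apply]
  simp [tau]

theorem not_inO_of_unit {n : ℤ} {u : OO p} (hu : IsUnit u) (hn : n < 0) :
    ¬ InO (TT p n * iK p u) := by
  intro h
  obtain ⟨v, hv⟩ := hu.exists_right_inv
  apply not_inO_TT (p := p) hn
  have h1 : TT p n = TT p n * iK p u * iK p v := by
    rw [mul_assoc, ← map_mul, hv, map_one, mul_one]
  rw [h1]
  exact h.mul (InO.iK v)

theorem form_unique {m n : ℤ} {u v : OO p} (hu : IsUnit u) (hv : IsUnit v)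
    (h : TT p m * iK p u = TT p n * iK p v) : m = n := by
  have key : ∀ (m n : ℤ) (u v : OO p), IsUnit u → TT p m * iK p u = TT p n * iK p v → ¬ m < n := by
    intro m n u v hu h hmn
    apply not_inO_of_unit hu (show m - n < 0 by omega)
    have h1 : TT p (m - n) * iK p u = iK p v := by
      have h2 : TT p (m - n) = TT p (-n) * TT p m := by
        rw [← TT_add]
        congr 1
        ring
      rw [h2, mul_assoc, h, ← mul_assoc, TT_neg_mul, one_mul]
    rw [h1]
    exact InO.iK v
  have h1 := key m n u v hu h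
  have h2 := key n m v u hv h.symm
  omega

theorem quad_coeff_two {R : Type*} [CommRing R] (c : R) :
    (X ^ 2 + X - C c : Polynomial R).coeff 2 = 1 := by
  simp [coeff_X]

theorem exists_quad (c : OO p) (hc : PowerSeries.X ∣ c) : ∃ z : OO p, z ^ 2 + z = c := by
  obtain ⟨z, -, hz2⟩ := hensel_ps (X ^ 2 + X - C c : Polynomial (OO p))
      (by simpa using hc) (by simp)
  refine ⟨z, ?_⟩
  simp only [eval_sub, eval_add, eval_pow, eval_X, eval_C] at hz2
  exact sub_eq_zero.1 hz2

theorem VO_KK (x : KK p) : VO (tauK p X) x ↔ InO x := by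
  rw [tauK_X]
  constructor
  · rintro ⟨y, hy⟩
    by_contra hx
    have hx0 : x ≠ 0 := by
      rintro rfl
      exact hx InO.zero
    obtain ⟨n, a, ha, rfl⟩ := exists_form hx0
    have hn : n < 0 := by
      by_contra h
      exact hx ((InO.TT (by omega)).mul (InO.iK a))
    have h1 : TT p 1 * (TT p n * iK p a) ^ 2 = TT p (1 + 2 * n) * iK p (a ^ 2) := by
      rw [TT_add, map_pow, mul_pow]
      have : TT p (2 * n) = TT p n ^ 2 := by
        rw [two_mul, TT_add, pow_two]
      rw [this]
      ring
    rw [h1] at hy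
    by_cases hyO : InO y
    · apply not_inO_of_unit (ha.pow 2) (show 1 + 2 * n < 0 by omega)
      rw [← hy]
      exact (hyO.pow 2).add hyO
    · have hy0 : y ≠ 0 := by
        rintro rfl
        exact hyO InO.zero
      obtain ⟨m, b, hb, rfl⟩ := exists_form hy0
      have hm : m < 0 := by
        by_contra h
        exact hyO ((InO.TT (by omega)).mul (InO.iK b))
      obtain ⟨k, hk⟩ : ∃ k : ℕ, m = -((k : ℤ) + 1) := ⟨(-m - 1).toNat, by omega⟩
      have h2 : (TT p m * iK p b) ^ 2 + TT p m * iK p b =
          TT p (2 * m) * iK p (b ^ 2 + PowerSeries.X ^ (k + 1) * b) := by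
        have e1 : TT p (2 * m) = TT p m * TT p m := by
          rw [two_mul, TT_add]
        have e2 : iK p (PowerSeries.X ^ (k + 1)) = TT p (-m) := by
          rw [← TT_nat, hk]
          congr 1
        have e3 : TT p m * TT p (-m) = 1 := by
          rw [mul_comm, TT_neg_mul]
        rw [e1, map_add, map_mul, e2, map_pow, mul_add]
        have e4 : TT p m * TT p m * (TT p (-m) * iK p b) =
            (TT p m * TT p (-m)) * (TT p m * iK p b) := by ring
        rw [e4, e3, one_mul]
        ring
      rw [h2] at hy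
      have hu : IsUnit (b ^ 2 + PowerSeries.X ^ (k + 1) * b) := by
        apply ps_isUnit_of_not_dvd
        intro h
        have h3 : PowerSeries.X ∣ b ^ 2 := by
          have h4 : PowerSeries.X ∣ PowerSeries.X ^ (k + 1) * b :=
            Dvd.dvd.mul_right (dvd_pow_self _ (by omega)) _
          have h5 := dvd_sub h h4
          rwa [add_sub_cancel_right] at h5
        exact ps_not_dvd_of_isUnit (hb.pow 2) h3
      have h3 := form_unique hu (ha.pow 2) hy
      omega
  · rintro ⟨a, rfl⟩
    obtain ⟨z, hz⟩ := exists_quad (PowerSeries.X * a ^ 2) (dvd_mul_right _ _)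
    refine ⟨iK p z, ?_⟩
    have h1 := congrArg (iK p) hz
    rw [map_add, map_pow, map_mul, map_pow] at h1
    rw [h1]
    have h2 := TT_nat (p := p) 1
    rw [pow_one] at h2
    push_cast at h2
    rw [h2]

theorem VO_k0 (x : k0 p) : VO (sig0 p X) x ↔ InO (x : KK p) := by
  rw [← VO_KK]
  constructor
  · rintro ⟨y, hy⟩
    refine ⟨y, ?_⟩
    exact congrArg (k0 p).subtype hy
  · rintro ⟨y, hy⟩
    have h1 : y ∈ k0 p := by
      refine root_mem_k0 (X ^ 2 + X - C (sig0 p X * x ^ 2)) ?_ y ?_
      · intro h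
        have h2 := quad_coeff_two (sig0 p X * x ^ 2)
        rw [h, coeff_zero] at h2
        exact zero_ne_one h2
      · simp only [eval₂_sub, eval₂_add, eval₂_pow, eval₂_X, eval₂_C]
        rw [hy, sub_eq_zero]
        rfl
    refine ⟨⟨y, h1⟩, ?_⟩
    apply Subtype.ext
    exact hy

theorem inO_TT_one_inv : ¬ InO (TT p 1)⁻¹ := by
  rw [TT_inv]
  exact not_inO_TT (by norm_num)

theorem exists_lift (f : Polynomial (KK p)) (hf : ∀ i, InO (f.coeff i)) :
    ∃ F : Polynomial (OO p), F.map (iK p) = f := by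
  choose a ha using hf
  refine ⟨∑ i ∈ Finset.range (f.natDegree + 1), C (a i) * X ^ i, ?_⟩
  rw [Polynomial.map_sum]
  conv_rhs => rw [f.as_sum_range_C_mul_X_pow]
  refine Finset.sum_congr rfl fun i _ => ?_
  simp [ha]

theorem zmod_natCast_val (c : ZMod p) : ((c.val : ℕ) : ZMod p) = c := by
  have : NeZero p := ⟨(Fact.out (p := p.Prime)).ne_zero⟩
  exact ZMod.natCast_zmod_val c

theorem iK_natCast (n : ℕ) : iK p (PowerSeries.C (n : ZMod p)) = (n : KK p) := by
  rw [map_natCast, map_natCast]

theorem mdl_KK : Mdl p (tauK p) := by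
  have hp : p.Prime := Fact.out
  have : NeZero p := ⟨hp.ne_zero⟩
  have hX : iK p PowerSeries.X = TT p 1 := by
    have h2 := TT_nat (p := p) 1
    rw [pow_one] at h2
    push_cast at h2
    exact h2.symm
  have hinv : TT p (-1) * TT p 1 = 1 := TT_neg_mul 1
  refine ⟨?_, ?_, ?_, ?_, ?_, ?_, ?_, ?_⟩
  all_goals try simp only [VO_KK]
  · exact InO.one
  · exact fun x y hx hy => hx.add hy
  · exact fun x y hx hy => hx.mul hy
  · intro x
    by_cases h : InO x
    · exact Or.inl h
    · exact Or.inr (inO_or_inv x h)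
  · rw [tauK_X]
    exact inO_TT_one_inv
  · rintro x ⟨a, rfl⟩
    refine ⟨(PowerSeries.constantCoeff a).val, ZMod.val_lt _, ?_⟩
    have h1 : PowerSeries.X ∣ a - PowerSeries.C (PowerSeries.constantCoeff a) := by
      rw [PowerSeries.X_dvd_iff]
      simp
    obtain ⟨b, hb⟩ := h1
    refine ⟨b, ?_⟩
    rw [tauK_X, eq_div_iff (TT_ne_zero 1), ← hX, ← map_mul, mul_comm b, ← hb, map_sub]
    congr 1
    rw [← iK_natCast, zmod_natCast_val]
  · intro f hf h0 h1 h2
    obtain ⟨F, rfl⟩ := exists_lift f hf
    simp only [coeff_map] at h0 h1 h2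
    obtain ⟨b, hb⟩ := h0
    rw [tauK_X, eq_div_iff (TT_ne_zero 1), ← hX, ← map_mul] at hb
    have hb' := iK_injective hb
    obtain ⟨c, hc⟩ := h2
    have hu : IsUnit (F.coeff 1) := by
      refine IsUnit.of_mul_eq_one c ?_
      apply iK_injective
      rw [map_mul, hc, map_one, mul_inv_cancel₀ h1]
    obtain ⟨z, ⟨y, rfl⟩, hz⟩ := hensel_ps F (by
      rw [← coeff_zero_eq_eval_zero, ← hb']
      exact dvd_mul_left _ _) (by
      rw [← coeff_zero_eq_eval_zero, coeff_derivative]
      simpa using hu)
    refine ⟨iK p y, InO.iK y, ?_⟩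
    rw [tauK_X, ← hX, ← map_mul, eval_map, eval₂_at_apply, hz, map_zero]
  · intro n hn x hx
    obtain ⟨m, a, ha, rfl⟩ := exists_form hx
    have hn0 : n ≠ 0 := by
      rintro rfl
      exact hn (dvd_zero _)
    have hc : PowerSeries.constantCoeff a ≠ 0 :=
      (PowerSeries.isUnit_iff_constantCoeff.1 ha).ne_zero
    have hnp : (n : ZMod p) ≠ 0 := by
      rw [Ne, ZMod.natCast_eq_zero_iff]
      exact hn
    obtain ⟨B, hB1, hB⟩ := exists_root_pow n hnp
      (PowerSeries.C (PowerSeries.constantCoeff a)⁻¹ * a) (by simp [hc])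
    have haB : a = PowerSeries.C (PowerSeries.constantCoeff a) * B ^ n := by
      rw [hB, ← mul_assoc, ← map_mul, mul_inv_cancel₀ hc, map_one, one_mul]
    have hnz : (n : ℤ) ≠ 0 := by exact_mod_cast hn0
    have hj0 : 0 ≤ m % n := Int.emod_nonneg _ hnz
    have hj1 : m % n < n := Int.emod_lt_of_pos _ (by omega)
    refine ⟨(PowerSeries.constantCoeff a).val, ZMod.val_lt _, (m % n).toNat, by omega,
      TT p (m / n) * iK p B, ?_, ?_⟩
    · by_contra h
      have h1 : (PowerSeries.constantCoeff a).val = 0 := by omega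
      exact hc ((ZMod.val_eq_zero _).1 h1)
    · have e1 : TT p m = TT p (m % n) * TT p (m / n) ^ n := by
        have e2 : ∀ k : ℕ, TT p (m / n) ^ k = TT p (k * (m / n)) := by
          intro k
          induction k with
          | zero => simp [TT_zero]
          | succ k ih =>
            rw [pow_succ, ih, ← TT_add]
            congr 1
            push_cast
            ring
        rw [e2, ← TT_add]
        congr 1
        exact (Int.emod_add_mul_ediv m n).symm
      have e3 : TT p (m % n) = TT p 1 ^ (m % n).toNat := by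
        have e4 : ((m % n).toNat : ℤ) = m % n := Int.toNat_of_nonneg hj0
        conv_lhs => rw [← e4]
        rw [TT_nat, map_pow, hX]
      rw [e1, e3, tauK_X, mul_pow, ← map_pow]
      conv_lhs => rw [haB, map_mul]
      rw [← iK_natCast, zmod_natCast_val]
      ring

theorem mdl_k0 : Mdl p (sig0 p) := by
  have hK : Mdl p (tauK p) := mdl_KK
  have hV : ∀ x : k0 p, VO (sig0 p X) x ↔ VO (tauK p X) (x : KK p) := fun x =>
    (VO_k0 x).trans (VO_KK _).symm
  have ht : ((sig0 p X : k0 p) : KK p) = tauK p X := rfl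
  have ht0 : tauK p X ≠ 0 := by
    rw [tauK_X]
    exact TT_ne_zero 1
  have ht0' : sig0 p X ≠ 0 := by
    intro h
    apply ht0
    rw [← ht, h]
    rfl
  refine ⟨?_, ?_, ?_, ?_, ?_, ?_, ?_, ?_⟩
  all_goals try simp only [hV]
  · exact hK.one
  · exact fun x y hx hy => hK.add _ _ hx hy
  · exact fun x y hx hy => hK.mul _ _ hx hy
  · intro x
    have h := hK.inv (x : KK p)
    simpa using h
  · have h := hK.tinv
    simpa [ht] using h
  · intro x hx
    obtain ⟨a, ha, h⟩ := hK.res _ hx
    refine ⟨a, ha, ?_⟩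
    have h1 : (((x - (a : ℕ)) / sig0 p X : k0 p) : KK p) = ((x : KK p) - (a : ℕ)) / tauK p X := by
      push_cast
      rw [ht]
    rw [h1]
    exact h
  · intro f hf h0 h1 h2
    have hm0 : f.coeff 1 ≠ 0 := h1
    obtain ⟨y, hy, hz⟩ := hK.hensel (f.map (k0 p).subtype) (fun i => by
        rw [coeff_map]
        exact hf i) (by
        rw [coeff_map]
        have h3 : ((f.coeff 0 / sig0 p X : k0 p) : KK p) =
            (k0 p).subtype (f.coeff 0) / tauK p X := by
          push_cast
          rw [ht]
          rfl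
        rw [← h3]
        exact h0) (by
        rw [coeff_map]
        intro h
        exact hm0 ((k0 p).subtype.injective (h.trans (map_zero _).symm))) (by
        rw [coeff_map]
        have h3 : (((f.coeff 1)⁻¹ : k0 p) : KK p) = ((k0 p).subtype (f.coeff 1))⁻¹ := by
          push_cast
          rfl
        rw [← h3]
        exact h2)
    have hfne : f ≠ 0 := by
      rintro rfl
      exact hm0 (coeff_zero _)
    have h3 : tauK p X * y ∈ k0 p := by
      refine root_mem_k0 f hfne _ ?_
      rw [← eval_map]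
      exact hz
    have h4 : y ∈ k0 p := by
      have h5 : y = tauK p X * y / tauK p X := by
        rw [mul_div_cancel_left₀ _ ht0]
      rw [h5]
      exact (k0 p).div_mem h3 (ht ▸ (sig0 p X).2)
    refine ⟨⟨y, h4⟩, hy, ?_⟩
    apply (k0 p).subtype.injective
    rw [← eval₂_at_apply, map_zero, ← eval_map]
    exact hz
  · intro n hn x hx
    have hn0 : n ≠ 0 := by
      rintro rfl
      exact hn (dvd_zero _)
    have hx' : (x : KK p) ≠ 0 := by
      intro h
      exact hx (Subtype.ext h)
    obtain ⟨γ, hγ, j, hj, y, hγ1, hy⟩ := hK.pow n hn _ hx'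
    have h1 : y ∈ k0 p := by
      have hc : ((γ : ℕ) * sig0 p X ^ j : k0 p) ≠ 0 := by
        intro h
        apply hx'
        have h2 := congrArg (k0 p).subtype h
        have h3 : ((γ : ℕ) : KK p) * tauK p X ^ j = 0 := by
          simpa [ht] using h2
        rw [hy, h3, zero_mul]
      refine root_mem_k0 (C ((γ : ℕ) * sig0 p X ^ j : k0 p) * X ^ n - C x) ?_ y ?_
      · intro h
        have h2 := congrArg (fun q => Polynomial.coeff q n) h
        simp only [coeff_sub, coeff_C_mul, coeff_X_pow, if_true, mul_one, coeff_C, hn0, if_false,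
          sub_zero, coeff_zero] at h2
        exact hc h2
      · simp only [eval₂_sub, eval₂_mul, eval₂_pow, eval₂_X, eval₂_C]
        rw [sub_eq_zero]
        have h2 : (k0 p).subtype ((γ : ℕ) * sig0 p X ^ j : k0 p) = (γ : ℕ) * tauK p X ^ j := by
          simp only [map_mul, map_natCast, map_pow]
          rfl
        rw [h2]
        exact hy.symm
    refine ⟨γ, hγ, j, hj, ⟨y, h1⟩, hγ1, ?_⟩
    apply Subtype.ext
    push_cast
    exact hy

end BF80
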