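import Pool.Agent.BF80.Defs3
import Pool.Agent.BF80.MdlK

/-!
# Ultrapowers for the fragment with divisibility, and the model `F_p((t))`
-/

set_option autoImplicit false
set_option maxSynthPendingDepth 10

open Polynomial Filter

namespace BF80

open FT80

namespace UpV

theorem val_map {R S : Type*} [CommRing R] [CommRing S] (φ : R →+* S) (t : R) (e : ℕ → R)
    (a : MT) : a.val (φ t) (fun k => φ (e k)) = φ (a.val t e) := by
  induction a with
  | zero => exact (map_zero φ).symm
  | one => exact (map_one φ).symm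
  | tt => rfl
  | var k => rfl
  | add a b ha hb => simp only [MT.val, ha, hb, map_add]
  | sub a b ha hb => simp only [MT.val, ha, hb, map_sub]
  | mul a b ha hb => simp only [MT.val, ha, hb, map_mul]

theorem lenv_map {R S : Type*} [CommRing R] [CommRing S] (φ : R →+* S) (l : List R) :
    lenv (l.map φ) = fun k => φ (lenv l k) := by
  funext k
  unfold lenv
  rw [← map_zero φ, List.getD_map]

section up

variable {M : Type} [Field M]

theorem val_cl_lenv (t : M) (l : List (ℕ → M)) (a : MT) :
    a.val (diag M t) (lenv (l.map (cl M))) =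
      cl M (fun m => a.val t (lenv (l.map fun f => f m))) := by
  have h1 : diag M t = cl M (fun _ => t) := rfl
  rw [lenv_map, h1, val_map]
  congr 1
  funext m
  have h2 := val_map (Pi.evalRingHom (fun _ : ℕ => M) m) (fun _ => t) (lenv l) a
  have h3 := lenv_map (Pi.evalRingHom (fun _ : ℕ => M) m) l
  rw [← h3] at h2
  exact h2.symm

theorem val_cl2 (t : M) (f g : ℕ → M) (a : MT) :
    a.val (diag M t) (lenv [cl M f, cl M g]) = cl M (fun m => a.val t (lenv [f m, g m])) :=
  val_cl_lenv t [f, g] a

theorem val_clL {ι : Type} (t : M) (f : ℕ → M) (gs : List ι) (h : ι → ℕ → M) (a : MT) :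
    a.val (diag M t) (lenv (cl M f :: gs.map fun g => cl M (h g))) =
      cl M (fun m => a.val t (lenv (f m :: gs.map fun g => h g m))) := by
  have h1 := val_cl_lenv t (f :: gs.map h) a
  rw [List.map_cons, List.map_map] at h1
  simp only [List.map_cons, List.map_map] at h1
  exact h1

theorem ev_list {ι : Type} (gs : List ι) (P : ι → ℕ → Prop) :
    (∀ g ∈ gs, ∀ᶠ l in ((hyperfilter ℕ : Ultrafilter ℕ) : Filter ℕ), P g l) ↔
      ∀ᶠ l in ((hyperfilter ℕ : Ultrafilter ℕ) : Filter ℕ), ∀ g ∈ gs, P g l := by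
  induction gs with
  | nil => simp
  | cons g gs ih =>
    simp only [List.forall_mem_cons]
    rw [eventually_and, ih]

theorem ex_ne (t : M) (f : ℕ → M) (a : MT) :
    (∃ y : UP M, a.val (diag M t) (lenv [cl M f, y]) ≠ 0) ↔
      ∀ᶠ l in ((hyperfilter ℕ : Ultrafilter ℕ) : Filter ℕ), ∃ y : M,
        a.val t (lenv [f l, y]) ≠ 0 := by
  constructor
  · rintro ⟨y, hy⟩
    obtain ⟨g, rfl⟩ := cl_surj y
    rw [val_cl2, cl_ne_zero_iff] at hy
    exact hy.mono fun l hl => ⟨g l, hl⟩
  · intro h
    obtain ⟨g, hg⟩ := h.choice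
    refine ⟨cl M g, ?_⟩
    rw [val_cl2, cl_ne_zero_iff]
    exact hg

end up

end UpV

theorem DV_cl {M : Type} [Field M] (t : M) (f g : ℕ → M) :
    DV (diag M t) (cl M f) (cl M g) ↔
      ∀ᶠ l in ((hyperfilter ℕ : Ultrafilter ℕ) : Filter ℕ), DV t (f l) (g l) := by
  constructor
  · rintro ⟨c, hc, hcb⟩
    obtain ⟨c, rfl⟩ := cl_surj c
    have h1 := (VO_cl t c).1 hc
    rw [← map_mul, cl_eq] at hcb
    filter_upwards [h1, hcb] with l hl1 hl2
    exact ⟨c l, hl1, hl2⟩
  · intro h
    obtain ⟨c, hc⟩ := h.choice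
    refine ⟨cl M c, (VO_cl t c).2 (hc.mono fun l hl => hl.1), ?_⟩
    rw [← map_mul, cl_eq]
    exact hc.mono fun l hl => hl.2

open UpV in
theorem losV {M : Type} [Field M] (t : M) (f : ℕ → ℕ → M) (φ : VFm) :
    φ.Holds (diag M t) (DV (diag M t)) (fun i => cl M (f i)) ↔
      ∀ᶠ l in ((hyperfilter ℕ : Ultrafilter ℕ) : Filter ℕ),
        φ.Holds t (DV t) (fun i => f i l) := by
  induction φ generalizing f with
  | eq i j a b =>
    simp only [VFm.Holds]
    rw [val_cl2, val_cl2, cl_eq]
  | loc i gs a b =>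
    simp only [VFm.Holds]
    rw [val_clL t (f i) gs (fun g => f g.1) a, val_clL t (f i) gs (fun g => f g.1) b, cl_eq,
      eventually_and, ← ev_list]
    refine and_congr (forall₂_congr fun g hg => ?_) Iff.rfl
    rw [val_cl2, cl_zero_iff, ex_ne, eventually_and]
  | dvd i j k l =>
    simp only [VFm.Holds]
    rw [← map_mul, ← map_mul, DV_cl]
    rfl
  | not φ h =>
    simp only [VFm.Holds]
    rw [h]
    exact Ultrafilter.eventually_not.symm
  | and φ ψ h1 h2 =>
    simp only [VFm.Holds]
    rw [h1, h2, eventually_and]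
  | or φ ψ h1 h2 =>
    simp only [VFm.Holds]
    rw [h1, h2]
    exact Ultrafilter.eventually_or.symm
  | ex i φ h =>
    simp only [VFm.Holds]
    have key : ∀ g : ℕ → M, (Function.update (fun i => cl M (f i)) i (cl M g))
        = fun k => cl M (Function.update f i g k) := by
      intro g
      funext k
      by_cases hk : k = i
      · subst hk
        simp
      · simp [Function.update_of_ne hk]
    have key2 : ∀ (g : ℕ → M) (l : ℕ), (fun k => Function.update f i g k l)
        = Function.update (fun k => f k l) i (g l) := by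
      intro g l
      funext k
      by_cases hk : k = i
      · subst hk
        simp
      · simp [Function.update_of_ne hk]
    constructor
    · rintro ⟨a, ha⟩
      obtain ⟨g, rfl⟩ := cl_surj a
      rw [key, h] at ha
      refine ha.mono fun l hl => ⟨g l, ?_⟩
      rw [key2] at hl
      exact hl
    · intro hex
      obtain ⟨g, hg⟩ := hex.choice
      refine ⟨cl M g, ?_⟩
      rw [key, h]
      refine hg.mono fun l hl => ?_
      rw [key2]
      exact hl
  | all i φ h =>
    simp only [VFm.Holds]
    have key : ∀ g : ℕ → M, (Function.update (fun i => cl M (f i)) i (cl M g))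
        = fun k => cl M (Function.update f i g k) := by
      intro g
      funext k
      by_cases hk : k = i
      · subst hk
        simp
      · simp [Function.update_of_ne hk]
    have key2 : ∀ (g : ℕ → M) (l : ℕ), (fun k => Function.update f i g k l)
        = Function.update (fun k => f k l) i (g l) := by
      intro g l
      funext k
      by_cases hk : k = i
      · subst hk
        simp
      · simp [Function.update_of_ne hk]
    constructor
    · intro hall
      by_contra hc
      rw [← Ultrafilter.eventually_not] at hc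
      have hc' : ∀ᶠ l in ((hyperfilter ℕ : Ultrafilter ℕ) : Filter ℕ),
          ∃ a, ¬ φ.Holds t (DV t) (Function.update (fun k => f k l) i a) :=
        hc.mono fun l hl => not_forall.1 hl
      obtain ⟨g, hg⟩ := hc'.choice
      have := hall (cl M g)
      rw [key, h] at this
      obtain ⟨l, hl1, hl2⟩ := (this.and hg).exists
      rw [key2] at hl1
      exact hl2 hl1
    · intro hall a
      obtain ⟨g, rfl⟩ := cl_surj a
      rw [key, h]
      refine hall.mono fun l hl => ?_
      rw [key2]
      exact hl (g l)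

theorem mdlV_up {p : ℕ} {M : Type} [Field M] {σ : P1 p →+* M} (hM : MdlV p σ) :
    MdlV p ((diag M).comp σ) := by
  refine ⟨mdl_up hM.toMdl, ?_⟩
  intro x hx
  have htt : ((diag M).comp σ) X = cl M (fun _ => σ X) := rfl
  have hd : ((diag M).comp σ) X = diag M (σ X) := rfl
  obtain ⟨f, rfl⟩ := cl_surj x
  rw [cl_ne_zero_iff] at hx
  have h1 : ∀ᶠ l in ((hyperfilter ℕ : Ultrafilter ℕ) : Filter ℕ), ∃ j < p, ∃ y : M, y ≠ 0 ∧
      VO (σ X) (f l / (σ X ^ j * y ^ p)) ∧ VO (σ X) ((σ X ^ j * y ^ p) / f l) :=
    hx.mono fun l hl => hM.vpow (f l) hl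
  obtain ⟨j, hj, h2⟩ := ev_ex_lt h1
  obtain ⟨y, hy⟩ := h2.choice
  refine ⟨j, hj, cl M y, ?_, ?_, ?_⟩
  · rw [cl_ne_zero_iff]
    exact hy.mono fun l hl => hl.1
  · rw [htt, ← map_pow, ← map_pow, ← map_mul, cl_div]
    exact (VO_cl (σ X) _).2 (hy.mono fun l hl => hl.2.1)
  · rw [htt, ← map_pow, ← map_pow, ← map_mul, cl_div]
    exact (VO_cl (σ X) _).2 (hy.mono fun l hl => hl.2.2)

theorem mdlV_KK {p : ℕ} [Fact p.Prime] : MdlV p (tauK p) := by
  refine ⟨mdl_KK, ?_⟩
  intro x hx
  obtain ⟨n, a, ha, rfl⟩ := exists_form hx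
  have hp : 0 < p := (Fact.out : p.Prime).pos
  have hp0 : (p : ℤ) ≠ 0 := by exact_mod_cast hp.ne'
  have h0 : 0 ≤ n % p := Int.emod_nonneg n hp0
  have h1 : n % p < p := Int.emod_lt_of_pos n (by exact_mod_cast hp)
  obtain ⟨j, hj⟩ : ∃ j : ℕ, n % p = j := ⟨(n % p).toNat, by omega⟩
  obtain ⟨b, hb⟩ := ha.exists_right_inv
  have hTT : ∀ (m : ℤ) (k : ℕ), TT p m ^ k = TT p (m * k) := by
    intro m k
    induction k with
    | zero =>
      have : TT p 0 = 1 := by
        have := TT_nat (p := p) 0
        simpa using this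
      simp [this]
    | succ k ih =>
      rw [pow_succ, ih, ← TT_add]
      congr 1
      push_cast
      ring
  have hne : TT p (n / p) ≠ 0 := by
    intro h
    have := TT_neg_mul (p := p) (n / p)
    rw [h, mul_zero] at this
    exact zero_ne_one this
  have hT : tauK p X ^ j * TT p (n / p) ^ p = TT p n := by
    rw [tauK_X, hTT, hTT, ← TT_add]
    congr 1
    have := Int.emod_add_mul_ediv n p
    rw [hj] at this
    linarith
  have hnn : TT p n ≠ 0 := by
    intro h
    have := TT_neg_mul (p := p) n
    rw [h, mul_zero] at this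
    exact zero_ne_one this
  have hin : iK p a * iK p b = 1 := by rw [← map_mul, hb, map_one]
  refine ⟨j, by omega, TT p (n / p), hne, ?_, ?_⟩
  · rw [hT, mul_div_cancel_left₀ _ hnn, VO_KK]
    exact InO.iK a
  · rw [hT, VO_KK]
    have e : TT p n / (TT p n * iK p a) = iK p b := by
      have ha0 : iK p a ≠ 0 := left_ne_zero_of_mul_eq_one hin
      rw [div_eq_iff (mul_ne_zero hnn ha0)]
      linear_combination (-(TT p n)) * hin
    rw [e]
    exact InO.iK b

end BF80
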