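import Pool.Agent.BF80.Henkin
import Pool.Agent.BF80.Axioms
import Pool.Agent.FT80.Theta
import Mathlib

/-!
# The theory of the binary fragment is decidable: assembly
-/

set_option maxSynthPendingDepth 10

open Polynomial

namespace BF80

open FT80

namespace Asm

/-! ### Closing a formula: all free variables are zero -/

section close

/-- `x_0 = ... = x_(N-1) = 0` is substituted -/
def close (φ : FR) : ℕ → FR
  | 0 => φ
  | N + 1 => .ex N (.and (.zero N) (close φ N))

theorem sat_close {R : Type} [CommRing R] (t : R) (φ : FR) (N : ℕ) : ∀ e : ℕ → R,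
    Sat (ringRS t) e (close φ N) ↔ Sat (ringRS t) (fun i => if i < N then 0 else e i) φ := by
  induction N with
  | zero =>
    intro e
    simp [close]
  | succ N ih =>
    intro e
    simp only [close, Sat, ih]
    simp only [ringRS, Function.update_self]
    have h : (fun i => if i < N then (0 : R) else Function.update e N 0 i) =
        fun i => if i < N + 1 then 0 else e i := by
      funext i
      by_cases h1 : i < N
      · simp [h1, Nat.lt_succ_of_lt h1]
      · by_cases h2 : i = N
        · subst h2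
          simp
        · have h3 : ¬ i < N + 1 := by omega
          simp [h1, h3, h2]
    constructor
    · rintro ⟨a, rfl, h1⟩
      rw [← h]
      exact h1
    · intro h1
      refine ⟨0, rfl, ?_⟩
      rw [h]
      exact h1

theorem sat_dep_code {α : Type} (R : RS α) (φ : FR) : ∀ e e' : ℕ → α,
    (∀ i < φ.code + 1, e i = e' i) → (Sat R e φ ↔ Sat R e' φ) := by
  have hl : ∀ a b, a ≤ Nat.pair a b := Nat.left_le_pair
  have hr : ∀ a b, b ≤ Nat.pair a b := Nat.right_le_pair
  induction φ with
  | eq i j =>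
    intro e e' h
    have h1 : i < (FR.eq i j).code + 1 := Nat.lt_succ_of_le ((hl i j).trans (hr 0 _))
    have h2 : j < (FR.eq i j).code + 1 := Nat.lt_succ_of_le ((hr i j).trans (hr 0 _))
    simp only [Sat, h i h1, h j h2]
  | add i j k =>
    intro e e' h
    have h0 : Nat.pair i (Nat.pair j k) ≤ (FR.add i j k).code := hr 1 _
    have h1 : i < (FR.add i j k).code + 1 := Nat.lt_succ_of_le ((hl i _).trans h0)
    have h2 : j < (FR.add i j k).code + 1 := Nat.lt_succ_of_le ((hl j k).trans ((hr i _).trans h0))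
    have h3 : k < (FR.add i j k).code + 1 := Nat.lt_succ_of_le ((hr j k).trans ((hr i _).trans h0))
    simp only [Sat, h i h1, h j h2, h k h3]
  | mul i j k =>
    intro e e' h
    have h0 : Nat.pair i (Nat.pair j k) ≤ (FR.mul i j k).code := hr 2 _
    have h1 : i < (FR.mul i j k).code + 1 := Nat.lt_succ_of_le ((hl i _).trans h0)
    have h2 : j < (FR.mul i j k).code + 1 := Nat.lt_succ_of_le ((hl j k).trans ((hr i _).trans h0))
    have h3 : k < (FR.mul i j k).code + 1 := Nat.lt_succ_of_le ((hr j k).trans ((hr i _).trans h0))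
    simp only [Sat, h i h1, h j h2, h k h3]
  | zero i =>
    intro e e' h
    simp only [Sat, h i (Nat.lt_succ_of_le (hr 3 i))]
  | one i =>
    intro e e' h
    simp only [Sat, h i (Nat.lt_succ_of_le (hr 4 i))]
  | tt i =>
    intro e e' h
    simp only [Sat, h i (Nat.lt_succ_of_le (hr 5 i))]
  | neg φ ih =>
    intro e e' h
    refine not_congr (ih e e' fun i hi => h i (lt_of_lt_of_le hi ?_))
    exact Nat.succ_le_succ (hr 6 _)
  | and φ ψ ih ih' =>
    intro e e' h
    refine and_congr (ih e e' fun i hi => h i (lt_of_lt_of_le hi ?_))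
      (ih' e e' fun i hi => h i (lt_of_lt_of_le hi ?_))
    · exact Nat.succ_le_succ ((hl _ _).trans (hr 7 _))
    · exact Nat.succ_le_succ ((hr _ _).trans (hr 7 _))
  | ex i φ ih =>
    intro e e' h
    refine exists_congr fun a => ih _ _ fun j hj => ?_
    rw [Function.update_apply, Function.update_apply, h j (lt_of_lt_of_le hj ?_)]
    exact Nat.succ_le_succ ((hr _ _).trans (hr 8 _))

theorem sat_close_code {R : Type} [CommRing R] (t : R) (φ : FR) (e : ℕ → R) :
    Sat (ringRS t) e (close φ (φ.code + 1)) ↔ Sat (ringRS t) (fun _ => 0) φ := by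
  rw [sat_close]
  apply sat_dep_code
  intro i hi
  rw [if_pos hi]

/-- closing on codes -/
def kClose (c N : ℕ) : ℕ :=
  Nat.rec c (fun n d => Nat.pair 8 (Nat.pair n (Nat.pair 7 (Nat.pair (Nat.pair 3 n) d)))) N

theorem code_close (φ : FR) (N : ℕ) : (close φ N).code = kClose φ.code N := by
  induction N with
  | zero => rfl
  | succ N ih =>
    simp only [close, FR.code, ih]
    rfl

theorem primrec_kClose : Primrec₂ kClose := by
  have hn : Primrec (fun x : ℕ × ℕ × ℕ => x.2.1) := Primrec.fst.comp Primrec.snd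
  have hd : Primrec (fun x : ℕ × ℕ × ℕ => x.2.2) := Primrec.snd.comp Primrec.snd
  have h : Primrec₂ (fun (_ : ℕ) (x : ℕ × ℕ) => Nat.pair 8 (Nat.pair x.1
      (Nat.pair 7 (Nat.pair (Nat.pair 3 x.1) x.2)))) :=
    Ax.p_pair (Primrec.const 8) (Ax.p_pair hn (Ax.p_pair (Primrec.const 7)
      (Ax.p_pair (Ax.p_pair (Primrec.const 3) hn) hd)))
  exact Primrec.nat_rec Primrec.id h

end close

/-! ### Decision over the field -/

section dec

theorem decide_of (p : ℕ) [Fact p.Prime]
    (hcomp : ∃ (c : BFm → FR) (f : List ℕ → ℕ), Primrec f ∧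
      (∀ φ, f φ.code = (c φ).code) ∧ (∀ w, ∃ φ, f w = (c φ).code) ∧
      ∀ (R : Type) [CommRing R] (t : R) (E : ℕ → R) (φ : BFm),
        (Sat (ringRS t) E (c φ) ↔ φ.Holds t (fun i => E (i + 2))))
    {k : Type} [Field k] (σ₀ : P1 p →+* k) (h0 : Mdl p σ₀)
    (hbf : ∀ (M : Type) [Field M] (σ : P1 p →+* M), Mdl p σ → ∀ φ : BFm,
      (φ.Holds (σ X) (fun _ => (0 : M)) ↔ φ.Holds (σ₀ X) (fun _ => (0 : k)))) :
    ∃ D : List ℕ → Bool, Computable D ∧
      ∀ φ : BFm, (D φ.code = true ↔ φ.Holds (σ₀ X) (fun _ => 0)) := by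
  obtain ⟨c, f, hf, hfc, hfw, hc⟩ := hcomp
  obtain ⟨AL, hAL, hsound, hcomplete⟩ := exists_axioms p
  obtain ⟨P, hP, hPe⟩ := re_conseq AL hAL
  have hg : Primrec (fun w => kClose (f w) (f w + 1)) :=
    primrec_kClose.comp hf (Primrec.succ.comp hf)
  have hg2 : Primrec (fun w => Nat.pair 6 (kClose (f w) (f w + 1))) :=
    Ax.p_pair (Primrec.const 6) hg
  have hmod : ∀ φ : BFm, ∀ (α : Type) (R : RS α), (∀ n e, Sat R e (AL n)) → ∀ a : α,
      (Sat R (fun _ => a) (close (c φ) ((c φ).code + 1)) ↔ φ.Holds (σ₀ X) (fun _ => 0)) := by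
    intro φ α R hR a
    obtain ⟨F, σ, rfl, hσ⟩ := @hcomplete α ⟨a⟩ R hR
    rw [sat_close_code, hc]
    exact hbf α σ hσ φ
  have h1 : ∀ w φ, f w = (c φ).code →
      (P (kClose (f w) (f w + 1)) ↔ φ.Holds (σ₀ X) (fun _ => 0)) := by
    intro w φ hw
    rw [hw, ← code_close, hPe]
    constructor
    · intro h
      exact (hmod φ k (ringRS (σ₀ X)) (hsound k σ₀ h0) 0).1 (h k _ (hsound k σ₀ h0) 0)
    · intro h α R hR a
      exact (hmod φ α R hR a).2 h
  have h2 : ∀ w φ, f w = (c φ).code →
      (P (Nat.pair 6 (kClose (f w) (f w + 1))) ↔ ¬ φ.Holds (σ₀ X) (fun _ => 0)) := by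
    intro w φ hw
    rw [hw, ← code_close]
    refine (hPe (.neg (close (c φ) ((c φ).code + 1)))).trans ?_
    constructor
    · intro h h'
      exact h k _ (hsound k σ₀ h0) 0 ((hmod φ k (ringRS (σ₀ X)) (hsound k σ₀ h0) 0).2 h')
    · intro h α R hR a h'
      exact h ((hmod φ α R hR a).1 h')
  have h3 : ComputablePred (fun w : List ℕ => P (kClose (f w) (f w + 1))) := by
    rw [ComputablePred.computable_iff_re_compl_re']
    have h4 : REPred (fun w => P (Nat.pair 6 (kClose (f w) (f w + 1)))) := hP.comp hg2.to_comp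
    refine ⟨hP.comp hg.to_comp, h4.of_eq fun w => ?_⟩
    obtain ⟨φ, hφ⟩ := hfw w
    rw [h1 w φ hφ]
    exact h2 w φ hφ
  obtain ⟨D, hD, hDe⟩ := ComputablePred.computable_iff.1 h3
  refine ⟨D, hD, fun φ => ?_⟩
  have h4 := congrFun hDe φ.code
  rw [← iff_eq_eq] at h4
  rw [← h4]
  exact h1 φ.code φ (hfc φ)

end dec

/-! ### Relativisation to the valuation ring -/

section rel

/-- `x_i` is in the valuation ring -/
def voB (i : ℕ) : BFm :=
  .ex (i + 1) (.eq i (i + 1) (.add (.mul .y .y) .y) (.mul .tt (.mul .x .x)))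

/-- relativisation -/
def rel : BFm → BFm
  | .eq i j a b => .eq i j a b
  | .not φ => .not (rel φ)
  | .and φ ψ => .and (rel φ) (rel ψ)
  | .or φ ψ => .or (rel φ) (rel ψ)
  | .ex i φ => .ex i (.and (voB i) (rel φ))
  | .all i φ => .all i (.or (.not (voB i)) (rel φ))

theorem holds_voB {K : Type*} [Field K] (t : K) (e : ℕ → K) (i : ℕ) :
    (voB i).Holds t e ↔ VO t (e i) := by
  simp only [voB, BFm.Holds, Tm.val, VO]
  refine exists_congr fun y => ?_
  simp [pow_two]

theorem val_map {R S : Type*} [CommRing R] [CommRing S] (f : R →+* S) (t x y : R) (a : Tm) :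
    a.val (f t) (f x) (f y) = f (a.val t x y) := by
  induction a with
  | zero => simp [Tm.val]
  | one => simp [Tm.val]
  | tt => rfl
  | x => rfl
  | y => rfl
  | add a b ha hb => simp [Tm.val, ha, hb]
  | sub a b ha hb => simp [Tm.val, ha, hb]
  | mul a b ha hb => simp [Tm.val, ha, hb]

theorem holds_rel {R K : Type*} [CommRing R] [Field K] (f : R →+* K)
    (hf : Function.Injective f) (t : R) (hV : ∀ x : K, VO (f t) x ↔ ∃ r, f r = x) (φ : BFm) :
    ∀ e : ℕ → R, (rel φ).Holds (f t) (fun i => f (e i)) ↔ φ.Holds t e := by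
  have hu : ∀ (e : ℕ → R) (i : ℕ) (r : R), Function.update (fun i => f (e i)) i (f r) =
      fun j => f (Function.update e i r j) := by
    intro e i r
    funext j
    by_cases h : j = i
    · subst h
      simp
    · simp [h]
  induction φ with
  | eq i j a b =>
    intro e
    simp only [rel, BFm.Holds, val_map]
    exact hf.eq_iff
  | not φ ih =>
    intro e
    exact not_congr (ih e)
  | and φ ψ ih ih' =>
    intro e
    exact and_congr (ih e) (ih' e)
  | or φ ψ ih ih' =>
    intro e
    exact or_congr (ih e) (ih' e)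
  | ex i φ ih =>
    intro e
    simp only [rel, BFm.Holds, holds_voB, Function.update_self, hV]
    constructor
    · rintro ⟨a, ⟨r, rfl⟩, h⟩
      rw [hu] at h
      exact ⟨r, (ih _).1 h⟩
    · rintro ⟨r, h⟩
      refine ⟨f r, ⟨r, rfl⟩, ?_⟩
      rw [hu]
      exact (ih _).2 h
  | all i φ ih =>
    intro e
    simp only [rel, BFm.Holds, holds_voB, Function.update_self, hV]
    constructor
    · intro h r
      rcases h (f r) with h1 | h1
      · exact absurd ⟨r, rfl⟩ h1
      · rw [hu] at h1
        exact (ih _).1 h1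
    · intro h a
      by_cases ha : ∃ r, f r = a
      · obtain ⟨r, rfl⟩ := ha
        right
        rw [hu]
        exact (ih _).2 (h r)
      · exact Or.inl ha

/-- relativisation of tokens -/
def tok (n : ℕ) : List ℕ :=
  if n < 12 then [n]
  else if n % 6 = 0 then n :: 10 :: (voB ((n - 12) / 6)).code
  else if n % 6 = 1 then n :: 11 :: 9 :: (voB ((n - 13) / 6)).code
  else [n]

theorem tok_tm (a : Tm) : a.code.flatMap tok = a.code := by
  induction a with
  | zero => rfl
  | one => rfl
  | tt => rfl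
  | x => rfl
  | y => rfl
  | add a b ha hb =>
    simp only [Tm.code, List.flatMap_cons, List.flatMap_append, ha, hb]
    rfl
  | sub a b ha hb =>
    simp only [Tm.code, List.flatMap_cons, List.flatMap_append, ha, hb]
    rfl
  | mul a b ha hb =>
    simp only [Tm.code, List.flatMap_cons, List.flatMap_append, ha, hb]
    rfl

theorem code_rel (φ : BFm) : (rel φ).code = φ.code.flatMap tok := by
  induction φ with
  | eq i j a b =>
    simp only [rel, BFm.code, List.flatMap_cons, List.flatMap_append, tok_tm]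
    have h : tok (8 + 6 * Nat.pair i j) = [8 + 6 * Nat.pair i j] := by
      unfold tok
      split_ifs with h1 h2 h3
      · rfl
      · omega
      · omega
      · rfl
    rw [h]
    rfl
  | not φ ih =>
    simp only [rel, BFm.code, List.flatMap_cons, ih]
    rfl
  | and φ ψ ih ih' =>
    simp only [rel, BFm.code, List.flatMap_cons, List.flatMap_append, ih, ih']
    rfl
  | or φ ψ ih ih' =>
    simp only [rel, BFm.code, List.flatMap_cons, List.flatMap_append, ih, ih']
    rfl
  | ex i φ ih =>
    have h : tok (12 + 6 * i) = (12 + 6 * i) :: 10 :: (voB i).code := by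
      have h1 : ¬ 12 + 6 * i < 12 := by omega
      have h2 : (12 + 6 * i) % 6 = 0 := by omega
      have h3 : (12 + 6 * i - 12) / 6 = i := by omega
      rw [tok, if_neg h1, if_pos h2, h3]
    simp only [rel, BFm.code, List.flatMap_cons, ih]
    rw [h]
    rfl
  | all i φ ih =>
    have h : tok (13 + 6 * i) = (13 + 6 * i) :: 11 :: 9 :: (voB i).code := by
      have h1 : ¬ 13 + 6 * i < 12 := by omega
      have h2 : ¬ (13 + 6 * i) % 6 = 0 := by omega
      have h2' : (13 + 6 * i) % 6 = 1 := by omega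
      have h3 : (13 + 6 * i - 13) / 6 = i := by omega
      rw [tok, if_neg h1, if_neg h2, if_pos h2', h3]
    simp only [rel, BFm.code, List.flatMap_cons, ih]
    rw [h]
    rfl

theorem primrec_voB : Primrec fun i => (voB i).code := by
  have hi : Primrec (fun i : ℕ => i) := Primrec.id
  have hi1 : Primrec (fun i : ℕ => i + 1) := Primrec.succ
  have h1 : Primrec (fun i : ℕ => 12 + 6 * (i + 1)) :=
    Primrec.nat_add.comp (Primrec.const 12) (Primrec.nat_mul.comp (Primrec.const 6) hi1)
  have h2 : Primrec (fun i : ℕ => 8 + 6 * Nat.pair i (i + 1)) :=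
    Primrec.nat_add.comp (Primrec.const 8) (Primrec.nat_mul.comp (Primrec.const 6)
      (Ax.p_pair hi hi1))
  exact Primrec.list_cons.comp h1 (Primrec.list_cons.comp h2 (Primrec.const
    ((Tm.add (.mul .y .y) .y).code ++ (Tm.mul .tt (.mul .x .x)).code)))

theorem primrec_tok : Primrec tok := by
  have hn : Primrec (fun n : ℕ => n) := Primrec.id
  have h0 : Primrec (fun n : ℕ => [n]) := Primrec.list_cons.comp hn (Primrec.const [])
  have h1 : Primrec (fun n : ℕ => n :: 10 :: (voB ((n - 12) / 6)).code) :=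
    Primrec.list_cons.comp hn (Primrec.list_cons.comp (Primrec.const 10)
      (primrec_voB.comp (Primrec.nat_div.comp (Primrec.nat_sub.comp hn (Primrec.const 12))
        (Primrec.const 6))))
  have h2 : Primrec (fun n : ℕ => n :: 11 :: 9 :: (voB ((n - 13) / 6)).code) :=
    Primrec.list_cons.comp hn (Primrec.list_cons.comp (Primrec.const 11)
      (Primrec.list_cons.comp (Primrec.const 9)
        (primrec_voB.comp (Primrec.nat_div.comp (Primrec.nat_sub.comp hn (Primrec.const 13))
          (Primrec.const 6)))))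
  have c0 : PrimrecPred (fun n : ℕ => n < 12) := Primrec.nat_lt.comp hn (Primrec.const 12)
  have c1 : PrimrecPred (fun n : ℕ => n % 6 = 0) :=
    Primrec.eq.comp (Primrec.nat_mod.comp hn (Primrec.const 6)) (Primrec.const 0)
  have c2 : PrimrecPred (fun n : ℕ => n % 6 = 1) :=
    Primrec.eq.comp (Primrec.nat_mod.comp hn (Primrec.const 6)) (Primrec.const 1)
  exact Primrec.ite c0 h0 (Primrec.ite c1 h1 (Primrec.ite c2 h2 h0))

theorem decide_rel {R K : Type*} [CommRing R] [Field K] (f : R →+* K)
    (hf : Function.Injective f) (t : R) (hV : ∀ x : K, VO (f t) x ↔ ∃ r, f r = x)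
    (h : ∃ D : List ℕ → Bool, Computable D ∧
      ∀ φ : BFm, (D φ.code = true ↔ φ.Holds (f t) (fun _ => 0))) :
    ∃ D : List ℕ → Bool, Computable D ∧
      ∀ φ : BFm, (D φ.code = true ↔ φ.Holds t (fun _ => 0)) := by
  obtain ⟨D, hD, hDe⟩ := h
  refine ⟨fun w => D (w.flatMap tok), hD.comp ?_, fun φ => ?_⟩
  · exact (Primrec.list_flatMap Primrec.id (primrec_tok.comp Primrec.snd).to₂).to_comp
  · beta_reduce
    rw [← code_rel, hDe]
    have h1 := holds_rel f hf t hV φ (fun _ => 0)
    simp only [map_zero] at h1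
    exact h1

end rel

end Asm

/-! ### The final theorem, from its ingredients -/

open Asm in
/-- decidability of the binary fragment over `F_p((t))` and `F_p[[t]]`, from the ingredients -/
theorem binary_of (p : ℕ) [Fact p.Prime]
    (hcomp : ∃ (c : BFm → FR) (f : List ℕ → ℕ), Primrec f ∧
      (∀ φ, f φ.code = (c φ).code) ∧ (∀ w, ∃ φ, f w = (c φ).code) ∧
      ∀ (R : Type) [CommRing R] (t : R) (E : ℕ → R) (φ : BFm),
        (Sat (ringRS t) E (c φ) ↔ φ.Holds t (fun i => E (i + 2))))
    (hKK : Mdl p (tauK p)) (hVO : ∀ x : KK p, VO (tauK p X) x ↔ InO x)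
    (hbf : ∀ (M : Type) [Field M] (σ : P1 p →+* M), Mdl p σ → ∀ φ : BFm,
      (φ.Holds (σ X) (fun _ => (0 : M)) ↔ φ.Holds (sig0 p X) (fun _ => (0 : k0 p)))) :
    (∃ D : List ℕ → Bool, Computable D ∧ ∀ φ : BFm, (D φ.code = true ↔
      φ.Holds (HahnSeries.single 1 1 : LaurentSeries (ZMod p)) (fun _ => 0))) ∧
    (∃ D : List ℕ → Bool, Computable D ∧ ∀ φ : BFm, (D φ.code = true ↔
      φ.Holds (PowerSeries.X : PowerSeries (ZMod p)) (fun _ => 0))) := by
  have h1 := decide_of p hcomp (tauK p) hKK (fun M _ σ hσ φ =>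
    (hbf M σ hσ φ).trans (hbf (KK p) (tauK p) hKK φ).symm)
  have h2 : tauK p X = iK p PowerSeries.X := by
    rw [tauK, RingHom.comp_apply, tau_X]
  have ht : iK p PowerSeries.X = (HahnSeries.single 1 1 : LaurentSeries (ZMod p)) :=
    HahnSeries.ofPowerSeries_X
  refine ⟨?_, ?_⟩
  · rw [h2, ht] at h1
    exact h1
  · rw [h2] at h1
    refine decide_rel (iK p) FT80.iK_injective PowerSeries.X ?_ h1
    intro x
    rw [← h2]
    exact hVO x

end BF80
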