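import Pool.Agent.BF80.UpV
import Pool.Agent.BF80.AxiomsV
import Pool.Agent.BF80.Final

/-!
# The fragment with divisibility is decidable: assembly
-/

set_option autoImplicit false
set_option maxSynthPendingDepth 10

open Polynomial

namespace BF80

open FT80

namespace FinV

/-! ### Decision over the field -/

theorem decide_ofV (p : ℕ) [Fact p.Prime]
    (hcomp : ∃ (c : VFm → FR) (f : List ℕ → ℕ), Primrec f ∧
      (∀ φ, f φ.code = (c φ).code) ∧ (∀ w, ∃ φ, f w = (c φ).code) ∧
      ∀ (R : Type) [CommRing R] (t : R) (E : ℕ → R), (∀ k, E (2 * k + 1) = 0) → ∀ φ : VFm,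
        (Sat (ringRS t) E (c φ) ↔ φ.Holds t (DV t) (fun i => E (2 * i))))
    {k : Type} [Field k] (σ₀ : P1 p →+* k) (h0 : MdlV p σ₀)
    (hbf : ∀ (M : Type) [Field M] (σ : P1 p →+* M), MdlV p σ → ∀ φ : VFm,
      (φ.Holds (σ X) (DV (σ X)) (fun _ => (0 : M)) ↔
        φ.Holds (σ₀ X) (DV (σ₀ X)) (fun _ => (0 : k)))) :
    ∃ D : List ℕ → Bool, Computable D ∧
      ∀ φ : VFm, (D φ.code = true ↔ φ.Holds (σ₀ X) (DV (σ₀ X)) (fun _ => 0)) := by
  obtain ⟨c, f, hf, hfc, hfw, hc⟩ := hcomp
  obtain ⟨AL, hAL, hsound, hcomplete⟩ := exists_axiomsV p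
  obtain ⟨P, hP, hPe⟩ := re_conseq AL hAL
  have hg : Primrec (fun w => Asm.kClose (f w) (f w + 1)) :=
    Asm.primrec_kClose.comp hf (Primrec.succ.comp hf)
  have hg2 : Primrec (fun w => Nat.pair 6 (Asm.kClose (f w) (f w + 1))) :=
    Ax.p_pair (Primrec.const 6) hg
  have hmod : ∀ φ : VFm, ∀ (α : Type) (R : RS α), (∀ n e, Sat R e (AL n)) → ∀ a : α,
      (Sat R (fun _ => a) (Asm.close (c φ) ((c φ).code + 1)) ↔
        φ.Holds (σ₀ X) (DV (σ₀ X)) (fun _ => 0)) := by
    intro φ α R hR a
    obtain ⟨F, σ, rfl, hσ⟩ := @hcomplete α ⟨a⟩ R hR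
    rw [Asm.sat_close_code, hc α (σ X) (fun _ => 0) (fun _ => rfl)]
    exact hbf α σ hσ φ
  have h1 : ∀ w φ, f w = (c φ).code →
      (P (Asm.kClose (f w) (f w + 1)) ↔ φ.Holds (σ₀ X) (DV (σ₀ X)) (fun _ => 0)) := by
    intro w φ hw
    rw [hw, ← Asm.code_close, hPe]
    constructor
    · intro h
      exact (hmod φ k (ringRS (σ₀ X)) (hsound k σ₀ h0) 0).1 (h k _ (hsound k σ₀ h0) 0)
    · intro h α R hR a
      exact (hmod φ α R hR a).2 h
  have h2 : ∀ w φ, f w = (c φ).code →
      (P (Nat.pair 6 (Asm.kClose (f w) (f w + 1))) ↔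
        ¬ φ.Holds (σ₀ X) (DV (σ₀ X)) (fun _ => 0)) := by
    intro w φ hw
    rw [hw, ← Asm.code_close]
    refine (hPe (.neg (Asm.close (c φ) ((c φ).code + 1)))).trans ?_
    constructor
    · intro h h'
      exact h k _ (hsound k σ₀ h0) 0 ((hmod φ k (ringRS (σ₀ X)) (hsound k σ₀ h0) 0).2 h')
    · intro h α R hR a h'
      exact h ((hmod φ α R hR a).1 h')
  have h3 : ComputablePred (fun w : List ℕ => P (Asm.kClose (f w) (f w + 1))) := by
    rw [ComputablePred.computable_iff_re_compl_re']
    have h4 : REPred (fun w => P (Nat.pair 6 (Asm.kClose (f w) (f w + 1)))) :=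
      hP.comp hg2.to_comp
    refine ⟨hP.comp hg.to_comp, h4.of_eq fun w => ?_⟩
    obtain ⟨φ, hφ⟩ := hfw w
    rw [h1 w φ hφ]
    exact h2 w φ hφ
  obtain ⟨D, hD, hDe⟩ := ComputablePred.computable_iff.1 h3
  refine ⟨D, hD, fun φ => ?_⟩
  have h4 := congrFun hDe φ.code
  rw [← iff_eq_eq] at h4
  rw [← h4]
  exact h1 φ.code φ (hfc φ)

/-! ### Relativisation to the valuation ring -/

/-- `x_i` is in the valuation ring -/
def voV (i : ℕ) : VFm :=
  .ex (i + 1) (.eq i (i + 1) (.add (.mul (.var 1) (.var 1)) (.var 1))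
    (.mul .tt (.mul (.var 0) (.var 0))))

/-- relativisation -/
def rel : VFm → VFm
  | .eq i j a b => .eq i j a b
  | .loc i gs a b => .loc i gs a b
  | .dvd i j k l => .dvd i j k l
  | .not φ => .not (rel φ)
  | .and φ ψ => .and (rel φ) (rel ψ)
  | .or φ ψ => .or (rel φ) (rel ψ)
  | .ex i φ => .ex i (.and (voV i) (rel φ))
  | .all i φ => .all i (.or (.not (voV i)) (rel φ))

theorem holds_voV {K : Type*} [Field K] (t : K) (D : K → K → Prop) (e : ℕ → K) (i : ℕ) :
    (voV i).Holds t D e ↔ VO t (e i) := by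
  simp only [voV, VFm.Holds, MT.val, VO]
  refine exists_congr fun y => ?_
  simp [pow_two, lenv]

theorem ex_ne_iff {R K : Type*} [CommRing R] [IsDomain R] [Infinite R] [Field K] (f : R →+* K)
    (hf : Function.Injective f) (t x : R) (s : MT) :
    (∃ y : K, s.val (f t) (lenv [f x, y]) ≠ 0) ↔ ∃ y : R, s.val t (lenv [x, y]) ≠ 0 := by
  have hev : ∀ y : R, s.val t (lenv [x, y]) =
      (s.val (C t : R[X]) (lenv [(C x : R[X]), (X : R[X])])).eval y := by
    intro y
    have h := UpV.val_map (evalRingHom y) (C t : R[X]) (lenv [(C x : R[X]), (X : R[X])]) s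
    rw [← UpV.lenv_map] at h
    simpa using h
  have hev2 : ∀ y : K, s.val (f t) (lenv [f x, y]) =
      ((s.val (C t : R[X]) (lenv [(C x : R[X]), (X : R[X])])).map f).eval y := by
    intro y
    have h := UpV.val_map (eval₂RingHom f y) (C t : R[X]) (lenv [(C x : R[X]), (X : R[X])]) s
    rw [← UpV.lenv_map] at h
    rw [eval_map]
    simpa using h
  constructor
  · intro h
    by_contra hc
    push Not at hc
    obtain ⟨y, hy⟩ := h
    have h0 : s.val (C t : R[X]) (lenv [(C x : R[X]), (X : R[X])]) = 0 := by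
      apply Polynomial.funext
      intro r
      rw [← hev, hc r, eval_zero]
    apply hy
    rw [hev2, h0, Polynomial.map_zero, eval_zero]
  · rintro ⟨y, hy⟩
    refine ⟨f y, fun h => hy (hf ?_)⟩
    rw [map_zero, ← h, ← UpV.val_map, ← UpV.lenv_map]
    rfl

theorem holds_rel {R K : Type*} [CommRing R] [IsDomain R] [Infinite R] [Field K] (f : R →+* K)
    (hf : Function.Injective f) (t : R) (hV : ∀ x : K, VO (f t) x ↔ ∃ r, f r = x) (φ : VFm) :
    ∀ e : ℕ → R, (rel φ).Holds (f t) (DV (f t)) (fun i => f (e i)) ↔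
      φ.Holds t (fun a b => a ∣ b) e := by
  have hu : ∀ (e : ℕ → R) (i : ℕ) (r : R), Function.update (fun i => f (e i)) i (f r) =
      fun j => f (Function.update e i r j) := by
    intro e i r
    funext j
    by_cases h : j = i
    · subst h
      simp
    · simp [h]
  have hval : ∀ (l : List R) (a : MT), a.val (f t) (lenv (l.map f)) = f (a.val t (lenv l)) := by
    intro l a
    rw [UpV.lenv_map, UpV.val_map]
  have hD : ∀ a b : R, DV (f t) (f a) (f b) ↔ a ∣ b := by
    intro a b
    constructor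
    · rintro ⟨c, hc, hcb⟩
      obtain ⟨r, rfl⟩ := (hV c).1 hc
      refine ⟨r, hf ?_⟩
      rw [← hcb, map_mul, mul_comm]
    · rintro ⟨r, rfl⟩
      exact ⟨f r, (hV _).2 ⟨r, rfl⟩, by rw [map_mul, mul_comm]⟩
  induction φ with
  | eq i j a b =>
    intro e
    simp only [rel, VFm.Holds]
    have h1 := hval [e i, e j] a
    have h2 := hval [e i, e j] b
    simp only [List.map_cons, List.map_nil] at h1 h2
    rw [h1, h2]
    exact hf.eq_iff
  | loc i gs a b =>
    intro e
    simp only [rel, VFm.Holds]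
    have h1 := hval (e i :: gs.map fun g => e g.1) a
    have h2 := hval (e i :: gs.map fun g => e g.1) b
    simp only [List.map_cons, List.map_map] at h1 h2
    have h3 : (f ∘ fun g : ℕ × MT => e g.1) = fun g => f (e g.1) := rfl
    rw [h3] at h1 h2
    rw [h1, h2, hf.eq_iff]
    refine and_congr (forall₂_congr fun g hg => and_congr ?_ (ex_ne_iff f hf t (e i) g.2)) Iff.rfl
    have h4 := hval [e i, e g.1] g.2
    simp only [List.map_cons, List.map_nil] at h4
    rw [h4, map_eq_zero_iff f hf]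
  | dvd i j k l =>
    intro e
    simp only [rel, VFm.Holds]
    rw [← map_mul, ← map_mul, hD]
  | not φ ih =>
    intro e
    exact not_congr (ih e)
  | and φ ψ ih ih' =>
    intro e
    exact and_congr (ih e) (ih' e)
  | or φ ψ ih ih' =>
    intro e
    exact or_congr (ih e) (ih' e)
  | ex i φ ih =>
    intro e
    simp only [rel, VFm.Holds, holds_voV, Function.update_self, hV]
    constructor
    · rintro ⟨a, ⟨r, rfl⟩, h⟩
      rw [hu] at h
      exact ⟨r, (ih _).1 h⟩
    · rintro ⟨r, h⟩
      refine ⟨f r, ⟨r, rfl⟩, ?_⟩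
      rw [hu]
      exact (ih _).2 h
  | all i φ ih =>
    intro e
    simp only [rel, VFm.Holds, holds_voV, Function.update_self, hV]
    constructor
    · intro h r
      rcases h (f r) with h1 | h1
      · exact absurd ⟨r, rfl⟩ h1
      · rw [hu] at h1
        exact (ih _).1 h1
    · intro h a
      by_cases ha : ∃ r, f r = a
      · obtain ⟨r, rfl⟩ := ha
        right
        rw [hu]
        exact (ih _).2 (h r)
      · exact Or.inl ha

/-- relativisation of tokens -/
def tok (n : ℕ) : List ℕ :=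
  if n < 9 then [n]
  else if n % 8 = 2 then n :: 7 :: (voV ((n - 10) / 8)).code
  else if n % 8 = 3 then n :: 8 :: 6 :: (voV ((n - 11) / 8)).code
  else [n]

theorem tok_id {n : ℕ} (h : n < 9 ∨ n % 8 ≠ 2 ∧ n % 8 ≠ 3) : tok n = [n] := by
  unfold tok
  split_ifs with h1 h2 h3
  · rfl
  · omega
  · omega
  · rfl

theorem tok_mt (a : MT) : a.code.flatMap tok = a.code := by
  induction a with
  | zero => rfl
  | one => rfl
  | tt => rfl
  | var k =>
    simp only [MT.code, List.flatMap_cons, List.flatMap_nil, List.append_nil]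
    exact tok_id (by omega)
  | add a b ha hb =>
    simp only [MT.code, List.flatMap_cons, List.flatMap_append, ha, hb]
    rfl
  | sub a b ha hb =>
    simp only [MT.code, List.flatMap_cons, List.flatMap_append, ha, hb]
    rfl
  | mul a b ha hb =>
    simp only [MT.code, List.flatMap_cons, List.flatMap_append, ha, hb]
    rfl

theorem tok_gs (gs : List (ℕ × MT)) :
    (gs.flatMap fun g => (14 + 8 * g.1) :: g.2.code).flatMap tok =
      gs.flatMap fun g => (14 + 8 * g.1) :: g.2.code := by
  induction gs with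
  | nil => rfl
  | cons g gs ih =>
    simp only [List.flatMap_cons, List.flatMap_append, ih, tok_mt]
    rw [tok_id (by omega)]
    rfl

theorem code_rel (φ : VFm) : (rel φ).code = φ.code.flatMap tok := by
  induction φ with
  | eq i j a b =>
    simp only [rel, VFm.code, List.flatMap_cons, List.flatMap_append, tok_mt]
    rw [tok_id (by omega)]
    rfl
  | loc i gs a b =>
    simp only [rel, VFm.code, List.flatMap_cons, List.flatMap_append, tok_mt, tok_gs]
    rw [tok_id (by omega)]
    rfl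
  | dvd i j k l =>
    simp only [rel, VFm.code, List.flatMap_cons, List.flatMap_nil, List.append_nil]
    rw [tok_id (by omega)]
  | not φ ih =>
    simp only [rel, VFm.code, List.flatMap_cons, ih]
    rfl
  | and φ ψ ih ih' =>
    simp only [rel, VFm.code, List.flatMap_cons, List.flatMap_append, ih, ih']
    rfl
  | or φ ψ ih ih' =>
    simp only [rel, VFm.code, List.flatMap_cons, List.flatMap_append, ih, ih']
    rfl
  | ex i φ ih =>
    have h : tok (10 + 8 * i) = (10 + 8 * i) :: 7 :: (voV i).code := by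
      have h1 : ¬ 10 + 8 * i < 9 := by omega
      have h2 : (10 + 8 * i) % 8 = 2 := by omega
      have h3 : (10 + 8 * i - 10) / 8 = i := by omega
      rw [tok, if_neg h1, if_pos h2, h3]
    simp only [rel, VFm.code, List.flatMap_cons, ih]
    rw [h]
    rfl
  | all i φ ih =>
    have h : tok (11 + 8 * i) = (11 + 8 * i) :: 8 :: 6 :: (voV i).code := by
      have h1 : ¬ 11 + 8 * i < 9 := by omega
      have h2 : ¬ (11 + 8 * i) % 8 = 2 := by omega
      have h2' : (11 + 8 * i) % 8 = 3 := by omega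
      have h3 : (11 + 8 * i - 11) / 8 = i := by omega
      rw [tok, if_neg h1, if_neg h2, if_pos h2', h3]
    simp only [rel, VFm.code, List.flatMap_cons, ih]
    rw [h]
    rfl

theorem primrec_voV : Primrec fun i => (voV i).code := by
  have hi : Primrec (fun i : ℕ => i) := Primrec.id
  have hi1 : Primrec (fun i : ℕ => i + 1) := Primrec.succ
  have h1 : Primrec (fun i : ℕ => 10 + 8 * (i + 1)) :=
    Primrec.nat_add.comp (Primrec.const 10) (Primrec.nat_mul.comp (Primrec.const 8) hi1)
  have h2 : Primrec (fun i : ℕ => 12 + 8 * Nat.pair i (i + 1)) :=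
    Primrec.nat_add.comp (Primrec.const 12) (Primrec.nat_mul.comp (Primrec.const 8)
      (Ax.p_pair hi hi1))
  exact Primrec.list_cons.comp h1 (Primrec.list_cons.comp h2 (Primrec.const
    ((MT.add (.mul (.var 1) (.var 1)) (.var 1)).code ++
      (MT.mul .tt (.mul (.var 0) (.var 0))).code)))

theorem primrec_tok : Primrec tok := by
  have hn : Primrec (fun n : ℕ => n) := Primrec.id
  have h0 : Primrec (fun n : ℕ => [n]) := Primrec.list_cons.comp hn (Primrec.const [])
  have h1 : Primrec (fun n : ℕ => n :: 7 :: (voV ((n - 10) / 8)).code) :=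
    Primrec.list_cons.comp hn (Primrec.list_cons.comp (Primrec.const 7)
      (primrec_voV.comp (Primrec.nat_div.comp (Primrec.nat_sub.comp hn (Primrec.const 10))
        (Primrec.const 8))))
  have h2 : Primrec (fun n : ℕ => n :: 8 :: 6 :: (voV ((n - 11) / 8)).code) :=
    Primrec.list_cons.comp hn (Primrec.list_cons.comp (Primrec.const 8)
      (Primrec.list_cons.comp (Primrec.const 6)
        (primrec_voV.comp (Primrec.nat_div.comp (Primrec.nat_sub.comp hn (Primrec.const 11))
          (Primrec.const 8)))))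
  have c0 : PrimrecPred (fun n : ℕ => n < 9) := Primrec.nat_lt.comp hn (Primrec.const 9)
  have c1 : PrimrecPred (fun n : ℕ => n % 8 = 2) :=
    Primrec.eq.comp (Primrec.nat_mod.comp hn (Primrec.const 8)) (Primrec.const 2)
  have c2 : PrimrecPred (fun n : ℕ => n % 8 = 3) :=
    Primrec.eq.comp (Primrec.nat_mod.comp hn (Primrec.const 8)) (Primrec.const 3)
  exact Primrec.ite c0 h0 (Primrec.ite c1 h1 (Primrec.ite c2 h2 h0))

theorem decide_rel {R K : Type*} [CommRing R] [IsDomain R] [Infinite R] [Field K] (f : R →+* K)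
    (hf : Function.Injective f) (t : R) (hV : ∀ x : K, VO (f t) x ↔ ∃ r, f r = x)
    (h : ∃ D : List ℕ → Bool, Computable D ∧
      ∀ φ : VFm, (D φ.code = true ↔ φ.Holds (f t) (DV (f t)) (fun _ => 0))) :
    ∃ D : List ℕ → Bool, Computable D ∧
      ∀ φ : VFm, (D φ.code = true ↔ φ.Holds t (fun a b => a ∣ b) (fun _ => 0)) := by
  obtain ⟨D, hD, hDe⟩ := h
  refine ⟨fun w => D (w.flatMap tok), hD.comp ?_, fun φ => ?_⟩
  · exact (Primrec.list_flatMap Primrec.id (primrec_tok.comp Primrec.snd).to₂).to_comp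
  · beta_reduce
    rw [← code_rel, hDe]
    have h1 := holds_rel f hf t hV φ (fun _ => 0)
    simp only [map_zero] at h1
    exact h1

theorem infinite_ps (p : ℕ) [Fact p.Prime] : Infinite (PowerSeries (ZMod p)) := by
  refine Infinite.of_injective (fun n : ℕ => (PowerSeries.X : PowerSeries (ZMod p)) ^ n) ?_
  intro m n h
  have h1 := congrArg PowerSeries.order h
  simpa using h1

end FinV

/-! ### The final theorem, from its ingredients -/

open FinV in
/-- decidability of the fragment with divisibility, from the ingredients -/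
theorem vfm_main_of (p : ℕ) [Fact p.Prime]
    (hcomp : ∃ (c : VFm → FR) (f : List ℕ → ℕ), Primrec f ∧
      (∀ φ, f φ.code = (c φ).code) ∧ (∀ w, ∃ φ, f w = (c φ).code) ∧
      ∀ (R : Type) [CommRing R] (t : R) (E : ℕ → R), (∀ k, E (2 * k + 1) = 0) → ∀ φ : VFm,
        (Sat (ringRS t) E (c φ) ↔ φ.Holds t (DV t) (fun i => E (2 * i))))
    (hbf : ∀ (M : Type) [Field M] (σ : P1 p →+* M), MdlV p σ → ∀ φ : VFm,
      (φ.Holds (σ X) (DV (σ X)) (fun _ => (0 : M)) ↔
        φ.Holds (tauK p X) (DV (tauK p X)) (fun _ => (0 : KK p)))) :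
    (∃ D : List ℕ → Bool, Computable D ∧ ∀ φ : VFm, (D φ.code = true ↔
      φ.Holds (HahnSeries.single 1 1 : LaurentSeries (ZMod p))
        (fun a b => ∃ c : PowerSeries (ZMod p), (c : LaurentSeries (ZMod p)) * a = b)
        (fun _ => 0))) ∧
    (∃ D : List ℕ → Bool, Computable D ∧ ∀ φ : VFm, (D φ.code = true ↔
      φ.Holds (PowerSeries.X : PowerSeries (ZMod p)) (fun a b => a ∣ b) (fun _ => 0))) := by
  have h1 := decide_ofV p hcomp (tauK p) mdlV_KK hbf
  have h2 : tauK p X = iK p PowerSeries.X := by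
    rw [tauK, RingHom.comp_apply, tau_X]
  have ht : iK p PowerSeries.X = (HahnSeries.single 1 1 : LaurentSeries (ZMod p)) :=
    HahnSeries.ofPowerSeries_X
  refine ⟨?_, ?_⟩
  · have h3 : DV (tauK p X) =
        (fun a b : LaurentSeries (ZMod p) => ∃ c : PowerSeries (ZMod p),
          (c : LaurentSeries (ZMod p)) * a = b) := by
      funext a b
      refine propext ⟨?_, ?_⟩
      · rintro ⟨c, hc, hcb⟩
        obtain ⟨r, rfl⟩ := (VO_KK c).1 hc
        exact ⟨r, hcb⟩
      · rintro ⟨r, hr⟩
        exact ⟨iK p r, (VO_KK _).2 ⟨r, rfl⟩, hr⟩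
    rw [h3, h2, ht] at h1
    exact h1
  · rw [h2] at h1
    have := infinite_ps p
    refine decide_rel (iK p) FT80.iK_injective PowerSeries.X ?_ h1
    intro x
    rw [← h2]
    exact VO_KK x

end BF80
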