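import Mathlib

/-!
# Countable saturation of ultrapowers
-/

open Filter

namespace BF80

theorem exists_diag {D : Type} [Nonempty D] (C : ℕ → ℕ → D → Prop)
    (h : ∀ m : ℕ, ∀ᶠ l in ((hyperfilter ℕ : Ultrafilter ℕ) : Filter ℕ), ∃ d : D, ∀ i < m, C i l d) :
    ∃ d : ℕ → D, ∀ i, ∀ᶠ l in ((hyperfilter ℕ : Ultrafilter ℕ) : Filter ℕ), C i l (d l) := by
  classical
  let Q : ℕ → ℕ → Prop := fun l m => ∃ d : D, ∀ i < m, C i l d
  have h0 : ∀ l, Q l 0 := fun l => ⟨Classical.arbitrary D, fun i hi => absurd hi (Nat.not_lt_zero i)⟩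
  have hm : ∀ l, Q l (Nat.findGreatest (Q l) l) := by
    intro l
    exact Nat.findGreatest_spec (P := Q l) (Nat.zero_le l) (h0 l)
  choose d hd using hm
  refine ⟨d, fun i => ?_⟩
  have h1 : ∀ᶠ l in ((hyperfilter ℕ : Ultrafilter ℕ) : Filter ℕ), i + 1 ≤ l :=
    Nat.hyperfilter_le_atTop (eventually_ge_atTop (i + 1))
  filter_upwards [h (i + 1), h1] with l hl hl1
  have h2 : i + 1 ≤ Nat.findGreatest (Q l) l := Nat.le_findGreatest hl1 hl
  exact hd l i h2

end BF80
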