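import Pool.Agent.BF80.Defs2

/-!
# Algebraic elements: transitivity, symmetry, extension to the field of fractions, coordinate
changes of algebraic power series
-/

set_option autoImplicit false
set_option maxSynthPendingDepth 10

open Polynomial

namespace BF80

open FT80

/-! ### algebraic elements -/

theorem ev1_C {R S : Type*} [CommRing R] [CommRing S] (σ : R →+* S) (x : S) (r : R) :
    ev1 σ x (C r) = σ r := by simp [ev1]

theorem ev1_X {R S : Type*} [CommRing R] [CommRing S] (σ : R →+* S) (x : S) :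
    ev1 σ x X = x := by simp [ev1]

theorem rel_closed {R L : Type*} [CommRing R] [IsDomain R] [Field L] (τ : R →+* L)
    (N : Polynomial (algField τ)) (hN : N ≠ 0) (u : L)
    (hu : N.eval₂ (algField τ).subtype u = 0) : Alg1 τ u := by
  let _ : Algebra R L := τ.toAlgebra
  have hev : ∀ q : R, τ q ∈ algField τ := fun q => isAlgebraic_algebraMap (R := R) (A := L) q
  let _ : Algebra R (algField τ) := (τ.codRestrict (algField τ) hev).toAlgebra
  have : IsScalarTower R (algField τ) L := IsScalarTower.of_algebraMap_eq fun q => rfl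
  have : Algebra.IsAlgebraic R (algField τ) := by
    constructor
    intro a
    have h2 : IsAlgebraic R (algebraMap (algField τ) L a) := a.2
    exact (isAlgebraic_algebraMap_iff (algebraMap (algField τ) L).injective).mp h2
  have h3 : IsAlgebraic (algField τ) u := ⟨N, hN, hu⟩
  exact h3.restrictScalars R

section

variable {κ H : Type*} [Field κ] [Field H] [Algebra κ H]

theorem mem_algField_const (h : H) (r : κ) :
    algebraMap κ H r ∈ algField (ev1 (algebraMap κ H) h) := by
  let _ : Algebra (Polynomial κ) H := (ev1 (algebraMap κ H) h).toAlgebra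
  have h1 := isAlgebraic_algebraMap (R := Polynomial κ) (A := H) (C r)
  have h2 : algebraMap (Polynomial κ) H (C r) = algebraMap κ H r := by
    change ev1 (algebraMap κ H) h (C r) = _
    rw [ev1, coe_eval₂RingHom, eval₂_C]
  rw [h2] at h1
  exact h1

theorem mem_algField_self (h : H) : h ∈ algField (ev1 (algebraMap κ H) h) := by
  let _ : Algebra (Polynomial κ) H := (ev1 (algebraMap κ H) h).toAlgebra
  have h1 := isAlgebraic_algebraMap (R := Polynomial κ) (A := H) X
  have h2 : algebraMap (Polynomial κ) H X = h := by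
    change ev1 (algebraMap κ H) h X = _
    rw [ev1, coe_eval₂RingHom, eval₂_X]
  rw [h2] at h1
  exact h1

theorem algH_iff (h y : H) : AlgH κ h y ↔ y ∈ algField (ev1 (algebraMap κ H) h) := Iff.rfl

theorem algH_self (h : H) : AlgH κ h h := mem_algField_self h

theorem algH_trans {a b c : H} (hb : ¬ Alg1 (algebraMap κ H) b) (h1 : AlgH κ a b)
    (h2 : AlgH κ b c) : AlgH κ a c := by
  obtain ⟨P, hP, hPc⟩ := h2
  let cA : κ →+* algField (ev1 (algebraMap κ H) a) :=
    (algebraMap κ H).codRestrict _ (fun r => mem_algField_const a r)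
  let τ : Polynomial κ →+* algField (ev1 (algebraMap κ H) a) := ev1 cA ⟨b, h1⟩
  have hτ : (algField (ev1 (algebraMap κ H) a)).subtype.comp τ = ev1 (algebraMap κ H) b := by
    apply Polynomial.ringHom_ext
    · intro r
      have e1 : τ (C r) = cA r := ev1_C cA _ r
      rw [RingHom.comp_apply, e1, ev1_C]
      rfl
    · have e1 : τ X = ⟨b, h1⟩ := ev1_X cA _
      rw [RingHom.comp_apply, e1, ev1_X]
      rfl
  have hinj : Function.Injective τ := by
    rw [injective_iff_map_eq_zero]
    intro q hq
    by_contra hq0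
    apply hb
    refine ⟨q, hq0, ?_⟩
    rw [← hτ, RingHom.comp_apply, hq, map_zero]
  apply rel_closed _ (P.map τ) ((Polynomial.map_ne_zero_iff hinj).mpr hP)
  rw [eval₂_map, hτ]
  exact hPc

/-- interchange of the variables -/
noncomputable def sw (κ : Type*) [Field κ] : Polynomial (Polynomial κ) →+* Polynomial (Polynomial κ) :=
  ev2 ((C : Polynomial κ →+* Polynomial (Polynomial κ)).comp (C : κ →+* Polynomial κ)) X (C X)

theorem ev2_sw {S : Type*} [CommRing S] (σ : κ →+* S) (x y : S) (P : Polynomial (Polynomial κ)) :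
    ev2 σ x y (sw κ P) = ev2 σ y x P := by
  rw [sw, hom_ev2]
  congr 1
  congr 1
  · apply RingHom.ext
    intro r
    simp [ev2]
  · simp [ev2]
  · simp [ev2]

theorem sw_ne_zero {P : Polynomial (Polynomial κ)} (hP : P ≠ 0) : sw κ P ≠ 0 := by
  intro h
  apply hP
  have h1 := ev2_sw ((C : Polynomial κ →+* Polynomial (Polynomial κ)).comp (C : κ →+* Polynomial κ))
    X (C X) P
  have h2 : ∀ Q : Polynomial (Polynomial κ), ev2 ((C : Polynomial κ →+* Polynomial
      (Polynomial κ)).comp (C : κ →+* Polynomial κ)) (C X) X Q = Q := by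
    intro Q
    have h3 : ev2 ((C : Polynomial κ →+* Polynomial (Polynomial κ)).comp
        (C : κ →+* Polynomial κ)) (C X) X = RingHom.id _ := by
      apply Polynomial.ringHom_ext'
      · apply Polynomial.ringHom_ext'
        · ext r
          simp [ev2]
        · simp [ev2]
      · simp [ev2]
    rw [h3]
    rfl
  rw [h, map_zero, h2] at h1
  exact h1.symm

theorem algH_symm {a b : H} (h : AlgH κ a b) : AlgH κ b a := by
  obtain ⟨P, hP, hPc⟩ := h
  exact ⟨sw κ P, sw_ne_zero hP, by rw [ev2_sw]; exact hPc⟩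

theorem transc_of_lt {Γ₀ : Type*} [LinearOrderedCommGroupWithZero Γ₀] {v : Valuation H Γ₀}
    (hv : Nice κ v) {w : H} (hw : v w < 1) (hw0 : w ≠ 0) : ¬ Alg1 (algebraMap κ H) w := by
  rintro ⟨q, hq, hqw⟩
  obtain ⟨n, c, s, h1, h2, h3⟩ := hv.poly hw q hq
  have h4 : aeval w q = 0 := hqw
  rw [h4] at h3
  rcases mul_eq_zero.1 h3.symm with h5 | h5
  · exact pow_ne_zero _ hw0 h5
  · have h6 : v (algebraMap κ H c + w * s) = 1 := by
      apply hv.unit h1
      rw [add_sub_cancel_left, map_mul]
      exact mul_lt_one_of_lt_of_le hw h2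
    rw [h5, map_zero] at h6
    exact zero_ne_one h6

/-- extension of a ring homomorphism to the field of fractions -/
theorem extendRF {Γ₀ : Type*} [LinearOrderedCommGroupWithZero Γ₀] {v : Valuation H Γ₀}
    (hv : Nice κ v) {w : H} {S : Finset H} {L : Type*} [Field L] (φ : RF hv w S →+* L)
    (hφ : Function.Injective φ) :
    ∃ φ' : EF κ w S →+* L, ∀ r : RF hv w S, φ' ⟨r, r.2.1⟩ = φ r := by
  let V : ValuationSubring (EF κ w S) := (v.comap (algebraMap (EF κ w S) H)).valuationSubring
  have hV : ∀ r : EF κ w S, r ∈ V ↔ v (r : H) ≤ 1 := fun r => Iff.rfl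
  let i : V →+* RF hv w S :=
    { toFun := fun r => ⟨((r : EF κ w S) : H), (r : EF κ w S).2, (hV _).mp r.2⟩
      map_one' := rfl
      map_mul' := fun _ _ => rfl
      map_zero' := rfl
      map_add' := fun _ _ => rfl }
  have hi : Function.Injective i := by
    intro a b hab
    have := congrArg (fun z : RF hv w S => (z : H)) hab
    exact Subtype.ext (Subtype.ext this)
  have hg : Function.Injective (φ.comp i) := hφ.comp hi
  refine ⟨IsFractionRing.lift (K := EF κ w S) hg, fun r => ?_⟩
  have h1 : (⟨(r : H), r.2.1⟩ : EF κ w S) = algebraMap V (EF κ w S)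
      ⟨⟨(r : H), r.2.1⟩, (hV _).mpr r.2.2⟩ := rfl
  rw [h1, IsFractionRing.lift_algebraMap]
  rfl

end

/-! ### algebraic power series -/

section ap

variable {κ : Type*} [Field κ]

theorem ap_closed (N : Polynomial (AP κ)) (hN : N ≠ 0) (Y : PowerSeries κ)
    (hY : N.eval₂ (AP κ).val.toRingHom Y = 0) : Y ∈ AP κ := by
  let _ : Algebra (Polynomial κ) (PowerSeries κ) :=
    (ev1 (PowerSeries.C (R := κ)) PowerSeries.X).toAlgebra
  have hev : ∀ q : Polynomial κ, ev1 (PowerSeries.C (R := κ)) PowerSeries.X q ∈ AP κ :=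
    fun q => isAlgebraic_algebraMap (R := Polynomial κ) (A := PowerSeries κ) q
  let _ : Algebra (Polynomial κ) (AP κ) :=
    ((ev1 (PowerSeries.C (R := κ)) PowerSeries.X).codRestrict (AP κ) hev).toAlgebra
  have : IsScalarTower (Polynomial κ) (AP κ) (PowerSeries κ) :=
    IsScalarTower.of_algebraMap_eq fun q => rfl
  have : Algebra.IsAlgebraic (Polynomial κ) (AP κ) := by
    constructor
    intro a
    have h2 : IsAlgebraic (Polynomial κ) (algebraMap (AP κ) (PowerSeries κ) a) := a.2
    exact (isAlgebraic_algebraMap_iff (Subtype.val_injective)).mp h2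
  have h3 : IsAlgebraic (AP κ) Y := ⟨N, hN, hY⟩
  exact h3.restrictScalars (Polynomial κ)

theorem ap_X : (PowerSeries.X : PowerSeries κ) ∈ AP κ := by
  let _ : Algebra (Polynomial κ) (PowerSeries κ) :=
    (ev1 (PowerSeries.C (R := κ)) PowerSeries.X).toAlgebra
  have h1 := isAlgebraic_algebraMap (R := Polynomial κ) (A := PowerSeries κ) X
  have h2 : algebraMap (Polynomial κ) (PowerSeries κ) X = PowerSeries.X := by
    change ev1 (PowerSeries.C (R := κ)) PowerSeries.X X = _
    rw [ev1, coe_eval₂RingHom, eval₂_X]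
  rw [h2] at h1
  exact h1

theorem ap_of_pow {B : PowerSeries κ} {e : ℕ} (he : 1 ≤ e) (h : B ^ e ∈ AP κ) : B ∈ AP κ := by
  let _ : Algebra (Polynomial κ) (PowerSeries κ) :=
    (ev1 (PowerSeries.C (R := κ)) PowerSeries.X).toAlgebra
  have h1 : IsAlgebraic (Polynomial κ) (B ^ e) := h
  exact h1.of_pow he

/-- factors -/
theorem ap_of_mul {A B : PowerSeries κ} (hA : A ≠ 0) (h1 : A ∈ AP κ) (h2 : A * B ∈ AP κ) :
    B ∈ AP κ := by
  apply ap_closed (C ⟨A, h1⟩ * X - C ⟨A * B, h2⟩)
  · intro h
    have h3 := congrArg (fun q => Polynomial.coeff q 1) h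
    simp only [coeff_sub, coeff_C_mul, coeff_X_one, mul_one, coeff_zero] at h3
    rw [coeff_C, if_neg one_ne_zero, sub_zero] at h3
    exact hA (congrArg Subtype.val h3)
  · rw [eval₂_sub, eval₂_mul, eval₂_C, eval₂_X, eval₂_C]
    exact sub_self _

theorem ev1_X_injective : Function.Injective (ev1 (PowerSeries.C (R := κ)) PowerSeries.X) := by
  intro a b h
  have h1 : ∀ q : Polynomial κ, ev1 (PowerSeries.C (R := κ)) PowerSeries.X q = (q : PowerSeries κ) := by
    intro q
    rw [ev1, coe_eval₂RingHom]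
    induction q using Polynomial.induction_on' with
    | add p q hp hq => rw [eval₂_add, hp, hq, Polynomial.coe_add]
    | monomial n a =>
      rw [eval₂_monomial, Polynomial.coe_monomial, PowerSeries.monomial_eq_C_mul_X_pow]
  rw [h1, h1] at h
  exact Polynomial.coe_injective κ h

/-- coordinate changes preserve algebraicity -/
theorem ap_reparam (R : PowerSeries κ →ₐ[κ] PowerSeries κ) (hR : Function.Injective R)
    {σ : PowerSeries κ} (hσ : σ ∈ AP κ) (hRσ : R σ = PowerSeries.X) {Y : PowerSeries κ}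
    (hY : Y ∈ AP κ) : R Y ∈ AP κ := by
  have hRC : R.toRingHom.comp (PowerSeries.C (R := κ)) = PowerSeries.C (R := κ) := by
    apply RingHom.ext
    intro r
    exact R.commutes r
  have hev : ∀ (a b : PowerSeries κ) (P : Polynomial (Polynomial κ)),
      R (ev2 (PowerSeries.C (R := κ)) a b P) = ev2 (PowerSeries.C (R := κ)) (R a) (R b) P := by
    intro a b P
    have := hom_ev2 (PowerSeries.C (R := κ)) R.toRingHom a b P
    rw [hRC] at this
    exact this
  -- `R X` is algebraic
  have h1 : R PowerSeries.X ∈ AP κ := by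
    obtain ⟨P, hP, hPσ⟩ := hσ
    refine ⟨sw κ P, sw_ne_zero hP, ?_⟩
    rw [ev2_sw]
    have h0 := hev PowerSeries.X σ P
    rw [hPσ, map_zero, hRσ] at h0
    exact h0.symm
  obtain ⟨P, hP, hPY⟩ := hY
  let cA : κ →+* AP κ := algebraMap κ (AP κ)
  let τ : Polynomial κ →+* AP κ := ev1 cA ⟨R PowerSeries.X, h1⟩
  have hτ : (AP κ).val.toRingHom.comp τ = ev1 (PowerSeries.C (R := κ)) (R PowerSeries.X) := by
    apply Polynomial.ringHom_ext
    · intro r
      have e1 : τ (C r) = cA r := ev1_C cA _ r
      rw [RingHom.comp_apply, e1, ev1_C]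
      rfl
    · have e1 : τ X = ⟨R PowerSeries.X, h1⟩ := ev1_X cA _
      rw [RingHom.comp_apply, e1, ev1_X]
      rfl
  have hinj : Function.Injective τ := by
    rw [injective_iff_map_eq_zero]
    intro q hq
    have h2 : ev1 (PowerSeries.C (R := κ)) (R PowerSeries.X) q = 0 := by
      rw [← hτ, RingHom.comp_apply, hq, map_zero]
    have h3 : R (ev1 (PowerSeries.C (R := κ)) PowerSeries.X q) = 0 := by
      rw [← h2]
      have := hom_eval₂ q (PowerSeries.C (R := κ)) R.toRingHom PowerSeries.X
      rw [hRC] at this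
      exact this
    have h4 := (map_eq_zero_iff R hR).mp h3
    exact (map_eq_zero_iff _ ev1_X_injective).mp h4
  apply ap_closed (P.map τ) ((Polynomial.map_ne_zero_iff hinj).mpr hP)
  rw [eval₂_map, hτ]
  have h5 := hev PowerSeries.X Y P
  rw [hPY, map_zero] at h5
  exact h5.symm

end ap

end BF80
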