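import Pool.Agent.BF80.Alg

/-!
# Arcs: uniqueness of elements with a given expansion
-/

set_option autoImplicit false
set_option maxSynthPendingDepth 10

open Polynomial

namespace BF80

open FT80

section arcs
variable {κ H Γ₀ : Type*} [Field κ] [Field H] [Algebra κ H] [LinearOrderedCommGroupWithZero Γ₀]

/-- algebraic elements over `κ(w)`, as roots of polynomials over the field `κ(w)` -/
theorem algH_poly {v : Valuation H Γ₀} (hv : Nice κ v) {w : H} (hw : v w < 1) (hw0 : w ≠ 0)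
    {s : H} (hs : AlgH κ w s) :
    ∃ P : Polynomial (IntermediateField.adjoin κ {w}), P ≠ 0 ∧ aeval s P = 0 := by
  obtain ⟨P, hP, hPs⟩ := hs
  let τ : Polynomial κ →+* IntermediateField.adjoin κ {w} :=
    ev1 (algebraMap κ (IntermediateField.adjoin κ {w}))
      ⟨w, IntermediateField.mem_adjoin_simple_self κ w⟩
  have hτ : (algebraMap (IntermediateField.adjoin κ {w}) H).comp τ = ev1 (algebraMap κ H) w := by
    apply Polynomial.ringHom_ext
    · intro r
      have e1 : τ (C r) = algebraMap κ _ r := ev1_C _ _ r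
      rw [RingHom.comp_apply, e1, ev1_C]
      rfl
    · have e1 : τ X = ⟨w, IntermediateField.mem_adjoin_simple_self κ w⟩ := ev1_X _ _
      rw [RingHom.comp_apply, e1, ev1_X]
      rfl
  have hinj : Function.Injective τ := by
    rw [injective_iff_map_eq_zero]
    intro q hq
    by_contra hq0
    apply transc_of_lt hv hw hw0
    refine ⟨q, hq0, ?_⟩
    rw [← hτ, RingHom.comp_apply, hq, map_zero]
  refine ⟨P.map τ, (Polynomial.map_ne_zero_iff hinj).mpr hP, ?_⟩
  rw [aeval_def, eval₂_map, hτ]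
  exact hPs

theorem asy_unique {v : Valuation H Γ₀} (hv : Nice κ v) {h : H} (h1 : v h < 1) (h0 : h ≠ 0)
    {Y : PowerSeries κ} {y y' : H} (hy : Asy v h Y y) (hy' : Asy v h Y y') (ha : AlgH κ h y)
    (ha' : AlgH κ h y') : y = y' := by
  by_contra hne
  have hd0 : y - y' ≠ 0 := sub_ne_zero.2 hne
  have hd : AlgH κ h (y - y') := by
    rw [algH_iff] at *
    exact sub_mem ha ha'
  obtain ⟨P, hP, hPd⟩ := algH_poly hv h1 h0 hd
  obtain ⟨b, hb1, -, ν, hν⟩ := hv.val_pow h1 h0 P hP hd0 hPd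
  have hvh : v h ≠ 0 := (Valuation.ne_zero_iff v).2 h0
  have hle : ∀ n : ℕ, v (y - y') ≤ v h ^ n := by
    intro n
    obtain ⟨r, hr, hyr⟩ := hy n
    obtain ⟨r', hr', hyr'⟩ := hy' n
    have e : y - y' = h ^ n * (r - r') := by
      rw [hyr, hyr']; ring
    rw [e, map_mul, map_pow]
    exact mul_le_of_le_one_right zero_le (v.map_sub_le hr hr')
  have h2 : v (y - y') ^ b ≤ v h ^ (ν.natAbs + 1) := by
    calc v (y - y') ^ b ≤ (v h ^ (ν.natAbs + 1)) ^ b := pow_le_pow_left₀ zero_le (hle _) b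
      _ ≤ v h ^ (ν.natAbs + 1) :=
        pow_le_of_le_one zero_le (pow_le_one₀ zero_le h1.le) (by omega)
  rw [hν] at h2
  have h3 : v h ^ (ν.natAbs + 1) < v h ^ ν := by
    rw [← zpow_natCast]
    have := zpow_lt_zpow_right_of_lt_one₀ (zero_lt_iff.2 hvh) h1 (m := ν) (n := ((ν.natAbs + 1 : ℕ) : ℤ)) (by omega)
    exact this
  exact absurd h2 (not_le.2 h3)

end arcs

end BF80
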