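import Pool.Agent.BF80.Alg
import Pool.Agent.BF80.Arcs

/-!
# Evaluation of algebraic power series at an infinitesimal

An algebraic power series `Y` over `κ` has a value at every `h ≠ 0` with `v h < 1` in a henselian
field: the unique element algebraic over `κ(h)` with the expansion `Y` in powers of `h`.
-/

set_option autoImplicit false
set_option maxSynthPendingDepth 10

open Polynomial

namespace BF80

open FT80

section phi

variable {κ H Γ₀ : Type*} [Field κ] [Field H] [Algebra κ H] [LinearOrderedCommGroupWithZero Γ₀]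

/-- the valuation ring, as a subalgebra -/
noncomputable def VR {v : Valuation H Γ₀} (hv : Nice κ v) : Subalgebra κ H where
  carrier := {x | v x ≤ 1}
  mul_mem' := fun {a b} ha hb => by
    rw [Set.mem_setOf_eq, map_mul]; exact mul_le_one' ha hb
  one_mem' := by simp
  add_mem' := fun {a b} ha hb => v.map_add_le ha hb
  zero_mem' := by simp
  algebraMap_mem' := fun r => hv.le_one r

theorem asy_iff_exp {v : Valuation H Γ₀} (hv : Nice κ v) (s y : VR hv) (Y : PowerSeries κ) :
    Asy v (s : H) Y (y : H) ↔ Exp s y Y := by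
  constructor
  · intro h n
    obtain ⟨r, hr, e⟩ := h n
    refine ⟨⟨r, hr⟩, ?_⟩
    apply Subtype.ext
    push_cast
    rw [e]
    ring
  · intro h n
    obtain ⟨r, e⟩ := h n
    refine ⟨(r : H), r.2, ?_⟩
    have h2 := congrArg (Subtype.val) e
    push_cast at h2
    linear_combination h2

theorem asy_val {v : Valuation H Γ₀} {h : H} {Y : PowerSeries κ} {y : H}
    (hy : Asy v h Y y) : v y ≤ 1 := by
  obtain ⟨r, hr, h1⟩ := hy 0
  have h0 : PowerSeries.trunc 0 Y = 0 := by
    ext m
    rw [PowerSeries.coeff_trunc, if_neg (Nat.not_lt_zero m), coeff_zero]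
  rw [h0, map_zero, pow_zero, one_mul, zero_add] at h1
  rw [h1]
  exact hr

theorem asy_add {v : Valuation H Γ₀} (hv : Nice κ v) {h : H} (h1 : v h ≤ 1)
    {Y Y' : PowerSeries κ} {y y' : H} (hy : Asy v h Y y) (hy' : Asy v h Y' y') :
    Asy v h (Y + Y') (y + y') := by
  have a1 := (asy_iff_exp hv ⟨h, h1⟩ ⟨y, asy_val hy⟩ Y).1 hy
  have a2 := (asy_iff_exp hv ⟨h, h1⟩ ⟨y', asy_val hy'⟩ Y').1 hy'
  exact (asy_iff_exp hv ⟨h, h1⟩ (⟨y, asy_val hy⟩ + ⟨y', asy_val hy'⟩) (Y + Y')).2 (exp_add a1 a2)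

theorem asy_mul {v : Valuation H Γ₀} (hv : Nice κ v) {h : H} (h1 : v h ≤ 1)
    {Y Y' : PowerSeries κ} {y y' : H} (hy : Asy v h Y y) (hy' : Asy v h Y' y') :
    Asy v h (Y * Y') (y * y') := by
  have a1 := (asy_iff_exp hv ⟨h, h1⟩ ⟨y, asy_val hy⟩ Y).1 hy
  have a2 := (asy_iff_exp hv ⟨h, h1⟩ ⟨y', asy_val hy'⟩ Y').1 hy'
  exact (asy_iff_exp hv ⟨h, h1⟩ (⟨y, asy_val hy⟩ * ⟨y', asy_val hy'⟩) (Y * Y')).2 (exp_mul a1 a2)

theorem asy_algebraMap {v : Valuation H Γ₀} (hv : Nice κ v) {h : H} (h1 : v h ≤ 1) (a : κ) :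
    Asy v h (PowerSeries.C a) (algebraMap κ H a) :=
  (asy_iff_exp hv ⟨h, h1⟩ (algebraMap κ (VR hv) a) (PowerSeries.C a)).2 (exp_algebraMap a)

theorem asy_X {v : Valuation H Γ₀} (hv : Nice κ v) {h : H} (h1 : v h ≤ 1) :
    Asy v h (PowerSeries.X : PowerSeries κ) h :=
  (asy_iff_exp hv ⟨h, h1⟩ ⟨h, h1⟩ PowerSeries.X).2 exp_X

theorem X_pow_dvd_sub_trunc (Y : PowerSeries κ) (n : ℕ) :
    (PowerSeries.X : PowerSeries κ) ^ n ∣ Y - (PowerSeries.trunc n Y : Polynomial κ) := by
  rw [PowerSeries.X_pow_dvd_iff]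
  intro m hm
  rw [map_sub, Polynomial.coeff_coe, PowerSeries.coeff_trunc, if_pos hm, sub_self]

theorem X_pow_dvd_coe {n : ℕ} {q : Polynomial κ} :
    (PowerSeries.X : PowerSeries κ) ^ n ∣ (q : PowerSeries κ) ↔ (X : Polynomial κ) ^ n ∣ q := by
  rw [PowerSeries.X_pow_dvd_iff, Polynomial.X_pow_dvd_iff]
  simp only [Polynomial.coeff_coe]

/-- substitution of a truncation -/
theorem eval_trunc (Y : PowerSeries κ) (n : ℕ) (Q : Polynomial (Polynomial κ)) :
    (PowerSeries.X : PowerSeries κ) ^ n ∣ ev2 (PowerSeries.C (R := κ)) PowerSeries.X Y Q -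
      (Q.eval (PowerSeries.trunc n Y) : Polynomial κ) := by
  set τ := eval₂RingHom (PowerSeries.C (R := κ)) PowerSeries.X with hτ
  have hc : ∀ q : Polynomial κ, τ q = (q : PowerSeries κ) := fun q => eval₂_C_X_eq_coe
  have h1 : ev2 (PowerSeries.C (R := κ)) PowerSeries.X Y Q = (Q.map τ).eval Y := by
    rw [ev2, coe_eval₂RingHom, eval₂_eq_eval_map]
  have h2 : ((Q.eval (PowerSeries.trunc n Y) : Polynomial κ) : PowerSeries κ) =
      (Q.map τ).eval ((PowerSeries.trunc n Y : Polynomial κ) : PowerSeries κ) := by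
    rw [← hc, ← hc, eval_map, eval₂_hom]
  rw [h1, h2]
  exact (X_pow_dvd_sub_trunc Y n).trans (sub_dvd_eval_sub _ _ _)

/-- the polynomial of the Newton step -/
theorem newton_step {P : Polynomial (Polynomial κ)} {Y : PowerSeries κ}
    (h0 : ev2 (PowerSeries.C (R := κ)) PowerSeries.X Y P = 0)
    (h1 : ev2 (PowerSeries.C (R := κ)) PowerSeries.X Y (derivative P) ≠ 0) :
    ∃ (ν : ℕ) (U : Polynomial κ) (F : Polynomial (Polynomial κ)), U.coeff 0 ≠ 0 ∧
      P.comp (C (PowerSeries.trunc (2 * ν + 2) Y) + C (X ^ (ν + 1)) * X) =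
        C (X ^ (2 * ν + 1)) * (C U * X + C X * F) := by
  set D := ev2 (PowerSeries.C (R := κ)) PowerSeries.X Y (derivative P) with hD
  obtain ⟨ν, hν1, hν2⟩ : ∃ ν : ℕ, (∀ m < ν, PowerSeries.coeff m D = 0) ∧
      PowerSeries.coeff ν D ≠ 0 := by
    classical
    have hex : ∃ m, PowerSeries.coeff m D ≠ 0 := by
      by_contra hcon
      push Not at hcon
      exact h1 (PowerSeries.ext fun m => by simpa using hcon m)
    exact ⟨Nat.find hex, fun m hm => not_not.1 (Nat.find_min hex hm), Nat.find_spec hex⟩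
  set Z := PowerSeries.trunc (2 * ν + 2) Y with hZ
  have hP0 : (X : Polynomial κ) ^ (2 * ν + 2) ∣ P.eval Z := by
    have h2 := eval_trunc Y (2 * ν + 2) P
    rw [h0, zero_sub, dvd_neg] at h2
    exact X_pow_dvd_coe.1 h2
  have hP1 : ∀ m < 2 * ν + 2, ((derivative P).eval Z).coeff m = PowerSeries.coeff m D := by
    intro m hm
    have h2 := eval_trunc Y (2 * ν + 2) (derivative P)
    rw [PowerSeries.X_pow_dvd_iff] at h2
    have h3 := h2 m hm
    rw [map_sub, Polynomial.coeff_coe, sub_eq_zero] at h3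
    exact h3.symm
  obtain ⟨U, hU⟩ : (X : Polynomial κ) ^ ν ∣ (derivative P).eval Z := by
    rw [Polynomial.X_pow_dvd_iff]
    intro m hm
    rw [hP1 m (by omega)]
    exact hν1 m hm
  have hU0 : U.coeff 0 ≠ 0 := by
    have h2 := hP1 ν (by omega)
    rw [hU, mul_comm, Polynomial.coeff_mul_X_pow'] at h2
    simp only [le_refl, if_true, Nat.sub_self] at h2
    rw [h2]
    exact hν2
  obtain ⟨A, hA⟩ := hP0
  -- the expanded polynomial
  set G := (taylor Z P).comp (C (X ^ (ν + 1)) * X) with hG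
  have hGc : ∀ i, G.coeff i = (taylor Z P).coeff i * (X ^ (ν + 1)) ^ i := by
    intro i
    rw [hG, comp_C_mul_X_coeff]
  have hdv : C ((X : Polynomial κ) ^ (2 * ν + 2)) ∣ G - C (X ^ (2 * ν + 1)) * (C U * X) := by
    rw [C_dvd_iff_dvd_coeff]
    intro i
    rw [coeff_sub, coeff_C_mul, hGc]
    rcases i with _ | _ | i
    · rw [taylor_coeff_zero, hA]
      simp
    · rw [taylor_coeff_one, hU, zero_add, pow_one]
      have : X ^ ν * U * X ^ (ν + 1) - X ^ (2 * ν + 1) * (C U * X : Polynomial (Polynomial κ)).coeff 1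
          = 0 := by
        rw [coeff_C_mul, coeff_X_one]
        ring
      rw [this]
      exact dvd_zero _
    · have h2 : (C U * X : Polynomial (Polynomial κ)).coeff (i + 1 + 1) = 0 := by
        rw [coeff_C_mul, coeff_X_of_ne_one (by omega), mul_zero]
      rw [h2, mul_zero, sub_zero]
      apply Dvd.dvd.mul_left
      rw [← pow_mul]
      exact pow_dvd_pow _ (by nlinarith)
  obtain ⟨F, hF⟩ := hdv
  refine ⟨ν, U, F, hU0, ?_⟩
  have h2 : P.comp (C Z + C (X ^ (ν + 1)) * X) = G := by
    rw [hG, taylor_apply, comp_assoc]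
    congr 1
    rw [add_comp, X_comp, C_comp]
    ring
  rw [h2, sub_eq_iff_eq_add.1 hF]
  have h3 : C ((X : Polynomial κ) ^ (2 * ν + 2)) = C (X ^ (2 * ν + 1)) * C X := by
    rw [← C_mul]
    congr 1
  rw [h3]
  ring

theorem exists_value {v : Valuation H Γ₀} (hH : HField κ v) (hs : SepSer κ) {h : H} (h1 : v h < 1)
    (Y : AP κ) : ∃ y : H, Asy v h (Y : PowerSeries κ) y ∧ AlgH κ h y := by
  have hv := hH.nice
  obtain ⟨P, hP0, hP1⟩ := hs Y Y.2
  obtain ⟨ν, U, F, hU, hN⟩ := newton_step hP0 hP1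
  have hNE : ∀ E : Polynomial κ, P.eval (PowerSeries.trunc (2 * ν + 2) (Y : PowerSeries κ) +
      X ^ (ν + 1) * E) = X ^ (2 * ν + 1) * (U * E + X * F.eval E) := by
    intro E
    have h2 := congrArg (eval E) hN
    rw [eval_comp, eval_add, eval_mul, eval_mul, eval_add, eval_mul, eval_mul, eval_C, eval_C,
      eval_C, eval_C, eval_C, eval_X] at h2
    exact h2
  have hPne : P ≠ 0 := by
    rintro rfl
    exact hP1 (by rw [derivative_zero, map_zero])
  set s : VR hv := ⟨h, h1.le⟩ with hs'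
  set α : Polynomial κ →+* VR hv := (aeval s : Polynomial κ →ₐ[κ] VR hv).toRingHom with hα
  have hαc : ∀ q : Polynomial κ, ((α q : VR hv) : H) = aeval h q := fun q =>
    aeval_subalgebra_coe q (VR hv) s
  have hαX : α X = s := by
    rw [hα]
    exact aeval_X s
  -- values of units
  have hunit : ∀ a b : VR hv, v (a : H) = 1 → v ((a : H) + h * (b : H)) = 1 := by
    intro a b ha
    rw [v.map_add_eq_of_lt_left, ha]
    rw [ha, map_mul]
    exact mul_lt_one_of_lt_of_le h1 b.2
  have hUv : v ((α U : VR hv) : H) = 1 := by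
    have e : U = C (U.coeff 0) + X * U.divX := by
      conv_lhs => rw [← Polynomial.X_mul_divX_add U]
      rw [add_comm]
    rw [e, map_add, map_mul, hαX]
    have h2 : α (C (U.coeff 0)) = algebraMap κ (VR hv) (U.coeff 0) := by
      rw [hα]
      exact aeval_C s _
    rw [h2]
    exact hunit _ (α U.divX) (hv.triv _ hU)
  -- the henselian polynomial
  set FR := F.map α with hFR
  set FH : Polynomial H := FR.map (VR hv).val.toRingHom with hFH
  set Q : Polynomial H := C ((α U : VR hv) : H) * X + C h * FH with hQ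
  have hFHc : ∀ i, FH.coeff i = ((FR.coeff i : VR hv) : H) := by
    intro i
    rw [hFH, coeff_map]
    rfl
  have hQc : ∀ i, v (Q.coeff i) ≤ 1 := by
    intro i
    rw [hQ, coeff_add, coeff_C_mul, coeff_C_mul, hFHc, coeff_X]
    apply v.map_add_le
    · split_ifs
      · rw [mul_one]; exact hUv.le
      · simp
    · rw [map_mul]
      exact mul_le_one' h1.le (FR.coeff i).2
  obtain ⟨T, hT1, hT2⟩ := hH.hens Q hQc (by
      rw [← coeff_zero_eq_eval_zero, hQ, coeff_add, coeff_C_mul, coeff_C_mul, hFHc, coeff_X_zero,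
        mul_zero, zero_add, map_mul]
      exact mul_lt_one_of_lt_of_le h1 (FR.coeff 0).2)
    (by
      rw [hQ, coeff_add, coeff_C_mul, coeff_C_mul, hFHc, coeff_X_one, mul_one]
      exact hunit (α U) (FR.coeff 1) hUv)
  set t : VR hv := ⟨T, hT1.le⟩ with ht
  have hTR : α U * t + s * FR.eval t = 0 := by
    apply Subtype.ext
    rw [hQ, eval_add, eval_mul, eval_mul, eval_C, eval_C, eval_X] at hT2
    have h3 : FH.eval T = ((FR.eval t : VR hv) : H) := by
      rw [hFH, eval_map]
      exact (hom_eval₂ FR (RingHom.id _) (VR hv).val.toRingHom t).symm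
    rw [h3] at hT2
    exact hT2
  -- the value
  set y : VR hv := α (PowerSeries.trunc (2 * ν + 2) (Y : PowerSeries κ)) + s ^ (ν + 1) * t with hy
  have key : ∀ m : ℕ, s ^ m ∣ y - α (PowerSeries.trunc (m + 2 * ν + 2) (Y : PowerSeries κ)) := by
    intro m
    set N := m + 2 * ν + 2 with hNdef
    obtain ⟨E, hE⟩ : (X : Polynomial κ) ^ (2 * ν + 2) ∣
        PowerSeries.trunc N (Y : PowerSeries κ) - PowerSeries.trunc (2 * ν + 2) (Y : PowerSeries κ) := by
      rw [Polynomial.X_pow_dvd_iff]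
      intro i hi
      rw [coeff_sub, PowerSeries.coeff_trunc, PowerSeries.coeff_trunc, if_pos hi,
        if_pos (by omega), sub_self]
    have hE' : PowerSeries.trunc N (Y : PowerSeries κ) =
        PowerSeries.trunc (2 * ν + 2) (Y : PowerSeries κ) + X ^ (ν + 1) * (X ^ (ν + 1) * E) := by
      rw [sub_eq_iff_eq_add.1 hE]
      ring
    have h3 : (X : Polynomial κ) ^ N ∣ P.eval (PowerSeries.trunc N (Y : PowerSeries κ)) := by
      have h4 := eval_trunc (Y : PowerSeries κ) N P
      rw [hP0, zero_sub, dvd_neg] at h4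
      exact X_pow_dvd_coe.1 h4
    rw [hE'] at h3
    obtain ⟨E', hE'def⟩ : ∃ E' : Polynomial κ, E' = X ^ (ν + 1) * E := ⟨_, rfl⟩
    rw [← hE'def] at h3 hE'
    rw [hNE] at h3
    have h5 : (X : Polynomial κ) ^ (m + 1) ∣ U * E' + X * F.eval E' := by
      have h6 : (X : Polynomial κ) ^ N = X ^ (2 * ν + 1) * X ^ (m + 1) := by
        rw [← pow_add]; congr 1; omega
      rw [h6] at h3
      exact (mul_dvd_mul_iff_left (pow_ne_zero _ X_ne_zero)).1 h3
    have h7 : s ^ (m + 1) ∣ α U * α E' + s * FR.eval (α E') := by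
      have h8 := map_dvd α h5
      rw [map_pow, map_add, map_mul, map_mul, hαX] at h8
      have h9 : α (F.eval E') = FR.eval (α E') := by
        rw [hFR, eval_map, eval₂_hom]
      rwa [h9] at h8
    obtain ⟨R, hR⟩ : t - α E' ∣ FR.eval t - FR.eval (α E') := sub_dvd_eval_sub _ _ _
    have h10 : s ^ (m + 1) ∣ (t - α E') * (α U + s * R) := by
      have h11 : (t - α E') * (α U + s * R) = -(α U * α E' + s * FR.eval (α E')) := by
        linear_combination hTR - s * hR
      rw [h11]
      exact h7.neg_right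
    have h12 : s ^ (m + 1) ∣ t - α E' := by
      have h13 : v (((α U + s * R : VR hv)) : H) = 1 := hunit (α U) R hUv
      have h14 : ((α U + s * R : VR hv) : H) ≠ 0 := by
        intro h0
        rw [h0, map_zero] at h13
        exact zero_ne_one h13
      set W : VR hv := ⟨((α U + s * R : VR hv) : H)⁻¹, by
        change v _ ≤ 1
        rw [map_inv₀, h13, inv_one]⟩ with hW
      have h15 : (α U + s * R) * W = 1 := by
        apply Subtype.ext
        exact mul_inv_cancel₀ h14
      have h16 := h10.mul_right W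
      rw [mul_assoc, h15, mul_one] at h16
      exact h16
    have h17 : y - α (PowerSeries.trunc N (Y : PowerSeries κ)) = s ^ (ν + 1) * (t - α E') := by
      rw [hE', hy, map_add, map_mul, map_pow, hαX]
      ring
    rw [h17]
    exact Dvd.dvd.mul_left ((pow_dvd_pow s (Nat.le_succ m)).trans h12) _
  have hexp : Exp s y (Y : PowerSeries κ) := by
    intro m
    have h3 : s ^ m ∣ aeval s (PowerSeries.trunc (m + 2 * ν + 2) (Y : PowerSeries κ) -
        PowerSeries.trunc m (Y : PowerSeries κ)) := by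
      apply aeval_dvd_of_coeff
      intro i hi
      rw [coeff_sub, PowerSeries.coeff_trunc, PowerSeries.coeff_trunc, if_pos hi,
        if_pos (by omega), sub_self]
    have h4 := dvd_add (key m) h3
    rw [map_sub] at h4
    convert h4 using 1
    have h5 : α (PowerSeries.trunc (m + 2 * ν + 2) (Y : PowerSeries κ)) =
      aeval s (PowerSeries.trunc (m + 2 * ν + 2) (Y : PowerSeries κ)) := rfl
    rw [h5]
    ring
  refine ⟨(y : H), (asy_iff_exp hv s y _).2 hexp, P, hPne, ?_⟩
  -- `P(h, y) = 0`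
  have h3 : (P.map α).eval y = 0 := by
    have h4 := congrArg (fun q => (Polynomial.map α q).eval t) hN
    simp only [Polynomial.map_comp, Polynomial.map_mul, Polynomial.map_add, map_C, map_X, eval_comp,
      eval_add, eval_mul, eval_C, eval_X, map_pow, Polynomial.map_pow, eval_pow, hαX] at h4
    rw [hy, h4, hTR, mul_zero]
  have h5 : eval₂RingHom (algebraMap κ H) h = (VR hv).val.toRingHom.comp α := by
    apply Polynomial.ringHom_ext
    · intro a
      rw [coe_eval₂RingHom, eval₂_C]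
      have : α (C a) = algebraMap κ (VR hv) a := by
        rw [hα]
        exact aeval_C s _
      rw [RingHom.comp_apply, this]
      rfl
    · rw [coe_eval₂RingHom, eval₂_X, RingHom.comp_apply, hαX]
      rfl
  have h6 : eval₂ ((VR hv).val.toRingHom.comp α) (y : H) P =
      (VR hv).val.toRingHom (eval₂ α y P) := (hom_eval₂ P α (VR hv).val.toRingHom y).symm
  rw [ev2, coe_eval₂RingHom, h5, h6, ← eval_map, h3, map_zero]

theorem exists_Phi {v : Valuation H Γ₀} (hH : HField κ v) (hs : SepSer κ) {h : H} (h1 : v h < 1)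
    (h0 : h ≠ 0) : ∃ Φ : AP κ →ₐ[κ] H, (∀ Y : AP κ, Asy v h (Y : PowerSeries κ) (Φ Y)) ∧
      (∀ Y : AP κ, (Y : PowerSeries κ) = PowerSeries.X → Φ Y = h) ∧ Function.Injective Φ ∧
      ∀ Y, AlgH κ h (Φ Y) := by
  have hv := hH.nice
  choose φ hφ1 hφ2 using fun Y : AP κ => exists_value hH hs h1 Y
  have huniq : ∀ (Y : AP κ) (y : H), Asy v h (Y : PowerSeries κ) y → AlgH κ h y → φ Y = y :=
    fun Y y h3 h4 => asy_unique hv h1 h0 (hφ1 Y) h3 (hφ2 Y) h4
  have hadd : ∀ Y Y' : AP κ, φ (Y + Y') = φ Y + φ Y' := by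
    intro Y Y'
    apply huniq
    · exact asy_add hv h1.le (hφ1 Y) (hφ1 Y')
    · rw [algH_iff]
      exact add_mem (hφ2 Y) (hφ2 Y')
  have hmul : ∀ Y Y' : AP κ, φ (Y * Y') = φ Y * φ Y' := by
    intro Y Y'
    apply huniq
    · exact asy_mul hv h1.le (hφ1 Y) (hφ1 Y')
    · rw [algH_iff]
      exact mul_mem (hφ2 Y) (hφ2 Y')
  have halg : ∀ a : κ, φ (algebraMap κ (AP κ) a) = algebraMap κ H a := by
    intro a
    apply huniq
    · exact asy_algebraMap hv h1.le a
    · exact mem_algField_const h a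
  let Φ : AP κ →ₐ[κ] H :=
    { toFun := φ
      map_one' := by
        have := halg 1
        rwa [map_one, map_one] at this
      map_mul' := hmul
      map_zero' := by
        have := halg 0
        rwa [map_zero, map_zero] at this
      map_add' := hadd
      commutes' := halg }
  refine ⟨Φ, hφ1, ?_, ?_, hφ2⟩
  · intro Y hY
    apply huniq
    · rw [hY]
      exact asy_X hv h1.le
    · exact algH_self h
  · rw [injective_iff_map_eq_zero]
    intro Y hY
    have hY' : φ Y = 0 := hY
    by_contra hne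
    have hne' : (Y : PowerSeries κ) ≠ 0 := fun h3 => hne (Subtype.ext h3)
    obtain ⟨m, hm1, hm2⟩ : ∃ m : ℕ, (∀ i < m, PowerSeries.coeff i (Y : PowerSeries κ) = 0) ∧
        PowerSeries.coeff m (Y : PowerSeries κ) ≠ 0 := by
      classical
      have hex : ∃ m, PowerSeries.coeff m (Y : PowerSeries κ) ≠ 0 := by
        by_contra hcon
        push Not at hcon
        exact hne' (PowerSeries.ext fun m => by simpa using hcon m)
      exact ⟨Nat.find hex, fun m hm => not_not.1 (Nat.find_min hex hm), Nat.find_spec hex⟩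
    obtain ⟨r, hr, e⟩ := hφ1 Y (m + 1)
    have h3 : PowerSeries.trunc (m + 1) (Y : PowerSeries κ) =
        monomial m (PowerSeries.coeff m (Y : PowerSeries κ)) := by
      ext i
      rw [PowerSeries.coeff_trunc, coeff_monomial]
      split_ifs with h4 h5 h5
      · rw [h5]
      · exact hm1 i (by omega)
      · omega
      · rfl
    rw [hY', h3, aeval_monomial, pow_succ] at e
    have h4 : h ^ m * (algebraMap κ H (PowerSeries.coeff m (Y : PowerSeries κ)) + h * r) = 0 := by
      linear_combination -e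
    rcases mul_eq_zero.1 h4 with h5 | h5
    · exact pow_ne_zero m h0 h5
    · have h6 := hv.triv _ hm2
      have h7 : algebraMap κ H (PowerSeries.coeff m (Y : PowerSeries κ)) = -(h * r) := by
        linear_combination h5
      rw [h7, Valuation.map_neg, map_mul] at h6
      exact absurd h6 (ne_of_lt (mul_lt_one_of_lt_of_le h1 hr))

end phi

end BF80
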