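import Pool.Agent.BF80.Arcs

/-!
# Arcs: the expansion of the elements of a function field in powers of a uniformizer
-/

set_option autoImplicit false
set_option maxSynthPendingDepth 10
set_option linter.unusedSectionVars false

open Polynomial

namespace BF80

open FT80

section psi
variable {κ H Γ₀ : Type*} [Field κ] [Field H] [Algebra κ H] [LinearOrderedCommGroupWithZero Γ₀]

theorem w_mem_EF (w : H) (S : Finset H) : w ∈ EF κ w S := by
  have h1 : w ∈ IntermediateField.adjoin κ {w} :=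
    IntermediateField.mem_adjoin_simple_self κ w
  exact (IntermediateField.adjoin (IntermediateField.adjoin κ {w}) (S : Set H)).algebraMap_mem
    ⟨w, h1⟩

theorem mem_EF (w : H) (S : Finset H) {s : H} (hs : s ∈ S) : s ∈ EF κ w S :=
  IntermediateField.subset_adjoin (IntermediateField.adjoin κ {w}) (S : Set H)
    (Finset.mem_coe.2 hs)

/-- the elements of the field generated by `w` and `S` are algebraic over `κ(w)` -/
theorem EF_algH {w : H} {S : Finset H} (hS : ∀ s ∈ S, AlgH κ w s) {r : H} (hr : r ∈ EF κ w S) :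
    AlgH κ w r := by
  rw [EF, IntermediateField.adjoin_adjoin_left] at hr
  let A : IntermediateField κ H :=
    { (algField (ev1 (algebraMap κ H) w)) with
      algebraMap_mem' := fun r => mem_algField_const w r }
  have hA : ∀ x, x ∈ A ↔ AlgH κ w x := fun x => Iff.rfl
  have h1 : IntermediateField.adjoin κ ({w} ∪ (S : Set H)) ≤ A := by
    rw [IntermediateField.adjoin_le_iff]
    rintro x (hx | hx)
    · rw [Set.mem_singleton_iff] at hx
      rw [hx]
      exact algH_self w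
    · exact hS x (Finset.mem_coe.1 hx)
  exact h1 hr

/-- each element of the field is a root of a nonzero polynomial of bounded degree -/
theorem EF_poly {w : H} {S : Finset H}
    (hS : ∀ s ∈ S, IsIntegral (IntermediateField.adjoin κ {w}) s) :
    ∃ d : ℕ, ∀ h ∈ EF κ w S, ∃ P : Polynomial (IntermediateField.adjoin κ {w}),
      P ≠ 0 ∧ P.natDegree ≤ d ∧ aeval h P = 0 := by
  have : FiniteDimensional (IntermediateField.adjoin κ {w})
      (IntermediateField.adjoin (IntermediateField.adjoin κ {w}) (S : Set H)) :=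
    IntermediateField.finiteDimensional_adjoin (S := (S : Set H))
      (fun x hx => hS x (Finset.mem_coe.1 hx))
  refine ⟨Module.finrank (IntermediateField.adjoin κ {w})
    (IntermediateField.adjoin (IntermediateField.adjoin κ {w}) (S : Set H)), ?_⟩
  intro h hh
  let h' : IntermediateField.adjoin (IntermediateField.adjoin κ {w}) (S : Set H) := ⟨h, hh⟩
  have hint : IsIntegral (IntermediateField.adjoin κ {w}) h' := IsIntegral.of_finite _ _
  refine ⟨minpoly _ h', minpoly.ne_zero hint, minpoly.natDegree_le h', ?_⟩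
  have h1 : (aeval h' (minpoly (IntermediateField.adjoin κ {w}) h')) = 0 := minpoly.aeval _ _
  have h2 := congrArg (algebraMap (IntermediateField.adjoin (IntermediateField.adjoin κ {w})
    (S : Set H)) H) h1
  rw [map_zero, ← Polynomial.aeval_algebraMap_apply] at h2
  exact h2

variable {v : Valuation H Γ₀} (hv : Nice κ v)
include hv

theorem exists_unif_EF {w : H} (hw : v w < 1) (hw0 : w ≠ 0) {S : Finset H}
    (hS : ∀ s ∈ S, IsIntegral (IntermediateField.adjoin κ {w}) s) :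
    ∃ π ∈ EF κ w S, π ≠ 0 ∧ v π < 1 ∧ ∀ h ∈ EF κ w S, h ≠ 0 → ∃ q : ℤ, v h = v π ^ q := by
  obtain ⟨d, hd⟩ := EF_poly hS
  have hvw : v w ≠ 0 := (Valuation.ne_zero_iff v).2 hw0
  have hinj := zpow_right_injective₀ (a := v w) (zero_lt_iff.2 hvw) hw.ne
  have hN0 : d.factorial ≠ 0 := Nat.factorial_ne_zero d
  have key : ∀ h ∈ EF κ w S, h ≠ 0 → ∃ a : ℤ, v h ^ d.factorial = v w ^ a := by
    intro h hh h0
    obtain ⟨P, hP, hPd, hPh⟩ := hd h hh
    obtain ⟨b, hb1, hb2, ν, hν⟩ := hv.val_pow hw hw0 P hP h0 hPh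
    obtain ⟨c, hc⟩ := Nat.dvd_factorial hb1 (hb2.trans hPd)
    refine ⟨ν * c, ?_⟩
    rw [hc, pow_mul, hν, zpow_mul, zpow_natCast]
  let T : Set ℕ := {a | 0 < a ∧ ∃ h ∈ EF κ w S, h ≠ 0 ∧ v h ^ d.factorial = v w ^ (a : ℤ)}
  have hT : T.Nonempty := ⟨d.factorial, Nat.pos_of_ne_zero hN0, w, w_mem_EF w S, hw0, by
    rw [zpow_natCast]⟩
  classical
  obtain ⟨hg0, π, hπE, hπ0, hπ⟩ := Nat.sInf_mem hT
  set g : ℕ := sInf T with hg
  have hmin : ∀ a ∈ T, g ≤ a := fun a ha => Nat.sInf_le ha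
  have hvπ : v π ≠ 0 := (Valuation.ne_zero_iff v).2 hπ0
  have hπ1 : v π < 1 := by
    have h1 : v π ^ d.factorial < 1 := by
      rw [hπ, zpow_natCast]
      exact pow_lt_one₀ zero_le hw hg0.ne'
    by_contra h2
    exact absurd h1 (not_lt.2 (one_le_pow₀ (not_lt.1 h2)))
  refine ⟨π, hπE, hπ0, hπ1, ?_⟩
  intro h hh h0
  obtain ⟨a, ha⟩ := key h hh h0
  have hvh : v h ≠ 0 := (Valuation.ne_zero_iff v).2 h0
  refine ⟨a / g, ?_⟩
  have hdiv : h / π ^ (a / g) ∈ EF κ w S := div_mem hh (zpow_mem hπE _)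
  have hne : h / π ^ (a / g) ≠ 0 := div_ne_zero h0 (zpow_ne_zero _ hπ0)
  have hgz : (g : ℤ) ≠ 0 := by exact_mod_cast hg0.ne'
  have hval : v (h / π ^ (a / g)) ^ d.factorial = v w ^ (a % g) := by
    rw [map_div₀, map_zpow₀, div_pow, ha, ← zpow_natCast (v π ^ (a / (g : ℤ))), ← zpow_mul,
      mul_comm (a / (g : ℤ)), zpow_mul, zpow_natCast, hπ, ← zpow_mul, ← zpow_sub₀ hvw]
    congr 1
    rw [Int.emod_def]
  have hr0 : a % (g : ℤ) = 0 := by
    by_contra hne0
    have h1 : 0 ≤ a % (g : ℤ) := Int.emod_nonneg _ hgz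
    have h2 : a % (g : ℤ) < g := Int.emod_lt_of_pos _ (by exact_mod_cast hg0)
    have h3 : (a % (g : ℤ)).toNat ∈ T := by
      refine ⟨by omega, _, hdiv, hne, ?_⟩
      rw [hval, Int.toNat_of_nonneg h1]
    have := hmin _ h3
    omega
  rw [hr0, zpow_zero] at hval
  have h4 : v (h / π ^ (a / g)) = 1 := by
    rcases lt_trichotomy (v (h / π ^ (a / (g : ℤ)))) 1 with h5 | h5 | h5
    · exact absurd hval (pow_lt_one₀ zero_le h5 hN0).ne
    · exact h5
    · exact absurd hval (one_lt_pow₀ h5 hN0).ne'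
  rw [map_div₀, map_zpow₀, div_eq_one_iff_eq (zpow_ne_zero _ hvπ)] at h4
  exact h4

theorem exists_rho_RF {w : H} (hw : v w < 1) (hw0 : w ≠ 0) {S : Finset H}
    (hS : ∀ s ∈ S, IsIntegral (IntermediateField.adjoin κ {w}) s) :
    ∃ ρ : RF hv w S →ₐ[κ] κ, ∀ r : RF hv w S, v ((r : H) - algebraMap κ H (ρ r)) < 1 := by
  obtain ⟨d, hd⟩ := EF_poly hS
  have key : ∀ r : RF hv w S, ∃ c : κ, v ((r : H) - algebraMap κ H c) < 1 := by
    intro r
    obtain ⟨P, hP, -, hPh⟩ := hd r r.2.1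
    exact hv.residue hw hw0 P hP r.2.2 hPh
  choose ρ hρ using key
  refine ⟨{ toFun := ρ, map_one' := ?_, map_mul' := ?_, map_zero' := ?_, map_add' := ?_,
            commutes' := ?_ }, hρ⟩
  · exact hv.uniq (hρ 1) (by simp)
  · intro a b
    apply hv.uniq (hρ (a * b))
    have e : ((a * b : RF hv w S) : H) - algebraMap κ H (ρ a * ρ b) =
        ((a : H) - algebraMap κ H (ρ a)) * b + algebraMap κ H (ρ a) *
          ((b : H) - algebraMap κ H (ρ b)) := by
      rw [map_mul]; push_cast; ring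
    rw [e]
    apply v.map_add_lt
    · rw [map_mul]
      exact mul_lt_one_of_lt_of_le (hρ a) b.2.2
    · rw [map_mul]
      exact mul_lt_one_of_nonneg_of_lt_one_right (hv.le_one _) zero_le (hρ b)
  · exact hv.uniq (hρ 0) (by simp)
  · intro a b
    apply hv.uniq (hρ (a + b))
    have e : ((a + b : RF hv w S) : H) - algebraMap κ H (ρ a + ρ b) =
        ((a : H) - algebraMap κ H (ρ a)) + ((b : H) - algebraMap κ H (ρ b)) := by
      rw [map_add]; push_cast; ring
    rw [e]
    exact v.map_add_lt (hρ a) (hρ b)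
  · intro a
    apply hv.uniq (hρ _)
    simp

theorem exists_Psi {w : H} (hw : v w < 1) (hw0 : w ≠ 0)
    (S : Finset H) (hS : ∀ s ∈ S, AlgH κ w s) :
    ∃ π ∈ EF κ w S, π ≠ 0 ∧ v π < 1 ∧ (∀ r ∈ EF κ w S, AlgH κ π r) ∧
      ∃ Ψ : RF hv w S →ₐ[κ] AP κ, Function.Injective Ψ ∧
        (∀ r : RF hv w S, Asy v π (Ψ r : PowerSeries κ) (r : H)) ∧
        ∀ r : RF hv w S, (r : H) = π → (Ψ r : PowerSeries κ) = PowerSeries.X := by
  have hS' : ∀ s ∈ S, IsIntegral (IntermediateField.adjoin κ {w}) s := by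
    intro s hs
    obtain ⟨P, hP, hPs⟩ := algH_poly hv hw hw0 (hS s hs)
    exact IsAlgebraic.isIntegral ⟨P, hP, hPs⟩
  obtain ⟨π, hπE, hπ0, hπ1, hπ⟩ := exists_unif_EF hv hw hw0 hS'
  obtain ⟨ρ, hρ⟩ := exists_rho_RF hv hw hw0 hS'
  have hvπ : v π ≠ 0 := (Valuation.ne_zero_iff v).2 hπ0
  have hvπ' : 0 < v π := zero_lt_iff.2 hvπ
  have halg : ∀ r ∈ EF κ w S, AlgH κ π r := by
    intro r hr
    exact algH_trans (transc_of_lt hv hw hw0) (algH_symm (EF_algH hS hπE)) (EF_algH hS hr)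
  refine ⟨π, hπE, hπ0, hπ1, halg, ?_⟩
  -- sign of exponents
  have hpos : ∀ q : ℤ, v π ^ q < 1 → 1 ≤ q := by
    intro q hq
    by_contra hlt
    have h1 : (1 : Γ₀) ≤ v π ^ q := by
      have : q ≤ 0 := by omega
      obtain ⟨n, hn⟩ := Int.exists_eq_neg_ofNat this
      rw [hn, zpow_neg, zpow_natCast]
      exact (one_le_inv₀ (pow_pos hvπ' n)).2 (pow_le_one' hπ1.le n)
    exact absurd hq (not_lt.2 h1)
  have hnonneg : ∀ q : ℤ, v π ^ q ≤ 1 → 0 ≤ q := by
    intro q hq
    by_contra hlt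
    have h1 : (1 : Γ₀) < v π ^ q := by
      have : q ≤ 0 := by omega
      obtain ⟨n, hn⟩ := Int.exists_eq_neg_ofNat this
      have hn0 : n ≠ 0 := by omega
      rw [hn, zpow_neg, zpow_natCast]
      exact (one_lt_inv₀ (pow_pos hvπ' n)).2 (pow_lt_one₀ zero_le hπ1 hn0)
    exact absurd hq (not_le.2 h1)
  let πR : RF hv w S := ⟨π, hπE, hπ1.le⟩
  have hunit : ∀ r : RF hv w S, v (r : H) = 1 → ρ r ≠ 0 := by
    intro r hr h0
    have := hρ r
    rw [h0, map_zero, sub_zero, hr] at this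
    exact lt_irrefl _ this
  have hπR0 : πR ≠ 0 := fun h => hπ0 (congrArg Subtype.val h)
  have hker : ∀ r : RF hv w S, ρ r = 0 ↔ πR ∣ r := by
    intro r
    constructor
    · intro h0
      have h1 : v (r : H) < 1 := by
        have := hρ r
        rwa [h0, map_zero, sub_zero] at this
      rcases eq_or_ne (r : H) 0 with hr0 | hr0
      · have : r = 0 := Subtype.ext hr0
        rw [this]; exact dvd_zero _
      · obtain ⟨q', hq'⟩ := hπ r r.2.1 hr0
        have h2 : 1 ≤ q' := hpos q' (by rw [← hq']; exact h1)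
        have h3 : v ((r : H) / π) ≤ 1 := by
          rw [map_div₀, hq', div_eq_mul_inv, ← zpow_sub_one₀ hvπ]
          obtain ⟨n, hn⟩ := Int.eq_ofNat_of_zero_le (by omega : 0 ≤ q' - 1)
          rw [hn, zpow_natCast]
          exact pow_le_one' hπ1.le n
        refine ⟨⟨(r : H) / π, div_mem r.2.1 hπE, h3⟩, ?_⟩
        apply Subtype.ext
        show (r : H) = π * ((r : H) / π)
        field_simp
    · rintro ⟨r', hr'⟩
      apply hv.uniq (hρ r)
      rw [map_zero, sub_zero, hr']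
      show v (π * (r' : H)) < 1
      rw [map_mul]
      exact mul_lt_one_of_lt_of_le hπ1 r'.2.2
  obtain ⟨Ψ, hΨ1, hΨ2⟩ := digits hπR0 ρ hker
  have hΨinj : Function.Injective Ψ := by
    rw [injective_iff_map_eq_zero]
    intro r hr
    by_contra hne
    have hr0 : (r : H) ≠ 0 := fun h => hne (Subtype.ext h)
    obtain ⟨q', hq'⟩ := hπ r r.2.1 hr0
    have h2 : 0 ≤ q' := hnonneg q' (by rw [← hq']; exact r.2.2)
    obtain ⟨n, rfl⟩ := Int.eq_ofNat_of_zero_le h2
    rw [zpow_natCast] at hq'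
    have hv1 : v ((r : H) / π ^ n) = 1 := by
      rw [map_div₀, map_pow, ← hq', div_self]
      exact (Valuation.ne_zero_iff v).2 hr0
    let r' : RF hv w S := ⟨(r : H) / π ^ n, div_mem r.2.1 (pow_mem hπE _), hv1.le⟩
    have hπn : π ^ n ≠ 0 := pow_ne_zero _ hπ0
    have hrr : r = πR ^ n * r' := by
      apply Subtype.ext
      show (r : H) = π ^ n * ((r : H) / π ^ n)
      field_simp
    rw [hrr, map_mul, map_pow, hΨ1] at hr
    rcases mul_eq_zero.1 hr with h3 | h3
    · exact (pow_ne_zero n PowerSeries.X_ne_zero) h3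
    · have h4 := hΨ2 r'
      rw [h3, map_zero] at h4
      exact hunit r' hv1 h4.symm
  -- divisibility
  have hdvd : ∀ (n : ℕ) (s : RF hv w S), PowerSeries.X ^ n ∣ Ψ s → πR ^ n ∣ s := by
    intro n
    induction n with
    | zero => intro s _; rw [pow_zero]; exact one_dvd _
    | succ n ih =>
      intro s hs
      obtain ⟨s', rfl⟩ := ih s (dvd_trans (pow_dvd_pow _ (Nat.le_succ n)) hs)
      rw [map_mul, map_pow, hΨ1, pow_succ] at hs
      have h1 := (mul_dvd_mul_iff_left (pow_ne_zero n PowerSeries.X_ne_zero)).1 hs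
      rw [PowerSeries.X_dvd_iff, hΨ2] at h1
      rw [pow_succ]
      exact mul_dvd_mul_left _ ((hker s').1 h1)
  -- algebraicity
  have hΨalg : ∀ r : RF hv w S, Ψ r ∈ AP κ := by
    intro r
    obtain ⟨P, hP, hPr⟩ := halg r r.2.1
    refine ⟨P, hP, ?_⟩
    have e1 : ((ev2 (algebraMap κ (RF hv w S)) πR r P : RF hv w S) : H) =
        ev2 (algebraMap κ H) π r P :=
      hom_ev2 (algebraMap κ (RF hv w S)) (RF hv w S).val.toRingHom πR r P
    have h1 : ev2 (algebraMap κ (RF hv w S)) πR r P = 0 := by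
      apply Subtype.ext
      rw [e1, hPr]
      rfl
    have h2 := hom_ev2 (algebraMap κ (RF hv w S)) Ψ.toRingHom πR r P
    have h3 : (Ψ.toRingHom.comp (algebraMap κ (RF hv w S))) = PowerSeries.C (R := κ) := by
      ext1 a
      exact AlgHom.commutes Ψ a
    rw [h3, h1, map_zero] at h2
    have h4 : Ψ.toRingHom πR = PowerSeries.X := hΨ1
    rw [h4] at h2
    exact h2.symm
  refine ⟨Ψ.codRestrict (AP κ) hΨalg, ?_, ?_, ?_⟩
  · intro a b hab
    exact hΨinj (congrArg Subtype.val hab)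
  · intro r n
    have h1 : PowerSeries.X ^ n ∣ Ψ (r - aeval πR (PowerSeries.trunc n (Ψ r))) := by
      rw [map_sub, ← Polynomial.aeval_algHom_apply, hΨ1]
      have h2 : aeval (PowerSeries.X : PowerSeries κ) (PowerSeries.trunc n (Ψ r)) =
          ((PowerSeries.trunc n (Ψ r) : Polynomial κ) : PowerSeries κ) := by
        rw [aeval_def, ← Polynomial.eval₂_C_X_eq_coe]
        rfl
      rw [h2, PowerSeries.X_pow_dvd_iff]
      intro m hm
      rw [map_sub, Polynomial.coeff_coe, PowerSeries.coeff_trunc, if_pos hm, sub_self]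
    obtain ⟨s, hs⟩ := hdvd n _ h1
    refine ⟨(s : H), s.2.2, ?_⟩
    have h3 := congrArg (fun z : RF hv w S => (z : H)) hs
    have h4 : ((aeval πR (PowerSeries.trunc n (Ψ r)) : RF hv w S) : H) =
        aeval π (PowerSeries.trunc n (Ψ r)) := by
      have := Polynomial.aeval_algHom_apply (RF hv w S).val πR (PowerSeries.trunc n (Ψ r))
      exact this.symm
    have h5 : (r : H) - aeval π (PowerSeries.trunc n (Ψ r)) = π ^ n * (s : H) := by
      rw [← h4]
      exact h3
    have h6 : ((Ψ.codRestrict (AP κ) hΨalg r : AP κ) : PowerSeries κ) = Ψ r := rfl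
    rw [h6, ← h5]
    ring
  · intro r hr
    have h1 : r = πR := Subtype.ext hr
    rw [h1]
    exact hΨ1

end psi

end BF80
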