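import Pool.Agent.BF80.Up

/-!
# Back and forth: the abstract part
-/

set_option autoImplicit false
set_option maxSynthPendingDepth 10

open Polynomial Filter

namespace BF80

open FT80

/-! ### Algebraic closure in a field -/

section acl

variable {R L : Type*} [CommRing R] [IsDomain R] [Field L] {σ : R →+* L}

theorem alg1_map (σ : R →+* L) (r : R) : Alg1 σ (σ r) := by
  let _ := σ.toAlgebra
  exact isAlgebraic_algebraMap (R := R) (A := L) r

omit [IsDomain R] in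
theorem bfEv1_C (σ : R →+* L) (x : L) (r : R) : ev1 σ x (C r) = σ r := by
  simp [ev1]

omit [IsDomain R] in
theorem bfEv1_X (σ : R →+* L) (x : L) : ev1 σ x X = x := by
  simp [ev1]

omit [IsDomain R] in
theorem alg1_lift {x u : L} (h : Alg1 σ u) : Alg1 (ev1 σ x) u := by
  obtain ⟨q, hq, hu⟩ := h
  refine ⟨q.map C, ?_, ?_⟩
  · rwa [ne_eq, Polynomial.map_eq_zero_iff C_injective]
  · have e : (ev1 σ x).comp C = σ := RingHom.ext fun r => bfEv1_C σ x r
    rw [ev1, coe_eval₂RingHom, eval₂_map, e]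
    exact hu

theorem alg1_trans {σ : R →+* L} {N : Polynomial L} (hN : N ≠ 0) (hc : ∀ i, Alg1 σ (N.coeff i))
    {u : L} (hu : N.eval u = 0) : Alg1 σ u := by
  let A := algField σ
  have hev : ∀ r, σ r ∈ A := fun r => alg1_map σ r
  let _ : Algebra R L := σ.toAlgebra
  let _ : Algebra R A := (σ.codRestrict A hev).toAlgebra
  have : IsScalarTower R A L := IsScalarTower.of_algebraMap_eq fun q => rfl
  have : Algebra.IsAlgebraic R A := by
    constructor
    intro a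
    have h2 : IsAlgebraic R (algebraMap A L a) := a.2
    exact (isAlgebraic_algebraMap_iff (algebraMap A L).injective).mp h2
  have hl : N ∈ lifts A.subtype := by
    rw [lifts_iff_coeff_lifts]
    intro n
    exact ⟨⟨N.coeff n, hc n⟩, rfl⟩
  obtain ⟨N', hN'⟩ := (mem_lifts N).1 hl
  have h3 : IsAlgebraic A u := by
    refine ⟨N', ?_, ?_⟩
    · rintro rfl
      rw [Polynomial.map_zero] at hN'
      exact hN hN'.symm
    · rw [aeval_def, ← eval_map]
      have : (algebraMap A L) = A.subtype := rfl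
      rw [this, hN']
      exact hu
  exact h3.restrictScalars R

omit [IsDomain R] in
theorem ev2_swap (σ : R →+* L) (x z : L) (q : Polynomial (Polynomial R)) :
    ev1 (ev1 σ z) x (Polynomial.Bivariate.swap q) = ev1 (ev1 σ x) z q := by
  have e : (ev1 (ev1 σ z) x).comp (Polynomial.Bivariate.swap (R := R)).toRingEquiv.toRingHom
      = ev1 (ev1 σ x) z := by
    apply Polynomial.ringHom_ext'
    · apply Polynomial.ringHom_ext'
      · ext r
        simp [ev1, Polynomial.Bivariate.swap_C_C]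
      · have h := Polynomial.Bivariate.swap_X (R := R)
        show ev1 (ev1 σ z) x (Polynomial.Bivariate.swap (C X)) = ev1 (ev1 σ x) z (C X)
        rw [h]
        simp [ev1]
    · have h := Polynomial.Bivariate.swap_Y (R := R)
      show ev1 (ev1 σ z) x (Polynomial.Bivariate.swap X) = ev1 (ev1 σ x) z X
      rw [h]
      simp [ev1]
  exact congrArg (fun g : Polynomial (Polynomial R) →+* L => g q) e

omit [IsDomain R] in
theorem exch {x z : L} (hz : Alg1 (ev1 σ x) z) : Alg1 (ev1 σ z) x := by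
  obtain ⟨q, hq, h⟩ := hz
  refine ⟨Polynomial.Bivariate.swap q, ?_, ?_⟩
  · intro h0
    exact hq ((EmbeddingLike.map_eq_zero_iff (f := Polynomial.Bivariate.swap (R := R))).1 h0)
  · rw [ev2_swap]
    exact h

omit [IsDomain R] in
theorem ev1_inj {z : L} (hz : ¬ Alg1 σ z) : Function.Injective (ev1 σ z) := by
  rw [injective_iff_map_eq_zero]
  intro q hq
  by_contra h
  exact hz ⟨q, h, hq⟩

omit [IsDomain R] in
theorem ev1_mem {z : L} {A : Subfield L} (hσ : ∀ r, σ r ∈ A) (hz : z ∈ A) (q : Polynomial R) :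
    ev1 σ z q ∈ A := by
  rw [ev1, coe_eval₂RingHom, eval₂_eq_sum_range]
  exact sum_mem fun i _ => mul_mem (hσ _) (pow_mem hz _)

theorem σ_mem_acl (x : L) (r : R) : σ r ∈ algField (ev1 σ x) := by
  have := alg1_map (ev1 σ x) (C r)
  rwa [bfEv1_C] at this

theorem x_mem_acl (x : L) : x ∈ algField (ev1 σ x) := by
  have := alg1_map (ev1 σ x) X
  rwa [bfEv1_X] at this

theorem acl_trans {x z u : L} (hz : Alg1 (ev1 σ x) z) (hnz : ¬ Alg1 σ z)
    (hu : Alg1 (ev1 σ z) u) : Alg1 (ev1 σ x) u := by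
  obtain ⟨q, hq, h⟩ := hu
  refine alg1_trans (N := q.map (ev1 σ z)) ?_ ?_ ?_
  · rwa [ne_eq, Polynomial.map_eq_zero_iff (ev1_inj hnz)]
  · intro i
    rw [coeff_map]
    exact ev1_mem (A := algField (ev1 σ x)) (σ_mem_acl x) hz _
  · rw [eval_map]
    exact h

theorem acl_eq {x z : L} (hnx : ¬ Alg1 σ x) (hz : Alg1 (ev1 σ x) z) (hnz : ¬ Alg1 σ z) :
    algField (ev1 σ z) = algField (ev1 σ x) := by
  ext u
  exact ⟨fun hu => acl_trans hz hnz hu, fun hu => acl_trans (exch hz) hnx hu⟩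

end acl

section hom

variable {R P Q : Type*} [CommRing R] [IsDomain R] [Field P] [Field Q] {σ : R →+* P} {τ : R →+* Q}

omit [IsDomain R] in
theorem ev1_iota {E : Subfield P} (ι : E →+* Q) (hE : ∀ r, σ r ∈ E)
    (hσ : ∀ r h, ι ⟨σ r, h⟩ = τ r) (z : E) (q : Polynomial R) :
    ι ⟨ev1 σ (z : P) q, ev1_mem hE z.2 q⟩ = ev1 τ (ι z) q := by
  have e1 : ι.comp (σ.codRestrict E hE) = τ := RingHom.ext fun r => hσ r _
  have e2 : (⟨ev1 σ (z : P) q, ev1_mem hE z.2 q⟩ : E) = q.eval₂ (σ.codRestrict E hE) z := by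
    apply Subtype.ext
    have : E.subtype (q.eval₂ (σ.codRestrict E hE) z) = ev1 σ (z : P) q := by
      rw [hom_eval₂]
      rfl
    exact this.symm
  rw [e2, hom_eval₂, e1]
  rfl

omit [IsDomain R] in
theorem alg1_iota {E : Subfield P} (ι : E →+* Q) (hE : ∀ r, σ r ∈ E)
    (hσ : ∀ r h, ι ⟨σ r, h⟩ = τ r) (z : E) : Alg1 τ (ι z) ↔ Alg1 σ (z : P) := by
  have h : ∀ q : Polynomial R, ev1 τ (ι z) q = 0 ↔ ev1 σ (z : P) q = 0 := by
    intro q
    rw [← ev1_iota ι hE hσ z q, map_eq_zero_iff ι ι.injective, Subtype.ext_iff]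
    rfl
  constructor
  · rintro ⟨q, hq, h0⟩
    exact ⟨q, hq, (h q).1 h0⟩
  · rintro ⟨q, hq, h0⟩
    exact ⟨q, hq, (h q).2 h0⟩

omit [IsDomain R] in
theorem alg2_iota {E : Subfield P} (ι : E →+* Q) (hE : ∀ r, σ r ∈ E)
    (hσ : ∀ r h, ι ⟨σ r, h⟩ = τ r) (x z : E) :
    Alg1 (ev1 τ (ι x)) (ι z) ↔ Alg1 (ev1 σ (x : P)) (z : P) :=
  alg1_iota (σ := ev1 σ (x : P)) (τ := ev1 τ (ι x)) ι (fun q => ev1_mem hE x.2 q)
    (fun q _ => ev1_iota ι hE hσ x q) z

omit [IsDomain R] in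
theorem atom_of_hom {E : Subfield P} (ι : E →+* Q) (hE : ∀ r, σ r ∈ E)
    (hσ : ∀ r h, ι ⟨σ r, h⟩ = τ r) {z z' : P} (hz : z ∈ E) (hz' : z' ∈ E)
    (f : Polynomial (Polynomial R)) :
    ev2 σ z z' f = 0 ↔ ev2 τ (ι ⟨z, hz⟩) (ι ⟨z', hz'⟩) f = 0 := by
  have h1 := ev1_iota (σ := ev1 σ z) (τ := ev1 τ (ι ⟨z, hz⟩)) ι (fun q => ev1_mem hE hz q)
    (fun q _ => ev1_iota ι hE hσ ⟨z, hz⟩ q) ⟨z', hz'⟩ f
  have h2 : ev2 τ (ι ⟨z, hz⟩) (ι ⟨z', hz'⟩) f = ev1 (ev1 τ (ι ⟨z, hz⟩)) (ι ⟨z', hz'⟩) f := rfl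
  rw [h2, ← h1, map_eq_zero_iff ι ι.injective, Subtype.ext_iff]
  rfl

omit [IsDomain R] in
theorem transp {A A' : Subfield P} {B B' : Subfield Q} (hA : A = A') (hB : B = B')
    (θ : A ≃+* B) : ∃ θ' : A' ≃+* B', ∀ (u : P) (h : u ∈ A) (h' : u ∈ A'),
      (θ' ⟨u, h'⟩ : Q) = θ ⟨u, h⟩ := by
  subst hA hB
  exact ⟨θ, fun _ _ _ => rfl⟩

/-- isomorphisms on countable unions of components -/
structure Sys (σ : R →+* P) (τ : R →+* Q) (G : Set (P × Q)) : Prop where
  cnt : G.Countable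
  inj : ∀ a ∈ G, ∀ b ∈ G, (a.1 = b.1 ↔ a.2 = b.2)
  alg : ∃ θ : algField σ ≃+* algField τ, (∀ r h, (θ ⟨σ r, h⟩ : Q) = τ r) ∧
    ∀ u : algField σ, ((u : P), (θ u : Q)) ∈ G
  tr : ∀ a ∈ G, ¬ Alg1 σ a.1 → ∃ θ : algField (ev1 σ a.1) ≃+* algField (ev1 τ a.2),
    (∀ r h, (θ ⟨σ r, h⟩ : Q) = τ r) ∧ (∀ h, (θ ⟨a.1, h⟩ : Q) = a.2) ∧
      ∀ u : algField (ev1 σ a.1), ((u : P), (θ u : Q)) ∈ G

variable {G : Set (P × Q)}

theorem Sys.alg_iff (hG : Sys σ τ G) {z : P} {w : Q} (h : (z, w) ∈ G) :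
    Alg1 σ z ↔ Alg1 τ w := by
  obtain ⟨θ, h1, h2⟩ := hG.alg
  constructor
  · intro hz
    have h3 := h2 ⟨z, hz⟩
    have h4 : w = θ ⟨z, hz⟩ := (hG.inj _ h _ h3).1 rfl
    rw [h4]
    exact (θ ⟨z, hz⟩).2
  · intro hw
    have h3 := h2 (θ.symm ⟨w, hw⟩)
    rw [RingEquiv.apply_symm_apply] at h3
    have h4 : z = θ.symm ⟨w, hw⟩ := (hG.inj _ h _ h3).2 rfl
    rw [h4]
    exact (θ.symm ⟨w, hw⟩).2

theorem Sys.symm (hG : Sys σ τ G) : Sys τ σ (Prod.swap ⁻¹' G) := by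
  refine ⟨?_, ?_, ?_, ?_⟩
  · exact hG.cnt.preimage_of_injOn (Prod.swap_injective.injOn)
  · intro a ha b hb
    exact (hG.inj _ ha _ hb).symm
  · obtain ⟨θ, h1, h2⟩ := hG.alg
    refine ⟨θ.symm, ?_, ?_⟩
    · intro r h
      have h3 := h1 r (alg1_map σ r)
      have h4 : (⟨τ r, h⟩ : algField τ) = θ ⟨σ r, alg1_map σ r⟩ := Subtype.ext h3.symm
      rw [h4, RingEquiv.symm_apply_apply]
    · intro u
      have h3 := h2 (θ.symm u)
      rw [RingEquiv.apply_symm_apply] at h3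
      exact h3
  · intro a ha hna
    have ha' : (a.2, a.1) ∈ G := ha
    have hn2 : ¬ Alg1 σ a.2 := fun h => hna ((hG.alg_iff ha').1 h)
    obtain ⟨θ, h1, h2, h3⟩ := hG.tr _ ha' hn2
    refine ⟨θ.symm, ?_, ?_, ?_⟩
    · intro r h
      have h4 := h1 r (σ_mem_acl _ r)
      have h5 : (⟨τ r, h⟩ : algField (ev1 τ a.1)) = θ ⟨σ r, σ_mem_acl _ r⟩ := Subtype.ext h4.symm
      rw [h5]
      exact congrArg Subtype.val (θ.symm_apply_apply _)
    · intro h
      have h4 := h2 (x_mem_acl _)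
      have h5 : (⟨a.1, h⟩ : algField (ev1 τ a.1)) = θ ⟨a.2, x_mem_acl _⟩ := Subtype.ext h4.symm
      rw [h5]
      exact congrArg Subtype.val (θ.symm_apply_apply _)
    · intro u
      have h4 := h3 (θ.symm u)
      rw [show θ (θ.symm u) = u from θ.apply_symm_apply u] at h4
      exact h4

theorem Sys.atom (hG : Sys σ τ G) {z z' : P} {w w' : Q} (h : (z, w) ∈ G) (h' : (z', w') ∈ G)
    (f : Polynomial (Polynomial R)) : ev2 σ z z' f = 0 ↔ ev2 τ w w' f = 0 := by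
  by_cases hz : Alg1 σ z
  · by_cases hz' : Alg1 σ z'
    · obtain ⟨θ, h1, h2⟩ := hG.alg
      have e := (hG.inj _ h _ (h2 ⟨z, hz⟩)).1 rfl
      have e' := (hG.inj _ h' _ (h2 ⟨z', hz'⟩)).1 rfl
      simp only at e e'
      rw [e, e']
      exact atom_of_hom ((algField τ).subtype.comp θ.toRingHom) (alg1_map σ) h1 hz hz' f
    · obtain ⟨θ, h1, h2, h3⟩ := hG.tr _ h' hz'
      have hz1 : z ∈ algField (ev1 σ z') := alg1_lift hz
      have hz2 : z' ∈ algField (ev1 σ z') := x_mem_acl _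
      have e := (hG.inj _ h _ (h3 ⟨z, hz1⟩)).1 rfl
      have e' := (hG.inj _ h' _ (h3 ⟨z', hz2⟩)).1 rfl
      have e2 : w = ((algField (ev1 τ w')).subtype.comp θ.toRingHom) ⟨z, hz1⟩ := e
      have e3 : w' = ((algField (ev1 τ w')).subtype.comp θ.toRingHom) ⟨z', hz2⟩ := e'
      have key := atom_of_hom (τ := τ) ((algField (ev1 τ w')).subtype.comp θ.toRingHom)
        (σ_mem_acl _) h1 hz1 hz2 f
      rw [key, ← e2, ← e3]
  · by_cases hz' : Alg1 (ev1 σ z) z'
    · obtain ⟨θ, h1, h2, h3⟩ := hG.tr _ h hz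
      have hz1 : z ∈ algField (ev1 σ z) := x_mem_acl _
      have hz2 : z' ∈ algField (ev1 σ z) := hz'
      have e := (hG.inj _ h _ (h3 ⟨z, hz1⟩)).1 rfl
      have e' := (hG.inj _ h' _ (h3 ⟨z', hz2⟩)).1 rfl
      have e2 : w = ((algField (ev1 τ w)).subtype.comp θ.toRingHom) ⟨z, hz1⟩ := e
      have e3 : w' = ((algField (ev1 τ w)).subtype.comp θ.toRingHom) ⟨z', hz2⟩ := e'
      have key := atom_of_hom (τ := τ) ((algField (ev1 τ w)).subtype.comp θ.toRingHom)
        (σ_mem_acl _) h1 hz1 hz2 f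
      rw [key, ← e2, ← e3]
    · have hw' : ¬ Alg1 (ev1 τ w) w' := by
        intro hw'
        obtain ⟨θ, h1, h2, h3⟩ := hG.tr _ h hz
        have h4 := h3 (θ.symm ⟨w', hw'⟩)
        rw [show θ (θ.symm ⟨w', hw'⟩) = ⟨w', hw'⟩ from θ.apply_symm_apply _] at h4
        have h5 : z' = θ.symm ⟨w', hw'⟩ := (hG.inj _ h' _ h4).2 rfl
        apply hz'
        rw [h5]
        exact (θ.symm ⟨w', hw'⟩).2
      constructor
      · intro h0
        by_cases hf : f = 0
        · rw [hf, map_zero]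
        · exact absurd ⟨f, hf, h0⟩ hz'
      · intro h0
        by_cases hf : f = 0
        · rw [hf, map_zero]
        · exact absurd ⟨f, hf, h0⟩ hw'

/-- one step -/
theorem Sys.forth (hG : Sys σ τ G)
    (hU : ∀ ι ι' : algField σ →+* Q, (∀ r h, ι ⟨σ r, h⟩ = τ r) → (∀ r h, ι' ⟨σ r, h⟩ = τ r) →
      ι = ι')
    (hS : ∀ x : P, ¬ Alg1 σ x → ∀ B : Set Q, B.Countable → ∃ ι : algField (ev1 σ x) →+* Q,
      (∀ r h, ι ⟨σ r, h⟩ = τ r) ∧ (∀ h, ι ⟨x, h⟩ ∉ B) ∧
        ∀ h y, Alg1 (ev1 τ (ι ⟨x, h⟩)) y → ∃ u, ι u = y)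
    (hcnt : ∀ x : P, ¬ Alg1 σ x → (algField (ev1 σ x) : Set P).Countable) (x : P) :
    ∃ G', G ⊆ G' ∧ Sys σ τ G' ∧ ∃ y, (x, y) ∈ G' := by
  by_cases hx : ∃ y, (x, y) ∈ G
  · exact ⟨G, subset_rfl, hG, hx⟩
  have hnx : ¬ Alg1 σ x := by
    intro h
    obtain ⟨θ, h1, h2⟩ := hG.alg
    exact hx ⟨_, h2 ⟨x, h⟩⟩
  obtain ⟨ι, hσ, hB, hcl⟩ := hS x hnx (Prod.snd '' G) (hG.cnt.image _)
  have hxm : x ∈ algField (ev1 σ x) := x_mem_acl x
  set y : Q := ι ⟨x, hxm⟩ with hy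
  have hyB : y ∉ Prod.snd '' G := hB _
  have hmem : ∀ u, ι u ∈ algField (ev1 τ y) := fun u =>
    (alg2_iota ι (σ_mem_acl x) hσ ⟨x, hxm⟩ u).2 u.2
  let θ : algField (ev1 σ x) ≃+* algField (ev1 τ y) :=
    RingEquiv.ofBijective (ι.codRestrict (algField (ev1 τ y)) hmem) (by
      constructor
      · intro a b hab
        exact ι.injective (congrArg Subtype.val hab)
      · rintro ⟨v, hv⟩
        obtain ⟨u, hu⟩ := hcl hxm v hv
        exact ⟨u, Subtype.ext hu⟩)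
  have hθ : ∀ u, (θ u : Q) = ι u := fun u => rfl
  -- on algebraic elements
  obtain ⟨θa, ha1, ha2⟩ := hG.alg
  have hle : algField σ ≤ algField (ev1 σ x) := fun u hu => alg1_lift hu
  have halg : ∀ u : algField σ, ι ⟨u, hle u.2⟩ = θa u := by
    have h1 : ι.comp (Subfield.inclusion hle) = (algField τ).subtype.comp θa.toRingHom := by
      apply hU
      · intro r h
        exact hσ r _
      · intro r h
        exact ha1 r h
    intro u
    exact congrArg (fun g : algField σ →+* Q => g u) h1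
  have hyn : ¬ Alg1 τ y := by
    intro h
    exact hnx ((alg1_iota ι (σ_mem_acl x) hσ ⟨x, hxm⟩).1 h)
  let G' : Set (P × Q) := G ∪ Set.range (fun u : algField (ev1 σ x) => ((u : P), ι u))
  have hmix : ∀ a ∈ G, ∀ u : algField (ev1 σ x), (a.1 = u ↔ a.2 = ι u) := by
    intro a ha u
    constructor
    · intro hau
      by_cases hu : Alg1 σ (u : P)
      · have h1 := ha2 ⟨u, hu⟩
        have h2 := (hG.inj _ ha _ h1).1 hau
        have h3 := halg ⟨u, hu⟩
        rw [h2]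
        exact h3.symm
      · exfalso
        have h1 : ¬ Alg1 σ a.1 := by
          rw [hau]
          exact hu
        obtain ⟨θ', h2, h3, h4⟩ := hG.tr a ha h1
        have h5 : x ∈ algField (ev1 σ a.1) := by
          rw [hau]
          exact exch u.2
        exact hx ⟨_, h4 ⟨x, h5⟩⟩
    · intro hau
      by_cases hv : Alg1 τ (ι u)
      · have h1 := ha2 (θa.symm ⟨ι u, hv⟩)
        rw [RingEquiv.apply_symm_apply] at h1
        have h2 := (hG.inj _ ha _ h1).2 hau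
        have h3 := halg (θa.symm ⟨ι u, hv⟩)
        rw [RingEquiv.apply_symm_apply] at h3
        have h4 := ι.injective h3
        rw [h2]
        exact congrArg Subtype.val h4
      · exfalso
        have h1 : ¬ Alg1 σ a.1 := by
          intro h
          apply hv
          rw [← hau]
          exact (hG.alg_iff (z := a.1) (w := a.2) ha).1 h
        obtain ⟨θ', h2, h3, h4⟩ := hG.tr a ha h1
        have h5 : y ∈ algField (ev1 τ a.2) := by
          rw [hau]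
          exact exch (hmem u)
        have h6 := h4 (θ'.symm ⟨y, h5⟩)
        rw [show θ' (θ'.symm ⟨y, h5⟩) = ⟨y, h5⟩ from θ'.apply_symm_apply _] at h6
        exact hyB ⟨_, h6, rfl⟩
  refine ⟨G', Set.subset_union_left, ⟨?_, ?_, ?_, ?_⟩, y, Or.inr ⟨⟨x, hxm⟩, rfl⟩⟩
  · have : Countable (algField (ev1 σ x)) := (hcnt x hnx).to_subtype
    exact hG.cnt.union (Set.countable_range _)
  · rintro a (ha | ⟨u, rfl⟩) b (hb | ⟨v, rfl⟩)
    · exact hG.inj a ha b hb
    · exact hmix a ha v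
    · have := hmix b hb u
      exact ⟨fun h => (this.1 h.symm).symm, fun h => (this.2 h.symm).symm⟩
    · constructor
      · intro h
        have : u = v := Subtype.ext h
        rw [this]
      · intro h
        have : u = v := ι.injective h
        rw [this]
  · exact ⟨θa, ha1, fun u => Or.inl (ha2 u)⟩
  · rintro a (ha | ⟨z, rfl⟩) hna
    · obtain ⟨θ', h1, h2, h3⟩ := hG.tr a ha hna
      exact ⟨θ', h1, h2, fun u => Or.inl (h3 u)⟩
    · have hnz : ¬ Alg1 τ (ι z) := by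
        intro h
        exact hna ((alg1_iota ι (σ_mem_acl x) hσ z).1 h)
      have e1 : algField (ev1 σ x) = algField (ev1 σ (z : P)) := (acl_eq hnx z.2 hna).symm
      have e2 : algField (ev1 τ y) = algField (ev1 τ (ι z)) := (acl_eq hyn (hmem z) hnz).symm
      obtain ⟨θ', hθ'⟩ := transp e1 e2 θ
      have hθ2 : ∀ (u : P) (h : u ∈ algField (ev1 σ x)) (h' : u ∈ algField (ev1 σ (z : P))),
          (θ' ⟨u, h'⟩ : Q) = ι ⟨u, h⟩ := fun u h h' => hθ' u h h'
      refine ⟨θ', ?_, ?_, ?_⟩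
      · intro r h
        rw [hθ2 _ (σ_mem_acl x r)]
        exact hσ r _
      · intro h
        exact hθ2 _ z.2 _
      · rintro ⟨u, hu⟩
        have hu' : u ∈ algField (ev1 σ x) := by
          rw [e1]
          exact hu
        right
        refine ⟨⟨u, hu'⟩, ?_⟩
        simp only
        rw [hθ2 u hu']

end hom

end BF80
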