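import Pool.Agent.BF80.BackForth0

/-!
# Back and forth: equivalence of the models
-/

set_option autoImplicit false
set_option maxSynthPendingDepth 10

open Polynomial Filter

namespace BF80

open FT80

variable {p : ℕ}

/-- the polynomial of a term -/
noncomputable def tpoly (p : ℕ) : Tm → P3 p
  | .zero => 0
  | .one => 1
  | .tt => C (C X)
  | .x => C X
  | .y => X
  | .add a b => tpoly p a + tpoly p b
  | .sub a b => tpoly p a - tpoly p b
  | .mul a b => tpoly p a * tpoly p b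

theorem ev2_tpoly {S : Type*} [CommRing S] (σ : P1 p →+* S) (x y : S) (a : Tm) :
    ev2 σ x y (tpoly p a) = a.val (σ X) x y := by
  induction a with
  | zero => simp [tpoly, Tm.val]
  | one => simp [tpoly, Tm.val]
  | tt => simp [tpoly, Tm.val, ev2]
  | x => simp [tpoly, Tm.val, ev2]
  | y => simp [tpoly, Tm.val, ev2]
  | add a b ha hb => rw [tpoly, Tm.val, map_add, ha, hb]
  | sub a b ha hb => rw [tpoly, Tm.val, map_sub, ha, hb]
  | mul a b ha hb => rw [tpoly, Tm.val, map_mul, ha, hb]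

variable [Fact p.Prime]

section equiv

variable {P Q : Type} [Field P] [Field Q] {σ : P1 p →+* P} {τ : P1 p →+* Q}

theorem holds_iff
    (hf : ∀ G : Set (P × Q), Sys σ τ G → ∀ x : P, ∃ G', G ⊆ G' ∧ Sys σ τ G' ∧ ∃ y, (x, y) ∈ G')
    (hb : ∀ G : Set (P × Q), Sys σ τ G → ∀ y : Q, ∃ G', G ⊆ G' ∧ Sys σ τ G' ∧ ∃ x, (x, y) ∈ G')
    (φ : BFm) : ∀ G : Set (P × Q), Sys σ τ G → ∀ (e : ℕ → P) (e' : ℕ → Q),
      (∀ i, (e i, e' i) ∈ G) → (φ.Holds (σ X) e ↔ φ.Holds (τ X) e') := by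
  have hupd : ∀ (G G' : Set (P × Q)) (e : ℕ → P) (e' : ℕ → Q), G ⊆ G' →
      (∀ i, (e i, e' i) ∈ G) → ∀ (i : ℕ) (x : P) (y : Q), (x, y) ∈ G' →
      ∀ k, (Function.update e i x k, Function.update e' i y k) ∈ G' := by
    intro G G' e e' hGG he i x y hxy k
    by_cases hk : k = i
    · subst hk
      simpa using hxy
    · rw [Function.update_of_ne hk, Function.update_of_ne hk]
      exact hGG (he k)
  induction φ with
  | eq i j a b =>
    intro G hG e e' he
    simp only [BFm.Holds]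
    rw [← sub_eq_zero, ← sub_eq_zero (b := Tm.val _ _ _ b), ← ev2_tpoly, ← ev2_tpoly, ← ev2_tpoly,
      ← ev2_tpoly, ← map_sub, ← map_sub]
    exact hG.atom (he i) (he j) _
  | not φ h =>
    intro G hG e e' he
    simp only [BFm.Holds]
    rw [h G hG e e' he]
  | and φ ψ h1 h2 =>
    intro G hG e e' he
    simp only [BFm.Holds]
    rw [h1 G hG e e' he, h2 G hG e e' he]
  | or φ ψ h1 h2 =>
    intro G hG e e' he
    simp only [BFm.Holds]
    rw [h1 G hG e e' he, h2 G hG e e' he]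
  | ex i φ h =>
    intro G hG e e' he
    simp only [BFm.Holds]
    constructor
    · rintro ⟨x, hx⟩
      obtain ⟨G', h1, h2, y, h3⟩ := hf G hG x
      exact ⟨y, (h G' h2 _ _ (hupd G G' e e' h1 he i x y h3)).1 hx⟩
    · rintro ⟨y, hy⟩
      obtain ⟨G', h1, h2, x, h3⟩ := hb G hG y
      exact ⟨x, (h G' h2 _ _ (hupd G G' e e' h1 he i x y h3)).2 hy⟩
  | all i φ h =>
    intro G hG e e' he
    simp only [BFm.Holds]
    constructor
    · intro hx y
      obtain ⟨G', h1, h2, x, h3⟩ := hb G hG y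
      exact (h G' h2 _ _ (hupd G G' e e' h1 he i x y h3)).1 (hx x)
    · intro hy x
      obtain ⟨G', h1, h2, y, h3⟩ := hf G hG x
      exact (h G' h2 _ _ (hupd G G' e e' h1 he i x y h3)).2 (hy y)

theorem acl_countable {x : P} (hx : ¬ Alg1 σ x) : (algField (ev1 σ x) : Set P).Countable := by
  let _ : Algebra (P2 p) P := (ev1 σ x).toAlgebra
  have hinj : Function.Injective (ev1 σ x) := ev1_inj hx
  have hfaith : FaithfulSMul (P2 p) P := (faithfulSMul_iff_algebraMap_injective _ _).mpr hinj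
  have : Countable (ZMod p) := by
    have : NeZero p := ⟨(Fact.out : p.Prime).ne_zero⟩
    infer_instance
  have : Countable (P1 p) := countable_poly _
  have : Countable (P2 p) := countable_poly _
  exact Algebraic.countable (P2 p) P

theorem countable_k0 : Countable (k0 p) := by
  let _ : Algebra (P1 p) (KK p) := (tauK p).toAlgebra
  have hfaith : FaithfulSMul (P1 p) (KK p) :=
    (faithfulSMul_iff_algebraMap_injective _ _).mpr (tauK_inj' p)
  have : Countable (ZMod p) := by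
    have : NeZero p := ⟨(Fact.out : p.Prime).ne_zero⟩
    infer_instance
  have : Countable (P1 p) := countable_poly _
  have h : ((k0 p : Subfield (KK p)) : Set (KK p)).Countable := Algebraic.countable (P1 p) (KK p)
  exact h.to_subtype

/-- the properties of the embedding of the algebraic elements -/
def JOK (σ : P1 p →+* P) (j : k0 p →+* P) : Prop :=
  (∀ f, j (sig0 p f) = σ f) ∧ (∀ x : P, Alg1 σ x ↔ ∃ z, j z = x) ∧
    ∀ j' : k0 p →+* P, (∀ f, j' (sig0 p f) = σ f) → j' = j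

theorem JOK.uniq {jP : k0 p →+* P} (hP : JOK σ jP) {jQ : k0 p →+* Q} (hQ : JOK τ jQ)
    (ι ι' : algField σ →+* Q) (h : ∀ r h, ι ⟨σ r, h⟩ = τ r) (h' : ∀ r h, ι' ⟨σ r, h⟩ = τ r) :
    ι = ι' := by
  have hm : ∀ z, jP z ∈ algField σ := fun z => (hP.2.1 _).2 ⟨z, rfl⟩
  have h1 : ι.comp (jP.codRestrict (algField σ) hm) = jQ := by
    apply hQ.2.2
    intro f
    have h2 : jP.codRestrict (algField σ) hm (sig0 p f) = ⟨σ f, alg1_map σ f⟩ :=
      Subtype.ext (hP.1 f)
    rw [RingHom.comp_apply, h2]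
    exact h _ _
  have h1' : ι'.comp (jP.codRestrict (algField σ) hm) = jQ := by
    apply hQ.2.2
    intro f
    have h2 : jP.codRestrict (algField σ) hm (sig0 p f) = ⟨σ f, alg1_map σ f⟩ :=
      Subtype.ext (hP.1 f)
    rw [RingHom.comp_apply, h2]
    exact h' _ _
  ext u
  obtain ⟨z, hz⟩ := (hP.2.1 u).1 u.2
  have h3 : u = jP.codRestrict (algField σ) hm z := Subtype.ext hz.symm
  rw [h3]
  have h4 := congrArg (fun g : k0 p →+* Q => g z) (h1.trans h1'.symm)
  exact h4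

theorem JOK.init {jP : k0 p →+* P} (hP : JOK σ jP) {jQ : k0 p →+* Q} (hQ : JOK τ jQ) :
    ∃ G : Set (P × Q), Sys σ τ G := by
  have hm : ∀ z, jP z ∈ algField σ := fun z => (hP.2.1 _).2 ⟨z, rfl⟩
  have hm' : ∀ z, jQ z ∈ algField τ := fun z => (hQ.2.1 _).2 ⟨z, rfl⟩
  let eP : k0 p ≃+* algField σ := RingEquiv.ofBijective (jP.codRestrict (algField σ) hm) (by
    constructor
    · intro a b hab
      exact jP.injective (congrArg Subtype.val hab)
    · intro u
      obtain ⟨z, hz⟩ := (hP.2.1 u).1 u.2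
      exact ⟨z, Subtype.ext hz⟩)
  let eQ : k0 p ≃+* algField τ := RingEquiv.ofBijective (jQ.codRestrict (algField τ) hm') (by
    constructor
    · intro a b hab
      exact jQ.injective (congrArg Subtype.val hab)
    · intro u
      obtain ⟨z, hz⟩ := (hQ.2.1 u).1 u.2
      exact ⟨z, Subtype.ext hz⟩)
  let θ : algField σ ≃+* algField τ := eP.symm.trans eQ
  have hθ : ∀ z, (θ (eP z) : Q) = jQ z := by
    intro z
    have : θ (eP z) = eQ z := by
      simp only [θ, RingEquiv.trans_apply, RingEquiv.symm_apply_apply]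
    rw [this]
    rfl
  refine ⟨Set.range (fun u : algField σ => ((u : P), (θ u : Q))), ?_, ?_, ?_, ?_⟩
  · have : Countable (k0 p) := countable_k0
    have : Countable (algField σ) := eP.symm.injective.countable
    exact Set.countable_range _
  · rintro a ⟨u, rfl⟩ b ⟨v, rfl⟩
    constructor
    · intro h
      have : u = v := Subtype.ext h
      rw [this]
    · intro h
      have h1 : θ u = θ v := Subtype.ext h
      have : u = v := θ.injective h1
      rw [this]
  · refine ⟨θ, ?_, fun u => ⟨u, rfl⟩⟩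
    intro r h
    have h1 : (⟨σ r, h⟩ : algField σ) = eP (sig0 p r) := Subtype.ext (hP.1 r).symm
    rw [h1, hθ]
    exact hQ.1 r
  · rintro a ⟨u, rfl⟩ hna
    exact absurd u.2 hna

/-- the extension property -/
def Ext1 (σ : P1 p →+* P) (τ : P1 p →+* Q) : Prop :=
  ∀ x : P, ¬ Alg1 σ x → ∀ B : Set Q, B.Countable → ∃ ι : algField (ev1 σ x) →+* Q,
      (∀ r h, ι ⟨σ r, h⟩ = τ r) ∧ (∀ h, ι ⟨x, h⟩ ∉ B) ∧
        ∀ h y, Alg1 (ev1 τ (ι ⟨x, h⟩)) y → ∃ u, ι u = y

theorem equiv_of {jP : k0 p →+* P} (hP : JOK σ jP) {jQ : k0 p →+* Q} (hQ : JOK τ jQ)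
    (h1 : Ext1 σ τ) (h2 : Ext1 τ σ) (φ : BFm) :
    φ.Holds (σ X) (fun _ => 0) ↔ φ.Holds (τ X) (fun _ => 0) := by
  have hf : ∀ G : Set (P × Q), Sys σ τ G → ∀ x : P, ∃ G', G ⊆ G' ∧ Sys σ τ G' ∧
      ∃ y, (x, y) ∈ G' := fun G hG x =>
    hG.forth (hP.uniq hQ) h1 (fun x hx => acl_countable hx) x
  have hb : ∀ G : Set (P × Q), Sys σ τ G → ∀ y : Q, ∃ G', G ⊆ G' ∧ Sys σ τ G' ∧
      ∃ x, (x, y) ∈ G' := by
    intro G hG y
    obtain ⟨G', h3, h4, x, h5⟩ := hG.symm.forth (hQ.uniq hP) h2 (fun x hx => acl_countable hx) y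
    refine ⟨Prod.swap ⁻¹' G', ?_, h4.symm, x, h5⟩
    intro a ha
    exact h3 (show Prod.swap (Prod.swap a) ∈ G from ha)
  obtain ⟨G, hG⟩ := hP.init hQ
  refine holds_iff hf hb φ G hG _ _ fun _ => ?_
  obtain ⟨θ, _, h4⟩ := hG.alg
  have h5 := h4 0
  rw [map_zero] at h5
  exact h5

end equiv

/-! ### The ultrapower of an embedding -/

section J

variable {K M : Type} [Field K] [Field M]

/-- the ultrapower of an embedding -/
noncomputable def upJ (j : K →+* M) : UP K →+* UP M where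
  toFun := Filter.Germ.map j
  map_one' := by
    have : Filter.Germ.map j (cl K 1) = cl M (fun l => j ((1 : ℕ → K) l)) := rfl
    rw [map_one] at this
    rw [this]
    simp only [Pi.one_apply, map_one]
    rfl
  map_mul' := by
    intro a b
    obtain ⟨f, rfl⟩ := cl_surj a
    obtain ⟨g, rfl⟩ := cl_surj b
    rw [← map_mul]
    have h1 : Filter.Germ.map j (cl K (f * g)) = cl M (fun l => j ((f * g) l)) := rfl
    have h2 : Filter.Germ.map j (cl K f) = cl M (fun l => j (f l)) := rfl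
    have h3 : Filter.Germ.map j (cl K g) = cl M (fun l => j (g l)) := rfl
    rw [h1, h2, h3, ← map_mul]
    simp only [Pi.mul_apply, map_mul]
    rfl
  map_zero' := by
    have : Filter.Germ.map j (cl K 0) = cl M (fun l => j ((0 : ℕ → K) l)) := rfl
    rw [map_zero] at this
    rw [this]
    simp only [Pi.zero_apply, map_zero]
    rfl
  map_add' := by
    intro a b
    obtain ⟨f, rfl⟩ := cl_surj a
    obtain ⟨g, rfl⟩ := cl_surj b
    rw [← map_add]
    have h1 : Filter.Germ.map j (cl K (f + g)) = cl M (fun l => j ((f + g) l)) := rfl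
    have h2 : Filter.Germ.map j (cl K f) = cl M (fun l => j (f l)) := rfl
    have h3 : Filter.Germ.map j (cl K g) = cl M (fun l => j (g l)) := rfl
    rw [h1, h2, h3, ← map_add]
    simp only [Pi.add_apply, map_add]
    rfl

theorem upJ_cl (j : K →+* M) (f : ℕ → K) : upJ j (cl K f) = cl M (fun l => j (f l)) := rfl

theorem ev1_hom {R : Type*} [CommRing R] {τ : R →+* K} {σ : R →+* M} (J : K →+* M)
    (hJ : ∀ r, J (τ r) = σ r) (w : K) (q : Polynomial R) : ev1 σ (J w) q = J (ev1 τ w q) := by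
  have e : J.comp τ = σ := RingHom.ext hJ
  rw [ev1, ev1, coe_eval₂RingHom, coe_eval₂RingHom, hom_eval₂, e]

theorem alg2_hom {R : Type*} [CommRing R] {τ : R →+* K} {σ : R →+* M} (J : K →+* M)
    (hJ : ∀ r, J (τ r) = σ r) (w y : K) :
    Alg1 (ev1 σ (J w)) (J y) ↔ Alg1 (ev1 τ w) y := by
  have h : ∀ q, ev1 (ev1 σ (J w)) (J y) q = J (ev1 (ev1 τ w) y q) := fun q =>
    ev1_hom J (fun r => (ev1_hom J hJ w r).symm) y q
  constructor
  · rintro ⟨q, hq, h0⟩
    refine ⟨q, hq, ?_⟩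
    rw [h] at h0
    exact (map_eq_zero_iff J J.injective).1 h0
  · rintro ⟨q, hq, h0⟩
    refine ⟨q, hq, ?_⟩
    rw [h, h0, map_zero]

theorem alg1_hom {R : Type*} [CommRing R] {τ : R →+* K} {σ : R →+* M} (J : K →+* M)
    (hJ : ∀ r, J (τ r) = σ r) (w : K) : Alg1 σ (J w) ↔ Alg1 τ w := by
  constructor
  · rintro ⟨q, hq, h0⟩
    refine ⟨q, hq, ?_⟩
    rw [ev1_hom J hJ] at h0
    exact (map_eq_zero_iff J J.injective).1 h0
  · rintro ⟨q, hq, h0⟩
    refine ⟨q, hq, ?_⟩
    rw [ev1_hom J hJ, h0, map_zero]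

theorem ev1_cl {R : Type*} [CommRing R] (σ : R →+* M) (f : ℕ → M) (q : Polynomial R) :
    ev1 ((diag M).comp σ) (cl M f) q = cl M (fun l => ev1 σ (f l) q) := by
  have e : (fun l => ev1 σ (f l) q) = ∑ i ∈ Finset.range (q.natDegree + 1),
      (fun _ => σ (q.coeff i)) * f ^ i := by
    funext l
    rw [ev1, coe_eval₂RingHom, eval₂_eq_sum_range]
    simp only [Finset.sum_apply, Pi.mul_apply, Pi.pow_apply]
  rw [e, map_sum, ev1, coe_eval₂RingHom, eval₂_eq_sum_range]
  refine Finset.sum_congr rfl fun i _ => ?_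
  rw [map_mul, map_pow]
  rfl

end J

theorem relClosed {M : Type} [Field M] {σ : P1 p →+* M} {j : k0 p →+* M} (hj : JOK σ j)
    {w : UP (k0 p)} (hw : ¬ Alg1 ((diag (k0 p)).comp (sig0 p)) w) {y : UP M}
    (hy : Alg1 (ev1 ((diag M).comp σ) (upJ j w)) y) : ∃ z, upJ j z = y := by
  obtain ⟨w, rfl⟩ := cl_surj w
  obtain ⟨y, rfl⟩ := cl_surj y
  obtain ⟨q, hq, h0⟩ := hy
  rw [upJ_cl] at h0
  have hJ : ∀ r, upJ j (((diag (k0 p)).comp (sig0 p)) r) = ((diag M).comp σ) r := by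
    intro r
    show cl M (fun _ => j (sig0 p r)) = cl M (fun _ => σ r)
    simp only [hj.1]
  -- one coefficient does not vanish
  have hc : ∃ i, ev1 ((diag M).comp σ) (cl M (fun l => j (w l))) (q.coeff i) ≠ 0 := by
    by_contra hc
    push Not at hc
    apply hq
    ext1 i
    have h1 := hc i
    rw [← upJ_cl, ev1_hom (upJ j) hJ] at h1
    have h2 := (map_eq_zero_iff (upJ j) (upJ j).injective).1 h1
    rw [coeff_zero]
    exact ev1_inj hw (by rw [h2, map_zero])
  obtain ⟨i, hi⟩ := hc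
  rw [ev1_cl, cl_ne_zero_iff] at hi
  -- the equation
  have hE : ∀ᶠ l in ((hyperfilter ℕ : Ultrafilter ℕ) : Filter ℕ),
      ev1 (ev1 σ (j (w l))) (y l) q = 0 := by
    have e : ev1 (ev1 ((diag M).comp σ) (cl M (fun l => j (w l)))) (cl M y) q
        = cl M (fun l => ev1 (ev1 σ (j (w l))) (y l) q) := by
      have e1 : (fun l => ev1 (ev1 σ (j (w l))) (y l) q)
          = ∑ i ∈ Finset.range (q.natDegree + 1),
            (fun l => ev1 σ (j (w l)) (q.coeff i)) * y ^ i := by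
        funext l
        rw [ev1, coe_eval₂RingHom, eval₂_eq_sum_range]
        simp only [Finset.sum_apply, Pi.mul_apply, Pi.pow_apply]
      rw [e1, map_sum, ev1, coe_eval₂RingHom, eval₂_eq_sum_range]
      refine Finset.sum_congr rfl fun i _ => ?_
      rw [map_mul, map_pow, ev1_cl]
    rw [e, cl_zero_iff] at h0
    exact h0
  have hA : ∀ᶠ l in ((hyperfilter ℕ : Ultrafilter ℕ) : Filter ℕ), ∃ z, j z = y l := by
    filter_upwards [hi, hE] with l h1 h2
    rw [← hj.2.1]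
    have h3 : ∀ c, Alg1 σ (ev1 σ (j (w l)) c) := by
      intro c
      exact ev1_mem (A := algField σ) (alg1_map σ) ((hj.2.1 _).2 ⟨w l, rfl⟩) c
    refine alg1_trans (N := q.map (ev1 σ (j (w l)))) ?_ ?_ ?_
    · intro h
      apply h1
      have := congrArg (fun r => r.coeff i) h
      simpa using this
    · intro k
      rw [coeff_map]
      exact h3 _
    · rw [eval_map]
      exact h2
  obtain ⟨z, hz⟩ := hA.choice
  refine ⟨cl (k0 p) z, ?_⟩
  rw [upJ_cl, cl_eq]
  exact hz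

/-- the conclusion of `star` -/
def StarC {M : Type} [Field M] (σ : P1 p →+* M) : Prop :=
  ∀ x : M, ¬ Alg1 σ x → ∀ B : Set (UP (k0 p)), B.Countable →
    ∃ ι : algField (ev1 σ x) →+* UP (k0 p),
      (∀ f : P1 p, ∃ h : σ f ∈ algField (ev1 σ x), ι ⟨σ f, h⟩ = diag (k0 p) (sig0 p f)) ∧
      ∃ h : x ∈ algField (ev1 σ x), ι ⟨x, h⟩ ∉ B ∧
        ∀ y : UP (k0 p), Alg1 (ev1 ((diag (k0 p)).comp (sig0 p)) (ι ⟨x, h⟩)) y → ∃ u, ι u = y

theorem bf_equiv_of
    (hstar : ∀ (M : Type) [Field M] (σ : P1 p →+* M), Mdl p σ → StarC σ)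
    (hj : ∀ (M : Type) [Field M] (σ : P1 p →+* M), Mdl p σ → ∃ j : k0 p →+* M, JOK σ j)
    (hk0 : Mdl p (sig0 p)) {M : Type} [Field M] {σ : P1 p →+* M} (hM : Mdl p σ) (φ : BFm) :
    φ.Holds (σ X) (fun _ => (0 : M)) ↔ φ.Holds (sig0 p X) (fun _ => (0 : k0 p)) := by
  have h1 : φ.Holds (σ X) (fun _ => (0 : M)) ↔
      φ.Holds (((diag M).comp σ) X) (fun _ => (0 : UP M)) := by
    have := los_cl (σ X) φ (fun _ _ => (0 : M))
    rw [eventually_const] at this
    have e : (fun _ : ℕ => cl M (fun _ => (0 : M))) = fun _ => 0 := by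
      funext i
      exact map_zero (cl M)
    rw [e] at this
    exact this.symm
  have h2 : φ.Holds (sig0 p X) (fun _ => (0 : k0 p)) ↔
      φ.Holds (((diag (k0 p)).comp (sig0 p)) X) (fun _ => (0 : UP (k0 p))) := by
    have := los_cl (sig0 p X) φ (fun _ _ => (0 : k0 p))
    rw [eventually_const] at this
    have e : (fun _ : ℕ => cl (k0 p) (fun _ => (0 : k0 p))) = fun _ => 0 := by
      funext i
      exact map_zero (cl (k0 p))
    rw [e] at this
    exact this.symm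
  rw [h1, h2]
  obtain ⟨jP, hP⟩ := hj _ _ (mdl_up hM)
  obtain ⟨jQ, hQ⟩ := hj _ _ (mdl_up hk0)
  obtain ⟨j, hJ⟩ := hj _ _ hM
  refine equiv_of hP hQ ?_ ?_ φ
  · intro x hx B hB
    obtain ⟨ι, h3, h4, h5, h6⟩ := hstar _ _ (mdl_up hM) x hx B hB
    refine ⟨ι, ?_, fun _ => h5, fun _ => h6⟩
    intro r h
    obtain ⟨_, h7⟩ := h3 r
    exact h7
  · intro x hx B hB
    have hB' : (upJ j ⁻¹' B).Countable := hB.preimage_of_injOn ((upJ j).injective.injOn)
    obtain ⟨ι, h3, h4, h5, h6⟩ := hstar _ _ (mdl_up hk0) x hx _ hB'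
    have hJ' : ∀ r, upJ j (((diag (k0 p)).comp (sig0 p)) r) = ((diag M).comp σ) r := by
      intro r
      show cl M (fun _ => j (sig0 p r)) = cl M (fun _ => σ r)
      simp only [hJ.1]
    have hι : ∀ r h, ι ⟨((diag (k0 p)).comp (sig0 p)) r, h⟩ = ((diag (k0 p)).comp (sig0 p)) r := by
      intro r h
      obtain ⟨_, h7⟩ := h3 r
      exact h7
    have hw : ¬ Alg1 ((diag (k0 p)).comp (sig0 p)) (ι ⟨x, h4⟩) := by
      intro h
      exact hx ((alg1_iota ι (σ_mem_acl x) hι ⟨x, h4⟩).1 h)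
    refine ⟨(upJ j).comp ι, ?_, fun _ => h5, ?_⟩
    · intro r h
      rw [RingHom.comp_apply, hι]
      exact hJ' r
    · intro h y hy
      obtain ⟨z, rfl⟩ := relClosed hJ hw hy
      have h7 : Alg1 (ev1 ((diag (k0 p)).comp (sig0 p)) (ι ⟨x, h4⟩)) z :=
        (alg2_hom (upJ j) hJ' _ _).1 hy
      obtain ⟨u, hu⟩ := h6 z h7
      exact ⟨u, by rw [RingHom.comp_apply, hu]⟩

end BF80
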