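import Pool.Agent.BF80.MdlBasic0
import Pool.Agent.FT80.Theta
set_option maxSynthPendingDepth 10
open Polynomial Filter
namespace BF80.CI
open FT80 BF80

set_option linter.unusedSectionVars false

variable {p : ℕ} [Fact p.Prime] {M : Type} [Field M] {σ : P1 p →+* M}

/-- the standard part map -/
def StD (hM : Mdl p σ) (st : hM.OC →+* KK p) : Prop :=
  (∀ f : P1 p, ∃ h : σ f ∈ hM.OC, st ⟨σ f, h⟩ = tauK p f) ∧
    (∀ x : hM.OC, VO (σ X) (x : M) ↔ InO (st x)) ∧
    (∀ x : hM.OC, st x = 0 ↔ hM.vc (x : M) < 1)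

/-- `F_p[t] → OC` -/
noncomputable def sigC (hM : Mdl p σ) {st : hM.OC →+* KK p} (hst : StD hM st) : P1 p →+* hM.OC :=
  σ.codRestrict hM.OC.toSubring (fun f => (hst.1 f).choose)

theorem st_sigC (hM : Mdl p σ) {st : hM.OC →+* KK p} (hst : StD hM st) (f : P1 p) :
    st (sigC hM hst f) = tauK p f := (hst.1 f).choose_spec

theorem st_ev2 (hM : Mdl p σ) {st : hM.OC →+* KK p} (hst : StD hM st) (s y : hM.OC) (P : P3 p) :
    st (ev2 (sigC hM hst) s y P) = ev2 (tauK p) (st s) (st y) P := by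
  rw [hom_ev2]
  congr 2
  exact RingHom.ext fun f => st_sigC hM hst f

theorem coe_ev2 (hM : Mdl p σ) {st : hM.OC →+* KK p} (hst : StD hM st) (s y : hM.OC) (P : P3 p) :
    ((ev2 (sigC hM hst) s y P : hM.OC) : M) = ev2 σ (s : M) (y : M) P := by
  have := hom_ev2 (sigC hM hst) hM.OC.subtype s y P
  exact this

theorem tauK_X : tauK p X = TT p 1 := by
  have h := TT_nat (p := p) 1
  rw [pow_one, Nat.cast_one] at h
  rw [h]
  show iK p (tau p X) = _
  rw [tau_X]

theorem t_ne_zero (hM : Mdl p σ) : σ X ≠ 0 := by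
  intro h
  apply hM.tinv
  rw [h, inv_zero]
  exact ⟨0, by ring⟩

theorem VO_zero' {M : Type*} [Field M] (t : M) : VO t 0 := ⟨0, by ring⟩

theorem VO_pow (hM : Mdl p σ) {x : M} (hx : VO (σ X) x) (n : ℕ) : VO (σ X) (x ^ n) := by
  induction n with
  | zero => rw [pow_zero]; exact hM.one
  | succ n ih => rw [pow_succ]; exact hM.mul _ _ ih hx

theorem VO_t (hM : Mdl p σ) : VO (σ X) (σ X) := (hM.inv (σ X)).resolve_right hM.tinv

theorem tinv_mem_OC (hM : Mdl p σ) : (σ X)⁻¹ ∈ hM.OC :=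
  ⟨1, by rw [pow_one, mul_inv_cancel₀ (t_ne_zero hM)]; exact hM.one⟩

/-- approximation -/
theorem exists_approx (hM : Mdl p σ) {st : hM.OC →+* KK p} (hst : StD hM st) (ζ : KK p) (m : ℕ) :
    ∃ (y : hM.OC) (d : OO p), st y = ζ + TT p m * iK p d := by
  obtain ⟨n, z, hz⟩ := exists_clear ζ
  let ti : hM.OC := ⟨(σ X)⁻¹, tinv_mem_OC hM⟩
  have hti : st ti = TT p (-1) := by
    have h1 : sigC hM hst X * ti = 1 := Subtype.ext (mul_inv_cancel₀ (t_ne_zero hM))
    have h2 := congrArg st h1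
    rw [map_mul, map_one, st_sigC, tauK_X] at h2
    have h3 := TT_neg_mul (p := p) 1
    have h4 : TT p 1 ≠ 0 := TT_ne_zero 1
    apply mul_left_cancel₀ h4
    rw [h2, mul_comm, h3]
  refine ⟨sigC hM hst (PowerSeries.trunc (n + m) z) * ti ^ n, ?_⟩
  have h1 : (PowerSeries.X : OO p) ^ (n + m) ∣ tau p (PowerSeries.trunc (n + m) z) - z := by
    rw [PowerSeries.X_pow_dvd_iff]
    intro i hi
    rw [map_sub, sub_eq_zero]
    show PowerSeries.coeff i ((PowerSeries.trunc (n + m) z : P1 p) : OO p) = _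
    rw [Polynomial.coeff_coe, PowerSeries.coeff_trunc, if_pos hi]
  obtain ⟨d, hd⟩ := h1
  refine ⟨d, ?_⟩
  have h2 : tau p (PowerSeries.trunc (n + m) z) = z + PowerSeries.X ^ (n + m) * d := by
    rw [← hd]; ring
  have h3 : TT p (-1) ^ n = TT p (-(n : ℤ)) := by
    have h5 : ∀ k : ℕ, TT p (-1) ^ k = TT p (-(k : ℤ)) := by
      intro k
      induction k with
      | zero => simp [TT_zero]
      | succ k ih =>
        rw [pow_succ, ih, ← TT_add]
        congr 1
        push_cast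
        ring
    exact h5 n
  rw [map_mul, map_pow, st_sigC, hti, h3]
  show iK p (tau p _) * _ = _
  rw [h2, map_add, map_mul, ← TT_nat, hz, Nat.cast_add, TT_add]
  have h6 := TT_neg_mul (p := p) (n : ℤ)
  linear_combination (ζ + TT p m * iK p d) * h6


theorem ev2_map_eval {R S : Type*} [CommRing R] [CommRing S] (σ : R →+* S) (x y : S)
    (P : Polynomial (Polynomial R)) : ev2 σ x y P = (P.map (ev1 σ x)).eval y := by
  rw [Polynomial.eval_map]
  rfl

theorem st_inv (hM : Mdl p σ) {st : hM.OC →+* KK p} (hst : StD hM st) (x : hM.OC)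
    (hx : st x ≠ 0) : ∃ h : (x : M)⁻¹ ∈ hM.OC, st ⟨(x : M)⁻¹, h⟩ = (st x)⁻¹ := by
  have h1 : ¬ hM.vc (x : M) < 1 := fun h => hx ((hst.2.2 x).2 h)
  have h2 : hM.vc (x : M) = 1 := le_antisymm (hM.OC.valuation_le_one x) (not_lt.1 h1)
  have h3 : IsUnit x := (hM.OC.valuation_eq_one_iff x).2 h2
  obtain ⟨u, hu⟩ := h3
  have h4 : (x : M) * ((u⁻¹ : (hM.OC)ˣ) : hM.OC) = 1 := by
    rw [← hu]
    exact congrArg Subtype.val (u.mul_inv)
  have h5 : (x : M)⁻¹ = ((u⁻¹ : (hM.OC)ˣ) : hM.OC) := inv_eq_of_mul_eq_one_right h4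
  refine ⟨h5 ▸ Subtype.coe_prop _, ?_⟩
  apply eq_inv_of_mul_eq_one_right
  rw [← map_mul, ← map_one st]
  congr 1
  apply Subtype.ext
  show (x : M) * (x : M)⁻¹ = 1
  rw [h5]
  exact h4

theorem isUnit_of_coeff_one {F : Polynomial (OO p)} {w : OO p} (hw : PowerSeries.X ∣ w)
    {u : OO p} (hu : IsUnit u) (h : F.coeff 0 = u) : IsUnit (F.eval w) := by
  have h1 : PowerSeries.X ∣ F.eval w - u := by
    have h2 := Polynomial.sub_dvd_eval_sub w 0 F
    rw [sub_zero] at h2
    have h3 : F.eval 0 = u := by rw [← h, Polynomial.coeff_zero_eq_eval_zero]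
    rw [h3] at h2
    exact dvd_trans hw h2
  have h4 : PowerSeries.constantCoeff (F.eval w) = PowerSeries.constantCoeff u := by
    rw [← sub_eq_zero, ← map_sub]
    exact PowerSeries.X_dvd_iff.1 h1
  rw [PowerSeries.isUnit_iff_constantCoeff, h4]
  exact PowerSeries.isUnit_iff_constantCoeff.1 hu

theorem lift_root (hM : Mdl p σ) {st : hM.OC →+* KK p} (hst : StD hM st) (s : hM.OC) (ζ : KK p)
    (P : P3 p) (h0 : ev2 (tauK p) (st s) ζ P = 0)
    (h1 : ev2 (tauK p) (st s) ζ (derivative P) ≠ 0) :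
    ∃ z : hM.OC, ev2 σ (s : M) (z : M) P = 0 ∧ st z = ζ := by
  set ξ := st s with hξ
  set φ : Polynomial (KK p) := P.map (ev1 (tauK p) ξ) with hφ
  rw [ev2_map_eval] at h0 h1
  rw [← Polynomial.derivative_map] at h1
  change φ.eval ζ = 0 at h0
  change φ.derivative.eval ζ ≠ 0 at h1
  set E : Polynomial (KK p) := φ.comp (X + C ζ) with hE
  have hE0 : E.coeff 0 = 0 := by
    rw [Polynomial.coeff_zero_eq_eval_zero, hE, eval_comp]
    simpa using h0
  have hE1 : E.coeff 1 = φ.derivative.eval ζ := by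
    have h2 : E.coeff 1 = E.derivative.coeff 0 := by
      rw [Polynomial.coeff_derivative]; simp
    rw [h2, Polynomial.coeff_zero_eq_eval_zero, hE, derivative_comp, eval_mul, eval_comp]
    simp
  obtain ⟨ν, u, hu, hν⟩ := exists_form (x := E.coeff 1) (by rw [hE1]; exact h1)
  obtain ⟨R, E', hE'⟩ := clear_poly E
  have hR : ∀ i, InO (TT p R * E.coeff i) := by
    intro i
    refine ⟨E'.coeff i, ?_⟩
    have := congrArg (fun q => q.coeff i) hE'
    simpa [coeff_map] using this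
  set m : ℕ := R + ν.natAbs + 1 with hm
  obtain ⟨μ, hμ⟩ : ∃ μ : ℕ, (μ : ℤ) = ν + m := ⟨(ν + m).toNat, Int.toNat_of_nonneg (by omega)⟩
  have hmpow : ∀ i : ℕ, TT p (m : ℤ) ^ i = TT p ((m * i : ℕ) : ℤ) := by
    intro i
    rw [TT_nat, TT_nat, ← map_pow, ← pow_mul]
  set E2 : Polynomial (KK p) := C (TT p (-(μ : ℤ))) * E.comp (C (TT p m) * X) with hE2
  have hc : ∀ i, E2.coeff i = TT p (-(μ : ℤ)) * (E.coeff i * TT p ((m * i : ℕ) : ℤ)) := by
    intro i
    rw [hE2, coeff_C_mul, comp_C_mul_X_coeff, hmpow]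
  have hc0 : E2.coeff 0 = 0 := by rw [hc, hE0, zero_mul, mul_zero]
  have hc1 : E2.coeff 1 = iK p u := by
    rw [hc, hν, mul_one]
    have h2 : TT p (-(μ : ℤ)) * (TT p ν * TT p m) = 1 := by
      rw [← TT_add, ← TT_add, ← TT_zero]
      congr 1
      omega
    linear_combination (iK p u) * h2
  have hc2 : ∀ i, 2 ≤ i → InO (TT p (-1) * E2.coeff i) := by
    intro i hi
    rw [hc]
    have h2 : TT p (-1) * (TT p (-(μ : ℤ)) * (E.coeff i * TT p ((m * i : ℕ) : ℤ))) =
        TT p (-1 - μ + (m * i : ℕ)) * E.coeff i := by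
      have h3 : (-1 - (μ : ℤ) + ((m * i : ℕ) : ℤ)) = -1 + -(μ : ℤ) + ((m * i : ℕ) : ℤ) := by ring
      rw [h3, TT_add, TT_add]
      ring
    rw [h2]
    refine InO.mono ?_ (hR i)
    have h4 : m * 2 ≤ m * i := Nat.mul_le_mul_left m hi
    omega
  have hlift : E2 ∈ Polynomial.lifts (iK p) := by
    rw [Polynomial.lifts_iff_coeff_lifts]
    intro i
    rcases i with _ | _ | i
    · exact ⟨0, by rw [map_zero, hc0]⟩
    · exact ⟨u, hc1.symm⟩
    · obtain ⟨b, hb⟩ := hc2 (i + 2) (by omega)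
      refine ⟨PowerSeries.X * b, ?_⟩
      have h3 := TT_neg_mul (p := p) 1
      have h4 := TT_nat (p := p) 1
      rw [pow_one, Nat.cast_one] at h4
      rw [map_mul, hb, ← h4]
      linear_combination (E2.coeff (i + 2)) * h3
  obtain ⟨F, hF⟩ := (Polynomial.mem_lifts _).1 hlift
  have hFc : ∀ i, iK p (F.coeff i) = E2.coeff i := by
    intro i
    rw [← hF, coeff_map]
  have hF0 : F.coeff 0 = 0 := iK_injective (by rw [hFc, hc0, map_zero])
  have hF1 : F.coeff 1 = u := iK_injective (by rw [hFc, hc1])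
  have hFX : F = X * F.divX := by
    conv_lhs => rw [← F.divX_mul_X_add, hF0, C_0, add_zero, mul_comm]
  have hFd : F.divX.coeff 0 = u := by rw [coeff_divX]; exact hF1
  -- the model side
  obtain ⟨y₀, d, hy₀⟩ := exists_approx hM hst ζ (m + 1)
  have h11 := TT_nat (p := p) 1
  rw [pow_one, Nat.cast_one] at h11
  set w₀ : OO p := PowerSeries.X * d with hw₀
  have hy₀' : st y₀ = ζ + TT p m * iK p w₀ := by
    rw [hy₀, hw₀, map_mul, ← h11]
    push_cast
    rw [TT_add]
    ring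
  let ti : hM.OC := ⟨(σ X)⁻¹, tinv_mem_OC hM⟩
  let tC : hM.OC := sigC hM hst X
  have htC : (tC : M) = σ X := rfl
  have hstt : st tC = TT p 1 := by rw [st_sigC, tauK_X]
  have htti : tC * ti = 1 := Subtype.ext (mul_inv_cancel₀ (t_ne_zero hM))
  have hti : st ti = TT p (-1) := by
    have h2 := congrArg st htti
    rw [map_mul, map_one, hstt] at h2
    have h3 := TT_neg_mul (p := p) 1
    apply mul_left_cancel₀ (TT_ne_zero (p := p) 1)
    rw [h2, mul_comm, h3]
  have hsttm : st (tC ^ m) = TT p m := by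
    rw [map_pow, hstt, h11, ← map_pow, ← TT_nat]
  have htim : st (ti ^ μ) = TT p (-(μ : ℤ)) := by
    have h2 : tC ^ μ * ti ^ μ = 1 := by rw [← mul_pow, htti, one_pow]
    have h3 := congrArg st h2
    have h4 : st (tC ^ μ) = TT p μ := by rw [map_pow, hstt, h11, ← map_pow, ← TT_nat]
    rw [map_mul, map_one, h4] at h3
    have h5 := TT_neg_mul (p := p) (μ : ℤ)
    apply mul_left_cancel₀ (TT_ne_zero (p := p) (μ : ℤ))
    rw [h3, mul_comm, h5]
  set G : Polynomial hM.OC := C (ti ^ μ) * (P.map (ev1 (sigC hM hst) s)).comp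
    (C y₀ + C (tC ^ m) * X) with hG
  have hmapP : (P.map (ev1 (sigC hM hst) s)).map st = φ := by
    rw [Polynomial.map_map, hφ]
    congr 1
    refine Polynomial.ringHom_ext (fun f => ?_) ?_
    · simp only [RingHom.comp_apply, ev1, coe_eval₂RingHom, eval₂_C]
      exact st_sigC hM hst f
    · simp only [RingHom.comp_apply, ev1, coe_eval₂RingHom, eval₂_X]
      exact hξ.symm
  have hGmap : G.map st = (F.comp (X + C w₀)).map (iK p) := by
    rw [hG, Polynomial.map_mul, Polynomial.map_C, htim, Polynomial.map_comp, hmapP,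
      Polynomial.map_add, Polynomial.map_mul, Polynomial.map_C, Polynomial.map_C, Polynomial.map_X,
      hsttm, hy₀', Polynomial.map_comp, hF, hE2, hE, Polynomial.map_add, Polynomial.map_C,
      Polynomial.map_X]
    simp only [mul_comp, C_comp, comp_assoc, add_comp, X_comp]
    congr 2
    simp only [map_add, map_mul]
    ring
  have hGc : ∀ i, st (G.coeff i) = iK p ((F.comp (X + C w₀)).coeff i) := by
    intro i
    rw [← coeff_map, hGmap, coeff_map]
  have hXw₀ : PowerSeries.X ∣ w₀ := Dvd.intro _ rfl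
  have hX0 : PowerSeries.X ∣ (F.comp (X + C w₀)).coeff 0 := by
    rw [Polynomial.coeff_zero_eq_eval_zero, eval_comp]
    have h2 : (X + C w₀ : Polynomial (OO p)).eval 0 = w₀ := by simp
    rw [h2, hFX, eval_mul, eval_X]
    exact Dvd.dvd.mul_right hXw₀ _
  have hU1 : IsUnit ((F.comp (X + C w₀)).coeff 1) := by
    have h2 : (F.comp (X + C w₀)).coeff 1 = F.derivative.eval w₀ := by
      have h3 : (F.comp (X + C w₀)).coeff 1 = (F.comp (X + C w₀)).derivative.coeff 0 := by
        rw [Polynomial.coeff_derivative]; simp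
      rw [h3, Polynomial.coeff_zero_eq_eval_zero, derivative_comp, eval_mul, eval_comp]
      simp
    rw [h2]
    refine isUnit_of_coeff_one hXw₀ hu ?_
    rw [Polynomial.coeff_derivative]
    simp [hF1]
  have hVOc : ∀ i, VO (σ X) ((G.map hM.OC.subtype).coeff i) := by
    intro i
    rw [coeff_map]
    exact (hst.2.1 (G.coeff i)).2 (by rw [hGc]; exact InO.iK _)
  have hne : (G.map hM.OC.subtype).coeff 1 ≠ 0 := by
    rw [coeff_map]
    intro h2
    have h3 : G.coeff 1 = 0 := Subtype.ext h2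
    have h4 := hGc 1
    rw [h3, map_zero] at h4
    exact hU1.ne_zero (iK_injective (by rw [← h4, map_zero]))
  have hVO0 : VO (σ X) ((G.map hM.OC.subtype).coeff 0 / σ X) := by
    have h2 : (G.map hM.OC.subtype).coeff 0 / σ X = ((G.coeff 0 * ti : hM.OC) : M) := by
      rw [coeff_map, div_eq_mul_inv]
      rfl
    rw [h2]
    refine (hst.2.1 _).2 ?_
    obtain ⟨b, hb⟩ := hX0
    rw [map_mul, hGc, hb, hti, map_mul, ← h11]
    have h3 := TT_neg_mul (p := p) 1
    have h4 : TT p 1 * iK p b * TT p (-1) = iK p b := by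
      linear_combination (iK p b) * h3
    rw [h4]
    exact InO.iK b
  have hVO1 : VO (σ X) ((G.map hM.OC.subtype).coeff 1)⁻¹ := by
    have h2 : st (G.coeff 1) ≠ 0 := by
      rw [hGc]
      intro h3
      exact hU1.ne_zero (iK_injective (by rw [h3, map_zero]))
    obtain ⟨h3, h4⟩ := st_inv hM hst (G.coeff 1) h2
    rw [coeff_map]
    refine (hst.2.1 ⟨_, h3⟩).2 ?_
    rw [h4, hGc]
    obtain ⟨b, hb⟩ := hU1.exists_right_inv
    have h5 : (iK p ((F.comp (X + C w₀)).coeff 1))⁻¹ = iK p b := by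
      apply inv_eq_of_mul_eq_one_right
      rw [← map_mul, hb, map_one]
    rw [h5]
    exact InO.iK b
  obtain ⟨y, hy, hGy⟩ := hM.hensel (G.map hM.OC.subtype) hVOc hVO0 hne hVO1
  let yC : hM.OC := ⟨y, ⟨0, by rw [pow_zero, one_mul]; exact hy⟩⟩
  let z : hM.OC := y₀ + tC ^ m * (tC * yC)
  have hzP : ev2 (sigC hM hst) s z P = 0 := by
    have h2 : G.eval (tC * yC) = 0 := by
      apply Subtype.ext
      have h3 : ((G.eval (tC * yC) : hM.OC) : M) =
          (G.map hM.OC.subtype).eval ((tC * yC : hM.OC) : M) :=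
        (Polynomial.eval_map_apply hM.OC.subtype (tC * yC)).symm
      rw [h3]
      exact hGy
    rw [hG, eval_mul, eval_C, eval_comp] at h2
    have h3 : (C y₀ + C (tC ^ m) * X : Polynomial hM.OC).eval (tC * yC) = z := by
      simp [z]
    rw [h3, ← ev2_map_eval] at h2
    have h4 : tC ^ μ * ti ^ μ = 1 := by rw [← mul_pow, htti, one_pow]
    calc ev2 (sigC hM hst) s z P = (tC ^ μ * ti ^ μ) * ev2 (sigC hM hst) s z P := by
          rw [h4, one_mul]
      _ = tC ^ μ * (ti ^ μ * ev2 (sigC hM hst) s z P) := by ring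
      _ = 0 := by rw [h2, mul_zero]
  refine ⟨z, ?_, ?_⟩
  · rw [← coe_ev2 hM hst, hzP]
    rfl
  · obtain ⟨b, hb⟩ : InO (st yC) := (hst.2.1 yC).1 hy
    set w₁ : OO p := w₀ + PowerSeries.X * b with hw₁
    have hz : st z = ζ + TT p m * iK p w₁ := by
      show st (y₀ + tC ^ m * (tC * yC)) = _
      have e1 : iK p (PowerSeries.X * b) = TT p 1 * iK p b := by rw [map_mul, ← h11]
      rw [map_add, map_mul, map_mul, hsttm, hstt, hy₀', ← hb, hw₁, map_add, e1]
      ring
    have h2 : φ.eval (st z) = 0 := by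
      have h3 := st_ev2 hM hst s z P
      rw [hzP, map_zero, ev2_map_eval] at h3
      exact h3.symm
    have h3 : F.eval w₁ = 0 := by
      apply iK_injective
      have h4 : iK p (F.eval w₁) = E2.eval (iK p w₁) := by
        rw [← hF, Polynomial.eval_map_apply]
      rw [h4, hE2, hE, map_zero, eval_mul, eval_comp, eval_comp]
      have h5 : (X + C ζ : Polynomial (KK p)).eval ((C (TT p m) * X : Polynomial (KK p)).eval
          (iK p w₁)) = st z := by
        rw [hz]
        simp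
        ring
      rw [h5, h2, mul_zero]
    have h4 : w₁ = 0 := by
      rw [hFX, eval_mul, eval_X] at h3
      refine (mul_eq_zero.1 h3).resolve_right ?_
      exact (isUnit_of_coeff_one (dvd_add hXw₀ (Dvd.intro _ rfl)) hu hFd).ne_zero
    rw [hz, h4, map_zero, mul_zero, add_zero]

end BF80.CI
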