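import Pool.Agent.BF80.Defs2
import Pool.Agent.FT80.Theta
import Pool.Agent.FT80.Sep
set_option maxSynthPendingDepth 10
set_option linter.unusedSectionVars false
open Polynomial
namespace BF80.CI
open FT80 BF80

section gen
variable {R L : Type*} [CommRing R] [IsDomain R] [Field L]

/-- simple roots -/
def Simp (φ : R →+* L) (z : L) : Prop := ∃ P : Polynomial R, ev1 φ z P = 0 ∧ ev1 φ z (derivative P) ≠ 0

theorem simp_iff (φ : R →+* L) (hφ : Function.Injective φ) [Algebra R L]
    [Algebra (FractionRing R) L] [IsScalarTower R (FractionRing R) L]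
    (h : algebraMap R L = φ) (z : L) : Simp φ z ↔ IsSeparable (FractionRing R) z := by
  have hev : ∀ A : Polynomial R,
      ev1 φ z A = aeval z (A.map (algebraMap R (FractionRing R))) := by
    intro A
    rw [aeval_map_algebraMap, aeval_def, h]
    rfl
  constructor
  · rintro ⟨q, hq, hq'⟩
    have hq0 : q ≠ 0 := by
      rintro rfl
      simp at hq'
    have hint : IsIntegral (FractionRing R) z := by
      refine IsAlgebraic.isIntegral ⟨q.map (algebraMap R (FractionRing R)), ?_, ?_⟩
      · rwa [Ne, Polynomial.map_eq_zero_iff (IsFractionRing.injective R (FractionRing R))]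
      · rw [← hev]; exact hq
    unfold IsSeparable
    rw [Polynomial.separable_iff_derivative_ne_zero (minpoly.irreducible hint)]
    intro h0
    obtain ⟨g, hg⟩ := minpoly.dvd (FractionRing R) z (by rw [← hev]; exact hq)
    apply hq'
    rw [hev, ← Polynomial.derivative_map, hg, Polynomial.derivative_mul, h0, zero_mul, zero_add,
      map_mul, minpoly.aeval, zero_mul]
  · intro hs
    obtain ⟨b, hb⟩ := IsLocalization.integerNormalization_map_to_map (nonZeroDivisors R)
      (minpoly (FractionRing R) z)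
    set N := IsLocalization.integerNormalization (nonZeroDivisors R) (minpoly (FractionRing R) z)
    have hb0 : φ b ≠ 0 := by
      rw [Ne, map_eq_zero_iff φ hφ]
      exact nonZeroDivisors.coe_ne_zero b
    have hmap : N.map (algebraMap R (FractionRing R)) =
        C (algebraMap R (FractionRing R) b) * minpoly (FractionRing R) z := by
      rw [hb, Algebra.smul_def, IsScalarTower.algebraMap_apply R (FractionRing R)
          (Polynomial (FractionRing R)), Polynomial.algebraMap_eq]
    have hbz : ∀ Q : Polynomial (FractionRing R),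
        aeval z (C (algebraMap R (FractionRing R) (b : R)) * Q) = φ b * aeval z Q := by
      intro Q
      rw [map_mul, aeval_C, ← IsScalarTower.algebraMap_apply, h]
    refine ⟨N, ?_, ?_⟩
    · rw [hev, hmap, hbz, minpoly.aeval, mul_zero]
    · rw [hev, ← Polynomial.derivative_map, hmap, Polynomial.derivative_C_mul, hbz]
      exact mul_ne_zero hb0 (hs.aeval_derivative_ne_zero (minpoly.aeval _ _))

/-- the separable closure -/
noncomputable def simpField (φ : R →+* L) (hφ : Function.Injective φ) : Subfield L :=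
  letI : Algebra R L := φ.toAlgebra
  letI : Algebra (FractionRing R) L := (IsFractionRing.lift (K := FractionRing R) hφ).toAlgebra
  (separableClosure (FractionRing R) L).toSubfield

theorem mem_simpField (φ : R →+* L) (hφ : Function.Injective φ) (z : L) :
    z ∈ simpField φ hφ ↔ Simp φ z := by
  letI : Algebra R L := φ.toAlgebra
  letI : Algebra (FractionRing R) L := (IsFractionRing.lift (K := FractionRing R) hφ).toAlgebra
  haveI : IsScalarTower R (FractionRing R) L := by
    refine IsScalarTower.of_algebraMap_eq (fun r => ?_)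
    exact (IsFractionRing.lift_algebraMap hφ r).symm
  rw [simp_iff φ hφ rfl]
  exact mem_separableClosure_iff

end gen

section maclane

variable {p : ℕ} [Fact p.Prime]

theorem pspan_frac {R ι : Type*} [CommRing R] [IsDomain R] [Fintype ι] {b : ι → R}
    (hb : FT80.SepC.PSpan p b) :
    FT80.SepC.PSpan p (fun i => algebraMap R (FractionRing R) (b i)) := by
  have hp : p.Prime := Fact.out
  intro r
  obtain ⟨a, s, hs, rfl⟩ := IsFractionRing.div_surjective (A := R) r
  obtain ⟨c, hc⟩ := hb (a * s ^ (p - 1))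
  have hs0 : algebraMap R (FractionRing R) s ≠ 0 :=
    (map_ne_zero_iff _ (IsFractionRing.injective R (FractionRing R))).2 (nonZeroDivisors.ne_zero hs)
  refine ⟨fun i => algebraMap R (FractionRing R) (c i) / algebraMap R (FractionRing R) s, ?_⟩
  have h1 := congrArg (algebraMap R (FractionRing R)) hc
  rw [map_mul, map_pow, map_sum] at h1
  have h2 : ∑ i, algebraMap R (FractionRing R) (b i) *
      (algebraMap R (FractionRing R) (c i) / algebraMap R (FractionRing R) s) ^ p =
      (∑ i, algebraMap R (FractionRing R) (b i * c i ^ p)) /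
        algebraMap R (FractionRing R) s ^ p := by
    rw [Finset.sum_div]
    refine Finset.sum_congr rfl fun i _ => ?_
    rw [map_mul, map_pow, div_pow]
    ring
  rw [h2, ← h1, eq_div_iff (pow_ne_zero _ hs0), div_mul_eq_mul_div, div_eq_iff hs0]
  obtain ⟨q, hq⟩ : ∃ q, p = q + 1 := ⟨p - 1, by have := hp.pos; omega⟩
  rw [hq, Nat.add_sub_cancel, pow_succ]
  ring

/-- MacLane criterion for fields with a map to `K` -/
theorem maclane {L : Type*} [Field L] [Algebra (FractionRing (P1 p)) L] (τ : L →+* KK p)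
    (hτ : ∀ f : P1 p, τ (algebraMap (FractionRing (P1 p)) L (algebraMap _ _ f)) = tauK p f)
    (s : Finset L) (hs : LinearIndepOn (FractionRing (P1 p)) _root_.id (s : Set L)) :
    LinearIndepOn (FractionRing (P1 p)) (· ^ p) (s : Set L) := by
  classical
  have hp : p.Prime := Fact.out
  rw [linearIndepOn_finset_iff] at hs ⊢
  intro g hg
  have hspan := pspan_frac (FT80.SepC.pspan_poly p (FT80.SepC.pspan_zmod p))
  choose c hc using fun m : L => hspan (g m)
  have hcharL : CharP L p := charP_of_injective_ringHom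
    (f := (algebraMap (FractionRing (P1 p)) L).comp ((algebraMap (P1 p) _).comp
      (C : ZMod p →+* P1 p))) (RingHom.injective _) p
  have h1 : ∑ i : Unit × Fin p, algebraMap (FractionRing (P1 p)) L
      (algebraMap (P1 p) _ (C (1 : ZMod p) * X ^ (i.2 : ℕ))) * (∑ m ∈ s, c m i • m) ^ p = 0 := by
    rw [← hg]
    simp_rw [sum_pow_char, Finset.mul_sum]
    rw [Finset.sum_comm]
    refine Finset.sum_congr rfl fun m _ => ?_
    conv_rhs => rw [hc m]
    rw [Finset.sum_smul]
    refine Finset.sum_congr rfl fun i _ => ?_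
    simp only [Algebra.smul_def, map_mul, map_pow, mul_pow]
    ring
  have h2 := congrArg τ h1
  rw [map_sum, map_zero] at h2
  have h3 := FT80.SepC.pindep_K (p := p) (fun i => τ (∑ m ∈ s, c m i • m)) (by
    rw [← h2]
    refine Finset.sum_congr rfl fun i _ => ?_
    rw [map_mul, map_pow, hτ])
  have h4 : ∀ i, ∀ m ∈ s, c m i = 0 := by
    intro i
    exact hs (fun m => c m i) (by
      have := h3 i
      rwa [map_eq_zero] at this)
  intro m hm
  rw [hc m]
  refine Finset.sum_eq_zero fun i _ => ?_
  rw [h4 i m hm, zero_pow hp.ne_zero, mul_zero]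

end maclane

section field

theorem sep_elt_field {k L : Type*} [Field k] [Field L] [Algebra k L] [Algebra.EssFiniteType k L]
    (p : ℕ) [ExpChar k p] (hp : p.Prime)
    (H : ∀ s : Finset L, LinearIndepOn k _root_.id (s : Set L) →
      LinearIndepOn k (· ^ p) (s : Set L))
    (x : L) (hx : Transcendental k x) (halg : ∀ z : L, IsAlgebraic (Algebra.adjoin k {x}) z) :
    ∃ s : L, Transcendental k s ∧ Algebra.IsSeparable (IntermediateField.adjoin k {s}) L := by
  have hb : IsTranscendenceBasis k (fun _ : Unit => x) := by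
    have h1 : AlgebraicIndependent k (fun _ : Unit => x) :=
      algebraicIndependent_unique_type_iff.2 hx
    rw [h1.isTranscendenceBasis_iff_isAlgebraic, Set.range_const]
    exact ⟨halg⟩
  obtain ⟨s, hs, hsep⟩ :=
    exists_isTranscendenceBasis_and_isSeparable_of_linearIndepOn_pow_of_essFiniteType p hp H
  have hcard := IsTranscendenceBasis.lift_cardinalMk_eq hb hs
  have hc1 : s.card = 1 := by
    have h1 : Fintype.card s = 1 := by
      have h2 := hcard
      rw [Cardinal.mk_fintype, Cardinal.mk_fintype] at h2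
      simp only [Fintype.card_unit, Nat.cast_one, Cardinal.lift_one, Cardinal.lift_natCast] at h2
      exact_mod_cast h2.symm
    rwa [Fintype.card_coe] at h1
  obtain ⟨s0, rfl⟩ := Finset.card_eq_one.1 hc1
  refine ⟨s0, ?_, ?_⟩
  · have h1 := hs.1.transcendental ⟨s0, Finset.mem_singleton_self s0⟩
    exact h1
  · rw [Finset.coe_singleton] at hsep
    exact hsep

end field

section rat
variable {R L : Type*} [CommRing R] [IsDomain R] [Field L]

theorem simp_of_rat (φ : R →+* L) (z : L) (m : Polynomial L)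
    (hm : ∀ i, ∃ a b : R, φ b ≠ 0 ∧ φ b * m.coeff i = φ a) (h0 : m.eval z = 0)
    (h1 : (derivative m).eval z ≠ 0) : Simp φ z := by
  classical
  choose a b hb hab using hm
  set d : R := ∏ i ∈ m.support, b i with hd
  have hd0 : φ d ≠ 0 := by
    rw [hd, map_prod]
    exact Finset.prod_ne_zero_iff.2 fun i _ => hb i
  have hl : C (φ d) * m ∈ Polynomial.lifts φ := by
    rw [Polynomial.lifts_iff_coeff_lifts]
    intro i
    rw [coeff_C_mul]
    by_cases hi : i ∈ m.support
    · refine ⟨(∏ j ∈ m.support.erase i, b j) * a i, ?_⟩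
      rw [hd, ← Finset.mul_prod_erase _ _ hi, map_mul, map_mul, ← hab]
      ring
    · rw [notMem_support_iff.1 hi]
      exact ⟨0, by rw [map_zero, mul_zero]⟩
  obtain ⟨P, hP⟩ := (Polynomial.mem_lifts _).1 hl
  have hev : ∀ Q : Polynomial R, ev1 φ z Q = (Q.map φ).eval z := by
    intro Q
    rw [Polynomial.eval_map]
    rfl
  refine ⟨P, ?_, ?_⟩
  · rw [hev, hP, eval_mul, h0, mul_zero]
  · rw [hev, ← Polynomial.derivative_map, hP, derivative_C_mul, eval_mul, eval_C]
    exact mul_ne_zero hd0 h1

end rat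

section exsep

variable {p : ℕ} [Fact p.Prime]

theorem Simp.map {R L L' : Type*} [CommRing R] [IsDomain R] [Field L] [Field L'] {φ : R →+* L}
    (ι : L →+* L') {z : L} (h : Simp φ z) : Simp (ι.comp φ) (ι z) := by
  obtain ⟨P, h0, h1⟩ := h
  have hev : ∀ Q : Polynomial R, ev1 (ι.comp φ) (ι z) Q = ι (ev1 φ z Q) := by
    intro Q
    exact (Polynomial.hom_eval₂ Q φ ι z).symm
  refine ⟨P, ?_, ?_⟩
  · rw [hev, h0, map_zero]
  · rw [hev]
    exact fun h => h1 ((map_eq_zero ι).1 h)

theorem comp_ev1 {R L L' : Type*} [CommRing R] [Field L] [Field L'] (φ : R →+* L)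
    (ι : L →+* L') (z : L) : ι.comp (ev1 φ z) = ev1 (ι.comp φ) (ι z) := by
  refine RingHom.ext fun Q => ?_
  exact Polynomial.hom_eval₂ Q φ ι z

theorem exists_sep {M : Type*} [Field M] (σ : P1 p →+* M) (hσ : Function.Injective σ) (x : M)
    (hx : ¬ Alg1 σ x) (F : Finset M) (hF : ∀ a ∈ F, Alg1 (ev1 σ x) a) (E0 : Subfield M)
    (hE0 : ∀ z, z ∈ E0 ↔ Alg1 (ev1 σ x) z) (τ : E0 →+* KK p)
    (hτ : ∀ f : P1 p, ∃ h : σ f ∈ E0, τ ⟨σ f, h⟩ = tauK p f) :
    ∃ s : M, ∀ s' : M, s' = s ∨ s' = s⁻¹ → Alg1 (ev1 σ x) s' ∧ ¬ Alg1 σ s' ∧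
      Simp (ev1 σ s') x ∧ ∀ z ∈ F, Simp (ev1 σ s') z := by
  classical
  have hp : p.Prime := Fact.out
  have hσE : ∀ f, σ f ∈ E0 := fun f => (hτ f).choose
  have hτ' : ∀ f, τ ⟨σ f, hσE f⟩ = tauK p f := fun f => (hτ f).choose_spec
  let σ0 : P1 p →+* E0 := σ.codRestrict E0 hσE
  have hσ0 : Function.Injective σ0 := fun a b h => hσ (congrArg Subtype.val h)
  letI : Algebra (P1 p) E0 := σ0.toAlgebra
  letI : Algebra (FractionRing (P1 p)) E0 :=
    (IsFractionRing.lift (K := FractionRing (P1 p)) hσ0).toAlgebra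
  haveI : IsScalarTower (P1 p) (FractionRing (P1 p)) E0 := by
    refine IsScalarTower.of_algebraMap_eq (fun r => ?_)
    exact (IsFractionRing.lift_algebraMap hσ0 r).symm
  have hxE : x ∈ E0 := by
    have h1 : Alg1 (ev1 σ x) (ev1 σ x X) := by
      let _ := (ev1 σ x).toAlgebra
      exact isAlgebraic_algebraMap (R := P2 p) (A := M) X
    have h2 : ev1 σ x X = x := by simp [ev1]
    rw [h2] at h1
    exact (hE0 x).2 h1
  have hFE : ∀ a ∈ F, a ∈ E0 := fun a ha => (hE0 a).2 (hF a ha)
  let S0 : Finset E0 := insert ⟨x, hxE⟩ (F.attach.image fun a => (⟨a.1, hFE a.1 a.2⟩ : E0))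
  let L := IntermediateField.adjoin (FractionRing (P1 p)) (S0 : Set E0)
  haveI hfin : Algebra.EssFiniteType (FractionRing (P1 p)) L :=
    IntermediateField.essFiniteType_iff.2 (IntermediateField.fg_adjoin_finset S0)
  have hxS : (⟨x, hxE⟩ : E0) ∈ (S0 : Set E0) := by simp [S0]
  let xL : L := ⟨⟨x, hxE⟩, IntermediateField.subset_adjoin _ _ hxS⟩
  haveI hcp : CharP (FractionRing (P1 p)) p := charP_of_injective_ringHom
    (f := (algebraMap (P1 p) (FractionRing (P1 p))).comp (C : ZMod p →+* P1 p))
    (RingHom.injective _) p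
  haveI hec : ExpChar (FractionRing (P1 p)) p := ExpChar.prime hp
  have hmap : ∀ f : P1 p, ((algebraMap (P1 p) L f : L) : E0) = ⟨σ f, hσE f⟩ := by
    intro f
    rfl
  have hH := fun s => maclane (p := p) (L := L) (τ.comp (algebraMap L E0)) (by
    intro f
    rw [← hτ' f, ← IsScalarTower.algebraMap_apply]
    rfl) s
  let ιM : L →+* M := E0.subtype.comp (algebraMap L E0)
  have hιM : Function.Injective ιM := ιM.injective
  have hcompσ : ιM.comp (algebraMap (P1 p) L) = σ := RingHom.ext fun f => rfl
  have htr : ∀ z : L, IsAlgebraic (FractionRing (P1 p)) z → Alg1 σ (ιM z) := by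
    intro z hz
    obtain ⟨q, hq, hq'⟩ := (IsFractionRing.isAlgebraic_iff (P1 p) (FractionRing (P1 p)) L).2 hz
    refine ⟨q, hq, ?_⟩
    have h1 := Polynomial.hom_eval₂ q (algebraMap (P1 p) L) ιM z
    rw [hcompσ] at h1
    show q.eval₂ σ (ιM z) = 0
    rw [← h1]
    have h2 : q.eval₂ (algebraMap (P1 p) L) z = 0 := hq'
    rw [h2, map_zero]
  have hxL : Transcendental (FractionRing (P1 p)) xL := fun h => hx (htr xL h)
  have halg : ∀ z : L, IsAlgebraic (Algebra.adjoin (FractionRing (P1 p)) {xL}) z := by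
    intro z
    obtain ⟨q, hq, hq'⟩ : Alg1 (ev1 σ x) (ιM z) := (hE0 _).1 (z : E0).2
    let ρ0 : P2 p →+* L := ev1 (algebraMap (P1 p) L) xL
    have hρ0 : ιM.comp ρ0 = ev1 σ x := by
      rw [comp_ev1, hcompσ]
      rfl
    have hρinj : Function.Injective ρ0 := by
      rw [injective_iff_map_eq_zero]
      intro f hf
      by_contra hne
      apply hx
      refine ⟨f, hne, ?_⟩
      rw [← hρ0, RingHom.comp_apply, hf, map_zero]
    have hρmem : ∀ f, ρ0 f ∈ Algebra.adjoin (FractionRing (P1 p)) {xL} := by
      intro f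
      induction f using Polynomial.induction_on' with
      | add a b ha hb => rw [map_add]; exact add_mem ha hb
      | monomial n a =>
        have h1 : ρ0 (monomial n a) = algebraMap (FractionRing (P1 p)) L
            (algebraMap (P1 p) _ a) * xL ^ n := by
          simp only [ρ0, ev1, coe_eval₂RingHom, eval₂_monomial]
          rw [← IsScalarTower.algebraMap_apply]
        rw [h1]
        exact mul_mem (Subalgebra.algebraMap_mem _ _)
          (pow_mem (Algebra.subset_adjoin (Set.mem_singleton _)) _)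
    let ρ : P2 p →+* Algebra.adjoin (FractionRing (P1 p)) {xL} :=
      ρ0.codRestrict _ hρmem
    have hρ : Function.Injective ρ := fun a b h => hρinj (congrArg Subtype.val h)
    refine ⟨q.map ρ, ?_, ?_⟩
    · rwa [Ne, Polynomial.map_eq_zero_iff hρ]
    · rw [aeval_def, eval₂_map]
      apply hιM
      rw [Polynomial.hom_eval₂, map_zero]
      have h2 : ιM.comp ((algebraMap (Algebra.adjoin (FractionRing (P1 p)) {xL}) L).comp ρ) =
          ev1 σ x := by
        rw [← hρ0]
        rfl
      rw [h2]
      exact hq'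
  obtain ⟨s, hs, hsep⟩ := sep_elt_field p hp hH xL hxL halg
  refine ⟨ιM s, fun s' hs' => ?_⟩
  obtain ⟨s1, rfl, hs1⟩ : ∃ s1 : L, ιM s1 = s' ∧ (s1 = s ∨ s1 = s⁻¹) := by
    rcases hs' with rfl | rfl
    · exact ⟨s, rfl, Or.inl rfl⟩
    · exact ⟨s⁻¹, map_inv₀ _ _, Or.inr rfl⟩
  have hle : IntermediateField.adjoin (FractionRing (P1 p)) {s} ≤
      IntermediateField.adjoin (FractionRing (P1 p)) {s1} := by
    rw [IntermediateField.adjoin_simple_le_iff]
    rcases hs1 with rfl | rfl
    · exact IntermediateField.mem_adjoin_simple_self _ _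
    · have h1 := inv_mem (IntermediateField.mem_adjoin_simple_self (FractionRing (P1 p)) s⁻¹)
      rwa [inv_inv] at h1
  have hs1t : Transcendental (FractionRing (P1 p)) s1 := by
    rcases hs1 with rfl | rfl
    · exact hs
    · intro h
      apply hs
      have := h.inv
      rwa [inv_inv] at this
  have hsimp : ∀ z : L, Simp (ev1 σ (ιM s1)) (ιM z) := by
    intro z
    have hz := hsep.isSeparable' z
    set m := (minpoly (IntermediateField.adjoin (FractionRing (P1 p)) {s}) z) with hm
    have h1 : Simp (ev1 (algebraMap (P1 p) L) s1) z := by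
      refine simp_of_rat _ z (m.map (algebraMap _ L)) ?_ ?_ ?_
      · intro i
        rw [coeff_map]
        have h2 : algebraMap (IntermediateField.adjoin (FractionRing (P1 p)) {s}) L (m.coeff i) ∈
          IntermediateField.adjoin (FractionRing (P1 p)) {s1} := hle (m.coeff i).2
        rw [← rat1_iff (algebraMap (P1 p) L) (by
          intro a b h
          apply hσ
          rw [← hcompσ]
          exact congrArg ιM h) rfl] at h2
        obtain ⟨A, B, hB, hAB⟩ := h2
        exact ⟨A, B, hB, hAB⟩
      · rw [Polynomial.eval_map, ← aeval_def]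
        exact minpoly.aeval _ _
      · rw [Polynomial.derivative_map, Polynomial.eval_map, ← aeval_def]
        exact hz.aeval_derivative_ne_zero (minpoly.aeval _ _)
    have h2 := h1.map ιM
    rw [comp_ev1, hcompσ] at h2
    exact h2
  refine ⟨(hE0 _).1 (s1 : E0).2, fun h => ?_, hsimp xL, fun z hz => ?_⟩
  · apply hs1t
    obtain ⟨q, hq, hq'⟩ := h
    refine (IsFractionRing.isAlgebraic_iff (P1 p) (FractionRing (P1 p)) L).1 ⟨q, hq, ?_⟩
    apply hιM
    have h1 := Polynomial.hom_eval₂ q (algebraMap (P1 p) L) ιM s1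
    rw [hcompσ] at h1
    rw [map_zero]
    exact h1.trans hq'
  · have hzS : (⟨z, hFE z hz⟩ : E0) ∈ (S0 : Set E0) := by
      simp only [S0, Finset.coe_insert, Set.mem_insert_iff]
      right
      simp only [Finset.coe_image, Set.mem_image, Finset.mem_coe]
      exact ⟨⟨z, hz⟩, Finset.mem_attach _ _, rfl⟩
    exact hsimp ⟨⟨z, hFE z hz⟩, IntermediateField.subset_adjoin _ _ hzS⟩

end exsep

end BF80.CI
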