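import Pool.Agent.BF80.Star

/-!
# Ultrapowers: definable valuation ring, models, Los
-/

set_option autoImplicit false
set_option maxSynthPendingDepth 10

open Polynomial Filter

namespace BF80

open FT80

variable {p : ℕ} [Fact p.Prime]

section up

variable {M : Type} [Field M]

theorem VO_cl (t : M) (f : ℕ → M) : VO (diag M t) (cl M f) ↔ ∀ᶠ l in ((hyperfilter ℕ : Ultrafilter ℕ) : Filter ℕ), VO t (f l) := by
  constructor
  · rintro ⟨y, hy⟩
    obtain ⟨g, rfl⟩ := cl_surj y
    have h : cl M (g ^ 2 + g) = cl M ((fun _ => t) * f ^ 2) := by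
      rw [map_add, map_pow, map_mul, map_pow]
      exact hy
    rw [cl_eq] at h
    exact h.mono fun l hl => ⟨g l, hl⟩
  · intro h
    obtain ⟨g, hg⟩ := h.choice
    refine ⟨cl M g, ?_⟩
    have h : cl M (g ^ 2 + g) = cl M ((fun _ => t) * f ^ 2) := by
      rw [cl_eq]
      exact hg
    rw [map_add, map_pow, map_mul, map_pow] at h
    exact h

theorem VO_up (t : M) (f : ℕ → M) : VO (diag M t) ((f : ℕ → M) : UP M) ↔
    ∀ᶠ l in ((hyperfilter ℕ : Ultrafilter ℕ) : Filter ℕ), VO t (f l) := VO_cl t f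

theorem cl_inv (f : ℕ → M) : (cl M f)⁻¹ = cl M (fun l => (f l)⁻¹) := rfl

theorem cl_div (f g : ℕ → M) : cl M f / cl M g = cl M (fun l => f l / g l) := rfl

theorem cl_natCast (a : ℕ) : ((a : ℕ) : UP M) = cl M (fun _ => (a : M)) := by
  have h : (fun _ => (a : M)) = ((a : ℕ) : ℕ → M) := by
    funext l
    rfl
  rw [h, map_natCast]

theorem ev_ex_lt {n : ℕ} {P : ℕ → ℕ → Prop} (h : ∀ᶠ l in ((hyperfilter ℕ : Ultrafilter ℕ) : Filter ℕ), ∃ a < n, P l a) :
    ∃ a < n, ∀ᶠ l in ((hyperfilter ℕ : Ultrafilter ℕ) : Filter ℕ), P l a := by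
  by_contra hc
  push Not at hc
  have h1 : ∀ a ∈ Finset.range n, ∀ᶠ l in ((hyperfilter ℕ : Ultrafilter ℕ) : Filter ℕ), ¬ P l a := by
    intro a ha
    exact hc a (Finset.mem_range.1 ha)
  have h2 : ∀ᶠ l in ((hyperfilter ℕ : Ultrafilter ℕ) : Filter ℕ), ∀ a ∈ Finset.range n, ¬ P l a := (eventually_all_finset _).2 h1
  obtain ⟨l, hl, hl'⟩ := (h.and h2).exists
  obtain ⟨a, ha, hP⟩ := hl
  exact hl' a (Finset.mem_range.2 ha) hP

theorem cl_zero_iff (f : ℕ → M) : cl M f = 0 ↔ ∀ᶠ l in ((hyperfilter ℕ : Ultrafilter ℕ) : Filter ℕ), f l = 0 := by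
  rw [← map_zero (cl M), cl_eq]
  rfl

theorem cl_ne_zero_iff (f : ℕ → M) : cl M f ≠ 0 ↔ ∀ᶠ l in ((hyperfilter ℕ : Ultrafilter ℕ) : Filter ℕ), f l ≠ 0 := by
  rw [ne_eq, cl_zero_iff]
  exact Ultrafilter.eventually_not.symm

omit [Fact p.Prime] in
theorem mdl_up {σ : P1 p →+* M} (hM : Mdl p σ) : Mdl p ((diag M).comp σ) := by
  set t := σ X with ht
  have htt : ((diag M).comp σ) X = cl M (fun _ => t) := rfl
  have hd : ((diag M).comp σ) X = diag M t := rfl
  refine ⟨?_, ?_, ?_, ?_, ?_, ?_, ?_, ?_⟩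
  · rw [hd, ← map_one (cl M), VO_cl]
    exact Eventually.of_forall fun l => hM.one
  · intro x y hx hy
    obtain ⟨f, rfl⟩ := cl_surj x
    obtain ⟨g, rfl⟩ := cl_surj y
    rw [hd, VO_cl] at hx hy
    rw [hd, ← map_add, VO_cl]
    exact (hx.and hy).mono fun l hl => hM.add _ _ hl.1 hl.2
  · intro x y hx hy
    obtain ⟨f, rfl⟩ := cl_surj x
    obtain ⟨g, rfl⟩ := cl_surj y
    rw [hd, VO_cl] at hx hy
    rw [hd, ← map_mul, VO_cl]
    exact (hx.and hy).mono fun l hl => hM.mul _ _ hl.1 hl.2
  · intro x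
    obtain ⟨f, rfl⟩ := cl_surj x
    rw [hd, cl_inv, VO_cl, VO_cl]
    exact Ultrafilter.eventually_or.1 (Eventually.of_forall fun l => hM.inv (f l))
  · rw [htt, cl_inv]
    intro h
    have h' : VO (diag M t) (cl M (fun _ => t⁻¹)) := h
    rw [VO_cl] at h'
    obtain ⟨l, hl⟩ := h'.exists
    exact hM.tinv hl
  · intro x hx
    obtain ⟨f, rfl⟩ := cl_surj x
    rw [hd, VO_cl] at hx
    obtain ⟨a, ha, h⟩ := ev_ex_lt (hx.mono fun l hl => hM.res _ hl)
    refine ⟨a, ha, ?_⟩
    rw [htt, cl_natCast, ← map_sub, cl_div]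
    exact (VO_cl t _).2 h
  · intro f hf hf0 hf1 hf1'
    have hrep : ∀ i, ∃ r : ℕ → M, cl M r = f.coeff i := fun i => cl_surj _
    choose r hr using hrep
    let F : ℕ → Polynomial M := fun l => ∑ i ∈ Finset.range (f.natDegree + 2), C (r i l) * X ^ i
    have hFc : ∀ l i, (F l).coeff i = if i < f.natDegree + 2 then r i l else 0 := by
      intro l i
      simp only [F, finsetSum_coeff, coeff_C_mul, coeff_X_pow, mul_ite, mul_one, mul_zero]
      rw [Finset.sum_ite_eq]
      simp only [Finset.mem_range]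
    have h0 : VO t 0 := ⟨0, by ring⟩
    have c1 : ∀ᶠ l in ((hyperfilter ℕ : Ultrafilter ℕ) : Filter ℕ), ∀ i, VO t ((F l).coeff i) := by
      have h1 : ∀ᶠ l in ((hyperfilter ℕ : Ultrafilter ℕ) : Filter ℕ), ∀ i ∈ Finset.range (f.natDegree + 2), VO t (r i l) := by
        refine (eventually_all_finset _).2 fun i _ => ?_
        have := hf i
        rw [← hr i, hd, VO_cl] at this
        exact this
      refine h1.mono fun l hl i => ?_
      rw [hFc]
      split_ifs with hi
      · exact hl i (Finset.mem_range.2 hi)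
      · exact h0
    have c2 : ∀ᶠ l in ((hyperfilter ℕ : Ultrafilter ℕ) : Filter ℕ), VO t ((F l).coeff 0 / t) := by
      have := hf0
      rw [← hr 0, htt, cl_div] at this
      refine ((VO_cl t _).1 this).mono fun l hl => ?_
      rw [hFc, if_pos (by omega)]
      exact hl
    have c3 : ∀ᶠ l in ((hyperfilter ℕ : Ultrafilter ℕ) : Filter ℕ), (F l).coeff 1 ≠ 0 := by
      rw [← hr 1, cl_ne_zero_iff] at hf1
      refine hf1.mono fun l hl => ?_
      rw [hFc, if_pos (by omega)]
      exact hl
    have c4 : ∀ᶠ l in ((hyperfilter ℕ : Ultrafilter ℕ) : Filter ℕ), VO t ((F l).coeff 1)⁻¹ := by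
      have := hf1'
      rw [← hr 1, hd, cl_inv, VO_cl] at this
      refine this.mono fun l hl => ?_
      rw [hFc, if_pos (by omega)]
      exact hl
    have c5 : ∀ᶠ l in ((hyperfilter ℕ : Ultrafilter ℕ) : Filter ℕ), ∃ y, VO t y ∧ (F l).eval (t * y) = 0 := by
      filter_upwards [c1, c2, c3, c4] with l h1 h2 h3 h4
      exact hM.hensel (F l) h1 h2 h3 h4
    obtain ⟨y, hy⟩ := c5.choice
    refine ⟨cl M y, ?_, ?_⟩
    · rw [hd, VO_cl]
      exact hy.mono fun l hl => hl.1
    · have e : f.eval (((diag M).comp σ) X * cl M y) = cl M (fun l => (F l).eval (t * y l)) := by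
        have e1 : (fun l => (F l).eval (t * y l))
            = ∑ i ∈ Finset.range (f.natDegree + 2), r i * ((fun _ => t) * y) ^ i := by
          funext l
          simp only [F, eval_finsetSum, eval_mul, eval_C, eval_pow, eval_X, Finset.sum_apply,
            Pi.mul_apply, Pi.pow_apply]
        rw [e1, map_sum, eval_eq_sum_range' (n := f.natDegree + 2) (by omega)]
        refine Finset.sum_congr rfl fun i _ => ?_
        rw [map_mul, map_pow, map_mul, hr, htt]
      rw [e, cl_zero_iff]
      exact hy.mono fun l hl => hl.2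
  · intro n hn x hx
    obtain ⟨f, rfl⟩ := cl_surj x
    rw [cl_ne_zero_iff] at hx
    have h1 : ∀ᶠ l in ((hyperfilter ℕ : Ultrafilter ℕ) : Filter ℕ), ∃ γ < p, ∃ j < n, ∃ y : M, 1 ≤ γ ∧ f l = (γ : ℕ) * t ^ j * y ^ n :=
      hx.mono fun l hl => hM.pow n hn (f l) hl
    obtain ⟨γ, hγ, h2⟩ := ev_ex_lt h1
    obtain ⟨j, hj, h3⟩ := ev_ex_lt h2
    obtain ⟨y, hy⟩ := h3.choice
    refine ⟨γ, hγ, j, hj, cl M y, ?_, ?_⟩
    · obtain ⟨l, hl⟩ := hy.exists
      exact hl.1
    · rw [htt, cl_natCast, ← map_pow, ← map_pow, ← map_mul, ← map_mul, cl_eq]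
      exact hy.mono fun l hl => hl.2

/-! ### Los -/

theorem val_cl (t : M) (x y : ℕ → M) (a : Tm) :
    a.val (diag M t) (cl M x) (cl M y) = cl M (fun l => a.val t (x l) (y l)) := by
  induction a with
  | zero => exact (map_zero (cl M)).symm
  | one => exact (map_one (cl M)).symm
  | tt => rfl
  | x => rfl
  | y => rfl
  | add a b ha hb =>
    simp only [Tm.val]
    rw [ha, hb, ← map_add]
    rfl
  | sub a b ha hb =>
    simp only [Tm.val]
    rw [ha, hb, ← map_sub]
    rfl
  | mul a b ha hb =>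
    simp only [Tm.val]
    rw [ha, hb, ← map_mul]
    rfl

theorem los_cl (t : M) (φ : BFm) (f : ℕ → ℕ → M) :
    φ.Holds (diag M t) (fun i => cl M (f i)) ↔ ∀ᶠ l in ((hyperfilter ℕ : Ultrafilter ℕ) : Filter ℕ), φ.Holds t (fun i => f i l) := by
  induction φ generalizing f with
  | eq i j a b =>
    simp only [BFm.Holds]
    rw [val_cl, val_cl, cl_eq]
  | not φ h =>
    simp only [BFm.Holds]
    rw [h]
    exact Ultrafilter.eventually_not.symm
  | and φ ψ h1 h2 =>
    simp only [BFm.Holds]
    rw [h1, h2, eventually_and]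
  | or φ ψ h1 h2 =>
    simp only [BFm.Holds]
    rw [h1, h2]
    exact Ultrafilter.eventually_or.symm
  | ex i φ h =>
    simp only [BFm.Holds]
    have key : ∀ g : ℕ → M, (Function.update (fun i => cl M (f i)) i (cl M g))
        = fun k => cl M (Function.update f i g k) := by
      intro g
      funext k
      by_cases hk : k = i
      · subst hk
        simp
      · simp [Function.update_of_ne hk]
    have key2 : ∀ (g : ℕ → M) (l : ℕ), (fun k => Function.update f i g k l)
        = Function.update (fun k => f k l) i (g l) := by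
      intro g l
      funext k
      by_cases hk : k = i
      · subst hk
        simp
      · simp [Function.update_of_ne hk]
    constructor
    · rintro ⟨a, ha⟩
      obtain ⟨g, rfl⟩ := cl_surj a
      rw [key, h] at ha
      refine ha.mono fun l hl => ⟨g l, ?_⟩
      rw [key2] at hl
      exact hl
    · intro hex
      obtain ⟨g, hg⟩ := hex.choice
      refine ⟨cl M g, ?_⟩
      rw [key, h]
      refine hg.mono fun l hl => ?_
      rw [key2]
      exact hl
  | all i φ h =>
    simp only [BFm.Holds]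
    have key : ∀ g : ℕ → M, (Function.update (fun i => cl M (f i)) i (cl M g))
        = fun k => cl M (Function.update f i g k) := by
      intro g
      funext k
      by_cases hk : k = i
      · subst hk
        simp
      · simp [Function.update_of_ne hk]
    have key2 : ∀ (g : ℕ → M) (l : ℕ), (fun k => Function.update f i g k l)
        = Function.update (fun k => f k l) i (g l) := by
      intro g l
      funext k
      by_cases hk : k = i
      · subst hk
        simp
      · simp [Function.update_of_ne hk]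
    constructor
    · intro hall
      by_contra hc
      rw [← Ultrafilter.eventually_not] at hc
      have hc' : ∀ᶠ l in ((hyperfilter ℕ : Ultrafilter ℕ) : Filter ℕ), ∃ a, ¬ φ.Holds t (Function.update (fun k => f k l) i a) :=
        hc.mono fun l hl => not_forall.1 hl
      obtain ⟨g, hg⟩ := hc'.choice
      have := hall (cl M g)
      rw [key, h] at this
      obtain ⟨l, hl1, hl2⟩ := (this.and hg).exists
      rw [key2] at hl1
      exact hl2 hl1
    · intro hall a
      obtain ⟨g, rfl⟩ := cl_surj a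
      rw [key, h]
      refine hall.mono fun l hl => ?_
      rw [key2]
      exact hl (g l)

theorem los (t : M) (f : ℕ → ℕ → M) (φ : BFm) :
    φ.Holds (diag M t) (fun i => ((f i : ℕ → M) : UP M)) ↔
      ∀ᶠ l in ((hyperfilter ℕ : Ultrafilter ℕ) : Filter ℕ), φ.Holds t (fun i => f i l) :=
  los_cl t φ f

end up

end BF80
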