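import Pool.Agent.BF80.CaseI2
import Pool.Agent.BF80.SepElt
import Pool.Agent.BF80.LiftRoot
import Pool.Agent.BF80.Up
import Pool.Agent.BF80.MdlK
set_option maxSynthPendingDepth 10
set_option linter.unusedSectionVars false
open Polynomial Filter
namespace BF80.CI
open FT80 BF80

variable {p : ℕ} [Fact p.Prime]

section transfer

theorem ev2_transfer {L : Type*} [Field L] {σ : P1 p →+* L} (C : Subfield L) (τ : C →+* KK p)
    (hτ : ∀ f : P1 p, ∃ h : σ f ∈ C, τ ⟨σ f, h⟩ = tauK p f) (s z : C) (Q : P3 p) :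
    ev2 σ (s : L) (z : L) Q = 0 ↔ ev2 (tauK p) (τ s) (τ z) Q = 0 := by
  have hm : ∀ f, σ f ∈ C := fun f => (hτ f).choose
  let σC : P1 p →+* C := σ.codRestrict C hm
  have h1 : ((ev2 σC s z Q : C) : L) = ev2 σ (s : L) (z : L) Q := hom_ev2 σC C.subtype s z Q
  have h2 : τ (ev2 σC s z Q) = ev2 (tauK p) (τ s) (τ z) Q := by
    rw [hom_ev2]
    congr 2
    exact RingHom.ext fun f => (hτ f).choose_spec
  rw [← h1, ← h2, map_eq_zero]
  exact ⟨fun h => Subtype.ext h, fun h => by rw [h]; rfl⟩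

theorem alg1_of_alg {R L : Type*} [CommRing R] [IsDomain R] [Field L] {σ : R →+* L}
    {N : Polynomial (algField σ)} (hN : N ≠ 0) {z : L}
    (hz : N.eval₂ (algField σ).subtype z = 0) : Alg1 σ z := by
  letI : Algebra R L := σ.toAlgebra
  let σ0 : R →+* algField σ := σ.codRestrict (algField σ) (map_mem_algField σ)
  letI : Algebra R (algField σ) := σ0.toAlgebra
  haveI : IsScalarTower R (algField σ) L := IsScalarTower.of_algebraMap_eq fun r => rfl
  haveI : Algebra.IsAlgebraic R (algField σ) := ⟨by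
    rintro ⟨y, q, hq, hy⟩
    refine ⟨q, hq, ?_⟩
    apply Subtype.coe_injective
    have h1 := Polynomial.hom_eval₂ q σ0 (algField σ).subtype ⟨y, q, hq, hy⟩
    exact h1.trans hy⟩
  have h1 : IsAlgebraic (algField σ) z := ⟨N, hN, hz⟩
  exact h1.restrictScalars R

theorem exists_lift_hom {A B C : Type*} [Ring A] [Ring B] [Ring C] (f : A →+* C) (g : B →+* C)
    (hg : Function.Injective g) (h : ∀ a, ∃ b, g b = f a) : ∃ ι : A →+* B, ∀ a, g (ι a) = f a := by
  choose ι hι using h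
  refine ⟨⟨⟨⟨ι, ?_⟩, ?_⟩, ?_, ?_⟩, hι⟩
  · apply hg; rw [hι, map_one, map_one]
  · intro a b; apply hg
    show g (ι (a * b)) = g (ι a * ι b)
    rw [map_mul, hι, hι, hι, map_mul]
  · apply hg
    show g (ι 0) = g 0
    rw [hι, map_zero, map_zero]
  · intro a b; apply hg
    show g (ι (a + b)) = g (ι a + ι b)
    rw [map_add, hι, hι, hι, map_add]

end transfer

section CU
variable {M : Type} [Field M] {σ : P1 p →+* M}

theorem mem_OC_of_integral (hM : Mdl p σ) {z : M} (hz : IsIntegral hM.OC z) : z ∈ hM.OC := by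
  obtain ⟨y, hy⟩ := (IsIntegrallyClosed.isIntegral_iff (R := hM.OC) (K := M)).1 hz
  rw [← hy]
  exact Subtype.coe_prop y

theorem ev1_sigC (hM : Mdl p σ) {st : hM.OC →+* KK p} (hst : StD hM st) (s : hM.OC) (f : P2 p) :
    st (ev1 (sigC hM hst) s f) = ev1 (tauK p) (st s) f := by
  have h := st_ev2 hM hst s 0 (C f)
  have e : ∀ {S : Type} [CommRing S] (σ : P1 p →+* S) (x y : S), ev2 σ x y (C f) = ev1 σ x f := by
    intro S _ σ x y
    simp [ev2, ev1]
  rw [e, e] at h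
  exact h

theorem coe_ev1 (hM : Mdl p σ) {st : hM.OC →+* KK p} (hst : StD hM st) (s : hM.OC) (f : P2 p) :
    ((ev1 (sigC hM hst) s f : hM.OC) : M) = ev1 σ (s : M) f := by
  have := Polynomial.hom_eval₂ f (sigC hM hst) hM.OC.subtype s
  exact this

theorem algField_le_OC (hM : Mdl p σ) {st : hM.OC →+* KK p} (hst : StD hM st) (s : hM.OC)
    (hs : ∀ f : P2 p, f ≠ 0 → ev1 (tauK p) (st s) f ≠ 0) {z : M}
    (hz : Alg1 (ev1 σ (s : M)) z) : z ∈ hM.OC := by
  obtain ⟨q, hq, hqz⟩ := hz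
  set φ : P2 p →+* hM.OC := ev1 (sigC hM hst) s with hφ
  have hlc : st (φ q.leadingCoeff) ≠ 0 := by
    rw [hφ, ev1_sigC]
    exact hs _ (leadingCoeff_ne_zero.2 hq)
  obtain ⟨hinv, -⟩ := st_inv hM hst _ hlc
  have hφq : (q.map φ).leadingCoeff = φ q.leadingCoeff :=
    leadingCoeff_map_of_leadingCoeff_ne_zero φ fun h => hlc (by rw [h, map_zero])
  have hroot : aeval z (q.map φ) = 0 := by
    rw [aeval_def, eval₂_map]
    have h1 : (algebraMap hM.OC M).comp φ = ev1 σ (s : M) :=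
      RingHom.ext fun f => coe_ev1 hM hst s f
    rw [h1]
    exact hqz
  have h2 := isIntegral_leadingCoeff_smul (q.map φ) z hroot
  rw [hφq] at h2
  have h3 := mem_OC_of_integral hM h2
  have h4 : z = ((φ q.leadingCoeff : hM.OC) : M)⁻¹ * ((φ q.leadingCoeff) • z) := by
    rw [Algebra.smul_def, ← mul_assoc]
    have h5 : (algebraMap hM.OC M (φ q.leadingCoeff)) = ((φ q.leadingCoeff : hM.OC) : M) := rfl
    rw [h5, inv_mul_cancel₀, one_mul]
    intro h6
    apply hlc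
    have h7 : φ q.leadingCoeff = 0 := Subtype.ext h6
    rw [h7, map_zero]
  rw [h4]
  exact mul_mem hinv h3

end CU

section test

theorem SS_VO (s : ℕ → P1 p) : VO (sigU p X) (SS s) := by
  show VO (diag (k0 p) (sig0 p X)) ((fun l => sig0 p (s l) : ℕ → k0 p) : UP (k0 p))
  rw [VO_up]
  exact Eventually.of_forall fun l => (VO_k0 _).2 ⟨tau p (s l), rfl⟩

theorem exists_test_element (ξ : OO p) : ∃ s : ℕ → P1 p,
    (∀ Q : P3 p, Q ≠ 0 → ∃ l₀, ∀ l ≥ l₀,
      ev2 (RingHom.id (P1 p)) (s l) (derivative (s l)) Q ≠ 0) ∧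
    ∀ (hU : Mdl p (sigU p)) (st : hU.OC →+* KK p), StD hU st →
      ∃ h : SS s ∈ hU.OC, st ⟨SS s, h⟩ = iK p ξ := by
  obtain ⟨s, hs1, hs2⟩ := exists_test_seq ξ
  refine ⟨s, hs2, fun hU st hst => ?_⟩
  have key : ∀ n, ∃ r : UP (k0 p), VO (sigU p X) r ∧
      SS s = sigU p (PowerSeries.trunc n ξ) + sigU p X ^ n * r := by
    intro n
    have hq : ∀ l, ∃ q : P1 p, n ≤ l → s l = PowerSeries.trunc n ξ + X ^ n * q := by
      intro l
      by_cases hl : n ≤ l
      · have h1 : (X : P1 p) ^ n ∣ s l - PowerSeries.trunc n ξ := by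
          rw [Polynomial.X_pow_dvd_iff]
          intro d hd
          rw [coeff_sub, PowerSeries.coeff_trunc, if_pos hd]
          have h2 := PowerSeries.X_pow_dvd_iff.1 (hs1 l) d (by omega)
          rw [map_sub] at h2
          have h3 : PowerSeries.coeff d (tau p (s l)) = (s l).coeff d := Polynomial.coeff_coe _ _
          rw [← h3]
          exact h2
        obtain ⟨q, hq⟩ := h1
        exact ⟨q, fun _ => by rw [← hq]; ring⟩
      · exact ⟨0, fun h => absurd h hl⟩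
    choose q hq using hq
    refine ⟨SS q, SS_VO q, ?_⟩
    show cl p _ = cl p (fun _ => sig0 p (PowerSeries.trunc n ξ)) +
      cl p (fun _ => sig0 p X) ^ n * cl p (fun l => sig0 p (q l))
    rw [← map_pow, ← map_mul, ← map_add, cl_eq_iff]
    filter_upwards [Nat.hyperfilter_le_atTop (eventually_ge_atTop n)] with l hl
    rw [hq l hl, map_add, map_mul, map_pow]
    rfl
  have hm : SS s ∈ hU.OC := ⟨0, by rw [pow_zero, one_mul]; exact SS_VO s⟩
  refine ⟨hm, ?_⟩
  obtain ⟨a, ha⟩ := (hst.2.1 ⟨SS s, hm⟩).1 (SS_VO s)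
  rw [← ha]
  congr 1
  ext i
  obtain ⟨r, hr, hr2⟩ := key (i + 1)
  have hrm : r ∈ hU.OC := ⟨0, by rw [pow_zero, one_mul]; exact hr⟩
  obtain ⟨b, hb⟩ := (hst.2.1 ⟨r, hrm⟩).1 hr
  have h1 : (⟨SS s, hm⟩ : hU.OC) = sigC hU hst (PowerSeries.trunc (i + 1) ξ) +
      sigC hU hst X ^ (i + 1) * ⟨r, hrm⟩ := Subtype.ext hr2
  have h2 := congrArg st h1
  rw [map_add, map_mul, map_pow, st_sigC, st_sigC, ← ha, ← hb] at h2
  have h3 : a = tau p (PowerSeries.trunc (i + 1) ξ) + PowerSeries.X ^ (i + 1) * b := by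
    apply iK_injective
    rw [h2, map_add, map_mul, map_pow]
    have h4 : tauK p X = iK p PowerSeries.X := by
      show iK p (tau p X) = _
      rw [tau_X]
    rw [h4]
    rfl
  rw [h3, map_add, PowerSeries.coeff_X_pow_mul', if_neg (by omega), add_zero]
  show PowerSeries.coeff i ((PowerSeries.trunc (i + 1) ξ : P1 p) : OO p) = _
  rw [Polynomial.coeff_coe, PowerSeries.coeff_trunc, if_pos (by omega)]

end test

section main
variable {M : Type} [Field M] {σ : P1 p →+* M}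

theorem alg1_trans {x s z : M} (hs : Alg1 (ev1 σ x) s) (hsT : ¬ Alg1 σ s)
    (hσ : ∀ f, Alg1 (ev1 σ x) (σ f)) (hz : Alg1 (ev1 σ s) z) : Alg1 (ev1 σ x) z := by
  obtain ⟨q, hq, hqz⟩ := hz
  have hmem : ∀ f : P2 p, ev1 σ s f ∈ algField (ev1 σ x) := by
    intro f
    have h1 : ev1 σ s f = ∑ i ∈ Finset.range (f.natDegree + 1), σ (f.coeff i) * s ^ i := by
      show f.eval₂ σ s = _
      rw [Polynomial.eval₂_eq_sum_range]
    rw [h1]
    exact sum_mem fun i _ => mul_mem (hσ _) (pow_mem (mem_algField.2 hs) _)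
  let ρ : P2 p →+* algField (ev1 σ x) := (ev1 σ s).codRestrict _ hmem
  have hρ : Function.Injective ρ := fun a b h => ev1_injective hsT (congrArg Subtype.val h)
  refine alg1_of_alg (N := q.map ρ) ?_ ?_
  · rwa [Ne, Polynomial.map_eq_zero_iff hρ]
  · rw [eval₂_map]
    exact hqz

theorem star1_I' (hM : Mdl p σ) {st : hM.OC →+* KK p} (hst : StD hM st) (x : M)
    (hx : ¬ Alg1 σ x) (F : Finset M) (hF : ∀ a ∈ F, Alg1 (ev1 σ x) a)
    (h : ∀ w : M, Alg1 (ev1 σ x) w → w ≠ 0 → ¬ hM.vc w < 1)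
    (hU : Mdl p (sigU p)) {stU : hU.OC →+* KK p} (hstU : StD hU stU) : Star1 σ x F := by
  classical
  have hσ : Function.Injective σ := by
    rw [injective_iff_map_eq_zero]
    intro f hf
    apply tauK_inj' p
    rw [← st_sigC hM hst f, map_zero]
    have h1 : sigC hM hst f = 0 := Subtype.ext hf
    rw [h1, map_zero]
  have hCM : ∀ z, Alg1 (ev1 σ x) z → z ∈ hM.OC := by
    intro z hz
    by_contra hz1
    have hz0 : z ≠ 0 := by
      rintro rfl
      exact hz1 (zero_mem _)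
    refine h z⁻¹ (inv_mem (mem_algField.2 hz)) (inv_ne_zero hz0) ?_
    rw [← ValuationSubring.valuation_le_one_iff, not_le] at hz1
    have h2 : hM.vc z⁻¹ = (hM.OC.valuation z)⁻¹ := map_inv₀ _ _
    rw [h2]
    exact inv_lt_one_of_one_lt₀ hz1
  let CM := algField (ev1 σ x)
  let iM : CM →+* hM.OC := CM.subtype.codRestrict hM.OC.toSubring (fun z => hCM z z.2)
  let τM : CM →+* KK p := st.comp iM
  have hσCM : ∀ f, σ f ∈ CM := by
    intro f
    have h1 := map_mem_algField (ev1 σ x) (C f)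
    have e : ev1 σ x (C f) = σ f := by simp [ev1]
    rwa [e] at h1
  have hτM : ∀ f : P1 p, ∃ h : σ f ∈ CM, τM ⟨σ f, h⟩ = tauK p f :=
    fun f => ⟨hσCM f, st_sigC hM hst f⟩
  obtain ⟨s0, hs0⟩ := exists_sep σ hσ x hx F hF CM (fun z => Iff.rfl) τM hτM
  obtain ⟨s, hsV, hsA, hsT, hsx, hsF⟩ : ∃ s : M, VO (σ X) s ∧ Alg1 (ev1 σ x) s ∧ ¬ Alg1 σ s ∧
      Simp (ev1 σ s) x ∧ ∀ z ∈ F, Simp (ev1 σ s) z := by
    rcases hM.inv s0 with h1 | h1
    · exact ⟨s0, h1, hs0 _ (Or.inl rfl)⟩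
    · exact ⟨s0⁻¹, h1, hs0 _ (Or.inr rfl)⟩
  let sC : CM := ⟨s, hsA⟩
  let sM : hM.OC := ⟨s, hCM s hsA⟩
  have hsMC : st sM = τM sC := rfl
  obtain ⟨ξ, hξ⟩ := (hst.2.1 sM).1 hsV
  obtain ⟨sq, hsq, hsq2⟩ := exists_test_element ξ
  obtain ⟨hSm, hSst⟩ := hsq2 hU stU hstU
  have hev : ∀ {S : Type} [CommRing S] (σ : P1 p →+* S) (x y : S) (f : P2 p),
      ev2 σ x y (C f) = ev1 σ x f := by
    intro S _ σ x y f
    simp [ev2, ev1]
  have htr : ∀ f : P2 p, f ≠ 0 → ev1 (tauK p) (iK p ξ) f ≠ 0 := by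
    intro f hf h0
    have h1 := (ev2_transfer CM τM hτM sC sC (C f)).2
    rw [hev, hev, ← hsMC, ← hξ] at h1
    have h2 := h1 h0
    exact hsT ⟨f, hf, h2⟩
  let CU := algField (ev1 (sigU p) (SS sq))
  have hCU : ∀ z, Alg1 (ev1 (sigU p) (SS sq)) z → z ∈ hU.OC := fun z hz =>
    algField_le_OC hU hstU ⟨SS sq, hSm⟩ (by rw [hSst]; exact htr) hz
  let iU : CU →+* hU.OC := CU.subtype.codRestrict hU.OC.toSubring (fun z => hCU z z.2)
  let τU : CU →+* KK p := stU.comp iU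
  have hτUinj : Function.Injective τU := τU.injective
  have hσCU : ∀ f, sigU p f ∈ CU := by
    intro f
    have h1 := map_mem_algField (ev1 (sigU p) (SS sq)) (C f)
    have e : ev1 (sigU p) (SS sq) (C f) = sigU p f := by simp [ev1]
    rwa [e] at h1
  have hτU : ∀ f : P1 p, ∃ h : sigU p f ∈ CU, τU ⟨sigU p f, h⟩ = tauK p f :=
    fun f => ⟨hσCU f, st_sigC hU hstU f⟩
  have hSA : SS sq ∈ CU := by
    have h1 := map_mem_algField (ev1 (sigU p) (SS sq)) X
    have e : ev1 (sigU p) (SS sq) X = SS sq := by simp [ev1]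
    rwa [e] at h1
  let SC : CU := ⟨SS sq, hSA⟩
  have hSC : τU SC = st sM := by
    rw [← hξ, ← hSst]
    rfl
  have hinj : Function.Injective (ev1 σ s) := ev1_injective hsT
  let E := simpField (ev1 σ s) hinj
  have hEA : ∀ z ∈ E, Alg1 (ev1 σ s) z := by
    intro z hz
    obtain ⟨P, h0, h1⟩ := (mem_simpField _ hinj z).1 hz
    refine ⟨P, ?_, h0⟩
    rintro rfl
    simp at h1
  have hEC : ∀ z ∈ E, z ∈ CM := fun z hz => alg1_trans hsA hsT hσCM (hEA z hz)
  let iE : E →+* CM := E.subtype.codRestrict CM (fun z => hEC z z.2)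
  let θE : E →+* KK p := τM.comp iE
  have hlift : ∀ z : E, ∃ z' : CU, τU z' = θE z := by
    intro z
    obtain ⟨P, h0, h1⟩ := (mem_simpField _ hinj z.1).1 z.2
    have h2 := (ev2_transfer CM τM hτM sC (iE z) P).1 h0
    have h3 : ev2 (tauK p) (τM sC) (τM (iE z)) (derivative P) ≠ 0 := fun h4 =>
      h1 ((ev2_transfer CM τM hτM sC (iE z) (derivative P)).2 h4)
    rw [← hsMC, ← hξ, ← hSst] at h2 h3
    obtain ⟨z', hz', hz2⟩ := lift_root hU hstU ⟨SS sq, hSm⟩ (τM (iE z)) P h2 h3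
    have hP : P ≠ 0 := by
      rintro rfl
      simp at h1
    exact ⟨⟨z', P, hP, hz'⟩, hz2⟩
  obtain ⟨ι0, hι0⟩ := exists_lift_hom θE τU hτUinj hlift
  refine ⟨E, CU.subtype.comp ι0, (mem_simpField _ hinj x).2 hsx,
    fun a ha => (mem_simpField _ hinj a).2 (hsF a ha), ?_, ?_⟩
  · intro f
    have hf : σ f ∈ E := by
      refine (mem_simpField _ hinj _).2 ⟨X - C (C f), ?_, ?_⟩
      · simp [ev1]
      · simp
    refine ⟨hf, ?_⟩
    have h1 : ι0 ⟨σ f, hf⟩ = ⟨sigU p f, hσCU f⟩ := by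
      apply hτUinj
      rw [hι0, (hτU f).choose_spec]
      exact (hτM f).choose_spec
    rw [RingHom.comp_apply, h1]
    rfl
  · rintro N ⟨y, hy⟩
    rcases eq_or_ne N 0 with rfl | hN
    · exact ⟨0, by simp⟩
    have hyA : Alg1 (ev1 (sigU p) (SS sq)) y := by
      refine alg1_of_alg (N := N.map ι0) ?_ ?_
      · rwa [Ne, Polynomial.map_eq_zero_iff ι0.injective]
      · rw [eval₂_map]
        exact hy
    obtain ⟨P, h0, h1⟩ := sep_test sq hsq y hyA
    let yC : CU := ⟨y, hyA⟩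
    have h2 := (ev2_transfer CU τU hτU SC yC P).1 h0
    have h3 : ev2 (tauK p) (τU SC) (τU yC) (derivative P) ≠ 0 := fun h4 =>
      h1 ((ev2_transfer CU τU hτU SC yC (derivative P)).2 h4)
    rw [hSC] at h2 h3
    obtain ⟨z, hz, hz2⟩ := lift_root hM hst sM (τU yC) P h2 h3
    have hP : P ≠ 0 := by
      rintro rfl
      simp at h1
    have hzC : (z : M) ∈ CM := alg1_trans hsA hsT hσCM ⟨P, hP, hz⟩
    refine ⟨z, ?_⟩
    have h4 : N.eval₂ iE ⟨z, hzC⟩ = 0 := by
      have h5 : τM (N.eval₂ iE ⟨z, hzC⟩) = N.eval₂ θE (τU yC) := by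
        rw [Polynomial.hom_eval₂]
        congr 1
      have h6 : τU (N.eval₂ ι0 yC) = N.eval₂ θE (τU yC) := by
        rw [Polynomial.hom_eval₂]
        congr 1
        exact RingHom.ext fun e => hι0 e
      have h7 : N.eval₂ ι0 yC = 0 := by
        apply Subtype.coe_injective
        have h8 := Polynomial.hom_eval₂ N ι0 CU.subtype yC
        exact h8.trans hy
      rw [h7, map_zero, ← h5] at h6
      exact (map_eq_zero τM).1 h6.symm
    have h9 := Polynomial.hom_eval₂ N iE CM.subtype ⟨z, hzC⟩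
    rw [h4, map_zero] at h9
    exact h9.symm

end main

end BF80.CI
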