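import Pool.Agent.BF80.Defs
import Pool.Agent.FT80.SepC
import Pool.Agent.FT80.Sep
import Pool.Agent.FT80.NP
set_option maxSynthPendingDepth 10
open Polynomial Filter
namespace BF80.CI
open FT80 BF80

variable {p : ℕ} [Fact p.Prime]

theorem countable_poly (R : Type*) [CommRing R] [Countable R] : Countable (Polynomial R) := by
  rw [← Cardinal.mk_le_aleph0_iff]
  exact (Polynomial.cardinalMk_le_max (R := R)).trans
    (max_le (Cardinal.mk_le_aleph0_iff.2 inferInstance) le_rfl)

/-! ### Test polynomials -/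

theorem exists_test (Q : P3 p) (hQ : Q ≠ 0) (a : P1 p) (m : ℕ) :
    ∃ s : P1 p, X ^ m ∣ s - a ∧ ev2 (RingHom.id (P1 p)) s (derivative s) Q ≠ 0 := by
  classical
  have hp : p.Prime := Fact.out
  have hX : (X : P1 p) ^ (p * m) ≠ 0 := pow_ne_zero _ X_ne_zero
  -- choice of the derivative
  have hinf1 : ∃ v : P1 p, Q.eval (C (derivative a + X ^ (p * m) * v ^ p)) ≠ 0 := by
    by_contra hcon
    push Not at hcon
    have hinj : Function.Injective (fun v : P1 p => (C (derivative a + X ^ (p * m) * v ^ p) : P2 p)) := by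
      intro v v' h
      have h1 := C_injective h
      have h2 := mul_left_cancel₀ hX (add_left_cancel h1)
      exact frobenius_inj (P1 p) p h2
    have h1 : (Set.range fun v : P1 p => (C (derivative a + X ^ (p * m) * v ^ p) : P2 p)) ⊆
        (Q.roots.toFinset : Set (P2 p)) := by
      rintro _ ⟨v, rfl⟩
      simp only [Finset.mem_coe, Multiset.mem_toFinset, mem_roots hQ]
      exact hcon v
    have : Infinite (P1 p) := inferInstance
    exact (Set.infinite_range_of_injective hinj) ((Finset.finite_toSet _).subset h1)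
  obtain ⟨v1, hv1⟩ := hinf1
  set R : P2 p := Q.eval (C (derivative a + X ^ (p * m) * v1 ^ p)) with hR
  have hinf2 : ∃ v : P1 p, R.eval (a + X ^ (p * m) * (v ^ p + X * v1 ^ p)) ≠ 0 := by
    by_contra hcon
    push Not at hcon
    have hinj : Function.Injective (fun v : P1 p => a + X ^ (p * m) * (v ^ p + X * v1 ^ p)) := by
      intro v v' h
      have h2 := mul_left_cancel₀ hX (add_left_cancel h)
      have h3 := add_right_cancel h2
      exact frobenius_inj (P1 p) p h3
    have h1 : (Set.range fun v : P1 p => a + X ^ (p * m) * (v ^ p + X * v1 ^ p)) ⊆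
        (R.roots.toFinset : Set (P1 p)) := by
      rintro _ ⟨v, rfl⟩
      simp only [Finset.mem_coe, Multiset.mem_toFinset, mem_roots hv1]
      exact hcon v
    have : Infinite (P1 p) := inferInstance
    exact (Set.infinite_range_of_injective hinj) ((Finset.finite_toSet _).subset h1)
  obtain ⟨v0, hv0⟩ := hinf2
  refine ⟨a + X ^ (p * m) * (v0 ^ p + X * v1 ^ p), ?_, ?_⟩
  · rw [add_sub_cancel_left]
    exact Dvd.dvd.mul_right (pow_dvd_pow _ (Nat.le_mul_of_pos_left m hp.pos)) _
  · have hd : derivative (a + X ^ (p * m) * (v0 ^ p + X * v1 ^ p)) =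
        derivative a + X ^ (p * m) * v1 ^ p := by
      have e : ∀ q : P1 p, derivative (q ^ p) = 0 := by
        intro q
        rw [derivative_pow, CharP.cast_eq_zero (ZMod p) p]
        simp
      have e2 : derivative ((X : P1 p) ^ (p * m)) = 0 := by
        rw [mul_comm, pow_mul]
        exact e _
      rw [derivative_add, derivative_mul, e2, derivative_add, derivative_mul, e, e, derivative_X]
      ring
    rw [hd]
    have h1 : ∀ (s y : P1 p), ev2 (RingHom.id (P1 p)) s y Q = (Q.eval (C y)).eval s := by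
      intro s y
      have : ev2 (RingHom.id (P1 p)) s y = (Polynomial.evalRingHom s).comp
          (Polynomial.evalRingHom (C y)) := by
        apply Polynomial.ringHom_ext
        · intro r
          simp [ev2, Polynomial.eval₂_eq_eval_map]
        · simp [ev2]
      rw [this]
      rfl
    rw [h1]
    exact hv0

/-- a sequence of test polynomials -/
theorem exists_test_seq (ξ : OO p) : ∃ s : ℕ → P1 p,
    (∀ l, (PowerSeries.X : OO p) ^ l ∣ tau p (s l) - ξ) ∧
    ∀ Q : P3 p, Q ≠ 0 → ∃ l₀, ∀ l ≥ l₀, ev2 (RingHom.id (P1 p)) (s l) (derivative (s l)) Q ≠ 0 := by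
  classical
  have hc : Countable (P3 p) := by
    have h1 : Countable (P1 p) := countable_poly _
    have h2 : Countable (P2 p) := countable_poly _
    exact countable_poly _
  obtain ⟨q, hq⟩ := exists_surjective_nat (P3 p)
  let Q : ℕ → P3 p := fun l => ∏ i ∈ Finset.range (l + 1), if q i = 0 then 1 else q i
  have hQ : ∀ l, Q l ≠ 0 := by
    intro l
    refine Finset.prod_ne_zero_iff.2 fun i _ => ?_
    split_ifs with h
    · exact one_ne_zero
    · exact h
  choose s hs1 hs2 using fun l => exists_test (Q l) (hQ l) (PowerSeries.trunc l ξ) l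
  refine ⟨s, fun l => ?_, fun R hR => ?_⟩
  · have h1 : (PowerSeries.X : OO p) ^ l ∣ tau p (s l) - tau p (PowerSeries.trunc l ξ) := by
      rw [← map_sub]
      obtain ⟨c, hc⟩ := hs1 l
      have h2 : tau p X = PowerSeries.X := Polynomial.coe_X
      rw [hc, map_mul, map_pow, h2]
      exact Dvd.intro _ rfl
    have h2 : (PowerSeries.X : OO p) ^ l ∣ tau p (PowerSeries.trunc l ξ) - ξ := by
      rw [PowerSeries.X_pow_dvd_iff]
      intro i hi
      rw [map_sub, sub_eq_zero]
      show PowerSeries.coeff i ((PowerSeries.trunc l ξ : P1 p) : OO p) = _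
      rw [Polynomial.coeff_coe, PowerSeries.coeff_trunc, if_pos hi]
    have := dvd_add h1 h2
    rwa [sub_add_sub_cancel] at this
  · obtain ⟨i, rfl⟩ := hq R
    refine ⟨i, fun l hl h => hs2 l ?_⟩
    show ev2 (RingHom.id (P1 p)) (s l) (derivative (s l)) (∏ i ∈ Finset.range (l + 1), _) = 0
    rw [map_prod]
    refine Finset.prod_eq_zero (Finset.mem_range.2 (by omega : i < l + 1)) ?_
    rw [if_neg hR]
    exact h


/-! ### The derivative of a relation -/

theorem deriv_pow_p (D : Derivation (ZMod p) (OO p) (OO p)) (f : OO p) : D (f ^ p) = 0 := by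
  rw [Derivation.leibniz_pow]
  have : (p : OO p) = 0 := by
    have h2 : ((p : ℕ) : ZMod p) = 0 := ZMod.natCast_self p
    rw [← map_natCast (PowerSeries.C (R := ZMod p)), h2, map_zero]
  rw [nsmul_eq_mul, this, zero_mul]

theorem deriv_rel_O (s : P1 p) (B : ℕ) (c : ℕ → ℕ → OO p)
    (h : ∑ a ∈ Finset.range p, ∑ b ∈ Finset.range B,
      PowerSeries.X ^ a * tau p s ^ b * c a b ^ p = 0) :
    (∑ a ∈ Finset.range p, ∑ b ∈ Finset.range B,
      (a : OO p) * PowerSeries.X ^ (a - 1) * tau p s ^ b * c a b ^ p) +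
    (∑ a ∈ Finset.range p, ∑ b ∈ Finset.range B,
      (b : OO p) * PowerSeries.X ^ a * tau p s ^ (b - 1) * c a b ^ p) * tau p (derivative s) = 0 := by
  have h1 := congrArg (PowerSeries.derivative (ZMod p)) h
  rw [map_zero, map_sum] at h1
  rw [← h1, Finset.sum_mul, ← Finset.sum_add_distrib]
  refine Finset.sum_congr rfl fun a _ => ?_
  rw [map_sum, Finset.sum_mul, ← Finset.sum_add_distrib]
  refine Finset.sum_congr rfl fun b _ => ?_
  have hτ : PowerSeries.derivative (ZMod p) (tau p s) = tau p (derivative s) :=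
    PowerSeries.derivative_coe s
  have hX : PowerSeries.derivative (ZMod p) (PowerSeries.X : OO p) = 1 :=
    PowerSeries.derivative_X
  rw [Derivation.leibniz, deriv_pow_p, smul_zero, zero_add, Derivation.leibniz,
    Derivation.leibniz_pow, Derivation.leibniz_pow, hτ, hX]
  simp only [smul_eq_mul, nsmul_eq_mul, mul_one]
  ring

theorem deriv_rel_K (s : P1 p) (B : ℕ) (c : ℕ → ℕ → KK p)
    (h : ∑ a ∈ Finset.range p, ∑ b ∈ Finset.range B,
      tauK p X ^ a * tauK p s ^ b * c a b ^ p = 0) :
    (∑ a ∈ Finset.range p, ∑ b ∈ Finset.range B,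
      (a : KK p) * tauK p X ^ (a - 1) * tauK p s ^ b * c a b ^ p) +
    (∑ a ∈ Finset.range p, ∑ b ∈ Finset.range B,
      (b : KK p) * tauK p X ^ a * tauK p s ^ (b - 1) * c a b ^ p) * tauK p (derivative s) = 0 := by
  -- common denominator
  have hn : ∃ n : ℕ, ∀ a b, a < p → b < B → InO (TT p n * c a b) := by
    choose n hn using fun a b => exists_clear (c a b)
    refine ⟨∑ a ∈ Finset.range p, ∑ b ∈ Finset.range B, n a b, fun a b ha hb => ?_⟩
    refine InO.mono ?_ (hn a b)
    have h1 : n a b ≤ ∑ b ∈ Finset.range B, n a b :=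
      Finset.single_le_sum (f := fun b => n a b) (fun _ _ => Nat.zero_le _) (Finset.mem_range.2 hb)
    have h2 : ∑ b ∈ Finset.range B, n a b ≤ ∑ a ∈ Finset.range p, ∑ b ∈ Finset.range B, n a b :=
      Finset.single_le_sum (f := fun a => ∑ b ∈ Finset.range B, n a b) (fun _ _ => Nat.zero_le _)
        (Finset.mem_range.2 ha)
    exact_mod_cast h1.trans h2
  obtain ⟨n, hn⟩ := hn
  choose! C hC using hn
  have htX : tauK p X = iK p PowerSeries.X := by
    show iK p (tau p X) = _
    congr 1
    exact Polynomial.coe_X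
  have hts : ∀ f : P1 p, tauK p f = iK p (tau p f) := fun _ => rfl
  have hT : TT p (n : ℤ) ≠ 0 := TT_ne_zero _
  have hCc : ∀ a ∈ Finset.range p, ∀ b ∈ Finset.range B, iK p (C a b) = TT p n * c a b :=
    fun a ha b hb => hC a b (Finset.mem_range.1 ha) (Finset.mem_range.1 hb)
  have hO : ∑ a ∈ Finset.range p, ∑ b ∈ Finset.range B,
      PowerSeries.X ^ a * tau p s ^ b * C a b ^ p = 0 := by
    apply iK_injective
    rw [map_zero, map_sum, ← mul_zero (TT p (n : ℤ) ^ p), ← h, Finset.mul_sum]
    refine Finset.sum_congr rfl fun a ha => ?_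
    rw [map_sum, Finset.mul_sum]
    refine Finset.sum_congr rfl fun b hb => ?_
    rw [map_mul, map_mul, map_pow, map_pow, map_pow, hCc a ha b hb, ← htX, ← hts]
    ring
  have h1 := congrArg (iK p) (deriv_rel_O s B C hO)
  apply mul_left_cancel₀ (pow_ne_zero p hT)
  rw [mul_zero, ← map_zero (iK p), ← h1, map_add, map_mul, ← hts, mul_add, ← mul_assoc]
  congr 1
  · rw [map_sum, Finset.mul_sum]
    refine Finset.sum_congr rfl fun a ha => ?_
    rw [map_sum, Finset.mul_sum]
    refine Finset.sum_congr rfl fun b hb => ?_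
    rw [map_mul, map_mul, map_mul, map_natCast, map_pow, map_pow, map_pow, hCc a ha b hb, ← htX,
      ← hts]
    ring
  · congr 1
    rw [map_sum, Finset.mul_sum]
    refine Finset.sum_congr rfl fun a ha => ?_
    rw [map_sum, Finset.mul_sum]
    refine Finset.sum_congr rfl fun b hb => ?_
    rw [map_mul, map_mul, map_mul, map_natCast, map_pow, map_pow, map_pow, hCc a ha b hb, ← htX,
      ← hts]
    ring

end BF80.CI
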