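import Pool.Agent.BF80.Defs
import Pool.Agent.FT80.NP

/-!
# Further definitions: ultrapowers, henselian fields with a coarse valuation, expansions
-/

set_option maxSynthPendingDepth 10

open Polynomial Filter

namespace BF80

open FT80

/-- the ultrapower of a field -/
abbrev UP (M : Type) [Field M] : Type := Filter.Germ ((hyperfilter ℕ : Ultrafilter ℕ) : Filter ℕ) M

/-- the diagonal embedding -/
noncomputable def diag (M : Type) [Field M] : M →+* UP M where
  toFun a := ((fun _ => a : ℕ → M) : UP M)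
  map_one' := rfl
  map_mul' _ _ := rfl
  map_zero' := rfl
  map_add' _ _ := rfl

/-- henselian fields with a nice coarse valuation -/
structure HField (κ : Type*) {H Γ₀ : Type*} [Field κ] [Field H] [Algebra κ H]
    [LinearOrderedCommGroupWithZero Γ₀] (v : Valuation H Γ₀) : Prop where
  nice : Nice κ v
  hens : ∀ F : Polynomial H, (∀ i, v (F.coeff i) ≤ 1) → v (F.eval 0) < 1 → v (F.coeff 1) = 1 →
    ∃ y, v y < 1 ∧ F.eval y = 0

section arcs
variable {κ H Γ₀ : Type*} [Field κ] [Field H] [Algebra κ H] [LinearOrderedCommGroupWithZero Γ₀]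

/-- algebraic power series -/
noncomputable def AP (κ : Type*) [Field κ] : Subalgebra κ (PowerSeries κ) where
  carrier := {Y | ∃ P : Polynomial (Polynomial κ), P ≠ 0 ∧
    ev2 (PowerSeries.C (R := κ)) PowerSeries.X Y P = 0}
  mul_mem' := fun ha hb => by
    let _ := (ev1 (PowerSeries.C (R := κ)) PowerSeries.X).toAlgebra
    exact IsAlgebraic.mul (R := Polynomial κ) ha hb
  add_mem' := fun ha hb => by
    let _ := (ev1 (PowerSeries.C (R := κ)) PowerSeries.X).toAlgebra
    exact IsAlgebraic.add (R := Polynomial κ) ha hb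
  algebraMap_mem' := fun r => by
    let _ := (ev1 (PowerSeries.C (R := κ)) PowerSeries.X).toAlgebra
    have h := isAlgebraic_algebraMap (R := Polynomial κ) (A := PowerSeries κ) (C r)
    have e : algebraMap (Polynomial κ) (PowerSeries κ) (C r) = algebraMap κ (PowerSeries κ) r := by
      show ev1 (PowerSeries.C (R := κ)) PowerSeries.X (C r) = _
      simp [ev1]
    rw [e] at h
    exact h

/-- algebraic power series are separable over the rational functions -/
def SepSer (κ : Type*) [Field κ] : Prop := ∀ Y ∈ AP κ, ∃ P : Polynomial (Polynomial κ),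
  ev2 (PowerSeries.C (R := κ)) PowerSeries.X Y P = 0 ∧
  ev2 (PowerSeries.C (R := κ)) PowerSeries.X Y (derivative P) ≠ 0

/-- `y` has the expansion `Y` in powers of `h` -/
def Asy (v : Valuation H Γ₀) (h : H) (Y : PowerSeries κ) (y : H) : Prop :=
  ∀ n : ℕ, ∃ r : H, v r ≤ 1 ∧ y = aeval h (PowerSeries.trunc n Y) + h ^ n * r

/-- `y` is algebraic over `κ(h)` -/
def AlgH (κ : Type*) {H : Type*} [Field κ] [Field H] [Algebra κ H] (h y : H) : Prop :=
  ∃ P : Polynomial (Polynomial κ), P ≠ 0 ∧ ev2 (algebraMap κ H) h y P = 0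

/-- the field generated by `w` and `S` -/
noncomputable def EF (κ : Type*) {H : Type*} [Field κ] [Field H] [Algebra κ H] (w : H)
    (S : Finset H) : IntermediateField κ H :=
  (IntermediateField.adjoin (IntermediateField.adjoin κ {w}) (S : Set H)).restrictScalars κ

/-- its valuation ring -/
noncomputable def RF {v : Valuation H Γ₀} (hv : Nice κ v) (w : H) (S : Finset H) :
    Subalgebra κ H where
  carrier := {h | h ∈ EF κ w S ∧ v h ≤ 1}
  mul_mem' := fun {a b} ha hb => ⟨mul_mem ha.1 hb.1, by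
    rw [map_mul]; exact mul_le_one' ha.2 hb.2⟩
  one_mem' := ⟨one_mem _, by simp⟩
  add_mem' := fun {a b} ha hb => ⟨add_mem ha.1 hb.1, v.map_add_le ha.2 hb.2⟩
  zero_mem' := ⟨zero_mem _, by simp⟩
  algebraMap_mem' := fun r => ⟨(EF κ w S).algebraMap_mem r, hv.le_one r⟩

end arcs

section star
variable {p : ℕ} [Fact p.Prime] {M : Type} [Field M]

/-- the conclusion of the core lemma -/
def Star1 (σ : P1 p →+* M) (x : M) (F : Finset M) : Prop :=
  ∃ (E : Subfield M) (ι : E →+* UP (k0 p)), x ∈ E ∧ (∀ a ∈ F, a ∈ E) ∧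
    (∀ f : P1 p, ∃ h : σ f ∈ E, ι ⟨σ f, h⟩ = diag (k0 p) (sig0 p f)) ∧
    ∀ N : Polynomial E, (∃ y : UP (k0 p), N.eval₂ ι y = 0) → ∃ y : M, N.eval₂ E.subtype y = 0

end star

end BF80
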