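import Pool.Agent.BF80.CaseI0
import Pool.Agent.BF80.Defs2
set_option maxSynthPendingDepth 10
open Polynomial Filter
namespace BF80.CI
open FT80 BF80

variable {p : ℕ} [Fact p.Prime]

/-- the class of a sequence -/
noncomputable def cl (p : ℕ) [Fact p.Prime] : (ℕ → k0 p) →+* UP (k0 p) :=
  Filter.Germ.coeRingHom ((hyperfilter ℕ : Ultrafilter ℕ) : Filter ℕ)

theorem cl_surj (h : UP (k0 p)) : ∃ f : ℕ → k0 p, cl p f = h := by
  induction h using Filter.Germ.inductionOn with
  | _ f => exact ⟨f, rfl⟩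

theorem cl_eq_iff {f g : ℕ → k0 p} : cl p f = cl p g ↔
    ∀ᶠ l in ((hyperfilter ℕ : Ultrafilter ℕ) : Filter ℕ), f l = g l :=
  Filter.Germ.coe_eq

theorem cl_eq_zero_iff {f : ℕ → k0 p} : cl p f = 0 ↔
    ∀ᶠ l in ((hyperfilter ℕ : Ultrafilter ℕ) : Filter ℕ), f l = 0 := by
  rw [← map_zero (cl p), cl_eq_iff]
  rfl

theorem diag_eq_cl (a : k0 p) : diag (k0 p) a = cl p (fun _ => a) := rfl

/-- class of a sequence of polynomials -/
noncomputable def SS (s : ℕ → P1 p) : UP (k0 p) := cl p (fun l => sig0 p (s l))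

theorem sig0_coe (f : P1 p) : ((sig0 p f : k0 p) : KK p) = tauK p f := rfl

theorem deriv_rel_U (s : ℕ → P1 p) (B : ℕ) (c : ℕ → ℕ → UP (k0 p))
    (h : ∑ a ∈ Finset.range p, ∑ b ∈ Finset.range B,
      diag (k0 p) (sig0 p X) ^ a * SS s ^ b * c a b ^ p = 0) :
    (∑ a ∈ Finset.range p, ∑ b ∈ Finset.range B,
      (a : UP (k0 p)) * diag (k0 p) (sig0 p X) ^ (a - 1) * SS s ^ b * c a b ^ p) +
    (∑ a ∈ Finset.range p, ∑ b ∈ Finset.range B,
      (b : UP (k0 p)) * diag (k0 p) (sig0 p X) ^ a * SS s ^ (b - 1) * c a b ^ p) *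
        SS (fun l => derivative (s l)) = 0 := by
  choose r hr using fun a b => cl_surj (c a b)
  have e1 : (fun l => ∑ a ∈ Finset.range p, ∑ b ∈ Finset.range B,
      sig0 p X ^ a * sig0 p (s l) ^ b * r a b l ^ p : ℕ → k0 p) =
      ∑ a ∈ Finset.range p, ∑ b ∈ Finset.range B,
        (fun _ => sig0 p X) ^ a * (fun l => sig0 p (s l)) ^ b * r a b ^ p := by
    funext l
    simp
  have h1 : cl p (fun l => ∑ a ∈ Finset.range p, ∑ b ∈ Finset.range B,
      sig0 p X ^ a * sig0 p (s l) ^ b * r a b l ^ p) = 0 := by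
    rw [e1, ← h, map_sum]
    refine Finset.sum_congr rfl fun a _ => ?_
    rw [map_sum]
    refine Finset.sum_congr rfl fun b _ => ?_
    rw [map_mul, map_mul, map_pow, map_pow, map_pow, hr]
    rfl
  rw [cl_eq_zero_iff] at h1
  have e2 : cl p (fun l => (∑ a ∈ Finset.range p, ∑ b ∈ Finset.range B,
      (a : k0 p) * sig0 p X ^ (a - 1) * sig0 p (s l) ^ b * r a b l ^ p) +
    (∑ a ∈ Finset.range p, ∑ b ∈ Finset.range B,
      (b : k0 p) * sig0 p X ^ a * sig0 p (s l) ^ (b - 1) * r a b l ^ p) *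
        sig0 p (derivative (s l))) = 0 := by
    rw [cl_eq_zero_iff]
    filter_upwards [h1] with l hl
    apply Subtype.coe_injective
    have h2 := deriv_rel_K (s l) B (fun a b => (r a b l : KK p)) (by
      have := congrArg (Subtype.val : k0 p → KK p) hl
      simpa [sig0_coe] using this)
    simpa [sig0_coe] using h2
  have e3 : (fun l => (∑ a ∈ Finset.range p, ∑ b ∈ Finset.range B,
      (a : k0 p) * sig0 p X ^ (a - 1) * sig0 p (s l) ^ b * r a b l ^ p) +
    (∑ a ∈ Finset.range p, ∑ b ∈ Finset.range B,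
      (b : k0 p) * sig0 p X ^ a * sig0 p (s l) ^ (b - 1) * r a b l ^ p) *
        sig0 p (derivative (s l)) : ℕ → k0 p) =
      (∑ a ∈ Finset.range p, ∑ b ∈ Finset.range B,
      (a : ℕ → k0 p) * (fun _ => sig0 p X) ^ (a - 1) * (fun l => sig0 p (s l)) ^ b * r a b ^ p) +
    (∑ a ∈ Finset.range p, ∑ b ∈ Finset.range B,
      (b : ℕ → k0 p) * (fun _ => sig0 p X) ^ a * (fun l => sig0 p (s l)) ^ (b - 1) * r a b ^ p) *
        (fun l => sig0 p (derivative (s l))) := by
    funext l
    simp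
  rw [e3, map_add, map_mul] at e2
  rw [← e2]
  congr 1
  · rw [map_sum]
    refine Finset.sum_congr rfl fun a _ => ?_
    rw [map_sum]
    refine Finset.sum_congr rfl fun b _ => ?_
    rw [map_mul, map_mul, map_mul, map_pow, map_pow, map_pow, hr, map_natCast]
    rfl
  · congr 1
    rw [map_sum]
    refine Finset.sum_congr rfl fun a _ => ?_
    rw [map_sum]
    refine Finset.sum_congr rfl fun b _ => ?_
    rw [map_mul, map_mul, map_mul, map_pow, map_pow, map_pow, hr, map_natCast]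
    rfl

instance charP_UP : CharP (UP (k0 p)) p :=
  charP_of_injective_ringHom (f := (diag (k0 p)).comp ((sig0 p).comp (C : ZMod p →+* P1 p)))
    (RingHom.injective _) p

theorem indep_t (c : ℕ → UP (k0 p))
    (h : ∑ a ∈ Finset.range p, diag (k0 p) (sig0 p X) ^ a * c a ^ p = 0) :
    ∀ a < p, c a = 0 := by
  choose r hr using fun a => cl_surj (c a)
  have h1 : cl p (fun l => ∑ a ∈ Finset.range p, sig0 p X ^ a * r a l ^ p) = 0 := by
    have e1 : (fun l => ∑ a ∈ Finset.range p, sig0 p X ^ a * r a l ^ p : ℕ → k0 p) =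
        ∑ a ∈ Finset.range p, (fun _ => sig0 p X) ^ a * r a ^ p := by
      funext l
      simp
    rw [e1, ← h, map_sum]
    refine Finset.sum_congr rfl fun a _ => ?_
    rw [map_mul, map_pow, map_pow, hr]
    rfl
  rw [cl_eq_zero_iff] at h1
  intro a ha
  rw [← hr, cl_eq_zero_iff]
  filter_upwards [h1] with l hl
  have h2 := congrArg (Subtype.val : k0 p → KK p) hl
  have h3 := FT80.SepC.pindep_K (p := p) (fun i => (r (i.2 : ℕ) l : KK p)) (by
    rw [Fintype.sum_prod_type]
    simp only [Finset.univ_unique, Finset.sum_singleton]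
    rw [← Fin.sum_univ_eq_sum_range (fun a => sig0 p X ^ a * r a l ^ p)] at h2
    simpa [sig0_coe] using h2) ((), ⟨a, ha⟩)
  exact Subtype.coe_injective h3

theorem indep_tS (s : ℕ → P1 p) (C : Subfield (UP (k0 p)))
    (hC : ∀ f : P1 p, diag (k0 p) (sig0 p f) ∈ C) (hS : SS s ∈ C)
    (hD : SS (fun l => derivative (s l)) ∉ C) : ∀ B ≤ p, ∀ c : ℕ → ℕ → UP (k0 p),
      (∀ a b, c a b ∈ C) → ∑ a ∈ Finset.range p, ∑ b ∈ Finset.range B,
      diag (k0 p) (sig0 p X) ^ a * SS s ^ b * c a b ^ p = 0 → ∀ a < p, ∀ b < B, c a b = 0 := by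
  have hp : p.Prime := Fact.out
  intro B
  induction B with
  | zero => intro _ c _ _ a _ b hb; omega
  | succ B ih =>
    intro hB c hc h
    have hmem1 : ∀ (n : ℕ) (f : ℕ → ℕ → UP (k0 p)), (∀ a b, f a b ∈ C) →
        ∑ a ∈ Finset.range p, ∑ b ∈ Finset.range n, f a b ∈ C := fun n f hf =>
      sum_mem fun a _ => sum_mem fun b _ => hf a b
    have h1 := deriv_rel_U s (B + 1) c h
    set P := ∑ a ∈ Finset.range p, ∑ b ∈ Finset.range (B + 1),
      (a : UP (k0 p)) * diag (k0 p) (sig0 p X) ^ (a - 1) * SS s ^ b * c a b ^ p with hP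
    set Q := ∑ a ∈ Finset.range p, ∑ b ∈ Finset.range (B + 1),
      (b : UP (k0 p)) * diag (k0 p) (sig0 p X) ^ a * SS s ^ (b - 1) * c a b ^ p with hQ
    have hPC : P ∈ C := hmem1 _ _ fun a b => mul_mem (mul_mem (mul_mem (natCast_mem _ _)
      (pow_mem (hC _) _)) (pow_mem hS _)) (pow_mem (hc _ _) _)
    have hQC : Q ∈ C := hmem1 _ _ fun a b => mul_mem (mul_mem (mul_mem (natCast_mem _ _)
      (pow_mem (hC _) _)) (pow_mem hS _)) (pow_mem (hc _ _) _)
    have hQ0 : Q = 0 := by
      by_contra hne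
      apply hD
      have h2 : SS (fun l => derivative (s l)) = -P / Q := by
        rw [eq_div_iff hne]
        linear_combination h1
      rw [h2]
      exact div_mem (neg_mem hPC) hQC
    have hfrob : ∀ n : ℕ, (n : UP (k0 p)) ^ p = n := by
      intro n
      have h3 : ((n : ZMod p)) ^ p = n := ZMod.pow_card _
      have h4 := congrArg ((diag (k0 p)).comp ((sig0 p).comp (Polynomial.C : ZMod p →+* P1 p))) h3
      rw [map_pow, map_natCast] at h4
      exact h4
    have h2 : ∑ a ∈ Finset.range p, ∑ b ∈ Finset.range B,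
        diag (k0 p) (sig0 p X) ^ a * SS s ^ b * (((b + 1 : ℕ) : UP (k0 p)) * c a (b + 1)) ^ p = 0 := by
      rw [← hQ0, hQ]
      refine Finset.sum_congr rfl fun a _ => ?_
      rw [Finset.sum_range_succ' _ B]
      simp only [Nat.cast_zero, zero_mul, add_zero]
      refine Finset.sum_congr rfl fun b _ => ?_
      rw [mul_pow, hfrob, Nat.add_sub_cancel]
      ring
    have h3 := ih (by omega) (fun a b => ((b + 1 : ℕ) : UP (k0 p)) * c a (b + 1))
      (fun a b => mul_mem (natCast_mem _ _) (hc _ _)) h2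
    have h4 : ∀ a < p, ∀ b < B, c a (b + 1) = 0 := by
      intro a ha b hb
      rcases mul_eq_zero.1 (h3 a ha b hb) with h5 | h5
      · exfalso
        rw [CharP.cast_eq_zero_iff (UP (k0 p)) p] at h5
        have := Nat.le_of_dvd (by omega) h5
        omega
      · exact h5
    have h5 : ∑ a ∈ Finset.range p, diag (k0 p) (sig0 p X) ^ a * c a 0 ^ p = 0 := by
      rw [← h]
      refine Finset.sum_congr rfl fun a ha => ?_
      rw [Finset.sum_range_succ' _ B, Finset.sum_eq_zero, zero_add, pow_zero, mul_one]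
      intro b hb
      rw [h4 a (Finset.mem_range.1 ha) b (Finset.mem_range.1 hb), zero_pow hp.ne_zero, mul_zero]
    intro a ha b hb
    rcases b with _ | b
    · exact indep_t _ h5 a ha
    · exact h4 a ha b (by omega)

end BF80.CI
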