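import Pool.Agent.BF80.CaseI1
set_option maxSynthPendingDepth 10
open Polynomial Filter
namespace BF80.CI
open FT80 BF80

variable {p : ℕ} [Fact p.Prime]

/-- the constants of the ultrapower -/
noncomputable def sigU (p : ℕ) [Fact p.Prime] : P1 p →+* UP (k0 p) := (diag (k0 p)).comp (sig0 p)

theorem ringHom_ext3 {S : Type*} [CommRing S] {f g : P3 p →+* S}
    (h0 : ∀ r : P1 p, f (C (C r)) = g (C (C r))) (h1 : f (C X) = g (C X)) (h2 : f X = g X) :
    f = g := by
  refine Polynomial.ringHom_ext (fun q => ?_) h2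
  have : f.comp (C : P2 p →+* P3 p) = g.comp C := Polynomial.ringHom_ext h0 h1
  exact congrArg (fun F => F q) this

theorem ev2_CC {R S : Type*} [CommRing R] [CommRing S] (σ : R →+* S) (x y : S) (r : R) :
    ev2 σ x y (C (C r)) = σ r := by simp [ev2]
theorem ev2_CX {R S : Type*} [CommRing R] [CommRing S] (σ : R →+* S) (x y : S) :
    ev2 σ x y (C X) = x := by simp [ev2]
theorem ev2_X' {R S : Type*} [CommRing R] [CommRing S] (σ : R →+* S) (x y : S) :
    ev2 σ x y X = y := by simp [ev2]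

theorem ev2_cl (s y : ℕ → P1 p) (Q : P3 p) : ev2 (sigU p) (SS s) (SS y) Q =
    cl p (fun l => sig0 p (ev2 (RingHom.id (P1 p)) (s l) (y l) Q)) := by
  have h1 : ev2 (sigU p) (SS s) (SS y) = (cl p).comp ((RingHom.pi fun l =>
      (sig0 p).comp (ev2 (RingHom.id (P1 p)) (s l) (y l)))) := by
    apply ringHom_ext3
    · intro r
      rw [ev2_CC, RingHom.comp_apply]
      show cl p _ = cl p _
      congr 1
      funext l
      rw [RingHom.pi_apply, RingHom.comp_apply, ev2_CC]
      rfl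
    · rw [ev2_CX, RingHom.comp_apply]
      show cl p _ = cl p _
      congr 1
      funext l
      rw [RingHom.pi_apply, RingHom.comp_apply, ev2_CX]
    · rw [ev2_X', RingHom.comp_apply]
      show cl p _ = cl p _
      congr 1
      funext l
      rw [RingHom.pi_apply, RingHom.comp_apply, ev2_X']
  rw [h1]
  rfl

theorem sig0_injective : Function.Injective (sig0 p) := by
  intro a b h
  exact tauK_inj' p (congrArg (Subtype.val : k0 p → KK p) h)

/-- the derivative of the test element is transcendental over it -/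
theorem SS_deriv_not_alg (s : ℕ → P1 p)
    (hs : ∀ Q : P3 p, Q ≠ 0 → ∃ l₀, ∀ l ≥ l₀,
      ev2 (RingHom.id (P1 p)) (s l) (derivative (s l)) Q ≠ 0) :
    ¬ Alg1 (ev1 (sigU p) (SS s)) (SS fun l => derivative (s l)) := by
  rintro ⟨Q, hQ, h⟩
  have h1 : ev2 (sigU p) (SS s) (SS fun l => derivative (s l)) Q = 0 := h
  rw [ev2_cl, cl_eq_zero_iff] at h1
  obtain ⟨l₀, hl₀⟩ := hs Q hQ
  have h2 : ∀ᶠ l in ((hyperfilter ℕ : Ultrafilter ℕ) : Filter ℕ), l₀ ≤ l :=
    Nat.hyperfilter_le_atTop (eventually_ge_atTop l₀)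
  obtain ⟨l, hl, hl'⟩ := (h1.and h2).exists
  exact hl₀ l hl' (sig0_injective (by rw [hl, map_zero]))

theorem SS_not_alg (s : ℕ → P1 p)
    (hs : ∀ Q : P3 p, Q ≠ 0 → ∃ l₀, ∀ l ≥ l₀,
      ev2 (RingHom.id (P1 p)) (s l) (derivative (s l)) Q ≠ 0) :
    ¬ Alg1 (sigU p) (SS s) := by
  rintro ⟨q, hq, h⟩
  have h1 : ev2 (sigU p) (SS s) (SS fun l => derivative (s l)) (C q) = 0 := by
    rw [← h]
    simp [ev2, ev1]
  rw [ev2_cl, cl_eq_zero_iff] at h1
  obtain ⟨l₀, hl₀⟩ := hs (C q) (by simpa using hq)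
  have h2 : ∀ᶠ l in ((hyperfilter ℕ : Ultrafilter ℕ) : Filter ℕ), l₀ ≤ l :=
    Nat.hyperfilter_le_atTop (eventually_ge_atTop l₀)
  obtain ⟨l, hl, hl'⟩ := (h1.and h2).exists
  exact hl₀ l hl' (sig0_injective (by rw [hl, map_zero]))

theorem ev1_injective {L : Type*} [Field L] {σ : P1 p →+* L} {x : L} (hx : ¬ Alg1 σ x) :
    Function.Injective (ev1 σ x) := by
  rw [injective_iff_map_eq_zero]
  intro q hq
  by_contra h
  exact hx ⟨q, h, hq⟩

theorem mem_algField {R L : Type*} [CommRing R] [IsDomain R] [Field L] {σ : R →+* L} {z : L} :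
    z ∈ algField σ ↔ Alg1 σ z := Iff.rfl

theorem map_mem_algField {R L : Type*} [CommRing R] [IsDomain R] [Field L] (σ : R →+* L) (r : R) :
    σ r ∈ algField σ := by
  let _ := σ.toAlgebra
  exact isAlgebraic_algebraMap (R := R) (A := L) r

/-- every element algebraic over the test element is separable -/
theorem sep_test (s : ℕ → P1 p)
    (hs : ∀ Q : P3 p, Q ≠ 0 → ∃ l₀, ∀ l ≥ l₀,
      ev2 (RingHom.id (P1 p)) (s l) (derivative (s l)) Q ≠ 0)
    (y : UP (k0 p)) (hy : Alg1 (ev1 (sigU p) (SS s)) y) :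
    ∃ P : P3 p, ev2 (sigU p) (SS s) y P = 0 ∧ ev2 (sigU p) (SS s) y (derivative P) ≠ 0 := by
  have hp : p.Prime := Fact.out
  set C₀ := algField (ev1 (sigU p) (SS s)) with hC₀
  let φ : P2 p →+* C₀ := (ev1 (sigU p) (SS s)).codRestrict C₀ (map_mem_algField _)
  have hφ : Function.Injective φ := by
    intro a b h
    exact ev1_injective (SS_not_alg s hs) (congrArg Subtype.val h)
  have hchar : CharP C₀ p := charP_of_injective_ringHom
    (f := φ.comp ((C : P1 p →+* P2 p).comp (C : ZMod p →+* P1 p))) (RingHom.injective _) p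
  have hconst : ∀ f : P1 p, diag (k0 p) (sig0 p f) ∈ C₀ := by
    intro f
    have := map_mem_algField (ev1 (sigU p) (SS s)) (C f)
    have e : ev1 (sigU p) (SS s) (C f) = diag (k0 p) (sig0 p f) := by simp [ev1, sigU]
    rwa [e] at this
  have hSm : SS s ∈ C₀ := by
    have := map_mem_algField (ev1 (sigU p) (SS s)) X
    have e : ev1 (sigU p) (SS s) X = SS s := by simp [ev1]
    rwa [e] at this
  have hind0 := indep_tS s C₀ hconst hSm (SS_deriv_not_alg s hs) p le_rfl
  have hspan := FT80.SepC.pspan_poly p (FT80.SepC.pspan_poly p (FT80.SepC.pspan_zmod p))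
  obtain ⟨P, -, h1, h2, -, -⟩ := FT80.SepC.sep_of_pbasis p φ hφ _ hspan (by
    intro z hz
    let c : ℕ → ℕ → UP (k0 p) := fun a b =>
      if h : a < p ∧ b < p then (z (((), ⟨a, h.1⟩), ⟨b, h.2⟩) : UP (k0 p)) else 0
    have hc : ∀ a b, c a b ∈ C₀ := by
      intro a b
      by_cases h : a < p ∧ b < p
      · simp only [c, dif_pos h]
        exact Subtype.coe_prop _
      · simp only [c, dif_neg h]
        exact zero_mem _
    have h3 := congrArg (Subtype.val : C₀ → UP (k0 p)) hz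
    have h4 := hind0 c hc (by
      rw [← Fin.sum_univ_eq_sum_range (fun a => ∑ b ∈ Finset.range p,
        diag (k0 p) (sig0 p X) ^ a * SS s ^ b * c a b ^ p)]
      simp only [← Fin.sum_univ_eq_sum_range (fun b => diag (k0 p) (sig0 p X) ^ _ * SS s ^ b *
        c _ b ^ p)]
      rw [Fintype.sum_prod_type, Fintype.sum_prod_type] at h3
      simp only [Finset.univ_unique, Finset.sum_singleton] at h3
      rw [← show ((0 : C₀) : UP (k0 p)) = 0 from rfl, ← h3]
      push_cast
      refine Finset.sum_congr rfl fun a _ => Finset.sum_congr rfl fun b _ => ?_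
      congr 1
      · simp [φ, ev1, sigU]
      · simp [c])
    rintro ⟨⟨⟨⟩, a⟩, b⟩
    have h5 := h4 a a.2 b b.2
    simp only [c, dif_pos (⟨a.2, b.2⟩ : (a : ℕ) < p ∧ (b : ℕ) < p)] at h5
    exact Subtype.coe_injective h5) ⟨y, hy⟩ (by
    obtain ⟨q, hq, hqy⟩ := id hy
    refine ⟨q, hq, ?_⟩
    apply C₀.subtype.injective
    rw [Polynomial.hom_eval₂ q φ C₀.subtype _, map_zero]
    exact hqy)
  have hev : ∀ Q : P3 p, ((Q.eval₂ φ ⟨y, hy⟩ : C₀) : UP (k0 p)) = ev2 (sigU p) (SS s) y Q := by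
    intro Q
    have : ((Q.eval₂ φ ⟨y, hy⟩ : C₀) : UP (k0 p)) =
        Q.eval₂ (C₀.subtype.comp φ) y := Polynomial.hom_eval₂ Q φ C₀.subtype _
    rw [this]
    rfl
  refine ⟨P, ?_, ?_⟩
  · rw [← hev, h1]
    rfl
  · rw [← hev]
    intro h
    exact h2 (Subtype.coe_injective h)

end BF80.CI
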