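import Pool.Agent.BF80.MdlSt
import Pool.Agent.BF80.Defs2
import Mathlib

/-!
# The coarse valuation of a model is henselian and nice
-/

set_option maxSynthPendingDepth 10

open Polynomial

namespace BF80

open FT80

variable {p : ℕ} [Fact p.Prime]

theorem alg1_j {M : Type} [Field M] {σ : P1 p →+* M} (j : k0 p →+* M)
    (hj : ∀ f, j (sig0 p f) = σ f) (a : k0 p) : Alg1 σ (j a) := by
  obtain ⟨q, hq, h⟩ := a.2
  refine ⟨q, hq, ?_⟩
  have h1 : ev1 (sig0 p) a q = 0 := by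
    apply (k0 p).subtype.injective
    rw [map_zero]
    have h2 : (k0 p).subtype (ev1 (sig0 p) a q) = ev1 (tauK p) (a : KK p) q := by
      simp only [ev1, coe_eval₂RingHom]
      rw [hom_eval₂]
      rfl
    rw [h2]
    exact h
  have h3 : ev1 σ (j a) q = j (ev1 (sig0 p) a q) := by
    simp only [ev1, coe_eval₂RingHom]
    rw [hom_eval₂]
    congr 1
    ext f
    · simp [← hj]
    · simp [← hj]
  rw [h3, h1, map_zero]

theorem Mdl.hfield {M : Type} [Field M] {σ : P1 p →+* M} (hM : Mdl p σ) (j : k0 p →+* M)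
    (hj : ∀ f, j (sig0 p f) = σ f) : letI := j.toAlgebra; HField (k0 p) hM.vc := by
  let _ := j.toAlgebra
  have hmem : ∀ a : k0 p, j a ∈ hM.OC := fun a => hM.alg_mem_OC (alg1_j j hj a)
  let jr : k0 p →+* hM.OC := j.codRestrict hM.OC hmem
  have hst : ∀ a : k0 p, hM.st ⟨j a, hmem a⟩ = (a : KK p) := by
    intro a
    refine hom_k0_KK (hM.st.comp jr) ?_ a
    intro f
    have h1 : jr (sig0 p f) = ⟨σ f, hj f ▸ hmem (sig0 p f)⟩ := Subtype.ext (hj f)
    rw [RingHom.comp_apply, h1, hM.st_σ]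
  refine ⟨⟨?_, ?_⟩, ?_⟩
  · intro a ha
    have h1 : hM.vc (j a) ≤ 1 := hM.vc_le_one.2 (hmem a)
    have h2 : ¬ hM.vc (j a) < 1 := hM.alg_not_inf (alg1_j j hj a) (by
      intro h
      exact ha ((map_eq_zero j).1 h))
    exact le_antisymm h1 (not_lt.1 h2)
  · intro q hq h hh hq1
    have hO : h ∈ hM.OC := hM.vc_le_one.1 hh
    let h' : hM.OC := ⟨h, hO⟩
    let z : hM.OC := q.eval₂ jr h'
    have h1 : (z : M) = aeval h q :=
      Polynomial.hom_eval₂ q jr hM.OC.subtype h'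
    have h3 : hM.st z = 0 := by
      rw [hM.st_apply, hM.sf_eq_zero z.2, h1]
      exact hq1
    rw [hom_eval₂] at h3
    have h4 : hM.st.comp jr = (k0 p).subtype := RingHom.ext hst
    rw [h4] at h3
    have h5 := root_mem_k0 q hq _ h3
    refine ⟨⟨hM.st ⟨h, hO⟩, h5⟩, ?_⟩
    set κ : k0 p := ⟨hM.st ⟨h, hO⟩, h5⟩ with hκ
    have h6 : h - j κ ∈ hM.OC := hM.OC.sub_mem hO (hmem κ)
    have h7 : hM.st ⟨h - j κ, h6⟩ = 0 := by
      have h8 : (⟨h - j κ, h6⟩ : hM.OC) = ⟨h, hO⟩ - ⟨j κ, hmem κ⟩ := rfl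
      rw [h8, map_sub, hst κ, hκ, sub_self]
    rw [hM.st_apply, hM.sf_eq_zero h6] at h7
    exact h7
  · intro F hF hF0 hF1
    exact hM.hens_of_val hM.vc (fun x hx => hM.vc_le_one.2 (hM.OC_of_VO hx)) hM.vc_t F hF hF0 hF1

end BF80
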