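import Pool.Agent.BF80.Defs2
import Pool.Agent.FT80.Sep
set_option maxSynthPendingDepth 10
set_option linter.unusedSectionVars false
open Polynomial
namespace BF80.SS80
open FT80 BF80

variable {p : ℕ} [Fact p.Prime]

theorem charP_k0 : CharP (k0 p) p := charP_of_injective_ringHom
  (f := (sig0 p).comp (C : ZMod p →+* P1 p)) (RingHom.injective _) p

theorem pindep_k0 :
    SepC.PIndep p (fun i : Unit × Fin p => sig0 p (C (1 : ZMod p) * X ^ (i.2 : ℕ))) := by
  intro z hz i
  have h1 := SepC.pindep_K (p := p) (fun i => (z i : KK p)) (by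
    have h2 := congrArg (Subtype.val : k0 p → KK p) hz
    push_cast at h2
    exact h2) i
  exact Subtype.coe_injective h1

/-- `F_p[t][X] → k0[[X]]` -/
noncomputable def phi (p : ℕ) [Fact p.Prime] : P2 p →+* PowerSeries (k0 p) :=
  (ev1 (PowerSeries.C (R := k0 p)) PowerSeries.X).comp (mapRingHom (sig0 p))

theorem phi_C (f : P1 p) : phi p (C f) = PowerSeries.C (sig0 p f) := by
  simp [phi, ev1]

theorem phi_X : phi p X = PowerSeries.X := by
  simp [phi, ev1]

theorem ev1_inj {κ : Type*} [Field κ] :
    Function.Injective (ev1 (PowerSeries.C (R := κ)) PowerSeries.X) := by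
  have h : ev1 (PowerSeries.C (R := κ)) PowerSeries.X = coeToPowerSeries.ringHom := by
    apply Polynomial.ringHom_ext
    · intro a; simp [ev1]
    · simp [ev1]
  rw [h]
  exact Polynomial.coe_injective κ

theorem sig0_inj : Function.Injective (sig0 p) := by
  intro a b h
  exact tauK_inj' p (congrArg (Subtype.val : k0 p → KK p) h)

theorem phi_inj : Function.Injective (phi p) :=
  ev1_inj.comp (Polynomial.map_injective _ sig0_inj)

theorem alg_trans {Y : PowerSeries (k0 p)} (hY : Y ∈ AP (k0 p)) :
    ∃ P : P3 p, P ≠ 0 ∧ P.eval₂ (phi p) Y = 0 := by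
  obtain ⟨Q, hQ, hQY⟩ := hY
  letI i1 : Algebra (P2 p) (Polynomial (k0 p)) := (mapRingHom (sig0 p)).toAlgebra
  letI i2 : Algebra (P2 p) (PowerSeries (k0 p)) := (phi p).toAlgebra
  letI i3 : Algebra (Polynomial (k0 p)) (PowerSeries (k0 p)) :=
    (ev1 (PowerSeries.C (R := k0 p)) PowerSeries.X).toAlgebra
  haveI i4 : IsScalarTower (P2 p) (Polynomial (k0 p)) (PowerSeries (k0 p)) :=
    IsScalarTower.of_algebraMap_eq fun r => rfl
  have hconst : ∀ a : k0 p, IsAlgebraic (P2 p) (C a : Polynomial (k0 p)) := by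
    intro a
    obtain ⟨q, hq, hqa⟩ : Alg1 (tauK p) (a : KK p) := a.2
    have hqa' : q.eval₂ (sig0 p) a = 0 := by
      apply Subtype.coe_injective
      have h1 := Polynomial.hom_eval₂ q (sig0 p) (k0 p).subtype a
      exact h1.trans hqa
    refine ⟨q.map C, ?_, ?_⟩
    · rwa [Ne, Polynomial.map_eq_zero_iff C_injective]
    · rw [aeval_def, eval₂_map]
      have h2 : (algebraMap (P2 p) (Polynomial (k0 p))).comp C =
          (C : k0 p →+* Polynomial (k0 p)).comp (sig0 p) := by
        refine RingHom.ext fun f => ?_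
        show mapRingHom (sig0 p) (C f) = _
        simp
      rw [h2, ← Polynomial.hom_eval₂, hqa', map_zero]
  haveI i5 : Algebra.IsAlgebraic (P2 p) (Polynomial (k0 p)) := ⟨by
    intro f
    induction f using Polynomial.induction_on' with
    | add f g hf hg => exact hf.add hg
    | monomial n a =>
      rw [← C_mul_X_pow_eq_monomial]
      refine (hconst a).mul (IsAlgebraic.pow ?_ n)
      have h1 := isAlgebraic_algebraMap (R := P2 p) (A := Polynomial (k0 p)) X
      have h2 : algebraMap (P2 p) (Polynomial (k0 p)) X = X := by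
        show mapRingHom (sig0 p) X = _
        simp
      rwa [h2] at h1⟩
  have h1 : IsAlgebraic (Polynomial (k0 p)) Y := ⟨Q, hQ, hQY⟩
  exact h1.restrictScalars (P2 p)

theorem main : SepSer (k0 p) := by
  intro Y hY
  have hcp : CharP (k0 p) p := charP_k0
  have hcp2 : CharP (PowerSeries (k0 p)) p := SepC.charP_powerSeries p
  have hind := SepC.pindep_powerSeries p (pindep_k0 (p := p))
  have hspan := SepC.pspan_poly p (SepC.pspan_poly p (SepC.pspan_zmod p))
  obtain ⟨P, -, h1, h2, -, -⟩ := SepC.sep_of_pbasis p (phi p) phi_inj _ hspan (by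
    intro z hz
    refine hind z ?_
    rw [← hz]
    refine Finset.sum_congr rfl fun i _ => ?_
    congr 1
    rw [map_mul, map_pow, phi_C, phi_X]) Y (alg_trans hY)
  have hev : ∀ Q : P3 p, ev2 (PowerSeries.C (R := k0 p)) PowerSeries.X Y
      (Q.map (mapRingHom (sig0 p))) = Q.eval₂ (phi p) Y := by
    intro Q
    show (Q.map (mapRingHom (sig0 p))).eval₂ (ev1 (PowerSeries.C (R := k0 p)) PowerSeries.X) Y = _
    rw [eval₂_map]
    rfl
  refine ⟨P.map (mapRingHom (sig0 p)), ?_, ?_⟩
  · rw [hev, h1]
  · rw [derivative_map, hev]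
    exact h2

end BF80.SS80

namespace BF80
variable {p : ℕ} [Fact p.Prime]

/-- algebraic power series over `k0` are separable -/
theorem sepSer_k0 : SepSer (k0 p) := SS80.main

end BF80
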