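import Pool.Agent.BF80.Target
import Pool.Agent.BF80.MdlJ
import Pool.Agent.BF80.MdlH
import Pool.Agent.BF80.ArcsPhi
import Pool.Agent.BF80.ArcsPsi
import Pool.Agent.BF80.SepSer

/-!
# Case II: there is an infinitesimal element
-/

set_option autoImplicit false
set_option maxSynthPendingDepth 10

open Polynomial Filter

namespace BF80

open FT80

variable {p : ℕ} [Fact p.Prime]

section ef

variable {κ H : Type*} [Field κ] [Field H] [Algebra κ H]

theorem self_mem_EF (w : H) (S : Finset H) : w ∈ EF κ w S := by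
  have h1 : w ∈ IntermediateField.adjoin κ {w} := IntermediateField.mem_adjoin_simple_self κ w
  exact (IntermediateField.adjoin (IntermediateField.adjoin κ {w}) (S : Set H)).algebraMap_mem
    ⟨w, h1⟩

theorem mem_EF_of_mem (w : H) {S : Finset H} {s : H} (hs : s ∈ S) : s ∈ EF κ w S := by
  have h1 : s ∈ IntermediateField.adjoin (IntermediateField.adjoin κ {w}) (S : Set H) :=
    IntermediateField.subset_adjoin _ _ (Finset.mem_coe.mpr hs)
  exact h1

theorem aeval_mem_EF (w : H) (S : Finset H) (q : Polynomial κ) : aeval w q ∈ EF κ w S := by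
  have h1 : aeval w q = ((aeval (⟨w, self_mem_EF w S⟩ : EF κ w S) q : EF κ w S) : H) := by
    have := Polynomial.aeval_algHom_apply (EF κ w S).val (⟨w, self_mem_EF w S⟩ : EF κ w S) q
    exact this
  rw [h1]
  exact Subtype.property _

end ef

attribute [local instance] algUP

theorem asy_le {κ H Γ₀ : Type*} [Field κ] [Field H] [Algebra κ H]
    [LinearOrderedCommGroupWithZero Γ₀] {v : Valuation H Γ₀} {h : H} {Y : PowerSeries κ} {y : H}
    (hy : Asy v h Y y) : v y ≤ 1 := by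
  obtain ⟨r, hr, h1⟩ := hy 0
  have h0 : PowerSeries.trunc 0 Y = 0 := by
    ext m
    rw [PowerSeries.coeff_trunc, if_neg (Nat.not_lt_zero m), coeff_zero]
  rw [h0, map_zero, zero_add, pow_zero, one_mul] at h1
  rw [h1]
  exact hr

theorem caseII_core {M Γ₀ : Type} [Field M] [LinearOrderedCommGroupWithZero Γ₀]
    [Algebra (k0 p) M] {v : Valuation M Γ₀} (hH : HField (k0 p) v) {w : M} (hw1 : v w < 1)
    (hw0 : w ≠ 0) (S : Finset M) (hS : ∀ s ∈ S, AlgH (k0 p) w s)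
    (hpow : ∀ n : ℕ, ¬ p ∣ n → ∀ x : M, x ≠ 0 → ∃ γ < p, ∃ j < n, ∃ y : M, 1 ≤ γ ∧
      x = (γ : ℕ) * algebraMap (k0 p) M (sig0 p X) ^ j * y ^ n) :
    ∃ ι : EF (k0 p) w S →+* UP (k0 p),
      (∀ r : k0 p, ι (algebraMap (k0 p) (EF (k0 p) w S) r) = algebraMap (k0 p) (UP (k0 p)) r) ∧
      ∀ N : Polynomial (EF (k0 p) w S), (∃ y : UP (k0 p), N.eval₂ ι y = 0) →
        ∃ y : M, N.eval₂ (algebraMap (EF (k0 p) w S) M) y = 0 := by
  classical
  have hv := hH.nice
  have hV2 := nice_v2 (p := p)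
  obtain ⟨π, hπE, hπ0, hπ1, hπalg, Ψ, hΨinj, hΨasy, hΨπ⟩ := exists_Psi hv hw1 hw0 S hS
  -- the test element
  choose γn hγp jl hjl yl hγ1 hπeq using fun l => hpow (nn p l) (nn_not_dvd l) π hπ0
  set γ : ℕ → ZMod p := fun l => (γn l : ZMod p) with hγdef
  have hγ : ∀ l, γ l ≠ 0 := by
    intro l h
    have h1 : ((γn l : ℕ) : ZMod p) = 0 := h
    rw [ZMod.natCast_eq_zero_iff] at h1
    have := Nat.le_of_dvd (hγ1 l) h1
    have := hγp l
    omega
  set h : UP (k0 p) := cl (k0 p) (Wl γ jl) with hh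
  have hh0 : h ≠ 0 := test_ne hγ jl
  have hh1 : v2 p h < 1 := test_lt γ jl
  obtain ⟨Φ, hΦasy, hΦX, hΦinj, hΦalg⟩ := exists_Phi hfield_v2 sepSer_k0 hh1 hh0
  have hφinj : Function.Injective (Φ.comp Ψ).toRingHom := hΦinj.comp hΨinj
  obtain ⟨ι, hι⟩ := extendRF hv (Φ.comp Ψ).toRingHom hφinj
  have hι1 : ∀ z : EF (k0 p) w S, ∀ hz : v (z : M) ≤ 1, ι z = Φ (Ψ ⟨z, z.2, hz⟩) :=
    fun z hz => hι ⟨z, z.2, hz⟩
  refine ⟨ι, ?_, ?_⟩
  · intro r
    have h1 := hι1 (algebraMap (k0 p) (EF (k0 p) w S) r) (hv.le_one r)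
    rw [h1]
    exact (Φ.comp Ψ).commutes r
  -- values of `ι` are algebraic over `h`
  have hιalg : ∀ z : EF (k0 p) w S, AlgH (k0 p) h (ι z) := by
    intro z
    by_cases hz : v (z : M) ≤ 1
    · rw [hι1 z hz]
      exact hΦalg _
    · have hz' : v ((z⁻¹ : EF (k0 p) w S) : M) ≤ 1 := by
        have e1 : ((z⁻¹ : EF (k0 p) w S) : M) = (z : M)⁻¹ := rfl
        rw [e1, map_inv₀]
        exact inv_le_one_of_one_le₀ (not_le.mp hz).le
      have h1 : AlgH (k0 p) h (ι z⁻¹) := by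
        rw [hι1 _ hz']
        exact hΦalg _
      have h2 : ι z = (ι z⁻¹)⁻¹ := by rw [map_inv₀, inv_inv]
      rw [algH_iff] at h1 ⊢
      rw [h2]
      exact inv_mem h1
  intro N hN
  obtain ⟨y, hy⟩ := hN
  rcases eq_or_ne N 0 with rfl | hN0
  · exact ⟨0, eval₂_zero _ _⟩
  -- `y` is algebraic over `h`
  have hyalg : AlgH (k0 p) h y := by
    let ι' : EF (k0 p) w S →+* algField (ev1 (algebraMap (k0 p) (UP (k0 p))) h) :=
      ι.codRestrict _ hιalg
    have hι' : Function.Injective ι' := ι'.injective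
    apply rel_closed _ (N.map ι') ((Polynomial.map_ne_zero_iff hι').mpr hN0)
    rw [eval₂_map]
    exact hy
  set S2 : Finset (UP (k0 p)) :=
    insert y ((Finset.range (N.natDegree + 1)).image fun i => ι (N.coeff i)) with hS2def
  have hS2 : ∀ s ∈ S2, AlgH (k0 p) h s := by
    intro s hs
    rw [hS2def, Finset.mem_insert, Finset.mem_image] at hs
    rcases hs with rfl | ⟨i, -, rfl⟩
    · exact hyalg
    · exact hιalg _
  obtain ⟨π2, hπ2E, hπ20, hπ21, hπ2alg, Ψ2, hΨ2inj, hΨ2asy, hΨ2π⟩ :=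
    exists_Psi hV2 hh1 hh0 S2 hS2
  let hR : RF hV2 h S2 := ⟨h, self_mem_EF h S2, hh1.le⟩
  have hR0 : hR ≠ 0 := fun h0 => hh0 (congrArg Subtype.val h0)
  have hV0 : ((Ψ2 hR : AP (k0 p)) : PowerSeries (k0 p)) ≠ 0 := by
    intro h0
    have h1 : Ψ2 hR = 0 := Subtype.ext h0
    exact hR0 (hΨ2inj (by rw [h1, map_zero]))
  obtain ⟨e, q, hVq, hqu⟩ := ps_eq_pow_mul_unit hV0
  set ζ : k0 p := PowerSeries.constantCoeff q with hζdef
  have hζ : ζ ≠ 0 := by
    rw [PowerSeries.isUnit_iff_constantCoeff, isUnit_iff_ne_zero] at hqu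
    exact hqu
  -- `h = π2 ^ e * u`
  obtain ⟨r, hr, hhr⟩ := hΨ2asy hR (e + 1)
  have htr : PowerSeries.trunc (e + 1) ((Ψ2 hR : AP (k0 p)) : PowerSeries (k0 p))
      = C ζ * X ^ e := by
    ext m
    rw [PowerSeries.coeff_trunc, hVq, coeff_C_mul_X_pow]
    by_cases hm : m < e + 1
    · rw [if_pos hm, PowerSeries.coeff_X_pow_mul']
      by_cases hme : m = e
      · rw [if_pos hme, if_pos (by omega), hme, Nat.sub_self,
          PowerSeries.coeff_zero_eq_constantCoeff_apply]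
      · rw [if_neg hme, if_neg (by omega)]
    · rw [if_neg hm, if_neg (by omega)]
  have hhu : h = π2 ^ e * (algebraMap (k0 p) (UP (k0 p)) ζ + π2 * r) := by
    have h1 : h = aeval π2 (PowerSeries.trunc (e + 1)
      ((Ψ2 hR : AP (k0 p)) : PowerSeries (k0 p))) + π2 ^ (e + 1) * r := hhr
    rw [htr, map_mul, map_pow, aeval_C, aeval_X] at h1
    rw [h1]
    ring
  have hpe : ¬ p ∣ e := by
    apply test_wild hγ jl hζ hhu
    rw [add_sub_cancel_left, map_mul]
    exact mul_lt_one_of_lt_of_le hπ21 hr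
  have he1 : 1 ≤ e := by
    rcases Nat.eq_zero_or_pos e with h0 | h0
    · exact absurd (h0 ▸ dvd_zero p) hpe
    · exact h0
  have heκ : (e : k0 p) ≠ 0 := by
    intro h0
    apply natCast_KK_ne_zero hpe
    have := congrArg (fun z : k0 p => (z : KK p)) h0
    simpa using this
  have hA : PowerSeries.constantCoeff (PowerSeries.C ζ⁻¹ * q) = 1 := by
    rw [map_mul, PowerSeries.constantCoeff_C]
    exact inv_mul_cancel₀ hζ
  obtain ⟨B, hB1, hB2⟩ := exists_root_pow e heκ _ hA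
  have hBu : IsUnit B := by
    rw [PowerSeries.isUnit_iff_constantCoeff, hB1]
    exact isUnit_one
  have hXB : (PowerSeries.X * B) ^ e
      = PowerSeries.C ζ⁻¹ * ((Ψ2 hR : AP (k0 p)) : PowerSeries (k0 p)) := by
    rw [mul_pow, hB2, hVq]
    ring
  have hXBmem : PowerSeries.X * B ∈ AP (k0 p) := by
    apply ap_of_pow he1
    rw [hXB]
    exact mul_mem ((AP (k0 p)).algebraMap_mem ζ⁻¹) (Ψ2 hR).2
  let XB : AP (k0 p) := ⟨PowerSeries.X * B, hXBmem⟩
  have hVXB : Ψ2 hR = algebraMap (k0 p) (AP (k0 p)) ζ * XB ^ e := by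
    apply Subtype.ext
    change ((Ψ2 hR : AP (k0 p)) : PowerSeries (k0 p)) = PowerSeries.C ζ * (PowerSeries.X * B) ^ e
    rw [hXB, ← mul_assoc, ← map_mul, mul_inv_cancel₀ hζ, map_one, one_mul]
  -- coordinate change
  obtain ⟨R, hRσ, hRinj, -⟩ := reparam hV2 hBu (σ := PowerSeries.X * B) rfl
  let R' : AP (k0 p) →ₐ[k0 p] AP (k0 p) :=
    (R.comp (AP (k0 p)).val).codRestrict (AP (k0 p))
      (fun Y => ap_reparam R hRinj hXBmem hRσ Y.2)
  have hR'inj : Function.Injective R' := by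
    intro a b hab
    have h1 := congrArg (fun z : AP (k0 p) => (z : PowerSeries (k0 p))) hab
    exact Subtype.ext (hRinj h1)
  let XX1 : AP (k0 p) := ⟨PowerSeries.X, ap_X⟩
  have hR'XB : R' XB = XX1 := Subtype.ext hRσ
  -- `h = ζ π3 ^ e`
  obtain ⟨Φ2, hΦ2asy, -, -, hΦ2alg⟩ := exists_Phi hfield_v2 sepSer_k0 hπ21 hπ20
  have hΦ2V : Φ2 (Ψ2 hR) = h :=
    asy_unique hV2 hπ21 hπ20 (hΦ2asy (Ψ2 hR)) (hΨ2asy hR) (hΦ2alg _)
      (hπ2alg h (self_mem_EF h S2))
  obtain ⟨πl, hπl⟩ := cl_surj (Φ2 XB)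
  have hev : ∀ᶠ l in ((hyperfilter ℕ : Ultrafilter ℕ) : Filter ℕ), ζ * πl l ^ e = Wl γ jl l := by
    have h1 : algebraMap (k0 p) (UP (k0 p)) ζ * (Φ2 XB) ^ e = h := by
      rw [← hΦ2V, hVXB, map_mul, map_pow, Φ2.commutes]
    rw [← hπl, algebraMap_UP, ← map_pow, ← map_mul, hh, cl_eq] at h1
    exact h1
  obtain ⟨l, hl, hel⟩ := (hev.and (ev_ge e)).exists
  obtain ⟨m, hm⟩ := dvd_nn hpe hel
  set Vl : k0 p := sig0 p (X ^ MMd p l * (1 + X ^ (p * l + 1))) with hVl
  have hWl : Wl γ jl l = (γn l : k0 p) * sig0 p X ^ jl l * Vl ^ (e * m) := by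
    rw [Wl, WP, map_mul, map_mul, map_pow, map_pow, ← hVl, hm]
    congr 2
    have h1 : (C (γ l) : P1 p) = ((γn l : ℕ) : P1 p) := by
      rw [hγdef]
      exact map_natCast C (γn l)
    rw [h1, map_natCast]
  have hVl0 : Vl ≠ 0 := by
    intro h0
    have h1 := test_ne hγ jl
    have h2 : (Wl γ jl l : KK p) = 0 := by
      rw [hWl, h0, zero_pow (by
        have := nn_pos (p := p) l
        rw [hm] at this
        omega), mul_zero]
      rfl
    rw [Wl_coe] at h2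
    exact WW_ne_zero (hγ l) _ _ _ (Nat.succ_ne_zero _) (iK_injective (by rw [h2, map_zero]))
  set κ₁ : k0 p := πl l / Vl ^ m with hκ₁
  have hκe : ζ * κ₁ ^ e = (γn l : k0 p) * sig0 p X ^ jl l := by
    have h1 : Vl ^ (e * m) ≠ 0 := pow_ne_zero _ hVl0
    rw [hκ₁, div_pow, ← pow_mul, mul_comm m e, mul_div_assoc', hl, hWl, mul_div_assoc,
      div_self h1, mul_one]
  set g : M := algebraMap (k0 p) M κ₁ * yl l ^ m with hg
  have hgπ : algebraMap (k0 p) M ζ * g ^ e = π := by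
    have h1 := hπeq l
    rw [hm] at h1
    rw [h1, hg, mul_pow, ← pow_mul, mul_comm m e, ← mul_assoc, ← map_pow, ← map_mul, hκe, map_mul,
      map_pow, map_natCast]
  have hg0 : g ≠ 0 := by
    intro h0
    apply hπ0
    rw [← hgπ, h0, zero_pow (by omega), mul_zero]
  have hg1 : v g < 1 := by
    by_contra hcon
    rw [not_lt] at hcon
    have h1 : v π = v g ^ e := by
      rw [← hgπ, map_mul, hv.triv ζ hζ, one_mul, map_pow]
    rw [h1] at hπ1
    exact absurd hπ1 (not_lt.mpr (one_le_pow₀ hcon))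
  obtain ⟨Φg, hΦgasy, hΦgX, hΦginj, hΦgalg⟩ := exists_Phi hH sepSer_k0 hg1 hg0
  let T0 : RF hV2 h S2 →ₐ[k0 p] M := Φg.comp (R'.comp Ψ2)
  have hT0inj : Function.Injective T0 := hΦginj.comp (hR'inj.comp hΨ2inj)
  have hT0h : T0 hR = π := by
    change Φg (R' (Ψ2 hR)) = π
    rw [hVXB, map_mul, map_pow, hR'XB, AlgHom.commutes, map_mul, map_pow, AlgHom.commutes,
      hΦgX XX1 rfl, hgπ]
  obtain ⟨T, hT⟩ := extendRF hV2 T0.toRingHom hT0inj
  have hT1 : ∀ z : EF (k0 p) h S2, ∀ hz : v2 p (z : UP (k0 p)) ≤ 1, T z = T0 ⟨z, z.2, hz⟩ :=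
    fun z hz => hT ⟨z, z.2, hz⟩
  have hgtr : ¬ Alg1 (algebraMap (k0 p) M) g := transc_of_lt hv hg1 hg0
  have hπg : AlgH (k0 p) π g := by
    apply algH_symm
    rw [algH_iff, ← hgπ]
    exact mul_mem (mem_algField_const g ζ) (pow_mem (mem_algField_self g) e)
  -- the key claim
  have key1 : ∀ z : EF (k0 p) w S, v (z : M) ≤ 1 → ∀ hz : ι z ∈ EF (k0 p) h S2,
      T ⟨ι z, hz⟩ = z := by
    intro z hz1 hzE
    let zR : RF hv w S := ⟨z, z.2, hz1⟩
    have hιz : ι z = Φ (Ψ zR) := hι1 z hz1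
    have hasy : Asy (v2 p) h ((Ψ zR : AP (k0 p)) : PowerSeries (k0 p)) (ι z) := by
      rw [hιz]
      exact hΦasy _
    have hz2 : v2 p (ι z) ≤ 1 := asy_le hasy
    rw [hT1 ⟨ι z, hzE⟩ hz2]
    apply asy_unique hv hπ1 hπ0 (Y := ((Ψ zR : AP (k0 p)) : PowerSeries (k0 p))) _ (hΨasy zR) _
      (hπalg z z.2)
    · intro n
      obtain ⟨s, hs1, hs2⟩ := hasy n
      have hsE : s ∈ EF (k0 p) h S2 := by
        have h1 : s = (ι z - aeval h (PowerSeries.trunc n
            ((Ψ zR : AP (k0 p)) : PowerSeries (k0 p)))) / h ^ n := by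
          rw [eq_div_iff (pow_ne_zero _ hh0), hs2]
          ring
        rw [h1]
        exact div_mem (sub_mem hzE (aeval_mem_EF h S2 _)) (pow_mem (self_mem_EF h S2) n)
      let sR : RF hV2 h S2 := ⟨s, hsE, hs1⟩
      refine ⟨T0 sR, asy_le (hΦgasy _), ?_⟩
      have h2 : (⟨ι z, hzE, hz2⟩ : RF hV2 h S2) = aeval hR (PowerSeries.trunc n
          ((Ψ zR : AP (k0 p)) : PowerSeries (k0 p))) + hR ^ n * sR := by
        apply Subtype.ext
        have h3 := Polynomial.aeval_algHom_apply (RF hV2 h S2).val hR (PowerSeries.trunc n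
          ((Ψ zR : AP (k0 p)) : PowerSeries (k0 p)))
        change ι z = (RF hV2 h S2).val (aeval hR (PowerSeries.trunc n
          ((Ψ zR : AP (k0 p)) : PowerSeries (k0 p)))) + h ^ n * s
        rw [← h3]
        exact hs2
      rw [h2, map_add, map_mul, map_pow, ← Polynomial.aeval_algHom_apply, hT0h]
    · exact algH_trans hgtr hπg (hΦgalg _)
  have key : ∀ z : EF (k0 p) w S, ∀ hz : ι z ∈ EF (k0 p) h S2, T ⟨ι z, hz⟩ = z := by
    intro z hz
    by_cases hz1 : v (z : M) ≤ 1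
    · exact key1 z hz1 hz
    · have hz' : v ((z⁻¹ : EF (k0 p) w S) : M) ≤ 1 := by
        have e1 : ((z⁻¹ : EF (k0 p) w S) : M) = (z : M)⁻¹ := rfl
        rw [e1, map_inv₀]
        exact inv_le_one_of_one_le₀ (not_le.mp hz1).le
      have hzi : ι z⁻¹ ∈ EF (k0 p) h S2 := by
        rw [map_inv₀]
        exact inv_mem hz
      have h1 := key1 z⁻¹ hz' hzi
      have h2 : (⟨ι z⁻¹, hzi⟩ : EF (k0 p) h S2) = (⟨ι z, hz⟩ : EF (k0 p) h S2)⁻¹ := by
        apply Subtype.ext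
        exact map_inv₀ ι z
      rw [h2, map_inv₀] at h1
      have h3 : ((z⁻¹ : EF (k0 p) w S) : M) = (z : M)⁻¹ := rfl
      rw [h3] at h1
      exact inv_injective h1
  -- conclusion
  have hyE : y ∈ EF (k0 p) h S2 := mem_EF_of_mem h (Finset.mem_insert_self _ _)
  refine ⟨T ⟨y, hyE⟩, ?_⟩
  have hcE : ∀ i ∈ Finset.range (N.natDegree + 1), ι (N.coeff i) ∈ EF (k0 p) h S2 := by
    intro i hi
    exact mem_EF_of_mem h (Finset.mem_insert_of_mem (Finset.mem_image_of_mem _ hi))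
  let c : ℕ → EF (k0 p) h S2 := fun i =>
    if hi : ι (N.coeff i) ∈ EF (k0 p) h S2 then ⟨_, hi⟩ else 0
  have hc : ∀ i ∈ Finset.range (N.natDegree + 1), T (c i) = N.coeff i ∧
      ((c i : EF (k0 p) h S2) : UP (k0 p)) = ι (N.coeff i) := by
    intro i hi
    have h1 : c i = ⟨_, hcE i hi⟩ := dif_pos (hcE i hi)
    rw [h1]
    exact ⟨key _ _, rfl⟩
  have hsum : ∑ i ∈ Finset.range (N.natDegree + 1), c i * (⟨y, hyE⟩ : EF (k0 p) h S2) ^ i = 0 := by
    apply Subtype.ext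
    have h1 : ((∑ i ∈ Finset.range (N.natDegree + 1), c i * (⟨y, hyE⟩ : EF (k0 p) h S2) ^ i :
        EF (k0 p) h S2) : UP (k0 p)) = ∑ i ∈ Finset.range (N.natDegree + 1),
          ι (N.coeff i) * y ^ i := by
      rw [← IntermediateField.coe_val, map_sum]
      refine Finset.sum_congr rfl fun i hi => ?_
      rw [map_mul, map_pow]
      change ((c i : EF (k0 p) h S2) : UP (k0 p)) * y ^ i = _
      rw [(hc i hi).2]
    rw [h1, ← eval₂_eq_sum_range, hy]
    rfl
  rw [eval₂_eq_sum_range]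
  have h1 := congrArg T hsum
  rw [map_sum, map_zero] at h1
  rw [← h1]
  refine Finset.sum_congr rfl fun i hi => ?_
  rw [map_mul, map_pow, (hc i hi).1]
  rfl

theorem star1_II {M : Type} [Field M] {σ : P1 p →+* M} (hM : Mdl p σ) (x : M)
    (hx : ¬ Alg1 σ x) (F : Finset M) (hF : ∀ a ∈ F, Alg1 (ev1 σ x) a) (w : M)
    (hw : Alg1 (ev1 σ x) w) (hw0 : w ≠ 0) (hw1 : hM.vc w < 1) : Star1 σ x F := by
  classical
  obtain ⟨j, hj, hjalg, -, -⟩ := hM.exists_j
  letI : Algebra (k0 p) M := j.toAlgebra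
  have hH : HField (k0 p) hM.vc := hM.hfield j hj
  have hjσ : ∀ f : P1 p, algebraMap (k0 p) M (sig0 p f) = σ f := hj
  have hjcomp : (algebraMap (k0 p) M).comp (sig0 p) = σ := RingHom.ext hj
  -- algebraic over `σ(x)` implies algebraic over `k0(x)`
  have halg : ∀ a : M, Alg1 (ev1 σ x) a → AlgH (k0 p) x a := by
    rintro a ⟨P, hP, hPa⟩
    have hinj : Function.Injective (Polynomial.mapRingHom (sig0 p)) := by
      apply Polynomial.map_injective
      intro f g hfg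
      exact tauK_inj' p (congrArg Subtype.val hfg)
    refine ⟨P.map (Polynomial.mapRingHom (sig0 p)), (Polynomial.map_ne_zero_iff hinj).mpr hP, ?_⟩
    have h1 : (ev1 (algebraMap (k0 p) M) x).comp (Polynomial.mapRingHom (sig0 p)) = ev1 σ x := by
      apply Polynomial.ringHom_ext
      · intro f
        rw [RingHom.comp_apply, Polynomial.coe_mapRingHom, Polynomial.map_C, ev1_C, ev1_C]
        exact hjσ f
      · rw [RingHom.comp_apply, Polynomial.coe_mapRingHom, Polynomial.map_X, ev1_X, ev1_X]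
    change (P.map (Polynomial.mapRingHom (sig0 p))).eval₂ (ev1 (algebraMap (k0 p) M) x) a = 0
    rw [eval₂_map, h1]
    exact hPa
  -- `x` is transcendental over `k0`
  have hxtr : ¬ Alg1 (algebraMap (k0 p) M) x := by
    rintro ⟨q, hq, hqx⟩
    apply hx
    let j' : k0 p →+* algField σ := j.codRestrict _ (fun z => (hjalg (j z)).mpr ⟨z, rfl⟩)
    apply rel_closed σ (q.map j') ((Polynomial.map_ne_zero_iff j'.injective).mpr hq)
    rw [eval₂_map]
    exact hqx
  have hwx : AlgH (k0 p) w x := algH_symm (halg w hw)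
  have hS : ∀ s ∈ insert x F, AlgH (k0 p) w s := by
    intro s hs
    rw [Finset.mem_insert] at hs
    rcases hs with rfl | hs
    · exact hwx
    · exact algH_trans hxtr hwx (halg s (hF s hs))
  obtain ⟨ι, hι, hroot⟩ := caseII_core hH hw1 hw0 (insert x F) hS (by
    intro n hn z hz
    obtain ⟨γ, hγ, i, hi, y, h1, h2⟩ := hM.pow n hn z hz
    exact ⟨γ, hγ, i, hi, y, h1, by rw [hjσ]; exact h2⟩)
  let E : Subfield M := (EF (k0 p) w (insert x F)).toSubfield
  let i : E →+* EF (k0 p) w (insert x F) :=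
    { toFun := fun a => ⟨a.1, a.2⟩
      map_one' := rfl
      map_mul' := fun _ _ => rfl
      map_zero' := rfl
      map_add' := fun _ _ => rfl }
  have hmem : ∀ s ∈ insert x F, s ∈ E := fun s hs => mem_EF_of_mem w hs
  refine ⟨E, ι.comp i, hmem x (Finset.mem_insert_self _ _),
    fun a ha => hmem a (Finset.mem_insert_of_mem ha), ?_, ?_⟩
  · intro f
    have h1 : σ f ∈ E := by
      rw [← hjσ f]
      exact (EF (k0 p) w (insert x F)).algebraMap_mem _
    refine ⟨h1, ?_⟩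
    have h2 : i ⟨σ f, h1⟩ = algebraMap (k0 p) (EF (k0 p) w (insert x F)) (sig0 p f) :=
      Subtype.ext (hjσ f).symm
    rw [RingHom.comp_apply, h2, hι]
    rfl
  · rintro N ⟨y, hy⟩
    have h1 : (N.map i).eval₂ ι y = 0 := by
      rw [eval₂_map]
      exact hy
    obtain ⟨z, hz⟩ := hroot (N.map i) ⟨y, h1⟩
    refine ⟨z, ?_⟩
    rw [eval₂_map] at hz
    exact hz

end BF80
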