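import Pool.Agent.BF80.CaseII

/-!
# Case II with an arbitrary target
-/

set_option autoImplicit false
set_option maxSynthPendingDepth 10

open Polynomial Filter

namespace BF80

open FT80

variable {p : ℕ} [Fact p.Prime]

theorem caseII_gen {M Γ₀ : Type} [Field M] [LinearOrderedCommGroupWithZero Γ₀]
    [Algebra (k0 p) M] {v : Valuation M Γ₀} (hH : HField (k0 p) v) {w : M} (hw1 : v w < 1)
    (hw0 : w ≠ 0) (S : Finset M) (hS : ∀ s ∈ S, AlgH (k0 p) w s) :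
    ∃ π : EF (k0 p) w S, (π : M) ≠ 0 ∧ v (π : M) < 1 ∧
      (∀ c ∈ EF (k0 p) w S, c ≠ 0 → ∃ q : ℤ, v c = v (π : M) ^ q) ∧
      (∀ c ∈ EF (k0 p) w S, AlgH (k0 p) (π : M) c) ∧
      ∀ (U Γ₂ : Type) [Field U] [LinearOrderedCommGroupWithZero Γ₂] [Algebra (k0 p) U]
        (v2 : Valuation U Γ₂), HField (k0 p) v2 → ∀ h : U, h ≠ 0 → v2 h < 1 →
        (∀ (e : ℕ) (π' u : U) (ζ : k0 p), ζ ≠ 0 → h = π' ^ e * u →
          v2 (u - algebraMap (k0 p) U ζ) < 1 → ¬ p ∣ e) →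
        (∀ e : ℕ, ¬ p ∣ e → ∀ ζ : k0 p, ζ ≠ 0 → ∀ z : U, algebraMap (k0 p) U ζ * z ^ e = h →
          ∃ g : M, algebraMap (k0 p) M ζ * g ^ e = (π : M)) →
        ∃ ι : EF (k0 p) w S →+* U, ι π = h ∧
          (∀ r : k0 p, ι (algebraMap (k0 p) (EF (k0 p) w S) r) = algebraMap (k0 p) U r) ∧
          ∀ N : Polynomial (EF (k0 p) w S), (∃ y : U, N.eval₂ ι y = 0) →
            ∃ y : M, N.eval₂ (algebraMap (EF (k0 p) w S) M) y = 0 := by
  classical
  have hv := hH.nice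
  obtain ⟨π, hπE, hπ0, hπ1, hπalg, Ψ, hΨinj, hΨasy, hΨπ⟩ := exists_Psi hv hw1 hw0 S hS
  refine ⟨⟨π, hπE⟩, hπ0, hπ1, ?_, hπalg, ?_⟩
  · -- values
    have hpos : ∀ c : RF hv w S, c ≠ 0 → ∃ q : ℤ, v (c : M) = v π ^ q := by
      intro c hc0
      have hV0 : ((Ψ c : AP (k0 p)) : PowerSeries (k0 p)) ≠ 0 := by
        intro h0
        have h1 : Ψ c = 0 := Subtype.ext h0
        exact hc0 (hΨinj (by rw [h1, map_zero]))
      obtain ⟨e, q, hVq, hqu⟩ := ps_eq_pow_mul_unit hV0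
      set ζ : k0 p := PowerSeries.constantCoeff q with hζdef
      have hζ : ζ ≠ 0 := by
        rw [PowerSeries.isUnit_iff_constantCoeff, isUnit_iff_ne_zero] at hqu
        exact hqu
      obtain ⟨r, hr, hhr⟩ := hΨasy c (e + 1)
      have htr : PowerSeries.trunc (e + 1) ((Ψ c : AP (k0 p)) : PowerSeries (k0 p))
          = C ζ * X ^ e := by
        ext m
        rw [PowerSeries.coeff_trunc, hVq, coeff_C_mul_X_pow]
        by_cases hm : m < e + 1
        · rw [if_pos hm, PowerSeries.coeff_X_pow_mul']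
          by_cases hme : m = e
          · rw [if_pos hme, if_pos (by omega), hme, Nat.sub_self,
              PowerSeries.coeff_zero_eq_constantCoeff_apply]
          · rw [if_neg hme, if_neg (by omega)]
        · rw [if_neg hm, if_neg (by omega)]
      have hhu : (c : M) = π ^ e * (algebraMap (k0 p) M ζ + π * r) := by
        have h1 : (c : M) = aeval π (PowerSeries.trunc (e + 1)
          ((Ψ c : AP (k0 p)) : PowerSeries (k0 p))) + π ^ (e + 1) * r := hhr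
        rw [htr, map_mul, map_pow, aeval_C, aeval_X] at h1
        rw [h1]
        ring
      refine ⟨(e : ℤ), ?_⟩
      have h2 : v (π * r) < v (algebraMap (k0 p) M ζ) := by
        rw [hv.triv ζ hζ, map_mul]
        exact mul_lt_one_of_lt_of_le hπ1 hr
      rw [hhu, map_mul, map_pow, Valuation.map_add_eq_of_lt_left _ h2, hv.triv ζ hζ, mul_one,
        zpow_natCast]
    intro c hc hc0
    by_cases hc1 : v c ≤ 1
    · exact hpos ⟨c, hc, hc1⟩ (fun h => hc0 (congrArg Subtype.val h))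
    · have hc1' : v c⁻¹ ≤ 1 := by
        rw [map_inv₀]
        exact inv_le_one_of_one_le₀ (not_le.mp hc1).le
      obtain ⟨q, hq⟩ := hpos ⟨c⁻¹, inv_mem hc, hc1'⟩
        (fun h => inv_ne_zero hc0 (congrArg Subtype.val h))
      refine ⟨-q, ?_⟩
      have h1 : v c⁻¹ = v π ^ q := hq
      rw [zpow_neg, ← h1, map_inv₀, inv_inv]
  intro U Γ₂ _ _ _ v2 hH2 h hh0 hh1 hT1w hT2w
  have hV2 := hH2.nice
  obtain ⟨Φ, hΦasy, hΦX, hΦinj, hΦalg⟩ := exists_Phi hH2 sepSer_k0 hh1 hh0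
  have hφinj : Function.Injective (Φ.comp Ψ).toRingHom := hΦinj.comp hΨinj
  obtain ⟨ι, hι⟩ := extendRF hv (Φ.comp Ψ).toRingHom hφinj
  have hι1 : ∀ z : EF (k0 p) w S, ∀ hz : v (z : M) ≤ 1, ι z = Φ (Ψ ⟨z, z.2, hz⟩) :=
    fun z hz => hι ⟨z, z.2, hz⟩
  refine ⟨ι, ?_, ?_, ?_⟩
  · have h1 := hι1 ⟨π, hπE⟩ hπ1.le
    rw [h1]
    exact hΦX _ (hΨπ _ rfl)
  · intro r
    have h1 := hι1 (algebraMap (k0 p) (EF (k0 p) w S) r) (hv.le_one r)
    rw [h1]
    exact (Φ.comp Ψ).commutes r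
  -- values of `ι` are algebraic over `h`
  have hιalg : ∀ z : EF (k0 p) w S, AlgH (k0 p) h (ι z) := by
    intro z
    by_cases hz : v (z : M) ≤ 1
    · rw [hι1 z hz]
      exact hΦalg _
    · have hz' : v ((z⁻¹ : EF (k0 p) w S) : M) ≤ 1 := by
        have e1 : ((z⁻¹ : EF (k0 p) w S) : M) = (z : M)⁻¹ := rfl
        rw [e1, map_inv₀]
        exact inv_le_one_of_one_le₀ (not_le.mp hz).le
      have h1 : AlgH (k0 p) h (ι z⁻¹) := by
        rw [hι1 _ hz']
        exact hΦalg _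
      have h2 : ι z = (ι z⁻¹)⁻¹ := by rw [map_inv₀, inv_inv]
      rw [algH_iff] at h1 ⊢
      rw [h2]
      exact inv_mem h1
  intro N hN
  obtain ⟨y, hy⟩ := hN
  rcases eq_or_ne N 0 with rfl | hN0
  · exact ⟨0, eval₂_zero _ _⟩
  -- `y` is algebraic over `h`
  have hyalg : AlgH (k0 p) h y := by
    let ι' : EF (k0 p) w S →+* algField (ev1 (algebraMap (k0 p) U) h) :=
      ι.codRestrict _ hιalg
    have hι' : Function.Injective ι' := ι'.injective
    apply rel_closed _ (N.map ι') ((Polynomial.map_ne_zero_iff hι').mpr hN0)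
    rw [eval₂_map]
    exact hy
  set S2 : Finset U :=
    insert y ((Finset.range (N.natDegree + 1)).image fun i => ι (N.coeff i)) with hS2def
  have hS2 : ∀ s ∈ S2, AlgH (k0 p) h s := by
    intro s hs
    rw [hS2def, Finset.mem_insert, Finset.mem_image] at hs
    rcases hs with rfl | ⟨i, -, rfl⟩
    · exact hyalg
    · exact hιalg _
  obtain ⟨π2, hπ2E, hπ20, hπ21, hπ2alg, Ψ2, hΨ2inj, hΨ2asy, hΨ2π⟩ :=
    exists_Psi hV2 hh1 hh0 S2 hS2
  let hR : RF hV2 h S2 := ⟨h, self_mem_EF h S2, hh1.le⟩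
  have hR0 : hR ≠ 0 := fun h0 => hh0 (congrArg Subtype.val h0)
  have hV0 : ((Ψ2 hR : AP (k0 p)) : PowerSeries (k0 p)) ≠ 0 := by
    intro h0
    have h1 : Ψ2 hR = 0 := Subtype.ext h0
    exact hR0 (hΨ2inj (by rw [h1, map_zero]))
  obtain ⟨e, q, hVq, hqu⟩ := ps_eq_pow_mul_unit hV0
  set ζ : k0 p := PowerSeries.constantCoeff q with hζdef
  have hζ : ζ ≠ 0 := by
    rw [PowerSeries.isUnit_iff_constantCoeff, isUnit_iff_ne_zero] at hqu
    exact hqu
  -- `h = π2 ^ e * u`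
  obtain ⟨r, hr, hhr⟩ := hΨ2asy hR (e + 1)
  have htr : PowerSeries.trunc (e + 1) ((Ψ2 hR : AP (k0 p)) : PowerSeries (k0 p))
      = C ζ * X ^ e := by
    ext m
    rw [PowerSeries.coeff_trunc, hVq, coeff_C_mul_X_pow]
    by_cases hm : m < e + 1
    · rw [if_pos hm, PowerSeries.coeff_X_pow_mul']
      by_cases hme : m = e
      · rw [if_pos hme, if_pos (by omega), hme, Nat.sub_self,
          PowerSeries.coeff_zero_eq_constantCoeff_apply]
      · rw [if_neg hme, if_neg (by omega)]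
    · rw [if_neg hm, if_neg (by omega)]
  have hhu : h = π2 ^ e * (algebraMap (k0 p) U ζ + π2 * r) := by
    have h1 : h = aeval π2 (PowerSeries.trunc (e + 1)
      ((Ψ2 hR : AP (k0 p)) : PowerSeries (k0 p))) + π2 ^ (e + 1) * r := hhr
    rw [htr, map_mul, map_pow, aeval_C, aeval_X] at h1
    rw [h1]
    ring
  have hpe : ¬ p ∣ e := by
    apply hT1w e π2 _ ζ hζ hhu
    rw [add_sub_cancel_left, map_mul]
    exact mul_lt_one_of_lt_of_le hπ21 hr
  have he1 : 1 ≤ e := by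
    rcases Nat.eq_zero_or_pos e with h0 | h0
    · exact absurd (h0 ▸ dvd_zero p) hpe
    · exact h0
  have heκ : (e : k0 p) ≠ 0 := by
    intro h0
    apply natCast_KK_ne_zero hpe
    have := congrArg (fun z : k0 p => (z : KK p)) h0
    simpa using this
  have hA : PowerSeries.constantCoeff (PowerSeries.C ζ⁻¹ * q) = 1 := by
    rw [map_mul, PowerSeries.constantCoeff_C]
    exact inv_mul_cancel₀ hζ
  obtain ⟨B, hB1, hB2⟩ := exists_root_pow e heκ _ hA
  have hBu : IsUnit B := by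
    rw [PowerSeries.isUnit_iff_constantCoeff, hB1]
    exact isUnit_one
  have hXB : (PowerSeries.X * B) ^ e
      = PowerSeries.C ζ⁻¹ * ((Ψ2 hR : AP (k0 p)) : PowerSeries (k0 p)) := by
    rw [mul_pow, hB2, hVq]
    ring
  have hXBmem : PowerSeries.X * B ∈ AP (k0 p) := by
    apply ap_of_pow he1
    rw [hXB]
    exact mul_mem ((AP (k0 p)).algebraMap_mem ζ⁻¹) (Ψ2 hR).2
  let XB : AP (k0 p) := ⟨PowerSeries.X * B, hXBmem⟩
  have hVXB : Ψ2 hR = algebraMap (k0 p) (AP (k0 p)) ζ * XB ^ e := by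
    apply Subtype.ext
    change ((Ψ2 hR : AP (k0 p)) : PowerSeries (k0 p)) = PowerSeries.C ζ * (PowerSeries.X * B) ^ e
    rw [hXB, ← mul_assoc, ← map_mul, mul_inv_cancel₀ hζ, map_one, one_mul]
  -- coordinate change
  obtain ⟨R, hRσ, hRinj, -⟩ := reparam hV2 hBu (σ := PowerSeries.X * B) rfl
  let R' : AP (k0 p) →ₐ[k0 p] AP (k0 p) :=
    (R.comp (AP (k0 p)).val).codRestrict (AP (k0 p))
      (fun Y => ap_reparam R hRinj hXBmem hRσ Y.2)
  have hR'inj : Function.Injective R' := by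
    intro a b hab
    have h1 := congrArg (fun z : AP (k0 p) => (z : PowerSeries (k0 p))) hab
    exact Subtype.ext (hRinj h1)
  let XX1 : AP (k0 p) := ⟨PowerSeries.X, ap_X⟩
  have hR'XB : R' XB = XX1 := Subtype.ext hRσ
  -- `h = ζ π3 ^ e`
  obtain ⟨Φ2, hΦ2asy, -, -, hΦ2alg⟩ := exists_Phi hH2 sepSer_k0 hπ21 hπ20
  have hΦ2V : Φ2 (Ψ2 hR) = h :=
    asy_unique hV2 hπ21 hπ20 (hΦ2asy (Ψ2 hR)) (hΨ2asy hR) (hΦ2alg _)
      (hπ2alg h (self_mem_EF h S2))
  have hζh : algebraMap (k0 p) U ζ * (Φ2 XB) ^ e = h := by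
    rw [← hΦ2V, hVXB, map_mul, map_pow, Φ2.commutes]
  obtain ⟨g, hgπ⟩ := hT2w e hpe ζ hζ (Φ2 XB) hζh
  have hgπ : algebraMap (k0 p) M ζ * g ^ e = π := hgπ
  have hg0 : g ≠ 0 := by
    intro h0
    apply hπ0
    rw [← hgπ, h0, zero_pow (by omega), mul_zero]
  have hg1 : v g < 1 := by
    by_contra hcon
    rw [not_lt] at hcon
    have h1 : v π = v g ^ e := by
      rw [← hgπ, map_mul, hv.triv ζ hζ, one_mul, map_pow]
    rw [h1] at hπ1
    exact absurd hπ1 (not_lt.mpr (one_le_pow₀ hcon))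
  obtain ⟨Φg, hΦgasy, hΦgX, hΦginj, hΦgalg⟩ := exists_Phi hH sepSer_k0 hg1 hg0
  let T0 : RF hV2 h S2 →ₐ[k0 p] M := Φg.comp (R'.comp Ψ2)
  have hT0inj : Function.Injective T0 := hΦginj.comp (hR'inj.comp hΨ2inj)
  have hT0h : T0 hR = π := by
    change Φg (R' (Ψ2 hR)) = π
    rw [hVXB, map_mul, map_pow, hR'XB, AlgHom.commutes, map_mul, map_pow, AlgHom.commutes,
      hΦgX XX1 rfl, hgπ]
  obtain ⟨T, hT⟩ := extendRF hV2 T0.toRingHom hT0inj
  have hT1 : ∀ z : EF (k0 p) h S2, ∀ hz : v2 (z : U) ≤ 1, T z = T0 ⟨z, z.2, hz⟩ :=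
    fun z hz => hT ⟨z, z.2, hz⟩
  have hgtr : ¬ Alg1 (algebraMap (k0 p) M) g := transc_of_lt hv hg1 hg0
  have hπg : AlgH (k0 p) π g := by
    apply algH_symm
    rw [algH_iff, ← hgπ]
    exact mul_mem (mem_algField_const g ζ) (pow_mem (mem_algField_self g) e)
  -- the key claim
  have key1 : ∀ z : EF (k0 p) w S, v (z : M) ≤ 1 → ∀ hz : ι z ∈ EF (k0 p) h S2,
      T ⟨ι z, hz⟩ = z := by
    intro z hz1 hzE
    let zR : RF hv w S := ⟨z, z.2, hz1⟩
    have hιz : ι z = Φ (Ψ zR) := hι1 z hz1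
    have hasy : Asy v2 h ((Ψ zR : AP (k0 p)) : PowerSeries (k0 p)) (ι z) := by
      rw [hιz]
      exact hΦasy _
    have hz2 : v2 (ι z) ≤ 1 := asy_le hasy
    rw [hT1 ⟨ι z, hzE⟩ hz2]
    apply asy_unique hv hπ1 hπ0 (Y := ((Ψ zR : AP (k0 p)) : PowerSeries (k0 p))) _ (hΨasy zR) _
      (hπalg z z.2)
    · intro n
      obtain ⟨s, hs1, hs2⟩ := hasy n
      have hsE : s ∈ EF (k0 p) h S2 := by
        have h1 : s = (ι z - aeval h (PowerSeries.trunc n
            ((Ψ zR : AP (k0 p)) : PowerSeries (k0 p)))) / h ^ n := by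
          rw [eq_div_iff (pow_ne_zero _ hh0), hs2]
          ring
        rw [h1]
        exact div_mem (sub_mem hzE (aeval_mem_EF h S2 _)) (pow_mem (self_mem_EF h S2) n)
      let sR : RF hV2 h S2 := ⟨s, hsE, hs1⟩
      refine ⟨T0 sR, asy_le (hΦgasy _), ?_⟩
      have h2 : (⟨ι z, hzE, hz2⟩ : RF hV2 h S2) = aeval hR (PowerSeries.trunc n
          ((Ψ zR : AP (k0 p)) : PowerSeries (k0 p))) + hR ^ n * sR := by
        apply Subtype.ext
        have h3 := Polynomial.aeval_algHom_apply (RF hV2 h S2).val hR (PowerSeries.trunc n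
          ((Ψ zR : AP (k0 p)) : PowerSeries (k0 p)))
        change ι z = (RF hV2 h S2).val (aeval hR (PowerSeries.trunc n
          ((Ψ zR : AP (k0 p)) : PowerSeries (k0 p)))) + h ^ n * s
        rw [← h3]
        exact hs2
      rw [h2, map_add, map_mul, map_pow, ← Polynomial.aeval_algHom_apply, hT0h]
    · exact algH_trans hgtr hπg (hΦgalg _)
  have key : ∀ z : EF (k0 p) w S, ∀ hz : ι z ∈ EF (k0 p) h S2, T ⟨ι z, hz⟩ = z := by
    intro z hz
    by_cases hz1 : v (z : M) ≤ 1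
    · exact key1 z hz1 hz
    · have hz' : v ((z⁻¹ : EF (k0 p) w S) : M) ≤ 1 := by
        have e1 : ((z⁻¹ : EF (k0 p) w S) : M) = (z : M)⁻¹ := rfl
        rw [e1, map_inv₀]
        exact inv_le_one_of_one_le₀ (not_le.mp hz1).le
      have hzi : ι z⁻¹ ∈ EF (k0 p) h S2 := by
        rw [map_inv₀]
        exact inv_mem hz
      have h1 := key1 z⁻¹ hz' hzi
      have h2 : (⟨ι z⁻¹, hzi⟩ : EF (k0 p) h S2) = (⟨ι z, hz⟩ : EF (k0 p) h S2)⁻¹ := by
        apply Subtype.ext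
        exact map_inv₀ ι z
      rw [h2, map_inv₀] at h1
      have h3 : ((z⁻¹ : EF (k0 p) w S) : M) = (z : M)⁻¹ := rfl
      rw [h3] at h1
      exact inv_injective h1
  -- conclusion
  have hyE : y ∈ EF (k0 p) h S2 := mem_EF_of_mem h (Finset.mem_insert_self _ _)
  refine ⟨T ⟨y, hyE⟩, ?_⟩
  have hcE : ∀ i ∈ Finset.range (N.natDegree + 1), ι (N.coeff i) ∈ EF (k0 p) h S2 := by
    intro i hi
    exact mem_EF_of_mem h (Finset.mem_insert_of_mem (Finset.mem_image_of_mem _ hi))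
  let c : ℕ → EF (k0 p) h S2 := fun i =>
    if hi : ι (N.coeff i) ∈ EF (k0 p) h S2 then ⟨_, hi⟩ else 0
  have hc : ∀ i ∈ Finset.range (N.natDegree + 1), T (c i) = N.coeff i ∧
      ((c i : EF (k0 p) h S2) : U) = ι (N.coeff i) := by
    intro i hi
    have h1 : c i = ⟨_, hcE i hi⟩ := dif_pos (hcE i hi)
    rw [h1]
    exact ⟨key _ _, rfl⟩
  have hsum : ∑ i ∈ Finset.range (N.natDegree + 1), c i * (⟨y, hyE⟩ : EF (k0 p) h S2) ^ i = 0 := by
    apply Subtype.ext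
    have h1 : ((∑ i ∈ Finset.range (N.natDegree + 1), c i * (⟨y, hyE⟩ : EF (k0 p) h S2) ^ i :
        EF (k0 p) h S2) : U) = ∑ i ∈ Finset.range (N.natDegree + 1),
          ι (N.coeff i) * y ^ i := by
      rw [← IntermediateField.coe_val, map_sum]
      refine Finset.sum_congr rfl fun i hi => ?_
      rw [map_mul, map_pow]
      change ((c i : EF (k0 p) h S2) : U) * y ^ i = _
      rw [(hc i hi).2]
    rw [h1, ← eval₂_eq_sum_range, hy]
    rfl
  rw [eval₂_eq_sum_range]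
  have h1 := congrArg T hsum
  rw [map_sum, map_zero] at h1
  rw [← h1]
  refine Finset.sum_congr rfl fun i hi => ?_
  rw [map_mul, map_pow, (hc i hi).1]
  rfl

end BF80
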