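import Pool.Agent.BF80.MdlBasic0
import Pool.Agent.BF80.MdlK
import Pool.Agent.FT80.Lift

/-!
# The standard part
-/

set_option maxSynthPendingDepth 10

open Polynomial Filter

namespace BF80

open FT80

variable {p : ℕ} [hp : Fact p.Prime]

section dg
variable {M : Type*} [Field M] {σ : P1 p →+* M}

/-- `s` is the sequence of digits of `x` -/
def Dig (σ : P1 p →+* M) (x : M) (s : OO p) : Prop :=
  ∀ n : ℕ, VO (σ X) ((x - σ (PowerSeries.trunc n s)) / σ X ^ n)

theorem Mdl.exists_dig (hM : Mdl p σ) {x : M} (hx : VO (σ X) x) : ∃ s : OO p, Dig σ x s := by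
  have ht := hM.t_ne
  have step : ∀ y : {y : M // VO (σ X) y}, ∃ a : ZMod p,
      VO (σ X) (((y : M) - σ (C a)) / σ X) := by
    rintro ⟨y, hy⟩
    obtain ⟨a, -, h⟩ := hM.res y hy
    refine ⟨((a : ℕ) : ZMod p), ?_⟩
    rwa [map_natCast, map_natCast]
  choose a ha using step
  let y : ℕ → {y : M // VO (σ X) y} := fun n =>
    Nat.rec ⟨x, hx⟩ (fun _ y => ⟨((y : M) - σ (C (a y))) / σ X, ha y⟩) n
  have hy : ∀ n, ((y (n + 1)).1) = ((y n).1 - σ (C (a (y n)))) / σ X := fun n => rfl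
  refine ⟨PowerSeries.mk (fun n => a (y n)), ?_⟩
  have key : ∀ n, x = σ (PowerSeries.trunc n (PowerSeries.mk (fun n => a (y n)))) +
      σ X ^ n * (y n).1 := by
    intro n
    induction n with
    | zero =>
      rw [pow_zero, one_mul]
      have h1 : PowerSeries.trunc 0 (PowerSeries.mk (fun n => a (y n))) = 0 := by
        ext i
        rw [PowerSeries.coeff_trunc]
        simp
      rw [h1, map_zero, zero_add]
      rfl
    | succ n ih =>
      have h1 := PowerSeries.trunc_succ (PowerSeries.mk (fun n => a (y n))) n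
      rw [Nat.succ_eq_add_one] at h1
      rw [h1, PowerSeries.coeff_mk, ← C_mul_X_pow_eq_monomial, map_add, map_mul, map_pow, hy,
        pow_succ]
      conv_lhs => rw [ih]
      field_simp
      ring
  intro n
  have h2 : (x - σ (PowerSeries.trunc n (PowerSeries.mk (fun n => a (y n))))) / σ X ^ n =
      (y n).1 := by
    rw [div_eq_iff (pow_ne_zero n ht)]
    have := key n
    linear_combination this
  rw [h2]
  exact (y n).2

theorem Dig.unique (hM : Mdl p σ) {x : M} {s s' : OO p} (h : Dig σ x s) (h' : Dig σ x s') :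
    s = s' := by
  ext n
  have h1 := hM.sub (h' (n + 1)) (h (n + 1))
  have h2 : (x - σ (PowerSeries.trunc (n + 1) s')) / σ X ^ (n + 1) -
      (x - σ (PowerSeries.trunc (n + 1) s)) / σ X ^ (n + 1) =
      σ (PowerSeries.trunc (n + 1) s - PowerSeries.trunc (n + 1) s') / σ X ^ (n + 1) := by
    rw [map_sub]
    ring
  rw [h2, hM.dvd_iff, Polynomial.X_pow_dvd_iff] at h1
  have h3 := h1 n (Nat.lt_succ_self _)
  rw [coeff_sub, PowerSeries.coeff_trunc, PowerSeries.coeff_trunc, if_pos (Nat.lt_succ_self _),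
    if_pos (Nat.lt_succ_self _)] at h3
  exact sub_eq_zero.1 h3

theorem Dig.add (hM : Mdl p σ) {x y : M} {s u : OO p} (h : Dig σ x s) (h' : Dig σ y u) :
    Dig σ (x + y) (s + u) := by
  intro n
  have h1 := hM.add _ _ (h n) (h' n)
  have h2 : (x - σ (PowerSeries.trunc n s)) / σ X ^ n + (y - σ (PowerSeries.trunc n u)) / σ X ^ n =
      (x + y - σ (PowerSeries.trunc n (s + u))) / σ X ^ n := by
    rw [map_add, map_add]
    ring
  rwa [h2] at h1

theorem Dig.mul (hM : Mdl p σ) {x y : M} {s u : OO p} (hx : VO (σ X) x) (h : Dig σ x s)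
    (h' : Dig σ y u) : Dig σ (x * y) (s * u) := by
  intro n
  have ht := hM.t_ne
  have h1 := hM.mul _ _ hx (h' n)
  have h2 := hM.mul _ _ (hM.VO_σ (PowerSeries.trunc n u)) (h n)
  have h3 : VO (σ X) (σ (PowerSeries.trunc n s * PowerSeries.trunc n u -
      PowerSeries.trunc n (s * u)) / σ X ^ n) := by
    rw [hM.dvd_iff, Polynomial.X_pow_dvd_iff]
    intro d hd
    rw [coeff_sub, PowerSeries.coeff_trunc, if_pos hd, coeff_mul, PowerSeries.coeff_mul,
      sub_eq_zero]
    refine Finset.sum_congr rfl (fun z hz => ?_)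
    have hz' := Finset.HasAntidiagonal.mem_antidiagonal.1 hz
    rw [PowerSeries.coeff_trunc, PowerSeries.coeff_trunc, if_pos (by omega), if_pos (by omega)]
  have h4 := hM.add _ _ (hM.add _ _ h1 h2) h3
  have h5 : x * ((y - σ (PowerSeries.trunc n u)) / σ X ^ n) +
      σ (PowerSeries.trunc n u) * ((x - σ (PowerSeries.trunc n s)) / σ X ^ n) +
      σ (PowerSeries.trunc n s * PowerSeries.trunc n u - PowerSeries.trunc n (s * u)) / σ X ^ n =
      (x * y - σ (PowerSeries.trunc n (s * u))) / σ X ^ n := by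
    rw [map_sub, map_mul]
    ring
  rwa [h5] at h4

theorem Mdl.dig_σ (hM : Mdl p σ) (f : P1 p) : Dig σ (σ f) (tau p f) := by
  intro n
  rw [← map_sub, hM.dvd_iff, Polynomial.X_pow_dvd_iff]
  intro d hd
  rw [coeff_sub, PowerSeries.coeff_trunc, if_pos hd, tau_coeff, sub_self]

open Classical in
/-- the digits of `x` -/
noncomputable def Mdl.dg (hM : Mdl p σ) (x : M) : OO p :=
  if h : VO (σ X) x then (hM.exists_dig h).choose else 0

theorem Mdl.dg_spec (hM : Mdl p σ) {x : M} (h : VO (σ X) x) : Dig σ x (hM.dg x) := by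
  unfold Mdl.dg
  rw [dif_pos h]
  exact (hM.exists_dig h).choose_spec

theorem Mdl.dg_eq (hM : Mdl p σ) {x : M} (h : VO (σ X) x) {s : OO p} (hs : Dig σ x s) :
    hM.dg x = s := (hM.dg_spec h).unique hM hs

theorem Mdl.dg_add (hM : Mdl p σ) {x y : M} (hx : VO (σ X) x) (hy : VO (σ X) y) :
    hM.dg (x + y) = hM.dg x + hM.dg y :=
  hM.dg_eq (hM.add _ _ hx hy) ((hM.dg_spec hx).add hM (hM.dg_spec hy))

theorem Mdl.dg_mul (hM : Mdl p σ) {x y : M} (hx : VO (σ X) x) (hy : VO (σ X) y) :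
    hM.dg (x * y) = hM.dg x * hM.dg y :=
  hM.dg_eq (hM.mul _ _ hx hy) ((hM.dg_spec hx).mul hM hx (hM.dg_spec hy))

theorem Mdl.dg_σ (hM : Mdl p σ) (f : P1 p) : hM.dg (σ f) = tau p f :=
  hM.dg_eq (hM.VO_σ f) (hM.dig_σ f)

theorem Mdl.dg_t_mul (hM : Mdl p σ) {x : M} (hx : VO (σ X) x) (n : ℕ) :
    hM.dg (σ X ^ n * x) = PowerSeries.X ^ n * hM.dg x := by
  rw [← map_pow, hM.dg_mul (hM.VO_σ _) hx, hM.dg_σ, map_pow, tau_X]

theorem Mdl.dg_eq_zero (hM : Mdl p σ) {x : M} (hx : VO (σ X) x) :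
    hM.dg x = 0 ↔ ∀ n : ℕ, VO (σ X) (x / σ X ^ n) := by
  constructor
  · intro h n
    have h1 := hM.dg_spec hx n
    rw [h] at h1
    rwa [map_zero, map_zero, sub_zero] at h1
  · intro h
    apply hM.dg_eq hx
    intro n
    rw [map_zero, map_zero, sub_zero]
    exact h n

open Classical in
/-- the standard part, as a function -/
noncomputable def Mdl.sf (hM : Mdl p σ) (x : M) : KK p :=
  if h : ∃ n : ℕ, VO (σ X) (σ X ^ n * x) then
    TT p (-(h.choose : ℤ)) * iK p (hM.dg (σ X ^ h.choose * x)) else 0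

theorem Mdl.sf_aux (hM : Mdl p σ) {x : M} {m n : ℕ} (hmn : m ≤ n) (hm : VO (σ X) (σ X ^ m * x)) :
    TT p (-(m : ℤ)) * iK p (hM.dg (σ X ^ m * x)) =
      TT p (-(n : ℤ)) * iK p (hM.dg (σ X ^ n * x)) := by
  have h1 : σ X ^ n * x = σ X ^ (n - m) * (σ X ^ m * x) := by
    rw [← mul_assoc, ← pow_add]
    congr 2
    omega
  rw [h1, hM.dg_t_mul hm, map_mul, ← TT_nat, ← mul_assoc, ← TT_add]
  congr 2
  omega

theorem Mdl.sf_eq (hM : Mdl p σ) {x : M} {n : ℕ} (hn : VO (σ X) (σ X ^ n * x)) :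
    hM.sf x = TT p (-(n : ℤ)) * iK p (hM.dg (σ X ^ n * x)) := by
  have h : ∃ n : ℕ, VO (σ X) (σ X ^ n * x) := ⟨n, hn⟩
  unfold Mdl.sf
  rw [dif_pos h]
  rcases le_total h.choose n with h1 | h1
  · exact hM.sf_aux h1 h.choose_spec
  · exact (hM.sf_aux h1 hn).symm

theorem Mdl.sf_VO (hM : Mdl p σ) {x : M} (hx : VO (σ X) x) : hM.sf x = iK p (hM.dg x) := by
  rw [hM.sf_eq (n := 0) (by rw [pow_zero, one_mul]; exact hx), Nat.cast_zero, neg_zero, TT_zero,
    pow_zero, one_mul, one_mul]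

/-- the standard part -/
noncomputable def Mdl.st (hM : Mdl p σ) : hM.OC →+* KK p where
  toFun x := hM.sf x
  map_one' := by
    have h1 : ((1 : hM.OC) : M) = σ 1 := (map_one σ).symm
    rw [h1, hM.sf_VO (hM.VO_σ _), hM.dg_σ, map_one, map_one]
  map_zero' := by
    have h1 : ((0 : hM.OC) : M) = σ 0 := (map_zero σ).symm
    rw [h1, hM.sf_VO (hM.VO_σ _), hM.dg_σ, map_zero, map_zero]
  map_add' := by
    rintro ⟨x, m, hm⟩ ⟨y, n, hn⟩
    show hM.sf (x + y) = hM.sf x + hM.sf y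
    have hx := hM.mono (Nat.le_add_right m n) hm
    have hy := hM.mono (Nat.le_add_left n m) hn
    have hxy : VO (σ X) (σ X ^ (m + n) * (x + y)) := by
      rw [mul_add]
      exact hM.add _ _ hx hy
    rw [hM.sf_eq hxy, hM.sf_eq hx, hM.sf_eq hy, mul_add, hM.dg_add hx hy, map_add, mul_add]
  map_mul' := by
    rintro ⟨x, m, hm⟩ ⟨y, n, hn⟩
    show hM.sf (x * y) = hM.sf x * hM.sf y
    have h1 : σ X ^ (m + n) * (x * y) = (σ X ^ m * x) * (σ X ^ n * y) := by ring
    have hxy : VO (σ X) (σ X ^ (m + n) * (x * y)) := by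
      rw [h1]
      exact hM.mul _ _ hm hn
    rw [hM.sf_eq hxy, hM.sf_eq hm, hM.sf_eq hn, h1, hM.dg_mul hm hn, map_mul]
    have h2 : TT p (-((m + n : ℕ) : ℤ)) = TT p (-(m : ℤ)) * TT p (-(n : ℤ)) := by
      rw [← TT_add]
      congr 1
      push_cast
      ring
    rw [h2]
    ring

theorem Mdl.st_apply (hM : Mdl p σ) (x : hM.OC) : hM.st x = hM.sf (x : M) := rfl

theorem Mdl.st_σ (hM : Mdl p σ) (f : P1 p) (h : σ f ∈ hM.OC) : hM.st ⟨σ f, h⟩ = tauK p f := by
  rw [hM.st_apply, hM.sf_VO (hM.VO_σ f), hM.dg_σ]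
  rfl

theorem Mdl.sf_eq_zero (hM : Mdl p σ) {x : M} (hx : x ∈ hM.OC) : hM.sf x = 0 ↔ hM.vc x < 1 := by
  obtain ⟨m, hm⟩ := hx
  have ht := hM.t_ne
  rw [hM.sf_eq hm, mul_eq_zero, or_iff_right (TT_ne_zero _), map_eq_zero_iff _ iK_injective,
    hM.dg_eq_zero hm, hM.vc_lt_one]
  constructor
  · intro h n
    have h1 := h (m + n)
    have h2 : σ X ^ m * x / σ X ^ (m + n) = x / σ X ^ n := by
      rw [pow_add]
      field_simp
    rwa [h2] at h1
  · intro h n
    have h1 := hM.mul _ _ (hM.VO_pow hM.VO_t m) (h n)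
    rwa [← mul_div_assoc] at h1

theorem Mdl.st_InO (hM : Mdl p σ) (x : hM.OC) : VO (σ X) (x : M) ↔ InO (hM.st x) := by
  rw [hM.st_apply]
  constructor
  · intro hx
    rw [hM.sf_VO hx]
    exact InO.iK _
  · intro hx
    have ht := hM.t_ne
    obtain ⟨m, hm⟩ := x.2
    induction m with
    | zero =>
      rwa [pow_zero, one_mul] at hm
    | succ m ih =>
      apply ih
      obtain ⟨a, -, ha⟩ := hM.res _ hm
      have h1 := hM.sf_eq hm
      have h2 : iK p (hM.dg (σ X ^ (m + 1) * (x : M))) =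
          iK p (PowerSeries.X ^ (m + 1)) * hM.sf (x : M) := by
        rw [h1, ← TT_nat, ← mul_assoc, ← TT_add, add_neg_cancel, TT_zero, one_mul]
      obtain ⟨w, hw⟩ := hx
      rw [← hw, ← map_mul (iK p)] at h2
      have h3 := iK_injective h2
      have h4 := hM.dg_spec hm 1
      have h5 : PowerSeries.trunc 1 (hM.dg (σ X ^ (m + 1) * (x : M))) = 0 := by
        ext i
        rw [PowerSeries.coeff_trunc]
        split_ifs with h6
        · rw [h3, show i = 0 by omega, pow_succ, mul_assoc, mul_comm PowerSeries.X, ← mul_assoc,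
            PowerSeries.coeff_zero_mul_X, coeff_zero]
        · rw [coeff_zero]
      rw [h5, map_zero, sub_zero, pow_one, pow_succ] at h4
      have h7 : σ X ^ m * σ X * (x : M) / σ X = σ X ^ m * (x : M) := by
        field_simp
      rwa [h7] at h4

theorem Mdl.exists_st (hM : Mdl p σ) : ∃ st : hM.OC →+* KK p,
    (∀ f : P1 p, ∃ h : σ f ∈ hM.OC, st ⟨σ f, h⟩ = tauK p f) ∧
    (∀ x : hM.OC, VO (σ X) (x : M) ↔ InO (st x)) ∧
    (∀ x : hM.OC, st x = 0 ↔ hM.vc (x : M) < 1) :=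
  ⟨hM.st, fun f => ⟨hM.OC_of_VO (hM.VO_σ f), hM.st_σ f _⟩, hM.st_InO,
    fun x => hM.sf_eq_zero x.2⟩

/-! ### algebraic elements -/

/-- algebraic elements are not infinitesimal -/
theorem Mdl.alg_not_inf (hM : Mdl p σ) {x : M} (hx : Alg1 σ x) (hx0 : x ≠ 0) :
    ¬ hM.vc x < 1 := by
  intro hinf
  obtain ⟨q, hq0, hq⟩ := hx
  have key : ∀ n : ℕ, ∀ q : P2 p, q.natDegree ≤ n → q ≠ 0 → ev1 σ x q ≠ 0 := by
    intro n
    induction n with
    | zero =>
      intro q hd hq0 hq
      rw [eq_C_of_natDegree_le_zero hd, ev1_C] at hq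
      apply hq0
      rw [eq_C_of_natDegree_le_zero hd]
      have h1 := hM.σ_injective (hq.trans (map_zero σ).symm)
      rw [h1, C_0]
    | succ n ih =>
      intro q hd hq0 hq
      have h1 := q.divX_mul_X_add
      rw [← h1, map_add, map_mul, ev1_X, ev1_C] at hq
      by_cases h2 : q.coeff 0 = 0
      · rw [h2, map_zero, add_zero] at hq
        refine ih q.divX ?_ ?_ ((mul_eq_zero.1 hq).resolve_right hx0)
        · rw [natDegree_divX_eq_natDegree_tsub_one]
          omega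
        · intro h3
          apply hq0
          rw [← h1, h3, h2, zero_mul, C_0, zero_add]
      · apply h2
        apply hM.σ_injective
        have h3 : hM.vc (σ (q.coeff 0)) < 1 := by
          have h4 : σ (q.coeff 0) = -(ev1 σ x q.divX * x) := by
            linear_combination hq
          rw [h4, Valuation.map_neg, map_mul]
          rw [mul_comm]
          refine mul_lt_one_of_lt_of_le hinf ?_
          rw [hM.vc_le_one]
          have hxV : x ∈ hM.OC := hM.vc_le_one.1 hinf.le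
          exact ev1_mem hM.OC.toSubring σ (fun r => hM.OC_of_VO (hM.VO_σ r)) hxV _
        rw [hM.vc_lt_one] at h3
        have h5 : ∀ n : ℕ, X ^ n ∣ q.coeff 0 := fun n => (hM.dvd_iff _ n).1 (h3 n)
        rw [map_zero]
        by_contra h6
        have h7 : q.coeff 0 ≠ 0 := by
          intro h8
          rw [h8, map_zero] at h6
          exact h6 rfl
        have h9 := Polynomial.natDegree_le_of_dvd (h5 ((q.coeff 0).natDegree + 1)) h7
        rw [natDegree_X_pow] at h9
        omega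
  exact key q.natDegree q le_rfl hq0 hq

theorem Mdl.alg_mem_OC (hM : Mdl p σ) {x : M} (hx : Alg1 σ x) : x ∈ hM.OC := by
  rcases eq_or_ne x 0 with rfl | hx0
  · exact hM.OC.zero_mem
  rw [← hM.vc_le_one]
  by_contra h
  rw [not_le] at h
  have h1 : Alg1 σ x⁻¹ := (algField σ).inv_mem hx
  apply hM.alg_not_inf h1 (inv_ne_zero hx0)
  rw [map_inv₀]
  have h2 : (0 : hM.OC.ValueGroup) < hM.vc x := lt_trans zero_lt_one h
  exact (inv_lt_one₀ h2).2 h

theorem tauK_X_iK : tauK p X = iK p PowerSeries.X := by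
  rw [tauK_X, show (1 : ℤ) = ((1 : ℕ) : ℤ) from rfl, TT_nat, pow_one]

/-- a ring homomorphism `k0 → F_p((t))` over `F_p[t]` is the inclusion -/
theorem hom_k0_KK (ψ : k0 p →+* KK p) (hψ : ∀ f, ψ (sig0 p f) = tauK p f) (z : k0 p) :
    ψ z = z := by
  have hInO : ∀ z : k0 p, InO (z : KK p) → InO (ψ z) := by
    intro z hz
    have h1 := ((VO_k0 z).2 hz).map ψ
    rw [hψ] at h1
    exact (VO_KK _).1 h1
  have ht0 : tauK p X ≠ 0 := mdl_KK.t_ne
  have ht0' : sig0 p X ≠ 0 := mdl_k0.t_ne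
  have key : ∀ n : ℕ, InO ((ψ z - (z : KK p)) / tauK p X ^ n) := by
    intro n
    obtain ⟨N, y, hy⟩ := exists_scale (z : KK p)
    rw [← tauK_X_iK] at hy
    obtain ⟨w, hw⟩ : PowerSeries.X ^ (N + n) ∣ y - tau p (PowerSeries.trunc (N + n) y) := by
      rw [PowerSeries.X_pow_dvd_iff]
      intro d hd
      rw [map_sub, tau_coeff, PowerSeries.coeff_trunc, if_pos hd, sub_self]
    set f := PowerSeries.trunc (N + n) y with hf
    have h1 : ((z : KK p) - tauK p f / tauK p X ^ N) / tauK p X ^ n = iK p w := by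
      have h2 : iK p y - tauK p f = tauK p X ^ (N + n) * iK p w := by
        rw [tauK_X_iK, ← map_pow, ← map_mul, ← hw, map_sub]
        rfl
      rw [← hy] at h2
      rw [pow_add] at h2
      field_simp
      linear_combination h2
    have h3 : InO (((z - sig0 p f / sig0 p X ^ N) / sig0 p X ^ n : k0 p) : KK p) := by
      show InO (((z : KK p) - tauK p f / tauK p X ^ N) / tauK p X ^ n)
      rw [h1]
      exact InO.iK w
    have h4 := hInO _ h3
    rw [map_div₀, map_sub, map_div₀, map_pow, map_pow, hψ, hψ] at h4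
    have h5 : ((((z - sig0 p f / sig0 p X ^ N) / sig0 p X ^ n : k0 p) : KK p)) =
        ((z : KK p) - tauK p f / tauK p X ^ N) / tauK p X ^ n := rfl
    rw [h5] at h3
    have h6 := h4.add h3.neg
    have h7 : (ψ z - tauK p f / tauK p X ^ N) / tauK p X ^ n +
        -(((z : KK p) - tauK p f / tauK p X ^ N) / tauK p X ^ n) =
        (ψ z - (z : KK p)) / tauK p X ^ n := by ring
    rwa [h7] at h6
  have h0 : mdl_KK.vc (ψ z - (z : KK p)) < 1 := by
    rw [mdl_KK.vc_lt_one]
    intro n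
    exact (VO_KK _).2 (key n)
  by_contra hne
  have hne' : ψ z - (z : KK p) ≠ 0 := sub_ne_zero.2 hne
  refine mdl_KK.alg_not_inf ?_ hne' h0
  refine (algField (tauK p)).sub_mem ?_ z.2
  obtain ⟨q, hq0, hq⟩ := z.2
  refine ⟨q, hq0, ?_⟩
  have h8 : ψ (ev1 (sig0 p) z q) = ev1 (tauK p) (ψ z) q := by
    rw [map_ev1']
    congr 2
    exact RingHom.ext hψ
  rw [← h8]
  have h9 : ev1 (sig0 p) z q = 0 := by
    apply Subtype.ext
    have h10 : (k0 p).subtype (ev1 (sig0 p) z q) = ev1 (tauK p) (z : KK p) q := by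
      rw [map_ev1']
      rfl
    exact h10.trans hq
  rw [h9, map_zero]

end dg

end BF80
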