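import Pool.Agent.BF80.CaseI
import Pool.Agent.BF80.MdlSt
set_option maxSynthPendingDepth 10
open Polynomial Filter
namespace BF80
open FT80

variable {p : ℕ} [Fact p.Prime] {M : Type} [Field M] {σ : P1 p →+* M}

/-- the case without infinitesimals -/
theorem star1_I (hM : Mdl p σ) (x : M) (hx : ¬ Alg1 σ x) (F : Finset M)
    (hF : ∀ a ∈ F, Alg1 (ev1 σ x) a)
    (h : ∀ w : M, Alg1 (ev1 σ x) w → w ≠ 0 → ¬ hM.vc w < 1) : Star1 σ x F := by
  obtain ⟨st, h1, h2, h3⟩ := hM.exists_st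
  have hU : Mdl p (CI.sigU p) := mdl_up mdl_k0
  obtain ⟨stU, g1, g2, g3⟩ := hU.exists_st
  exact CI.star1_I' hM ⟨h1, h2, h3⟩ x hx F hF h hU ⟨g1, g2, g3⟩

end BF80
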