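import Pool.Agent.BF80.Defs

/-!
# Compilation of binary formulas into relational formulas
-/

set_option maxSynthPendingDepth 10

open Polynomial

namespace BF80

open FT80

namespace Cmp

/-! ### The relational formula of a term -/

/-- value of the term with formula `p` equals variable `k` -/
def vl (p : ℕ × FR) (k : ℕ) : FR := .ex p.1 (.and p.2 (.eq p.1 k))

/-- body of a binary operation -/
def bn (m : ℕ) (p q : ℕ × FR) (r : FR) : ℕ × FR :=
  (m + 3, .ex (m + 1) (.ex (m + 2) (.and (.and (vl p (m + 1)) (vl q (m + 2))) r)))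

/-- maximum of the value variables -/
def mx {α : Type} (p q : ℕ × α) : ℕ := max p.1 q.1

/-- formula of a sum -/
def fAdd (p q : ℕ × FR) : ℕ × FR :=
  bn (mx p q) p q (.add (mx p q + 1) (mx p q + 2) (mx p q + 3))
/-- formula of a difference -/
def fSub (p q : ℕ × FR) : ℕ × FR :=
  bn (mx p q) p q (.add (mx p q + 3) (mx p q + 2) (mx p q + 1))
/-- formula of a product -/
def fMul (p q : ℕ × FR) : ℕ × FR :=
  bn (mx p q) p q (.mul (mx p q + 1) (mx p q + 2) (mx p q + 3))

/-- formula of a term, variables `0`, `1`, and the value variable -/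
def tmF : Tm → ℕ × FR
  | .zero => (2, .zero 2)
  | .one => (2, .one 2)
  | .tt => (2, .tt 2)
  | .x => (2, .eq 0 2)
  | .y => (2, .eq 1 2)
  | .add a b => fAdd (tmF a) (tmF b)
  | .sub a b => fSub (tmF a) (tmF b)
  | .mul a b => fMul (tmF a) (tmF b)

/-- formula of an equation -/
def fEq (i j : ℕ) (p q : ℕ × FR) : FR :=
  .ex 0 (.ex 1 (.and (.and (.eq 0 (i + 2)) (.eq 1 (j + 2)))
    (.ex (mx p q + 1) (.and (vl p (mx p q + 1)) (vl q (mx p q + 1))))))

/-- relational formula of a binary formula -/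
def cF : BFm → FR
  | .eq i j a b => fEq i j (tmF a) (tmF b)
  | .not φ => .neg (cF φ)
  | .and φ ψ => .and (cF φ) (cF ψ)
  | .or φ ψ => .neg (.and (.neg (cF φ)) (.neg (cF ψ)))
  | .ex i φ => .ex (i + 2) (cF φ)
  | .all i φ => .neg (.ex (i + 2) (.neg (cF φ)))

/-! ### Semantics -/

section sem

variable {R : Type} [CommRing R] (t : R)

/-- `p` is the formula of a term with value `v x y` -/
def Ok (p : ℕ × FR) (v : R → R → R) : Prop :=
  2 ≤ p.1 ∧ ∀ E : ℕ → R, Sat (ringRS t) E p.2 ↔ v (E 0) (E 1) = E p.1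

variable {t}

theorem Ok.vl {p : ℕ × FR} {v : R → R → R} (h : Ok t p v) {k : ℕ} (hk : k ≠ p.1) (E : ℕ → R) :
    Sat (ringRS t) E (vl p k) ↔ v (E 0) (E 1) = E k := by
  obtain ⟨h1, h2⟩ := h
  have h0 : (0 : ℕ) ≠ p.1 := by omega
  have h1' : (1 : ℕ) ≠ p.1 := by omega
  simp only [Cmp.vl, Sat]
  constructor
  · rintro ⟨a, ha, hb⟩
    rw [h2, Function.update_self, Function.update_of_ne h0, Function.update_of_ne h1'] at ha
    rw [Function.update_self, Function.update_of_ne hk] at hb
    rw [ha, hb]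
  · intro h3
    refine ⟨E k, ?_, ?_⟩
    · rw [h2, Function.update_self, Function.update_of_ne h0, Function.update_of_ne h1', h3]
    · rw [Function.update_self, Function.update_of_ne hk]

theorem bn_sat {p q : ℕ × FR} {v w : R → R → R} (hp : Ok t p v) (hq : Ok t q w) {m : ℕ}
    (hm1 : p.1 ≤ m) (hm2 : q.1 ≤ m) (r : FR) (E : ℕ → R) :
    Sat (ringRS t) E (bn m p q r).2 ↔
      Sat (ringRS t) (Function.update (Function.update E (m + 1) (v (E 0) (E 1))) (m + 2)
        (w (E 0) (E 1))) r := by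
  have hp2 := hp.1
  have hq2 := hq.1
  have e0 : ∀ u z : R, Function.update (Function.update E (m + 1) u) (m + 2) z 0 = E 0 := by
    intro u z
    rw [Function.update_of_ne (by omega), Function.update_of_ne (by omega)]
  have e1 : ∀ u z : R, Function.update (Function.update E (m + 1) u) (m + 2) z 1 = E 1 := by
    intro u z
    rw [Function.update_of_ne (by omega), Function.update_of_ne (by omega)]
  have e2 : ∀ u z : R, Function.update (Function.update E (m + 1) u) (m + 2) z (m + 1) = u := by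
    intro u z
    rw [Function.update_of_ne (by omega), Function.update_self]
  have e3 : ∀ u z : R, Function.update (Function.update E (m + 1) u) (m + 2) z (m + 2) = z := by
    intro u z
    rw [Function.update_self]
  simp only [bn, Sat]
  constructor
  · rintro ⟨u, z, ⟨h1, h2⟩, h3⟩
    rw [hp.vl (by omega), e0, e1, e2] at h1
    rw [hq.vl (by omega), e0, e1, e3] at h2
    rw [h1, h2]
    exact h3
  · intro h
    refine ⟨v (E 0) (E 1), w (E 0) (E 1), ⟨?_, ?_⟩, h⟩
    · rw [hp.vl (by omega), e0, e1, e2]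
    · rw [hq.vl (by omega), e0, e1, e3]

theorem ok_add {p q : ℕ × FR} {v w : R → R → R} (hp : Ok t p v) (hq : Ok t q w) :
    Ok t (fAdd p q) (fun x y => v x y + w x y) := by
  have h1 : p.1 ≤ mx p q := le_max_left _ _
  have h2 : q.1 ≤ mx p q := le_max_right _ _
  refine ⟨by show 2 ≤ mx p q + 3; omega, fun E => ?_⟩
  rw [fAdd, bn_sat hp hq h1 h2]
  show Function.update (Function.update E _ _) _ _ _ +
    Function.update (Function.update E _ _) _ _ _ =
    Function.update (Function.update E _ _) _ _ _ ↔ _ = E (mx p q + 3)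
  rw [Function.update_self, Function.update_of_ne (by omega), Function.update_self,
    Function.update_of_ne (by omega), Function.update_of_ne (by omega)]

theorem ok_mul {p q : ℕ × FR} {v w : R → R → R} (hp : Ok t p v) (hq : Ok t q w) :
    Ok t (fMul p q) (fun x y => v x y * w x y) := by
  have h1 : p.1 ≤ mx p q := le_max_left _ _
  have h2 : q.1 ≤ mx p q := le_max_right _ _
  refine ⟨by show 2 ≤ mx p q + 3; omega, fun E => ?_⟩
  rw [fMul, bn_sat hp hq h1 h2]
  show Function.update (Function.update E _ _) _ _ _ *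
    Function.update (Function.update E _ _) _ _ _ =
    Function.update (Function.update E _ _) _ _ _ ↔ _ = E (mx p q + 3)
  rw [Function.update_self, Function.update_of_ne (by omega), Function.update_self,
    Function.update_of_ne (by omega), Function.update_of_ne (by omega)]

theorem ok_sub {p q : ℕ × FR} {v w : R → R → R} (hp : Ok t p v) (hq : Ok t q w) :
    Ok t (fSub p q) (fun x y => v x y - w x y) := by
  have h1 : p.1 ≤ mx p q := le_max_left _ _
  have h2 : q.1 ≤ mx p q := le_max_right _ _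
  refine ⟨by show 2 ≤ mx p q + 3; omega, fun E => ?_⟩
  rw [fSub, bn_sat hp hq h1 h2]
  show Function.update (Function.update E _ _) _ _ _ +
    Function.update (Function.update E _ _) _ _ _ =
    Function.update (Function.update E _ _) _ _ _ ↔ _ = E (mx p q + 3)
  rw [Function.update_self, Function.update_of_ne (by omega), Function.update_of_ne (by omega),
    Function.update_of_ne (by omega), Function.update_self, sub_eq_iff_eq_add, eq_comm]

theorem ok_tm (a : Tm) : Ok t (tmF a) (fun x y => a.val t x y) := by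
  induction a with
  | zero => exact ⟨le_rfl, fun E => eq_comm⟩
  | one => exact ⟨le_rfl, fun E => eq_comm⟩
  | tt => exact ⟨le_rfl, fun E => eq_comm⟩
  | x => exact ⟨le_rfl, fun E => Iff.rfl⟩
  | y => exact ⟨le_rfl, fun E => Iff.rfl⟩
  | add a b iha ihb => exact ok_add iha ihb
  | sub a b iha ihb => exact ok_sub iha ihb
  | mul a b iha ihb => exact ok_mul iha ihb

theorem sat_eq (i j : ℕ) {p q : ℕ × FR} {v w : R → R → R} (hp : Ok t p v) (hq : Ok t q w)
    (E : ℕ → R) : Sat (ringRS t) E (fEq i j p q) ↔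
      v (E (i + 2)) (E (j + 2)) = w (E (i + 2)) (E (j + 2)) := by
  have h1 : p.1 ≤ mx p q := le_max_left _ _
  have h2 : q.1 ≤ mx p q := le_max_right _ _
  have hp2 := hp.1
  have hq2 := hq.1
  simp only [fEq, Sat]
  have f0 : ∀ a b : R, Function.update (Function.update E 0 a) 1 b 0 = a := by
    intro a b
    rw [Function.update_of_ne (by omega), Function.update_self]
  have f1 : ∀ a b : R, Function.update (Function.update E 0 a) 1 b 1 = b := by
    intro a b
    rw [Function.update_self]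
  have f2 : ∀ (a b : R) (k : ℕ), Function.update (Function.update E 0 a) 1 b (k + 2) =
      E (k + 2) := by
    intro a b k
    rw [Function.update_of_ne (by omega), Function.update_of_ne (by omega)]
  have g0 : ∀ a b u : R, Function.update (Function.update (Function.update E 0 a) 1 b)
      (mx p q + 1) u 0 = a := by
    intro a b u
    rw [Function.update_of_ne (by omega), f0]
  have g1 : ∀ a b u : R, Function.update (Function.update (Function.update E 0 a) 1 b)
      (mx p q + 1) u 1 = b := by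
    intro a b u
    rw [Function.update_of_ne (by omega), f1]
  have g2 : ∀ a b u : R, Function.update (Function.update (Function.update E 0 a) 1 b)
      (mx p q + 1) u (mx p q + 1) = u := by
    intro a b u
    rw [Function.update_self]
  constructor
  · rintro ⟨a, b, ⟨h3, h4⟩, u, h5, h6⟩
    rw [f0, f2] at h3
    rw [f1, f2] at h4
    rw [hp.vl (by omega), g0, g1, g2] at h5
    rw [hq.vl (by omega), g0, g1, g2] at h6
    rw [← h3, ← h4, h5, h6]
  · intro h
    refine ⟨E (i + 2), E (j + 2), ⟨?_, ?_⟩, v (E (i + 2)) (E (j + 2)), ?_, ?_⟩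
    · rw [f0, f2]
    · rw [f1, f2]
    · rw [hp.vl (by omega), g0, g1, g2]
    · rw [hq.vl (by omega), g0, g1, g2, h]

omit [CommRing R] in
theorem upd_shift (E : ℕ → R) (i : ℕ) (a : R) :
    (fun k => Function.update E (i + 2) a (k + 2)) =
      Function.update (fun k => E (k + 2)) i a := by
  funext k
  by_cases h : k = i
  · subst h
    rw [Function.update_self, Function.update_self]
  · rw [Function.update_of_ne (by omega), Function.update_of_ne h]

theorem sat_cF (φ : BFm) (E : ℕ → R) :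
    Sat (ringRS t) E (cF φ) ↔ φ.Holds t (fun i => E (i + 2)) := by
  induction φ generalizing E with
  | eq i j a b => exact sat_eq i j (ok_tm a) (ok_tm b) E
  | not φ ih => exact not_congr (ih E)
  | and φ ψ ih ih' => exact and_congr (ih E) (ih' E)
  | or φ ψ ih ih' =>
    show ¬ (¬ _ ∧ ¬ _) ↔ (_ ∨ _)
    rw [ih E, ih' E, ← or_iff_not_and_not]
  | ex i φ ih =>
    refine exists_congr fun a => ?_
    rw [ih, upd_shift]
  | all i φ ih =>
    show ¬ (∃ a, ¬ _) ↔ ∀ a, _
    rw [not_exists]
    refine forall_congr' fun a => ?_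
    rw [not_not, ih, upd_shift]

end sem

/-! ### The same on codes -/

/-- code of a formula with value variable -/
def tc (p : ℕ × FR) : ℕ × ℕ := (p.1, p.2.code)

/-- `Cmp.vl` on codes -/
def vlC (p : ℕ × ℕ) (k : ℕ) : ℕ :=
  Nat.pair 8 (Nat.pair p.1 (Nat.pair 7 (Nat.pair p.2 (Nat.pair 0 (Nat.pair p.1 k)))))

/-- `Cmp.bn` on codes -/
def bnC (m : ℕ) (p q : ℕ × ℕ) (r : ℕ) : ℕ × ℕ :=
  (m + 3, Nat.pair 8 (Nat.pair (m + 1) (Nat.pair 8 (Nat.pair (m + 2) (Nat.pair 7
    (Nat.pair (Nat.pair 7 (Nat.pair (vlC p (m + 1)) (vlC q (m + 2)))) r))))))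

def cAdd (p q : ℕ × ℕ) : ℕ × ℕ := bnC (mx p q) p q
  (Nat.pair 1 (Nat.pair (mx p q + 1) (Nat.pair (mx p q + 2) (mx p q + 3))))
def cSub (p q : ℕ × ℕ) : ℕ × ℕ := bnC (mx p q) p q
  (Nat.pair 1 (Nat.pair (mx p q + 3) (Nat.pair (mx p q + 2) (mx p q + 1))))
def cMul (p q : ℕ × ℕ) : ℕ × ℕ := bnC (mx p q) p q
  (Nat.pair 2 (Nat.pair (mx p q + 1) (Nat.pair (mx p q + 2) (mx p q + 3))))

theorem tc_add (p q : ℕ × FR) : tc (fAdd p q) = cAdd (tc p) (tc q) := rfl
theorem tc_sub (p q : ℕ × FR) : tc (fSub p q) = cSub (tc p) (tc q) := rfl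
theorem tc_mul (p q : ℕ × FR) : tc (fMul p q) = cMul (tc p) (tc q) := rfl

/-- `Cmp.fEq` on codes -/
def cEq (k : ℕ) (p q : ℕ × ℕ) : ℕ :=
  Nat.pair 8 (Nat.pair 0 (Nat.pair 8 (Nat.pair 1 (Nat.pair 7 (Nat.pair
    (Nat.pair 7 (Nat.pair (Nat.pair 0 (Nat.pair 0 (k.unpair.1 + 2)))
      (Nat.pair 0 (Nat.pair 1 (k.unpair.2 + 2)))))
    (Nat.pair 8 (Nat.pair (mx p q + 1) (Nat.pair 7
      (Nat.pair (vlC p (mx p q + 1)) (vlC q (mx p q + 1)))))))))))

theorem code_fEq (i j : ℕ) (p q : ℕ × FR) :
    (fEq i j p q).code = cEq (Nat.pair i j) (tc p) (tc q) := by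
  unfold cEq
  rw [Nat.unpair_pair]
  rfl

/-- state of the parser: stack of terms and stack of formulas -/
abbrev St := List (ℕ × ℕ) × List ℕ

/-- default term -/
def dT : ℕ × ℕ := tc (tmF .zero)
/-- default formula -/
def dF : ℕ := (cF (.eq 0 0 .zero .zero)).code

def arg1 (s : St) : ℕ × ℕ := s.1.getD 0 dT
def arg2 (s : St) : ℕ × ℕ := s.1.getD 1 dT
def frg1 (s : St) : ℕ := s.2.getD 0 dF
def frg2 (s : St) : ℕ := s.2.getD 1 dF

/-- one step of the parser (the word is read from right to left) -/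
def step (n : ℕ) (s : St) : St :=
  if n = 0 then ((2, Nat.pair 3 2) :: s.1, s.2)
  else if n = 1 then ((2, Nat.pair 4 2) :: s.1, s.2)
  else if n = 2 then ((2, Nat.pair 5 2) :: s.1, s.2)
  else if n = 3 then ((2, Nat.pair 0 (Nat.pair 0 2)) :: s.1, s.2)
  else if n = 4 then ((2, Nat.pair 0 (Nat.pair 1 2)) :: s.1, s.2)
  else if n = 5 then (cAdd (arg1 s) (arg2 s) :: s.1.drop 2, s.2)
  else if n = 6 then (cSub (arg1 s) (arg2 s) :: s.1.drop 2, s.2)
  else if n = 7 then (cMul (arg1 s) (arg2 s) :: s.1.drop 2, s.2)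
  else if (n - 8) % 6 = 0 then (s.1.drop 2, cEq ((n - 8) / 6) (arg1 s) (arg2 s) :: s.2)
  else if (n - 8) % 6 = 1 then (s.1, Nat.pair 6 (frg1 s) :: s.2.drop 1)
  else if (n - 8) % 6 = 2 then (s.1, Nat.pair 7 (Nat.pair (frg1 s) (frg2 s)) :: s.2.drop 2)
  else if (n - 8) % 6 = 3 then
    (s.1, Nat.pair 6 (Nat.pair 7 (Nat.pair (Nat.pair 6 (frg1 s)) (Nat.pair 6 (frg2 s)))) ::
      s.2.drop 2)
  else if (n - 8) % 6 = 4 then
    (s.1, Nat.pair 8 (Nat.pair ((n - 8) / 6 + 2) (frg1 s)) :: s.2.drop 1)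
  else (s.1, Nat.pair 6 (Nat.pair 8 (Nat.pair ((n - 8) / 6 + 2) (Nat.pair 6 (frg1 s)))) ::
    s.2.drop 1)

/-- parser -/
def parse (w : List ℕ) : St := w.foldr step ([], [])

/-- the code of the compiled formula with code `w` -/
def comp (w : List ℕ) : ℕ := frg1 (parse w)

theorem foldr_tm (a : Tm) (s : St) : a.code.foldr step s = (tc (tmF a) :: s.1, s.2) := by
  induction a generalizing s with
  | zero => rfl
  | one => rfl
  | tt => rfl
  | x => rfl
  | y => rfl
  | add a b iha ihb => 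
    simp [Tm.code, List.foldr_append, iha, ihb, step, arg1, arg2, tmF, tc_add]
  | sub a b iha ihb =>
    simp [Tm.code, List.foldr_append, iha, ihb, step, arg1, arg2, tmF, tc_sub]
  | mul a b iha ihb =>
    simp [Tm.code, List.foldr_append, iha, ihb, step, arg1, arg2, tmF, tc_mul]

theorem step_8 (k : ℕ) (s : St) : step (8 + 6 * k) s =
    (s.1.drop 2, cEq k (arg1 s) (arg2 s) :: s.2) := by
  have h1 : (8 + 6 * k - 8) % 6 = 0 := by omega
  have h2 : (8 + 6 * k - 8) / 6 = k := by omega
  unfold step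
  rw [if_neg (by omega), if_neg (by omega), if_neg (by omega), if_neg (by omega),
    if_neg (by omega), if_neg (by omega), if_neg (by omega), if_neg (by omega), if_pos h1, h2]

theorem step_ge (n : ℕ) (hn : 8 ≤ n) (s : St) : step n s =
  if (n - 8) % 6 = 0 then (s.1.drop 2, cEq ((n - 8) / 6) (arg1 s) (arg2 s) :: s.2)
  else if (n - 8) % 6 = 1 then (s.1, Nat.pair 6 (frg1 s) :: s.2.drop 1)
  else if (n - 8) % 6 = 2 then (s.1, Nat.pair 7 (Nat.pair (frg1 s) (frg2 s)) :: s.2.drop 2)
  else if (n - 8) % 6 = 3 then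
    (s.1, Nat.pair 6 (Nat.pair 7 (Nat.pair (Nat.pair 6 (frg1 s)) (Nat.pair 6 (frg2 s)))) ::
      s.2.drop 2)
  else if (n - 8) % 6 = 4 then
    (s.1, Nat.pair 8 (Nat.pair ((n - 8) / 6 + 2) (frg1 s)) :: s.2.drop 1)
  else (s.1, Nat.pair 6 (Nat.pair 8 (Nat.pair ((n - 8) / 6 + 2) (Nat.pair 6 (frg1 s)))) ::
    s.2.drop 1) := by
  unfold step
  rw [if_neg (by omega), if_neg (by omega), if_neg (by omega), if_neg (by omega),
    if_neg (by omega), if_neg (by omega), if_neg (by omega), if_neg (by omega)]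

theorem foldr_fml (φ : BFm) (s : St) :
    φ.code.foldr step s = (s.1, (cF φ).code :: s.2) := by
  induction φ generalizing s with
  | eq i j a b =>
    rw [BFm.code, List.foldr_cons, List.foldr_append, foldr_tm, foldr_tm, step_8, cF, code_fEq]
    rfl
  | not φ ih =>
    rw [BFm.code, List.foldr_cons, ih]
    rfl
  | and φ ψ ih ih' =>
    rw [BFm.code, List.foldr_cons, List.foldr_append, ih', ih]
    rfl
  | or φ ψ ih ih' =>
    rw [BFm.code, List.foldr_cons, List.foldr_append, ih', ih]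
    rfl
  | ex i φ ih =>
    rw [BFm.code, List.foldr_cons, ih, step_ge _ (by omega), if_neg (by omega),
      if_neg (by omega), if_neg (by omega), if_neg (by omega), if_pos (by omega)]
    have h2 : (12 + 6 * i - 8) / 6 = i := by omega
    rw [h2]
    rfl
  | all i φ ih =>
    rw [BFm.code, List.foldr_cons, ih, step_ge _ (by omega), if_neg (by omega),
      if_neg (by omega), if_neg (by omega), if_neg (by omega), if_neg (by omega)]
    have h2 : (13 + 6 * i - 8) / 6 = i := by omega
    rw [h2]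
    rfl

theorem comp_code (φ : BFm) : comp φ.code = (cF φ).code := by
  simp [comp, parse, foldr_fml, frg1]

/-! ### Every word compiles to something -/

/-- all entries of the stacks are values -/
def Good (s : St) : Prop :=
  (∀ x ∈ s.1, ∃ a, x = tc (tmF a)) ∧ ∀ x ∈ s.2, ∃ φ, x = (cF φ).code

theorem getD_mem {α : Type} (l : List α) (n : ℕ) (d : α) : l.getD n d ∈ l ∨ l.getD n d = d := by
  rw [List.getD_eq_getElem?_getD]
  by_cases h : n < l.length
  · left
    rw [List.getElem?_eq_getElem h, Option.getD_some]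
    exact List.getElem_mem h
  · right
    rw [List.getElem?_eq_none (by omega), Option.getD_none]

theorem Good.arg {s : St} (h : Good s) (n : ℕ) : ∃ a, s.1.getD n dT = tc (tmF a) := by
  rcases getD_mem s.1 n dT with h1 | h1
  · exact h.1 _ h1
  · exact ⟨.zero, h1⟩

theorem Good.frg {s : St} (h : Good s) (n : ℕ) : ∃ φ, s.2.getD n dF = (cF φ).code := by
  rcases getD_mem s.2 n dF with h1 | h1
  · exact h.2 _ h1
  · exact ⟨_, h1⟩

theorem Good.pushT {s : St} (h : Good s) (n : ℕ) {x : ℕ × ℕ} (hx : ∃ a, x = tc (tmF a)) :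
    Good (x :: s.1.drop n, s.2) := by
  refine ⟨fun y hy => ?_, h.2⟩
  rcases List.mem_cons.1 hy with rfl | hy
  · exact hx
  · exact h.1 _ (List.mem_of_mem_drop hy)

theorem Good.pushF {s : St} (h : Good s) (m n : ℕ) {x : ℕ} (hx : ∃ φ, x = (cF φ).code) :
    Good (s.1.drop m, x :: s.2.drop n) := by
  refine ⟨fun y hy => h.1 _ (List.mem_of_mem_drop hy), fun y hy => ?_⟩
  rcases List.mem_cons.1 hy with rfl | hy
  · exact hx
  · exact h.2 _ (List.mem_of_mem_drop hy)

theorem good_ite {c : Prop} [Decidable c] {s s' : St} (h : Good s) (h' : Good s') :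
    Good (if c then s else s') := by
  by_cases hc : c
  · rw [if_pos hc]
    exact h
  · rw [if_neg hc]
    exact h'

theorem good_step (n : ℕ) {s : St} (h : Good s) : Good (step n s) := by
  obtain ⟨a, ha⟩ := h.arg 0
  obtain ⟨b, hb⟩ := h.arg 1
  obtain ⟨φ, hφ⟩ := h.frg 0
  obtain ⟨ψ, hψ⟩ := h.frg 1
  have ha' : arg1 s = tc (tmF a) := ha
  have hb' : arg2 s = tc (tmF b) := hb
  have hφ' : frg1 s = (cF φ).code := hφ
  have hψ' : frg2 s = (cF ψ).code := hψ
  unfold step
  rw [ha', hb', hφ', hψ']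
  refine good_ite (h.pushT 0 ⟨.zero, rfl⟩) (good_ite (h.pushT 0 ⟨.one, rfl⟩)
    (good_ite (h.pushT 0 ⟨.tt, rfl⟩) (good_ite (h.pushT 0 ⟨.x, rfl⟩)
    (good_ite (h.pushT 0 ⟨.y, rfl⟩) (good_ite (h.pushT 2 ⟨.add a b, rfl⟩)
    (good_ite (h.pushT 2 ⟨.sub a b, rfl⟩) (good_ite (h.pushT 2 ⟨.mul a b, rfl⟩)
    (good_ite (h.pushF 2 0 ⟨.eq ((n - 8) / 6).unpair.1 ((n - 8) / 6).unpair.2 a b, ?_⟩)
    (good_ite (h.pushF 0 1 ⟨.not φ, rfl⟩) (good_ite (h.pushF 0 2 ⟨.and φ ψ, rfl⟩)
    (good_ite (h.pushF 0 2 ⟨.or φ ψ, rfl⟩) (good_ite (h.pushF 0 1 ⟨.ex ((n - 8) / 6) φ, rfl⟩)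
    (h.pushF 0 1 ⟨.all ((n - 8) / 6) φ, rfl⟩)))))))))))))
  rw [cF, code_fEq, Nat.pair_unpair]

theorem good_parse (w : List ℕ) : Good (parse w) := by
  unfold parse
  induction w with
  | nil => exact ⟨fun x hx => absurd hx (List.not_mem_nil), fun x hx => absurd hx (List.not_mem_nil)⟩
  | cons n w ih => exact good_step n ih

theorem comp_total (w : List ℕ) : ∃ φ, comp w = (cF φ).code := (good_parse w).frg 0

/-! ### Primitive recursiveness -/

theorem primrec_vlC : Primrec₂ vlC := by
  unfold vlC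
  have h1 : Primrec fun x : (ℕ × ℕ) × ℕ => x.1.1 := Primrec.fst.comp Primrec.fst
  have h2 : Primrec fun x : (ℕ × ℕ) × ℕ => x.1.2 := Primrec.snd.comp Primrec.fst
  have h3 : Primrec fun x : (ℕ × ℕ) × ℕ => x.2 := Primrec.snd
  exact Primrec₂.natPair.comp (Primrec.const 8) (Primrec₂.natPair.comp h1
    (Primrec₂.natPair.comp (Primrec.const 7) (Primrec₂.natPair.comp h2
    (Primrec₂.natPair.comp (Primrec.const 0) (Primrec₂.natPair.comp h1 h3)))))

theorem primrec_mx : Primrec₂ (mx (α := ℕ)) := by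
  unfold mx
  exact Primrec.nat_max.comp (Primrec.fst.comp Primrec.fst) (Primrec.fst.comp Primrec.snd)

section pr

variable {α : Type} [Primcodable α] {f g : α → ℕ × ℕ} (hf : Primrec f) (hg : Primrec g)
include hf hg

theorem primrec_add (k : ℕ) : Primrec fun x => mx (f x) (g x) + k :=
  Primrec.nat_add.comp (primrec_mx.comp hf hg) (Primrec.const k)

theorem primrec_bnC {r : α → ℕ} (hr : Primrec r) :
    Primrec fun x => bnC (mx (f x) (g x)) (f x) (g x) (r x) := by
  unfold bnC
  have h1 := primrec_add hf hg 1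
  have h2 := primrec_add hf hg 2
  have h3 := primrec_add hf hg 3
  exact Primrec.pair h3 (Primrec₂.natPair.comp (Primrec.const 8) (Primrec₂.natPair.comp h1
    (Primrec₂.natPair.comp (Primrec.const 8) (Primrec₂.natPair.comp h2
    (Primrec₂.natPair.comp (Primrec.const 7) (Primrec₂.natPair.comp
      (Primrec₂.natPair.comp (Primrec.const 7) (Primrec₂.natPair.comp
        (primrec_vlC.comp hf h1) (primrec_vlC.comp hg h2))) hr))))))

theorem primrec_cAdd : Primrec fun x => cAdd (f x) (g x) := by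
  unfold cAdd
  exact primrec_bnC hf hg (Primrec₂.natPair.comp (Primrec.const 1)
    (Primrec₂.natPair.comp (primrec_add hf hg 1)
      (Primrec₂.natPair.comp (primrec_add hf hg 2) (primrec_add hf hg 3))))

theorem primrec_cSub : Primrec fun x => cSub (f x) (g x) := by
  unfold cSub
  exact primrec_bnC hf hg (Primrec₂.natPair.comp (Primrec.const 1)
    (Primrec₂.natPair.comp (primrec_add hf hg 3)
      (Primrec₂.natPair.comp (primrec_add hf hg 2) (primrec_add hf hg 1))))

theorem primrec_cMul : Primrec fun x => cMul (f x) (g x) := by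
  unfold cMul
  exact primrec_bnC hf hg (Primrec₂.natPair.comp (Primrec.const 2)
    (Primrec₂.natPair.comp (primrec_add hf hg 1)
      (Primrec₂.natPair.comp (primrec_add hf hg 2) (primrec_add hf hg 3))))

theorem primrec_cEq {k : α → ℕ} (hk : Primrec k) : Primrec fun x => cEq (k x) (f x) (g x) := by
  unfold cEq
  have hu := Primrec.unpair.comp hk
  have k1 : Primrec fun x => (k x).unpair.1 + 2 :=
    Primrec.nat_add.comp (Primrec.fst.comp hu) (Primrec.const 2)
  have k2 : Primrec fun x => (k x).unpair.2 + 2 :=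
    Primrec.nat_add.comp (Primrec.snd.comp hu) (Primrec.const 2)
  have h1 := primrec_add hf hg 1
  exact Primrec₂.natPair.comp (Primrec.const 8) (Primrec₂.natPair.comp (Primrec.const 0)
    (Primrec₂.natPair.comp (Primrec.const 8) (Primrec₂.natPair.comp (Primrec.const 1)
    (Primrec₂.natPair.comp (Primrec.const 7) (Primrec₂.natPair.comp
      (Primrec₂.natPair.comp (Primrec.const 7) (Primrec₂.natPair.comp
        (Primrec₂.natPair.comp (Primrec.const 0) (Primrec₂.natPair.comp (Primrec.const 0) k1))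
        (Primrec₂.natPair.comp (Primrec.const 0) (Primrec₂.natPair.comp (Primrec.const 1) k2))))
      (Primrec₂.natPair.comp (Primrec.const 8) (Primrec₂.natPair.comp h1
        (Primrec₂.natPair.comp (Primrec.const 7) (Primrec₂.natPair.comp
          (primrec_vlC.comp hf h1) (primrec_vlC.comp hg h1))))))))))

end pr

theorem primrec_step : Primrec₂ step := by
  unfold step
  have hn : Primrec fun q : ℕ × St => q.1 := Primrec.fst
  have hs1 : Primrec fun q : ℕ × St => q.2.1 := Primrec.fst.comp Primrec.snd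
  have hs2 : Primrec fun q : ℕ × St => q.2.2 := Primrec.snd.comp Primrec.snd
  have ha1 : Primrec fun q : ℕ × St => arg1 q.2 :=
    (Primrec.list_getD dT).comp hs1 (Primrec.const 0)
  have ha2 : Primrec fun q : ℕ × St => arg2 q.2 :=
    (Primrec.list_getD dT).comp hs1 (Primrec.const 1)
  have hf1 : Primrec fun q : ℕ × St => frg1 q.2 :=
    (Primrec.list_getD dF).comp hs2 (Primrec.const 0)
  have hf2 : Primrec fun q : ℕ × St => frg2 q.2 :=
    (Primrec.list_getD dF).comp hs2 (Primrec.const 1)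
  have hd1 : Primrec fun q : ℕ × St => q.2.1.drop 2 :=
    Primrec.list_drop.comp (Primrec.const 2) hs1
  have hd2 : Primrec fun q : ℕ × St => q.2.2.drop 2 :=
    Primrec.list_drop.comp (Primrec.const 2) hs2
  have hd3 : Primrec fun q : ℕ × St => q.2.2.drop 1 :=
    Primrec.list_drop.comp (Primrec.const 1) hs2
  have hn8 : Primrec fun q : ℕ × St => q.1 - 8 := Primrec.nat_sub.comp hn (Primrec.const 8)
  have hm : Primrec fun q : ℕ × St => (q.1 - 8) % 6 := Primrec.nat_mod.comp hn8 (Primrec.const 6)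
  have hk : Primrec fun q : ℕ × St => (q.1 - 8) / 6 := Primrec.nat_div.comp hn8 (Primrec.const 6)
  have hk2 : Primrec fun q : ℕ × St => (q.1 - 8) / 6 + 2 :=
    Primrec.nat_add.comp hk (Primrec.const 2)
  have hc : ∀ k : ℕ, PrimrecPred fun q : ℕ × St => q.1 = k := fun k =>
    Primrec.eq.comp hn (Primrec.const k)
  have hr : ∀ k : ℕ, PrimrecPred fun q : ℕ × St => (q.1 - 8) % 6 = k := fun k =>
    Primrec.eq.comp hm (Primrec.const k)
  have push : ∀ c : ℕ × ℕ, Primrec fun q : ℕ × St => ((c :: q.2.1, q.2.2) : St) := fun c =>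
    Primrec.pair (Primrec.list_cons.comp (Primrec.const c) hs1) hs2
  refine Primrec.ite (hc 0) (push _) (Primrec.ite (hc 1) (push _) (Primrec.ite (hc 2) (push _)
    (Primrec.ite (hc 3) (push _) (Primrec.ite (hc 4) (push _) (Primrec.ite (hc 5) ?_
    (Primrec.ite (hc 6) ?_ (Primrec.ite (hc 7) ?_ (Primrec.ite (hr 0) ?_ (Primrec.ite (hr 1) ?_
    (Primrec.ite (hr 2) ?_ (Primrec.ite (hr 3) ?_ (Primrec.ite (hr 4) ?_ ?_))))))))))))
  · exact Primrec.pair (Primrec.list_cons.comp (primrec_cAdd ha1 ha2) hd1) hs2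
  · exact Primrec.pair (Primrec.list_cons.comp (primrec_cSub ha1 ha2) hd1) hs2
  · exact Primrec.pair (Primrec.list_cons.comp (primrec_cMul ha1 ha2) hd1) hs2
  · exact Primrec.pair hd1 (Primrec.list_cons.comp (primrec_cEq ha1 ha2 hk) hs2)
  · exact Primrec.pair hs1 (Primrec.list_cons.comp
      (Primrec₂.natPair.comp (Primrec.const 6) hf1) hd3)
  · exact Primrec.pair hs1 (Primrec.list_cons.comp
      (Primrec₂.natPair.comp (Primrec.const 7) (Primrec₂.natPair.comp hf1 hf2)) hd2)
  · exact Primrec.pair hs1 (Primrec.list_cons.comp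
      (Primrec₂.natPair.comp (Primrec.const 6) (Primrec₂.natPair.comp (Primrec.const 7)
        (Primrec₂.natPair.comp (Primrec₂.natPair.comp (Primrec.const 6) hf1)
          (Primrec₂.natPair.comp (Primrec.const 6) hf2)))) hd2)
  · exact Primrec.pair hs1 (Primrec.list_cons.comp
      (Primrec₂.natPair.comp (Primrec.const 8) (Primrec₂.natPair.comp hk2 hf1)) hd3)
  · exact Primrec.pair hs1 (Primrec.list_cons.comp
      (Primrec₂.natPair.comp (Primrec.const 6) (Primrec₂.natPair.comp (Primrec.const 8)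
        (Primrec₂.natPair.comp hk2 (Primrec₂.natPair.comp (Primrec.const 6) hf1)))) hd3)

theorem primrec_parse : Primrec parse := by
  unfold parse
  have h : Primrec₂ fun (_ : List ℕ) (q : ℕ × St) => step q.1 q.2 :=
    primrec_step.comp (Primrec.fst.comp Primrec.snd) (Primrec.snd.comp Primrec.snd)
  exact Primrec.list_foldr Primrec.id (Primrec.const ([], [])) h

theorem primrec_comp : Primrec comp := by
  unfold comp
  exact (Primrec.list_getD dF).comp (Primrec.snd.comp primrec_parse) (Primrec.const 0)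

end Cmp

theorem exists_compile : ∃ (c : BFm → FR) (f : List ℕ → ℕ), Primrec f ∧
    (∀ φ, f φ.code = (c φ).code) ∧ (∀ w, ∃ φ, f w = (c φ).code) ∧
    ∀ (R : Type) [CommRing R] (t : R) (E : ℕ → R) (φ : BFm),
      (Sat (ringRS t) E (c φ) ↔ φ.Holds t (fun i => E (i + 2))) :=
  ⟨Cmp.cF, Cmp.comp, Cmp.primrec_comp, Cmp.comp_code, Cmp.comp_total,
    fun _ _ _ E φ => Cmp.sat_cF φ E⟩

end BF80
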