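import Pool.Agent.FT80.Syntax
import Mathlib

/-!
# The binary fragment over `F_p((t))`: definitions

`P1 p = F_p[t]`, `KK p = F_p((t))`, `OO p = F_p[[t]]`, `ev1`, `ev2` as in `FT80`.
-/

set_option maxSynthPendingDepth 10

open Polynomial

namespace BF80

open FT80

/-! ### Relational formulas -/

/-- first order formulas in the relational language of rings with a constant -/
inductive FR
  | eq (i j : ℕ)
  | add (i j k : ℕ)
  | mul (i j k : ℕ)
  | zero (i : ℕ)
  | one (i : ℕ)
  | tt (i : ℕ)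
  | neg (φ : FR)
  | and (φ ψ : FR)
  | ex (i : ℕ) (φ : FR)

/-- relational structures -/
structure RS (α : Type) where
  add : α → α → α → Prop
  mul : α → α → α → Prop
  zero : α → Prop
  one : α → Prop
  tt : α → Prop

/-- satisfaction -/
def Sat {α : Type} (R : RS α) : (ℕ → α) → FR → Prop
  | e, .eq i j => e i = e j
  | e, .add i j k => R.add (e i) (e j) (e k)
  | e, .mul i j k => R.mul (e i) (e j) (e k)
  | e, .zero i => R.zero (e i)
  | e, .one i => R.one (e i)
  | e, .tt i => R.tt (e i)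
  | e, .neg φ => ¬ Sat R e φ
  | e, .and φ ψ => Sat R e φ ∧ Sat R e ψ
  | e, .ex i φ => ∃ a : α, Sat R (Function.update e i a) φ

/-- codes of formulas -/
def FR.code : FR → ℕ
  | .eq i j => Nat.pair 0 (Nat.pair i j)
  | .add i j k => Nat.pair 1 (Nat.pair i (Nat.pair j k))
  | .mul i j k => Nat.pair 2 (Nat.pair i (Nat.pair j k))
  | .zero i => Nat.pair 3 i
  | .one i => Nat.pair 4 i
  | .tt i => Nat.pair 5 i
  | .neg φ => Nat.pair 6 φ.code
  | .and φ ψ => Nat.pair 7 (Nat.pair φ.code ψ.code)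
  | .ex i φ => Nat.pair 8 (Nat.pair i φ.code)

/-- the relational structure of a ring with a constant -/
def ringRS {R : Type} [CommRing R] (t : R) : RS R where
  add x y z := x + y = z
  mul x y z := x * y = z
  zero x := x = 0
  one x := x = 1
  tt x := x = t

/-! ### The binary fragment -/

/-- first order formulas in the variables `x_0, x_1, …` whose atomic formulas are equations
between terms in two of the variables -/
inductive BFm
  | eq (i j : ℕ) (a b : Tm)
  | not (φ : BFm)
  | and (φ ψ : BFm)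
  | or (φ ψ : BFm)
  | ex (i : ℕ) (φ : BFm)
  | all (i : ℕ) (φ : BFm)

/-- satisfaction of a formula in a ring, `e i` is the value of `x_i` -/
def BFm.Holds {R : Type*} [CommRing R] (t : R) : (ℕ → R) → BFm → Prop
  | e, .eq i j a b => a.val t (e i) (e j) = b.val t (e i) (e j)
  | e, .not φ => ¬ BFm.Holds t e φ
  | e, .and φ ψ => BFm.Holds t e φ ∧ BFm.Holds t e ψ
  | e, .or φ ψ => BFm.Holds t e φ ∨ BFm.Holds t e ψ
  | e, .ex i φ => ∃ a : R, BFm.Holds t (Function.update e i a) φ
  | e, .all i φ => ∀ a : R, BFm.Holds t (Function.update e i a) φ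

/-- a formula as a word in prefix notation -/
def BFm.code : BFm → List ℕ
  | .eq i j a b => (8 + 6 * Nat.pair i j) :: (a.code ++ b.code)
  | .not φ => 9 :: φ.code
  | .and φ ψ => 10 :: (φ.code ++ ψ.code)
  | .or φ ψ => 11 :: (φ.code ++ ψ.code)
  | .ex i φ => (12 + 6 * i) :: φ.code
  | .all i φ => (13 + 6 * i) :: φ.code

/-! ### Models -/

/-- the definable valuation ring -/
def VO {M : Type*} [Field M] (t x : M) : Prop := ∃ y : M, y ^ 2 + y = t * x ^ 2

/-- the axioms -/
structure Mdl (p : ℕ) {M : Type*} [Field M] (σ : P1 p →+* M) : Prop where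
  one : VO (σ X) 1
  add : ∀ x y, VO (σ X) x → VO (σ X) y → VO (σ X) (x + y)
  mul : ∀ x y, VO (σ X) x → VO (σ X) y → VO (σ X) (x * y)
  inv : ∀ x, VO (σ X) x ∨ VO (σ X) x⁻¹
  tinv : ¬ VO (σ X) (σ X)⁻¹
  res : ∀ x, VO (σ X) x → ∃ a < p, VO (σ X) ((x - (a : ℕ)) / σ X)
  hensel : ∀ f : Polynomial M, (∀ i, VO (σ X) (f.coeff i)) → VO (σ X) (f.coeff 0 / σ X) →
    f.coeff 1 ≠ 0 → VO (σ X) (f.coeff 1)⁻¹ → ∃ y, VO (σ X) y ∧ f.eval (σ X * y) = 0
  pow : ∀ n : ℕ, ¬ p ∣ n → ∀ x : M, x ≠ 0 →
    ∃ γ < p, ∃ j < n, ∃ y : M, 1 ≤ γ ∧ x = (γ : ℕ) * σ X ^ j * y ^ n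

section alg

variable {R L : Type*} [CommRing R] [Field L]

/-- `z` is algebraic over the image of `σ` -/
def Alg1 (σ : R →+* L) (z : L) : Prop := ∃ q : Polynomial R, q ≠ 0 ∧ ev1 σ z q = 0

theorem alg1_iff_isAlgebraic (σ : R →+* L) (z : L) :
    Alg1 σ z ↔ (letI := σ.toAlgebra; IsAlgebraic R z) := Iff.rfl

/-- the elements algebraic over the image of `σ` -/
def algField (σ : R →+* L) [IsDomain R] : Subfield L where
  carrier := {z | Alg1 σ z}
  mul_mem' := fun ha hb => by
    let _ := σ.toAlgebra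
    exact IsAlgebraic.mul (R := R) ha hb
  one_mem' := by
    let _ := σ.toAlgebra
    exact isAlgebraic_one (R := R)
  add_mem' := fun ha hb => by
    let _ := σ.toAlgebra
    exact IsAlgebraic.add (R := R) ha hb
  zero_mem' := by
    let _ := σ.toAlgebra
    exact isAlgebraic_zero (R := R)
  neg_mem' := fun ha => by
    let _ := σ.toAlgebra
    exact IsAlgebraic.neg (R := R) ha
  inv_mem' := fun _ ha => by
    let _ := σ.toAlgebra
    exact IsAlgebraic.inv (R := R) ha

end alg

section k0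

variable (p : ℕ) [Fact p.Prime]

theorem tauK_inj' : Function.Injective (tauK p) := by
  intro a b h
  have h1 : Function.Injective (iK p) := FT80.iK_injective
  exact Polynomial.coe_injective _ (h1 h)

/-- the elements of `F_p((t))` which are algebraic over `F_p(t)` -/
noncomputable def k0 : Subfield (KK p) := algField (tauK p)

/-- `F_p[t] → k0` -/
noncomputable def sig0 : P1 p →+* k0 p :=
  (tauK p).codRestrict (k0 p) (fun f => by
    let _ := (tauK p).toAlgebra
    exact isAlgebraic_algebraMap (R := P1 p) (A := KK p) f)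

end k0

end BF80
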