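import Pool.Agent.BF80.MdlSt
import Pool.Agent.BF80.Up

/-!
# The one-dimensional fragment with divisibility: definitions
-/

set_option maxSynthPendingDepth 10

open Polynomial Filter

namespace BF80

open FT80

/-! ### Formulas -/

/-- terms in the variables `x_0, x_1, …` -/
inductive MT
  | zero
  | one
  | tt
  | var (k : ℕ)
  | add (a b : MT)
  | sub (a b : MT)
  | mul (a b : MT)

/-- the value of a term, `e k` is the value of `x_k` -/
def MT.val {R : Type*} [CommRing R] (t : R) (e : ℕ → R) : MT → R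
  | .zero => 0
  | .one => 1
  | .tt => t
  | .var k => e k
  | .add a b => a.val t e + b.val t e
  | .sub a b => a.val t e - b.val t e
  | .mul a b => a.val t e * b.val t e

/-- a term as a word in prefix notation -/
def MT.code : MT → List ℕ
  | .zero => [0]
  | .one => [1]
  | .tt => [2]
  | .var k => [9 + 8 * k]
  | .add a b => 3 :: (a.code ++ b.code)
  | .sub a b => 4 :: (a.code ++ b.code)
  | .mul a b => 5 :: (a.code ++ b.code)

/-- the assignment `x_0 = l_0, x_1 = l_1, …`, and `0` after the end of the list -/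
def lenv {R : Type*} [CommRing R] (l : List R) : ℕ → R := fun k => l.getD k 0

/-- formulas: `eq i j a b` is `a(x_i, x_j) = b(x_i, x_j)`; `loc i [(j_1, s_1), …, (j_n, s_n)] a b`
says that `s_k(x_i, x_(j_k)) = 0` and `s_k(x_i, ·)` is not identically zero, for every `k`, and
`a(x_i, x_(j_1), …, x_(j_n)) = b(x_i, x_(j_1), …, x_(j_n))`; `dvd i j k l` says that
`x_i * x_j` divides `x_k * x_l` -/
inductive VFm
  | eq (i j : ℕ) (a b : MT)
  | loc (i : ℕ) (gs : List (ℕ × MT)) (a b : MT)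
  | dvd (i j k l : ℕ)
  | not (φ : VFm)
  | and (φ ψ : VFm)
  | or (φ ψ : VFm)
  | ex (i : ℕ) (φ : VFm)
  | all (i : ℕ) (φ : VFm)

/-- satisfaction of a formula in a ring with a divisibility relation `D` -/
def VFm.Holds {R : Type*} [CommRing R] (t : R) (D : R → R → Prop) : (ℕ → R) → VFm → Prop
  | e, .eq i j a b => a.val t (lenv [e i, e j]) = b.val t (lenv [e i, e j])
  | e, .loc i gs a b =>
      (∀ g ∈ gs, g.2.val t (lenv [e i, e g.1]) = 0 ∧ ∃ y : R, g.2.val t (lenv [e i, y]) ≠ 0) ∧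
        a.val t (lenv (e i :: gs.map fun g => e g.1)) =
          b.val t (lenv (e i :: gs.map fun g => e g.1))
  | e, .dvd i j k l => D (e i * e j) (e k * e l)
  | e, .not φ => ¬ VFm.Holds t D e φ
  | e, .and φ ψ => VFm.Holds t D e φ ∧ VFm.Holds t D e ψ
  | e, .or φ ψ => VFm.Holds t D e φ ∨ VFm.Holds t D e ψ
  | e, .ex i φ => ∃ a : R, VFm.Holds t D (Function.update e i a) φ
  | e, .all i φ => ∀ a : R, VFm.Holds t D (Function.update e i a) φ

/-- a formula as a word in prefix notation -/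
def VFm.code : VFm → List ℕ
  | .eq i j a b => (12 + 8 * Nat.pair i j) :: (a.code ++ b.code)
  | .loc i gs a b => (13 + 8 * Nat.pair i gs.length) ::
      ((gs.flatMap fun g => (14 + 8 * g.1) :: g.2.code) ++ (a.code ++ b.code))
  | .dvd i j k l => [15 + 8 * Nat.pair (Nat.pair i j) (Nat.pair k l)]
  | .not φ => 6 :: φ.code
  | .and φ ψ => 7 :: (φ.code ++ ψ.code)
  | .or φ ψ => 8 :: (φ.code ++ ψ.code)
  | .ex i φ => (10 + 8 * i) :: φ.code
  | .all i φ => (11 + 8 * i) :: φ.code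

/-- divisibility in a model -/
def DV {R : Type*} [CommRing R] (t a b : R) : Prop :=
  ∃ c : R, (∃ y : R, y ^ 2 + y = t * c ^ 2) ∧ c * a = b

/-! ### The fine valuation of a model -/

section fine

variable {p : ℕ} [Fact p.Prime] {M : Type} [Field M] {σ : P1 p →+* M}

/-- the valuation ring -/
noncomputable def Mdl.OVv (hM : Mdl p σ) : ValuationSubring M :=
  { hM.OV with mem_or_inv_mem' := hM.inv }

/-- the value group with zero -/
abbrev Mdl.VG (hM : Mdl p σ) : Type := hM.OVv.ValueGroup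

/-- the fine valuation -/
noncomputable abbrev Mdl.fv (hM : Mdl p σ) : Valuation M hM.VG := hM.OVv.valuation

/-- the value of a nonzero element -/
noncomputable def Mdl.vu (hM : Mdl p σ) (x : M) (hx : x ≠ 0) : hM.VGˣ :=
  Units.mk0 (hM.fv x) ((Valuation.ne_zero_iff _).2 hx)

end fine

/-! ### Partial isomorphisms of value groups -/

/-- countable partial isomorphisms which preserve divisibility -/
structure PIso {Γ Δ : Type*} [CommGroup Γ] [CommGroup Δ] [LinearOrder Γ] [LinearOrder Δ]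
    (Λ : Subgroup (Γ × Δ)) : Prop where
  cnt : (Λ : Set (Γ × Δ)).Countable
  le : ∀ a ∈ Λ, (a.1 ≤ 1 ↔ a.2 ≤ 1)
  dvd : ∀ n : ℕ, n ≠ 0 → ∀ a ∈ Λ, ((∃ b, b ^ n = a.1) ↔ ∃ b, b ^ n = a.2)

/-- models with the axiom `v(x) ∈ {0, …, p - 1} + p Γ` -/
structure MdlV (p : ℕ) {M : Type*} [Field M] (σ : P1 p →+* M) : Prop extends Mdl p σ where
  vpow : ∀ x : M, x ≠ 0 → ∃ j < p, ∃ y : M, y ≠ 0 ∧ VO (σ X) (x / (σ X ^ j * y ^ p)) ∧
    VO (σ X) ((σ X ^ j * y ^ p) / x)

/-- `Z`-groups (written multiplicatively), `t` is the largest element below `1` -/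
structure ZG {Γ : Type*} [CommGroup Γ] [LinearOrder Γ] (t : Γ) : Prop where
  lt : t < 1
  max : ∀ a < 1, a ≤ t
  div : ∀ n : ℕ, n ≠ 0 → ∀ a : Γ, ∃ j < n, ∃ b, a = t ^ j * b ^ n

/-- the values of `a` and `b` correspond -/
def VIn {p : ℕ} [Fact p.Prime] {M U : Type} [Field M] [Field U] {σ : P1 p →+* M}
    {τ : P1 p →+* U} (hM : Mdl p σ) (hU : Mdl p τ) (Λ : Subgroup (hM.VGˣ × hU.VGˣ)) (a : M)
    (b : U) : Prop :=
  ∃ (ha : a ≠ 0) (hb : b ≠ 0), (hM.vu a ha, hU.vu b hb) ∈ Λ

end BF80
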