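import Pool.Agent.BF80.Defs
import Pool.Agent.FT80.REClose
import Mathlib

/-!
# Consequences of a primitive recursive list of axioms are recursively enumerable

Henkin clauses and propositional compactness.
-/

set_option maxSynthPendingDepth 10

namespace BF80

namespace Hk

open FT80

/-! ### Constraints which look at finitely many values of a valuation -/

section good

variable {β γ : Type} [Primcodable β] [Primcodable γ]

/-- predicates on valuations which look at finitely many values, primitive recursively -/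
def Good (Q : β → (ℕ → Bool) → Prop) : Prop :=
  ∃ (B : β → ℕ) (q : β × ℕ → Bool), Primrec B ∧ Primrec q ∧
    ∀ x (V : ℕ → Bool) (b : ℕ), (∀ v < B x, b.testBit v = V v) → (Q x V ↔ q (x, b) = true)

theorem primrec_testBit : Primrec₂ Nat.testBit := by
  have h1 : Primrec₂ (fun a b : ℕ => a ^ b) := Primrec₂.unpaired'.1 Nat.Primrec.pow
  have h2 : PrimrecPred (fun x : ℕ × ℕ => x.1 / 2 ^ x.2 % 2 = 1) := by
    refine Primrec.eq.comp ?_ (Primrec.const 1)
    refine Primrec.nat_mod.comp ?_ (Primrec.const 2)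
    exact Primrec.nat_div.comp Primrec.fst (h1.comp (Primrec.const 2) Primrec.snd)
  refine Primrec₂.of_eq (f := fun b v => decide (b / 2 ^ v % 2 = 1)) h2.decide ?_
  intro a b
  exact (Nat.testBit_eq_decide_div_mod_eq).symm

theorem exists_bits (V : ℕ → Bool) (N : ℕ) : ∃ b < 2 ^ N, ∀ v < N, b.testBit v = V v := by
  refine ⟨Nat.ofBits (fun i : Fin N => V i), Nat.ofBits_lt_two_pow _, ?_⟩
  intro v hv
  rw [Nat.testBit_ofBits_lt _ _ hv]

theorem Good.of_eq {Q Q' : β → (ℕ → Bool) → Prop} (h : Good Q) (H : ∀ x V, Q x V ↔ Q' x V) :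
    Good Q' := by
  obtain ⟨B, q, hB, hq, h⟩ := h
  exact ⟨B, q, hB, hq, fun x V b hb => (H x V).symm.trans (h x V b hb)⟩

theorem Good.comp {Q : β → (ℕ → Bool) → Prop} (h : Good Q) {f : γ → β} (hf : Primrec f) :
    Good (fun x V => Q (f x) V) := by
  obtain ⟨B, q, hB, hq, h⟩ := h
  refine ⟨fun x => B (f x), fun x => q (f x.1, x.2), hB.comp hf,
    hq.comp ((hf.comp Primrec.fst).pair Primrec.snd), ?_⟩
  intro x V b hb
  exact h (f x) V b hb

theorem good_var {f : β → ℕ} (hf : Primrec f) : Good (fun x V => V (f x) = true) := by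
  refine ⟨fun x => f x + 1, fun x => Nat.testBit x.2 (f x.1), Primrec.succ.comp hf,
    primrec_testBit.comp Primrec.snd (hf.comp Primrec.fst), ?_⟩
  intro x V b hb
  beta_reduce
  rw [hb (f x) (Nat.lt_succ_self _)]

theorem Good.not {Q : β → (ℕ → Bool) → Prop} (h : Good Q) : Good (fun x V => ¬ Q x V) := by
  obtain ⟨B, q, hB, hq, h⟩ := h
  refine ⟨B, fun x => !q x, hB, Primrec.not.comp hq, ?_⟩
  intro x V b hb
  beta_reduce
  rw [h x V b hb]
  simp

theorem Good.and {Q Q' : β → (ℕ → Bool) → Prop} (h : Good Q) (h' : Good Q') :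
    Good (fun x V => Q x V ∧ Q' x V) := by
  obtain ⟨B, q, hB, hq, h⟩ := h
  obtain ⟨B', q', hB', hq', h'⟩ := h'
  refine ⟨fun x => max (B x) (B' x), fun x => q x && q' x, Primrec.nat_max.comp hB hB',
    Primrec.and.comp hq hq', ?_⟩
  intro x V b hb
  beta_reduce
  rw [h x V b (fun v hv => hb v (lt_of_lt_of_le hv (le_max_left _ _))),
    h' x V b (fun v hv => hb v (lt_of_lt_of_le hv (le_max_right _ _)))]
  simp

theorem Good.imp {Q Q' : β → (ℕ → Bool) → Prop} (h : Good Q) (h' : Good Q') :
    Good (fun x V => Q x V → Q' x V) := by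
  refine (h.and h'.not).not.of_eq ?_
  intro x V
  tauto

theorem Good.iff {Q Q' : β → (ℕ → Bool) → Prop} (h : Good Q) (h' : Good Q') :
    Good (fun x V => (Q x V ↔ Q' x V)) := by
  refine ((h.imp h').and (h'.imp h)).of_eq ?_
  intro x V
  tauto

theorem Good.isOpen {Q : β → (ℕ → Bool) → Prop} (h : Good Q) (x : β) :
    IsOpen {V | Q x V} := by
  obtain ⟨B, q, hB, hq, h⟩ := h
  rw [isOpen_iff_forall_mem_open]
  intro V hV
  refine ⟨⋂ v ∈ Finset.range (B x), {W : ℕ → Bool | W v = V v}, ?_, ?_, ?_⟩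
  · intro W hW
    simp only [Finset.mem_range, Set.mem_iInter, Set.mem_ofPred_eq] at hW
    obtain ⟨b, -, hb⟩ := exists_bits V (B x)
    have h1 := h x V b hb
    have h2 := h x W b (fun v hv => (hb v hv).trans (hW v hv).symm)
    exact h2.2 (h1.1 hV)
  · refine isOpen_biInter_finset ?_
    intro v _
    exact (isOpen_discrete {V v}).preimage (continuous_apply (A := fun _ => Bool) v)
  · simp

/-- propositional compactness -/
theorem good_compact {Q : ℕ → (ℕ → Bool) → Prop} (hQ : ∀ k, IsOpen {V | ¬ Q k V})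
    (h : ¬ ∃ V, ∀ k, Q k V) : ∃ N, ∀ V, ∃ k < N, ¬ Q k V := by
  have h1 : (Set.univ : Set (ℕ → Bool)) ⊆ ⋃ k, {V | ¬ Q k V} := by
    intro V _
    by_contra hV
    apply h
    refine ⟨V, fun k => ?_⟩
    by_contra hk
    exact hV (Set.mem_iUnion.2 ⟨k, hk⟩)
  obtain ⟨F, hF⟩ := isCompact_univ.elim_finite_subcover _ hQ h1
  refine ⟨F.sup id + 1, fun V => ?_⟩
  have h2 := hF (Set.mem_univ V)
  simp only [Set.mem_iUnion] at h2
  obtain ⟨k, hk, h3⟩ := h2
  exact ⟨k, Nat.lt_succ_of_le (Finset.le_sup (f := id) hk), h3⟩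

theorem prel_exists_lt {R : ℕ → γ → Prop} (hf : PrimrecRel R) :
    PrimrecRel fun n y => ∃ x < n, R x y :=
  (hf.exists_mem_list.comp (Primrec.list_range.comp Primrec.fst) Primrec.snd).of_eq (by simp)

theorem prel_forall_lt {R : ℕ → γ → Prop} (hf : PrimrecRel R) :
    PrimrecRel fun n y => ∀ x < n, R x y :=
  (hf.forall_mem_list.comp (Primrec.list_range.comp Primrec.fst) Primrec.snd).of_eq (by simp)

theorem Good.re {Q : ℕ × ℕ → (ℕ → Bool) → Prop} (h : Good Q) :
    REPred (fun t => ¬ ∃ V, ∀ k, Q (t, k) V) := by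
  have hop := fun x => h.not.isOpen x
  obtain ⟨B, q, hB, hq, h⟩ := h
  have h1 : Sig (fun t : ℕ => ∃ N, ∀ b < 2 ^ N, ∃ k < N, B (t, k) ≤ N ∧ q ((t, k), b) = false) := by
    refine Sig.ex_nat (Sig.of_prim ?_)
    have h2 : PrimrecRel (fun (k : ℕ) (x : ℕ × ℕ × ℕ) =>
        B (x.2.1, k) ≤ x.2.2 ∧ q ((x.2.1, k), x.1) = false) := by
      refine PrimrecPred.and ?_ ?_
      · refine Primrec.nat_le.comp ?_ ?_
        · exact hB.comp ((Primrec.fst.comp (Primrec.snd.comp Primrec.snd)).pair Primrec.fst)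
        · exact Primrec.snd.comp (Primrec.snd.comp Primrec.snd)
      · refine Primrec.eq.comp ?_ (Primrec.const false)
        exact hq.comp (((Primrec.fst.comp (Primrec.snd.comp Primrec.snd)).pair Primrec.fst).pair
          (Primrec.fst.comp Primrec.snd))
    have h3 := prel_exists_lt h2
    have h4 : PrimrecRel (fun (b : ℕ) (y : ℕ × ℕ) =>
        ∃ k < y.2, B (y.1, k) ≤ y.2 ∧ q ((y.1, k), b) = false) := by
      refine PrimrecPred.of_eq (h3.comp (f := fun x : ℕ × ℕ × ℕ => x.2.2)
        (g := fun x : ℕ × ℕ × ℕ => x) ?_ ?_) ?_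
      · exact Primrec.snd.comp Primrec.snd
      · exact Primrec.id
      · intro x
        exact Iff.rfl
    have h5 := prel_forall_lt h4
    have h6 : Primrec₂ (fun a b : ℕ => a ^ b) := Primrec₂.unpaired'.1 Nat.Primrec.pow
    refine PrimrecPred.of_eq (h5.comp (f := fun x : ℕ × ℕ => 2 ^ x.2)
      (g := fun x : ℕ × ℕ => x) ?_ ?_) ?_
    · exact h6.comp (Primrec.const 2) Primrec.snd
    · exact Primrec.id
    · intro x
      exact Iff.rfl
  refine h1.rePred.of_eq ?_
  intro t
  constructor
  · rintro ⟨N, hN⟩ ⟨V, hV⟩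
    obtain ⟨b, hb, hbV⟩ := exists_bits V N
    obtain ⟨k, hk, hkN, hq⟩ := hN b hb
    have h2 := h (t, k) V b (fun v hv => hbV v (lt_of_lt_of_le hv hkN))
    rw [hq] at h2
    exact absurd (h2.1 (hV k)) (by simp)
  · intro hn
    obtain ⟨N, hN⟩ := good_compact (Q := fun k => Q (t, k)) (fun k => hop (t, k)) hn
    refine ⟨max N ((Finset.range N).sup fun k => B (t, k)), ?_⟩
    intro b _
    obtain ⟨k, hk, hkb⟩ := hN (fun v => b.testBit v)
    refine ⟨k, lt_of_lt_of_le hk (le_max_left _ _), ?_, ?_⟩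
    · refine le_trans ?_ (le_max_right _ _)
      exact Finset.le_sup (f := fun k => B (t, k)) (Finset.mem_range.2 hk)
    · have h2 := h (t, k) (fun v => b.testBit v) b (fun v _ => rfl)
      rw [h2] at hkb
      simpa using hkb


end good

/-! ### Decoding -/

theorem lt_pair_of_pos {a b : ℕ} (ha : 1 ≤ a) : b < Nat.pair a b := by
  unfold Nat.pair
  split_ifs with h
  · nlinarith
  · nlinarith

theorem unpair_snd_lt {n : ℕ} (h : 1 ≤ n.unpair.1) : n.unpair.2 < n := by
  have h1 := lt_pair_of_pos (b := n.unpair.2) h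
  rwa [Nat.pair_unpair] at h1

/-- a total decoding function for formulas -/
def dec (n : ℕ) : FR :=
  if _h : n.unpair.1 = 6 then FR.neg (dec n.unpair.2)
  else if _h : n.unpair.1 = 7 then FR.and (dec n.unpair.2.unpair.1) (dec n.unpair.2.unpair.2)
  else if _h : n.unpair.1 = 8 then FR.ex n.unpair.2.unpair.1 (dec n.unpair.2.unpair.2)
  else if n.unpair.1 = 1 then
    FR.add n.unpair.2.unpair.1 n.unpair.2.unpair.2.unpair.1 n.unpair.2.unpair.2.unpair.2
  else if n.unpair.1 = 2 then
    FR.mul n.unpair.2.unpair.1 n.unpair.2.unpair.2.unpair.1 n.unpair.2.unpair.2.unpair.2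
  else if n.unpair.1 = 3 then FR.zero n.unpair.2
  else if n.unpair.1 = 4 then FR.one n.unpair.2
  else if n.unpair.1 = 5 then FR.tt n.unpair.2
  else FR.eq n.unpair.2.unpair.1 n.unpair.2.unpair.2
termination_by n
decreasing_by
  · exact unpair_snd_lt (by omega)
  · exact lt_of_le_of_lt (Nat.unpair_left_le _) (unpair_snd_lt (by omega))
  · exact lt_of_le_of_lt (Nat.unpair_right_le _) (unpair_snd_lt (by omega))
  · exact lt_of_le_of_lt (Nat.unpair_right_le _) (unpair_snd_lt (by omega))

/-- codes -/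
def cEq (i j : ℕ) : ℕ := Nat.pair 0 (Nat.pair i j)
/-- codes -/
def cAdd (i j k : ℕ) : ℕ := Nat.pair 1 (Nat.pair i (Nat.pair j k))
/-- codes -/
def cMul (i j k : ℕ) : ℕ := Nat.pair 2 (Nat.pair i (Nat.pair j k))
/-- codes -/
def cZero (i : ℕ) : ℕ := Nat.pair 3 i
/-- codes -/
def cOne (i : ℕ) : ℕ := Nat.pair 4 i
/-- codes -/
def cTt (i : ℕ) : ℕ := Nat.pair 5 i
/-- codes -/
def cNeg (a : ℕ) : ℕ := Nat.pair 6 a
/-- codes -/
def cAnd (a b : ℕ) : ℕ := Nat.pair 7 (Nat.pair a b)
/-- codes -/
def cEx (i a : ℕ) : ℕ := Nat.pair 8 (Nat.pair i a)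

theorem dec_cEq (i j : ℕ) : dec (cEq i j) = FR.eq i j := by rw [dec]; simp [cEq]
theorem dec_cAdd (i j k : ℕ) : dec (cAdd i j k) = FR.add i j k := by rw [dec]; simp [cAdd]
theorem dec_cMul (i j k : ℕ) : dec (cMul i j k) = FR.mul i j k := by rw [dec]; simp [cMul]
theorem dec_cZero (i : ℕ) : dec (cZero i) = FR.zero i := by rw [dec]; simp [cZero]
theorem dec_cOne (i : ℕ) : dec (cOne i) = FR.one i := by rw [dec]; simp [cOne]
theorem dec_cTt (i : ℕ) : dec (cTt i) = FR.tt i := by rw [dec]; simp [cTt]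
theorem dec_cNeg (a : ℕ) : dec (cNeg a) = FR.neg (dec a) := by rw [dec]; simp [cNeg]
theorem dec_cAnd (a b : ℕ) : dec (cAnd a b) = FR.and (dec a) (dec b) := by
  rw [dec]; simp [cAnd]
theorem dec_cEx (i a : ℕ) : dec (cEx i a) = FR.ex i (dec a) := by
  rw [dec]; simp [cEx]

theorem dec_code (φ : FR) : dec φ.code = φ := by
  induction φ with
  | eq i j => exact dec_cEq i j
  | add i j k => exact dec_cAdd i j k
  | mul i j k => exact dec_cMul i j k
  | zero i => exact dec_cZero i
  | one i => exact dec_cOne i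
  | tt i => exact dec_cTt i
  | neg φ ih => exact (dec_cNeg _).trans (by rw [ih])
  | and φ ψ ih ih' => exact (dec_cAnd _ _).trans (by rw [ih, ih'])
  | ex i φ ih => exact (dec_cEx _ _).trans (by rw [ih])

/-! ### Environments -/

/-- environments: the last assignment comes first -/
abbrev Env := List (ℕ × ℕ)

/-- the value of a variable -/
def look (l : Env) (i : ℕ) : ℕ := l.foldr (fun x r => if x.1 = i then x.2 else r) 0

theorem look_nil : look [] = fun _ => 0 := rfl

theorem look_cons (i b : ℕ) (l : Env) : look ((i, b) :: l) = Function.update (look l) i b := by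
  funext j
  simp only [look, List.foldr_cons, Function.update_apply, eq_comm (a := i)]

theorem look_le (l : Env) (j : ℕ) : look l j ≤ Encodable.encode l := by
  induction l with
  | nil => simp [look]
  | cons x l ih =>
    obtain ⟨i, b⟩ := x
    rw [look_cons, Encodable.encode_list_cons, Encodable.encode_prod_val, Function.update_apply]
    split_ifs with h
    · refine le_trans ?_ (Nat.le_succ _)
      refine le_trans ?_ (Nat.left_le_pair _ _)
      exact Nat.right_le_pair _ _
    · refine le_trans ih ?_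
      refine le_trans ?_ (Nat.le_succ _)
      exact Nat.right_le_pair _ _

theorem primrec_look : Primrec₂ look := by
  have h := Primrec.list_foldr (α := Env × ℕ) (β := ℕ × ℕ) (σ := ℕ) (f := fun x => x.1)
    (g := fun _ => 0) (h := fun x y => if y.1.1 = x.2 then y.1.2 else y.2)
    Primrec.fst (Primrec.const 0) ?_
  · exact h
  · refine Primrec.ite ?_ ?_ ?_
    · exact Primrec.eq.comp (Primrec.fst.comp (Primrec.fst.comp Primrec.snd))
        (Primrec.snd.comp Primrec.fst)
    · exact Primrec.snd.comp (Primrec.fst.comp Primrec.snd)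
    · exact Primrec.snd.comp Primrec.snd

/-- the Henkin witness -/
def wit (i n : ℕ) (l : Env) : ℕ := Nat.pair (Nat.pair i n) (Encodable.encode l) + 1

theorem look_lt_wit (i n : ℕ) (l : Env) (j : ℕ) : look l j < wit i n l :=
  Nat.lt_succ_of_le (le_trans (look_le l j) (Nat.right_le_pair _ _))

/-- the formula `n` is true in the environment `l` according to `V` -/
def HV (V : ℕ → Bool) (n : ℕ) (l : Env) : Prop := V (Nat.pair n (Encodable.encode l)) = true

/-- the constraints on a valuation -/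
def Cond (Ax : ℕ → FR) (t : ℕ) (V : ℕ → Bool) (a b c d : ℕ) (l l' : Env) : Prop :=
  (HV V (cNeg a) l ↔ ¬ HV V a l) ∧
  (HV V (cAnd a b) l ↔ (HV V a l ∧ HV V b l)) ∧
  (HV V (cEx a b) l → HV V b ((a, wit a b l) :: l)) ∧
  (HV V b ((a, c) :: l) → HV V (cEx a b) l) ∧
  (HV V (cEq a b) l ↔ HV V (cEq 0 1) [(0, look l a), (1, look l b)]) ∧
  (HV V (cAdd a b c) l ↔ HV V (cAdd 0 1 2) [(0, look l a), (1, look l b), (2, look l c)]) ∧
  (HV V (cMul a b c) l ↔ HV V (cMul 0 1 2) [(0, look l a), (1, look l b), (2, look l c)]) ∧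
  (HV V (cZero a) l ↔ HV V (cZero 0) [(0, look l a)]) ∧
  (HV V (cOne a) l ↔ HV V (cOne 0) [(0, look l a)]) ∧
  (HV V (cTt a) l ↔ HV V (cTt 0) [(0, look l a)]) ∧
  HV V (cEq 0 1) [(0, a), (1, a)] ∧
  (HV V (cEq 0 1) [(0, a), (1, b)] → HV V d (l' ++ (c, a) :: l) → HV V d (l' ++ (c, b) :: l)) ∧
  HV V (Ax a).code l ∧
  ¬ HV V t []

section prim

variable {β : Type} [Primcodable β]

theorem good_HV {f : β → ℕ} {g : β → Env} (hf : Primrec f) (hg : Primrec g) :
    Good (fun x V => HV V (f x) (g x)) :=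
  good_var (Primrec₂.natPair.comp hf (Primrec.encode.comp hg))

theorem p_tag (n : ℕ) {f : β → ℕ} (hf : Primrec f) : Primrec (fun x => Nat.pair n (f x)) :=
  Primrec₂.natPair.comp (Primrec.const n) hf

theorem p_pair {f g : β → ℕ} (hf : Primrec f) (hg : Primrec g) :
    Primrec (fun x => Nat.pair (f x) (g x)) := Primrec₂.natPair.comp hf hg

theorem p_cons {f g : β → ℕ} {h : β → Env} (hf : Primrec f) (hg : Primrec g) (hh : Primrec h) :
    Primrec (fun x => (f x, g x) :: h x) := Primrec.list_cons.comp (hf.pair hg) hh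

theorem p_nil : Primrec (fun _ : β => ([] : Env)) := Primrec.const []

theorem p_look {f : β → Env} {g : β → ℕ} (hf : Primrec f) (hg : Primrec g) :
    Primrec (fun x => look (f x) (g x)) := primrec_look.comp hf hg

theorem p_wit {f g : β → ℕ} {h : β → Env} (hf : Primrec f) (hg : Primrec g) (hh : Primrec h) :
    Primrec (fun x => wit (f x) (g x) (h x)) :=
  Primrec.succ.comp (p_pair (p_pair hf hg) (Primrec.encode.comp hh))

/-- parameters of the constraints -/
abbrev Par := ℕ × ℕ × ℕ × ℕ × Env × Env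

theorem good_cond (Ax : ℕ → FR) (hAx : Primrec fun n => (Ax n).code) :
    Good (β := ℕ × Par) (fun x V => Cond Ax x.1 V x.2.1 x.2.2.1 x.2.2.2.1 x.2.2.2.2.1
      x.2.2.2.2.2.1 x.2.2.2.2.2.2) := by
  have ht : Primrec (fun x : ℕ × Par => x.1) := Primrec.fst
  have h2 : Primrec (fun x : ℕ × Par => x.2) := Primrec.snd
  have ha : Primrec (fun x : ℕ × Par => x.2.1) := Primrec.fst.comp h2
  have h3 : Primrec (fun x : ℕ × Par => x.2.2) := Primrec.snd.comp h2
  have hb : Primrec (fun x : ℕ × Par => x.2.2.1) := Primrec.fst.comp h3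
  have h4 : Primrec (fun x : ℕ × Par => x.2.2.2) := Primrec.snd.comp h3
  have hc : Primrec (fun x : ℕ × Par => x.2.2.2.1) := Primrec.fst.comp h4
  have h5 : Primrec (fun x : ℕ × Par => x.2.2.2.2) := Primrec.snd.comp h4
  have hd : Primrec (fun x : ℕ × Par => x.2.2.2.2.1) := Primrec.fst.comp h5
  have h6 : Primrec (fun x : ℕ × Par => x.2.2.2.2.2) := Primrec.snd.comp h5
  have hl : Primrec (fun x : ℕ × Par => x.2.2.2.2.2.1) := Primrec.fst.comp h6
  have hl' : Primrec (fun x : ℕ × Par => x.2.2.2.2.2.2) := Primrec.snd.comp h6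
  have k0 : Primrec (fun _ : ℕ × Par => 0) := Primrec.const 0
  have k1 : Primrec (fun _ : ℕ × Par => 1) := Primrec.const 1
  have k2 : Primrec (fun _ : ℕ × Par => 2) := Primrec.const 2
  have la := p_look hl ha
  have lb := p_look hl hb
  have lc := p_look hl hc
  have cEq01 : Primrec (fun _ : ℕ × Par => cEq 0 1) := Primrec.const _
  unfold Cond
  refine Good.and ?_ (Good.and ?_ (Good.and ?_ (Good.and ?_ (Good.and ?_ (Good.and ?_
    (Good.and ?_ (Good.and ?_ (Good.and ?_ (Good.and ?_ (Good.and ?_ (Good.and ?_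
    (Good.and ?_ ?_))))))))))))
  · exact (good_HV (p_tag 6 ha) hl).iff (good_HV ha hl).not
  · exact (good_HV (p_tag 7 (p_pair ha hb)) hl).iff ((good_HV ha hl).and (good_HV hb hl))
  · exact (good_HV (p_tag 8 (p_pair ha hb)) hl).imp
      (good_HV hb (p_cons ha (p_wit ha hb hl) hl))
  · exact (good_HV hb (p_cons ha hc hl)).imp (good_HV (p_tag 8 (p_pair ha hb)) hl)
  · exact (good_HV (p_tag 0 (p_pair ha hb)) hl).iff
      (good_HV cEq01 (p_cons k0 la (p_cons k1 lb p_nil)))
  · exact (good_HV (p_tag 1 (p_pair ha (p_pair hb hc))) hl).iff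
      (good_HV (Primrec.const (cAdd 0 1 2)) (p_cons k0 la (p_cons k1 lb (p_cons k2 lc p_nil))))
  · exact (good_HV (p_tag 2 (p_pair ha (p_pair hb hc))) hl).iff
      (good_HV (Primrec.const (cMul 0 1 2)) (p_cons k0 la (p_cons k1 lb (p_cons k2 lc p_nil))))
  · exact (good_HV (p_tag 3 ha) hl).iff (good_HV (Primrec.const (cZero 0)) (p_cons k0 la p_nil))
  · exact (good_HV (p_tag 4 ha) hl).iff (good_HV (Primrec.const (cOne 0)) (p_cons k0 la p_nil))
  · exact (good_HV (p_tag 5 ha) hl).iff (good_HV (Primrec.const (cTt 0)) (p_cons k0 la p_nil))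
  · exact good_HV cEq01 (p_cons k0 ha (p_cons k1 ha p_nil))
  · refine (good_HV cEq01 (p_cons k0 ha (p_cons k1 hb p_nil))).imp (Good.imp ?_ ?_)
    · exact good_HV hd (Primrec.list_append.comp hl' (p_cons hc ha hl))
    · exact good_HV hd (Primrec.list_append.comp hl' (p_cons hc hb hl))
  · exact good_HV (hAx.comp ha) hl
  · exact (good_HV ht p_nil).not

/-- total decoding of parameters -/
def par (k : ℕ) : Par := (Encodable.decode (α := Par) k).getD (0, 0, 0, 0, [], [])

theorem par_encode (x : Par) : par (Encodable.encode x) = x := by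
  rw [par, Encodable.encodek]
  rfl

theorem primrec_par : Primrec par :=
  Primrec.option_getD.comp Primrec.decode (Primrec.const _)

theorem re_cond (Ax : ℕ → FR) (hAx : Primrec fun n => (Ax n).code) :
    REPred (fun t => ¬ ∃ V, ∀ a b c d l l', Cond Ax t V a b c d l l') := by
  have h0 : Primrec (fun x : ℕ × ℕ => (x.1, par x.2)) :=
    Primrec.fst.pair (primrec_par.comp Primrec.snd)
  have h := (good_cond Ax hAx).comp h0
  refine h.re.of_eq ?_
  intro t
  refine not_congr (exists_congr fun V => ?_)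
  constructor
  · intro h a b c d l l'
    have h1 := h (Encodable.encode ((a, b, c, d, l, l') : Par))
    simp only [par_encode] at h1
    exact h1
  · intro h k
    exact h _ _ _ _ _ _

end prim

/-! ### From a valuation to a model -/

section model

theorem sat_dep {α : Type} (R : RS α) (φ : FR) : ∃ N, ∀ e e' : ℕ → α,
    (∀ i < N, e i = e' i) → (Sat R e φ ↔ Sat R e' φ) := by
  induction φ with
  | eq i j =>
    refine ⟨i + j + 1, fun e e' h => ?_⟩
    simp only [Sat, h i (by omega), h j (by omega)]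
  | add i j k =>
    refine ⟨i + j + k + 1, fun e e' h => ?_⟩
    simp only [Sat, h i (by omega), h j (by omega), h k (by omega)]
  | mul i j k =>
    refine ⟨i + j + k + 1, fun e e' h => ?_⟩
    simp only [Sat, h i (by omega), h j (by omega), h k (by omega)]
  | zero i =>
    refine ⟨i + 1, fun e e' h => ?_⟩
    simp only [Sat, h i (by omega)]
  | one i =>
    refine ⟨i + 1, fun e e' h => ?_⟩
    simp only [Sat, h i (by omega)]
  | tt i =>
    refine ⟨i + 1, fun e e' h => ?_⟩
    simp only [Sat, h i (by omega)]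
  | neg φ ih =>
    obtain ⟨N, hN⟩ := ih
    exact ⟨N, fun e e' h => not_congr (hN e e' h)⟩
  | and φ ψ ih ih' =>
    obtain ⟨N, hN⟩ := ih
    obtain ⟨N', hN'⟩ := ih'
    refine ⟨max N N', fun e e' h => and_congr (hN e e' fun i hi => h i ?_)
      (hN' e e' fun i hi => h i ?_)⟩
    · exact lt_of_lt_of_le hi (le_max_left _ _)
    · exact lt_of_lt_of_le hi (le_max_right _ _)
  | ex i φ ih =>
    obtain ⟨N, hN⟩ := ih
    refine ⟨N, fun e e' h => exists_congr fun a => hN _ _ fun j hj => ?_⟩
    rw [Function.update_apply, Function.update_apply, h j hj]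

theorem model_of_val (Ax : ℕ → FR) (φ : FR) (V : ℕ → Bool)
    (h : ∀ a b c d l l', Cond Ax φ.code V a b c d l l') :
    ∃ (α : Type) (R : RS α) (x : α), (∀ n (e : ℕ → α), Sat R e (Ax n)) ∧
      ¬ Sat R (fun _ => x) φ := by
  have hneg : ∀ a l, HV V (cNeg a) l ↔ ¬ HV V a l := fun a l => (h a 0 0 0 l []).1
  have hand : ∀ a b l, HV V (cAnd a b) l ↔ (HV V a l ∧ HV V b l) :=
    fun a b l => (h a b 0 0 l []).2.1
  have hex : ∀ i a l, HV V (cEx i a) l → HV V a ((i, wit i a l) :: l) :=
    fun a b l => (h a b 0 0 l []).2.2.1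
  have hin : ∀ i a l c, HV V a ((i, c) :: l) → HV V (cEx i a) l :=
    fun a b l c => (h a b c 0 l []).2.2.2.1
  have heq : ∀ a b l, (HV V (cEq a b) l ↔ HV V (cEq 0 1) [(0, look l a), (1, look l b)]) :=
    fun a b l => (h a b 0 0 l []).2.2.2.2.1
  have hadd : ∀ a b c l, (HV V (cAdd a b c) l ↔
      HV V (cAdd 0 1 2) [(0, look l a), (1, look l b), (2, look l c)]) :=
    fun a b c l => (h a b c 0 l []).2.2.2.2.2.1
  have hmul : ∀ a b c l, (HV V (cMul a b c) l ↔
      HV V (cMul 0 1 2) [(0, look l a), (1, look l b), (2, look l c)]) :=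
    fun a b c l => (h a b c 0 l []).2.2.2.2.2.2.1
  have hzero : ∀ a l, (HV V (cZero a) l ↔ HV V (cZero 0) [(0, look l a)]) :=
    fun a l => (h a 0 0 0 l []).2.2.2.2.2.2.2.1
  have hone : ∀ a l, (HV V (cOne a) l ↔ HV V (cOne 0) [(0, look l a)]) :=
    fun a l => (h a 0 0 0 l []).2.2.2.2.2.2.2.2.1
  have htt : ∀ a l, (HV V (cTt a) l ↔ HV V (cTt 0) [(0, look l a)]) :=
    fun a l => (h a 0 0 0 l []).2.2.2.2.2.2.2.2.2.1
  have hrefl : ∀ a, HV V (cEq 0 1) [(0, a), (1, a)] :=
    fun a => (h a 0 0 0 [] []).2.2.2.2.2.2.2.2.2.2.1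
  have hleib : ∀ a b c d l l', HV V (cEq 0 1) [(0, a), (1, b)] →
      HV V d (l' ++ (c, a) :: l) → HV V d (l' ++ (c, b) :: l) :=
    fun a b c d l l' => (h a b c d l l').2.2.2.2.2.2.2.2.2.2.2.1
  have hAx : ∀ n l, HV V (Ax n).code l :=
    fun n l => (h n 0 0 0 l []).2.2.2.2.2.2.2.2.2.2.2.2.1
  have hphi : ¬ HV V φ.code [] := (h 0 0 0 0 [] []).2.2.2.2.2.2.2.2.2.2.2.2.2
  have hsymm : ∀ a b, HV V (cEq 0 1) [(0, a), (1, b)] → HV V (cEq 0 1) [(0, b), (1, a)] :=
    fun a b hab => hleib a b 0 (cEq 0 1) [(1, a)] [] hab (hrefl a)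
  have htrans : ∀ a b c, HV V (cEq 0 1) [(0, a), (1, b)] → HV V (cEq 0 1) [(0, b), (1, c)] →
      HV V (cEq 0 1) [(0, a), (1, c)] :=
    fun a b c hab hbc => hleib b c 1 (cEq 0 1) [] [(0, a)] hbc hab
  let s : Setoid ℕ := ⟨fun a b => HV V (cEq 0 1) [(0, a), (1, b)],
    ⟨hrefl, fun {a b} => hsymm a b, fun {a b c} => htrans a b c⟩⟩
  have hout : ∀ a : ℕ, HV V (cEq 0 1) [(0, (Quotient.mk s a).out), (1, a)] :=
    fun a => Quotient.exact (Quotient.out_eq (Quotient.mk s a))
  have hcong : ∀ a c d l l', HV V d (l' ++ (c, (Quotient.mk s a).out) :: l) ↔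
      HV V d (l' ++ (c, a) :: l) := fun a c d l l' =>
    ⟨hleib _ _ c d l l' (hout a), hleib _ _ c d l l' (hsymm _ _ (hout a))⟩
  have hc1 : ∀ a d, HV V d [(0, (Quotient.mk s a).out)] ↔ HV V d [(0, a)] :=
    fun a d => hcong a 0 d [] []
  have hc3 : ∀ a b c d, HV V d [(0, (Quotient.mk s a).out), (1, (Quotient.mk s b).out),
      (2, (Quotient.mk s c).out)] ↔ HV V d [(0, a), (1, b), (2, c)] := by
    intro a b c d
    refine (hcong a 0 d _ []).trans ?_
    refine (hcong b 1 d _ [(0, a)]).trans ?_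
    exact hcong c 2 d _ [(0, a), (1, b)]
  let R : RS (Quotient s) := {
    add := fun x y z => HV V (cAdd 0 1 2) [(0, x.out), (1, y.out), (2, z.out)]
    mul := fun x y z => HV V (cMul 0 1 2) [(0, x.out), (1, y.out), (2, z.out)]
    zero := fun x => HV V (cZero 0) [(0, x.out)]
    one := fun x => HV V (cOne 0) [(0, x.out)]
    tt := fun x => HV V (cTt 0) [(0, x.out)] }
  have hupd : ∀ (i b : ℕ) (l : Env), (fun j => Quotient.mk s (look ((i, b) :: l) j)) =
      Function.update (fun j => Quotient.mk s (look l j)) i (Quotient.mk s b) := by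
    intro i b l
    funext j
    rw [look_cons]
    by_cases hj : j = i
    · subst hj
      simp
    · simp [hj]
  have truth : ∀ (ψ : FR) (l : Env), HV V ψ.code l ↔
      Sat R (fun j => Quotient.mk s (look l j)) ψ := by
    intro ψ
    induction ψ with
    | eq i j =>
      intro l
      refine (heq i j l).trans ?_
      exact (Quotient.eq (r := s)).symm
    | add i j k =>
      intro l
      exact (hadd i j k l).trans (hc3 _ _ _ _).symm
    | mul i j k =>
      intro l
      exact (hmul i j k l).trans (hc3 _ _ _ _).symm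
    | zero i =>
      intro l
      exact (hzero i l).trans (hc1 _ _).symm
    | one i =>
      intro l
      exact (hone i l).trans (hc1 _ _).symm
    | tt i =>
      intro l
      exact (htt i l).trans (hc1 _ _).symm
    | neg ψ ih =>
      intro l
      exact (hneg _ l).trans (not_congr (ih l))
    | and ψ χ ih ih' =>
      intro l
      exact (hand _ _ l).trans (and_congr (ih l) (ih' l))
    | ex i ψ ih =>
      intro l
      constructor
      · intro h1
        refine ⟨Quotient.mk s (wit i ψ.code l), ?_⟩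
        rw [← hupd]
        exact (ih _).1 (hex i _ l h1)
      · rintro ⟨y, hy⟩
        obtain ⟨b, rfl⟩ := Quotient.exists_rep y
        rw [← hupd] at hy
        exact hin i _ l b ((ih _).2 hy)
  have henv : ∀ (N : ℕ) (e : ℕ → Quotient s), ∃ l : Env, ∀ i < N,
      Quotient.mk s (look l i) = e i := by
    intro N e
    induction N with
    | zero => exact ⟨[], fun i hi => absurd hi (Nat.not_lt_zero _)⟩
    | succ N ih =>
      obtain ⟨l, hl⟩ := ih
      refine ⟨(N, (e N).out) :: l, fun i hi => ?_⟩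
      rw [look_cons]
      by_cases hj : i = N
      · subst hj
        simp
      · simp only [Function.update_apply, hj, if_false]
        exact hl i (by omega)
  refine ⟨Quotient s, R, Quotient.mk s 0, ?_, ?_⟩
  · intro n e
    obtain ⟨N, hN⟩ := sat_dep R (Ax n)
    obtain ⟨l, hl⟩ := henv N e
    exact (hN _ _ hl).1 ((truth _ l).1 (hAx n l))
  · intro hs
    exact hphi ((truth φ []).2 hs)

end model

/-! ### From a model to a valuation -/

section val

variable {α : Type}

open Classical in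
/-- one step of the construction of the interpretation -/
noncomputable def stepI (R : RS α) (x : α) (m : ℕ) (f : ℕ → α) : α :=
  if h : m ≠ 0 ∧ ∃ y, Sat R (Function.update (f ∘ look (Denumerable.ofNat Env (m - 1).unpair.2))
      (m - 1).unpair.1.unpair.1 y) (dec (m - 1).unpair.1.unpair.2) then
    Classical.choose h.2 else x

open Classical in
/-- the interpretation of the Henkin constants -/
noncomputable def interp (R : RS α) (x : α) (m : ℕ) : α :=
  stepI R x m (fun k => if _h : k < m then interp R x k else x)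
termination_by m

theorem interp_eq (R : RS α) (x : α) (m : ℕ) :
    interp R x m = stepI R x m (fun k => if _h : k < m then interp R x k else x) := by
  rw [interp]

theorem interp_zero (R : RS α) (x : α) : interp R x 0 = x := by
  rw [interp, stepI]
  simp

theorem stepI_wit (R : RS α) (x : α) (i n : ℕ) (l : Env) (f : ℕ → α)
    (h : ∃ y, Sat R (Function.update (f ∘ look l) i y) (dec n)) :
    Sat R (Function.update (f ∘ look l) i (stepI R x (wit i n l) f)) (dec n) := by
  have h1 : (wit i n l - 1).unpair.1.unpair.1 = i := by simp [wit]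
  have h2 : (wit i n l - 1).unpair.1.unpair.2 = n := by simp [wit]
  have h3 : Denumerable.ofNat Env (wit i n l - 1).unpair.2 = l := by simp [wit]
  have h4 : wit i n l ≠ 0 := by simp [wit]
  have h5 : wit i n l ≠ 0 ∧ ∃ y, Sat R (Function.update
      (f ∘ look (Denumerable.ofNat Env (wit i n l - 1).unpair.2))
      (wit i n l - 1).unpair.1.unpair.1 y) (dec (wit i n l - 1).unpair.1.unpair.2) := by
    rw [h1, h2, h3]
    exact ⟨h4, h⟩
  have h6 := Classical.choose_spec h5.2
  rw [stepI, dif_pos h5]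
  generalize Classical.choose h5.2 = c at h6 ⊢
  rw [h1, h2, h3] at h6
  exact h6

theorem interp_wit (R : RS α) (x : α) (i n : ℕ) (l : Env)
    (h : ∃ y, Sat R (Function.update (interp R x ∘ look l) i y) (dec n)) :
    Sat R (Function.update (interp R x ∘ look l) i (interp R x (wit i n l))) (dec n) := by
  have h1 : (fun k => if _h : k < wit i n l then interp R x k else x) ∘ look l =
      interp R x ∘ look l := by
    funext j
    simp only [Function.comp_apply]
    rw [dif_pos (look_lt_wit i n l j)]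
  have h2 := stepI_wit R x i n l (fun k => if _h : k < wit i n l then interp R x k else x)
  rw [h1] at h2
  have h3 := h2 h
  rw [interp_eq R x (wit i n l)]
  exact h3

theorem look_append_congr (I : ℕ → α) {a b : ℕ} (hab : I a = I b) (c : ℕ) (l l' : Env) :
    I ∘ look (l' ++ (c, a) :: l) = I ∘ look (l' ++ (c, b) :: l) := by
  induction l' with
  | nil =>
    simp only [List.nil_append, look_cons, Function.comp_update, hab]
  | cons x t ih =>
    obtain ⟨i, v⟩ := x
    simp only [List.cons_append, look_cons, Function.comp_update, ih]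

theorem val_of_model (Ax : ℕ → FR) (φ : FR) (R : RS α) (x : α)
    (hAx : ∀ n (e : ℕ → α), Sat R e (Ax n)) (hx : ¬ Sat R (fun _ => x) φ) :
    ∃ V, ∀ a b c d l l', Cond Ax φ.code V a b c d l l' := by
  classical
  refine ⟨fun v => decide (Sat R (interp R x ∘ look (Denumerable.ofNat Env v.unpair.2))
    (dec v.unpair.1)), ?_⟩
  intro a b c d l l'
  have key : ∀ n l, HV (fun v => decide (Sat R (interp R x ∘
      look (Denumerable.ofNat Env v.unpair.2)) (dec v.unpair.1))) n l ↔
      Sat R (interp R x ∘ look l) (dec n) := by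
    intro n l
    simp [HV]
  unfold Cond
  simp only [key, dec_cNeg, dec_cAnd, dec_cEx, dec_cEq, dec_cAdd, dec_cMul, dec_cZero, dec_cOne,
    dec_cTt, dec_code]
  refine ⟨Iff.rfl, Iff.rfl, ?_, ?_, ?_, ?_, ?_, ?_, ?_, ?_, ?_, ?_, hAx _ _, ?_⟩
  · intro h
    rw [look_cons, Function.comp_update]
    exact interp_wit R x a b l h
  · intro h
    rw [look_cons, Function.comp_update] at h
    exact ⟨_, h⟩
  · simp [Sat, look_cons]
  · simp [Sat, look_cons]
  · simp [Sat, look_cons]
  · simp [Sat, look_cons]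
  · simp [Sat, look_cons]
  · simp [Sat, look_cons]
  · simp [Sat, look_cons]
  · intro h
    have h1 : interp R x a = interp R x b := by
      simpa [Sat, look_cons] using h
    rw [look_append_congr _ h1]
    exact id
  · have h1 : interp R x ∘ look [] = fun _ => x := by
      funext j
      simp only [Function.comp_apply, look_nil, interp_zero]
    rw [h1]
    exact hx

end val

end Hk

open Hk in
/-- the consequences of a primitive recursive list of axioms are recursively enumerable -/
theorem re_conseq (Ax : ℕ → FR) (hAx : Primrec fun n => (Ax n).code) :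
    ∃ P : ℕ → Prop, REPred P ∧ ∀ φ : FR, (P φ.code ↔
      ∀ (α : Type) (R : RS α), (∀ n (e : ℕ → α), Sat R e (Ax n)) →
        ∀ a : α, Sat R (fun _ => a) φ) := by
  refine ⟨_, re_cond Ax hAx, fun φ => ?_⟩
  constructor
  · intro h α R hR a
    by_contra ha
    exact h (val_of_model Ax φ R a hR ha)
  · rintro h ⟨V, hV⟩
    obtain ⟨α, R, x, h1, h2⟩ := model_of_val Ax φ V hV
    exact h2 (h α R h1 x)

end BF80
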