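import Pool.Agent.BF80.CaseIM
import Pool.Agent.BF80.CaseII
import Pool.Agent.BF80.BackForth1
import Pool.Agent.BF80.Final
import Pool.Agent.BF80.Compile
import Pool.Agent.BF80.MdlJ

/-!
# The theory of the binary fragment is decidable
-/

set_option maxSynthPendingDepth 10
open Polynomial Filter
namespace BF80
open FT80

variable {p : ℕ} [Fact p.Prime]

theorem star1 {M : Type} [Field M] {σ : P1 p →+* M} (hM : Mdl p σ) (x : M) (hx : ¬ Alg1 σ x)
    (F : Finset M) (hF : ∀ a ∈ F, Alg1 (ev1 σ x) a) : Star1 σ x F := by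
  by_cases h : ∃ w, Alg1 (ev1 σ x) w ∧ w ≠ 0 ∧ hM.vc w < 1
  · obtain ⟨w, hw, hw0, hw1⟩ := h
    exact star1_II hM x hx F hF w hw hw0 hw1
  · exact star1_I hM x hx F hF fun w hw hw0 hw1 => h ⟨w, hw, hw0, hw1⟩

theorem starC {M : Type} [Field M] {σ : P1 p →+* M} (hM : Mdl p σ) : StarC σ := by
  intro x hx B hB
  exact star_of_star1 hM.σ_injective x hx (fun F hF => star1 hM x hx F hF) B hB

theorem exists_jok {M : Type} [Field M] {σ : P1 p →+* M} (hM : Mdl p σ) :
    ∃ j : k0 p →+* M, JOK σ j := by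
  obtain ⟨j, h1, h2, h3, -⟩ := hM.exists_j
  exact ⟨j, h1, h2, h3⟩

/-- all models satisfy the same formulas of the binary fragment as `k0` -/
theorem bf_equiv {M : Type} [Field M] {σ : P1 p →+* M} (hM : Mdl p σ) (φ : BFm) :
    φ.Holds (σ X) (fun _ => (0 : M)) ↔ φ.Holds (sig0 p X) (fun _ => (0 : k0 p)) :=
  bf_equiv_of (fun _ _ _ h => starC h) (fun _ _ _ h => exists_jok h) mdl_k0 hM φ

theorem binary (p : ℕ) [Fact p.Prime] :
    (∃ D : List ℕ → Bool, Computable D ∧ ∀ φ : BFm, (D φ.code = true ↔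
      φ.Holds (HahnSeries.single 1 1 : LaurentSeries (ZMod p)) (fun _ => 0))) ∧
    (∃ D : List ℕ → Bool, Computable D ∧ ∀ φ : BFm, (D φ.code = true ↔
      φ.Holds (PowerSeries.X : PowerSeries (ZMod p)) (fun _ => 0))) :=
  binary_of p exists_compile mdl_KK VO_KK fun _ _ _ h φ => bf_equiv h φ

end BF80
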