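import Pool.Agent.BF80.ZG
import Pool.Agent.BF80.Diag
import Pool.Agent.BF80.Val
import Pool.Agent.BF80.UpV

/-!
# Extension of partial isomorphisms of value groups
-/

set_option maxSynthPendingDepth 10

open Polynomial Filter

namespace BF80

open FT80

namespace ZV

section abs

variable {Γ Δ : Type*} [CommGroup Γ] [LinearOrder Γ] [IsOrderedMonoid Γ] [CommGroup Δ]
  [LinearOrder Δ] [IsOrderedMonoid Δ]

omit [IsOrderedMonoid Γ] [IsOrderedMonoid Δ] in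
/-- adjoining one pair -/
theorem adjoin {Λ : Subgroup (Γ × Δ)} (hΛ : PIso Λ) (x : Γ × Δ)
    (h1 : ∀ a ∈ Λ, ∀ k : ℤ, (a.1 * x.1 ^ k ≤ 1 ↔ a.2 * x.2 ^ k ≤ 1))
    (h2 : ∀ a ∈ Λ, ∀ k : ℤ, ∀ n : ℕ, n ≠ 0 →
      ((∃ b, b ^ n = a.1 * x.1 ^ k) ↔ ∃ b, b ^ n = a.2 * x.2 ^ k)) :
    PIso (Λ ⊔ Subgroup.zpowers x) := by
  have hmem : ∀ y, y ∈ Λ ⊔ Subgroup.zpowers x ↔ ∃ a ∈ Λ, ∃ k : ℤ, a * x ^ k = y := by
    intro y
    rw [Subgroup.mem_sup]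
    constructor
    · rintro ⟨a, ha, z, hz, rfl⟩
      obtain ⟨k, rfl⟩ := Subgroup.mem_zpowers_iff.1 hz
      exact ⟨a, ha, k, rfl⟩
    · rintro ⟨a, ha, k, rfl⟩
      exact ⟨a, ha, x ^ k, Subgroup.mem_zpowers_iff.2 ⟨k, rfl⟩, rfl⟩
  refine ⟨?_, ?_, ?_⟩
  · have h3 : ((Λ ⊔ Subgroup.zpowers x : Subgroup (Γ × Δ)) : Set (Γ × Δ)) ⊆
        (fun y : (Γ × Δ) × ℤ => y.1 * x ^ y.2) '' ((Λ : Set (Γ × Δ)) ×ˢ Set.univ) := by
      intro y hy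
      obtain ⟨a, ha, k, rfl⟩ := (hmem y).1 hy
      exact ⟨(a, k), ⟨ha, Set.mem_univ _⟩, rfl⟩
    exact ((hΛ.cnt.prod Set.countable_univ).image _).mono h3
  · intro y hy
    obtain ⟨a, ha, k, rfl⟩ := (hmem y).1 hy
    exact h1 a ha k
  · intro n hn y hy
    obtain ⟨a, ha, k, rfl⟩ := (hmem y).1 hy
    exact h2 a ha k n hn

/-- the case where a power of `γ` is in the domain -/
theorem step_alg {Λ : Subgroup (Γ × Δ)} (hΛ : PIso Λ) (γ : Γ) {n : ℕ} (hn : n ≠ 0) {b : Δ}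
    (hb : (γ ^ n, b) ∈ Λ) : ∃ Λ' : Subgroup (Γ × Δ), Λ ≤ Λ' ∧ PIso Λ' ∧ ∃ δ, (γ, δ) ∈ Λ' := by
  obtain ⟨δ, hδ⟩ := (hΛ.dvd n hn _ hb).1 ⟨γ, rfl⟩
  simp only at hδ
  refine ⟨Λ ⊔ Subgroup.zpowers (γ, δ), le_sup_left, adjoin hΛ _ ?_ ?_, δ,
    (le_sup_right : Subgroup.zpowers (γ, δ) ≤ _) (Subgroup.mem_zpowers _)⟩
  · intro a ha k
    have hm : a ^ n * (γ ^ n, b) ^ k ∈ Λ := Λ.mul_mem (Λ.pow_mem ha _) (Λ.zpow_mem hb _)
    have h1 := hΛ.le _ hm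
    have e1 : (a ^ n * (γ ^ n, b) ^ k).1 = (a.1 * γ ^ k) ^ n := by
      change a.1 ^ n * (γ ^ n) ^ k = _
      rw [mul_pow, ← zpow_natCast γ n, ← zpow_natCast (γ ^ k) n, ← zpow_mul, ← zpow_mul,
        mul_comm (n : ℤ) k]
    have e2 : (a ^ n * (γ ^ n, b) ^ k).2 = (a.2 * δ ^ k) ^ n := by
      change a.2 ^ n * b ^ k = _
      rw [← hδ, mul_pow, ← zpow_natCast δ n, ← zpow_natCast (δ ^ k) n, ← zpow_mul, ← zpow_mul,
        mul_comm (n : ℤ) k]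
    rw [e1, e2, pow_le_one_iff hn, pow_le_one_iff hn] at h1
    exact h1
  · intro a ha k m hm
    have hmem : a ^ n * (γ ^ n, b) ^ k ∈ Λ := Λ.mul_mem (Λ.pow_mem ha _) (Λ.zpow_mem hb _)
    have h1 := hΛ.dvd (m * n) (Nat.mul_ne_zero hm hn) _ hmem
    have e1 : (a ^ n * (γ ^ n, b) ^ k).1 = (a.1 * γ ^ k) ^ n := by
      change a.1 ^ n * (γ ^ n) ^ k = _
      rw [mul_pow, ← zpow_natCast γ n, ← zpow_natCast (γ ^ k) n, ← zpow_mul, ← zpow_mul,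
        mul_comm (n : ℤ) k]
    have e2 : (a ^ n * (γ ^ n, b) ^ k).2 = (a.2 * δ ^ k) ^ n := by
      change a.2 ^ n * b ^ k = _
      rw [← hδ, mul_pow, ← zpow_natCast δ n, ← zpow_natCast (δ ^ k) n, ← zpow_mul, ← zpow_mul,
        mul_comm (n : ℤ) k]
    rw [e1, e2] at h1
    have e3 : ∀ c x : Γ, c ^ (m * n) = x ^ n ↔ c ^ m = x := fun c x => by
      rw [pow_mul]
      exact pow_left_inj hn
    have e4 : ∀ c x : Δ, c ^ (m * n) = x ^ n ↔ c ^ m = x := fun c x => by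
      rw [pow_mul]
      exact pow_left_inj hn
    simp only [e3, e4] at h1
    exact h1

/-- the case where no power of `γ` is in the domain, given a solution of all conditions -/
theorem step_tr {t : Γ} {s : Δ} (ht : ZG t) {Λ : Subgroup (Γ × Δ)}
    (hΛ : PIso Λ) (hts : (t, s) ∈ Λ) (γ : Γ) (δ : Δ)
    (h1 : ∀ a ∈ Λ, ∀ k : ℕ, k ≠ 0 →
      ((a.1 * γ ^ k ≤ 1 ↔ a.2 * δ ^ k ≤ 1) ∧ (1 ≤ a.1 * γ ^ k ↔ 1 ≤ a.2 * δ ^ k)))
    (h2 : ∀ n : ℕ, n ≠ 0 → ∀ j : ℕ, ((∃ b, γ = t ^ j * b ^ n) → ∃ b, δ = s ^ j * b ^ n)) :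
    ∃ Λ' : Subgroup (Γ × Δ), Λ ≤ Λ' ∧ PIso Λ' ∧ ∃ δ, (γ, δ) ∈ Λ' := by
  refine ⟨Λ ⊔ Subgroup.zpowers (γ, δ), le_sup_left, adjoin hΛ _ ?_ ?_, δ,
    (le_sup_right : Subgroup.zpowers (γ, δ) ≤ _) (Subgroup.mem_zpowers _)⟩
  · intro a ha k
    change a.1 * γ ^ k ≤ 1 ↔ a.2 * δ ^ k ≤ 1
    obtain ⟨k, rfl | rfl⟩ := k.eq_nat_or_neg
    · rw [zpow_natCast, zpow_natCast]
      rcases Nat.eq_zero_or_pos k with rfl | hk
      · rw [pow_zero, pow_zero, mul_one, mul_one]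
        exact hΛ.le a ha
      · exact (h1 a ha k hk.ne').1
    · rw [zpow_neg, zpow_neg, zpow_natCast, zpow_natCast]
      rcases Nat.eq_zero_or_pos k with rfl | hk
      · rw [pow_zero, pow_zero, inv_one, inv_one, mul_one, mul_one]
        exact hΛ.le a ha
      · have h3 := (h1 a⁻¹ (Λ.inv_mem ha) k hk.ne').2
        have e1 : 1 ≤ (a⁻¹).1 * γ ^ k ↔ a.1 * (γ ^ k)⁻¹ ≤ 1 := by
          rw [Prod.fst_inv, mul_inv_le_one_iff, ← inv_le_iff_one_le_mul', inv_inv]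
        have e2 : 1 ≤ (a⁻¹).2 * δ ^ k ↔ a.2 * (δ ^ k)⁻¹ ≤ 1 := by
          rw [Prod.snd_inv, mul_inv_le_one_iff, ← inv_le_iff_one_le_mul', inv_inv]
        rw [e1, e2] at h3
        exact h3
  · intro a ha k n hn
    change (∃ b, b ^ n = a.1 * γ ^ k) ↔ ∃ b, b ^ n = a.2 * δ ^ k
    obtain ⟨j, hj, β, hβ⟩ := ht.div n hn γ
    obtain ⟨β', hβ'⟩ := h2 n hn j ⟨β, hβ⟩
    have hm : a * (t, s) ^ ((j : ℤ) * k) ∈ Λ := Λ.mul_mem ha (Λ.zpow_mem hts _)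
    have h3 := hΛ.dvd n hn _ hm
    have e1 : (∃ b, b ^ n = a.1 * γ ^ k) ↔ ∃ b, b ^ n = (a * (t, s) ^ ((j : ℤ) * k)).1 := by
      have e : a.1 * γ ^ k = (a * (t, s) ^ ((j : ℤ) * k)).1 * (β ^ k) ^ n := by
        change _ = a.1 * t ^ ((j : ℤ) * k) * _
        rw [hβ, mul_zpow, ← zpow_natCast t j, ← zpow_mul, ← zpow_natCast β n, ← zpow_mul,
          ← zpow_natCast (β ^ k) n, ← zpow_mul, mul_comm k (n : ℤ), mul_assoc]
      rw [e]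
      constructor
      · rintro ⟨b, hb⟩
        refine ⟨b * (β ^ k)⁻¹, ?_⟩
        rw [mul_pow, hb, inv_pow, mul_inv_cancel_right]
      · rintro ⟨b, hb⟩
        refine ⟨b * β ^ k, ?_⟩
        rw [mul_pow, hb]
    have e2 : (∃ b, b ^ n = a.2 * δ ^ k) ↔ ∃ b, b ^ n = (a * (t, s) ^ ((j : ℤ) * k)).2 := by
      have e : a.2 * δ ^ k = (a * (t, s) ^ ((j : ℤ) * k)).2 * (β' ^ k) ^ n := by
        change _ = a.2 * s ^ ((j : ℤ) * k) * _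
        rw [hβ', mul_zpow, ← zpow_natCast s j, ← zpow_mul, ← zpow_natCast β' n, ← zpow_mul,
          ← zpow_natCast (β' ^ k) n, ← zpow_mul, mul_comm k (n : ℤ), mul_assoc]
      rw [e]
      constructor
      · rintro ⟨b, hb⟩
        refine ⟨b * (β' ^ k)⁻¹, ?_⟩
        rw [mul_pow, hb, inv_pow, mul_inv_cancel_right]
      · rintro ⟨b, hb⟩
        refine ⟨b * β' ^ k, ?_⟩
        rw [mul_pow, hb]
    rw [e1, e2]
    exact h3

omit [IsOrderedMonoid Γ] [IsOrderedMonoid Δ] in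
/-- from one step to countably many -/
theorem iterate {x : Γ × Δ}
    (hstep : ∀ Λ : Subgroup (Γ × Δ), PIso Λ → x ∈ Λ → ∀ γ : Γ,
      ∃ Λ' : Subgroup (Γ × Δ), Λ ≤ Λ' ∧ PIso Λ' ∧ ∃ δ, (γ, δ) ∈ Λ')
    (Λ : Subgroup (Γ × Δ)) (hΛ : PIso Λ) (hx : x ∈ Λ) (C : Set Γ) (hC : C.Countable) :
    ∃ Λ' : Subgroup (Γ × Δ), Λ ≤ Λ' ∧ PIso Λ' ∧ ∀ γ ∈ C, ∃ δ, (γ, δ) ∈ Λ' := by
  classical
  rcases C.eq_empty_or_nonempty with rfl | hne
  · exact ⟨Λ, le_rfl, hΛ, fun γ hγ => absurd hγ (Set.notMem_empty _)⟩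
  obtain ⟨c, rfl⟩ := hC.exists_eq_range hne
  let P := {L : Subgroup (Γ × Δ) // PIso L ∧ x ∈ L}
  have hs : ∀ (n : ℕ) (L : P), ∃ L' : P, L.1 ≤ L'.1 ∧ ∃ δ, (c n, δ) ∈ L'.1 := by
    intro n L
    obtain ⟨L', h1, h2, h3⟩ := hstep L.1 L.2.1 L.2.2 (c n)
    exact ⟨⟨L', h2, h1 L.2.2⟩, h1, h3⟩
  choose F hF1 hF2 using hs
  let S : ℕ → P := fun n => Nat.rec ⟨Λ, hΛ, hx⟩ (fun n L => F n L) n
  have hSs : ∀ n, S (n + 1) = F n (S n) := fun n => rfl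
  have hmono : Monotone fun n => (S n).1 := by
    apply monotone_nat_of_le_succ
    intro n
    rw [hSs]
    exact hF1 n (S n)
  have hdir : Directed (· ≤ ·) fun n => (S n).1 := hmono.directed_le
  have hmem : ∀ y, y ∈ (⨆ n, (S n).1) ↔ ∃ n, y ∈ (S n).1 := fun y =>
    Subgroup.mem_iSup_of_directed hdir
  refine ⟨⨆ n, (S n).1, ?_, ⟨?_, ?_, ?_⟩, ?_⟩
  · exact le_iSup (fun n => (S n).1) 0
  · have h1 : ((⨆ n, (S n).1 : Subgroup (Γ × Δ)) : Set (Γ × Δ)) =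
        ⋃ n, ((S n).1 : Set (Γ × Δ)) := by
      ext y
      rw [SetLike.mem_coe, hmem, Set.mem_iUnion]
      rfl
    rw [h1]
    exact Set.countable_iUnion fun n => (S n).2.1.cnt
  · intro y hy
    obtain ⟨n, hn⟩ := (hmem y).1 hy
    exact (S n).2.1.le y hn
  · intro m hm y hy
    obtain ⟨n, hn⟩ := (hmem y).1 hy
    exact (S n).2.1.dvd m hm y hn
  · rintro _ ⟨n, rfl⟩
    obtain ⟨δ, hδ⟩ := hF2 n (S n)
    refine ⟨δ, (hmem _).2 ⟨n + 1, ?_⟩⟩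
    rw [hSs]
    exact hδ

end abs

theorem ev_iff {P : Prop} {Q : ℕ → Prop} :
    (P ↔ ∀ᶠ l in ((hyperfilter ℕ : Ultrafilter ℕ) : Filter ℕ), Q l) ↔
      ∀ᶠ l in ((hyperfilter ℕ : Ultrafilter ℕ) : Filter ℕ), (P ↔ Q l) := by
  constructor
  · intro h
    by_cases hP : P
    · filter_upwards [h.1 hP] with l hl
      exact ⟨fun _ => hl, fun _ => hP⟩
    · have h1 : ¬ ∀ᶠ l in ((hyperfilter ℕ : Ultrafilter ℕ) : Filter ℕ), Q l := fun h2 => hP (h.2 h2)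
      rw [← Ultrafilter.eventually_not] at h1
      filter_upwards [h1] with l hl
      exact ⟨fun h => absurd h hP, fun h => absurd h hl⟩
  · intro h
    constructor
    · intro hP
      filter_upwards [h] with l hl
      exact hl.1 hP
    · intro hQ
      obtain ⟨l, hl1, hl2⟩ := (h.and hQ).exists
      exact hl1.2 hl2


section conc

variable {p : ℕ} [Fact p.Prime] {N : Type} [Field N] {τ : P1 p →+* N}

omit [Fact p.Prime] in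
theorem up_VO (g : ℕ → N) : VO (((diag N).comp τ) X) (cl N g) ↔
    ∀ᶠ l in ((hyperfilter ℕ : Ultrafilter ℕ) : Filter ℕ), VO (τ X) (g l) := VO_cl (τ X) g

theorem vu_le_one {M : Type} [Field M] {σ : P1 p →+* M} (hM : Mdl p σ) (x : M) (hx : x ≠ 0) :
    hM.vu x hx ≤ 1 ↔ VO (σ X) x := by
  rw [← Units.val_le_val]
  exact hM.fv_le_one x

theorem one_le_vu {M : Type} [Field M] {σ : P1 p →+* M} (hM : Mdl p σ) (x : M) (hx : x ≠ 0) :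
    1 ≤ hM.vu x hx ↔ VO (σ X) x⁻¹ := by
  rw [← vu_le_one hM x⁻¹ (inv_ne_zero hx)]
  have h : hM.vu x⁻¹ (inv_ne_zero hx) = (hM.vu x hx)⁻¹ := by
    apply Units.ext
    rw [Units.val_inv_eq_inv_val]
    exact map_inv₀ hM.fv x
  rw [h, inv_le_one']

omit [Fact p.Prime] in
theorem vu_mul_pow {M : Type} [Field M] {σ : P1 p →+* M} (hM : Mdl p σ) (a x : M) (ha : a ≠ 0)
    (hx : x ≠ 0) (k : ℕ) :
    hM.vu a ha * hM.vu x hx ^ k = hM.vu (a * x ^ k) (mul_ne_zero ha (pow_ne_zero k hx)) := by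
  apply Units.ext
  rw [Units.val_mul, Units.val_pow_eq_pow_val]
  change hM.fv a * hM.fv x ^ k = hM.fv (a * x ^ k)
  rw [map_mul, map_pow]

theorem vu_eq_iff {M : Type} [Field M] {σ : P1 p →+* M} (hM : Mdl p σ) (a b : M) (ha : a ≠ 0)
    (hb : b ≠ 0) : hM.vu a ha = hM.vu b hb ↔ VO (σ X) (a / b) ∧ VO (σ X) (b / a) := by
  have h1 : hM.vu a ha = hM.vu b hb ↔ hM.fv a = hM.fv b := by
    rw [← Units.val_inj]
    rfl
  have hb' : hM.fv b ≠ 0 := (Valuation.ne_zero_iff _).2 hb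
  have ha' : hM.fv a ≠ 0 := (Valuation.ne_zero_iff _).2 ha
  rw [h1, ← hM.fv_le_one, ← hM.fv_le_one, map_div₀, map_div₀,
    div_le_one₀ (zero_lt_iff.2 hb'), div_le_one₀ (zero_lt_iff.2 ha')]
  exact le_antisymm_iff

end conc

end ZV

open ZV

/-- all conditions at once -/
theorem zg_sat {Γ : Type} [CommGroup Γ] [LinearOrder Γ] [IsOrderedMonoid Γ] {p : ℕ}
    [Fact p.Prime] {N : Type} [Field N] {τ : P1 p →+* N} (hN : MdlV p τ) {t : Γ} (ht : ZG t)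
    (Λ : Subgroup (Γ × (mdl_up hN.toMdl).VGˣ)) (hΛ : PIso Λ)
    (hts : (t, (mdl_up hN.toMdl).vu (((diag N).comp τ) X) (mdl_up hN.toMdl).t_ne) ∈ Λ) (γ : Γ)
    (hγ : ∀ n : ℕ, n ≠ 0 → ∀ δ, (γ ^ n, δ) ∉ Λ) :
    ∃ δ : (mdl_up hN.toMdl).VGˣ, (∀ a ∈ Λ, ∀ k : ℕ, k ≠ 0 →
        ((a.1 * γ ^ k ≤ 1 ↔ a.2 * δ ^ k ≤ 1) ∧ (1 ≤ a.1 * γ ^ k ↔ 1 ≤ a.2 * δ ^ k))) ∧
      ∀ n : ℕ, n ≠ 0 → ∀ j : ℕ, ((∃ b, γ = t ^ j * b ^ n) →
        ∃ b, δ = (mdl_up hN.toMdl).vu (((diag N).comp τ) X) (mdl_up hN.toMdl).t_ne ^ j * b ^ n) := by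
  classical
  have hU := mdl_up hN.toMdl
  have hs : ZG ((mdl_up hN.toMdl).vu (((diag N).comp τ) X) (mdl_up hN.toMdl).t_ne) :=
    (mdlV_up hN).zg
  set s := (mdl_up hN.toMdl).vu (((diag N).comp τ) X) (mdl_up hN.toMdl).t_ne with hs'
  obtain ⟨a, ha⟩ := hΛ.cnt.exists_eq_range ⟨1, Λ.one_mem⟩
  have haΛ : ∀ i, a i ∈ Λ := fun i => by
    have : a i ∈ (Λ : Set _) := by
      rw [ha]
      exact ⟨i, rfl⟩
    exact this
  have hrep : ∀ i, ∃ (α : ℕ → N) (h : cl N α ≠ 0), (mdl_up hN.toMdl).vu (cl N α) h = (a i).2 := by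
    intro i
    obtain ⟨x, hx, h⟩ := (mdl_up hN.toMdl).vu_surj (a i).2
    obtain ⟨α, rfl⟩ := cl_surj x
    exact ⟨α, hx, h⟩
  choose α hα0 hα using hrep
  let C1 : ℕ → ℕ → ℕ → N → Prop := fun i k l d =>
    ((a i).1 * γ ^ (k + 1) ≤ 1 ↔ VO (τ X) (α i l * d ^ (k + 1))) ∧
      (1 ≤ (a i).1 * γ ^ (k + 1) ↔ VO (τ X) (α i l * d ^ (k + 1))⁻¹)
  let C2 : ℕ → ℕ → ℕ → N → Prop := fun n j l d => (∃ b, γ = t ^ j * b ^ (n + 1)) →
    ∃ y : N, y ≠ 0 ∧ VO (τ X) (d / (τ X ^ j * y ^ (n + 1))) ∧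
      VO (τ X) ((τ X ^ j * y ^ (n + 1)) / d)
  let CC : ℕ → ℕ → N → Prop := fun i l d => d ≠ 0 ∧ C1 i.unpair.1 i.unpair.2 l d ∧
    C2 i.unpair.1 i.unpair.2 l d
  -- translation of the conditions
  have tr1 : ∀ (D : ℕ → N) (hD : cl N D ≠ 0) (i k : ℕ),
      (((a i).1 * γ ^ (k + 1) ≤ 1 ↔ (a i).2 * (mdl_up hN.toMdl).vu (cl N D) hD ^ (k + 1) ≤ 1) ∧
        (1 ≤ (a i).1 * γ ^ (k + 1) ↔ 1 ≤ (a i).2 * (mdl_up hN.toMdl).vu (cl N D) hD ^ (k + 1))) ↔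
      ∀ᶠ l in ((hyperfilter ℕ : Ultrafilter ℕ) : Filter ℕ), C1 i k l (D l) := by
    intro D hD i k
    rw [← hα i, vu_mul_pow, vu_le_one, one_le_vu, ← map_pow, ← map_mul, cl_inv, up_VO, up_VO]
    exact (and_congr ev_iff ev_iff).trans eventually_and.symm
  have hX : ((diag N).comp τ) X = cl N (fun _ => τ X) := rfl
  have tr2 : ∀ (D : ℕ → N) (hD : cl N D ≠ 0) (n j : ℕ),
      ((∃ b, γ = t ^ j * b ^ (n + 1)) →
        ∃ b, (mdl_up hN.toMdl).vu (cl N D) hD = s ^ j * b ^ (n + 1)) ↔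
      ∀ᶠ l in ((hyperfilter ℕ : Ultrafilter ℕ) : Filter ℕ), C2 n j l (D l) := by
    intro D hD n j
    have hval : ∀ (Y : ℕ → N) (hY : cl N Y ≠ 0),
        (mdl_up hN.toMdl).vu (cl N D) hD = s ^ j * (mdl_up hN.toMdl).vu (cl N Y) hY ^ (n + 1) ↔
        ∀ᶠ l in ((hyperfilter ℕ : Ultrafilter ℕ) : Filter ℕ),
          VO (τ X) (D l / (τ X ^ j * Y l ^ (n + 1))) ∧
            VO (τ X) ((τ X ^ j * Y l ^ (n + 1)) / D l) := by
      intro Y hY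
      have hXj : ((diag N).comp τ) X ^ j ≠ 0 := pow_ne_zero _ (mdl_up hN.toMdl).t_ne
      have e1 : s ^ j = (mdl_up hN.toMdl).vu (((diag N).comp τ) X ^ j) hXj := by
        apply Units.ext
        rw [Units.val_pow_eq_pow_val]
        exact (map_pow _ _ _).symm
      rw [e1, vu_mul_pow, vu_eq_iff, hX, ← map_pow, ← map_pow, ← map_mul, cl_div, cl_div]
      exact (and_congr (VO_cl (τ X) _) (VO_cl (τ X) _)).trans eventually_and.symm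
    by_cases hP : ∃ b, γ = t ^ j * b ^ (n + 1)
    · constructor
      · intro h
        obtain ⟨b, hb⟩ := h hP
        obtain ⟨y, hy, rfl⟩ := (mdl_up hN.toMdl).vu_surj b
        obtain ⟨Y, rfl⟩ := cl_surj y
        have h1 := (hval Y hy).1 hb
        have h2 := (cl_ne_zero_iff Y).1 hy
        filter_upwards [h1, h2] with l hl1 hl2
        exact fun _ => ⟨Y l, hl2, hl1⟩
      · intro h _
        have h1 : ∀ᶠ l in ((hyperfilter ℕ : Ultrafilter ℕ) : Filter ℕ), ∃ y : N, y ≠ 0 ∧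
            VO (τ X) (D l / (τ X ^ j * y ^ (n + 1))) ∧
              VO (τ X) ((τ X ^ j * y ^ (n + 1)) / D l) := h.mono fun l hl => hl hP
        obtain ⟨Y, hY⟩ := h1.choice
        have hY0 : cl N Y ≠ 0 := (cl_ne_zero_iff Y).2 (hY.mono fun l hl => hl.1)
        exact ⟨_, (hval Y hY0).2 (hY.mono fun l hl => hl.2)⟩
    · exact ⟨fun _ => Eventually.of_forall fun l h => absurd h hP, fun _ h => absurd h hP⟩
  have hfin : ∀ m : ℕ, ∀ᶠ l in ((hyperfilter ℕ : Ultrafilter ℕ) : Filter ℕ),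
      ∃ d : N, ∀ i < m, CC i l d := by
    intro m
    obtain ⟨δ, hδ1, hδ2⟩ := zg_step ht hs Λ hΛ hts γ hγ ((Finset.range m).image a)
      (fun x hx => by
        obtain ⟨i, _, rfl⟩ := Finset.mem_image.1 hx
        exact haΛ i) (m + 1)
    obtain ⟨x, hx, rfl⟩ := (mdl_up hN.toMdl).vu_surj δ
    obtain ⟨D, rfl⟩ := cl_surj x
    have h1 : ∀ᶠ l in ((hyperfilter ℕ : Ultrafilter ℕ) : Filter ℕ),
        ∀ i ∈ Finset.range m, CC i l (D l) := by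
      rw [eventually_all_finset]
      intro i hi
      rw [Finset.mem_range] at hi
      have hl1 : i.unpair.1 ≤ i := Nat.unpair_left_le i
      have hl2 : i.unpair.2 ≤ i := Nat.unpair_right_le i
      have c1 := (tr1 D hx i.unpair.1 i.unpair.2).1 (hδ1 _ (Finset.mem_image.2
        ⟨i.unpair.1, Finset.mem_range.2 (by omega), rfl⟩) _ (by omega) (by omega))
      have c2 := (tr2 D hx i.unpair.1 i.unpair.2).1
        (hδ2 (i.unpair.1 + 1) (by omega) (by omega) i.unpair.2)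
      have c0 := (cl_ne_zero_iff D).1 hx
      filter_upwards [c0, c1, c2] with l h0 h1 h2
      exact ⟨h0, h1, h2⟩
    exact h1.mono fun l hl => ⟨D l, fun i hi => hl i (Finset.mem_range.2 hi)⟩
  obtain ⟨D, hD⟩ := exists_diag CC hfin
  have hD0 : cl N D ≠ 0 := (cl_ne_zero_iff D).2 ((hD 0).mono fun l hl => hl.1)
  refine ⟨(mdl_up hN.toMdl).vu (cl N D) hD0, ?_, ?_⟩
  · intro x hx k hk
    have hx' : x ∈ Set.range a := by
      rw [← ha]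
      exact hx
    obtain ⟨i, rfl⟩ := hx'
    obtain ⟨k, rfl⟩ : ∃ k', k = k' + 1 := ⟨k - 1, by omega⟩
    refine (tr1 D hD0 i k).2 ((hD (Nat.pair i k)).mono fun l hl => ?_)
    have := hl.2.1
    rw [Nat.unpair_pair] at this
    exact this
  · intro n hn j
    obtain ⟨n, rfl⟩ : ∃ n', n = n' + 1 := ⟨n - 1, by omega⟩
    refine (tr2 D hD0 n j).2 ((hD (Nat.pair n j)).mono fun l hl => ?_)
    have := hl.2.2
    rw [Nat.unpair_pair] at this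
    exact this

/-- extension of a partial isomorphism to a countable set of values -/
theorem piso_extend {p : ℕ} [Fact p.Prime] {M N : Type} [Field M] [Field N] {σ : P1 p →+* M}
    {τ : P1 p →+* N} (hM : MdlV p σ) (hN : MdlV p τ)
    (Λ : Subgroup (hM.toMdl.VGˣ × (mdl_up hN.toMdl).VGˣ)) (hΛ : PIso Λ)
    (hts : VIn hM.toMdl (mdl_up hN.toMdl) Λ (σ X) (diag N (τ X)))
    (C : Set hM.toMdl.VGˣ) (hC : C.Countable) :
    ∃ Λ' : Subgroup (hM.toMdl.VGˣ × (mdl_up hN.toMdl).VGˣ), Λ ≤ Λ' ∧ PIso Λ' ∧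
      ∀ γ ∈ C, ∃ δ, (γ, δ) ∈ Λ' := by
  obtain ⟨h1, h2, hts⟩ := hts
  refine iterate (x := (hM.toMdl.vu (σ X) h1, (mdl_up hN.toMdl).vu (diag N (τ X)) h2)) ?_ Λ hΛ
    hts C hC
  intro Λ hΛ hts γ
  by_cases hγ : ∃ n : ℕ, n ≠ 0 ∧ ∃ δ, (γ ^ n, δ) ∈ Λ
  · obtain ⟨n, hn, b, hb⟩ := hγ
    exact step_alg hΛ γ hn hb
  · push Not at hγ
    obtain ⟨δ, hδ1, hδ2⟩ := zg_sat hN (t := hM.toMdl.vu (σ X) h1) hM.zg Λ hΛ hts γ hγ
    exact step_tr hM.zg hΛ hts γ δ hδ1 hδ2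

end BF80
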