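import Pool.Agent.BF80.StarV
import Pool.Agent.BF80.BackForthV
import Pool.Agent.BF80.ZG2
import Pool.Agent.BF80.UpV
import Pool.Agent.BF80.AxiomsV
import Pool.Agent.BF80.CompileV
import Pool.Agent.BF80.FinalV

/-!
# The theory of the one-dimensional fragment with divisibility is decidable
-/

set_option maxSynthPendingDepth 10

open Polynomial Filter

namespace BF80

open FT80

/-- all models satisfy the same formulas of the fragment -/
theorem vf_equiv {p : ℕ} [Fact p.Prime] {M N : Type} [Field M] [Field N] {σ : P1 p →+* M}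
    {τ : P1 p →+* N} (hM : MdlV p σ) (hN : MdlV p τ) (φ : VFm) :
    φ.Holds (σ X) (DV (σ X)) (fun _ => (0 : M)) ↔
      φ.Holds (τ X) (DV (τ X)) (fun _ => (0 : N)) :=
  vf_equiv_of (fun _ _ _ _ _ _ hM hN Λ h1 h2 C hC => piso_extend hM hN Λ h1 h2 C hC)
    (fun _ _ _ _ _ _ hM hN Λ h1 h2 x hx hd B hB => starV hM hN Λ h1 h2 x hx hd B hB)
    (fun _ _ _ h => mdlV_up h) (fun _ _ t f φ => losV t f φ) hM hN φ

theorem vfm_main (p : ℕ) [Fact p.Prime] :
    (∃ D : List ℕ → Bool, Computable D ∧ ∀ φ : VFm, (D φ.code = true ↔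
      φ.Holds (HahnSeries.single 1 1 : LaurentSeries (ZMod p))
        (fun a b => ∃ c : PowerSeries (ZMod p), (c : LaurentSeries (ZMod p)) * a = b)
        (fun _ => 0))) ∧
    (∃ D : List ℕ → Bool, Computable D ∧ ∀ φ : VFm, (D φ.code = true ↔
      φ.Holds (PowerSeries.X : PowerSeries (ZMod p)) (fun a b => a ∣ b) (fun _ => 0))) :=
  vfm_main_of p exists_compileV fun _ _ _ h φ => vf_equiv h mdlV_KK φ

end BF80
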