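import Pool.Agent.BF80.Defs2
import Pool.Agent.FT80.Tools

/-!
# Basic facts on the models, part 0
-/

set_option maxSynthPendingDepth 10

open Polynomial Filter

namespace BF80

open FT80

variable {p : ℕ} [hp : Fact p.Prime]

section mdl
variable {M : Type*} [Field M] {σ : P1 p →+* M}

theorem VO_zero (t : M) : VO t 0 := ⟨0, by ring⟩

theorem VO.neg {t x : M} (h : VO t x) : VO t (-x) := by
  obtain ⟨y, hy⟩ := h
  exact ⟨y, by rw [hy]; ring⟩

theorem VO.map {N : Type*} [Field N] (φ : M →+* N) {t x : M} (h : VO t x) : VO (φ t) (φ x) := by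
  obtain ⟨y, hy⟩ := h
  exact ⟨φ y, by rw [← map_pow, ← map_add, hy, map_mul, map_pow]⟩

theorem Mdl.t_ne (hM : Mdl p σ) : σ X ≠ 0 := by
  intro h
  apply hM.tinv
  rw [h, inv_zero]
  exact VO_zero _

theorem Mdl.sub (hM : Mdl p σ) {x y : M} (hx : VO (σ X) x) (hy : VO (σ X) y) :
    VO (σ X) (x - y) := by
  rw [sub_eq_add_neg]
  exact hM.add _ _ hx hy.neg

/-- the valuation ring as a subring -/
def Mdl.OV (hM : Mdl p σ) : Subring M where
  carrier := {x | VO (σ X) x}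
  mul_mem' := fun ha hb => hM.mul _ _ ha hb
  one_mem' := hM.one
  add_mem' := fun ha hb => hM.add _ _ ha hb
  zero_mem' := VO_zero _
  neg_mem' := fun ha => ha.neg

theorem Mdl.mem_OV (hM : Mdl p σ) {x : M} : x ∈ hM.OV ↔ VO (σ X) x := Iff.rfl

theorem Mdl.VO_t (hM : Mdl p σ) : VO (σ X) (σ X) :=
  (hM.inv (σ X)).resolve_right hM.tinv

theorem Mdl.VO_pow (hM : Mdl p σ) {x : M} (hx : VO (σ X) x) (n : ℕ) : VO (σ X) (x ^ n) :=
  hM.OV.pow_mem hx n

theorem Mdl.VO_C (hM : Mdl p σ) (a : ZMod p) : VO (σ X) (σ (C a)) := by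
  haveI : NeZero p := ⟨hp.out.ne_zero⟩
  have h1 : (C a : P1 p) = ((a.val : ℕ) : P1 p) := by
    rw [← map_natCast (C : ZMod p →+* P1 p), ZMod.natCast_zmod_val]
  rw [h1, map_natCast]
  exact natCast_mem hM.OV _

theorem Mdl.VO_σ (hM : Mdl p σ) (f : P1 p) : VO (σ X) (σ f) := by
  induction f using Polynomial.induction_on' with
  | add f g hf hg =>
    rw [map_add]
    exact hM.add _ _ hf hg
  | monomial n a =>
    rw [← C_mul_X_pow_eq_monomial, map_mul, map_pow]
    exact hM.mul _ _ (hM.VO_C a) (hM.VO_pow hM.VO_t n)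

/-- `1 + t z` is a unit -/
theorem Mdl.inv_one_add (hM : Mdl p σ) {z : M} (hz : VO (σ X) z) :
    1 + σ X * z ≠ 0 ∧ VO (σ X) (1 + σ X * z)⁻¹ := by
  have ht := hM.t_ne
  have h0 : ¬ VO (σ X) ((1 + σ X * z) / σ X) := by
    intro h
    apply hM.tinv
    have h1 := hM.sub h hz
    have h2 : (1 + σ X * z) / σ X - z = (σ X)⁻¹ := by field_simp; ring
    rwa [h2] at h1
  have hne : 1 + σ X * z ≠ 0 := by
    intro h
    apply h0
    rw [h, zero_div]
    exact VO_zero _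
  refine ⟨hne, ?_⟩
  have h1 : VO (σ X) (σ X / (1 + σ X * z)) := by
    rcases hM.inv ((1 + σ X * z) / σ X) with h | h
    · exact (h0 h).elim
    · rwa [inv_div] at h
  have h2 : (1 + σ X * z)⁻¹ = 1 - σ X / (1 + σ X * z) * z := by field_simp; ring
  rw [h2]
  exact hM.sub hM.one (hM.mul _ _ h1 hz)

theorem Mdl.inv_C (hM : Mdl p σ) {a : ZMod p} (ha : a ≠ 0) :
    σ (C a) * σ (C a⁻¹) = 1 := by
  rw [← map_mul, ← C_mul, mul_inv_cancel₀ ha, C_1, map_one]

/-- `f(0) ≠ 0` implies that `f` is a unit -/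
theorem Mdl.unit_σ (hM : Mdl p σ) {f : P1 p} (hf : f.coeff 0 ≠ 0) :
    σ f ≠ 0 ∧ VO (σ X) (σ f)⁻¹ := by
  obtain ⟨g, hg⟩ : X ∣ f - C (f.coeff 0) := by
    rw [X_dvd_iff, coeff_sub, coeff_C_zero, sub_self]
  have h1 := hM.inv_C hf
  have hz := hM.mul _ _ (hM.VO_C (f.coeff 0)⁻¹) (hM.VO_σ g)
  obtain ⟨h2, h3⟩ := hM.inv_one_add hz
  have h4 : σ f = σ (C (f.coeff 0)) * (1 + σ X * (σ (C (f.coeff 0)⁻¹) * σ g)) := by
    have h5 : f = C (f.coeff 0) + X * g := by rw [← hg]; ring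
    conv_lhs => rw [h5]
    rw [map_add, map_mul]
    linear_combination (-(σ X * σ g)) * h1
  have h6 : σ (C (f.coeff 0)) ≠ 0 := by
    intro h
    rw [h, zero_mul] at h1
    exact zero_ne_one h1
  refine ⟨by rw [h4]; exact mul_ne_zero h6 h2, ?_⟩
  rw [h4, mul_inv]
  refine hM.mul _ _ ?_ h3
  rw [inv_eq_of_mul_eq_one_right h1]
  exact hM.VO_C _

theorem Mdl.dvd_iff (hM : Mdl p σ) (f : P1 p) (n : ℕ) :
    VO (σ X) (σ f / σ X ^ n) ↔ X ^ n ∣ f := by
  have ht := hM.t_ne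
  constructor
  · induction n with
    | zero => intro _; rw [pow_zero]; exact one_dvd _
    | succ n ih =>
      intro h
      have h1 : VO (σ X) (σ f / σ X ^ n) := by
        have h2 := hM.mul _ _ hM.VO_t h
        have h3 : σ X * (σ f / σ X ^ (n + 1)) = σ f / σ X ^ n := by
          rw [pow_succ]
          field_simp
        rwa [h3] at h2
      obtain ⟨g, rfl⟩ := ih h1
      rw [pow_succ]
      refine mul_dvd_mul_left _ ?_
      rw [X_dvd_iff]
      by_contra hg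
      obtain ⟨h4, h5⟩ := hM.unit_σ hg
      apply hM.tinv
      have h6 := hM.mul _ _ h h5
      have h7 : σ (X ^ n * g) / σ X ^ (n + 1) * (σ g)⁻¹ = (σ X)⁻¹ := by
        rw [map_mul, map_pow, pow_succ]
        field_simp
      rwa [h7] at h6
  · rintro ⟨g, rfl⟩
    rw [map_mul, map_pow, mul_div_cancel_left₀ _ (pow_ne_zero n ht)]
    exact hM.VO_σ g

theorem Mdl.σ_injective (hM : Mdl p σ) : Function.Injective σ := by
  rw [injective_iff_map_eq_zero]
  intro f hf
  by_contra h0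
  have h1 : ∀ n : ℕ, X ^ n ∣ f := by
    intro n
    rw [← hM.dvd_iff, hf, zero_div]
    exact VO_zero _
  have h2 := h1 (f.natDegree + 1)
  have h3 := Polynomial.natDegree_le_of_dvd h2 h0
  rw [natDegree_X_pow] at h3
  omega

theorem Mdl.div_t_or_inv (hM : Mdl p σ) {x : M} (hx : VO (σ X) x) :
    VO (σ X) (x / σ X) ∨ (x ≠ 0 ∧ VO (σ X) x⁻¹) := by
  have ht := hM.t_ne
  obtain ⟨a, ha, z, hz⟩ := hM.res x hx
  have hV : VO (σ X) ((x - (a : ℕ)) / σ X) := ⟨z, hz⟩
  by_cases h0 : ((a : ℕ) : ZMod p) = 0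
  · left
    have h1 : ((a : ℕ) : M) = 0 := by
      have h2 : ((a : ℕ) : P1 p) = C ((a : ℕ) : ZMod p) := (map_natCast C a).symm
      have h3 : ((a : ℕ) : M) = σ ((a : ℕ) : P1 p) := (map_natCast σ a).symm
      rw [h3, h2, h0, C_0, map_zero]
    rwa [h1, sub_zero] at hV
  · right
    have h3 : ((a : ℕ) : M) = σ (C ((a : ℕ) : ZMod p)) := by
      rw [map_natCast, map_natCast]
    rw [h3] at hV
    have h4 := hM.inv_C h0
    set α := σ (C ((a : ℕ) : ZMod p)) with hα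
    set β := σ (C ((a : ℕ) : ZMod p)⁻¹) with hβ
    obtain ⟨h5, h6⟩ := hM.inv_one_add (hM.mul _ _ (hM.VO_C _ : VO (σ X) β) hV)
    have h7 : x = α * (1 + σ X * (β * ((x - α) / σ X))) := by
      field_simp
      linear_combination (α - x) * h4
    have hα0 : α ≠ 0 := by
      intro h
      rw [h, zero_mul] at h4
      exact zero_ne_one h4
    refine ⟨by rw [h7]; exact mul_ne_zero hα0 h5, ?_⟩
    rw [h7, mul_inv]
    refine hM.mul _ _ ?_ h6
    rw [inv_eq_of_mul_eq_one_right h4]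
    exact hM.VO_C _

/-! ### the coarse ring -/

theorem Mdl.mono (hM : Mdl p σ) {x : M} {m n : ℕ} (hmn : m ≤ n) (h : VO (σ X) (σ X ^ m * x)) :
    VO (σ X) (σ X ^ n * x) := by
  have h1 : σ X ^ n * x = σ X ^ (n - m) * (σ X ^ m * x) := by
    rw [← mul_assoc, ← pow_add]
    congr 2
    omega
  rw [h1]
  exact hM.mul _ _ (hM.VO_pow hM.VO_t _) h

/-- the coarse valuation ring -/
noncomputable def Mdl.OC (hM : Mdl p σ) : ValuationSubring M where
  carrier := {x | ∃ n : ℕ, VO (σ X) (σ X ^ n * x)}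
  mul_mem' := by
    rintro x y ⟨m, hm⟩ ⟨n, hn⟩
    refine ⟨m + n, ?_⟩
    have h1 : σ X ^ (m + n) * (x * y) = (σ X ^ m * x) * (σ X ^ n * y) := by ring
    rw [h1]
    exact hM.mul _ _ hm hn
  one_mem' := ⟨0, by rw [pow_zero, mul_one]; exact hM.one⟩
  add_mem' := by
    rintro x y ⟨m, hm⟩ ⟨n, hn⟩
    refine ⟨m + n, ?_⟩
    rw [mul_add]
    exact hM.add _ _ (hM.mono (by omega) hm) (hM.mono (by omega) hn)
  zero_mem' := ⟨0, by rw [mul_zero]; exact VO_zero _⟩
  neg_mem' := by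
    rintro x ⟨m, hm⟩
    exact ⟨m, by rw [mul_neg]; exact hm.neg⟩
  mem_or_inv_mem' := by
    intro x
    rcases hM.inv x with h | h
    · exact Or.inl ⟨0, by rw [pow_zero, one_mul]; exact h⟩
    · exact Or.inr ⟨0, by rw [pow_zero, one_mul]; exact h⟩

/-- the coarse valuation -/
noncomputable abbrev Mdl.vc (hM : Mdl p σ) : Valuation M hM.OC.ValueGroup := hM.OC.valuation

theorem Mdl.mem_OC (hM : Mdl p σ) {x : M} : x ∈ hM.OC ↔ ∃ n : ℕ, VO (σ X) (σ X ^ n * x) := Iff.rfl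

theorem Mdl.OC_of_VO (hM : Mdl p σ) {x : M} (h : VO (σ X) x) : x ∈ hM.OC :=
  ⟨0, by rw [pow_zero, one_mul]; exact h⟩

theorem Mdl.t_inv_mem (hM : Mdl p σ) : (σ X)⁻¹ ∈ hM.OC :=
  ⟨1, by rw [pow_one, mul_inv_cancel₀ hM.t_ne]; exact hM.one⟩

theorem Mdl.vc_le_one (hM : Mdl p σ) {x : M} : hM.vc x ≤ 1 ↔ x ∈ hM.OC :=
  hM.OC.valuation_le_one_iff x

theorem Mdl.vc_lt_one (hM : Mdl p σ) {x : M} :
    hM.vc x < 1 ↔ ∀ n : ℕ, VO (σ X) (x / σ X ^ n) := by
  have ht := hM.t_ne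
  rcases eq_or_ne x 0 with rfl | hx
  · constructor
    · intro _ n
      rw [zero_div]
      exact VO_zero _
    · intro _
      rw [map_zero]
      exact zero_lt_one
  have h1 : hM.vc x < 1 ↔ ¬ x⁻¹ ∈ hM.OC := by
    rw [← hM.vc_le_one, map_inv₀, ← not_le]
    have h2 : (0 : hM.OC.ValueGroup) < hM.vc x := zero_lt_iff.2 ((Valuation.ne_zero_iff _).2 hx)
    rw [inv_le_one₀ h2]
  rw [h1, hM.mem_OC]
  push Not
  constructor
  · intro h n
    rcases hM.inv (σ X ^ n * x⁻¹) with h2 | h2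
    · exact (h n h2).elim
    · rwa [mul_inv, inv_inv, mul_comm, ← div_eq_mul_inv] at h2
  · intro h n hn
    apply hM.tinv
    have h2 := hM.mul _ _ hn (h (n + 1))
    have h3 : σ X ^ n * x⁻¹ * (x / σ X ^ (n + 1)) = (σ X)⁻¹ := by
      rw [pow_succ]
      field_simp
    rwa [h3] at h2

theorem Mdl.vc_t (hM : Mdl p σ) : hM.vc (σ X) = 1 := by
  have h1 : hM.vc (σ X) ≤ 1 := hM.vc_le_one.2 (hM.OC_of_VO hM.VO_t)
  have h2 : hM.vc (σ X)⁻¹ ≤ 1 := hM.vc_le_one.2 hM.t_inv_mem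
  rw [map_inv₀] at h2
  have h3 : (0 : hM.OC.ValueGroup) < hM.vc (σ X) :=
    zero_lt_iff.2 ((Valuation.ne_zero_iff _).2 hM.t_ne)
  exact le_antisymm h1 ((inv_le_one₀ h3).1 h2)

/-! ### coarse Hensel lemma -/

/-- polynomials with coefficients of value at most one -/
def PV {Γ₀ : Type*} [LinearOrderedCommGroupWithZero Γ₀] (v : Valuation M Γ₀) :
    Subring (Polynomial M) where
  carrier := {G | ∀ i, v (G.coeff i) ≤ 1}
  mul_mem' := by
    intro a b ha hb i
    rw [coeff_mul]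
    refine v.map_sum_le (fun x _ => ?_)
    rw [map_mul]
    exact mul_le_one' (ha _) (hb _)
  one_mem' := by
    intro i
    rw [coeff_one]
    split_ifs
    · rw [map_one]
    · rw [map_zero]; exact zero_le_one
  add_mem' := by
    intro a b ha hb i
    rw [coeff_add]
    exact v.map_add_le (ha i) (hb i)
  zero_mem' := by
    intro i
    rw [coeff_zero, map_zero]
    exact zero_le_one
  neg_mem' := by
    intro a ha i
    rw [coeff_neg, Valuation.map_neg]
    exact ha i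

end mdl

theorem Mdl.hens_of_val {M Γ₀ : Type*} [Field M] [LinearOrderedCommGroupWithZero Γ₀]
    {σ : P1 p →+* M} (hM : Mdl p σ) (v : Valuation M Γ₀) (h1 : ∀ x, VO (σ X) x → v x ≤ 1)
    (h2 : v (σ X) = 1) (F : Polynomial M) (hF : ∀ i, v (F.coeff i) ≤ 1) (hF0 : v (F.eval 0) < 1)
    (hF1 : v (F.coeff 1) = 1) : ∃ y, v y < 1 ∧ F.eval y = 0 := by
  have ht := hM.t_ne
  have hlt : ∀ x, v x < 1 → VO (σ X) (x / σ X) := by
    intro x hx
    rcases hM.inv (x / σ X) with h | h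
    · exact h
    · rw [inv_div] at h
      have h3 := h1 _ h
      rw [map_div₀, h2] at h3
      rcases eq_or_ne x 0 with rfl | hx0
      · rw [zero_div]; exact VO_zero _
      · have h4 : (0 : Γ₀) < v x := zero_lt_iff.2 ((Valuation.ne_zero_iff _).2 hx0)
        rw [one_div, inv_le_one₀ h4] at h3
        exact absurd h3 (not_le.2 hx)
  set b := F.eval 0 with hb
  set d := F.coeff 1 with hd
  have hd0 : d ≠ 0 := by
    intro h
    rw [h, map_zero] at hF1
    exact zero_ne_one hF1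
  rcases eq_or_ne b 0 with hb0 | hb0
  · exact ⟨0, by rw [map_zero]; exact zero_lt_one, hb0⟩
  set F₂ := F.divX.divX with hF₂
  have hF₂c : ∀ i, F₂.coeff i = F.coeff (i + 2) := by
    intro i
    rw [hF₂, coeff_divX, coeff_divX]
  have hFdec : F = C b + C d * X + X ^ 2 * F₂ := by
    have e1 := F.divX_mul_X_add
    have e2 := F.divX.divX_mul_X_add
    rw [coeff_divX, zero_add, ← hd] at e2
    rw [coeff_zero_eq_eval_zero, ← hb] at e1
    rw [← e1, ← e2]
    ring
  set L : Polynomial M := C (-(b / d)) * (1 + X) with hL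
  have hvbd : v (b / d) < 1 := by rw [map_div₀, hF1, div_one]; exact hF0
  have hPC : ∀ z, v z ≤ 1 → C z ∈ PV v := by
    intro z hz i
    rw [coeff_C]
    split_ifs
    · exact hz
    · rw [map_zero]; exact zero_le_one
  have hPX : (X : Polynomial M) ∈ PV v := by
    intro i
    rw [coeff_X]
    split_ifs
    · rw [map_one]
    · rw [map_zero]; exact zero_le_one
  have hP1 : (1 + X : Polynomial M) ∈ PV v := add_mem (one_mem _) hPX
  have hLP : L ∈ PV v := mul_mem (hPC _ (by rw [Valuation.map_neg]; exact hvbd.le)) hP1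
  have hQ : F₂.comp L ∈ PV v := by
    rw [comp, eval₂_eq_sum_range]
    exact sum_mem (fun i _ => mul_mem (hPC _ (by rw [hF₂c]; exact hF _)) (pow_mem hLP _))
  set Q := (1 + X) ^ 2 * F₂.comp L with hQd
  have hQP : Q ∈ PV v := mul_mem (pow_mem hP1 _) hQ
  have hvc : v (b / d ^ 2) < 1 := by
    rw [map_div₀, map_pow, hF1, one_pow, div_one]; exact hF0
  set G : Polynomial M := X - C (b / d ^ 2) * Q with hG
  have hGF : F.comp L = C (-b) * G := by
    conv_lhs => rw [hFdec]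
    rw [add_comp, add_comp, mul_comp, mul_comp, C_comp, C_comp, X_comp, pow_comp, X_comp, hG, hQd]
    have e3 : C d * L = C (-b) * (1 + X) := by
      rw [hL, ← mul_assoc, ← C_mul]
      congr 2
      field_simp
    have e4 : L ^ 2 = C (b * (b / d ^ 2)) * (1 + X) ^ 2 := by
      rw [hL, mul_pow, ← C_pow]
      congr 2
      field_simp
    rw [e3, e4, C_mul, C_neg]
    ring
  have hw : ∀ i, VO (σ X) ((b / d ^ 2 * Q.coeff i) / σ X) := by
    intro i
    apply hlt
    rw [map_mul]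
    exact mul_lt_one_of_lt_of_le hvc (hQP i)
  have hGc : ∀ i, G.coeff i = (if i = 1 then 1 else 0) - b / d ^ 2 * Q.coeff i := by
    intro i
    rw [hG, coeff_sub, coeff_C_mul, coeff_X]
    congr 1
    simp [eq_comm]
  have hwV : ∀ i, VO (σ X) (b / d ^ 2 * Q.coeff i) := by
    intro i
    have := hM.mul _ _ hM.VO_t (hw i)
    rwa [mul_div_cancel₀ _ ht] at this
  obtain ⟨hu1, hu2⟩ := hM.inv_one_add ((hw 1).neg)
  have hu3 : 1 + σ X * -(b / d ^ 2 * Q.coeff 1 / σ X) = G.coeff 1 := by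
    rw [hGc, if_pos rfl]
    field_simp
    ring
  rw [hu3] at hu1 hu2
  obtain ⟨y, hy1, hy2⟩ := hM.hensel G (by
    intro i
    rw [hGc]
    refine hM.sub ?_ (hwV i)
    split_ifs
    · exact hM.one
    · exact VO_zero _) (by
    rw [hGc, if_neg (by norm_num), zero_sub, neg_div]
    exact (hw 0).neg) hu1 hu2
  refine ⟨-(b / d) * (1 + σ X * y), ?_, ?_⟩
  · rw [map_mul, Valuation.map_neg]
    refine mul_lt_one_of_lt_of_le hvbd ?_
    refine v.map_add_le (by rw [map_one]) ?_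
    rw [map_mul, h2, one_mul]
    exact h1 _ hy1
  · have e5 := congrArg (Polynomial.eval (σ X * y)) hGF
    rw [eval_mul, hy2, mul_zero, eval_comp, hL, eval_mul, eval_C, eval_add, eval_one, eval_X] at e5
    exact e5

end BF80
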