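import Pool.Agent.BF80.MdlBasic0
import Pool.Agent.FT80.Lift

/-!
# The models `F_p((t))` and `k0`
-/

set_option maxSynthPendingDepth 10

open Polynomial Filter

namespace BF80

open FT80

variable {p : ℕ} [hp : Fact p.Prime]

/-! ### elements algebraic over the algebraic elements -/

theorem alg1_of_root {R L : Type*} [CommRing R] [IsDomain R] [Field L] (σ : R →+* L)
    (hσ : Function.Injective σ)
    (q : Polynomial (algField σ)) (hq : q ≠ 0) {z : L} (h : q.eval₂ (algField σ).subtype z = 0) :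
    Alg1 σ z := by
  letI := σ.toAlgebra
  have hmem : ∀ r, σ r ∈ algField σ := fun r =>
    isAlgebraic_algebraMap (R := R) (A := L) r
  letI : Algebra R (algField σ) := (σ.codRestrict (algField σ) hmem).toAlgebra
  haveI : IsScalarTower R (algField σ) L := IsScalarTower.of_algebraMap_eq (fun _ => rfl)
  haveI : Algebra.IsAlgebraic R (algField σ) := by
    constructor
    rintro ⟨x, q, hq0, hqx⟩
    refine ⟨q, hq0, ?_⟩
    apply Subtype.ext
    have h1 : algebraMap (algField σ) L (aeval (⟨x, ⟨q, hq0, hqx⟩⟩ : algField σ) q) =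
        aeval x q := by
      rw [← Polynomial.aeval_algebraMap_apply]
      rfl
    exact h1.trans hqx
  have h2 : IsAlgebraic (algField σ) z := ⟨q, hq, h⟩
  exact h2.restrictScalars R

theorem mem_k0_of_root (q : Polynomial (k0 p)) (hq : q ≠ 0) {z : KK p}
    (h : q.eval₂ (k0 p).subtype z = 0) : z ∈ k0 p :=
  alg1_of_root (tauK p) (tauK_inj' p) q hq h

theorem mem_k0_of_pow {z : KK p} {n : ℕ} (hn : n ≠ 0) (h : z ^ n ∈ k0 p) : z ∈ k0 p := by
  refine mem_k0_of_root (X ^ n - C ⟨z ^ n, h⟩) (X_pow_sub_C_ne_zero (Nat.pos_of_ne_zero hn) _) ?_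
  rw [eval₂_sub, eval₂_X_pow, eval₂_C]
  exact sub_self _

theorem tauK_X : tauK p X = iK p PowerSeries.X := by
  unfold tauK
  rw [RingHom.comp_apply, tau_X]

theorem tauK_X' : tauK p X = TT p 1 := by
  rw [tauK_X]
  have := TT_nat (p := p) 1
  rw [pow_one] at this
  rw [← this]
  rfl

theorem tauK_X_pow (n : ℕ) : tauK p X ^ n = TT p n := by
  rw [tauK_X, TT_nat, map_pow]

/-! ### the valuation ring of `F_p((t))` -/

theorem VO_KK (x : KK p) : VO (tauK p X) x ↔ InO x := by
  rw [tauK_X]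
  constructor
  · rintro ⟨y, hy⟩
    by_contra hx
    have hx0 : x ≠ 0 := by
      rintro rfl
      exact hx InO.zero
    obtain ⟨a, ha⟩ := inO_or_inv x hx
    have haX : PowerSeries.X ∣ a := by
      by_contra hnd
      have hu := (ps_isUnit_iff a).2 hnd
      obtain ⟨b, hb⟩ := hu.exists_right_inv
      apply hx
      refine ⟨b, ?_⟩
      have h1 : iK p a * iK p b = 1 := by rw [← map_mul, hb, map_one]
      rw [ha] at h1
      field_simp at h1
      exact h1
    obtain ⟨a', rfl⟩ := haX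
    have hw : (y * x⁻¹) ^ 2 + y * x⁻¹ * x⁻¹ = iK p PowerSeries.X := by
      field_simp
      linear_combination hy
    have hwO : InO (y * x⁻¹) := by
      by_contra hn
      have h1 := inO_or_inv _ hn
      have hw0 : y * x⁻¹ ≠ 0 := by
        intro h
        rw [h] at hn
        exact hn InO.zero
      apply hn
      have h2 : y * x⁻¹ = iK p PowerSeries.X * (y * x⁻¹)⁻¹ + -(x⁻¹) := by
        generalize y * x⁻¹ = w at hw hw0 ⊢
        generalize x⁻¹ = s at hw ⊢
        rw [← hw]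
        field_simp
        ring
      rw [h2]
      exact ((InO.iK _).mul h1).add (InO.neg ⟨_, ha⟩)
    obtain ⟨c, hc⟩ := hwO
    rw [← hc, ← ha, ← map_pow, ← map_mul, ← map_add] at hw
    have h3 := iK_injective hw
    have h4 : PowerSeries.X ∣ c ^ 2 := by
      have h5 : c ^ 2 = PowerSeries.X * (1 - c * a') := by
        linear_combination h3
      exact ⟨_, h5⟩
    obtain ⟨c', rfl⟩ := PowerSeries.X_prime.dvd_of_dvd_pow h4
    have h5 : (PowerSeries.X : OO p) * (PowerSeries.X * (c' ^ 2 + c' * a')) =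
        PowerSeries.X * 1 := by
      linear_combination h3
    have h6 := mul_left_cancel₀ PowerSeries.X_ne_zero h5
    have h7 := congrArg (PowerSeries.constantCoeff) h6
    rw [map_mul, PowerSeries.constantCoeff_X, zero_mul, map_one] at h7
    exact zero_ne_one h7
  · rintro ⟨a, rfl⟩
    obtain ⟨z, -, hz⟩ := hensel_ps (X ^ 2 + X - C (PowerSeries.X * a ^ 2) : Polynomial (OO p))
      (by simp) (by
        rw [derivative_sub, derivative_C, sub_zero]
        simp)
    refine ⟨iK p z, ?_⟩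
    rw [← map_pow, ← map_add, ← map_pow, ← map_mul]
    congr 1
    simpa [sub_eq_zero] using hz

theorem VO_k0 (x : k0 p) : VO (sig0 p X) x ↔ InO (x : KK p) := by
  constructor
  · intro h
    have h1 := h.map (k0 p).subtype
    exact (VO_KK (x : KK p)).1 h1
  · intro h
    obtain ⟨y, hy⟩ := (VO_KK (x : KK p)).2 h
    have hmem : y ∈ k0 p := by
      refine mem_k0_of_root (X ^ 2 + X - C (sig0 p X * x ^ 2)) ?_ ?_
      · intro h0
        have h1 := congrArg (fun q => Polynomial.coeff q 2) h0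
        simp only [coeff_sub, coeff_add, coeff_X_pow, coeff_X, coeff_C, coeff_zero] at h1
        norm_num at h1
      · rw [eval₂_sub, eval₂_add, eval₂_X_pow, eval₂_X, eval₂_C, hy]
        exact sub_self _
    refine ⟨⟨y, hmem⟩, ?_⟩
    apply Subtype.ext
    exact hy

theorem InO_div_tX {x : KK p} : InO (x / tauK p X) ↔ ∃ a : OO p, x = iK p (PowerSeries.X * a) := by
  rw [tauK_X]
  have h0 : iK p (PowerSeries.X : OO p) ≠ 0 := by
    intro h
    exact PowerSeries.X_ne_zero (iK_injective (h.trans (map_zero _).symm))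
  constructor
  · rintro ⟨a, ha⟩
    refine ⟨a, ?_⟩
    rw [map_mul, ha]
    field_simp
  · rintro ⟨a, rfl⟩
    refine ⟨a, ?_⟩
    rw [map_mul]
    field_simp

theorem tauK_C (a : ZMod p) : tauK p (C a) = iK p (PowerSeries.C a) := by
  unfold tauK tau
  rw [RingHom.comp_apply]
  congr 1
  simp

theorem nat_KK (a : ℕ) : ((a : ℕ) : KK p) = iK p (PowerSeries.C ((a : ℕ) : ZMod p)) := by
  rw [map_natCast, map_natCast]

theorem res_KK {x : KK p} (hx : InO x) :
    ∃ a < p, InO ((x - ((a : ℕ) : KK p)) / tauK p X) := by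
  haveI : NeZero p := ⟨hp.out.ne_zero⟩
  obtain ⟨b, rfl⟩ := hx
  refine ⟨(PowerSeries.constantCoeff b).val, ZMod.val_lt _, ?_⟩
  rw [InO_div_tX, nat_KK, ZMod.natCast_zmod_val, ← map_sub]
  obtain ⟨c, hc⟩ : PowerSeries.X ∣ b - PowerSeries.C (PowerSeries.constantCoeff b) := by
    rw [PowerSeries.X_dvd_iff, map_sub, PowerSeries.constantCoeff_C, sub_self]
  exact ⟨c, by rw [hc]⟩

theorem hensel_KK (f : Polynomial (KK p)) (hf : ∀ i, InO (f.coeff i))
    (h0 : InO (f.coeff 0 / tauK p X)) (h1 : f.coeff 1 ≠ 0) (h2 : InO (f.coeff 1)⁻¹) :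
    ∃ y, InO y ∧ f.eval (tauK p X * y) = 0 := by
  obtain ⟨F, hF⟩ : ∃ F : Polynomial (OO p), F.map (iK p) = f := by
    rw [← Polynomial.mem_lifts, Polynomial.lifts_iff_coeff_lifts]
    intro n
    exact hf n
  obtain ⟨z, ⟨y, rfl⟩, hz⟩ := hensel_ps F (by
    rw [← coeff_zero_eq_eval_zero]
    rw [InO_div_tX, ← hF, coeff_map] at h0
    obtain ⟨a, ha⟩ := h0
    exact ⟨a, iK_injective ha⟩) (by
    rw [← coeff_zero_eq_eval_zero, coeff_derivative]
    norm_num
    obtain ⟨b, hb⟩ := h2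
    have h3 : iK p (F.coeff 1) = f.coeff 1 := by rw [← hF, coeff_map]
    have h4 : iK p (F.coeff 1 * b) = 1 := by rw [map_mul, h3, hb, mul_inv_cancel₀ h1]
    exact IsUnit.of_mul_eq_one b (iK_injective (h4.trans (map_one _).symm)))
  refine ⟨iK p y, InO.iK _, ?_⟩
  rw [← hF, tauK_X, ← map_mul, eval_map_apply, hz, map_zero]

theorem pow_KK (n : ℕ) (hn : ¬ p ∣ n) (x : KK p) (hx : x ≠ 0) :
    ∃ γ < p, ∃ j < n, ∃ y : KK p, 1 ≤ γ ∧ x = (γ : ℕ) * tauK p X ^ j * y ^ n := by
  haveI : NeZero p := ⟨hp.out.ne_zero⟩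
  have hn0 : n ≠ 0 := by
    rintro rfl
    exact hn (dvd_zero _)
  obtain ⟨m, a, ha, rfl⟩ := exists_form hx
  set c := PowerSeries.constantCoeff a with hc
  have hc0 : c ≠ 0 := by
    rw [PowerSeries.isUnit_iff_constantCoeff] at ha
    exact ha.ne_zero
  obtain ⟨B, hB1, hB⟩ := exists_root_pow n (by
    rw [Ne, ZMod.natCast_eq_zero_iff]
    exact hn) (PowerSeries.C c⁻¹ * a) (by
    rw [map_mul, PowerSeries.constantCoeff_C, ← hc, inv_mul_cancel₀ hc0])
  have hm := Int.emod_add_mul_ediv m n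
  have hj0 : 0 ≤ m % n := Int.emod_nonneg m (by exact_mod_cast hn0)
  have hj1 : m % n < n := Int.emod_lt_of_pos m (by omega)
  obtain ⟨j, hj⟩ := Int.eq_ofNat_of_zero_le hj0
  refine ⟨c.val, ZMod.val_lt _, j, by omega, TT p (m / n) * iK p B, ?_, ?_⟩
  · rw [Nat.one_le_iff_ne_zero, Ne, ZMod.val_eq_zero]
    exact hc0
  · have h1 : TT p (m / n) ^ n = TT p (n * (m / n)) := by
      have h2 : ∀ k : ℕ, TT p (m / n) ^ k = TT p (k * (m / n)) := by
        intro k
        induction k with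
        | zero => rw [pow_zero, Nat.cast_zero, zero_mul, TT_zero]
        | succ k ih => rw [pow_succ, ih, ← TT_add]; congr 1; push_cast; ring
      exact h2 n
    have h3 : TT p m = TT p j * TT p (n * (m / n)) := by
      rw [← TT_add]
      congr 1
      omega
    have h4 : a = PowerSeries.C c * B ^ n := by
      rw [hB, ← mul_assoc, ← map_mul, mul_inv_cancel₀ hc0, map_one, one_mul]
    rw [nat_KK, ZMod.natCast_zmod_val, tauK_X_pow, mul_pow, h1, h3, ← map_pow]
    conv_lhs => rw [h4, map_mul]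
    ring

theorem mdl_KK : Mdl p (tauK p) where
  one := (VO_KK _).2 InO.one
  add := fun x y hx hy => (VO_KK _).2 (((VO_KK _).1 hx).add ((VO_KK _).1 hy))
  mul := fun x y hx hy => (VO_KK _).2 (((VO_KK _).1 hx).mul ((VO_KK _).1 hy))
  inv := fun x => by
    rw [VO_KK, VO_KK]
    exact or_iff_not_imp_left.2 (inO_or_inv x)
  tinv := by
    rw [VO_KK, tauK_X', TT_inv]
    exact not_inO_TT (by norm_num)
  res := fun x hx => by
    obtain ⟨a, ha, h⟩ := res_KK ((VO_KK _).1 hx)
    exact ⟨a, ha, (VO_KK _).2 h⟩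
  hensel := fun f h1 h2 h3 h4 => by
    obtain ⟨y, hy1, hy2⟩ := hensel_KK f (fun i => (VO_KK _).1 (h1 i)) ((VO_KK _).1 h2) h3
      ((VO_KK _).1 h4)
    exact ⟨y, (VO_KK _).2 hy1, hy2⟩
  pow := fun n hn x hx => pow_KK n hn x hx

theorem mdl_k0 : Mdl p (sig0 p) where
  one := (VO_k0 _).2 InO.one
  add := fun x y hx hy => (VO_k0 _).2 (((VO_k0 _).1 hx).add ((VO_k0 _).1 hy))
  mul := fun x y hx hy => (VO_k0 _).2 (((VO_k0 _).1 hx).mul ((VO_k0 _).1 hy))
  inv := fun x => by
    rw [VO_k0, VO_k0]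
    exact or_iff_not_imp_left.2 (inO_or_inv (x : KK p))
  tinv := by
    rw [VO_k0]
    intro h
    exact mdl_KK.tinv ((VO_KK _).2 h)
  res := fun x hx => by
    obtain ⟨a, ha, h⟩ := res_KK ((VO_k0 _).1 hx)
    refine ⟨a, ha, (VO_k0 _).2 ?_⟩
    have h1 : (((x - (a : ℕ)) / sig0 p X : k0 p) : KK p) =
        ((x : KK p) - (a : ℕ)) / tauK p X := by
      push_cast
      rfl
    rw [h1]
    exact h
  hensel := fun f h1 h2 h3 h4 => by
    obtain ⟨y, hy1, hy2⟩ := hensel_KK (f.map (k0 p).subtype)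
      (fun i => by rw [coeff_map]; exact (VO_k0 _).1 (h1 i))
      (by rw [coeff_map]; exact (VO_k0 _).1 h2)
      (by
        rw [coeff_map]
        intro h
        exact h3 (Subtype.ext h))
      (by rw [coeff_map]; exact (VO_k0 _).1 h4)
    have hf0 : f ≠ 0 := by
      rintro rfl
      exact h3 (coeff_zero _)
    have hmem : tauK p X * y ∈ k0 p := mem_k0_of_root f hf0 (by rw [eval₂_eq_eval_map]; exact hy2)
    have ht0 : tauK p X ≠ 0 := mdl_KK.t_ne
    have hy : y ∈ k0 p := by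
      have h5 : y = tauK p X * y * (tauK p X)⁻¹ := by field_simp
      rw [h5]
      exact mul_mem hmem (inv_mem (sig0 p X).2)
    refine ⟨⟨y, hy⟩, (VO_k0 _).2 hy1, ?_⟩
    apply Subtype.ext
    have h6 : (k0 p).subtype (f.eval (sig0 p X * ⟨y, hy⟩)) = 0 := by
      rw [← eval_map_apply]
      exact hy2
    exact h6
  pow := fun n hn x hx => by
    obtain ⟨γ, hγ, j, hj, y, hγ1, hy⟩ := pow_KK n hn (x : KK p) (fun h => hx (Subtype.ext h))
    haveI : NeZero p := ⟨hp.out.ne_zero⟩
    have hn0 : n ≠ 0 := by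
      rintro rfl
      exact hn (dvd_zero _)
    have ht0 : tauK p X ≠ 0 := mdl_KK.t_ne
    have hγ0 : ((γ : ℕ) : KK p) ≠ 0 := by
      intro h
      rw [h, zero_mul, zero_mul] at hy
      exact hx (Subtype.ext hy)
    have hyk : y ∈ k0 p := by
      apply mem_k0_of_pow hn0
      have h5 : y ^ n = ((γ : ℕ) : KK p)⁻¹ * (tauK p X ^ j)⁻¹ * x := by
        rw [hy]
        field_simp
      rw [h5]
      exact mul_mem (mul_mem (inv_mem (natCast_mem _ _)) (inv_mem (pow_mem (sig0 p X).2 _))) x.2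
    refine ⟨γ, hγ, j, hj, ⟨y, hyk⟩, hγ1, ?_⟩
    apply Subtype.ext
    push_cast
    exact hy

end BF80
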