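import Pool.Agent.BF80.MdlH

/-!
# Coarse valuations given by an element
-/

set_option maxSynthPendingDepth 10

open Polynomial

namespace BF80

open FT80

variable {p : ℕ} [Fact p.Prime]

section ot
variable {U : Type} [Field U] {τ : P1 p →+* U}

theorem OTv.mono (hU : Mdl p τ) {T x : U} (hT : VO (τ X) T) {m n : ℕ} (hmn : m ≤ n)
    (h : VO (τ X) (T ^ m * x)) : VO (τ X) (T ^ n * x) := by
  have h1 : T ^ n * x = T ^ (n - m) * (T ^ m * x) := by
    rw [← mul_assoc, ← pow_add]
    congr 2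
    omega
  rw [h1]
  exact hU.mul _ _ (hU.VO_pow hT _) h

/-- the valuation ring `OV[1/T]` -/
noncomputable def Mdl.OT {U : Type} [Field U] {τ : P1 p →+* U} (hU : Mdl p τ) (T : U)
    (hT : VO (τ X) T) : ValuationSubring U where
  carrier := {x | ∃ n : ℕ, VO (τ X) (T ^ n * x)}
  mul_mem' := by
    rintro x y ⟨m, hm⟩ ⟨n, hn⟩
    refine ⟨m + n, ?_⟩
    have h1 : T ^ (m + n) * (x * y) = (T ^ m * x) * (T ^ n * y) := by ring
    rw [h1]
    exact hU.mul _ _ hm hn
  one_mem' := ⟨0, by rw [pow_zero, mul_one]; exact hU.one⟩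
  add_mem' := by
    rintro x y ⟨m, hm⟩ ⟨n, hn⟩
    refine ⟨m + n, ?_⟩
    rw [mul_add]
    exact hU.add _ _ (OTv.mono hU hT (by omega) hm) (OTv.mono hU hT (by omega) hn)
  zero_mem' := ⟨0, by rw [mul_zero]; exact VO_zero _⟩
  neg_mem' := by
    rintro x ⟨m, hm⟩
    exact ⟨m, by rw [mul_neg]; exact hm.neg⟩
  mem_or_inv_mem' := by
    intro x
    rcases hU.inv x with h | h
    · exact Or.inl ⟨0, by rw [pow_zero, one_mul]; exact h⟩
    · exact Or.inr ⟨0, by rw [pow_zero, one_mul]; exact h⟩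

theorem Mdl.mem_OT (hU : Mdl p τ) (T : U) (hT : VO (τ X) T) (x : U) :
    x ∈ hU.OT T hT ↔ ∃ n : ℕ, VO (τ X) (T ^ n * x) := Iff.rfl

theorem Mdl.OT_le_one (hU : Mdl p τ) (T : U) (hT : VO (τ X) T) (x : U) :
    (hU.OT T hT).valuation x ≤ 1 ↔ ∃ n : ℕ, VO (τ X) (T ^ n * x) :=
  ValuationSubring.valuation_le_one_iff _ x

theorem Mdl.OT_lt_one {U : Type} [Field U] {τ : P1 p →+* U} (hU : Mdl p τ) (T : U)
    (hT : VO (τ X) T) (hT0 : T ≠ 0) (hT1 : hU.vc T < 1) (x : U) :
    (hU.OT T hT).valuation x < 1 ↔ ∀ n : ℕ, VO (τ X) (x / T ^ n) := by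
  have ht := hU.t_ne
  rcases eq_or_ne x 0 with rfl | hx
  · constructor
    · intro _ n
      rw [zero_div]
      exact VO_zero _
    · intro _
      rw [map_zero]
      exact zero_lt_one
  have h1 : (hU.OT T hT).valuation x < 1 ↔ ¬ x⁻¹ ∈ hU.OT T hT := by
    rw [← ValuationSubring.valuation_le_one_iff, map_inv₀, ← not_le]
    have h2 : (0 : (hU.OT T hT).ValueGroup) < (hU.OT T hT).valuation x :=
      zero_lt_iff.2 ((Valuation.ne_zero_iff _).2 hx)
    rw [inv_le_one₀ h2]
  rw [h1, hU.mem_OT]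
  push Not
  constructor
  · intro h n
    rcases hU.inv (T ^ n * x⁻¹) with h2 | h2
    · exact (h n h2).elim
    · rwa [mul_inv, inv_inv, mul_comm, ← div_eq_mul_inv] at h2
  · intro h n hn
    apply hU.tinv
    have h2 := hU.mul _ _ hn (h (n + 1))
    have h3 : T ^ n * x⁻¹ * (x / T ^ (n + 1)) = T⁻¹ := by
      rw [pow_succ]
      field_simp
    rw [h3] at h2
    have h4 := hU.vc_lt_one.1 hT1 1
    have h5 := hU.mul _ _ h2 h4
    have h6 : T⁻¹ * (T / τ X ^ 1) = (τ X)⁻¹ := by
      rw [pow_one]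
      field_simp
    rwa [h6] at h5

theorem Mdl.OC_le_OT (hU : Mdl p τ) (T : U) (hT : VO (τ X) T) (hT1 : hU.vc T < 1) {x : U}
    (hx : x ∈ hU.OC) : (hU.OT T hT).valuation x ≤ 1 := by
  have ht := hU.t_ne
  obtain ⟨n, hn⟩ := hx
  rw [hU.OT_le_one]
  refine ⟨n, ?_⟩
  have h4 := hU.vc_lt_one.1 hT1 1
  have h5 := hU.mul _ _ (hU.VO_pow h4 n) hn
  have h6 : (T / τ X ^ 1) ^ n * (τ X ^ n * x) = T ^ n * x := by
    rw [pow_one, div_pow]
    field_simp
  rwa [h6] at h5

theorem Mdl.OT_unit (hU : Mdl p τ) (T : U) (hT : VO (τ X) T) (hT1 : hU.vc T < 1) {x : U}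
    (hx : hU.vc x = 1) : (hU.OT T hT).valuation x = 1 := by
  have hx0 : x ≠ 0 := by
    rintro rfl
    rw [map_zero] at hx
    exact zero_ne_one hx
  have h1 := hU.OC_le_OT T hT hT1 (hU.vc_le_one.1 hx.le)
  have h2 : (hU.OT T hT).valuation x⁻¹ ≤ 1 :=
    hU.OC_le_OT T hT hT1 (hU.vc_le_one.1 (by rw [map_inv₀, hx, inv_one]))
  rw [map_inv₀] at h2
  have h3 : (0 : (hU.OT T hT).ValueGroup) < (hU.OT T hT).valuation x :=
    zero_lt_iff.2 ((Valuation.ne_zero_iff _).2 hx0)
  exact le_antisymm h1 ((inv_le_one₀ h3).1 h2)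

theorem Mdl.vc_of_OT (hU : Mdl p τ) (T : U) (hT : VO (τ X) T) (hT0 : T ≠ 0) (hT1 : hU.vc T < 1)
    {x : U} (hx : (hU.OT T hT).valuation x < 1) : hU.vc x < 1 := by
  have ht := hU.t_ne
  rw [hU.vc_lt_one]
  intro n
  have h1 := (hU.OT_lt_one T hT hT0 hT1 x).1 hx n
  have h4 := hU.vc_lt_one.1 hT1 1
  have h5 := hU.mul _ _ h1 (hU.VO_pow h4 n)
  have h6 : x / T ^ n * (T / τ X ^ 1) ^ n = x / τ X ^ n := by
    rw [pow_one, div_pow]
    field_simp
  rwa [h6] at h5

theorem Mdl.hfield_OT {U : Type} [Field U] {τ : P1 p →+* U} (hU : Mdl p τ) (j : k0 p →+* U)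
    (hj : ∀ f, j (sig0 p f) = τ f) (T : U) (hT : VO (τ X) T) (hT0 : T ≠ 0) (hT1 : hU.vc T < 1) :
    letI := j.toAlgebra; HField (k0 p) (hU.OT T hT).valuation := by
  let _ := j.toAlgebra
  have hF : HField (k0 p) hU.vc := hU.hfield j hj
  set v := (hU.OT T hT).valuation with hv
  have htriv : ∀ a : k0 p, a ≠ 0 → v (algebraMap (k0 p) U a) = 1 := fun a ha =>
    hU.OT_unit T hT hT1 (hF.nice.triv a ha)
  have htle : ∀ a : k0 p, hU.vc (algebraMap (k0 p) U a) ≤ 1 := by
    intro a
    rcases eq_or_ne a 0 with rfl | ha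
    · rw [map_zero, map_zero]
      exact zero_le_one
    · exact (hF.nice.triv a ha).le
  -- large elements
  have hbig : ∀ n : ℕ, ∀ q : Polynomial (k0 p), q.natDegree ≤ n → q ≠ 0 → ∀ h : U, 1 < hU.vc h →
      1 ≤ hU.vc (aeval h q) := by
    intro n
    induction n with
    | zero =>
      intro q hd hq h hh
      have h1 := eq_C_of_natDegree_le_zero hd
      have h2 : q.coeff 0 ≠ 0 := by
        intro h3
        apply hq
        rw [h1, h3, C_0]
      rw [h1, aeval_C, hF.nice.triv _ h2]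
    | succ n ih =>
      intro q hd hq h hh
      have h1 := q.divX_mul_X_add
      by_cases h2 : q.divX = 0
      · have h3 : q.coeff 0 ≠ 0 := by
          intro h4
          apply hq
          rw [← h1, h2, h4, zero_mul, C_0, zero_add]
        rw [← h1, h2, zero_mul, zero_add, aeval_C, hF.nice.triv _ h3]
      · have h3 := ih q.divX (by
          rw [natDegree_divX_eq_natDegree_tsub_one]
          omega) h2 h hh
        have h4 : hU.vc (algebraMap (k0 p) U (q.coeff 0)) < hU.vc (aeval h q.divX * h) := by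
          refine lt_of_le_of_lt (htle _) ?_
          rw [map_mul]
          calc (1 : hU.OC.ValueGroup) < hU.vc h := hh
            _ = 1 * hU.vc h := (one_mul _).symm
            _ ≤ hU.vc (aeval h q.divX) * hU.vc h := mul_le_mul_left h3 _
        have h6 : 1 < hU.vc (aeval h q.divX * h) := by
          rw [map_mul]
          calc (1 : hU.OC.ValueGroup) < hU.vc h := hh
            _ = 1 * hU.vc h := (one_mul _).symm
            _ ≤ hU.vc (aeval h q.divX) * hU.vc h := mul_le_mul_left h3 _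
        rw [← h1, map_add, map_mul, aeval_X, aeval_C, Valuation.map_add_eq_of_lt_left _ h4]
        exact h6.le
  -- small elements
  have hsmall : ∀ n : ℕ, ∀ q : Polynomial (k0 p), q.natDegree ≤ n → q ≠ 0 → ∀ d : U,
      hU.vc d < 1 → v (aeval d q) < 1 → v d < 1 := by
    intro n
    induction n with
    | zero =>
      intro q hd hq d hdd hh
      have h1 := eq_C_of_natDegree_le_zero hd
      have h2 : q.coeff 0 ≠ 0 := by
        intro h3
        apply hq
        rw [h1, h3, C_0]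
      rw [h1, aeval_C, htriv _ h2] at hh
      exact absurd hh (lt_irrefl _)
    | succ n ih =>
      intro q hd hq d hdd hh
      have h1 := q.divX_mul_X_add
      by_cases h2 : q.coeff 0 = 0
      · have h3 : aeval d q = aeval d q.divX * d := by
          conv_lhs => rw [← h1]
          rw [h2, map_add, map_mul, aeval_X, C_0, map_zero, add_zero]
        have h4 : q.divX ≠ 0 := by
          intro h5
          apply hq
          rw [← h1, h2, h5, zero_mul, C_0, zero_add]
        by_contra h5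
        rw [not_lt] at h5
        apply h5.not_gt
        refine ih q.divX (by
          rw [natDegree_divX_eq_natDegree_tsub_one]
          omega) h4 d hdd ?_
        by_contra h6
        rw [not_lt] at h6
        rw [h3, map_mul] at hh
        exact absurd hh (not_lt.2 (one_le_mul h6 h5))
      · exfalso
        have h3 : aeval d q = aeval d q.divX * d + algebraMap (k0 p) U (q.coeff 0) := by
          conv_lhs => rw [← h1]
          rw [map_add, map_mul, aeval_X, aeval_C]
        have h4 : hU.vc (aeval d q.divX * d) < 1 := by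
          rw [map_mul, mul_comm]
          exact mul_lt_one_of_lt_of_le hdd (hF.nice.aeval_le hdd.le _)
        have h5 : hU.vc (aeval d q) = 1 := by
          rw [h3, Valuation.map_add_eq_of_lt_right, hF.nice.triv _ h2]
          rw [hF.nice.triv _ h2]
          exact h4
        rw [hU.OT_unit T hT hT1 h5] at hh
        exact absurd hh (lt_irrefl _)
  refine ⟨⟨htriv, ?_⟩, ?_⟩
  · intro q hq h hh hq1
    have h0 := hU.vc_of_OT T hT hT0 hT1 hq1
    have h1 : hU.vc h ≤ 1 := by
      by_contra h2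
      rw [not_le] at h2
      exact absurd h0 (not_lt.2 (hbig _ q le_rfl hq h h2))
    obtain ⟨κ, hκ⟩ := hF.nice.res q hq h h1 h0
    refine ⟨κ, ?_⟩
    have h2 : q.comp (X + C κ) ≠ 0 := by
      rwa [Ne, comp_X_add_C_eq_zero_iff]
    refine hsmall _ (q.comp (X + C κ)) le_rfl h2 _ hκ ?_
    rw [aeval_comp, map_add, aeval_X, aeval_C, sub_add_cancel]
    exact hq1
  · intro F hF0 hF1 hF2
    exact hU.hens_of_val v (fun x hx => hU.OC_le_OT T hT hT1 (hU.OC_of_VO hx))
      (hU.OT_unit T hT hT1 hU.vc_t) F hF0 hF1 hF2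

end ot

end BF80
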