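import Pool.Agent.BF80.Defs2

/-!
# From finitely many to countably many conditions
-/

set_option autoImplicit false
set_option maxSynthPendingDepth 10

open Polynomial Filter

namespace BF80

open FT80

variable {p : ℕ} [Fact p.Prime]

/-- the class of a sequence -/
noncomputable def cl (K : Type) [Field K] : (ℕ → K) →+* UP K :=
  Filter.Germ.coeRingHom ((hyperfilter ℕ : Ultrafilter ℕ) : Filter ℕ)

theorem cl_eq {K : Type} [Field K] (f g : ℕ → K) : cl K f = cl K g ↔
    ∀ᶠ n in ((hyperfilter ℕ : Ultrafilter ℕ) : Filter ℕ), f n = g n := Filter.Germ.coe_eq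

theorem cl_surj {K : Type} [Field K] : Function.Surjective (cl K) := Quotient.mk_surjective

theorem cl_const {K : Type} [Field K] (a : K) : cl K (fun _ => a) = diag K a := rfl

theorem ev_of_ge {P : ℕ → Prop} (k : ℕ) (h : ∀ l, k ≤ l → P l) :
    ∀ᶠ n in ((hyperfilter ℕ : Ultrafilter ℕ) : Filter ℕ), P n :=
  Nat.hyperfilter_le_atTop (eventually_atTop.2 ⟨k, h⟩)

theorem countable_poly (R : Type) [CommRing R] [Countable R] : Countable (Polynomial R) := by
  rw [← Cardinal.mk_le_aleph0_iff]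
  exact Polynomial.cardinalMk_le_max.trans (max_le (Cardinal.mk_le_aleph0_iff.mpr inferInstance) le_rfl)

/-- evaluation of a polynomial along a map -/
noncomputable def pe {M K : Type} [Field M] [Field K] (φ : M → K) (N : Polynomial M) (y : K) : K :=
  ∑ j ∈ Finset.range (N.natDegree + 1), φ (N.coeff j) * y ^ j

/-- evaluation in the ultrapower -/
theorem eval₂_cl {M K : Type} [Field M] [Field K] {E : Subfield M} (ι : E →+* UP K)
    (φ : ℕ → M → K) (hι : ∀ e : E, ι e = cl K (fun n => φ n e)) (N : Polynomial E) (y : ℕ → K) :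
    N.eval₂ ι (cl K y) = cl K (fun n => pe (φ n) (N.map E.subtype) (y n)) := by
  have h1 : (fun n => pe (φ n) (N.map E.subtype) (y n))
      = ∑ j ∈ Finset.range (N.natDegree + 1), (fun n => φ n (N.coeff j)) * y ^ j := by
    funext n
    rw [pe, Finset.sum_apply, natDegree_map]
    refine Finset.sum_congr rfl fun j _ => ?_
    rw [coeff_map]
    rfl
  rw [h1, map_sum, eval₂_eq_sum_range]
  refine Finset.sum_congr rfl fun j _ => ?_
  rw [map_mul, map_pow, hι]

theorem stage {M : Type} [Field M] {σ : P1 p →+* M} (x : M) (hx : ¬ Alg1 σ x) {F : Finset M}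
    (hS : Star1 σ x F) (Ps : Finset (P1 p)) (Ns : Finset (Polynomial M))
    (hNs : ∀ N ∈ Ns, ∀ j ∈ Finset.range (N.natDegree + 1), N.coeff j ∈ F)
    (hNr : ∀ N ∈ Ns, ∀ y : M, N.eval y ≠ 0) (Cs : Finset (k0 p)) :
    ∃ φ : M → k0 p, (∀ a ∈ F, ∀ b ∈ F, φ (a + b) = φ a + φ b) ∧
      (∀ a ∈ F, ∀ b ∈ F, φ (a * b) = φ a * φ b) ∧ (∀ f ∈ Ps, φ (σ f) = sig0 p f) ∧
      (∀ N ∈ Ns, ∀ y, pe φ N y ≠ 0) ∧ ∀ c ∈ Cs, φ x ≠ c := by
  classical
  obtain ⟨E, ι, hxE, hFE, hσι, hroot⟩ := hS
  have hrep : ∀ e : E, ∃ r : ℕ → k0 p, cl (k0 p) r = ι e := fun e => cl_surj (ι e)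
  choose rep hrep using hrep
  let φ : ℕ → M → k0 p := fun n a => if h : a ∈ E then rep ⟨a, h⟩ n else 0
  have hφ : ∀ n (e : E), φ n e = rep e n := by
    intro n e
    simp only [φ]
    rw [dif_pos e.2]
  have hι : ∀ e : E, ι e = cl (k0 p) (fun n => φ n e) := by
    intro e
    rw [← hrep e]
    congr 1
    funext n
    exact (hφ n e).symm
  have c1 : ∀ᶠ n in ((hyperfilter ℕ : Ultrafilter ℕ) : Filter ℕ),
      ∀ a ∈ F, ∀ b ∈ F, φ n (a + b) = φ n a + φ n b := by
    rw [eventually_all_finset]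
    intro a ha
    rw [eventually_all_finset]
    intro b hb
    have h1 : cl (k0 p) (fun n => φ n (a + b)) = cl (k0 p) (fun n => φ n a + φ n b) := by
      have e1 := hι (⟨a, hFE a ha⟩ + ⟨b, hFE b hb⟩)
      rw [map_add, hι ⟨a, hFE a ha⟩, hι ⟨b, hFE b hb⟩, ← map_add] at e1
      exact e1.symm
    exact (cl_eq _ _).mp h1
  have c2 : ∀ᶠ n in ((hyperfilter ℕ : Ultrafilter ℕ) : Filter ℕ),
      ∀ a ∈ F, ∀ b ∈ F, φ n (a * b) = φ n a * φ n b := by
    rw [eventually_all_finset]
    intro a ha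
    rw [eventually_all_finset]
    intro b hb
    have h1 : cl (k0 p) (fun n => φ n (a * b)) = cl (k0 p) (fun n => φ n a * φ n b) := by
      have e1 := hι (⟨a, hFE a ha⟩ * ⟨b, hFE b hb⟩)
      rw [map_mul, hι ⟨a, hFE a ha⟩, hι ⟨b, hFE b hb⟩, ← map_mul] at e1
      exact e1.symm
    exact (cl_eq _ _).mp h1
  have c3 : ∀ᶠ n in ((hyperfilter ℕ : Ultrafilter ℕ) : Filter ℕ),
      ∀ f ∈ Ps, φ n (σ f) = sig0 p f := by
    rw [eventually_all_finset]
    intro f _
    obtain ⟨h, hf⟩ := hσι f
    have h1 : cl (k0 p) (fun n => φ n (σ f)) = cl (k0 p) (fun _ => sig0 p f) := by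
      rw [cl_const, ← hf]
      exact (hι ⟨σ f, h⟩).symm
    exact (cl_eq _ _).mp h1
  have c4 : ∀ᶠ n in ((hyperfilter ℕ : Ultrafilter ℕ) : Filter ℕ),
      ∀ N ∈ Ns, ∀ y, pe (φ n) N y ≠ 0 := by
    rw [eventually_all_finset]
    intro N hN
    by_contra hcon
    rw [← Ultrafilter.eventually_not] at hcon
    let y : ℕ → k0 p := fun n => if h : ∃ y, pe (φ n) N y = 0 then h.choose else 0
    have hy : ∀ᶠ n in ((hyperfilter ℕ : Ultrafilter ℕ) : Filter ℕ), pe (φ n) N (y n) = 0 := by
      filter_upwards [hcon] with n hn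
      have hn' : ∃ y, pe (φ n) N y = 0 := by
        by_contra h
        exact hn fun y hy => h ⟨y, hy⟩
      simp only [y]
      rw [dif_pos hn']
      exact hn'.choose_spec
    have hl : N ∈ lifts E.subtype := by
      rw [lifts_iff_coeff_lifts]
      intro j
      by_cases hj : j ∈ Finset.range (N.natDegree + 1)
      · exact ⟨⟨N.coeff j, hFE _ (hNs N hN j hj)⟩, rfl⟩
      · rw [Finset.mem_range, not_lt] at hj
        rw [coeff_eq_zero_of_natDegree_lt (by omega)]
        exact ⟨0, map_zero _⟩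
    rw [mem_lifts] at hl
    obtain ⟨N', hN'⟩ := hl
    have h1 : N'.eval₂ ι (cl (k0 p) y) = 0 := by
      rw [eval₂_cl ι φ hι, hN', ← map_zero (cl (k0 p)), cl_eq]
      exact hy
    obtain ⟨z, hz⟩ := hroot N' ⟨_, h1⟩
    rw [← eval_map, hN'] at hz
    exact hNr N hN z hz
  have c5 : ∀ᶠ n in ((hyperfilter ℕ : Ultrafilter ℕ) : Filter ℕ), ∀ c ∈ Cs, φ n x ≠ c := by
    rw [eventually_all_finset]
    intro c _
    by_contra hcon
    rw [← Ultrafilter.eventually_not] at hcon
    have h1 : ι ⟨x, hxE⟩ = diag (k0 p) c := by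
      rw [hι, ← cl_const, cl_eq]
      filter_upwards [hcon] with n hn
      by_contra h
      exact hn h
    apply hx
    obtain ⟨q, hq, hqc⟩ := c.2
    refine ⟨q, hq, ?_⟩
    -- `q` vanishes at `c` along `sig0`
    have h2 : q.eval₂ (sig0 p) c = 0 := by
      have e1 : (k0 p).subtype (q.eval₂ (sig0 p) c) = 0 := by
        rw [hom_eval₂]
        exact hqc
      exact (map_eq_zero_iff _ (k0 p).subtype.injective).mp e1
    let σE : P1 p →+* E := σ.codRestrict E (fun f => (hσι f).1)
    have h3 : ι.comp σE = (diag (k0 p)).comp (sig0 p) := by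
      apply RingHom.ext
      intro f
      exact (hσι f).2
    have h4 : ι (q.eval₂ σE ⟨x, hxE⟩) = 0 := by
      rw [hom_eval₂, h3, h1, ← hom_eval₂, h2, map_zero]
    have h5 : q.eval₂ σE ⟨x, hxE⟩ = 0 := (map_eq_zero_iff _ ι.injective).mp h4
    have h6 := congrArg E.subtype h5
    rw [hom_eval₂, map_zero] at h6
    exact h6
  obtain ⟨n, h1, h2, h3, h4, h5⟩ := (c1.and (c2.and (c3.and (c4.and c5)))).exists
  exact ⟨φ n, h1, h2, h3, h4, h5⟩

theorem star_of_star1 {M : Type} [Field M] {σ : P1 p →+* M} (hσ : Function.Injective σ) (x : M)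
    (hx : ¬ Alg1 σ x) (h1 : ∀ F : Finset M, (∀ a ∈ F, Alg1 (ev1 σ x) a) → Star1 σ x F)
    (B : Set (UP (k0 p))) (hB : B.Countable) :
    ∃ ι : algField (ev1 σ x) →+* UP (k0 p),
      (∀ f : P1 p, ∃ h : σ f ∈ algField (ev1 σ x), ι ⟨σ f, h⟩ = diag (k0 p) (sig0 p f)) ∧
      ∃ h : x ∈ algField (ev1 σ x), ι ⟨x, h⟩ ∉ B ∧
        ∀ y : UP (k0 p), Alg1 (ev1 ((diag (k0 p)).comp (sig0 p)) (ι ⟨x, h⟩)) y → ∃ u, ι u = y := by
  classical
  let _ : Algebra (P2 p) M := (ev1 σ x).toAlgebra
  have hinj : Function.Injective (ev1 σ x) := by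
    rw [injective_iff_map_eq_zero]
    intro q hq
    by_contra h
    exact hx ⟨q, h, hq⟩
  have hfaith : FaithfulSMul (P2 p) M := (faithfulSMul_iff_algebraMap_injective _ _).mpr hinj
  set A := algField (ev1 σ x) with hA
  have hAmem : ∀ a : M, a ∈ A ↔ IsAlgebraic (P2 p) a := fun a => Iff.rfl
  have : Countable (ZMod p) := by
    have : NeZero p := ⟨(Fact.out : p.Prime).ne_zero⟩
    infer_instance
  have : Countable (P1 p) := countable_poly _
  have : Countable (P2 p) := countable_poly _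
  have hAc : (A : Set M).Countable := Algebraic.countable (P2 p) M
  have : Countable A := hAc.to_subtype
  have : Countable (Polynomial A) := countable_poly _
  have hevA : ∀ q : P2 p, ev1 σ x q ∈ A := fun q => isAlgebraic_algebraMap (R := P2 p) (A := M) q
  have hσA : ∀ f, σ f ∈ A := by
    intro f
    have := hevA (C f)
    rwa [ev1, coe_eval₂RingHom, eval₂_C] at this
  have hxA : x ∈ A := by
    have := hevA X
    rwa [ev1, coe_eval₂RingHom, eval₂_X] at this
  -- relative algebraic closedness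
  have hrel : ∀ N : Polynomial A, N ≠ 0 → ∀ u : M, (N.map A.subtype).eval u = 0 → u ∈ A := by
    intro N hN u hu
    let _ : Algebra (P2 p) A := ((ev1 σ x).codRestrict A hevA).toAlgebra
    have : IsScalarTower (P2 p) A M := IsScalarTower.of_algebraMap_eq fun q => rfl
    have : Algebra.IsAlgebraic (P2 p) A := by
      constructor
      intro a
      have h2 : IsAlgebraic (P2 p) (algebraMap A M a) := a.2
      exact (isAlgebraic_algebraMap_iff (algebraMap A M).injective).mp h2
    have h3 : IsAlgebraic A u := by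
      refine ⟨N, hN, ?_⟩
      rw [aeval_def, ← eval_map]
      exact hu
    exact h3.restrictScalars (P2 p)
  -- enumerations
  obtain ⟨a, ha⟩ := exists_surjective_nat A
  obtain ⟨Nn, hNn⟩ := exists_surjective_nat (Polynomial A)
  obtain ⟨ff, hff⟩ := exists_surjective_nat (P1 p)
  obtain ⟨b, hb⟩ := (hB.insert 0).exists_eq_range ⟨0, Set.mem_insert _ _⟩
  have hbb : ∀ i, ∃ r : ℕ → k0 p, cl (k0 p) r = b i := fun i => cl_surj _
  choose bb hbb using hbb
  let F : ℕ → Finset M := fun l => (Finset.range l).image (fun i => (a i : M)) ∪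
    (Finset.range l).biUnion (fun i => (Finset.range ((Nn i).natDegree + 1)).image
      fun j => ((Nn i).coeff j : M))
  have hFa : ∀ l i, i < l → (a i : M) ∈ F l := by
    intro l i hi
    exact Finset.mem_union_left _ (Finset.mem_image_of_mem _ (Finset.mem_range.mpr hi))
  have hFalg : ∀ l, ∀ c ∈ F l, Alg1 (ev1 σ x) c := by
    intro l c hc
    rw [Finset.mem_union] at hc
    rcases hc with hc | hc
    · rw [Finset.mem_image] at hc
      obtain ⟨i, _, rfl⟩ := hc
      exact (a i).2
    · rw [Finset.mem_biUnion] at hc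
      obtain ⟨i, _, hc⟩ := hc
      rw [Finset.mem_image] at hc
      obtain ⟨j, _, rfl⟩ := hc
      exact ((Nn i).coeff j).2
  let Ns : ℕ → Finset (Polynomial M) := fun l =>
    ((Finset.range l).filter (fun i => ∀ y : M, ((Nn i).map A.subtype).eval y ≠ 0)).image
      (fun i => (Nn i).map A.subtype)
  have hst : ∀ l, ∃ φ : M → k0 p, (∀ a ∈ F l, ∀ b ∈ F l, φ (a + b) = φ a + φ b) ∧
      (∀ a ∈ F l, ∀ b ∈ F l, φ (a * b) = φ a * φ b) ∧
      (∀ f ∈ (Finset.range l).image ff, φ (σ f) = sig0 p f) ∧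
      (∀ N ∈ Ns l, ∀ y, pe φ N y ≠ 0) ∧ ∀ c ∈ (Finset.range l).image (fun i => bb i l), φ x ≠ c := by
    intro l
    apply stage x hx (h1 (F l) (hFalg l))
    · intro N hN j hj
      rw [Finset.mem_image] at hN
      obtain ⟨i, hi, rfl⟩ := hN
      rw [Finset.mem_filter] at hi
      rw [natDegree_map] at hj
      rw [coeff_map]
      apply Finset.mem_union_right
      rw [Finset.mem_biUnion]
      exact ⟨i, hi.1, Finset.mem_image_of_mem _ hj⟩
    · intro N hN
      rw [Finset.mem_image] at hN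
      obtain ⟨i, hi, rfl⟩ := hN
      rw [Finset.mem_filter] at hi
      exact hi.2
  choose φ hφadd hφmul hφσ hφN hφx using hst
  let ψ : M → UP (k0 p) := fun c => cl (k0 p) (fun l => φ l c)
  have hψ : ∀ c, ψ c = cl (k0 p) (fun l => φ l c) := fun c => rfl
  have hψσ : ∀ f : P1 p, ψ (σ f) = diag (k0 p) (sig0 p f) := by
    intro f
    obtain ⟨i, rfl⟩ := hff f
    rw [hψ, ← cl_const, cl_eq]
    exact ev_of_ge (i + 1) fun l hl =>
      hφσ l _ (Finset.mem_image_of_mem _ (Finset.mem_range.mpr (by omega)))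
  have hψadd : ∀ c d : A, ψ ((c : M) + d) = ψ c + ψ d := by
    intro c d
    obtain ⟨i, rfl⟩ := ha c
    obtain ⟨j, rfl⟩ := ha d
    rw [hψ, hψ, hψ, ← map_add, cl_eq]
    exact ev_of_ge (max i j + 1) fun l hl =>
      hφadd l _ (hFa l i (by omega)) _ (hFa l j (by omega))
  have hψmul : ∀ c d : A, ψ ((c : M) * d) = ψ c * ψ d := by
    intro c d
    obtain ⟨i, rfl⟩ := ha c
    obtain ⟨j, rfl⟩ := ha d
    rw [hψ, hψ, hψ, ← map_mul, cl_eq]
    exact ev_of_ge (max i j + 1) fun l hl =>
      hφmul l _ (hFa l i (by omega)) _ (hFa l j (by omega))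
  let ι : A →+* UP (k0 p) :=
    { toFun := fun c => ψ c
      map_one' := by
        have := hψσ 1
        rw [map_one, map_one, map_one] at this
        exact this
      map_mul' := hψmul
      map_zero' := by
        have := hψσ 0
        rw [map_zero, map_zero, map_zero] at this
        exact this
      map_add' := hψadd }
  have hι : ∀ e : A, ι e = cl (k0 p) (fun l => φ l e) := fun e => rfl
  have hroot : ∀ N : Polynomial A, (∀ y : M, (N.map A.subtype).eval y ≠ 0) →
      ∀ y : UP (k0 p), N.eval₂ ι y ≠ 0 := by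
    intro N hN y hy
    obtain ⟨i, rfl⟩ := hNn N
    obtain ⟨yy, rfl⟩ := cl_surj y
    rw [eval₂_cl ι φ hι, ← map_zero (cl (k0 p)), cl_eq] at hy
    have h2 : ∀ᶠ n in ((hyperfilter ℕ : Ultrafilter ℕ) : Filter ℕ),
        pe (φ n) ((Nn i).map A.subtype) (yy n) ≠ 0 := by
      refine ev_of_ge (i + 1) fun l hl => hφN l _ ?_ _
      apply Finset.mem_image_of_mem
      rw [Finset.mem_filter]
      exact ⟨Finset.mem_range.mpr (by omega), hN⟩
    obtain ⟨n, hn1, hn2⟩ := (hy.and h2).exists
    exact hn2 hn1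
  refine ⟨ι, fun f => ⟨hσA f, hψσ f⟩, hxA, ?_, ?_⟩
  · intro hmem
    have h2 : ι ⟨x, hxA⟩ ∈ Set.range b := by
      rw [← hb]
      exact Set.mem_insert_of_mem _ hmem
    obtain ⟨i, hi⟩ := h2
    rw [← hbb i, hι, cl_eq] at hi
    have h3 : ∀ᶠ n in ((hyperfilter ℕ : Ultrafilter ℕ) : Filter ℕ), φ n x ≠ bb i n :=
      ev_of_ge (i + 1) fun l hl =>
        hφx l _ (Finset.mem_image_of_mem (fun i => bb i l) (Finset.mem_range.mpr (by omega)))
    obtain ⟨n, hn1, hn2⟩ := (hi.and h3).exists
    exact hn2 hn1.symm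
  · -- closedness of the image
    have hclosed : ∀ k (N : Polynomial A), N.natDegree ≤ k → N ≠ 0 → ∀ y, N.eval₂ ι y = 0 →
        ∃ u, ι u = y := by
      intro k
      induction k with
      | zero =>
        intro N hk hN y hy
        exfalso
        have h2 : N = C (N.coeff 0) := eq_C_of_natDegree_le_zero hk
        rw [h2, eval₂_C, map_eq_zero_iff _ ι.injective] at hy
        exact hN (by rw [h2, hy, map_zero])
      | succ k ih =>
        intro N hk hN y hy
        by_cases h2 : ∃ u : M, (N.map A.subtype).eval u = 0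
        · obtain ⟨u, hu⟩ := h2
          have huA := hrel N hN u hu
          have h3 : N.IsRoot ⟨u, huA⟩ := by
            rw [IsRoot]
            apply A.subtype.injective
            rw [map_zero, ← hu, eval_map, ← eval₂_id (p := N), hom_eval₂]
            rfl
          rw [← dvd_iff_isRoot] at h3
          obtain ⟨N', rfl⟩ := h3
          have hN' : N' ≠ 0 := by
            rintro rfl
            exact hN (mul_zero _)
          rw [natDegree_mul (X_sub_C_ne_zero _) hN', natDegree_X_sub_C] at hk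
          rw [eval₂_mul, mul_eq_zero] at hy
          rcases hy with hy | hy
          · refine ⟨⟨u, huA⟩, ?_⟩
            rw [eval₂_sub, eval₂_X, eval₂_C, sub_eq_zero] at hy
            exact hy.symm
          · exact ih N' (by omega) hN' y hy
        · push Not at h2
          exact absurd hy (hroot N h2 y)
    intro y hy
    obtain ⟨q, hq, hqy⟩ := hy
    let ρ : P2 p →+* A := (ev1 σ x).codRestrict A hevA
    have hρ : Function.Injective ρ := by
      intro u v huv
      exact hinj (congrArg Subtype.val huv)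
    have h2 : ι.comp ρ = ev1 ((diag (k0 p)).comp (sig0 p)) (ι ⟨x, hxA⟩) := by
      apply Polynomial.ringHom_ext
      · intro f
        rw [RingHom.comp_apply, ev1, coe_eval₂RingHom, eval₂_C]
        have e1 : ρ (C f) = ⟨σ f, hσA f⟩ := by
          apply Subtype.ext
          change ev1 σ x (C f) = σ f
          rw [ev1, coe_eval₂RingHom, eval₂_C]
        rw [e1]
        exact hψσ f
      · rw [RingHom.comp_apply, ev1, coe_eval₂RingHom, eval₂_X]
        congr 1
        apply Subtype.ext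
        change ev1 σ x X = x
        rw [ev1, coe_eval₂RingHom, eval₂_X]
    apply hclosed _ (q.map ρ) le_rfl ((Polynomial.map_ne_zero_iff hρ).mpr hq)
    rw [eval₂_map, h2]
    exact hqy

end BF80
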