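import Pool.Agent.BF80.StarV2

/-!
# Embeddings which respect a given isomorphism of value groups
-/

set_option autoImplicit false
set_option maxSynthPendingDepth 10

open Polynomial Filter

namespace BF80

open FT80

variable {p : ℕ} [Fact p.Prime]

theorem starV {M N : Type} [Field M] [Field N] {σ : P1 p →+* M} {τ : P1 p →+* N}
    (hM : Mdl p σ) (hN : Mdl p τ) (Λ : Subgroup (hM.VGˣ × (mdl_up hN).VGˣ)) (hΛ : PIso Λ)
    (hts : VIn hM (mdl_up hN) Λ (σ X) (diag N (τ X))) (x : M) (hx : ¬ Alg1 σ x)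
    (hdom : ∀ c : M, Alg1 (ev1 σ x) c → ∀ hc : c ≠ 0, ∃ δ, (hM.vu c hc, δ) ∈ Λ)
    (B : Set (UP N)) (hB : B.Countable) :
    ∃ ι : algField (ev1 σ x) →+* UP N, (∀ r h, ι ⟨σ r, h⟩ = diag N (τ r)) ∧
      (∀ h, ι ⟨x, h⟩ ∉ B) ∧
      (∀ h y, Alg1 (ev1 ((diag N).comp τ) (ι ⟨x, h⟩)) y → ∃ u, ι u = y) ∧
      ∀ c : algField (ev1 σ x), c ≠ 0 → VIn hM (mdl_up hN) Λ c (ι c) := by
  by_cases h : ∃ w, Alg1 (ev1 σ x) w ∧ w ≠ 0 ∧ hM.vc w < 1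
  · obtain ⟨w, hw, hw0, hw1⟩ := h
    exact SV.starV_of hM hN Λ hΛ x hx hdom
      (fun F hF B => star1V_II hM hN Λ hΛ hts x hx hdom w hw hw0 hw1 F hF B) B hB
  · exact SV.starV_I hM hN Λ hts x hx (fun w hw hw0 hw1 => h ⟨w, hw, hw0, hw1⟩) B hB

end BF80
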