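import Pool.Agent.BF80.Val
import Pool.Agent.BF80.Diag
import Pool.Agent.BF80.Main

/-!
# Embeddings which respect a given isomorphism of value groups, the countable form
-/

set_option autoImplicit false
set_option maxSynthPendingDepth 10

open Polynomial Filter

namespace BF80

open FT80

variable {p : ℕ} [Fact p.Prime]

namespace SV

/-- the relation is a function -/
theorem piso_fun {Γ Δ : Type*} [CommGroup Γ] [CommGroup Δ] [LinearOrder Γ] [LinearOrder Δ]
    [IsOrderedMonoid Δ] {Λ : Subgroup (Γ × Δ)} (h : PIso Λ) {γ : Γ} {δ δ' : Δ}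
    (h1 : (γ, δ) ∈ Λ) (h2 : (γ, δ') ∈ Λ) : δ = δ' := by
  have h3 := (h.le _ (Λ.mul_mem h1 (Λ.inv_mem h2))).1 (by simp)
  have h4 := (h.le _ (Λ.mul_mem h2 (Λ.inv_mem h1))).1 (by simp)
  have h5 : δ * δ'⁻¹ ≤ 1 := h3
  have h6 : δ' * δ⁻¹ ≤ 1 := h4
  exact le_antisymm (mul_inv_le_one_iff.1 h5) (mul_inv_le_one_iff.1 h6)

omit [Fact p.Prime] in
theorem vu_eq_iff {M : Type} [Field M] {σ : P1 p →+* M} (hM : Mdl p σ) {x y : M} (hx : x ≠ 0)
    (hy : y ≠ 0) : hM.vu x hx = hM.vu y hy ↔ hM.fv x = hM.fv y := by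
  rw [Units.ext_iff]
  rfl

theorem fv_eq_iff {M : Type} [Field M] {σ : P1 p →+* M} (hM : Mdl p σ) {x y : M} (hx : x ≠ 0)
    (hy : y ≠ 0) : hM.fv x = hM.fv y ↔ VO (σ X) (x / y) ∧ VO (σ X) (y / x) := by
  rw [← hM.fv_le_one, ← hM.fv_le_one, map_div₀, map_div₀]
  have h1 : (0 : hM.VG) < hM.fv x := zero_lt_iff.2 ((Valuation.ne_zero_iff _).2 hx)
  have h2 : (0 : hM.VG) < hM.fv y := zero_lt_iff.2 ((Valuation.ne_zero_iff _).2 hy)
  rw [div_le_one₀ h2, div_le_one₀ h1]
  exact ⟨fun h => ⟨h.le, h.ge⟩, fun h => le_antisymm h.1 h.2⟩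

/-- the valuation ring is preserved -/
theorem VO_acl {M : Type} [Field M] {N : Type} [Field N] {σ : P1 p →+* M} (x : M)
    {τ : P1 p →+* N} (ι : algField (ev1 σ x) →+* N) (hι : ∀ r h, ι ⟨σ r, h⟩ = τ r)
    (c : algField (ev1 σ x)) (hc : VO (σ X) (c : M)) : VO (τ X) (ι c) := by
  obtain ⟨y, hy⟩ := hc
  have hyA : y ∈ algField (ev1 σ x) := by
    refine alg1_trans (N := X ^ 2 + X + C (-(σ X * (c : M) ^ 2))) ?_ ?_ ?_
    · have hm : (X ^ 2 + X + C (-(σ X * (c : M) ^ 2)) : Polynomial M).Monic := by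
        have h1 : (X ^ 2 + X + C (-(σ X * (c : M) ^ 2)) : Polynomial M) =
            X ^ 2 + (X + C (-(σ X * (c : M) ^ 2))) := by ring
        rw [h1]
        refine monic_X_pow_add (lt_of_le_of_lt (degree_X_add_C _).le ?_)
        norm_num
      exact hm.ne_zero
    · intro i
      have h2 : -(σ X * (c : M) ^ 2) ∈ algField (ev1 σ x) :=
        neg_mem (mul_mem (σ_mem_acl x X) (pow_mem c.2 2))
      rw [coeff_add, coeff_add, coeff_X_pow, coeff_X, coeff_C]
      refine add_mem (S := Subfield M) (s := algField (ev1 σ x)) (add_mem ?_ ?_) ?_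
      · split_ifs
        · exact one_mem _
        · exact zero_mem _
      · split_ifs
        · exact one_mem _
        · exact zero_mem _
      · split_ifs
        · exact h2
        · exact zero_mem _
    · simp only [eval_add, eval_pow, eval_X, eval_C]
      rw [hy]
      ring
  have h3 : (⟨y, hyA⟩ : algField (ev1 σ x)) ^ 2 + ⟨y, hyA⟩ =
      ⟨σ X, σ_mem_acl x X⟩ * c ^ 2 := Subtype.ext hy
  refine ⟨ι ⟨y, hyA⟩, ?_⟩
  rw [← map_pow, ← map_add, h3, map_mul, map_pow, hι]

/-- case I: no infinitesimals -/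
theorem starV_I {M N : Type} [Field M] [Field N] {σ : P1 p →+* M} {τ : P1 p →+* N}
    (hM : Mdl p σ) (hN : Mdl p τ) (Λ : Subgroup (hM.VGˣ × (mdl_up hN).VGˣ))
    (hts : VIn hM (mdl_up hN) Λ (σ X) (diag N (τ X))) (x : M) (hx : ¬ Alg1 σ x)
    (hno : ∀ c : M, Alg1 (ev1 σ x) c → c ≠ 0 → ¬ hM.vc c < 1)
    (B : Set (UP N)) (hB : B.Countable) :
    ∃ ι : algField (ev1 σ x) →+* UP N, (∀ r h, ι ⟨σ r, h⟩ = diag N (τ r)) ∧
      (∀ h, ι ⟨x, h⟩ ∉ B) ∧
      (∀ h y, Alg1 (ev1 ((diag N).comp τ) (ι ⟨x, h⟩)) y → ∃ u, ι u = y) ∧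
      ∀ c : algField (ev1 σ x), c ≠ 0 → VIn hM (mdl_up hN) Λ c (ι c) := by
  obtain ⟨j, hJ⟩ := exists_jok hN
  have hB' : (upJ j ⁻¹' B).Countable := hB.preimage_of_injOn ((upJ j).injective.injOn)
  obtain ⟨ι, h3, h4, h5, h6⟩ := starC hM x hx _ hB'
  have hJ' : ∀ r, upJ j (((diag (k0 p)).comp (sig0 p)) r) = ((diag N).comp τ) r := by
    intro r
    show cl N (fun _ => j (sig0 p r)) = cl N (fun _ => τ r)
    simp only [hJ.1]
  have hι : ∀ r h, ι ⟨σ r, h⟩ = ((diag (k0 p)).comp (sig0 p)) r := by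
    intro r h
    obtain ⟨_, h7⟩ := h3 r
    exact h7
  have hw : ¬ Alg1 ((diag (k0 p)).comp (sig0 p)) (ι ⟨x, h4⟩) := by
    intro h
    exact hx ((alg1_iota ι (σ_mem_acl x) hι ⟨x, h4⟩).1 h)
  have hι2 : ∀ r h, (upJ j).comp ι ⟨σ r, h⟩ = ((diag N).comp τ) r := by
    intro r h
    rw [RingHom.comp_apply, hι]
    exact hJ' r
  refine ⟨(upJ j).comp ι, hι2, fun _ => h5, ?_, ?_⟩
  · intro h y hy
    obtain ⟨z, rfl⟩ := relClosed hJ hw hy
    have h7 : Alg1 (ev1 ((diag (k0 p)).comp (sig0 p)) (ι ⟨x, h4⟩)) z :=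
      (alg2_hom (upJ j) hJ' _ _).1 hy
    obtain ⟨u, hu⟩ := h6 z h7
    exact ⟨u, by rw [RingHom.comp_apply, hu]⟩
  · intro c hc
    have hc0 : (c : M) ≠ 0 := fun h => hc (Subtype.ext h)
    have hic0 : ((upJ j).comp ι) c ≠ 0 := by
      rwa [ne_eq, map_eq_zero_iff _ ((upJ j).comp ι).injective]
    have hvc : hM.vc (c : M) = 1 := by
      have h8 := hno c c.2 hc0
      have h9 := hno (c : M)⁻¹ (inv_mem (S := Subfield M) (s := algField (ev1 σ x)) c.2)
        (inv_ne_zero hc0)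
      rw [map_inv₀] at h9
      have h10 : (0 : hM.OC.ValueGroup) < hM.vc (c : M) :=
        zero_lt_iff.2 ((Valuation.ne_zero_iff _).2 hc0)
      rw [inv_lt_one₀ h10] at h9
      exact le_antisymm (not_lt.1 h9) (not_lt.1 h8)
    obtain ⟨m, hm⟩ := hM.fv_of_vc (c : M) hvc
    have ht := hM.t_ne
    have htU := (mdl_up hN).t_ne
    have htm : σ X ^ m ≠ 0 := zpow_ne_zero m ht
    have htm' : ((diag N).comp τ) X ^ m ≠ 0 := zpow_ne_zero m htU
    let T : algField (ev1 σ x) := ⟨σ X, σ_mem_acl x X⟩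
    have hT : ((upJ j).comp ι) T = ((diag N).comp τ) X := hι2 X _
    have hm' : (mdl_up hN).fv (((upJ j).comp ι) c) = (mdl_up hN).fv (((diag N).comp τ) X ^ m) := by
      rw [← map_zpow₀, fv_eq_iff hM hc0 htm] at hm
      rw [fv_eq_iff (mdl_up hN) hic0 htm']
      constructor
      · have h11 := VO_acl x ((upJ j).comp ι) hι2 (c / T ^ m) hm.1
        rw [map_div₀, map_zpow₀, hT] at h11
        exact h11
      · have h11 := VO_acl x ((upJ j).comp ι) hι2 (T ^ m / c) hm.2
        rw [map_div₀, map_zpow₀, hT] at h11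
        exact h11
    refine ⟨hc0, hic0, ?_⟩
    obtain ⟨h12, h13, h14⟩ := hts
    have h15 := Λ.zpow_mem h14 m
    have h16 : (hM.vu c hc0, (mdl_up hN).vu (((upJ j).comp ι) c) hic0) =
        (hM.vu (σ X) h12, (mdl_up hN).vu (diag N (τ X)) h13) ^ m := by
      refine Prod.ext (Units.ext ?_) (Units.ext ?_)
      · show hM.fv c = ((hM.vu (σ X) h12 ^ m : hM.VGˣ) : hM.VG)
        rw [hm, Units.val_zpow_eq_zpow_val]
        rfl
      · show (mdl_up hN).fv (((upJ j).comp ι) c) =
          (((mdl_up hN).vu (diag N (τ X)) h13 ^ m : (mdl_up hN).VGˣ) : (mdl_up hN).VG)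
        rw [hm', Units.val_zpow_eq_zpow_val, map_zpow₀]
        rfl
    rw [h16]
    exact h15

/-- from finitely many to countably many conditions -/
theorem starV_of {M N : Type} [Field M] [Field N] {σ : P1 p →+* M} {τ : P1 p →+* N}
    (hM : Mdl p σ) (hN : Mdl p τ) (Λ : Subgroup (hM.VGˣ × (mdl_up hN).VGˣ)) (hΛ : PIso Λ)
    (x : M) (hx : ¬ Alg1 σ x)
    (hdom : ∀ c : M, Alg1 (ev1 σ x) c → ∀ hc : c ≠ 0, ∃ δ, (hM.vu c hc, δ) ∈ Λ)
    (h1 : ∀ F : Finset M, (∀ a ∈ F, Alg1 (ev1 σ x) a) → ∀ B : Finset (UP N),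
      ∃ (E : Subfield M) (ι : E →+* UP N) (hxE : x ∈ E), (∀ a ∈ F, a ∈ E) ∧ ι ⟨x, hxE⟩ ∉ B ∧
        (∀ f : P1 p, ∃ h : σ f ∈ E, ι ⟨σ f, h⟩ = diag N (τ f)) ∧
        (∀ P : Polynomial E, (∃ y : UP N, P.eval₂ ι y = 0) →
          ∃ y : M, P.eval₂ E.subtype y = 0) ∧
        ∀ c : E, c ≠ 0 → VIn hM (mdl_up hN) Λ c (ι c))
    (B : Set (UP N)) (hB : B.Countable) :
    ∃ ι : algField (ev1 σ x) →+* UP N, (∀ r h, ι ⟨σ r, h⟩ = diag N (τ r)) ∧
      (∀ h, ι ⟨x, h⟩ ∉ B) ∧
      (∀ h y, Alg1 (ev1 ((diag N).comp τ) (ι ⟨x, h⟩)) y → ∃ u, ι u = y) ∧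
      ∀ c : algField (ev1 σ x), c ≠ 0 → VIn hM (mdl_up hN) Λ c (ι c) := by
  classical
  have hinj : Function.Injective (ev1 σ x) := ev1_inj hx
  set A := algField (ev1 σ x) with hA
  have : Countable (ZMod p) := by
    have : NeZero p := ⟨(Fact.out : p.Prime).ne_zero⟩
    infer_instance
  have : Countable (P1 p) := countable_poly _
  have hAc : (A : Set M).Countable := acl_countable hx
  have : Countable A := hAc.to_subtype
  have : Countable (Polynomial A) := countable_poly _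
  have hσA : ∀ f, σ f ∈ A := σ_mem_acl x
  have hxA : x ∈ A := x_mem_acl x
  have hevA : ∀ q : P2 p, ev1 σ x q ∈ A := fun q => alg1_map (ev1 σ x) q
  -- relative algebraic closedness
  have hrel : ∀ N : Polynomial A, N ≠ 0 → ∀ u : M, (N.map A.subtype).eval u = 0 → u ∈ A := by
    intro N hN u hu
    refine alg1_trans (σ := ev1 σ x) (N := N.map A.subtype) ?_ ?_ hu
    · rwa [ne_eq, Polynomial.map_eq_zero_iff A.subtype.injective]
    · intro i
      rw [coeff_map]
      exact (N.coeff i).2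
  -- representatives of the values
  have hD : ∀ a : A, ∃ D : ℕ → N, a ≠ 0 → ∃ (ha : (a : M) ≠ 0) (hD : cl N D ≠ 0),
      (hM.vu a ha, (mdl_up hN).vu (cl N D) hD) ∈ Λ := by
    intro a
    by_cases ha : a = 0
    · exact ⟨0, fun h => absurd ha h⟩
    · have ha' : (a : M) ≠ 0 := fun h => ha (Subtype.ext h)
      obtain ⟨δ, hδ⟩ := hdom a a.2 ha'
      obtain ⟨d, hd, rfl⟩ := (mdl_up hN).vu_surj δ
      obtain ⟨D, rfl⟩ := cl_surj d
      exact ⟨D, fun _ => ⟨ha', hd, hδ⟩⟩
  choose D hD using hD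
  -- enumerations
  obtain ⟨a, ha⟩ := exists_surjective_nat A
  obtain ⟨Nn, hNn⟩ := exists_surjective_nat (Polynomial A)
  obtain ⟨ff, hff⟩ := exists_surjective_nat (P1 p)
  obtain ⟨b, hb⟩ := (hB.insert 0).exists_eq_range ⟨0, Set.mem_insert _ _⟩
  have hbb : ∀ i, ∃ r : ℕ → N, cl N r = b i := fun i => cl_surj _
  choose bb hbb using hbb
  -- the conditions
  let Cnd : ℕ → ℕ → (M → N) → Prop := fun i l φ =>
    (φ ((a i.unpair.1 : M) + a i.unpair.2) = φ (a i.unpair.1) + φ (a i.unpair.2)) ∧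
    (φ ((a i.unpair.1 : M) * a i.unpair.2) = φ (a i.unpair.1) * φ (a i.unpair.2)) ∧
    (φ (σ (ff i)) = τ (ff i)) ∧
    ((∀ y : M, ((Nn i).map A.subtype).eval y ≠ 0) →
      ∀ y : N, pe φ ((Nn i).map A.subtype) y ≠ 0) ∧
    (φ x ≠ bb i l) ∧
    (a i ≠ 0 → VO (τ X) (φ (a i) / D (a i) l) ∧ VO (τ X) (D (a i) l / φ (a i)))
  have key : ∀ m : ℕ, ∀ᶠ l in ((hyperfilter ℕ : Ultrafilter ℕ) : Filter ℕ),
      ∃ φ : M → N, ∀ i < m, Cnd i l φ := by
    intro m
    let F : Finset M := (Finset.range m).image (fun i => (a i : M)) ∪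
      ((Finset.range m).image (fun i => (a i.unpair.1 : M)) ∪
      ((Finset.range m).image (fun i => (a i.unpair.2 : M)) ∪
      (Finset.range m).biUnion (fun i => (Finset.range ((Nn i).natDegree + 1)).image
        fun j => ((Nn i).coeff j : M))))
    have hFalg : ∀ c ∈ F, Alg1 (ev1 σ x) c := by
      intro c hc
      simp only [F, Finset.mem_union, Finset.mem_image, Finset.mem_biUnion] at hc
      rcases hc with ⟨i, _, rfl⟩ | ⟨i, _, rfl⟩ | ⟨i, _, rfl⟩ | ⟨i, _, j, _, rfl⟩
      · exact (a i).2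
      · exact (a _).2
      · exact (a _).2
      · exact ((Nn i).coeff j).2
    obtain ⟨E, ι, hxE, hFE, hBn, hσι, hroot, hval⟩ :=
      h1 F hFalg ((Finset.range m).image b)
    have hE1 : ∀ i < m, (a i : M) ∈ E := fun i hi => hFE _ (Finset.mem_union_left _
      (Finset.mem_image_of_mem _ (Finset.mem_range.2 hi)))
    have hE2 : ∀ i < m, (a i.unpair.1 : M) ∈ E := fun i hi => hFE _ (Finset.mem_union_right _
      (Finset.mem_union_left _ (Finset.mem_image_of_mem (fun i => (a (Nat.unpair i).1 : M))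
        (Finset.mem_range.2 hi))))
    have hE3 : ∀ i < m, (a i.unpair.2 : M) ∈ E := fun i hi => hFE _ (Finset.mem_union_right _
      (Finset.mem_union_right _ (Finset.mem_union_left _
        (Finset.mem_image_of_mem (fun i => (a (Nat.unpair i).2 : M)) (Finset.mem_range.2 hi)))))
    have hE4 : ∀ i < m, ∀ j < (Nn i).natDegree + 1, ((Nn i).coeff j : M) ∈ E := by
      intro i hi j hj
      refine hFE _ (Finset.mem_union_right _ (Finset.mem_union_right _
        (Finset.mem_union_right _ ?_)))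
      rw [Finset.mem_biUnion]
      exact ⟨i, Finset.mem_range.2 hi, Finset.mem_image_of_mem
        (fun j => ((Nn i).coeff j : M)) (Finset.mem_range.2 hj)⟩
    have hrep : ∀ e : E, ∃ r : ℕ → N, cl N r = ι e := fun e => cl_surj (ι e)
    choose rep hrep using hrep
    let φ : ℕ → M → N := fun n a => if h : a ∈ E then rep ⟨a, h⟩ n else 0
    have hφ : ∀ n (e : E), φ n e = rep e n := by
      intro n e
      simp only [φ]
      rw [dif_pos e.2]
    have hι : ∀ e : E, ι e = cl N (fun n => φ n e) := by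
      intro e
      rw [← hrep e]
      congr 1
      funext n
      exact (hφ n e).symm
    have hall : ∀ i < m, ∀ᶠ l in ((hyperfilter ℕ : Ultrafilter ℕ) : Filter ℕ),
        Cnd i l (φ l) := by
      intro i hi
      have c1 : ∀ᶠ l in ((hyperfilter ℕ : Ultrafilter ℕ) : Filter ℕ),
          φ l ((a i.unpair.1 : M) + a i.unpair.2) = φ l (a i.unpair.1) + φ l (a i.unpair.2) := by
        have e1 := hι (⟨a i.unpair.1, hE2 i hi⟩ + ⟨a i.unpair.2, hE3 i hi⟩)
        rw [map_add, hι ⟨a i.unpair.1, hE2 i hi⟩, hι ⟨a i.unpair.2, hE3 i hi⟩, ← map_add] at e1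
        exact (cl_eq _ _).1 e1.symm
      have c2 : ∀ᶠ l in ((hyperfilter ℕ : Ultrafilter ℕ) : Filter ℕ),
          φ l ((a i.unpair.1 : M) * a i.unpair.2) = φ l (a i.unpair.1) * φ l (a i.unpair.2) := by
        have e1 := hι (⟨a i.unpair.1, hE2 i hi⟩ * ⟨a i.unpair.2, hE3 i hi⟩)
        rw [map_mul, hι ⟨a i.unpair.1, hE2 i hi⟩, hι ⟨a i.unpair.2, hE3 i hi⟩, ← map_mul] at e1
        exact (cl_eq _ _).1 e1.symm
      have c3 : ∀ᶠ l in ((hyperfilter ℕ : Ultrafilter ℕ) : Filter ℕ),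
          φ l (σ (ff i)) = τ (ff i) := by
        obtain ⟨h, hf⟩ := hσι (ff i)
        have h2 : cl N (fun n => φ n (σ (ff i))) = cl N (fun _ => τ (ff i)) := by
          rw [cl_const, ← hf]
          exact (hι ⟨σ (ff i), h⟩).symm
        exact (cl_eq _ _).1 h2
      have c4 : (∀ y : M, ((Nn i).map A.subtype).eval y ≠ 0) →
          ∀ᶠ l in ((hyperfilter ℕ : Ultrafilter ℕ) : Filter ℕ),
            ∀ y : N, pe (φ l) ((Nn i).map A.subtype) y ≠ 0 := by
        intro hno
        by_contra hcon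
        rw [← Ultrafilter.eventually_not] at hcon
        have hcon' : ∀ᶠ l in ((hyperfilter ℕ : Ultrafilter ℕ) : Filter ℕ),
            ∃ y : N, pe (φ l) ((Nn i).map A.subtype) y = 0 := by
          filter_upwards [hcon] with n hn
          by_contra h
          exact hn fun y hy => h ⟨y, hy⟩
        obtain ⟨y, hy⟩ := hcon'.choice
        have hl : (Nn i).map A.subtype ∈ lifts E.subtype := by
          rw [lifts_iff_coeff_lifts]
          intro j
          rw [coeff_map]
          by_cases hj : j < (Nn i).natDegree + 1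
          · exact ⟨⟨((Nn i).coeff j : M), hE4 i hi j hj⟩, rfl⟩
          · rw [coeff_eq_zero_of_natDegree_lt (by omega)]
            exact ⟨0, rfl⟩
        rw [mem_lifts] at hl
        obtain ⟨N', hN'⟩ := hl
        have h2 : N'.eval₂ ι (cl N y) = 0 := by
          rw [eval₂_cl ι φ hι, hN', ← map_zero (cl N), cl_eq]
          exact hy
        obtain ⟨z, hz⟩ := hroot N' ⟨_, h2⟩
        rw [← eval_map, hN'] at hz
        exact hno z hz
      have c5 : ∀ᶠ l in ((hyperfilter ℕ : Ultrafilter ℕ) : Filter ℕ), φ l x ≠ bb i l := by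
        by_contra hcon
        rw [← Ultrafilter.eventually_not] at hcon
        apply hBn
        have h2 : ι ⟨x, hxE⟩ = b i := by
          rw [hι, ← hbb i, cl_eq]
          filter_upwards [hcon] with n hn
          by_contra h
          exact hn h
        rw [h2]
        exact Finset.mem_image_of_mem _ (Finset.mem_range.2 hi)
      have c6 : a i ≠ 0 → ∀ᶠ l in ((hyperfilter ℕ : Ultrafilter ℕ) : Filter ℕ),
          VO (τ X) (φ l (a i) / D (a i) l) ∧ VO (τ X) (D (a i) l / φ l (a i)) := by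
        intro hai
        obtain ⟨h2, h3, h4⟩ := hD (a i) hai
        have h5 : (⟨a i, hE1 i hi⟩ : E) ≠ 0 := fun h => h2 (congrArg Subtype.val h)
        obtain ⟨h6, h7, h8⟩ := hval ⟨a i, hE1 i hi⟩ h5
        have h9 := piso_fun hΛ h8 h4
        rw [vu_eq_iff, fv_eq_iff (mdl_up hN) h7 h3] at h9
        rw [hι ⟨a i, hE1 i hi⟩] at h9
        obtain ⟨h10, h11⟩ := h9
        rw [cl_div] at h10 h11
        have h12 := (VO_cl (τ X) _).1 h10
        have h13 := (VO_cl (τ X) _).1 h11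
        exact h12.and h13
      by_cases hno : ∀ y : M, ((Nn i).map A.subtype).eval y ≠ 0
      · by_cases hai : a i ≠ 0
        · filter_upwards [c1, c2, c3, c4 hno, c5, c6 hai] with l d1 d2 d3 d4 d5 d6
          exact ⟨d1, d2, d3, fun _ => d4, d5, fun _ => d6⟩
        · filter_upwards [c1, c2, c3, c4 hno, c5] with l d1 d2 d3 d4 d5
          exact ⟨d1, d2, d3, fun _ => d4, d5, fun h => absurd h hai⟩
      · by_cases hai : a i ≠ 0
        · filter_upwards [c1, c2, c3, c5, c6 hai] with l d1 d2 d3 d5 d6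
          exact ⟨d1, d2, d3, fun h => absurd h hno, d5, fun _ => d6⟩
        · filter_upwards [c1, c2, c3, c5] with l d1 d2 d3 d5
          exact ⟨d1, d2, d3, fun h => absurd h hno, d5, fun h => absurd h hai⟩
    have hall2 : ∀ᶠ l in ((hyperfilter ℕ : Ultrafilter ℕ) : Filter ℕ),
        ∀ i ∈ Finset.range m, Cnd i l (φ l) := by
      rw [eventually_all_finset]
      intro i hi
      exact hall i (Finset.mem_range.1 hi)
    filter_upwards [hall2] with l hl
    exact ⟨φ l, fun i hi => hl i (Finset.mem_range.2 hi)⟩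
  obtain ⟨φ, hφ⟩ := exists_diag Cnd key
  -- the embedding
  let ψ : M → UP N := fun c => cl N (fun l => φ l c)
  have hψ : ∀ c, ψ c = cl N (fun l => φ l c) := fun c => rfl
  have hψσ : ∀ f : P1 p, ψ (σ f) = diag N (τ f) := by
    intro f
    obtain ⟨i, rfl⟩ := hff f
    rw [hψ, ← cl_const, cl_eq]
    filter_upwards [hφ i] with l hl
    exact hl.2.2.1
  have hψadd : ∀ c d : A, ψ ((c : M) + d) = ψ c + ψ d := by
    intro c d
    obtain ⟨i, rfl⟩ := ha c
    obtain ⟨j, rfl⟩ := ha d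
    rw [hψ, hψ, hψ, ← map_add, cl_eq]
    filter_upwards [hφ (Nat.pair i j)] with l hl
    have := hl.1
    rw [Nat.unpair_pair] at this
    exact this
  have hψmul : ∀ c d : A, ψ ((c : M) * d) = ψ c * ψ d := by
    intro c d
    obtain ⟨i, rfl⟩ := ha c
    obtain ⟨j, rfl⟩ := ha d
    rw [hψ, hψ, hψ, ← map_mul, cl_eq]
    filter_upwards [hφ (Nat.pair i j)] with l hl
    have := hl.2.1
    rw [Nat.unpair_pair] at this
    exact this
  let ι : A →+* UP N :=
    { toFun := fun c => ψ c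
      map_one' := by
        have := hψσ 1
        rw [map_one, map_one, map_one] at this
        exact this
      map_mul' := hψmul
      map_zero' := by
        have := hψσ 0
        rw [map_zero, map_zero, map_zero] at this
        exact this
      map_add' := hψadd }
  have hι : ∀ e : A, ι e = cl N (fun l => φ l e) := fun e => rfl
  have hroot : ∀ P : Polynomial A, (∀ y : M, (P.map A.subtype).eval y ≠ 0) →
      ∀ y : UP N, P.eval₂ ι y ≠ 0 := by
    intro P hP y hy
    obtain ⟨i, rfl⟩ := hNn P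
    obtain ⟨yy, rfl⟩ := cl_surj y
    rw [eval₂_cl ι φ hι, ← map_zero (cl N), cl_eq] at hy
    obtain ⟨n, hn1, hn2⟩ := (hy.and (hφ i)).exists
    exact hn2.2.2.2.1 hP _ hn1
  refine ⟨ι, fun r h => hψσ r, ?_, ?_, ?_⟩
  · intro _ hmem
    have h2 : ι ⟨x, hxA⟩ ∈ Set.range b := by
      rw [← hb]
      exact Set.mem_insert_of_mem _ hmem
    obtain ⟨i, hi⟩ := h2
    rw [← hbb i, hι, cl_eq] at hi
    obtain ⟨n, hn1, hn2⟩ := (hi.and (hφ i)).exists
    exact hn2.2.2.2.2.1 hn1.symm
  · -- closedness of the image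
    have hclosed : ∀ k (P : Polynomial A), P.natDegree ≤ k → P ≠ 0 → ∀ y, P.eval₂ ι y = 0 →
        ∃ u, ι u = y := by
      intro k
      induction k with
      | zero =>
        intro P hk hP y hy
        exfalso
        have h2 : P = C (P.coeff 0) := eq_C_of_natDegree_le_zero hk
        rw [h2, eval₂_C, map_eq_zero_iff _ ι.injective] at hy
        exact hP (by rw [h2, hy, map_zero])
      | succ k ih =>
        intro P hk hP y hy
        by_cases h2 : ∃ u : M, (P.map A.subtype).eval u = 0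
        · obtain ⟨u, hu⟩ := h2
          have huA := hrel P hP u hu
          have h3 : P.eval ⟨u, huA⟩ = 0 := by
            apply A.subtype.injective
            rw [map_zero, ← hu, eval_map, ← eval₂_id (p := P), hom_eval₂]
            rfl
          rw [← IsRoot.def, ← dvd_iff_isRoot] at h3
          obtain ⟨N', rfl⟩ := h3
          have hN' : N' ≠ 0 := by
            rintro rfl
            exact hP (mul_zero _)
          rw [natDegree_mul (X_sub_C_ne_zero _) hN', natDegree_X_sub_C] at hk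
          rw [eval₂_mul, mul_eq_zero] at hy
          rcases hy with hy | hy
          · refine ⟨⟨u, huA⟩, ?_⟩
            rw [eval₂_sub, eval₂_X, eval₂_C, sub_eq_zero] at hy
            exact hy.symm
          · exact ih N' (by omega) hN' y hy
        · push Not at h2
          exact absurd hy (hroot P h2 y)
    intro hx' y hy
    obtain ⟨q, hq, hqy⟩ := hy
    let ρ : P2 p →+* A := (ev1 σ x).codRestrict A hevA
    have hρ : Function.Injective ρ := by
      intro u v huv
      exact hinj (congrArg Subtype.val huv)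
    have h2 : ι.comp ρ = ev1 ((diag N).comp τ) (ι ⟨x, hx'⟩) := by
      apply Polynomial.ringHom_ext
      · intro f
        rw [RingHom.comp_apply, ev1, coe_eval₂RingHom, eval₂_C]
        have e1 : ρ (C f) = ⟨σ f, hσA f⟩ := by
          apply Subtype.ext
          change ev1 σ x (C f) = σ f
          rw [ev1, coe_eval₂RingHom, eval₂_C]
        rw [e1]
        exact hψσ f
      · rw [RingHom.comp_apply, ev1, coe_eval₂RingHom, eval₂_X]
        congr 1
        apply Subtype.ext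
        change ev1 σ x X = x
        rw [ev1, coe_eval₂RingHom, eval₂_X]
    apply hclosed _ (q.map ρ) le_rfl ((Polynomial.map_ne_zero_iff hρ).mpr hq)
    rw [eval₂_map, h2]
    exact hqy
  · intro c hc
    obtain ⟨i, rfl⟩ := ha c
    obtain ⟨h2, h3, h4⟩ := hD (a i) hc
    have hic0 : ι (a i) ≠ 0 := by
      rwa [ne_eq, map_eq_zero_iff _ ι.injective]
    refine ⟨h2, hic0, ?_⟩
    have h5 : (mdl_up hN).vu (ι (a i)) hic0 = (mdl_up hN).vu (cl N (D (a i))) h3 := by
      rw [vu_eq_iff, fv_eq_iff (mdl_up hN) hic0 h3, hι, cl_div, cl_div]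
      constructor
      · refine (VO_cl (τ X) _).2 ?_
        filter_upwards [hφ i] with l hl
        exact (hl.2.2.2.2.2 hc).1
      · refine (VO_cl (τ X) _).2 ?_
        filter_upwards [hφ i] with l hl
        exact (hl.2.2.2.2.2 hc).2
    rw [h5]
    exact h4

end SV

end BF80
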