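import Pool.Agent.BF80.TargetG1
import Pool.Agent.BF80.Diag
import Pool.Agent.BF80.OT

/-!
# Test elements in an ultrapower with prescribed value
-/

set_option autoImplicit false
set_option maxSynthPendingDepth 10

open Polynomial Filter

namespace BF80

open FT80

namespace TG

variable {p : ℕ} [hp : Fact p.Prime]

theorem ev_ge (N : ℕ) : ∀ᶠ l in ((hyperfilter ℕ : Ultrafilter ℕ) : Filter ℕ), N ≤ l :=
  Nat.hyperfilter_le_atTop (Filter.eventually_ge_atTop N)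

section vals

variable {U : Type} [Field U] {τ : P1 p →+* U} (hU : Mdl p τ)

theorem fv_le {a b : U} (hb : b ≠ 0) : hU.fv a ≤ hU.fv b ↔ VO (τ X) (a / b) := by
  have h1 : hU.fv (a / b) ≤ 1 ↔ VO (τ X) (a / b) := hU.OVv.valuation_le_one_iff _
  rw [← h1, map_div₀, div_le_one₀ (zero_lt_iff.2 ((Valuation.ne_zero_iff _).2 hb))]

theorem fv_eq {a b : U} (ha : a ≠ 0) (hb : b ≠ 0) :
    hU.fv a = hU.fv b ↔ VO (τ X) (a / b) ∧ VO (τ X) (b / a) := by
  rw [le_antisymm_iff, fv_le hU hb, fv_le hU ha]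

end vals

section up

variable {N : Type} [Field N]

theorem Un_cl (t : N) (f : ℕ → N)
    (h : ∀ᶠ l in ((hyperfilter ℕ : Ultrafilter ℕ) : Filter ℕ), Un t (f l)) :
    Un (diag N t) (cl N f) := by
  refine ⟨(VO_cl t f).2 (h.mono fun l hl => hl.vo), ?_, (cl_ne_zero_iff f).2 (h.mono fun l hl => hl.ne)⟩
  rw [cl_inv]
  exact (VO_cl t _).2 (h.mono fun l hl => hl.inv)

end up

end TG

variable {p : ℕ} [Fact p.Prime]

open TG in
/-- test elements in an ultrapower with prescribed value -/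
theorem exists_test {M N : Type} [Field M] [Field N] {σ : P1 p →+* M} {τ : P1 p →+* N}
    (hM : Mdl p σ) (hN : Mdl p τ) (jM : k0 p →+* M) (hjM : ∀ f, jM (sig0 p f) = σ f)
    (jN : k0 p →+* N) (hjN : ∀ f, jN (sig0 p f) = τ f) (π : M) (hπ0 : π ≠ 0) (δ : UP N)
    (hδ0 : δ ≠ 0) (hδ1 : (mdl_up hN).vc δ < 1)
    (hδ2 : ∀ n : ℕ, n ≠ 0 → ∀ j : ℕ, (∃ y : M, hM.fv π = hM.fv (σ X ^ j * y ^ n)) →
      ∃ y : UP N, (mdl_up hN).fv δ = (mdl_up hN).fv (diag N (τ X) ^ j * y ^ n))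
    (Z : Finset (UP N)) :
    ∃ (T : UP N) (hT : VO (((diag N).comp τ) X) T) (h : UP N), T ≠ 0 ∧ (mdl_up hN).vc T < 1 ∧
      h ≠ 0 ∧ h ∉ Z ∧ (mdl_up hN).fv h = (mdl_up hN).fv δ ∧
      ((mdl_up hN).OT T hT).valuation h < 1 ∧
      (∀ (e : ℕ) (π' u : UP N) (ζ : k0 p), ζ ≠ 0 → h = π' ^ e * u →
        ((mdl_up hN).OT T hT).valuation (u - diag N (jN ζ)) < 1 → ¬ p ∣ e) ∧
      ∀ e : ℕ, ¬ p ∣ e → ∀ ζ : k0 p, ζ ≠ 0 → ∀ z : UP N, diag N (jN ζ) * z ^ e = h →
        ∃ g : M, jM ζ * g ^ e = π := by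
  classical
  have hp : p.Prime := Fact.out
  have hp2 : 2 ≤ p := hp.two_le
  have htM := hM.t_ne
  have ht := hN.t_ne
  have hU := mdl_up hN
  have hX : ((diag N).comp τ) X = diag N (τ X) := rfl
  have hdX : diag N (τ X) = cl N (fun _ => τ X) := rfl
  have htU : diag N (τ X) ≠ 0 := hU.t_ne
  -- coordinates of `π`
  have hpow := fun n : ℕ => hM.pow (nn p n) (nn_not_dvd n) π hπ0
  choose γ hγp jj hjj y hγ1 hπ using hpow
  have hγnd : ∀ n, ¬ p ∣ γ n := fun n h => absurd (Nat.le_of_dvd (hγ1 n) h) (not_le.2 (hγp n))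
  have hnn1 : ∀ n, 1 ≤ nn p n := fun n => nn_pos n
  have hy0 : ∀ n, y n ≠ 0 := by
    intro n h
    apply hπ0
    rw [hπ n, h, zero_pow (by have := hnn1 n; omega), mul_zero]
  -- coordinates of `δ`
  obtain ⟨Dl, hDl⟩ := cl_surj δ
  have hδu : ∀ m : ℕ, ∀ᶠ l in ((hyperfilter ℕ : Ultrafilter ℕ) : Filter ℕ), ∃ y' : N, y' ≠ 0 ∧
      VO (τ X) (Dl l / (τ X ^ jj m * y' ^ nn p m)) ∧
      VO (τ X) ((τ X ^ jj m * y' ^ nn p m) / Dl l) := by
    intro m
    obtain ⟨Y, hY⟩ := hδ2 (nn p m) (by have := hnn1 m; omega) (jj m) ⟨y m, by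
      rw [fv_eq hM hπ0 (mul_ne_zero (pow_ne_zero _ htM) (pow_ne_zero _ (hy0 m)))]
      have h1 := Un.nat hM (hγnd m)
      have h2 : π / (σ X ^ jj m * y m ^ nn p m) = (γ m : M) := by
        conv_lhs => rw [hπ m]
        have := hy0 m
        field_simp
      have h3 : (σ X ^ jj m * y m ^ nn p m) / π = ((γ m : ℕ) : M)⁻¹ := by
        rw [← h2, inv_div]
      rw [h2, h3]
      exact ⟨h1.vo, h1.inv⟩⟩
    have hY0 : Y ≠ 0 := by
      rintro rfl
      rw [zero_pow (by have := hnn1 m; omega), mul_zero, map_zero] at hY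
      exact (Valuation.ne_zero_iff _).2 hδ0 hY
    rw [fv_eq hU hδ0 (mul_ne_zero (pow_ne_zero _ htU) (pow_ne_zero _ hY0))] at hY
    obtain ⟨Yl, rfl⟩ := cl_surj Y
    have h0 := (cl_ne_zero_iff Yl).1 hY0
    have e1 : δ / (diag N (τ X) ^ jj m * cl N Yl ^ nn p m) =
        cl N (fun l => Dl l / (τ X ^ jj m * Yl l ^ nn p m)) := by
      rw [← hDl]; rfl
    have e2 : (diag N (τ X) ^ jj m * cl N Yl ^ nn p m) / δ =
        cl N (fun l => (τ X ^ jj m * Yl l ^ nn p m) / Dl l) := by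
      rw [← hDl]; rfl
    rw [e1, e2, hX, VO_cl, VO_cl] at hY
    filter_upwards [h0, hY.1, hY.2] with l h1 h2 h3
    exact ⟨Yl l, h1, h2, h3⟩
  have hδv : ∀ n : ℕ, ∀ᶠ l in ((hyperfilter ℕ : Ultrafilter ℕ) : Filter ℕ),
      VO (τ X) (Dl l / τ X ^ n) := by
    intro n
    have h1 := hU.vc_lt_one.1 hδ1 n
    have e1 : δ / diag N (τ X) ^ n = cl N (fun l => Dl l / τ X ^ n) := by
      rw [← hDl]; rfl
    rw [hX, e1, VO_cl] at h1
    exact h1
  have hDl0 := (cl_ne_zero_iff Dl).1 (by rw [hDl]; exact hδ0)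
  -- saturation
  obtain ⟨d, hd⟩ := exists_diag (D := ℕ × N × ℕ) (fun i l d => i ≤ d.1 ∧ i ≤ d.2.2 ∧ d.2.1 ≠ 0 ∧
      VO (τ X) (Dl l / (τ X ^ jj d.1 * d.2.1 ^ nn p d.1)) ∧
      VO (τ X) ((τ X ^ jj d.1 * d.2.1 ^ nn p d.1) / Dl l) ∧
      VO (τ X) (Dl l / τ X ^ (i * (1 + p * d.2.2)))) (by
    intro m
    have h1 : ∀ᶠ l in ((hyperfilter ℕ : Ultrafilter ℕ) : Filter ℕ), ∀ i ∈ Finset.range m,
        VO (τ X) (Dl l / τ X ^ (i * (1 + p * m))) :=
      (Filter.eventually_all_finset _).2 fun i _ => hδv _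
    filter_upwards [hδu m, h1] with l h2 h3
    obtain ⟨y', h4, h5, h6⟩ := h2
    refine ⟨(m, y', m), fun i hi => ⟨hi.le, hi.le, h4, h5, h6, h3 i (Finset.mem_range.2 hi)⟩⟩)
  -- the candidates
  obtain ⟨K, hK⟩ : ∃ K : ℕ → ℕ, ∀ l, K l = 1 + p * (d l).2.2 := ⟨_, fun _ => rfl⟩
  obtain ⟨Tl, hTl⟩ : ∃ Tl : ℕ → ℕ → N, ∀ c l, Tl c l = τ X ^ (K l + p * c) := ⟨_, fun _ _ => rfl⟩
  obtain ⟨x, hx⟩ : ∃ x : ℕ → ℕ → N, ∀ c l, x c l = (d l).2.1 * (1 + Tl c l) := ⟨_, fun _ _ => rfl⟩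
  obtain ⟨hl, hhl⟩ : ∃ hl : ℕ → ℕ → N, ∀ c l, hl c l =
    (γ (d l).1 : N) * τ X ^ jj (d l).1 * x c l ^ nn p (d l).1 := ⟨_, fun _ _ => rfl⟩
  have hTVO : ∀ c l, VO (τ X) (Tl c l / τ X) := by
    intro c l
    have e : Tl c l / τ X = τ X ^ (p * (d l).2.2 + p * c) := by
      rw [hTl, hK, show 1 + p * (d l).2.2 + p * c = (p * (d l).2.2 + p * c) + 1 by ring, pow_succ]
      field_simp
    rw [e]
    exact hN.VO_pow hN.VO_t _
  have hTne : ∀ c l, Tl c l ≠ 0 := by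
    intro c l
    rw [hTl]
    exact pow_ne_zero _ ht
  have hT1U : ∀ c l, Un (τ X) (1 + Tl c l) := by
    intro c l
    have e : Tl c l = τ X * (Tl c l / τ X) := by field_simp
    rw [e]
    exact Un.one_add hN (hTVO c l)
  obtain ⟨T, hTe⟩ : ∃ T : ℕ → UP N, ∀ c, T c = cl N (Tl c) := ⟨_, fun _ => rfl⟩
  obtain ⟨h, hh⟩ : ∃ h : ℕ → UP N, ∀ c, h c = cl N (hl c) := ⟨_, fun _ => rfl⟩
  have hT0 : ∀ c, T c ≠ 0 := by
    intro c
    rw [hTe, cl_ne_zero_iff]
    exact Eventually.of_forall fun l => hTne c l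
  have hTV : ∀ c, VO (((diag N).comp τ) X) (T c) := by
    intro c
    rw [hX, hTe, VO_cl]
    refine Eventually.of_forall fun l => ?_
    rw [hTl]
    exact hN.VO_pow hN.VO_t _
  have hT1 : ∀ c, hU.vc (T c) < 1 := by
    intro c
    rw [hU.vc_lt_one]
    intro n
    have e1 : T c / diag N (τ X) ^ n = cl N (fun l => Tl c l / τ X ^ n) := by
      rw [hTe]; rfl
    rw [hX, e1, VO_cl]
    filter_upwards [hd n] with l hl1
    obtain ⟨-, h1, -⟩ := hl1
    have h2 : n ≤ K l + p * c := by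
      rw [hK]
      nlinarith [Nat.zero_le (p * c)]
    have e2 : Tl c l / τ X ^ n = τ X ^ (K l + p * c - n) := by
      rw [hTl, div_eq_iff (pow_ne_zero _ ht), ← pow_add]
      congr 1
      omega
    rw [e2]
    exact hN.VO_pow hN.VO_t _
  have hgood : ∀ c, ∀ᶠ l in ((hyperfilter ℕ : Ultrafilter ℕ) : Filter ℕ), Dl l ≠ 0 ∧ hl c l ≠ 0 ∧
      VO (τ X) (hl c l / Dl l) ∧ VO (τ X) (Dl l / hl c l) := by
    intro c
    filter_upwards [hDl0, hd 0] with l h1 h2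
    obtain ⟨-, -, h3, h4, h5, -⟩ := h2
    have h6 := Un.nat hN (hγnd (d l).1)
    have h7 := Un.pow hN (hT1U c l) (nn p (d l).1)
    have h8 : x c l ^ nn p (d l).1 = (d l).2.1 ^ nn p (d l).1 * (1 + Tl c l) ^ nn p (d l).1 := by
      rw [hx, mul_pow]
    have h9 := h6.ne
    have h10 := h7.ne
    have h11 : (d l).2.1 ^ nn p (d l).1 ≠ 0 := pow_ne_zero _ h3
    have h12 : τ X ^ jj (d l).1 ≠ 0 := pow_ne_zero _ ht
    refine ⟨h1, ?_, ?_, ?_⟩
    · rw [hhl, h8]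
      exact mul_ne_zero (mul_ne_zero h9 h12) (mul_ne_zero h11 h10)
    · have e : hl c l / Dl l = (τ X ^ jj (d l).1 * (d l).2.1 ^ nn p (d l).1) / Dl l *
          (((γ (d l).1 : ℕ) : N) * (1 + Tl c l) ^ nn p (d l).1) := by
        rw [hhl, h8]
        field_simp
      rw [e]
      exact hN.mul _ _ h5 (hN.mul _ _ h6.vo h7.vo)
    · have e : Dl l / hl c l = Dl l / (τ X ^ jj (d l).1 * (d l).2.1 ^ nn p (d l).1) *
          (((γ (d l).1 : ℕ) : N)⁻¹ * ((1 + Tl c l) ^ nn p (d l).1)⁻¹) := by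
        rw [hhl, h8]
        field_simp
      rw [e]
      exact hN.mul _ _ h4 (hN.mul _ _ h6.inv h7.inv)
  have hh0 : ∀ c, h c ≠ 0 := by
    intro c
    rw [hh, cl_ne_zero_iff]
    exact (hgood c).mono fun l h1 => h1.2.1
  have hhfv : ∀ c, hU.fv (h c) = hU.fv δ := by
    intro c
    rw [fv_eq hU (hh0 c) hδ0]
    have e1 : h c / δ = cl N (fun l => hl c l / Dl l) := by
      rw [hh, ← hDl]; rfl
    have e2 : δ / h c = cl N (fun l => Dl l / hl c l) := by
      rw [hh, ← hDl]; rfl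
    rw [e1, e2, hX, VO_cl, VO_cl]
    exact ⟨(hgood c).mono fun l h1 => h1.2.2.1, (hgood c).mono fun l h1 => h1.2.2.2⟩
  have hhT : ∀ c, (hU.OT (T c) (hTV c)).valuation (h c) < 1 := by
    intro c
    rw [hU.OT_lt_one (T c) (hTV c) (hT0 c) (hT1 c)]
    intro n
    have e1 : h c / T c ^ n = cl N (fun l => hl c l / Tl c l ^ n) := by
      rw [hh, hTe]; rfl
    rw [hX, e1, VO_cl]
    filter_upwards [hgood c, hd (2 * n), hd c] with l h1 h2 h3
    obtain ⟨h4, h5, h6, h7⟩ := h1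
    obtain ⟨-, -, -, -, -, h8⟩ := h2
    obtain ⟨-, h9, -⟩ := h3
    have h10 : n * (K l + p * c) ≤ 2 * n * (1 + p * (d l).2.2) := by
      rw [hK]
      have h11 : p * c ≤ p * (d l).2.2 := Nat.mul_le_mul_left _ h9
      have h12 : n * (1 + p * (d l).2.2 + p * c) ≤ n * (2 * (1 + p * (d l).2.2)) :=
        Nat.mul_le_mul_left _ (by omega)
      calc _ ≤ _ := h12
        _ = _ := by ring
    have e2 : hl c l / Tl c l ^ n = (hl c l / Dl l) *
        ((Dl l / τ X ^ (2 * n * (1 + p * (d l).2.2))) *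
          τ X ^ (2 * n * (1 + p * (d l).2.2) - n * (K l + p * c))) := by
      have h13 : τ X ^ (2 * n * (1 + p * (d l).2.2)) = Tl c l ^ n *
          τ X ^ (2 * n * (1 + p * (d l).2.2) - n * (K l + p * c)) := by
        rw [hTl, ← pow_mul, ← pow_add]
        congr 1
        rw [mul_comm (K l + p * c) n]
        omega
      rw [h13]
      have h14 := hTne c l
      have h15 : τ X ^ (2 * n * (1 + p * (d l).2.2) - n * (K l + p * c)) ≠ 0 := pow_ne_zero _ ht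
      field_simp
    rw [e2]
    exact hN.mul _ _ h6 (hN.mul _ _ h8 (hN.VO_pow hN.VO_t _))
  -- quotients of candidates
  have hquot : ∀ c c', c < c' → ∃ ε : UP N, Un (diag N (τ X)) ε ∧ h c / h c' = 1 + T c * ε := by
    intro c c' hcc
    refine ⟨cl N (fun l => ((((1 + Tl c l) / (1 + Tl c' l)) ^ nn p (d l).1 - 1) / Tl c l)), ?_, ?_⟩
    · apply Un_cl
      refine Eventually.of_forall fun l => ?_
      refine quot_unit hN (nn_not_dvd _) (hTne c l) (hTVO c l) ?_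
      have e : Tl c' l / (Tl c l * τ X) = τ X ^ (p * (c' - c) - 1) := by
        rw [div_eq_iff (mul_ne_zero (hTne c l) ht), hTl, hTl, ← pow_succ, ← pow_add]
        congr 1
        obtain ⟨r, rfl⟩ := Nat.exists_eq_add_of_lt hcc
        have h1 : c + r + 1 - c = r + 1 := by omega
        rw [h1]
        have h2 : 1 ≤ p * (r + 1) := by nlinarith
        have h3 : p * (c + r + 1) = p * c + p * (r + 1) := by ring
        rw [h3]
        omega
      rw [e]
      exact hN.VO_pow hN.VO_t _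
    · have e1 : h c / h c' = cl N (fun l => hl c l / hl c' l) := by
        rw [hh, hh]; rfl
      have e2 : 1 + T c * cl N (fun l => ((((1 + Tl c l) / (1 + Tl c' l)) ^ nn p (d l).1 - 1) /
          Tl c l)) = cl N (fun l => 1 + Tl c l *
          ((((1 + Tl c l) / (1 + Tl c' l)) ^ nn p (d l).1 - 1) / Tl c l)) := by
        rw [hTe]; rfl
      rw [e1, e2, cl_eq]
      filter_upwards [hd 0] with l h2
      obtain ⟨-, -, h3, -⟩ := h2
      have h6 := (Un.nat hN (hγnd (d l).1)).ne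
      have h7 := (hT1U c' l).ne
      have h12 : τ X ^ jj (d l).1 ≠ 0 := pow_ne_zero _ ht
      have h13 := hTne c l
      rw [mul_div_cancel₀ _ h13, hhl, hhl, mul_div_mul_left _ _ (mul_ne_zero h6 h12), ← div_pow,
        hx, hx, mul_div_mul_left _ _ h3]
      ring
  have hinj : ∀ c c', c < c' → h c ≠ h c' := by
    intro c c' hcc he
    obtain ⟨ε, hε, h1⟩ := hquot c c' hcc
    rw [he, div_self (hh0 c')] at h1
    have h2 : T c * ε = 0 := by linear_combination -h1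
    exact mul_ne_zero (hT0 c) hε.ne h2
  have hinj' : Function.Injective h := by
    intro a b hab
    rcases lt_trichotomy a b with h1 | h1 | h1
    · exact (hinj _ _ h1 hab).elim
    · exact h1
    · exact (hinj _ _ h1 hab.symm).elim
  obtain ⟨c0, hc0⟩ : ∃ c0, ∀ c, c0 < c → h c ∉ Z := by
    have h1 : (h ⁻¹' (Z : Set (UP N))).Finite := Z.finite_toSet.preimage hinj'.injOn
    obtain ⟨b, hb⟩ := h1.bddAbove
    refine ⟨b, fun c hc hcZ => ?_⟩
    exact absurd (hb (show c ∈ h ⁻¹' (Z : Set (UP N)) from hcZ)) (not_le.2 hc)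
  -- the wild condition
  have hjU : ∀ f, ((diag N).comp jN) (sig0 p f) = ((diag N).comp τ) f := by
    intro f
    rw [RingHom.comp_apply, RingHom.comp_apply, hjN]
  have hwild : ∀ c c', c < c' → (∀ (e : ℕ) (π' u : UP N) (ζ : k0 p), ζ ≠ 0 →
        h c = π' ^ e * u →
        (hU.OT (T c) (hTV c)).valuation (u - diag N (jN ζ)) < 1 → ¬ p ∣ e) ∨
      (∀ (e : ℕ) (π' u : UP N) (ζ : k0 p), ζ ≠ 0 → h c' = π' ^ e * u →
        (hU.OT (T c') (hTV c')).valuation (u - diag N (jN ζ)) < 1 → ¬ p ∣ e) := by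
    intro c c' hcc
    by_contra hcon
    push Not at hcon
    obtain ⟨⟨e1, A, u, ζ, hζ, hA, hu, e1', rfl⟩, ⟨e2, A', u', ζ', hζ', hA', hu', e2', rfl⟩⟩ := hcon
    obtain ⟨ε, hε, hq⟩ := hquot c c' hcc
    rw [hU.OT_lt_one (T c) (hTV c) (hT0 c) (hT1 c)] at hu
    rw [hU.OT_lt_one (T c') (hTV c') (hT0 c') (hT1 c')] at hu'
    have hA'0 : A' ^ e2' ≠ 0 := by
      intro h0
      apply hh0 c'
      rw [hA', mul_comm p e2', pow_mul, h0, zero_pow hp.ne_zero, zero_mul]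
    refine pair_false hU (j := (diag N).comp jN) hjU (T := T c)
      (Y := cl N (fun l => τ X ^ ((d l).2.2 + c))) (hT0 c) (hT1 c) ?_ ?_ (ε := ε) hε
      (A := A ^ e1') (A' := A' ^ e2') (u := u) (u' := u') hζ hζ' hA'0 ?_ hu ?_
    · rw [cl_ne_zero_iff]
      exact Eventually.of_forall fun l => pow_ne_zero _ ht
    · have e3 : ((diag N).comp τ) X * cl N (fun l => τ X ^ ((d l).2.2 + c)) ^ p =
          cl N (fun l => τ X * (τ X ^ ((d l).2.2 + c)) ^ p) := rfl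
      rw [e3, hTe]
      congr 1
      funext l
      rw [hTl, hK, ← pow_mul, ← pow_succ']
      congr 1
      ring
    · rw [← pow_mul, ← pow_mul, mul_comm e1' p, mul_comm e2' p, ← hA, ← hA', hq]
    · intro n
      have hr : VO (diag N (τ X)) (T c' / T c) := by
        have e4 : T c' / T c = cl N (fun l => Tl c' l / Tl c l) := by
          rw [hTe, hTe]; rfl
        rw [e4, VO_cl]
        refine Eventually.of_forall fun l => ?_
        have e5 : Tl c' l / Tl c l = τ X ^ (p * (c' - c)) := by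
          rw [div_eq_iff (hTne c l), hTl, hTl, ← pow_add]
          congr 1
          obtain ⟨r, rfl⟩ := Nat.exists_eq_add_of_lt hcc
          have h1 : c + r + 1 - c = r + 1 := by omega
          rw [h1]
          ring
        rw [e5]
        exact hN.VO_pow hN.VO_t _
      have e6 : (u' - ((diag N).comp jN) ζ') / T c ^ n =
          ((u' - diag N (jN ζ')) / T c' ^ n) * (T c' / T c) ^ n := by
        rw [RingHom.comp_apply, div_pow]
        have h1 := pow_ne_zero n (hT0 c)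
        have h2 := pow_ne_zero n (hT0 c')
        rw [div_mul_div_comm, mul_comm (T c' ^ n) (T c ^ n), mul_div_mul_right _ _ h2]
      rw [e6]
      exact hU.mul _ _ (hu' n) (hU.VO_pow hr n)
  -- the tame condition
  have htame : ∀ c, ∀ e : ℕ, ¬ p ∣ e → ∀ ζ : k0 p, ζ ≠ 0 → ∀ z : UP N,
      diag N (jN ζ) * z ^ e = h c → ∃ g : M, jM ζ * g ^ e = π := by
    intro c e he ζ hζ z hz
    obtain ⟨zl, rfl⟩ := cl_surj z
    have e1 : diag N (jN ζ) * cl N zl ^ e = cl N (fun l => jN ζ * zl l ^ e) := rfl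
    rw [e1, hh, cl_eq] at hz
    obtain ⟨l, h1, h2, h3⟩ := (hz.and ((hd e).and (hgood c))).exists
    obtain ⟨h4, -, h5, -⟩ := h2
    have hx0 : x c l ≠ 0 := by
      rw [hx]
      exact mul_ne_zero h5 (hT1U c l).ne
    refine tame hN hjM hjN he (dvd_nn he h4) hζ hx0 (z := zl l) (γ := γ (d l).1) (jj := jj (d l).1)
      ?_ (hπ (d l).1)
    rw [← hhl]
    exact h1
  rcases hwild (c0 + 1) (c0 + 2) (by omega) with hw | hw
  · exact ⟨T (c0 + 1), hTV _, h (c0 + 1), hT0 _, hT1 _, hh0 _, hc0 _ (by omega), hhfv _, hhT _, hw,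
      htame _⟩
  · exact ⟨T (c0 + 2), hTV _, h (c0 + 2), hT0 _, hT1 _, hh0 _, hc0 _ (by omega), hhfv _, hhT _, hw,
      htame _⟩

end BF80
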