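import Pool.Agent.BF80.StarV0
import Pool.Agent.BF80.TargetG
import Pool.Agent.BF80.CaseIIG

/-!
# Embeddings which respect a given isomorphism of value groups, the finite form of case II
-/

set_option autoImplicit false
set_option maxSynthPendingDepth 10

open Polynomial Filter

namespace BF80

open FT80

variable {p : ℕ} [Fact p.Prime]

namespace SV

omit [Fact p.Prime] in
theorem vu_zpow {M : Type} [Field M] {σ : P1 p →+* M} (hM : Mdl p σ) {x : M} (hx : x ≠ 0)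
    (q : ℤ) : hM.vu (x ^ q) (zpow_ne_zero q hx) = hM.vu x hx ^ q := by
  refine Units.ext ?_
  rw [Units.val_zpow_eq_zpow_val]
  exact map_zpow₀ hM.fv x q

omit [Fact p.Prime] in
theorem vu_mul {M : Type} [Field M] {σ : P1 p →+* M} (hM : Mdl p σ) {x y : M} (hx : x ≠ 0)
    (hy : y ≠ 0) : hM.vu (x * y) (mul_ne_zero hx hy) = hM.vu x hx * hM.vu y hy :=
  Units.ext (map_mul hM.fv x y)

theorem vu_le_one {M : Type} [Field M] {σ : P1 p →+* M} (hM : Mdl p σ) {x : M} (hx : x ≠ 0) :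
    hM.vu x hx ≤ 1 ↔ VO (σ X) x := by
  rw [← hM.fv_le_one, ← Units.val_le_val]
  rfl

end SV

open SV

theorem star1V_II {M N : Type} [Field M] [Field N] {σ : P1 p →+* M} {τ : P1 p →+* N}
    (hM : Mdl p σ) (hN : Mdl p τ) (Λ : Subgroup (hM.VGˣ × (mdl_up hN).VGˣ)) (hΛ : PIso Λ)
    (hts : VIn hM (mdl_up hN) Λ (σ X) (diag N (τ X))) (x : M) (hx : ¬ Alg1 σ x)
    (hdom : ∀ c : M, Alg1 (ev1 σ x) c → ∀ hc : c ≠ 0, ∃ δ, (hM.vu c hc, δ) ∈ Λ)
    (w : M) (hw : Alg1 (ev1 σ x) w) (hw0 : w ≠ 0) (hw1 : hM.vc w < 1) (F : Finset M)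
    (hF : ∀ a ∈ F, Alg1 (ev1 σ x) a) (B : Finset (UP N)) :
    ∃ (E : Subfield M) (ι : E →+* UP N) (hxE : x ∈ E), (∀ a ∈ F, a ∈ E) ∧ ι ⟨x, hxE⟩ ∉ B ∧
      (∀ f : P1 p, ∃ h : σ f ∈ E, ι ⟨σ f, h⟩ = diag N (τ f)) ∧
      (∀ P : Polynomial E, (∃ y : UP N, P.eval₂ ι y = 0) → ∃ y : M, P.eval₂ E.subtype y = 0) ∧
      ∀ c : E, c ≠ 0 → VIn hM (mdl_up hN) Λ c (ι c) := by
  classical
  obtain ⟨jN, hjN, -, -, -⟩ := hN.exists_j
  obtain ⟨j, hj, hjalg, -, -⟩ := hM.exists_j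
  letI : Algebra (k0 p) M := j.toAlgebra
  have hH : HField (k0 p) hM.vc := hM.hfield j hj
  have hjσ : ∀ f : P1 p, algebraMap (k0 p) M (sig0 p f) = σ f := hj
  have hU := mdl_up hN
  have htM := hM.t_ne
  have htU := hU.t_ne
  -- algebraic over `σ(x)` implies algebraic over `k0(x)`
  have halg : ∀ a : M, Alg1 (ev1 σ x) a → AlgH (k0 p) x a := by
    rintro a ⟨P, hP, hPa⟩
    have hinj : Function.Injective (Polynomial.mapRingHom (sig0 p)) := by
      apply Polynomial.map_injective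
      intro f g hfg
      exact tauK_inj' p (congrArg Subtype.val hfg)
    refine ⟨P.map (Polynomial.mapRingHom (sig0 p)), (Polynomial.map_ne_zero_iff hinj).mpr hP, ?_⟩
    have h1 : (ev1 (algebraMap (k0 p) M) x).comp (Polynomial.mapRingHom (sig0 p)) = ev1 σ x := by
      apply Polynomial.ringHom_ext
      · intro f
        rw [RingHom.comp_apply, Polynomial.coe_mapRingHom, Polynomial.map_C, ev1_C, ev1_C]
        exact hjσ f
      · rw [RingHom.comp_apply, Polynomial.coe_mapRingHom, Polynomial.map_X, ev1_X, ev1_X]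
    change (P.map (Polynomial.mapRingHom (sig0 p))).eval₂ (ev1 (algebraMap (k0 p) M) x) a = 0
    rw [eval₂_map, h1]
    exact hPa
  -- `x` is transcendental over `k0`
  have hxtr : ¬ Alg1 (algebraMap (k0 p) M) x := by
    rintro ⟨q, hq, hqx⟩
    apply hx
    let j' : k0 p →+* algField σ := j.codRestrict _ (fun z => (hjalg (j z)).mpr ⟨z, rfl⟩)
    apply rel_closed σ (q.map j') ((Polynomial.map_ne_zero_iff j'.injective).mpr hq)
    rw [eval₂_map]
    exact hqx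
  have hev1inj : Function.Injective (ev1 (algebraMap (k0 p) M) x) := ev1_inj hxtr
  have hkA : ∀ r : k0 p, algebraMap (k0 p) M r ∈ algField (ev1 σ x) := fun r =>
    alg1_lift ((hjalg _).2 ⟨r, rfl⟩)
  -- and conversely
  have halg' : ∀ a : M, AlgH (k0 p) x a → Alg1 (ev1 σ x) a := by
    rintro a ⟨P, hP, hPa⟩
    refine alg1_trans (N := P.map (ev1 (algebraMap (k0 p) M) x)) ?_ ?_ ?_
    · rwa [ne_eq, Polynomial.map_eq_zero_iff hev1inj]
    · intro i
      rw [coeff_map]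
      exact ev1_mem (A := algField (ev1 σ x)) hkA (x_mem_acl x) _
    · rw [eval_map]
      exact hPa
  have hwx : AlgH (k0 p) w x := algH_symm (halg w hw)
  have hwtr : ¬ Alg1 (algebraMap (k0 p) M) w := transc_of_lt hH.nice hw1 hw0
  have hS : ∀ s ∈ insert x F, AlgH (k0 p) w s := by
    intro s hs
    rw [Finset.mem_insert] at hs
    rcases hs with rfl | hs
    · exact hwx
    · exact algH_trans hxtr hwx (halg s (hF s hs))
  obtain ⟨π, hπ0, hπ1, hπv, hπalg, hext⟩ := caseII_gen hH hw1 hw0 (insert x F) hS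
  have hEx : ∀ c ∈ EF (k0 p) w (insert x F), AlgH (k0 p) x c := fun c hc =>
    algH_trans hwtr (halg w hw) (EF_algH hS hc)
  -- the value of `π`
  obtain ⟨δ', hδ'⟩ := hdom π (halg' _ (hEx π π.2)) hπ0
  obtain ⟨d, hd0, rfl⟩ := hU.vu_surj δ'
  obtain ⟨ht1, ht2, ht3⟩ := hts
  have hd1 : hU.vc d < 1 := by
    rw [hU.vc_lt_one]
    intro n
    have h1 := Λ.mul_mem hδ' (Λ.zpow_mem ht3 (-(n : ℤ)))
    have h2 : hM.vu (π : M) hπ0 * hM.vu (σ X) ht1 ^ (-(n : ℤ)) ≤ 1 := by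
      rw [← vu_zpow hM ht1, ← vu_mul, vu_le_one, zpow_neg, zpow_natCast, ← div_eq_mul_inv]
      exact hM.vc_lt_one.1 hπ1 n
    have h3 : hU.vu d hd0 * hU.vu (diag N (τ X)) ht2 ^ (-(n : ℤ)) ≤ 1 := (hΛ.le _ h1).1 h2
    rw [← vu_zpow hU ht2, ← vu_mul, vu_le_one, zpow_neg, zpow_natCast, ← div_eq_mul_inv] at h3
    exact h3
  have hd2 : ∀ n : ℕ, n ≠ 0 → ∀ i : ℕ, (∃ y : M, hM.fv π = hM.fv (σ X ^ i * y ^ n)) →
      ∃ y : UP N, hU.fv d = hU.fv (diag N (τ X) ^ i * y ^ n) := by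
    rintro n hn i ⟨y, hy⟩
    have hy0 : y ≠ 0 := by
      rintro rfl
      rw [zero_pow hn, mul_zero, map_zero] at hy
      exact (Valuation.ne_zero_iff _).2 hπ0 hy
    have h1 := Λ.mul_mem hδ' (Λ.zpow_mem ht3 (-(i : ℤ)))
    have h2 : ∃ b, b ^ n = hM.vu (π : M) hπ0 * hM.vu (σ X) ht1 ^ (-(i : ℤ)) := by
      refine ⟨hM.vu y hy0, ?_⟩
      have h3 : hM.vu (π : M) hπ0 = hM.vu (σ X) ht1 ^ (i : ℤ) * hM.vu y hy0 ^ n := by
        rw [← zpow_natCast (hM.vu y hy0), ← vu_zpow hM ht1, ← vu_zpow hM hy0, ← vu_mul,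
          vu_eq_iff, zpow_natCast, zpow_natCast]
        exact hy
      rw [h3, zpow_neg, mul_comm, inv_mul_cancel_left]
    obtain ⟨b, hb⟩ := (hΛ.dvd n hn _ h1).1 h2
    obtain ⟨z, hz0, rfl⟩ := hU.vu_surj b
    refine ⟨z, ?_⟩
    have h3 : hU.vu z hz0 ^ n = hU.vu d hd0 * hU.vu (diag N (τ X)) ht2 ^ (-(i : ℤ)) := hb
    have h4 : hU.vu d hd0 = hU.vu (diag N (τ X)) ht2 ^ (i : ℤ) * hU.vu z hz0 ^ n := by
      rw [h3, zpow_neg, mul_comm (hU.vu d hd0), mul_inv_cancel_left]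
    rw [← zpow_natCast (hU.vu z hz0), ← vu_zpow hU ht2, ← vu_zpow hU hz0, ← vu_mul,
      vu_eq_iff, zpow_natCast, zpow_natCast] at h4
    exact h4
  -- the forbidden elements
  obtain ⟨P, hP0, hPπ⟩ := hEx π π.2
  let jU : k0 p →+* UP N := (diag N).comp jN
  have hjU : ∀ f, jU (sig0 p f) = ((diag N).comp τ) f := by
    intro f
    show diag N (jN (sig0 p f)) = diag N (τ f)
    rw [hjN]
  let Z : Finset (UP N) := B.biUnion fun b => (P.map (ev1 jU b)).roots.toFinset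
  obtain ⟨T, hT, h, hT0, hT1, hh0, hhZ, hhd, hhT, hw1', hw2'⟩ :=
    exists_test hM hN j hj jN hjN (π : M) hπ0 d hd0 hd1 hd2 Z
  letI : Algebra (k0 p) (UP N) := jU.toAlgebra
  have hHT : HField (k0 p) (hU.OT T hT).valuation := hU.hfield_OT jU hjU T hT hT0 hT1
  obtain ⟨ι, hιπ, hι, hroot⟩ := hext (UP N) _ (hU.OT T hT).valuation hHT h hh0 hhT hw1' hw2'
  let E : Subfield M := (EF (k0 p) w (insert x F)).toSubfield
  let i : E →+* EF (k0 p) w (insert x F) :=
    { toFun := fun a => ⟨a.1, a.2⟩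
      map_one' := rfl
      map_mul' := fun _ _ => rfl
      map_zero' := rfl
      map_add' := fun _ _ => rfl }
  have hmem : ∀ s ∈ insert x F, s ∈ E := fun s hs => mem_EF_of_mem w hs
  have hxE : x ∈ E := hmem x (Finset.mem_insert_self _ _)
  have hσι : ∀ f : P1 p, ∃ h : σ f ∈ E, (ι.comp i) ⟨σ f, h⟩ = diag N (τ f) := by
    intro f
    have h1 : σ f ∈ E := by
      rw [← hjσ f]
      exact (EF (k0 p) w (insert x F)).algebraMap_mem _
    refine ⟨h1, ?_⟩
    have h2 : i ⟨σ f, h1⟩ = algebraMap (k0 p) (EF (k0 p) w (insert x F)) (sig0 p f) :=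
      Subtype.ext (hjσ f).symm
    rw [RingHom.comp_apply, h2, hι]
    exact hjU f
  have hroot' : ∀ P : Polynomial E, (∃ y : UP N, P.eval₂ (ι.comp i) y = 0) →
      ∃ y : M, P.eval₂ E.subtype y = 0 := by
    rintro P ⟨y, hy⟩
    have h1 : (P.map i).eval₂ ι y = 0 := by
      rw [eval₂_map]
      exact hy
    obtain ⟨z, hz⟩ := hroot (P.map i) ⟨y, h1⟩
    refine ⟨z, ?_⟩
    rw [eval₂_map] at hz
    exact hz
  refine ⟨E, ι.comp i, hxE, fun a ha => hmem a (Finset.mem_insert_of_mem ha), ?_, hσι, hroot', ?_⟩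
  · -- `ι x` is not in `B`
    intro hB
    apply hhZ
    rw [Finset.mem_biUnion]
    refine ⟨_, hB, ?_⟩
    set xE : EF (k0 p) w (insert x F) := i ⟨x, hxE⟩ with hxEdef
    have hcomp : ι.comp (algebraMap (k0 p) (EF (k0 p) w (insert x F))) = jU := RingHom.ext hι
    have hev : ∀ q : Polynomial (k0 p), ι (q.eval₂ (algebraMap (k0 p) _) xE) =
        ev1 jU ((ι.comp i) ⟨x, hxE⟩) q := by
      intro q
      rw [hom_eval₂, hcomp]
      rfl
    have hev0 : ∀ q : Polynomial (k0 p),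
        ((q.eval₂ (algebraMap (k0 p) (EF (k0 p) w (insert x F))) xE : EF (k0 p) w (insert x F)) : M)
          = ev1 (algebraMap (k0 p) M) x q := by
      intro q
      have h1 := hom_eval₂ q (algebraMap (k0 p) (EF (k0 p) w (insert x F)))
        (algebraMap (EF (k0 p) w (insert x F)) M) xE
      exact h1
    have hinj2 : Function.Injective (ev1 jU ((ι.comp i) ⟨x, hxE⟩)) := by
      rw [injective_iff_map_eq_zero]
      intro q hq
      rw [← hev, map_eq_zero_iff ι ι.injective] at hq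
      have h1 := hev0 q
      rw [hq] at h1
      exact hev1inj (by rw [← h1, map_zero]; rfl)
    rw [Multiset.mem_toFinset, mem_roots ((Polynomial.map_ne_zero_iff hinj2).2 hP0), IsRoot.def,
      eval_map, ← hιπ]
    -- transport of the equation
    let τ2 : Polynomial (k0 p) →+* EF (k0 p) w (insert x F) :=
      eval₂RingHom (algebraMap (k0 p) _) xE
    have h2 : ι.comp τ2 = ev1 jU ((ι.comp i) ⟨x, hxE⟩) := RingHom.ext hev
    have h3 : (algebraMap (EF (k0 p) w (insert x F)) M).comp τ2 = ev1 (algebraMap (k0 p) M) x :=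
      RingHom.ext hev0
    rw [← h2, ← hom_eval₂]
    have h4 : P.eval₂ τ2 π = 0 := by
      have h5 : algebraMap (EF (k0 p) w (insert x F)) M (P.eval₂ τ2 π) = 0 := by
        rw [hom_eval₂, h3]
        exact hPπ
      exact (map_eq_zero_iff _ (algebraMap (EF (k0 p) w (insert x F)) M).injective).1 h5
    rw [h4, map_zero]
  · -- values
    set ι' := ι.comp i with hι'
    obtain ⟨htE, hιt⟩ := hσι X
    let tE : E := ⟨σ X, htE⟩
    have hιt' : ι' tE = diag N (τ X) := hιt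
    have htE0 : tE ≠ 0 := fun h => htM (congrArg Subtype.val h)
    have hback : ∀ c : E, VO (diag N (τ X)) (ι' c) → VO (σ X) (c : M) := by
      rintro c ⟨y, hy⟩
      obtain ⟨z, hz⟩ := hroot' (X ^ 2 + X - C (tE * c ^ 2)) ⟨y, by
        rw [eval₂_sub, eval₂_add, eval₂_pow, eval₂_X, eval₂_C, map_mul, map_pow, hιt', hy,
          sub_self]⟩
      refine ⟨z, ?_⟩
      rw [eval₂_sub, eval₂_add, eval₂_pow, eval₂_X, eval₂_C, sub_eq_zero] at hz
      exact hz
    have hforw : ∀ c : E, VO (σ X) (c : M) → VO (diag N (τ X)) (ι' c) := by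
      intro c hc
      by_contra hcon
      have hc0 : c ≠ 0 := by
        rintro rfl
        rw [map_zero] at hcon
        exact hcon (VO_zero _)
      have hic0 : ι' c ≠ 0 := by rwa [ne_eq, map_eq_zero_iff _ ι'.injective]
      have h1 : VO (diag N (τ X)) (ι' c)⁻¹ := (hU.inv (ι' c)).resolve_left hcon
      rcases hU.div_t_or_inv h1 with h2 | ⟨-, h2⟩
      · have h3 : (ι' c)⁻¹ / ((diag N).comp τ) X = ι' (c⁻¹ / tE) := by
          rw [map_div₀, map_inv₀, hιt']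
          rfl
        rw [h3] at h2
        have h4 := hback _ h2
        apply hM.tinv
        have h5 := hM.mul _ _ hc h4
        have h6 : (c : M) * ((c⁻¹ / tE : E) : M) = (σ X)⁻¹ := by
          have h7 : (c : M) ≠ 0 := fun h => hc0 (Subtype.ext h)
          have h8 : ((c⁻¹ / tE : E) : M) = (c : M)⁻¹ / σ X := rfl
          rw [h8]
          field_simp
        rwa [h6] at h5
      · rw [inv_inv] at h2
        exact hcon h2
    have hπE : (π : M) ∈ E := π.2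
    let πE : E := ⟨π, hπE⟩
    have hιπ' : ι' πE = h := hιπ
    have hπE0 : πE ≠ 0 := fun h => hπ0 (congrArg Subtype.val h)
    intro c hc
    have hcM : (c : M) ≠ 0 := fun h => hc (Subtype.ext h)
    have hicU : ι' c ≠ 0 := by rwa [ne_eq, map_eq_zero_iff _ ι'.injective]
    obtain ⟨q, hq⟩ := hπv c c.2 hcM
    have hvu : hM.vc ((c : M) / (π : M) ^ q) = 1 := by
      rw [map_div₀, map_zpow₀, hq]
      exact div_self (zpow_ne_zero _ ((Valuation.ne_zero_iff _).2 hπ0))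
    obtain ⟨m, hm⟩ := hM.fv_of_vc _ hvu
    have hπq : (π : M) ^ q ≠ 0 := zpow_ne_zero _ hπ0
    have htm : (σ X) ^ m ≠ 0 := zpow_ne_zero _ htM
    have hprod : (π : M) ^ q * (σ X) ^ m ≠ 0 := mul_ne_zero hπq htm
    have hfc : hM.fv (c : M) = hM.fv ((π : M) ^ q * (σ X) ^ m) := by
      rw [map_mul, map_zpow₀ hM.fv (σ X), ← hm, map_div₀]
      rw [mul_div_cancel₀ _ ((Valuation.ne_zero_iff _).2 hπq)]
    have hprodU : d ^ q * (diag N (τ X)) ^ m ≠ 0 :=
      mul_ne_zero (zpow_ne_zero _ hd0) (zpow_ne_zero _ htU)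
    have hprodU' : h ^ q * (diag N (τ X)) ^ m ≠ 0 :=
      mul_ne_zero (zpow_ne_zero _ hh0) (zpow_ne_zero _ htU)
    have hfc' : hU.fv (ι' c) = hU.fv (h ^ q * (diag N (τ X)) ^ m) := by
      rw [fv_eq_iff hM hcM hprod] at hfc
      rw [fv_eq_iff hU hicU hprodU']
      have e1 : ι' c / (h ^ q * (diag N (τ X)) ^ m) = ι' (c / (πE ^ q * tE ^ m)) := by
        rw [map_div₀, map_mul, map_zpow₀, map_zpow₀, hιπ', hιt']
      have e2 : (h ^ q * (diag N (τ X)) ^ m) / ι' c = ι' ((πE ^ q * tE ^ m) / c) := by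
        rw [map_div₀, map_mul, map_zpow₀, map_zpow₀, hιπ', hιt']
      rw [e1, e2]
      exact ⟨hforw _ hfc.1, hforw _ hfc.2⟩
    have hfc2 : hU.fv (ι' c) = hU.fv (d ^ q * (diag N (τ X)) ^ m) := by
      rw [hfc', map_mul, map_mul, map_zpow₀ hU.fv h, map_zpow₀ hU.fv d, hhd]
    refine ⟨hcM, hicU, ?_⟩
    have h1 := Λ.mul_mem (Λ.zpow_mem hδ' q) (Λ.zpow_mem ht3 m)
    have h2 : (hM.vu (c : M) hcM, hU.vu (ι' c) hicU) =
        (hM.vu (π : M) hπ0, hU.vu d hd0) ^ q * (hM.vu (σ X) ht1, hU.vu (diag N (τ X)) ht2) ^ m := by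
      refine Prod.ext ?_ ?_
      · show hM.vu (c : M) hcM = hM.vu (π : M) hπ0 ^ q * hM.vu (σ X) ht1 ^ m
        rw [← vu_zpow hM hπ0, ← vu_zpow hM ht1, ← vu_mul, vu_eq_iff]
        exact hfc
      · show hU.vu (ι' c) hicU = hU.vu d hd0 ^ q * hU.vu (diag N (τ X)) ht2 ^ m
        rw [← vu_zpow hU hd0, ← vu_zpow hU ht2, ← vu_mul, vu_eq_iff]
        exact hfc2
    rw [h2]
    exact h1

end BF80
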