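import Pool.Agent.BF80.Alg
import Pool.Agent.BF80.Star
import Pool.Agent.BF80.Up
import Pool.Agent.BF80.MdlSt

/-!
# The target field of case II: the ultrapower of `k0` with a coarse valuation, test elements
-/

set_option autoImplicit false
set_option maxSynthPendingDepth 10

open Polynomial Filter

namespace BF80

open FT80

variable {p : ℕ} [Fact p.Prime]

/-- the ultrapower of `k0` inside the ultrapower of `K` -/
noncomputable def toFF (p : ℕ) [Fact p.Prime] : UP (k0 p) →+* FF p (hyperfilter ℕ) where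
  toFun := Filter.Germ.map (fun z : k0 p => (z : KK p))
  map_one' := rfl
  map_mul' := by
    intro a b
    obtain ⟨f, rfl⟩ := cl_surj a
    obtain ⟨g, rfl⟩ := cl_surj b
    rfl
  map_zero' := rfl
  map_add' := by
    intro a b
    obtain ⟨f, rfl⟩ := cl_surj a
    obtain ⟨g, rfl⟩ := cl_surj b
    rfl

theorem toFF_cl (f : ℕ → k0 p) :
    toFF p (cl (k0 p) f) = cls (hyperfilter ℕ) (fun l => (f l : KK p)) := rfl

/-- growth of the test elements -/
def kk (p l : ℕ) : ℕ := p * l + 1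

/-- the coarse valuation of the target -/
noncomputable def v2 (p : ℕ) [Fact p.Prime] :
    Valuation (UP (k0 p)) (AA (p := p) (hyperfilter ℕ) (kk p)).ValueGroup :=
  (vv (hyperfilter ℕ) (kk p)).comap (toFF p)

theorem v2_apply (h : UP (k0 p)) : v2 p h = vv (hyperfilter ℕ) (kk p) (toFF p h) := rfl

/-- `k0` acts on its ultrapower -/
noncomputable abbrev algUP (p : ℕ) [Fact p.Prime] : Algebra (k0 p) (UP (k0 p)) :=
  (diag (k0 p)).toAlgebra

attribute [local instance] algUP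

theorem algebraMap_UP (a : k0 p) : algebraMap (k0 p) (UP (k0 p)) a = cl (k0 p) (fun _ => a) := rfl

theorem ev_ge (N : ℕ) : ∀ᶠ l in ((hyperfilter ℕ : Ultrafilter ℕ) : Filter ℕ), N ≤ l :=
  Nat.hyperfilter_le_atTop (Filter.eventually_ge_atTop N)

theorem ev_ge_kk (N : ℕ) : ∀ᶠ l in ((hyperfilter ℕ : Ultrafilter ℕ) : Filter ℕ), N ≤ kk p l := by
  filter_upwards [ev_ge N] with l hl
  have hp : 1 ≤ p := (Fact.out : p.Prime).one_lt.le
  unfold kk
  nlinarith

theorem niceV : Nice (KK p) (vv (p := p) (hyperfilter ℕ) (kk p)) := nice_FF ev_ge_kk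

theorem nice_v2 : Nice (k0 p) (v2 p) := by
  refine ⟨?_, ?_⟩
  · intro a ha
    have h1 := (niceV (p := p)).triv (a : KK p) (fun h => ha (Subtype.ext h))
    exact h1
  · intro q hq h hh hqh
    have hN := niceV (p := p)
    set q' : Polynomial (KK p) := q.map (k0 p).subtype with hq'
    have hq'0 : q' ≠ 0 := (Polynomial.map_ne_zero_iff (k0 p).subtype.injective).mpr hq
    have hcomp : (toFF p).comp (algebraMap (k0 p) (UP (k0 p))) =
        (algebraMap (KK p) (FF p (hyperfilter ℕ))).comp (k0 p).subtype := rfl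
    have e1 : toFF p (aeval h q) = aeval (toFF p h) q' := by
      rw [aeval_def, hom_eval₂, hcomp, aeval_def, hq', eval₂_map]
    rw [v2_apply, e1] at hqh
    obtain ⟨c, hc⟩ := hN.res q' hq'0 (toFF p h) hh hqh
    have hroot : q'.eval c = 0 := by
      by_contra hne
      obtain ⟨q₁, hq₁⟩ := Polynomial.X_sub_C_dvd_sub_C_eval (a := c) (p := q')
      have h2 := congrArg (aeval (toFF p h)) hq₁
      rw [map_sub, map_mul, map_sub, aeval_X, aeval_C, aeval_C] at h2
      have h3 : algebraMap (KK p) (FF p (hyperfilter ℕ)) (q'.eval c) = aeval (toFF p h) q' -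
          (toFF p h - algebraMap (KK p) (FF p (hyperfilter ℕ)) c) * aeval (toFF p h) q₁ := by
        rw [← h2]; ring
      have h4 : vv (hyperfilter ℕ) (kk p)
          (algebraMap (KK p) (FF p (hyperfilter ℕ)) (q'.eval c)) < 1 := by
        rw [h3]
        apply Valuation.map_sub_lt _ hqh
        rw [map_mul]
        exact mul_lt_one_of_lt_of_le hc (hN.aeval_le hh q₁)
      rw [hN.triv _ hne] at h4
      exact lt_irrefl _ h4
    have hc0 : c ∈ k0 p := by
      apply rel_closed (tauK p) q hq c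
      rw [← eval_map]
      exact hroot
    refine ⟨⟨c, hc0⟩, ?_⟩
    rw [v2_apply, map_sub]
    exact hc

theorem v2_lt_one {f : ℕ → k0 p} :
    v2 p (cl (k0 p) f) < 1 ↔ Sm (hyperfilter ℕ) (kk p) (fun l => (f l : KK p)) := by
  rw [v2_apply, toFF_cl, vv_lt_one (ev_ge_kk 1)]

theorem hfield_v2 : HField (k0 p) (v2 p) := by
  refine ⟨nice_v2, fun F h1 h2 h3 => ?_⟩
  refine Mdl.hens_of_val (mdl_up mdl_k0) (v2 p) ?_ ?_ F h1 h2 h3
  · intro x hx
    obtain ⟨f, rfl⟩ := cl_surj x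
    have h4 := (VO_up (sig0 p X) f).mp hx
    rw [v2_apply, toFF_cl, vv_le_one]
    apply Bd.of_inO
    filter_upwards [h4] with l hl
    exact (VO_k0 _).mp hl
  · have hX : sig0 p X ≠ 0 := by
      intro h
      have h5 : tauK p X = 0 := congrArg Subtype.val h
      exact X_ne_zero (tauK_inj' p (by rw [h5, map_zero]))
    exact (nice_v2 (p := p)).triv _ hX

/-! ### test elements -/

/-- the test polynomials -/
noncomputable def WP (γ : ZMod p) (j n M κ : ℕ) : P1 p := C γ * X ^ j * (X ^ M * (1 + X ^ κ)) ^ n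

theorem tauK_WP (γ : ZMod p) (j n M κ : ℕ) : tauK p (WP γ j n M κ) = iK p (WW γ j n M κ) := by
  have h1 : tau p (WP γ j n M κ) = WW γ j n M κ := by
    simp only [tau, WP, WW, map_mul, map_pow, map_add, map_one]
    simp
  rw [tauK, RingHom.comp_apply, h1]

/-- the exponents -/
def MMd (p l : ℕ) : ℕ := (l + 1) * (p * l + 1)

/-- the coordinates of the test element -/
noncomputable def Wl (γ : ℕ → ZMod p) (j : ℕ → ℕ) (l : ℕ) : k0 p :=
  sig0 p (WP (γ l) (j l) (nn p l) (MMd p l) (p * l + 1))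

theorem Wl_coe (γ : ℕ → ZMod p) (j : ℕ → ℕ) (l : ℕ) :
    (Wl γ j l : KK p) = iK p (WW (γ l) (j l) (nn p l) (MMd p l) (p * l + 1)) := tauK_WP _ _ _ _ _

theorem test_ne {γ : ℕ → ZMod p} (hγ : ∀ l, γ l ≠ 0) (j : ℕ → ℕ) : cl (k0 p) (Wl γ j) ≠ 0 := by
  intro h
  rw [← map_zero (cl (k0 p)), cl_eq] at h
  obtain ⟨l, hl⟩ := h.exists
  have h1 : (Wl γ j l : KK p) = 0 := congrArg Subtype.val hl
  rw [Wl_coe] at h1
  exact WW_ne_zero (hγ l) _ _ _ (Nat.succ_ne_zero _) (iK_injective (by rw [h1, map_zero]))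

theorem test_lt (γ : ℕ → ZMod p) (j : ℕ → ℕ) : v2 p (cl (k0 p) (Wl γ j)) < 1 := by
  rw [v2_lt_one]
  intro C
  filter_upwards [ev_ge C] with l hl
  rw [Wl_coe, inO_TT_iff]
  have h1 : (PowerSeries.X : OO p) ^ (C * kk p l) ∣ PowerSeries.X ^ MMd p l := by
    apply pow_dvd_pow
    show C * (p * l + 1) ≤ (l + 1) * (p * l + 1)
    exact Nat.mul_le_mul_right _ (by omega)
  apply dvd_trans h1
  unfold WW
  apply Dvd.dvd.mul_left
  exact dvd_trans (Dvd.intro _ rfl) (dvd_pow_self _ (by have := nn_pos (p := p) l; omega))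

theorem test_wild {γ : ℕ → ZMod p} (hγ : ∀ l, γ l ≠ 0) (j : ℕ → ℕ) {e : ℕ} {π u : UP (k0 p)}
    {ζ : k0 p} (hζ : ζ ≠ 0) (h : cl (k0 p) (Wl γ j) = π ^ e * u)
    (hu : v2 p (u - algebraMap (k0 p) (UP (k0 p)) ζ) < 1) : ¬ p ∣ e := by
  rintro ⟨e', rfl⟩
  obtain ⟨πl, rfl⟩ := cl_surj π
  obtain ⟨ul, rfl⟩ := cl_surj u
  rw [algebraMap_UP, ← map_sub, v2_lt_one] at hu
  rw [← map_pow, ← map_mul, cl_eq] at h
  refine no_wild ev_ge hγ (j := j) (nn := fun l => nn p l) (MM := MMd p)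
    (fun l => nn_not_dvd l) (h := fun l => ((πl l : KK p)) ^ e') (u := fun l => (ul l : KK p))
    (ζ := (ζ : KK p)) (fun h0 => hζ (Subtype.ext h0)) ?_ hu
  filter_upwards [h] with l hl
  have h1 := congrArg (fun z : k0 p => (z : KK p)) hl
  simp only [Wl_coe] at h1
  rw [h1, ← pow_mul, mul_comm e' p]
  rfl

end BF80
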