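import Pool.Agent.BF80.Defs3
import Pool.Agent.BF80.MdlJ

/-!
# Test elements in models: units, wild and tame conditions
-/

set_option autoImplicit false
set_option maxSynthPendingDepth 10

open Polynomial Filter

namespace BF80

open FT80

namespace TG

variable {p : ℕ} [hp : Fact p.Prime]

section units

variable {U : Type*} [Field U] {τ : P1 p →+* U} (hU : Mdl p τ)

/-- units of the valuation ring -/
structure Un (t x : U) : Prop where
  vo : VO t x
  inv : VO t x⁻¹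
  ne : x ≠ 0

include hU

theorem Un.one : Un (τ X) (1 : U) := ⟨hU.one, by rw [inv_one]; exact hU.one, one_ne_zero⟩

theorem Un.mul {x y : U} (hx : Un (τ X) x) (hy : Un (τ X) y) : Un (τ X) (x * y) :=
  ⟨hU.mul _ _ hx.vo hy.vo, by rw [mul_inv]; exact hU.mul _ _ hx.inv hy.inv,
    mul_ne_zero hx.ne hy.ne⟩

omit hU in
theorem Un.symm {t x : U} (hx : Un t x) : Un t x⁻¹ :=
  ⟨hx.inv, by rw [inv_inv]; exact hx.vo, inv_ne_zero hx.ne⟩

theorem Un.div {x y : U} (hx : Un (τ X) x) (hy : Un (τ X) y) : Un (τ X) (x / y) := by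
  rw [div_eq_mul_inv]
  exact Un.mul hU hx hy.symm

theorem Un.pow {x : U} (hx : Un (τ X) x) (n : ℕ) : Un (τ X) (x ^ n) :=
  ⟨hU.VO_pow hx.vo n, by rw [← inv_pow]; exact hU.VO_pow hx.inv n, pow_ne_zero _ hx.ne⟩

theorem Un.one_add {z : U} (hz : VO (τ X) z) : Un (τ X) (1 + τ X * z) :=
  ⟨hU.add _ _ hU.one (hU.mul _ _ hU.VO_t hz), (hU.inv_one_add hz).2, (hU.inv_one_add hz).1⟩

theorem Un.nat {n : ℕ} (hn : ¬ p ∣ n) : Un (τ X) (n : U) := by
  have h1 : ((n : ℕ) : ZMod p) ≠ 0 := by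
    rw [Ne, ZMod.natCast_eq_zero_iff]
    exact hn
  have h2 : ((n : ℕ) : U) = τ (C ((n : ℕ) : ZMod p)) := by
    rw [map_natCast, map_natCast]
  have h3 := hU.inv_C h1
  rw [h2]
  refine ⟨hU.VO_C _, ?_, ?_⟩
  · rw [inv_eq_of_mul_eq_one_right h3]
    exact hU.VO_C _
  · exact left_ne_zero_of_mul_eq_one h3

/-- `t` times a unit is not a `p`-th power -/
theorem no_pth {y ε : U} (hε : Un (τ X) ε) (h : y ^ p = τ X * ε) : False := by
  have ht := hU.t_ne
  have hp2 : 2 ≤ p := hp.out.two_le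
  have hp0 : p ≠ 0 := by omega
  have hy0 : y ≠ 0 := by
    rintro rfl
    rw [zero_pow hp0] at h
    exact mul_ne_zero ht hε.ne h.symm
  have h1 : ¬ VO (τ X) y⁻¹ := by
    intro hy
    apply hU.tinv
    have h2 : (τ X)⁻¹ = ε * y⁻¹ ^ p := by
      rw [inv_pow, h]
      have := hε.ne
      field_simp
    rw [h2]
    exact hU.mul _ _ hε.vo (hU.VO_pow hy p)
  have h2 : VO (τ X) y := (hU.inv y).resolve_right h1
  have h3 : VO (τ X) (y / τ X) := (hU.div_t_or_inv h2).resolve_right fun h => h1 h.2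
  apply hU.tinv
  have h4 : (τ X)⁻¹ = τ X ^ (p - 2) * ((y / τ X) ^ p * ε⁻¹) := by
    obtain ⟨q, hq⟩ : ∃ q, p = q + 2 := ⟨p - 2, by omega⟩
    rw [div_pow, h]
    have h5 : τ X ^ p = τ X ^ (p - 2) * (τ X * τ X) := by
      rw [← pow_two, ← pow_add]
      congr 1
      omega
    rw [h5]
    have := hε.ne
    have h6 : τ X ^ (p - 2) ≠ 0 := pow_ne_zero _ ht
    field_simp
  rw [h4]
  exact hU.mul _ _ (hU.VO_pow hU.VO_t _) (hU.mul _ _ (hU.VO_pow h3 p) hε.inv)

/-- binomial expansion to first order -/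
theorem one_add_pow_eq {x : U} (hx : VO (τ X) x) (n : ℕ) :
    ∃ q, VO (τ X) q ∧ (1 + x) ^ n = 1 + n * x + x ^ 2 * q := by
  induction n with
  | zero => exact ⟨0, VO_zero _, by simp⟩
  | succ n ih =>
    obtain ⟨q, hq, e⟩ := ih
    refine ⟨n + q + x * q, ?_, ?_⟩
    · exact hU.add _ _ (hU.add _ _ (natCast_mem hU.OV n) hq) (hU.mul _ _ hx hq)
    · rw [pow_succ, e]
      push_cast
      ring

/-- the quotient of two test factors -/
theorem quot_unit {a b : U} {n : ℕ} (hn : ¬ p ∣ n) (ha0 : a ≠ 0) (ha : VO (τ X) (a / τ X))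
    (hb : VO (τ X) (b / (a * τ X))) :
    Un (τ X) ((((1 + a) / (1 + b)) ^ n - 1) / a) := by
  have ht := hU.t_ne
  obtain ⟨α, hα⟩ : ∃ α, α = a / τ X := ⟨_, rfl⟩
  obtain ⟨β, hβ⟩ : ∃ β, β = b / (a * τ X) := ⟨_, rfl⟩
  rw [← hα] at ha
  rw [← hβ] at hb
  have ea : a = τ X * α := by rw [hα]; field_simp
  have eb : b = τ X * (a * β) := by rw [hβ]; field_simp
  have hVa : VO (τ X) a := by rw [ea]; exact hU.mul _ _ hU.VO_t ha
  have hb1 : Un (τ X) (1 + b) := by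
    rw [eb]; exact Un.one_add hU (hU.mul _ _ hVa hb)
  -- the first factor
  obtain ⟨x, hx⟩ : ∃ x, x = (1 + τ X * -β) / (1 + b) := ⟨_, rfl⟩
  have hxU : Un (τ X) x := by
    rw [hx]
    exact Un.div hU (Un.one_add hU hb.neg) hb1
  have e1 : (1 + a) / (1 + b) = 1 + a * x := by
    have := hb1.ne
    rw [hx]
    field_simp
    rw [eb]
    ring
  obtain ⟨q, hq, e2⟩ := one_add_pow_eq hU (hU.mul _ _ hVa hxU.vo) n
  have hnU := Un.nat hU hn
  have e3 : (((1 + a) / (1 + b)) ^ n - 1) / a =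
      (n * x) * (1 + τ X * (α * (x * (q * (n : U)⁻¹)))) := by
    rw [e1, e2]
    have h1 := hnU.ne
    rw [div_eq_iff ha0]
    field_simp
    rw [ea]
    ring
  rw [e3]
  exact Un.mul hU (Un.mul hU hnU hxU) (Un.one_add hU
    (hU.mul _ _ ha (hU.mul _ _ hxU.vo (hU.mul _ _ hq hnU.inv))))

end units

end TG

end BF80
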