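import Pool.Agent.BF80.TargetG0

/-!
# Test elements in models: two wild candidates are incompatible, tame quotients
-/

set_option autoImplicit false
set_option maxSynthPendingDepth 10

open Polynomial Filter

namespace BF80

open FT80

namespace TG

variable {p : ℕ} [hp : Fact p.Prime]

section pair

variable {U : Type*} [Field U] {τ : P1 p →+* U} (hU : Mdl p τ)

include hU

omit hU in
theorem charP_U (τ : P1 p →+* U) : CharP U p := by
  have h : Function.Injective (τ.comp (C : ZMod p →+* P1 p)) := RingHom.injective _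
  exact charP_of_injective_ringHom h p

/-- a normal form of elements close to an algebraic unit -/
theorem close {j : k0 p →+* U} (hj : ∀ f, j (sig0 p f) = τ f) {T : U} (hT0 : T ≠ 0)
    (hT1 : hU.vc T < 1) {u : U} {ζ : k0 p} (hζ : ζ ≠ 0)
    (hu : ∀ n : ℕ, VO (τ X) ((u - j ζ) / T ^ n)) :
    ∃ η : U, VO (τ X) (η / τ X) ∧ u = j ζ * (1 + T * η) := by
  have ht := hU.t_ne
  have hjζ : j ζ ≠ 0 := (map_ne_zero j).2 hζ
  have h1 : (j ζ)⁻¹ ∈ hU.OC := by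
    rw [← map_inv₀]
    exact hU.alg_mem_OC (hU.alg1_hom j hj _)
  obtain ⟨m, hm⟩ := hU.mem_OC.1 h1
  rw [hU.vc_lt_one] at hT1
  have h2 : VO (τ X) (T * (j ζ)⁻¹) := by
    have e : T * (j ζ)⁻¹ = (T / τ X ^ m) * (τ X ^ m * (j ζ)⁻¹) := by
      have : τ X ^ m ≠ 0 := pow_ne_zero _ ht
      field_simp
    rw [e]
    exact hU.mul _ _ (hT1 m) hm
  refine ⟨(u - j ζ) / (j ζ * T), ?_, ?_⟩
  · have e : (u - j ζ) / (j ζ * T) / τ X =
        ((u - j ζ) / T ^ 3) * ((T * (j ζ)⁻¹) * (T / τ X ^ 1)) := by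
      field_simp
    rw [e]
    exact hU.mul _ _ (hu 3) (hU.mul _ _ h2 (hT1 1))
  · field_simp
    ring

/-- two wild candidates are incompatible -/
theorem pair_false {j : k0 p →+* U} (hj : ∀ f, j (sig0 p f) = τ f) {T Y : U} (hT0 : T ≠ 0)
    (hT1 : hU.vc T < 1) (hY : Y ≠ 0) (hTY : T = τ X * Y ^ p) {ε : U} (hε : Un (τ X) ε)
    {A A' u u' : U} {ζ ζ' : k0 p} (hζ : ζ ≠ 0) (hζ' : ζ' ≠ 0) (hA' : A' ≠ 0)
    (e : (A ^ p * u) / (A' ^ p * u') = 1 + T * ε)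
    (hu : ∀ n : ℕ, VO (τ X) ((u - j ζ) / T ^ n))
    (hu' : ∀ n : ℕ, VO (τ X) ((u' - j ζ') / T ^ n)) : False := by
  have ht := hU.t_ne
  have hp2 : 2 ≤ p := hp.out.two_le
  have hp0 : p ≠ 0 := by omega
  have hjζ : j ζ ≠ 0 := (map_ne_zero j).2 hζ
  have hjζ' : j ζ' ≠ 0 := (map_ne_zero j).2 hζ'
  obtain ⟨η, hη, eu⟩ := close hU hj hT0 hT1 hζ hu
  obtain ⟨η', hη', eu'⟩ := close hU hj hT0 hT1 hζ' hu'
  have hT2 := hU.vc_lt_one.1 hT1
  have hVT : VO (τ X) T := by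
    have := hT2 0
    rwa [pow_zero, div_one] at this
  have hVTt : VO (τ X) (T / τ X) := by
    have := hT2 1
    rwa [pow_one] at this
  obtain ⟨s, hs⟩ : ∃ s, s = T / τ X := ⟨_, rfl⟩
  rw [← hs] at hVTt
  have eT : T = τ X * s := by rw [hs]; field_simp
  obtain ⟨a, ha⟩ : ∃ a, a = η / τ X := ⟨_, rfl⟩
  rw [← ha] at hη
  have ea : η = τ X * a := by rw [ha]; field_simp
  obtain ⟨b, hb⟩ : ∃ b, b = η' / τ X := ⟨_, rfl⟩
  rw [← hb] at hη'
  have eb : η' = τ X * b := by rw [hb]; field_simp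
  have hVη : VO (τ X) η := by rw [ea]; exact hU.mul _ _ hU.VO_t hη
  have hVη' : VO (τ X) η' := by rw [eb]; exact hU.mul _ _ hU.VO_t hη'
  have hv1 : Un (τ X) (1 + T * η) := by
    rw [eT, mul_assoc]
    exact Un.one_add hU (hU.mul _ _ hVTt hVη)
  have hv2 : Un (τ X) (1 + T * η') := by
    rw [eT, mul_assoc]
    exact Un.one_add hU (hU.mul _ _ hVTt hVη')
  -- the new unit
  obtain ⟨m, hm⟩ : ∃ m, m = (b - a) * (1 + T * η)⁻¹ := ⟨_, rfl⟩
  have hVm : VO (τ X) m := by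
    rw [hm]
    exact hU.mul _ _ (hU.sub hη' hη) hv1.inv
  obtain ⟨ε', hε'⟩ : ∃ ε', ε' = ε * (1 + τ X * (m * (ε⁻¹ + T))) := ⟨_, rfl⟩
  have hεU : Un (τ X) ε' := by
    rw [hε']
    exact Un.mul hU hε (Un.one_add hU (hU.mul _ _ hVm (hU.add _ _ hε.inv hVT)))
  have h1 : (1 + T * ε) * ((1 + T * η') / (1 + T * η)) = 1 + T * ε' := by
    have h2 := hv1.ne
    have h3 := hε.ne
    have h4 : (1 + T * η') / (1 + T * η) = 1 + T * (τ X * m) := by
      rw [div_eq_iff h2, hm, mul_comm (b - a)]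
      have h5 : (1 + T * (τ X * ((1 + T * η)⁻¹ * (b - a)))) * (1 + T * η) =
          (1 + T * η) + T * (τ X * (b - a)) * ((1 + T * η)⁻¹ * (1 + T * η)) := by ring
      rw [h5, inv_mul_cancel₀ h2, eb]
      linear_combination (-T) * ea
    have h6 : ε' = ε + τ X * m * (1 + T * ε) := by
      rw [hε']
      have h7 : ε * (1 + τ X * (m * (ε⁻¹ + T))) =
        ε + τ X * m * (ε * ε⁻¹ + T * ε) := by ring
      rw [h7, mul_inv_cancel₀ h3]
    rw [h4, h6]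
    ring
  obtain ⟨B, hB⟩ : ∃ B, B = A / A' := ⟨_, rfl⟩
  have h2 : B ^ p * (j ζ / j ζ') = 1 + T * ε' := by
    rw [← h1, ← e, eu, eu', hB, div_pow]
    have h3 := hv1.ne
    have h4 := hv2.ne
    have h5 : A' ^ p ≠ 0 := pow_ne_zero _ hA'
    field_simp
  have h3 : B ^ p = j (ζ' / ζ) * (1 + T * ε') := by
    rw [← h2, map_div₀]
    field_simp
  -- the standard part
  obtain ⟨st, hst1, hst2, hst3⟩ := hU.exists_st
  obtain ⟨j0, hj1, -, hj3, hj4⟩ := hU.exists_j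
  obtain rfl : j = j0 := hj3 j hj
  have hκ0 : ζ' / ζ ≠ 0 := div_ne_zero hζ' hζ
  have hTε : hU.vc (T * ε') < 1 := by
    rw [map_mul]
    exact mul_lt_one_of_lt_of_le hT1 (hU.vc_le_one.2 (hU.OC_of_VO hεU.vo))
  have hBC : B ∈ hU.OC := by
    have h4 : B ^ p ∈ hU.OC := by
      rw [h3]
      exact hU.OC.mul_mem _ _ (hU.alg_mem_OC (hU.alg1_hom j hj _))
        (hU.OC.add_mem _ _ hU.OC.one_mem (hU.vc_le_one.1 hTε.le))
    rw [← hU.vc_le_one] at h4 ⊢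
    rw [map_pow] at h4
    by_contra h5
    rw [not_le] at h5
    exact absurd h4 (not_le.2 (one_lt_pow₀ h5 hp0))
  obtain ⟨β, hβ⟩ : ∃ β, β = st ⟨B, hBC⟩ := ⟨_, rfl⟩
  have hβp : β ^ p = ((ζ' / ζ : k0 p) : KK p) := by
    obtain ⟨h5, h6⟩ := hj4 st hst1 (ζ' / ζ)
    have h7 : (⟨B, hBC⟩ : hU.OC) ^ p = ⟨j (ζ' / ζ), h5⟩ *
        (1 + ⟨T * ε', hU.vc_le_one.1 hTε.le⟩) := by
      apply Subtype.ext
      exact h3
    rw [hβ, ← map_pow, h7, map_mul, map_add, map_one,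
      (hst3 ⟨T * ε', hU.vc_le_one.1 hTε.le⟩).2 hTε, add_zero, mul_one, h6]
  have hβk : β ∈ k0 p := by
    refine root_mem_k0 (X ^ p - C (ζ' / ζ)) (X_pow_sub_C_ne_zero (by omega) _) β ?_
    rw [eval₂_sub, eval₂_X_pow, eval₂_C, hβp]
    exact sub_self _
  obtain ⟨β0, hβ0⟩ : ∃ β0 : k0 p, β0 ^ p = ζ' / ζ := ⟨⟨β, hβk⟩, Subtype.ext hβp⟩
  have hβ00 : β0 ≠ 0 := by
    rintro rfl
    rw [zero_pow hp0] at hβ0
    exact hκ0 hβ0.symm
  have hjβ : j β0 ≠ 0 := (map_ne_zero j).2 hβ00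
  have := charP_U τ
  have h8 : (B / j β0 - 1) ^ p = T * ε' := by
    rw [sub_pow_char, div_pow, h3, ← map_pow, hβ0, one_pow]
    have : j (ζ' / ζ) ≠ 0 := (map_ne_zero j).2 hκ0
    field_simp
    ring
  refine no_pth hU hεU (y := (B / j β0 - 1) / Y) ?_
  rw [div_pow, h8, hTY]
  have : Y ^ p ≠ 0 := pow_ne_zero _ hY
  field_simp

/-- tame quotients of test elements descend -/
theorem tame {M : Type*} [Field M] {σ : P1 p →+* M} {jM : k0 p →+* M}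
    (hjM : ∀ f, jM (sig0 p f) = σ f) {j : k0 p →+* U} (hj : ∀ f, j (sig0 p f) = τ f)
    {γ jj n e : ℕ} (he : ¬ p ∣ e) (hen : e ∣ n) {ζ : k0 p} (hζ : ζ ≠ 0) {z x : U} (hx : x ≠ 0)
    (h : j ζ * z ^ e = γ * τ X ^ jj * x ^ n) {π y : M}
    (hπ : π = γ * σ X ^ jj * y ^ n) : ∃ g : M, jM ζ * g ^ e = π := by
  have ht := hU.t_ne
  have he0 : 0 < e := Nat.pos_of_ne_zero (by rintro rfl; exact he (dvd_zero p))
  have hjζ : j ζ ≠ 0 := (map_ne_zero j).2 hζ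
  obtain ⟨q, rfl⟩ := hen
  obtain ⟨α, hα⟩ : ∃ α : k0 p, α = (γ : k0 p) * sig0 p X ^ jj := ⟨_, rfl⟩
  have hxq : x ^ q ≠ 0 := pow_ne_zero _ hx
  have h1 : (z / x ^ q) ^ e = j (α / ζ) := by
    rw [div_pow, map_div₀, hα, map_mul, map_pow, map_natCast, hj, div_eq_div_iff (pow_ne_zero _ hxq) hjζ]
    rw [← pow_mul, mul_comm q e]
    linear_combination h
  obtain ⟨j0, hj1, hj2, hj3, -⟩ := hU.exists_j
  obtain rfl : j = j0 := hj3 j hj
  have h2 : Alg1 τ (z / x ^ q) := by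
    have h3 : Alg1 τ ((z / x ^ q) ^ e) := by
      rw [h1]
      exact hU.alg1_hom j hj _
    let _ := τ.toAlgebra
    exact IsAlgebraic.of_pow (R := P1 p) he0 h3
  obtain ⟨w, hw⟩ := (hj2 _).1 h2
  have h4 : w ^ e = α / ζ := by
    apply RingHom.injective j
    rw [map_pow, hw, h1]
  refine ⟨jM w * y ^ q, ?_⟩
  rw [mul_pow, ← map_pow, h4, map_div₀, hα, hπ, map_mul, map_pow, map_natCast, hjM]
  have hjMζ : jM ζ ≠ 0 := (map_ne_zero jM).2 hζ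
  rw [← pow_mul, mul_comm q e]
  field_simp

end pair

end TG

end BF80
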