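import Pool.Agent.BF80.Defs3

/-!
# One step of the extension of partial isomorphisms between Z-groups
-/

set_option maxSynthPendingDepth 10

namespace BF80

namespace ZV

section

variable {Γ Δ : Type*} [CommGroup Γ] [LinearOrder Γ] [IsOrderedMonoid Γ] [CommGroup Δ]
  [LinearOrder Δ] [IsOrderedMonoid Δ]

theorem pow_lt_pow_of_lt {t : Γ} (ht : t < 1) {n m : ℕ} (h : n < m) : t ^ m < t ^ n := by
  have h1 := zpow_right_strictAnti ht (show (n : ℤ) < m by exact_mod_cast h)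
  simpa using h1

/-- order on a partial isomorphism -/
theorem le_iff {Λ : Subgroup (Γ × Δ)} (hΛ : PIso Λ) {a b : Γ × Δ} (ha : a ∈ Λ) (hb : b ∈ Λ) :
    a.1 ≤ b.1 ↔ a.2 ≤ b.2 := by
  have h := hΛ.le (a * b⁻¹) (Λ.mul_mem ha (Λ.inv_mem hb))
  simp only [Prod.fst_mul, Prod.snd_mul, Prod.fst_inv, Prod.snd_inv, mul_inv_le_one_iff] at h
  exact h

theorem lt_iff {Λ : Subgroup (Γ × Δ)} (hΛ : PIso Λ) {a b : Γ × Δ} (ha : a ∈ Λ) (hb : b ∈ Λ) :
    a.1 < b.1 ↔ a.2 < b.2 := by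
  have h := le_iff hΛ hb ha
  rw [← not_le, ← not_le, h]

theorem ZG.pow_dvd {t : Γ} (ht : ZG t) {n : ℕ} (hn : n ≠ 0) {m : ℤ} {b : Γ}
    (h : t ^ m = b ^ n) : (n : ℤ) ∣ m := by
  have hn0 : (0 : ℤ) < n := by exact_mod_cast Nat.pos_of_ne_zero hn
  have h1 : m = n * (m / n) + m % n := (Int.mul_ediv_add_emod m n).symm
  have h2 : 0 ≤ m % n := Int.emod_nonneg _ hn0.ne'
  have h3 : m % n < n := Int.emod_lt_of_pos _ hn0
  set q := m / n with hq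
  obtain ⟨r, hr⟩ : ∃ r : ℕ, m % n = r := ⟨(m % n).toNat, (Int.toNat_of_nonneg h2).symm⟩
  rw [hr] at h1 h3
  have hrn : r < n := by exact_mod_cast h3
  rcases Nat.eq_zero_or_pos r with h0 | h0
  · rw [h1, h0]
    exact ⟨q, by ring⟩
  · exfalso
    have h4 : (b * (t ^ q)⁻¹) ^ n = t ^ r := by
      rw [mul_pow, ← h, h1, inv_pow, ← zpow_natCast (t ^ q) n, ← zpow_mul, zpow_add, mul_comm q,
        mul_right_comm, mul_inv_cancel, one_mul, zpow_natCast]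
    have h5 : t ^ r < 1 := pow_lt_one' ht.lt h0.ne'
    have h6 : b * (t ^ q)⁻¹ < 1 := by
      rw [← h4] at h5
      exact (pow_lt_one_iff hn).1 h5
    have h7 : b * (t ^ q)⁻¹ ≤ t := ht.max _ h6
    have h8 : (b * (t ^ q)⁻¹) ^ n ≤ t ^ n := pow_le_pow_left' h7 n
    rw [h4] at h8
    have h9 : t ^ n < t ^ r := pow_lt_pow_of_lt ht.lt hrn
    exact absurd h8 (not_le.2 h9)

/-- a cut is realised by an `M`-th power -/
theorem cut {t : Γ} {s : Δ} (ht : ZG t) (hs : ZG s) {Λ : Subgroup (Γ × Δ)} (hΛ : PIso Λ)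
    (hts : (t, s) ∈ Λ) {g : Γ} (hg : ∀ δ, (g, δ) ∉ Λ) (C : Finset (Γ × Δ))
    (hC : ∀ e ∈ C, e ∈ Λ) {M : ℕ} (hM : M ≠ 0) :
    ∃ β : Δ, ∀ e ∈ C, (e.1 < g → e.2 < β ^ M) ∧ (g < e.1 → β ^ M < e.2) := by
  classical
  have hlo : ∀ e ∈ Λ, e.1 < g → ∀ i : ℕ, e.1 * (t ^ i)⁻¹ < g := by
    intro e he heg i
    induction i with
    | zero => simpa using heg
    | succ i ih =>
      have h1 : e.1 * (t ^ i)⁻¹ * g⁻¹ < 1 := by
        rw [mul_inv_lt_one_iff]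
        exact ih
      have h2 := ht.max _ h1
      have h3 : e.1 * (t ^ (i + 1))⁻¹ ≤ g := by
        rw [mul_inv_le_iff_le_mul] at h2
        rw [pow_succ, mul_inv, ← mul_assoc, mul_inv_le_iff_le_mul, mul_comm g]
        exact h2
      refine lt_of_le_of_ne h3 ?_
      intro h4
      have h5 : (e * ((t, s) ^ (i + 1))⁻¹) ∈ Λ := Λ.mul_mem he (Λ.inv_mem (Λ.pow_mem hts _))
      apply hg (e.2 * (s ^ (i + 1))⁻¹)
      rw [← h4]
      exact h5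
  have hlo2 : ∀ e ∈ Λ, ∀ f ∈ Λ, e.1 < g → g < f.1 → ∀ i : ℕ, e.2 * (s ^ i)⁻¹ < f.2 := by
    intro e he f hf heg hgf i
    have h1 := (hlo e he heg i).trans hgf
    have h5 : (e * ((t, s) ^ i)⁻¹) ∈ Λ := Λ.mul_mem he (Λ.inv_mem (Λ.pow_mem hts _))
    exact (lt_iff hΛ h5 hf).1 h1
  have hs1 : ∀ n : ℕ, s ^ n ≤ 1 := fun n => pow_le_one' hs.lt.le n
  by_cases hL : (C.filter fun e => e.1 < g).Nonempty
  · obtain ⟨lo, hlo', hmax⟩ := Finset.exists_max_image _ (fun e => e.1) hL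
    rw [Finset.mem_filter] at hlo'
    obtain ⟨j, hj, b, hb⟩ := hs.div M hM lo.2
    have hval : (b * s⁻¹) ^ M = lo.2 * (s ^ (j + M))⁻¹ := by
      rw [hb, mul_pow, inv_pow, pow_add, mul_inv]
      rw [mul_comm (s ^ j) (b ^ M), mul_assoc, ← mul_assoc (s ^ j), mul_inv_cancel, one_mul]
    refine ⟨b * s⁻¹, fun e he => ⟨fun h => ?_, fun h => ?_⟩⟩
    · have h1 : e.1 ≤ lo.1 := hmax e (Finset.mem_filter.2 ⟨he, h⟩)
      have h2 := (le_iff hΛ (hC e he) (hC lo hlo'.1)).1 h1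
      refine lt_of_le_of_lt h2 ?_
      rw [hval]
      have h3 : s ^ (j + M) < 1 := pow_lt_one' hs.lt (by omega)
      exact lt_mul_of_one_lt_right' _ (one_lt_inv'.2 h3)
    · rw [hval]
      exact hlo2 lo (hC lo hlo'.1) e (hC e he) hlo'.2 h _
  · by_cases hU : (C.filter fun e => g < e.1).Nonempty
    · obtain ⟨hi, hhi', hmin⟩ := Finset.exists_min_image _ (fun e => e.1) hU
      rw [Finset.mem_filter] at hhi'
      obtain ⟨j, hj, b, hb⟩ := hs.div M hM hi.2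
      refine ⟨b * s, fun e he => ⟨fun h => ?_, fun h => ?_⟩⟩
      · exact absurd ⟨e, Finset.mem_filter.2 ⟨he, h⟩⟩ hL
      · have h1 : hi.1 ≤ e.1 := hmin e (Finset.mem_filter.2 ⟨he, h⟩)
        have h2 := (le_iff hΛ (hC hi hhi'.1) (hC e he)).1 h1
        refine lt_of_lt_of_le ?_ h2
        rw [hb, mul_pow, mul_comm (b ^ M)]
        have h3 : s ^ M < s ^ j := pow_lt_pow_of_lt hs.lt hj
        exact mul_lt_mul_left h3 _
    · refine ⟨1, fun e he => ⟨fun h => ?_, fun h => ?_⟩⟩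
      · exact absurd ⟨e, Finset.mem_filter.2 ⟨he, h⟩⟩ hL
      · exact absurd ⟨e, Finset.mem_filter.2 ⟨he, h⟩⟩ hU

end

end ZV

open ZV

/-- one step of the extension, finitely many conditions -/
theorem zg_step {Γ Δ : Type} [CommGroup Γ] [LinearOrder Γ] [IsOrderedMonoid Γ] [CommGroup Δ]
    [LinearOrder Δ] [IsOrderedMonoid Δ] {t : Γ} {s : Δ} (ht : ZG t) (hs : ZG s)
    (Λ : Subgroup (Γ × Δ)) (hΛ : PIso Λ) (hts : (t, s) ∈ Λ) (γ : Γ)
    (hγ : ∀ n : ℕ, n ≠ 0 → ∀ δ, (γ ^ n, δ) ∉ Λ) (A : Finset (Γ × Δ)) (hA : ∀ a ∈ A, a ∈ Λ)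
    (K : ℕ) : ∃ δ : Δ, (∀ a ∈ A, ∀ k : ℕ, k ≠ 0 → k ≤ K →
        ((a.1 * γ ^ k ≤ 1 ↔ a.2 * δ ^ k ≤ 1) ∧ (1 ≤ a.1 * γ ^ k ↔ 1 ≤ a.2 * δ ^ k))) ∧
      ∀ n : ℕ, n ≠ 0 → n ≤ K → ∀ j : ℕ, ((∃ b, γ = t ^ j * b ^ n) → ∃ b, δ = s ^ j * b ^ n) := by
  classical
  set L := K.factorial with hL
  have hL0 : L ≠ 0 := Nat.factorial_ne_zero K
  obtain ⟨j, hj, β, hβ⟩ := ht.div L hL0 γ
  have hdvd : ∀ k : ℕ, k ≠ 0 → k ≤ K → k ∣ L := fun k hk hkK =>
    Nat.dvd_factorial (Nat.pos_of_ne_zero hk) hkK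
  set e : Γ × Δ → ℕ → Γ × Δ := fun a k => (a ^ (L / k) * (t, s) ^ (j * L))⁻¹ with he
  set C : Finset (Γ × Δ) := (A ×ˢ Finset.range (K + 1)).image fun x => e x.1 x.2 with hC
  have hCΛ : ∀ x ∈ C, x ∈ Λ := by
    intro x hx
    rw [hC, Finset.mem_image] at hx
    obtain ⟨⟨a, k⟩, hak, rfl⟩ := hx
    rw [Finset.mem_product] at hak
    exact Λ.inv_mem (Λ.mul_mem (Λ.pow_mem (hA a hak.1) _) (Λ.pow_mem hts _))
  have hg : ∀ δ, (β ^ (L * L), δ) ∉ Λ := by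
    intro δ hδ
    have h1 : γ ^ L = t ^ (j * L) * β ^ (L * L) := by
      rw [hβ, mul_pow, ← pow_mul, ← pow_mul]
    apply hγ L hL0 (s ^ (j * L) * δ)
    rw [h1]
    exact Λ.mul_mem (Λ.pow_mem hts (j * L)) hδ
  obtain ⟨β', hβ'⟩ := cut ht hs hΛ hts hg C hCΛ (M := L * L) (Nat.mul_ne_zero hL0 hL0)
  refine ⟨s ^ j * β' ^ L, ?_, ?_⟩
  · intro a ha k hk hkK
    obtain ⟨m, hm⟩ := hdvd k hk hkK
    have hm0 : m ≠ 0 := by
      rintro rfl
      exact hL0 (by rw [hm, Nat.mul_zero])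
    have hLk : L / k = m := by
      rw [hm, Nat.mul_div_cancel_left _ (Nat.pos_of_ne_zero hk)]
    have hmem : e a k ∈ C := by
      rw [hC, Finset.mem_image]
      exact ⟨(a, k), Finset.mem_product.2 ⟨ha, Finset.mem_range.2 (by omega)⟩, rfl⟩
    have h1 := hβ' _ hmem
    have hne : (e a k).1 ≠ β ^ (L * L) := by
      intro h
      apply hg (e a k).2
      rw [← h]
      exact hCΛ _ hmem
    have e1 : (e a k).1 = (a.1 ^ m * t ^ (j * L))⁻¹ := by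
      simp only [he, hLk]
      rfl
    have e2 : (e a k).2 = (a.2 ^ m * s ^ (j * L))⁻¹ := by
      simp only [he, hLk]
      rfl
    have e3 : (a.1 * γ ^ k) ^ m = a.1 ^ m * t ^ (j * L) * β ^ (L * L) := by
      rw [mul_pow, ← pow_mul, ← hm, hβ, mul_pow, ← pow_mul, ← pow_mul, mul_assoc]
    have e4 : (a.2 * (s ^ j * β' ^ L) ^ k) ^ m = a.2 ^ m * s ^ (j * L) * β' ^ (L * L) := by
      rw [mul_pow, ← pow_mul, ← hm, mul_pow, ← pow_mul, ← pow_mul, mul_assoc]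
    have e5 : ∀ x y : Γ, x * y ≤ 1 ↔ y ≤ x⁻¹ := fun x y => by
      rw [le_inv_iff_mul_le_one_right, mul_comm]
    have e6 : ∀ x y : Δ, x * y ≤ 1 ↔ y ≤ x⁻¹ := fun x y => by
      rw [le_inv_iff_mul_le_one_right, mul_comm]
    have e7 : ∀ x y : Γ, 1 ≤ x * y ↔ x⁻¹ ≤ y := fun x y => by
      rw [inv_le_iff_one_le_mul']
    have e8 : ∀ x y : Δ, 1 ≤ x * y ↔ x⁻¹ ≤ y := fun x y => by
      rw [inv_le_iff_one_le_mul']
    constructor
    · rw [← pow_le_one_iff hm0, e3, ← pow_le_one_iff (x := a.2 * (s ^ j * β' ^ L) ^ k) hm0, e4,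
        e5, e6, ← e1, ← e2]
      constructor
      · intro h
        exact (h1.2 (lt_of_le_of_ne h hne.symm)).le
      · intro h
        by_contra hcon
        exact absurd (h1.1 (not_le.1 hcon)) (not_lt.2 h)
    · rw [← one_le_pow_iff hm0, e3, ← one_le_pow_iff (x := a.2 * (s ^ j * β' ^ L) ^ k) hm0, e4,
        e7, e8, ← e1, ← e2]
      constructor
      · intro h
        exact (h1.1 (lt_of_le_of_ne h hne)).le
      · intro h
        by_contra hcon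
        exact absurd (h1.2 (not_le.1 hcon)) (not_lt.2 h)
  · intro n hn hnK i hi
    obtain ⟨b, hb⟩ := hi
    obtain ⟨m, hm⟩ := hdvd n hn hnK
    have h1 : t ^ ((i : ℤ) - j) = (β ^ m * b⁻¹) ^ n := by
      have h2 : t ^ j * β ^ L = t ^ i * b ^ n := by rw [← hβ, ← hb]
      rw [zpow_sub, zpow_natCast, zpow_natCast, mul_pow, ← pow_mul, mul_comm m n, ← hm, inv_pow]
      rw [mul_inv_eq_iff_eq_mul, mul_right_comm, eq_mul_inv_iff_mul_eq, ← h2, mul_comm]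
    obtain ⟨q, hq⟩ := ZG.pow_dvd ht hn h1
    refine ⟨s ^ (-q) * β' ^ m, ?_⟩
    have h3 : s ^ i * (s ^ (-q)) ^ n = s ^ j := by
      rw [← zpow_natCast (s ^ (-q)) n, ← zpow_mul, ← zpow_natCast, ← zpow_add, ← zpow_natCast]
      congr 1
      have : -q * n = -(n * q) := by ring
      rw [this, ← hq]
      ring
    rw [mul_pow, ← mul_assoc, h3, ← pow_mul, mul_comm m n, ← hm]

end BF80
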